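import Mathlib

/-!
The sum of the reciprocals of the primes in a residue class diverges, and almost all integers are
divisible by such primes.
-/

set_option autoImplicit false

namespace Pool.Agent.H882

open ArithmeticFunction ArithmeticFunction.vonMangoldt Finset Filter

/-- the reciprocals of the primes larger than `B` in a residue class -/
noncomputable def recip {q : ℕ} (a : ZMod q) (B : ℕ) (p : ℕ) : ℝ :=
  open Classical in if p.Prime ∧ (p : ZMod q) = a ∧ B < p then (1 : ℝ) / p else 0

theorem recip_nonneg {q : ℕ} (a : ZMod q) (B : ℕ) (p : ℕ) : 0 ≤ recip a B p := by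
  unfold recip
  split_ifs
  · positivity
  · exact le_rfl

theorem not_summable_recip {q : ℕ} [NeZero q] {a : ZMod q} (ha : IsUnit a) (B : ℕ) :
    ¬ Summable (recip a B) := by
  classical
  intro hS
  set ε : ℝ := (q.totient : ℝ)⁻¹ with hε
  have hε0 : 0 < ε := inv_pos.mpr (mod_cast q.totient.pos_of_neZero)
  obtain ⟨C, hC⟩ := LSeries_residueClass_lower_bound (q := q) ha
  -- a small tail
  have htail : ∃ N : ℕ, B < N ∧ ∑' n, (if N ≤ n then recip a B n else 0) ≤ ε / 2 := by
    have h1 := tendsto_sum_nat_add (recip a B)
    have h2 : ∀ᶠ i in atTop, ∑' k, recip a B (k + i) < ε / 2 :=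
      (tendsto_order.1 h1).2 _ (by positivity)
    obtain ⟨N, hN1, hN2⟩ := (h2.and (eventually_gt_atTop B)).exists
    refine ⟨N, hN2, ?_⟩
    have h3 : ∑' n, (if N ≤ n then recip a B n else 0) = ∑' k, recip a B (k + N) := by
      have hs : Summable fun n => (if N ≤ n then recip a B n else 0) := by
        refine Summable.of_nonneg_of_le (fun n => ?_) (fun n => ?_) hS
        · split_ifs
          · exact recip_nonneg _ _ _
          · exact le_rfl
        · split_ifs
          · exact le_rfl
          · exact recip_nonneg _ _ _
      rw [← hs.sum_add_tsum_nat_add N]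
      rw [Finset.sum_eq_zero, zero_add]
      · refine tsum_congr fun k => ?_
        rw [if_pos (by omega)]
      · intro n hn
        rw [if_neg]
        rw [Finset.mem_range] at hn
        omega
    rw [h3]
    exact hN1.le
  obtain ⟨N, hBN, hN⟩ := htail
  have hsT : Summable fun n => (if N ≤ n then recip a B n else 0) := by
    refine Summable.of_nonneg_of_le (fun n => ?_) (fun n => ?_) hS
    · split_ifs
      · exact recip_nonneg _ _ _
      · exact le_rfl
    · split_ifs
      · exact le_rfl
      · exact recip_nonneg _ _ _
  have hnp := summable_residueClass_non_primes_div a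
  set C₁ : ℝ := ∑' n : ℕ, (if n.Prime then 0 else residueClass a n) / n with hC₁
  set C₂ : ℝ := ∑ n ∈ Finset.range N, residueClass a n with hC₂
  have hbound : ∀ x : ℝ, x ∈ Set.Ioc (1 : ℝ) 2 →
      ε / (x - 1) - C ≤ C₁ + C₂ + (ε / 2) / (x - 1) := by
    intro x hx
    have hx1 : 0 < x - 1 := sub_pos.2 hx.1
    refine (hC hx).trans ?_
    have hs1 : Summable fun n : ℕ => residueClass a n / (n : ℝ) ^ x :=
      LSeries.summable_real_of_abscissaOfAbsConv_lt <|
        (abscissaOfAbsConv_residueClass_le_one a).trans_lt <| mod_cast hx.1
    have hs2 : Summable fun n : ℕ => (if n ∈ Finset.range N then residueClass a n else 0) :=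
      summable_of_ne_finset_zero (s := Finset.range N) fun n hn => if_neg hn
    have hs3 : Summable fun n : ℕ => (if N ≤ n then recip a B n else 0) * (1 / (x - 1)) :=
      hsT.mul_right _
    have hle : ∀ n : ℕ, residueClass a n / (n : ℝ) ^ x ≤
        ((if n.Prime then 0 else residueClass a n) / n +
          (if n ∈ Finset.range N then residueClass a n else 0)) +
          (if N ≤ n then recip a B n else 0) * (1 / (x - 1)) := by
      intro n
      have h0 := residueClass_nonneg a n
      have hr0 : 0 ≤ (if N ≤ n then recip a B n else 0) * (1 / (x - 1)) := by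
        refine mul_nonneg ?_ (by positivity)
        split_ifs
        · exact recip_nonneg _ _ _
        · exact le_rfl
      rcases Nat.eq_zero_or_pos n with rfl | hn
      · simp only [residueClass_apply_zero, zero_div, Nat.not_prime_zero, if_false]
        have : (0 : ℝ) ≤ (if 0 ∈ Finset.range N then (0 : ℝ) else 0) := by simp
        linarith
      have hn1 : (1 : ℝ) ≤ n := by exact_mod_cast hn
      have hnx : (n : ℝ) ≤ (n : ℝ) ^ x := by
        conv_lhs => rw [← Real.rpow_one (n : ℝ)]
        exact Real.rpow_le_rpow_of_exponent_le hn1 hx.1.le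
      have hdiv : residueClass a n / (n : ℝ) ^ x ≤ residueClass a n / n :=
        div_le_div_of_nonneg_left h0 (by positivity) hnx
      by_cases hp : n.Prime
      · rw [if_pos hp, zero_div, zero_add]
        by_cases hnN : n ∈ Finset.range N
        · rw [if_pos hnN]
          have h1 : residueClass a n / n ≤ residueClass a n := div_le_self h0 hn1
          linarith
        · rw [if_neg hnN, zero_add, if_pos (by rw [Finset.mem_range] at hnN; omega)]
          by_cases hna : (n : ZMod q) = a
          · have hB : B < n := by
              rw [Finset.mem_range] at hnN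
              omega
            have e1 : residueClass a n = Real.log n := by
              rw [residueClass, Set.indicator_of_mem (by exact hna), vonMangoldt_apply_prime hp]
            have e2 : recip a B n = 1 / n := if_pos ⟨hp, hna, hB⟩
            rw [e1, e2]
            have hlog := Real.log_le_rpow_div (x := (n : ℝ)) (by positivity) hx1
            have hsplit : (n : ℝ) ^ x = (n : ℝ) ^ (x - 1) * n := by
              rw [← Real.rpow_add_one (by positivity)]
              congr 1
              ring
            have hpos : 0 < (n : ℝ) ^ (x - 1) := by positivity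
            rw [hsplit, div_le_iff₀ (by positivity)]
            calc Real.log n ≤ (n : ℝ) ^ (x - 1) / (x - 1) := hlog
              _ = 1 / (n : ℝ) * (1 / (x - 1)) * ((n : ℝ) ^ (x - 1) * n) := by
                field_simp
          · have e1 : residueClass a n = 0 := by
              rw [residueClass, Set.indicator_of_notMem (by exact hna)]
            rw [e1, zero_div]
            exact mul_nonneg (recip_nonneg _ _ _) (by positivity)
      · rw [if_neg hp]
        have h2 : (0 : ℝ) ≤ (if n ∈ Finset.range N then residueClass a n else 0) := by
          split_ifs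
          · exact h0
          · exact le_rfl
        linarith
    have h4 := Summable.tsum_le_tsum hle hs1 ((hnp.add hs2).add hs3)
    refine h4.trans ?_
    rw [(hnp.add hs2).tsum_add hs3, hnp.tsum_add hs2, tsum_mul_right]
    have e2 : ∑' n : ℕ, (if n ∈ Finset.range N then residueClass a n else 0) = C₂ := by
      rw [tsum_eq_sum (s := Finset.range N) fun n hn => if_neg hn]
      exact Finset.sum_congr rfl fun n hn => if_pos hn
    rw [e2]
    have h5 : (∑' n, (if N ≤ n then recip a B n else 0)) * (1 / (x - 1)) ≤ (ε / 2) / (x - 1) := by
      rw [mul_one_div]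
      exact div_le_div_of_nonneg_right hN hx1.le
    linarith
  -- the contradiction
  set K : ℝ := |C₁ + C₂ + C| + 1 with hK
  have hK0 : 0 < K := by positivity
  have hKge : C₁ + C₂ + C < K := by
    have := le_abs_self (C₁ + C₂ + C)
    linarith
  set δ : ℝ := min 1 (ε / (2 * K)) with hδ
  have hδ0 : 0 < δ := lt_min one_pos (by positivity)
  have h6 := hbound (1 + δ) ⟨by linarith, by
    have := min_le_left 1 (ε / (2 * K))
    linarith⟩
  have e : 1 + δ - 1 = δ := by ring
  rw [e] at h6
  have h7 : (ε / 2) / δ ≤ C₁ + C₂ + C := by
    have : ε / δ = (ε / 2) / δ + (ε / 2) / δ := by ring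
    linarith
  have h8 : K ≤ (ε / 2) / δ := by
    rw [le_div_iff₀ hδ0]
    have h9 : δ ≤ ε / (2 * K) := min_le_right _ _
    calc K * δ ≤ K * (ε / (2 * K)) := mul_le_mul_of_nonneg_left h9 hK0.le
      _ = ε / 2 := by
        field_simp
  linarith

end Pool.Agent.H882
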