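import Pool.Agent.H882.CenDens

/-!
Integral vectors in a box in given residue classes for several moduli.
-/

set_option autoImplicit false

namespace Pool.Agent.H882

/-- reduction -/
def red {N : ℕ} (p : ℕ) (u : Fin N → ℤ) : Fin N → ZMod p := fun j => (u j : ZMod p)

open Classical in
theorem card_cls {N H : ℕ} {ι : Type} [Fintype ι] (q : ι → ℕ) [∀ i, NeZero (q i)]
    (hcop : Pairwise fun i j => (q i).Coprime (q j)) (hH : ∏ i, q i ≤ H)
    (S : Set (∀ i, Fin N → ZMod (q i))) :
    (((bx N H).filter fun u => (fun i => red (q i) u) ∈ S).card : ℝ) ≤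
      S.ncard * (3 * H / ((∏ i, q i : ℕ) : ℝ)) ^ N := by
  have hq0 : 0 < ∏ i, q i := Finset.prod_pos fun i _ => Nat.pos_of_ne_zero (NeZero.ne (q i))
  have hEf : S.Finite := Set.toFinite S
  obtain ⟨EF, hEF⟩ : ∃ EF : Finset (∀ i, Fin N → ZMod (q i)), EF = hEf.toFinset := ⟨_, rfl⟩
  have hcE : EF.card = S.ncard := by
    rw [hEF]
    exact (Set.ncard_eq_toFinset_card S hEf).symm
  let cl : (∀ i, ZMod (q i)) → Finset ℤ := fun a =>
    (Finset.Icc (-(H : ℤ)) H).filter fun b => ∀ i, (b : ZMod (q i)) = a i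
  have hcl : ∀ a, ((cl a).card : ℝ) ≤ 3 * H / ((∏ i, q i : ℕ) : ℝ) := by
    intro a
    refine card_class hq0 hH _ ?_ ?_
    · intro b hb
      rw [Finset.mem_filter, Finset.mem_Icc] at hb
      exact abs_le.2 hb.1
    · intro b hb c hc
      rw [Finset.mem_filter] at hb hc
      push_cast
      refine Fintype.prod_dvd_of_coprime (fun i j hij => ?_) fun i => ?_
      · exact Nat.isCoprime_iff_coprime.2 (hcop hij)
      · rw [← ZMod.intCast_zmod_eq_zero_iff_dvd]
        push_cast
        rw [hb.2 i, hc.2 i, sub_self]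
  have hsub : ((bx N H).filter fun u => (fun i => red (q i) u) ∈ S) ⊆
      EF.biUnion fun e => Fintype.piFinset fun j => cl (fun i => e i j) := by
    intro s hs
    rw [Finset.mem_filter, mem_bx] at hs
    rw [Finset.mem_biUnion]
    refine ⟨fun i => red (q i) s, ?_, ?_⟩
    · rw [hEF, Set.Finite.mem_toFinset]
      exact hs.2
    · rw [Fintype.mem_piFinset]
      intro i
      rw [Finset.mem_filter, Finset.mem_Icc]
      exact ⟨abs_le.1 (hs.1 i), fun _ => rfl⟩
  have h1 := (Finset.card_le_card hsub).trans Finset.card_biUnion_le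
  calc _ ≤ ((∑ e ∈ EF, (Fintype.piFinset fun j => cl (fun i => e i j)).card : ℕ) : ℝ) := by
        exact_mod_cast h1
    _ = ∑ e ∈ EF, ∏ j, ((cl (fun i => e i j)).card : ℝ) := by
        push_cast
        refine Finset.sum_congr rfl fun e _ => ?_
        rw [Fintype.card_piFinset]
        push_cast
        rfl
    _ ≤ ∑ e ∈ EF, (3 * H / ((∏ i, q i : ℕ) : ℝ) : ℝ) ^ N := by
        refine Finset.sum_le_sum fun e _ => ?_
        calc _ ≤ ∏ j : Fin N, (3 * H / ((∏ i, q i : ℕ) : ℝ) : ℝ) :=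
              Finset.prod_le_prod (fun i _ => Nat.cast_nonneg _) fun i _ => hcl _
          _ = _ := by rw [Finset.prod_const, Finset.card_univ, Fintype.card_fin]
    _ = _ := by rw [Finset.sum_const, nsmul_eq_mul, hcE]

open Classical in
/-- all reductions are in exceptional sets -/
theorem card_group {N H : ℕ} {ι : Type} [Fintype ι] (q : ι → ℕ) [∀ i, NeZero (q i)]
    (hcop : Pairwise fun i j => (q i).Coprime (q j)) (hH : ∏ i, q i ≤ H)
    (E : ∀ p : ℕ, Set (Fin N → ZMod p)) {κ : ℝ}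
    (hE : ∀ i, ((E (q i)).ncard : ℝ) ≤ κ * (q i : ℝ) ^ N) :
    (((bx N H).filter fun u => ∀ i, red (q i) u ∈ E (q i)).card : ℝ) ≤
      κ ^ (Fintype.card ι) * (3 * H) ^ N := by
  have hEf : ∀ i, (E (q i)).Finite := fun i => Set.toFinite _
  obtain ⟨S, hS⟩ : ∃ S : Finset (∀ i, Fin N → ZMod (q i)),
      S = Fintype.piFinset fun i => (hEf i).toFinset := ⟨_, rfl⟩
  have h0 := card_cls (H := H) q hcop hH (S : Set (∀ i, Fin N → ZMod (q i)))
  rw [Set.ncard_coe_finset] at h0
  have hle : ((bx N H).filter fun u => ∀ i, red (q i) u ∈ E (q i)).card ≤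
      ((bx N H).filter fun u => (fun i => red (q i) u) ∈
        (S : Set (∀ i, Fin N → ZMod (q i)))).card := by
    apply Finset.card_le_card
    intro u hu
    obtain ⟨hu1, hu2⟩ := Finset.mem_filter.1 hu
    refine Finset.mem_filter.2 ⟨hu1, ?_⟩
    rw [Finset.mem_coe, hS, Fintype.mem_piFinset]
    exact fun i => (Set.Finite.mem_toFinset _).2 (hu2 i)
  have h1 : (((bx N H).filter fun u => ∀ i, red (q i) u ∈ E (q i)).card : ℝ) ≤
      S.card * (3 * H / ((∏ i, q i : ℕ) : ℝ)) ^ N := le_trans (by exact_mod_cast hle) h0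
  rw [hS, Fintype.card_piFinset] at h1
  have hq0 : ∀ i, (0 : ℝ) < q i := fun i => by
    exact_mod_cast Nat.pos_of_ne_zero (NeZero.ne (q i))
  refine h1.trans ?_
  have e2 : ∀ i, (((hEf i).toFinset).card : ℝ) ≤ κ * (q i : ℝ) ^ N := by
    intro i
    rw [← Set.ncard_eq_toFinset_card _ (hEf i)]
    exact hE i
  have h2 : ((∏ i, ((hEf i).toFinset).card : ℕ) : ℝ) ≤ ∏ i, (κ * (q i : ℝ) ^ N) := by
    push_cast
    exact Finset.prod_le_prod (fun i _ => Nat.cast_nonneg _) fun i _ => e2 i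
  have hQ : (0 : ℝ) < ∏ i, (q i : ℝ) := Finset.prod_pos fun i _ => hq0 i
  calc _ ≤ (∏ i, (κ * (q i : ℝ) ^ N)) * (3 * H / ((∏ i, q i : ℕ) : ℝ)) ^ N :=
        mul_le_mul_of_nonneg_right h2 (by positivity)
    _ = κ ^ (Fintype.card ι) * (3 * H) ^ N := by
        rw [Finset.prod_mul_distrib, Finset.prod_const, Finset.card_univ, Finset.prod_pow]
        push_cast
        rw [div_pow]
        have : (∏ i, (q i : ℝ)) ^ N ≠ 0 := (pow_pos hQ N).ne'
        field_simp

open Classical in
/-- two moduli -/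
theorem card_pair {N H p q : ℕ} [NeZero p] [NeZero q] (hcop : p.Coprime q) (hH : p * q ≤ H)
    (S : Set ((Fin N → ZMod p) × (Fin N → ZMod q))) :
    (((bx N H).filter fun u => (red p u, red q u) ∈ S).card : ℝ) ≤
      S.ncard * (3 * H / ((p : ℝ) * q)) ^ N := by
  have hq0 : 0 < p * q := Nat.mul_pos (Nat.pos_of_ne_zero (NeZero.ne p))
    (Nat.pos_of_ne_zero (NeZero.ne q))
  have hEf : S.Finite := Set.toFinite S
  obtain ⟨EF, hEF⟩ : ∃ EF : Finset ((Fin N → ZMod p) × (Fin N → ZMod q)), EF = hEf.toFinset :=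
    ⟨_, rfl⟩
  have hcE : EF.card = S.ncard := by
    rw [hEF]
    exact (Set.ncard_eq_toFinset_card S hEf).symm
  let cl : ZMod p → ZMod q → Finset ℤ := fun a a' =>
    (Finset.Icc (-(H : ℤ)) H).filter fun b => (b : ZMod p) = a ∧ (b : ZMod q) = a'
  have hcl : ∀ a a', ((cl a a').card : ℝ) ≤ 3 * H / ((p : ℝ) * q) := by
    intro a a'
    have h := card_class (H := H) hq0 hH (cl a a') ?_ ?_
    · push_cast at h
      exact h
    · intro b hb
      rw [Finset.mem_filter, Finset.mem_Icc] at hb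
      exact abs_le.2 hb.1
    · intro b hb c hc
      rw [Finset.mem_filter] at hb hc
      push_cast
      refine IsCoprime.mul_dvd (Nat.isCoprime_iff_coprime.2 hcop) ?_ ?_
      · rw [← ZMod.intCast_zmod_eq_zero_iff_dvd]
        push_cast
        rw [hb.2.1, hc.2.1, sub_self]
      · rw [← ZMod.intCast_zmod_eq_zero_iff_dvd]
        push_cast
        rw [hb.2.2, hc.2.2, sub_self]
  have hsub : ((bx N H).filter fun u => (red p u, red q u) ∈ S) ⊆
      EF.biUnion fun e => Fintype.piFinset fun j => cl (e.1 j) (e.2 j) := by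
    intro s hs
    rw [Finset.mem_filter, mem_bx] at hs
    rw [Finset.mem_biUnion]
    refine ⟨(red p s, red q s), ?_, ?_⟩
    · rw [hEF, Set.Finite.mem_toFinset]
      exact hs.2
    · rw [Fintype.mem_piFinset]
      intro i
      rw [Finset.mem_filter, Finset.mem_Icc]
      exact ⟨abs_le.1 (hs.1 i), rfl, rfl⟩
  have h1 := (Finset.card_le_card hsub).trans Finset.card_biUnion_le
  calc _ ≤ ((∑ e ∈ EF, (Fintype.piFinset fun j => cl (e.1 j) (e.2 j)).card : ℕ) : ℝ) := by
        exact_mod_cast h1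
    _ = ∑ e ∈ EF, ∏ j, ((cl (e.1 j) (e.2 j)).card : ℝ) := by
        push_cast
        refine Finset.sum_congr rfl fun e _ => ?_
        rw [Fintype.card_piFinset]
        push_cast
        rfl
    _ ≤ ∑ e ∈ EF, (3 * H / ((p : ℝ) * q) : ℝ) ^ N := by
        refine Finset.sum_le_sum fun e _ => ?_
        calc _ ≤ ∏ j : Fin N, (3 * H / ((p : ℝ) * q) : ℝ) :=
              Finset.prod_le_prod (fun i _ => Nat.cast_nonneg _) fun i _ => hcl _ _
          _ = _ := by rw [Finset.prod_const, Finset.card_univ, Fintype.card_fin]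
    _ = _ := by rw [Finset.sum_const, nsmul_eq_mul, hcE]

end Pool.Agent.H882
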