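import Pool.Agent.H882.CenCount

/-!
One hundred percent of the tuples of a centre and several integers have good primes.
-/

set_option autoImplicit false

namespace Pool.Agent.H882

/-- For each parameter `t l` there are `n + 1` good primes which divide `t l` only. -/
def PM {n M : ℕ} {Z : Type} (E : ∀ p : ℕ, Set (Fin n → ZMod p)) (Γ : ∀ p : ℕ, ZMod p → Set Z)
    (B : ℕ) (s : Fin n → ℤ) (t : Fin M → ℕ) : Prop :=
  ∀ l : Fin M, ∃ f : Fin (n + 1) → ℕ, Function.Injective f ∧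
    (∀ i, (f i).Prime ∧ 3 < f i ∧ B < f i ∧ f i ∣ t l ∧ (∀ l', l' ≠ l → ¬ f i ∣ t l') ∧
      (fun i' => (s i' : ZMod (f i))) ∉ E (f i)) ∧
    ∀ i i', i ≠ i' → ∀ a z, z ∈ Γ (f i) (s a : ZMod (f i)) → z ∉ Γ (f i') (s a : ZMod (f i'))

theorem PM_anti {n M : ℕ} {Z : Type} {E : ∀ p : ℕ, Set (Fin n → ZMod p)}
    {Γ : ∀ p : ℕ, ZMod p → Set Z} {B B' : ℕ} (hB : B ≤ B') {s : Fin n → ℤ} {t : Fin M → ℕ}
    (h : PM E Γ B' s t) : PM E Γ B s t := by
  intro l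
  obtain ⟨f, h1, h2, h3⟩ := h l
  refine ⟨f, h1, fun i => ?_, h3⟩
  obtain ⟨a1, a2, a3, a4, a5, a6⟩ := h2 i
  exact ⟨a1, a2, lt_of_le_of_lt hB a3, a4, a5, a6⟩

theorem PM_of {n M : ℕ} {Z : Type} {E : ∀ p : ℕ, Set (Fin n → ZMod p)}
    {Γ : ∀ p : ℕ, ZMod p → Set Z} {B B' : ℕ} (hB : B ≤ B') {s : Fin n → ℤ} {t : Fin M → ℕ}
    (h : ∀ l, PP E Γ B' s (t l))
    (h' : ∀ l l', l ≠ l' → ¬ ∃ q, B' < q ∧ q ∣ t l ∧ q ∣ t l') : PM E Γ B s t := by
  intro l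
  obtain ⟨f, h1, h2, h3⟩ := h l
  refine ⟨f, h1, fun i => ?_, h3⟩
  obtain ⟨a1, a2, a3, a4, a5⟩ := h2 i
  exact ⟨a1, a2, lt_of_le_of_lt hB a3, a4, fun l' hl' hd => h' l l' (Ne.symm hl') ⟨f i, a3, a4, hd⟩,
    a5⟩

/-- the box of the parameters -/
def bm (M H : ℕ) : Finset (Fin M → ℕ) := Fintype.piFinset fun _ => Finset.range H

theorem mem_bm {M H : ℕ} {u : Fin M → ℕ} : u ∈ bm M H ↔ ∀ l, u l < H := by
  unfold bm
  rw [Fintype.mem_piFinset]
  simp only [Finset.mem_range]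

theorem card_bm {M H : ℕ} : (bm M H).card = H ^ M := by
  unfold bm
  rw [Fintype.card_piFinset, Finset.prod_const, Finset.card_univ, Fintype.card_fin,
    Finset.card_range]

theorem sum_bm {M H : ℕ} (g : ℕ → ℝ) (l : Fin M) :
    ∑ u ∈ bm M H, g (u l) = (∑ v ∈ Finset.range H, g v) * (H : ℝ) ^ (M - 1) := by
  classical
  have h1 := Finset.prod_univ_sum (fun _ : Fin M => Finset.range H)
    (fun i v => if i = l then g v else (1 : ℝ))
  have h2 : ∀ u : Fin M → ℕ, ∏ i, (if i = l then g (u i) else (1 : ℝ)) = g (u l) := by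
    intro u
    rw [Finset.prod_ite_eq' Finset.univ l (fun i => g (u i)), if_pos (Finset.mem_univ l)]
  have h3 : ∏ i : Fin M, ∑ v ∈ Finset.range H, (if i = l then g v else (1 : ℝ)) =
      (∑ v ∈ Finset.range H, g v) * (H : ℝ) ^ (M - 1) := by
    rw [← Finset.mul_prod_erase Finset.univ _ (Finset.mem_univ l)]
    simp only [if_true]
    congr 1
    rw [Finset.prod_congr rfl (g := fun _ => (H : ℝ))]
    · rw [Finset.prod_const, Finset.card_erase_of_mem (Finset.mem_univ l), Finset.card_univ,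
        Fintype.card_fin]
    · intro i hi
      simp [Finset.ne_of_mem_erase hi]
  rw [h3] at h1
  rw [h1]
  exact Finset.sum_congr rfl fun u _ => (h2 u).symm

theorem card_pairs {M H q : ℕ} (hq : 0 < q) {l l' : Fin M} (hl : l ≠ l') :
    (((bm M H).filter fun u => q ∣ u l + 1 ∧ q ∣ u l' + 1).card : ℝ) ≤
      (H : ℝ) ^ M * ((q : ℝ) ^ 2)⁻¹ := by
  classical
  have hqR : (0 : ℝ) < q := by exact_mod_cast hq
  let T : Fin M → Finset ℕ := fun i => if i ∈ ({l, l'} : Finset (Fin M)) then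
    (Finset.range H).filter fun v => q ∣ v + 1 else Finset.range H
  have hsub : ((bm M H).filter fun u => q ∣ u l + 1 ∧ q ∣ u l' + 1) ⊆ Fintype.piFinset T := by
    intro u hu
    obtain ⟨h1, h2, h3⟩ := Finset.mem_filter.1 hu
    rw [mem_bm] at h1
    rw [Fintype.mem_piFinset]
    intro i
    show u i ∈ if i ∈ ({l, l'} : Finset (Fin M)) then _ else _
    split_ifs with hi
    · rw [Finset.mem_insert, Finset.mem_singleton] at hi
      rcases hi with rfl | rfl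
      · exact Finset.mem_filter.2 ⟨Finset.mem_range.2 (h1 _), h2⟩
      · exact Finset.mem_filter.2 ⟨Finset.mem_range.2 (h1 _), h3⟩
    · exact Finset.mem_range.2 (h1 i)
  have h1 : (((bm M H).filter fun u => q ∣ u l + 1 ∧ q ∣ u l' + 1).card : ℝ) ≤
      ∏ i, ((T i).card : ℝ) := by
    have := Finset.card_le_card hsub
    rw [Fintype.card_piFinset] at this
    exact_mod_cast this
  refine h1.trans ?_
  have h2 : ∏ i, ((T i).card : ℝ) ≤
      ∏ i : Fin M, ((H : ℝ) * if i ∈ ({l, l'} : Finset (Fin M)) then (q : ℝ)⁻¹ else 1) := by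
    refine Finset.prod_le_prod (fun i _ => Nat.cast_nonneg _) fun i _ => ?_
    show (((if i ∈ ({l, l'} : Finset (Fin M)) then _ else _ : Finset ℕ).card : ℕ) : ℝ) ≤ _
    split_ifs with hi
    · rw [Nat.card_multiples]
      have := @Nat.cast_div_le ℝ _ _ _ H q
      rwa [div_eq_mul_inv] at this
    · rw [Finset.card_range, mul_one]
  refine h2.trans (le_of_eq ?_)
  rw [Finset.prod_mul_distrib, Finset.prod_const, Finset.card_univ, Fintype.card_fin,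
    Finset.prod_ite_mem, Finset.univ_inter, Finset.prod_const, Finset.card_pair hl, inv_pow]

open Classical in
theorem card_common {M H B : ℕ} (hB : 0 < B) {l l' : Fin M} (hl : l ≠ l') :
    (((bm M H).filter fun u : Fin M → ℕ => ∃ q : ℕ, B < q ∧ q ∣ u l + 1 ∧
      q ∣ u l' + 1).card : ℝ) ≤ (H : ℝ) ^ M / B := by
  have hsub : ((bm M H).filter fun u => ∃ q, B < q ∧ q ∣ u l + 1 ∧ q ∣ u l' + 1) ⊆
      (Finset.Ioc B H).biUnion fun q => (bm M H).filter fun u => q ∣ u l + 1 ∧ q ∣ u l' + 1 := by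
    intro u hu
    obtain ⟨h1, q, h2, h3, h4⟩ := Finset.mem_filter.1 hu
    rw [Finset.mem_biUnion]
    refine ⟨q, Finset.mem_Ioc.2 ⟨h2, ?_⟩, Finset.mem_filter.2 ⟨h1, h3, h4⟩⟩
    have h5 := mem_bm.1 h1 l
    exact (Nat.le_of_dvd (Nat.succ_pos _) h3).trans h5
  have h1 := (Finset.card_le_card hsub).trans Finset.card_biUnion_le
  have h2 : (((bm M H).filter fun u => ∃ q, B < q ∧ q ∣ u l + 1 ∧ q ∣ u l' + 1).card : ℝ) ≤
      ∑ q ∈ Finset.Ioc B H, (H : ℝ) ^ M * ((q : ℝ) ^ 2)⁻¹ := by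
    calc _ ≤ ((∑ q ∈ Finset.Ioc B H,
          ((bm M H).filter fun u => q ∣ u l + 1 ∧ q ∣ u l' + 1).card : ℕ) : ℝ) := by
          exact_mod_cast h1
      _ ≤ _ := by
          rw [Nat.cast_sum]
          exact Finset.sum_le_sum fun q hq => card_pairs
            (lt_of_le_of_lt (Nat.zero_le _) (Finset.mem_Ioc.1 hq).1) hl
  refine h2.trans ?_
  rw [← Finset.mul_sum, div_eq_mul_inv]
  refine mul_le_mul_of_nonneg_left ?_ (by positivity)
  rcases le_or_gt B H with h | h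
  · have h3 := sum_Ioc_inv_sq_le_sub (α := ℝ) hB.ne' h
    have h4 : (0 : ℝ) ≤ (H : ℝ)⁻¹ := by positivity
    linarith
  · rw [Finset.Ioc_eq_empty_of_le h.le, Finset.sum_empty]
    positivity

open Classical in
theorem count_one {n M : ℕ} {Z : Type} (E : ∀ p : ℕ, Set (Fin n → ZMod p))
    (Γ : ∀ p : ℕ, ZMod p → Set Z) (B : ℕ) {δ : ℝ} {H : ℕ} (l : Fin M)
    (h : ({q : (Fin n → ℤ) × ℕ | (∀ i, |q.1 i| ≤ (H : ℤ)) ∧ q.2 + 1 ≤ H ∧
      ¬ PP E Γ B q.1 (q.2 + 1)}.ncard : ℝ) ≤ δ * (H : ℝ) ^ (n + 1)) :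
    (((bx n H ×ˢ bm M H).filter fun q => ¬ PP E Γ B q.1 (q.2 l + 1)).card : ℝ) ≤
      δ * (H : ℝ) ^ (n + M) := by
  have e1 : {q : (Fin n → ℤ) × ℕ | (∀ i, |q.1 i| ≤ (H : ℤ)) ∧ q.2 + 1 ≤ H ∧
      ¬ PP E Γ B q.1 (q.2 + 1)} = (((bx n H ×ˢ Finset.range H).filter fun q =>
        ¬ PP E Γ B q.1 (q.2 + 1) : Finset _) : Set ((Fin n → ℤ) × ℕ)) := by
    ext q
    rw [Finset.mem_coe, Finset.mem_filter, Finset.mem_product, mem_bx, Finset.mem_range]
    exact and_assoc.symm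
  rw [e1, Set.ncard_coe_finset] at h
  have e2 : (((bx n H ×ˢ Finset.range H).filter fun q => ¬ PP E Γ B q.1 (q.2 + 1)).card : ℝ) =
      ∑ v ∈ Finset.range H, (((bx n H).filter fun s => ¬ PP E Γ B s (v + 1)).card : ℝ) := by
    rw [Finset.card_filter, Finset.sum_product_right]
    push_cast
    refine Finset.sum_congr rfl fun v _ => ?_
    rw [Finset.card_filter]
    push_cast
    rfl
  have e3 : (((bx n H ×ˢ bm M H).filter fun q => ¬ PP E Γ B q.1 (q.2 l + 1)).card : ℝ) =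
      ∑ u ∈ bm M H, (((bx n H).filter fun s => ¬ PP E Γ B s (u l + 1)).card : ℝ) := by
    rw [Finset.card_filter, Finset.sum_product_right]
    push_cast
    refine Finset.sum_congr rfl fun v _ => ?_
    rw [Finset.card_filter]
    push_cast
    rfl
  rw [e2] at h
  rw [e3, sum_bm (fun v => (((bx n H).filter fun s => ¬ PP E Γ B s (v + 1)).card : ℝ)) l]
  have h1 : n + M = (n + 1) + (M - 1) := by
    have := l.pos
    omega
  rw [h1, pow_add, ← mul_assoc]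
  exact mul_le_mul_of_nonneg_right h (by positivity)

theorem count_mx {n M : ℕ} {Z : Type} (E : ∀ p : ℕ, Set (Fin n → ZMod p))
    (Γ : ∀ p : ℕ, ZMod p → Set Z)
    (hE : ∀ η : ℝ, 0 < η → ∃ B : ℕ, ∀ p, p.Prime → B < p → ((E p).ncard : ℝ) ≤ η * (p : ℝ) ^ n)
    (hΓ1 : ∀ p, p.Prime → 3 < p → ∀ a, (Γ p a).Subsingleton)
    (hΓ2 : ∀ p, p.Prime → 3 < p → ∀ a b z, z ∈ Γ p a → z ∈ Γ p b → a = b) (B : ℕ) {ε : ℝ}
    (hε : 0 < ε) :
    ∃ H₀ : ℕ, ∀ H : ℕ, H₀ ≤ H → ({q : (Fin n → ℤ) × (Fin M → ℕ) | (∀ i, |q.1 i| ≤ (H : ℤ)) ∧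
      (∀ l, q.2 l + 1 ≤ H) ∧ ¬ PM E Γ B q.1 (fun l => q.2 l + 1)}.ncard : ℝ) ≤
        ε * (H : ℝ) ^ (n + M) := by
  classical
  obtain ⟨δ, hδ, hδε⟩ : ∃ δ : ℝ, 0 < δ ∧ M * δ ≤ ε / 2 := by
    refine ⟨ε / (2 * (M + 1)), by positivity, ?_⟩
    rw [← mul_div_assoc, div_le_div_iff₀ (by positivity) (by positivity)]
    nlinarith
  obtain ⟨B₂, hB₂⟩ := exists_nat_ge ((M : ℝ) * M * 3 ^ n / (ε / 2))
  obtain ⟨B', hB'⟩ : ∃ B' : ℕ, B' = B + B₂ + 1 := ⟨_, rfl⟩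
  have hB'0 : 0 < B' := by omega
  have hB'R : (0 : ℝ) < B' := by exact_mod_cast hB'0
  have hcoef : (M : ℝ) * M * 3 ^ n / B' ≤ ε / 2 := by
    rw [div_le_iff₀ hB'R]
    rw [div_le_iff₀ (by positivity)] at hB₂
    have h2 : (B₂ : ℝ) ≤ B' := by
      have : B₂ ≤ B' := by omega
      exact_mod_cast this
    nlinarith
  obtain ⟨H₀, hH₀⟩ := count_cen E Γ hE hΓ1 hΓ2 B' hδ
  refine ⟨H₀ + 1, fun H hH => ?_⟩
  have hH1 : 1 ≤ H := by omega
  let S1 : Fin M → Finset ((Fin n → ℤ) × (Fin M → ℕ)) := fun l =>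
    (bx n H ×ˢ bm M H).filter fun q => ¬ PP E Γ B' q.1 (q.2 l + 1)
  let S2 : Fin M × Fin M → Finset ((Fin n → ℤ) × (Fin M → ℕ)) := fun x =>
    if x.1 = x.2 then ∅ else bx n H ×ˢ ((bm M H).filter fun u =>
      ∃ q, B' < q ∧ q ∣ u x.1 + 1 ∧ q ∣ u x.2 + 1)
  have hsub : {q : (Fin n → ℤ) × (Fin M → ℕ) | (∀ i, |q.1 i| ≤ (H : ℤ)) ∧
      (∀ l, q.2 l + 1 ≤ H) ∧ ¬ PM E Γ B q.1 (fun l => q.2 l + 1)} ⊆
      (((Finset.univ.biUnion S1) ∪ (Finset.univ.biUnion S2) :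
        Finset ((Fin n → ℤ) × (Fin M → ℕ))) : Set _) := by
    rintro q ⟨h1, h2, h3⟩
    have hq : q ∈ bx n H ×ˢ bm M H := Finset.mem_product.2 ⟨mem_bx.2 h1, mem_bm.2 h2⟩
    rw [Finset.mem_coe, Finset.mem_union, Finset.mem_biUnion, Finset.mem_biUnion]
    by_contra hcon
    rw [not_or] at hcon
    obtain ⟨hc1, hc2⟩ := hcon
    push Not at hc1 hc2
    apply h3
    refine PM_of (B' := B') (by omega) (fun l => ?_) (fun l l' hll hex => ?_)
    · by_contra h4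
      exact hc1 l (Finset.mem_univ l) (Finset.mem_filter.2 ⟨hq, h4⟩)
    · refine hc2 (l, l') (Finset.mem_univ _) ?_
      show q ∈ if l = l' then ∅ else _
      rw [if_neg hll]
      exact Finset.mem_product.2 ⟨mem_bx.2 h1, Finset.mem_filter.2 ⟨mem_bm.2 h2, hex⟩⟩
  have hS1 : ∀ l, ((S1 l).card : ℝ) ≤ δ * (H : ℝ) ^ (n + M) := fun l =>
    count_one E Γ B' l (hH₀ H (by omega))
  have hS2 : ∀ x, ((S2 x).card : ℝ) ≤ 3 ^ n * (H : ℝ) ^ (n + M) / B' := by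
    rintro ⟨l, l'⟩
    show (((if l = l' then ∅ else _ : Finset ((Fin n → ℤ) × (Fin M → ℕ))).card : ℕ) : ℝ) ≤ _
    split_ifs with hll
    · rw [Finset.card_empty, Nat.cast_zero]
      positivity
    · rw [Finset.card_product, Nat.cast_mul]
      calc _ ≤ (3 * (H : ℝ)) ^ n * ((H : ℝ) ^ M / B') :=
            mul_le_mul (card_bx hH1) (card_common hB'0 hll) (Nat.cast_nonneg _) (by positivity)
        _ = 3 ^ n * (H : ℝ) ^ (n + M) / B' := by
            rw [mul_pow, pow_add]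
            ring
  have h1 := Set.ncard_le_ncard hsub (Finset.finite_toSet _)
  rw [Set.ncard_coe_finset] at h1
  have h2 := h1.trans ((Finset.card_union_le _ _).trans
    (Nat.add_le_add Finset.card_biUnion_le Finset.card_biUnion_le))
  have h3 : ({q : (Fin n → ℤ) × (Fin M → ℕ) | (∀ i, |q.1 i| ≤ (H : ℤ)) ∧
      (∀ l, q.2 l + 1 ≤ H) ∧ ¬ PM E Γ B q.1 (fun l => q.2 l + 1)}.ncard : ℝ) ≤
      ((∑ l, (S1 l).card : ℕ) : ℝ) + ((∑ x, (S2 x).card : ℕ) : ℝ) := by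
    exact_mod_cast h2
  have h4 : ((∑ l, (S1 l).card : ℕ) : ℝ) ≤ M * (δ * (H : ℝ) ^ (n + M)) := by
    rw [Nat.cast_sum]
    refine (Finset.sum_le_sum fun l _ => hS1 l).trans (le_of_eq ?_)
    rw [Finset.sum_const, Finset.card_univ, Fintype.card_fin, nsmul_eq_mul]
  have h5 : ((∑ x, (S2 x).card : ℕ) : ℝ) ≤ (M * M) * (3 ^ n * (H : ℝ) ^ (n + M) / B') := by
    rw [Nat.cast_sum]
    refine (Finset.sum_le_sum fun l _ => hS2 l).trans (le_of_eq ?_)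
    rw [Finset.sum_const, Finset.card_univ, Fintype.card_prod, Fintype.card_fin, nsmul_eq_mul]
    push_cast
    ring
  have hHp : (0 : ℝ) ≤ (H : ℝ) ^ (n + M) := by positivity
  calc _ ≤ _ := h3
    _ ≤ M * (δ * (H : ℝ) ^ (n + M)) + (M * M) * (3 ^ n * (H : ℝ) ^ (n + M) / B') :=
        add_le_add h4 h5
    _ = (M * δ + (M : ℝ) * M * 3 ^ n / B') * (H : ℝ) ^ (n + M) := by ring
    _ ≤ (ε / 2 + ε / 2) * (H : ℝ) ^ (n + M) :=
        mul_le_mul_of_nonneg_right (add_le_add hδε hcoef) hHp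
    _ = ε * (H : ℝ) ^ (n + M) := by ring

/-- One set of density zero outside which there are good primes. -/
theorem null_mx {n M : ℕ} (hM : 0 < M) {Z : Type} (E : ∀ p : ℕ, Set (Fin n → ZMod p))
    (Γ : ∀ p : ℕ, ZMod p → Set Z)
    (hE : ∀ η : ℝ, 0 < η → ∃ B : ℕ, ∀ p, p.Prime → B < p → ((E p).ncard : ℝ) ≤ η * (p : ℝ) ^ n)
    (hΓ1 : ∀ p, p.Prime → 3 < p → ∀ a, (Γ p a).Subsingleton)
    (hΓ2 : ∀ p, p.Prime → 3 < p → ∀ a b z, z ∈ Γ p a → z ∈ Γ p b → a = b) :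
    ∃ N : Set ((Fin n → ℤ) × (Fin M → ℕ)), (∀ ε : ℝ, 0 < ε → ∃ H₀ : ℕ, ∀ H : ℕ, H₀ ≤ H →
      ({q : (Fin n → ℤ) × (Fin M → ℕ) | q ∈ N ∧ (∀ i, |q.1 i| ≤ (H : ℤ)) ∧
        ∀ l, q.2 l ≤ H}.ncard : ℝ) ≤ ε * (H : ℝ) ^ (n + M)) ∧
      ∀ B : ℕ, ∃ T : ℕ, ∀ (s : Fin n → ℤ) (t : Fin M → ℕ), (∀ l, 0 < t l) →
        ((∃ l, T ≤ t l) ∨ ∃ i, (T : ℤ) ≤ |s i|) → (s, t) ∉ N → PM E Γ B s t := by
  classical
  let ht : (Fin n → ℤ) × (Fin M → ℕ) → ℕ := fun q =>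
    max (Finset.univ.sup fun l => q.2 l + 1) (Finset.univ.sup fun i => (q.1 i).natAbs)
  have hle : ∀ (q : (Fin n → ℤ) × (Fin M → ℕ)) (H : ℕ), ht q ≤ H ↔
      (∀ i, |q.1 i| ≤ (H : ℤ)) ∧ ∀ l, q.2 l + 1 ≤ H := by
    intro q H
    show max _ _ ≤ H ↔ _
    rw [max_le_iff, Finset.sup_le_iff, Finset.sup_le_iff, and_comm]
    refine and_congr ⟨fun h i => ?_, fun h i _ => ?_⟩ ⟨fun h l => h l (Finset.mem_univ l),
      fun h l _ => h l⟩
    · have := h i (Finset.mem_univ i)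
      rw [Int.abs_eq_natAbs]
      exact_mod_cast this
    · have := h i
      rw [Int.abs_eq_natAbs] at this
      exact_mod_cast this
  have hsub : ∀ H : ℕ, {q | ht q ≤ H} ⊆ ((bx n H ×ˢ bm M H :
      Finset ((Fin n → ℤ) × (Fin M → ℕ))) : Set ((Fin n → ℤ) × (Fin M → ℕ))) := by
    intro H q hq
    obtain ⟨h1, h2⟩ := (hle q H).1 hq
    rw [Finset.mem_coe, Finset.mem_product]
    exact ⟨mem_bx.2 h1, mem_bm.2 h2⟩
  obtain ⟨N, hN1, hN2⟩ := exists_null2 ht (d := n + M) (by omega) (c := 3 ^ n)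
    (by positivity) (fun H => (Finset.finite_toSet _).subset (hsub H))
    (fun H hH => by
      have h1 := Set.ncard_le_ncard (hsub H) (Finset.finite_toSet _)
      rw [Set.ncard_coe_finset, Finset.card_product, card_bm] at h1
      have h2 : ({q | ht q ≤ H}.ncard : ℝ) ≤ (bx n H).card * (H : ℝ) ^ M := by exact_mod_cast h1
      refine h2.trans ?_
      calc ((bx n H).card : ℝ) * (H : ℝ) ^ M ≤ (3 * H) ^ n * (H : ℝ) ^ M :=
            mul_le_mul_of_nonneg_right (card_bx hH) (by positivity)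
        _ = 3 ^ n * (H : ℝ) ^ (n + M) := by
            rw [mul_pow, pow_add]
            ring)
    (fun q => by
      refine le_trans ?_ (le_max_left _ _)
      exact (Nat.succ_le_succ (Nat.zero_le _)).trans
        (Finset.le_sup (f := fun l => q.2 l + 1) (Finset.mem_univ (⟨0, hM⟩ : Fin M))))
    (fun B q => PM E Γ B q.1 (fun l => q.2 l + 1)) (fun B B' q hB h => PM_anti hB h)
    (fun B ε hε => by
      obtain ⟨H₀, hH₀⟩ := count_mx (M := M) E Γ hE hΓ1 hΓ2 B hε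
      refine ⟨H₀, fun H hH => ?_⟩
      have h1 := hH₀ H hH
      have e : {q | ht q ≤ H ∧ ¬ PM E Γ B q.1 (fun l => q.2 l + 1)} =
          {q : (Fin n → ℤ) × (Fin M → ℕ) | (∀ i, |q.1 i| ≤ (H : ℤ)) ∧ (∀ l, q.2 l + 1 ≤ H) ∧
            ¬ PM E Γ B q.1 (fun l => q.2 l + 1)} := by
        ext q
        show ht q ≤ H ∧ _ ↔ _ ∧ _ ∧ _
        rw [hle, and_assoc]
      rw [e]
      exact h1)
  refine ⟨{q | (∀ l, 0 < q.2 l) ∧ (q.1, fun l => q.2 l - 1) ∈ N}, fun ε hε => ?_, fun B => ?_⟩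
  · obtain ⟨H₀, hH₀⟩ := hN1 ε hε
    refine ⟨H₀, fun H hH => ?_⟩
    refine le_trans ?_ (hH₀ H hH)
    have h1 : {q : (Fin n → ℤ) × (Fin M → ℕ) | q ∈ {q : (Fin n → ℤ) × (Fin M → ℕ) |
        (∀ l, 0 < q.2 l) ∧ (q.1, fun l => q.2 l - 1) ∈ N} ∧ (∀ i, |q.1 i| ≤ (H : ℤ)) ∧
          ∀ l, q.2 l ≤ H} ⊆
        (fun q : (Fin n → ℤ) × (Fin M → ℕ) => (q.1, fun l => q.2 l + 1)) ''
          {q | q ∈ N ∧ ht q ≤ H} := by
      rintro ⟨s, t⟩ ⟨⟨h1, h2⟩, h3, h4⟩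
      have h1' : ∀ l, 0 < t l := h1
      have h4' : ∀ l, t l ≤ H := h4
      have e : ∀ l, t l - 1 + 1 = t l := fun l => Nat.sub_add_cancel (h1' l)
      refine ⟨(s, fun l => t l - 1), ⟨h2, (hle _ _).2 ⟨h3, fun l => ?_⟩⟩, ?_⟩
      · show t l - 1 + 1 ≤ H
        rw [e]
        exact h4' l
      · show (s, fun l => t l - 1 + 1) = (s, t)
        simp only [e]
    have hfin : {q | q ∈ N ∧ ht q ≤ H}.Finite :=
      ((Finset.finite_toSet _).subset (hsub H)).subset fun q hq => hq.2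
    exact_mod_cast (Set.ncard_le_ncard h1 (hfin.image _)).trans (Set.ncard_image_le hfin)
  · obtain ⟨T, hT⟩ := hN2 B
    refine ⟨T, fun s t ht0 hTt hst => ?_⟩
    have e : (fun l => t l - 1 + 1) = t := funext fun l => Nat.sub_add_cancel (ht0 l)
    have h1 := hT (s, fun l => t l - 1) ?_ ?_
    · have h2 : PM E Γ B s (fun l => t l - 1 + 1) := h1
      rw [e] at h2
      exact h2
    · show T ≤ max (Finset.univ.sup fun l => t l - 1 + 1) _
      rcases hTt with ⟨l, h⟩ | ⟨i, hi⟩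
      · refine le_trans ?_ (le_max_left _ _)
        have h3 : T ≤ t l - 1 + 1 := by
          have h4 : t l - 1 + 1 = t l := Nat.sub_add_cancel (ht0 l)
          omega
        exact h3.trans (Finset.le_sup (f := fun l => t l - 1 + 1) (Finset.mem_univ l))
      · refine le_trans ?_ (le_max_right _ _)
        have h3 : T ≤ (s i).natAbs := by
          rw [Int.abs_eq_natAbs] at hi
          exact_mod_cast hi
        exact h3.trans (Finset.le_sup (f := fun i => (s i).natAbs) (Finset.mem_univ i))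
    · intro h
      exact hst ⟨ht0, h⟩

end Pool.Agent.H882
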