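import Pool.Agent.H882.AdOne
import Pool.Agent.H882.MxCount

/-!
One hundred percent of the tuples of a vector and several integers have good primes, in a set of
primes with divergent sum of the reciprocals, if a positive proportion of the classes is good.
-/

set_option autoImplicit false

namespace Pool.Agent.H882

theorem count_g1 {N : ℕ} {P : Set ℕ} (hP : ∀ p ∈ P, p.Prime) (hdiv : Dvg P)
    (E : ∀ p : ℕ, Set (Fin N → ZMod p))
    (Bp : ∀ p q : ℕ, Set ((Fin N → ZMod p) × (Fin N → ZMod q))) {κ C : ℝ} (hκ0 : 0 ≤ κ)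
    (hκ1 : κ < 1) (hC : 0 ≤ C) (B₀ : ℕ)
    (hE : ∀ p ∈ P, B₀ < p → ((E p).ncard : ℝ) ≤ κ * (p : ℝ) ^ N)
    (hBp : ∀ p ∈ P, ∀ q ∈ P, B₀ < p → B₀ < q → p ≠ q →
      ((Bp p q).ncard : ℝ) ≤ C * (p : ℝ) ^ N * (q : ℝ) ^ N / q) (K B : ℕ) {ε : ℝ} (hε : 0 < ε) :
    ∃ H₀ : ℕ, ∀ H : ℕ, H₀ ≤ H → ({q : (Fin N → ℤ) × ℕ | (∀ i, |q.1 i| ≤ (H : ℤ)) ∧ q.2 + 1 ≤ H ∧
      ¬ G1 P E Bp K B q.1 (q.2 + 1)}.ncard : ℝ) ≤ ε * (H : ℝ) ^ (N + 1) := by
  classical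
  obtain ⟨δ, hδ, hδε⟩ : ∃ δ : ℝ, 0 < δ ∧ 2 * δ * 3 ^ N = ε := by
    refine ⟨ε / (2 * 3 ^ N), by positivity, ?_⟩
    field_simp
  obtain ⟨R, hR⟩ : ∃ R : ℕ, K * κ ^ R ≤ δ / 2 := by
    obtain ⟨R, hR⟩ := exists_pow_lt_of_lt_one (show (0 : ℝ) < δ / 2 / (K + 1) by positivity) hκ1
    refine ⟨R, ?_⟩
    rw [lt_div_iff₀ (by positivity)] at hR
    have h0 : 0 ≤ κ ^ R := pow_nonneg hκ0 R
    nlinarith
  obtain ⟨B₂, hB₂⟩ := exists_nat_ge (((K : ℝ) * R) * (K * R) * C / (δ / 2))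
  obtain ⟨B', hB'⟩ : ∃ B' : ℕ, B' = B + B₀ + B₂ + 1 := ⟨_, rfl⟩
  have hB'0 : 0 < B' := by omega
  have hB'R : (0 : ℝ) < B' := by exact_mod_cast hB'0
  obtain ⟨S, hS1, hS2, hS3⟩ := windows hdiv B' (show (0 : ℝ) < δ / (K * R + 1) / 2 by positivity)
  have hcnt : ∀ i : ℕ, ∃ H₀ : ℕ, ∀ H : ℕ, H₀ ≤ H →
      ({t : ℕ | 0 < t ∧ t ≤ H ∧ ¬ ∃ p ∈ S i, p ∣ t}.ncard : ℝ) ≤ δ / (K * R + 1) * H := fun i =>
    coprime_count (S i) (fun p hp => hP p (hS1 i p hp).1) (by positivity) (hS2 i)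
  choose H₁ hH₁ using hcnt
  obtain ⟨L, hL⟩ : ∃ L : ℕ, L = K * R := ⟨_, rfl⟩
  have hLR : (L : ℝ) = K * R := by rw [hL]; push_cast; rfl
  refine ⟨1 + ∑ l ∈ Finset.range L, H₁ l, fun H hH => ?_⟩
  have hH1 : 1 ≤ H := by omega
  have hHl : ∀ l < L, H₁ l ≤ H := fun l hl =>
    (Finset.single_le_sum (f := H₁) (fun _ _ => Nat.zero_le _) (Finset.mem_range.2 hl)).trans
      (by omega)
  let bad : Finset ℕ := (Finset.range H).filter fun u => ¬ ∀ l < L, ∃ p ∈ S l, p ∣ u + 1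
  have hbad : (bad.card : ℝ) ≤ δ * H := by
    have hsub : bad ⊆ (Finset.range L).biUnion fun l => (Finset.range H).filter fun u =>
        ¬ ∃ p ∈ S l, p ∣ u + 1 := by
      intro u hu
      obtain ⟨hu1, hu2⟩ := Finset.mem_filter.1 hu
      push Not at hu2
      obtain ⟨l, hl, hl'⟩ := hu2
      rw [Finset.mem_biUnion]
      refine ⟨l, Finset.mem_range.2 hl, Finset.mem_filter.2 ⟨hu1, ?_⟩⟩
      rintro ⟨p, hp, hd⟩
      exact hl' p hp hd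
    have h2 : ∀ l ∈ Finset.range L, ((((Finset.range H).filter fun u =>
        ¬ ∃ p ∈ S l, p ∣ u + 1).card : ℕ) : ℝ) ≤ δ / (K * R + 1) * H := by
      intro l hl
      refine le_trans ?_ (hH₁ l H (hHl l (Finset.mem_range.1 hl)))
      have hfin : {t : ℕ | 0 < t ∧ t ≤ H ∧ ¬ ∃ p ∈ S l, p ∣ t}.Finite :=
        (Set.finite_Iic H).subset fun t ht => ht.2.1
      rw [← Set.ncard_coe_finset]
      refine Nat.cast_le.2 (Set.ncard_le_ncard_of_injOn (fun u => u + 1) ?_ ?_ hfin)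
      · intro u hu
        rw [Finset.mem_coe, Finset.mem_filter, Finset.mem_range] at hu
        exact ⟨Nat.succ_pos u, hu.1, hu.2⟩
      · intro a _ b _ h
        exact Nat.succ_injective h
    have h1 : (bad.card : ℝ) ≤ ∑ l ∈ Finset.range L, ((((Finset.range H).filter fun u =>
        ¬ ∃ p ∈ S l, p ∣ u + 1).card : ℕ) : ℝ) := by
      have := (Finset.card_le_card hsub).trans Finset.card_biUnion_le
      exact_mod_cast this
    refine h1.trans ((Finset.sum_le_sum h2).trans ?_)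
    rw [Finset.sum_const, Finset.card_range, nsmul_eq_mul, hLR]
    have h3 : (0 : ℝ) ≤ δ / (K * R + 1) * H := by positivity
    calc (K * R : ℝ) * (δ / (K * R + 1) * H) ≤ (K * R + 1) * (δ / (K * R + 1) * H) := by linarith
      _ = δ * H := by
          have : (0 : ℝ) < K * R + 1 := by positivity
          field_simp
  have hcoef : (K * κ ^ R + (K * R) * (K * R) * (C / B') : ℝ) ≤ δ := by
    have h1 : ((K : ℝ) * R) * (K * R) * (C / B') ≤ δ / 2 := by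
      rw [← mul_div_assoc, div_le_iff₀ hB'R]
      rw [div_le_iff₀ (by positivity)] at hB₂
      have h2 : (B₂ : ℝ) ≤ B' := by
        have : B₂ ≤ B' := by omega
        exact_mod_cast this
      nlinarith
    linarith
  have hE' : ∀ p ∈ P, B' < p → ((E p).ncard : ℝ) ≤ κ * (p : ℝ) ^ N := fun p hp hlt =>
    hE p hp (by omega)
  have hBp' : ∀ p ∈ P, ∀ q ∈ P, B' < p → B' < q → p ≠ q →
      ((Bp p q).ncard : ℝ) ≤ C * (p : ℝ) ^ N * (q : ℝ) ^ N / B' := by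
    intro p hp q hq h1 h2 h3
    refine (hBp p hp q hq (by omega) (by omega) h3).trans ?_
    have h4 : (B' : ℝ) ≤ q := by exact_mod_cast h2.le
    exact div_le_div_of_nonneg_left (by positivity) hB'R h4
  have hgood : ∀ u, u < H → u ∉ bad →
      ((((bx N H).filter fun s => ¬ G1 P E Bp K B s (u + 1)).card : ℕ) : ℝ) ≤
        δ * (3 * H) ^ N := by
    intro u huH hu
    have h1 : ∀ l < L, ∃ p ∈ S l, p ∣ u + 1 := by
      by_contra hcon
      exact hu (Finset.mem_filter.2 ⟨Finset.mem_range.2 huH, hcon⟩)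
    have h2 : ∀ x : Fin K × Fin R, ∃ p ∈ S (finProdFinEquiv x).val, p ∣ u + 1 := fun x =>
      h1 _ (by rw [hL]; exact (finProdFinEquiv x).isLt)
    choose f hf1 hf2 using h2
    have hfinj : Function.Injective f := by
      intro x y h
      by_contra hne
      have h3 : (finProdFinEquiv x).val ≠ (finProdFinEquiv y).val := fun h' =>
        hne (finProdFinEquiv.injective (Fin.ext h'))
      rcases lt_or_gt_of_ne h3 with h4 | h4
      · have := hS3 _ _ h4 _ (hf1 x) _ (hf1 y)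
        omega
      · have := hS3 _ _ h4 _ (hf1 y) _ (hf1 x)
        omega
    have h3 := card_good1 (K := K) (H := H) (B := B') hB'0 hP E Bp (κ := κ) hC hE' hBp'
      (Nat.succ_pos u) huH f hfinj (fun x => ⟨(hS1 _ _ (hf1 x)).1, (hS1 _ _ (hf1 x)).2, hf2 x⟩)
    have h4 : ((bx N H).filter fun s => ¬ G1 P E Bp K B s (u + 1)).card ≤
        ((bx N H).filter fun s => ¬ G1 P E Bp K B' s (u + 1)).card := by
      apply Finset.card_le_card
      intro s hs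
      obtain ⟨hs1, hs2⟩ := Finset.mem_filter.1 hs
      exact Finset.mem_filter.2 ⟨hs1, fun h => hs2 (G1_anti (by omega) h)⟩
    calc ((((bx N H).filter fun s => ¬ G1 P E Bp K B s (u + 1)).card : ℕ) : ℝ) ≤
        ((((bx N H).filter fun s => ¬ G1 P E Bp K B' s (u + 1)).card : ℕ) : ℝ) := by
          exact_mod_cast h4
      _ ≤ _ := h3
      _ ≤ δ * (3 * H) ^ N := mul_le_mul_of_nonneg_right hcoef (by positivity)
  have hall : ∀ u, ((((bx N H).filter fun s => ¬ G1 P E Bp K B s (u + 1)).card : ℕ) : ℝ) ≤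
      (3 * H) ^ N := by
    intro u
    refine le_trans ?_ (card_bx hH1)
    exact_mod_cast Finset.card_filter_le _ _
  have hset : {q : (Fin N → ℤ) × ℕ | (∀ i, |q.1 i| ≤ (H : ℤ)) ∧ q.2 + 1 ≤ H ∧
      ¬ G1 P E Bp K B q.1 (q.2 + 1)} ⊆ (((Finset.range H).biUnion fun u =>
        ((bx N H).filter fun s => ¬ G1 P E Bp K B s (u + 1)).image fun s => (s, u) :
          Finset ((Fin N → ℤ) × ℕ)) : Set ((Fin N → ℤ) × ℕ)) := by
    rintro ⟨s, u⟩ ⟨h1, h2, h3⟩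
    rw [Finset.mem_coe, Finset.mem_biUnion]
    refine ⟨u, Finset.mem_range.2 h2, Finset.mem_image.2 ⟨s, ?_, rfl⟩⟩
    exact Finset.mem_filter.2 ⟨mem_bx.2 h1, h3⟩
  have h1 := Set.ncard_le_ncard hset (Finset.finite_toSet _)
  rw [Set.ncard_coe_finset] at h1
  have h2 := h1.trans (Finset.card_biUnion_le.trans (Finset.sum_le_sum fun u _ =>
    Finset.card_image_le))
  have h3 : (({q : (Fin N → ℤ) × ℕ | (∀ i, |q.1 i| ≤ (H : ℤ)) ∧ q.2 + 1 ≤ H ∧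
      ¬ G1 P E Bp K B q.1 (q.2 + 1)}.ncard : ℕ) : ℝ) ≤ ∑ u ∈ Finset.range H,
        ((((bx N H).filter fun s => ¬ G1 P E Bp K B s (u + 1)).card : ℕ) : ℝ) := by
    exact_mod_cast h2
  have h4 : ∑ u ∈ Finset.range H,
      ((((bx N H).filter fun s => ¬ G1 P E Bp K B s (u + 1)).card : ℕ) : ℝ) ≤
      ∑ u ∈ Finset.range H, (δ * (3 * H) ^ N + if u ∈ bad then (3 * H : ℝ) ^ N else 0) := by
    refine Finset.sum_le_sum fun u hu => ?_
    split_ifs with h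
    · have := hall u
      have h5 : (0 : ℝ) ≤ δ * (3 * H) ^ N := by positivity
      linarith
    · have := hgood u (Finset.mem_range.1 hu) h
      linarith
  have h5 : ∑ u ∈ Finset.range H, (δ * (3 * H) ^ N + if u ∈ bad then (3 * H : ℝ) ^ N else 0) =
      H * (δ * (3 * H) ^ N) + bad.card * (3 * H : ℝ) ^ N := by
    rw [Finset.sum_add_distrib, Finset.sum_const, Finset.card_range, nsmul_eq_mul,
      ← Finset.sum_filter, Finset.sum_const, nsmul_eq_mul]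
    congr 2
    have : (Finset.range H).filter (fun u => u ∈ bad) = bad := by
      ext u
      rw [Finset.mem_filter]
      exact ⟨fun h => h.2, fun h => ⟨(Finset.mem_filter.1 h).1, h⟩⟩
    rw [this]
  have h6 : (bad.card : ℝ) * (3 * H : ℝ) ^ N ≤ δ * H * (3 * H : ℝ) ^ N :=
    mul_le_mul_of_nonneg_right hbad (by positivity)
  calc _ ≤ _ := h3
    _ ≤ _ := h4
    _ = _ := h5
    _ ≤ H * (δ * (3 * H) ^ N) + δ * H * (3 * H : ℝ) ^ N := by linarith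
    _ = (2 * δ * 3 ^ N) * (H : ℝ) ^ (N + 1) := by
        rw [mul_pow, pow_succ]
        ring
    _ = _ := by rw [hδε]

/-- For each parameter `t l` there are `K` good primes which divide `t l` only. -/
def GM {N M : ℕ} (P : Set ℕ) (E : ∀ p : ℕ, Set (Fin N → ZMod p))
    (Bp : ∀ p q : ℕ, Set ((Fin N → ZMod p) × (Fin N → ZMod q))) (K B : ℕ) (u : Fin N → ℤ)
    (t : Fin M → ℕ) : Prop :=
  ∀ l : Fin M, ∃ f : Fin K → ℕ, Function.Injective f ∧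
    (∀ i, f i ∈ P ∧ B < f i ∧ f i ∣ t l ∧ (∀ l', l' ≠ l → ¬ f i ∣ t l') ∧
      red (f i) u ∉ E (f i)) ∧
    ∀ i i', i ≠ i' → (red (f i) u, red (f i') u) ∉ Bp (f i) (f i')

theorem GM_anti {N M : ℕ} {P : Set ℕ} {E : ∀ p : ℕ, Set (Fin N → ZMod p)}
    {Bp : ∀ p q : ℕ, Set ((Fin N → ZMod p) × (Fin N → ZMod q))} {K B B' : ℕ} (hB : B ≤ B')
    {u : Fin N → ℤ} {t : Fin M → ℕ} (h : GM P E Bp K B' u t) : GM P E Bp K B u t := by
  intro l
  obtain ⟨f, h1, h2, h3⟩ := h l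
  refine ⟨f, h1, fun i => ?_, h3⟩
  obtain ⟨a1, a2, a3, a4, a5⟩ := h2 i
  exact ⟨a1, lt_of_le_of_lt hB a2, a3, a4, a5⟩

theorem GM_of {N M : ℕ} {P : Set ℕ} {E : ∀ p : ℕ, Set (Fin N → ZMod p)}
    {Bp : ∀ p q : ℕ, Set ((Fin N → ZMod p) × (Fin N → ZMod q))} {K B B' : ℕ} (hB : B ≤ B')
    {u : Fin N → ℤ} {t : Fin M → ℕ} (h : ∀ l, G1 P E Bp K B' u (t l))
    (h' : ∀ l l', l ≠ l' → ¬ ∃ q, B' < q ∧ q ∣ t l ∧ q ∣ t l') : GM P E Bp K B u t := by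
  intro l
  obtain ⟨f, h1, h2, h3⟩ := h l
  refine ⟨f, h1, fun i => ?_, h3⟩
  obtain ⟨a1, a2, a3, a4⟩ := h2 i
  exact ⟨a1, lt_of_le_of_lt hB a2, a3, fun l' hl' hd => h' l l' (Ne.symm hl') ⟨f i, a2, a3, hd⟩, a4⟩

open Classical in
theorem count_one' {n M : ℕ} (Q : (Fin n → ℤ) → ℕ → Prop) {δ : ℝ} {H : ℕ} (l : Fin M)
    (h : ({q : (Fin n → ℤ) × ℕ | (∀ i, |q.1 i| ≤ (H : ℤ)) ∧ q.2 + 1 ≤ H ∧
      ¬ Q q.1 (q.2 + 1)}.ncard : ℝ) ≤ δ * (H : ℝ) ^ (n + 1)) :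
    (((bx n H ×ˢ bm M H).filter fun q => ¬ Q q.1 (q.2 l + 1)).card : ℝ) ≤
      δ * (H : ℝ) ^ (n + M) := by
  have e1 : {q : (Fin n → ℤ) × ℕ | (∀ i, |q.1 i| ≤ (H : ℤ)) ∧ q.2 + 1 ≤ H ∧
      ¬ Q q.1 (q.2 + 1)} = (((bx n H ×ˢ Finset.range H).filter fun q =>
        ¬ Q q.1 (q.2 + 1) : Finset _) : Set ((Fin n → ℤ) × ℕ)) := by
    ext q
    rw [Finset.mem_coe, Finset.mem_filter, Finset.mem_product, mem_bx, Finset.mem_range]
    exact and_assoc.symm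
  rw [e1, Set.ncard_coe_finset] at h
  have e2 : (((bx n H ×ˢ Finset.range H).filter fun q => ¬ Q q.1 (q.2 + 1)).card : ℝ) =
      ∑ v ∈ Finset.range H, (((bx n H).filter fun s => ¬ Q s (v + 1)).card : ℝ) := by
    rw [Finset.card_filter, Finset.sum_product_right]
    push_cast
    refine Finset.sum_congr rfl fun v _ => ?_
    rw [Finset.card_filter]
    push_cast
    rfl
  have e3 : (((bx n H ×ˢ bm M H).filter fun q => ¬ Q q.1 (q.2 l + 1)).card : ℝ) =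
      ∑ u ∈ bm M H, (((bx n H).filter fun s => ¬ Q s (u l + 1)).card : ℝ) := by
    rw [Finset.card_filter, Finset.sum_product_right]
    push_cast
    refine Finset.sum_congr rfl fun v _ => ?_
    rw [Finset.card_filter]
    push_cast
    rfl
  rw [e2] at h
  rw [e3, sum_bm (fun v => (((bx n H).filter fun s => ¬ Q s (v + 1)).card : ℝ)) l]
  have h1 : n + M = (n + 1) + (M - 1) := by
    have := l.pos
    omega
  rw [h1, pow_add, ← mul_assoc]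
  exact mul_le_mul_of_nonneg_right h (by positivity)

theorem count_gm {N M : ℕ} {P : Set ℕ} (hP : ∀ p ∈ P, p.Prime) (hdiv : Dvg P)
    (E : ∀ p : ℕ, Set (Fin N → ZMod p))
    (Bp : ∀ p q : ℕ, Set ((Fin N → ZMod p) × (Fin N → ZMod q))) {κ C : ℝ} (hκ0 : 0 ≤ κ)
    (hκ1 : κ < 1) (hC : 0 ≤ C) (B₀ : ℕ)
    (hE : ∀ p ∈ P, B₀ < p → ((E p).ncard : ℝ) ≤ κ * (p : ℝ) ^ N)
    (hBp : ∀ p ∈ P, ∀ q ∈ P, B₀ < p → B₀ < q → p ≠ q →
      ((Bp p q).ncard : ℝ) ≤ C * (p : ℝ) ^ N * (q : ℝ) ^ N / q) (K B : ℕ) {ε : ℝ} (hε : 0 < ε) :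
    ∃ H₀ : ℕ, ∀ H : ℕ, H₀ ≤ H → ({q : (Fin N → ℤ) × (Fin M → ℕ) | (∀ i, |q.1 i| ≤ (H : ℤ)) ∧
      (∀ l, q.2 l + 1 ≤ H) ∧ ¬ GM P E Bp K B q.1 (fun l => q.2 l + 1)}.ncard : ℝ) ≤
        ε * (H : ℝ) ^ (N + M) := by
  classical
  obtain ⟨δ, hδ, hδε⟩ : ∃ δ : ℝ, 0 < δ ∧ M * δ ≤ ε / 2 := by
    refine ⟨ε / (2 * (M + 1)), by positivity, ?_⟩
    rw [← mul_div_assoc, div_le_div_iff₀ (by positivity) (by positivity)]
    nlinarith
  obtain ⟨B₂, hB₂⟩ := exists_nat_ge ((M : ℝ) * M * 3 ^ N / (ε / 2))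
  obtain ⟨B', hB'⟩ : ∃ B' : ℕ, B' = B + B₂ + 1 := ⟨_, rfl⟩
  have hB'0 : 0 < B' := by omega
  have hB'R : (0 : ℝ) < B' := by exact_mod_cast hB'0
  have hcoef : (M : ℝ) * M * 3 ^ N / B' ≤ ε / 2 := by
    rw [div_le_iff₀ hB'R]
    rw [div_le_iff₀ (by positivity)] at hB₂
    have h2 : (B₂ : ℝ) ≤ B' := by
      have : B₂ ≤ B' := by omega
      exact_mod_cast this
    nlinarith
  obtain ⟨H₀, hH₀⟩ := count_g1 hP hdiv E Bp hκ0 hκ1 hC B₀ hE hBp K B' hδ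
  refine ⟨H₀ + 1, fun H hH => ?_⟩
  have hH1 : 1 ≤ H := by omega
  let S1 : Fin M → Finset ((Fin N → ℤ) × (Fin M → ℕ)) := fun l =>
    (bx N H ×ˢ bm M H).filter fun q => ¬ G1 P E Bp K B' q.1 (q.2 l + 1)
  let S2 : Fin M × Fin M → Finset ((Fin N → ℤ) × (Fin M → ℕ)) := fun x =>
    if x.1 = x.2 then ∅ else bx N H ×ˢ ((bm M H).filter fun u =>
      ∃ q, B' < q ∧ q ∣ u x.1 + 1 ∧ q ∣ u x.2 + 1)
  have hsub : {q : (Fin N → ℤ) × (Fin M → ℕ) | (∀ i, |q.1 i| ≤ (H : ℤ)) ∧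
      (∀ l, q.2 l + 1 ≤ H) ∧ ¬ GM P E Bp K B q.1 (fun l => q.2 l + 1)} ⊆
      (((Finset.univ.biUnion S1) ∪ (Finset.univ.biUnion S2) :
        Finset ((Fin N → ℤ) × (Fin M → ℕ))) : Set _) := by
    rintro q ⟨h1, h2, h3⟩
    have hq : q ∈ bx N H ×ˢ bm M H := Finset.mem_product.2 ⟨mem_bx.2 h1, mem_bm.2 h2⟩
    rw [Finset.mem_coe, Finset.mem_union, Finset.mem_biUnion, Finset.mem_biUnion]
    by_contra hcon
    rw [not_or] at hcon
    obtain ⟨hc1, hc2⟩ := hcon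
    push Not at hc1 hc2
    apply h3
    refine GM_of (B' := B') (by omega) (fun l => ?_) (fun l l' hll hex => ?_)
    · by_contra h4
      exact hc1 l (Finset.mem_univ l) (Finset.mem_filter.2 ⟨hq, h4⟩)
    · refine hc2 (l, l') (Finset.mem_univ _) ?_
      show q ∈ if l = l' then ∅ else _
      rw [if_neg hll]
      exact Finset.mem_product.2 ⟨mem_bx.2 h1, Finset.mem_filter.2 ⟨mem_bm.2 h2, hex⟩⟩
  have hS1 : ∀ l, ((S1 l).card : ℝ) ≤ δ * (H : ℝ) ^ (N + M) := fun l =>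
    count_one' (G1 P E Bp K B') l (hH₀ H (by omega))
  have hS2 : ∀ x, ((S2 x).card : ℝ) ≤ 3 ^ N * (H : ℝ) ^ (N + M) / B' := by
    rintro ⟨l, l'⟩
    show (((if l = l' then ∅ else _ : Finset ((Fin N → ℤ) × (Fin M → ℕ))).card : ℕ) : ℝ) ≤ _
    split_ifs with hll
    · rw [Finset.card_empty, Nat.cast_zero]
      positivity
    · rw [Finset.card_product, Nat.cast_mul]
      calc _ ≤ (3 * (H : ℝ)) ^ N * ((H : ℝ) ^ M / B') :=
            mul_le_mul (card_bx hH1) (card_common hB'0 hll) (Nat.cast_nonneg _) (by positivity)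
        _ = 3 ^ N * (H : ℝ) ^ (N + M) / B' := by
            rw [mul_pow, pow_add]
            ring
  have h1 := Set.ncard_le_ncard hsub (Finset.finite_toSet _)
  rw [Set.ncard_coe_finset] at h1
  have h2 := h1.trans ((Finset.card_union_le _ _).trans
    (Nat.add_le_add Finset.card_biUnion_le Finset.card_biUnion_le))
  have h3 : ({q : (Fin N → ℤ) × (Fin M → ℕ) | (∀ i, |q.1 i| ≤ (H : ℤ)) ∧
      (∀ l, q.2 l + 1 ≤ H) ∧ ¬ GM P E Bp K B q.1 (fun l => q.2 l + 1)}.ncard : ℝ) ≤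
      ((∑ l, (S1 l).card : ℕ) : ℝ) + ((∑ x, (S2 x).card : ℕ) : ℝ) := by
    exact_mod_cast h2
  have h4 : ((∑ l, (S1 l).card : ℕ) : ℝ) ≤ M * (δ * (H : ℝ) ^ (N + M)) := by
    rw [Nat.cast_sum]
    refine (Finset.sum_le_sum fun l _ => hS1 l).trans (le_of_eq ?_)
    rw [Finset.sum_const, Finset.card_univ, Fintype.card_fin, nsmul_eq_mul]
  have h5 : ((∑ x, (S2 x).card : ℕ) : ℝ) ≤ (M * M) * (3 ^ N * (H : ℝ) ^ (N + M) / B') := by
    rw [Nat.cast_sum]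
    refine (Finset.sum_le_sum fun l _ => hS2 l).trans (le_of_eq ?_)
    rw [Finset.sum_const, Finset.card_univ, Fintype.card_prod, Fintype.card_fin, nsmul_eq_mul]
    push_cast
    ring
  have hHp : (0 : ℝ) ≤ (H : ℝ) ^ (N + M) := by positivity
  calc _ ≤ _ := h3
    _ ≤ M * (δ * (H : ℝ) ^ (N + M)) + (M * M) * (3 ^ N * (H : ℝ) ^ (N + M) / B') :=
        add_le_add h4 h5
    _ = (M * δ + (M : ℝ) * M * 3 ^ N / B') * (H : ℝ) ^ (N + M) := by ring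
    _ ≤ (ε / 2 + ε / 2) * (H : ℝ) ^ (N + M) :=
        mul_le_mul_of_nonneg_right (add_le_add hδε hcoef) hHp
    _ = ε * (H : ℝ) ^ (N + M) := by ring

end Pool.Agent.H882
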