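import Pool.Agent.H882.DirSum

/-!
Almost all integers are divisible by a large prime in a given residue class.
-/

set_option autoImplicit false

namespace Pool.Agent.H882

open Finset Filter

theorem exists_primes_prod {q : ℕ} [NeZero q] {a : ZMod q} (ha : IsUnit a) (B : ℕ) {ε : ℝ}
    (hε : 0 < ε) : ∃ S : Finset ℕ, (∀ p ∈ S, p.Prime ∧ (p : ZMod q) = a ∧ B < p) ∧
      ∏ p ∈ S, (1 - (p : ℝ)⁻¹) ≤ ε := by
  classical
  have h1 : Tendsto (fun n => ∑ i ∈ Finset.range n, recip a B i) atTop atTop :=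
    (not_summable_iff_tendsto_nat_atTop_of_nonneg (recip_nonneg a B)).1 (not_summable_recip ha B)
  obtain ⟨N, hN⟩ := (h1.eventually_ge_atTop (-Real.log ε)).exists
  refine ⟨(Finset.range N).filter fun p : ℕ => p.Prime ∧ (p : ZMod q) = a ∧ B < p, ?_, ?_⟩
  · intro p hp
    exact (Finset.mem_filter.1 hp).2
  · have h2 : ∑ i ∈ Finset.range N, recip a B i =
        ∑ p ∈ (Finset.range N).filter fun p : ℕ => p.Prime ∧ (p : ZMod q) = a ∧ B < p, (p : ℝ)⁻¹ := by
      rw [Finset.sum_filter]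
      refine Finset.sum_congr rfl fun i _ => ?_
      unfold recip
      split_ifs
      · rw [one_div]
      · rfl
    rw [h2] at hN
    calc ∏ p ∈ (Finset.range N).filter fun p : ℕ => p.Prime ∧ (p : ZMod q) = a ∧ B < p,
          (1 - (p : ℝ)⁻¹) ≤
        ∏ p ∈ (Finset.range N).filter fun p : ℕ => p.Prime ∧ (p : ZMod q) = a ∧ B < p,
          Real.exp (-(p : ℝ)⁻¹) := by
          refine Finset.prod_le_prod (fun p hp => ?_) fun p hp => ?_
          · have hp1 := ((Finset.mem_filter.1 hp).2.1).one_le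
            have : (p : ℝ)⁻¹ ≤ 1 := inv_le_one_of_one_le₀ (by exact_mod_cast hp1)
            linarith
          · have := Real.add_one_le_exp (-(p : ℝ)⁻¹)
            linarith
      _ = Real.exp (-∑ p ∈ (Finset.range N).filter fun p : ℕ => p.Prime ∧ (p : ZMod q) = a ∧ B < p,
          (p : ℝ)⁻¹) := by
          rw [← Real.exp_sum, Finset.sum_neg_distrib]
      _ ≤ Real.exp (Real.log ε) := Real.exp_le_exp.2 (by linarith)
      _ = ε := Real.exp_log hε

/-- One hundred percent of the integers are divisible by a prime larger than `B` in the class. -/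
theorem density {q : ℕ} [NeZero q] {a : ZMod q} (ha : IsUnit a) (B : ℕ) {ε : ℝ} (hε : 0 < ε) :
    ∃ H₀ : ℕ, ∀ H : ℕ, H₀ ≤ H → ({t : ℕ | 0 < t ∧ t ≤ H ∧ ¬ ∃ p : ℕ, p.Prime ∧ (p : ZMod q) = a ∧
      B < p ∧ p ∣ t}.ncard : ℝ) ≤ ε * H := by
  classical
  obtain ⟨S, hS, hprod⟩ := exists_primes_prod ha B (half_pos hε)
  set M := ∏ p ∈ S, p with hM
  have hMpos : 0 < M := Finset.prod_pos fun p hp => (hS p hp).1.pos
  have hprimes : M.primeFactors = S := Nat.primeFactors_prod fun p hp => (hS p hp).1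
  have htot : (M.totient : ℝ) ≤ ε / 2 * M := by
    have h1 := Nat.totient_eq_mul_prod_factors M
    have h2 : (M.totient : ℝ) = M * ∏ p ∈ M.primeFactors, (1 - (p : ℝ)⁻¹) := by
      have h3 := congrArg (fun z : ℚ => (z : ℝ)) h1
      simpa using h3
    rw [h2, hprimes, mul_comm]
    exact mul_le_mul_of_nonneg_right hprod (by positivity)
  obtain ⟨H₀, hH₀⟩ := exists_nat_ge (M / (ε / 2) : ℝ)
  refine ⟨H₀, fun H hH => ?_⟩
  have hsub : {t : ℕ | 0 < t ∧ t ≤ H ∧ ¬ ∃ p : ℕ, p.Prime ∧ (p : ZMod q) = a ∧ B < p ∧ p ∣ t} ⊆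
      ((Finset.Ico 1 (1 + H)).filter fun x => M.Coprime x : Finset ℕ) := by
    rintro t ⟨ht0, htH, ht⟩
    rw [Finset.coe_filter]
    refine ⟨by rw [Finset.mem_Ico]; omega, ?_⟩
    rw [hM, Nat.coprime_prod_left_iff]
    intro p hp
    obtain ⟨h1, h2, h3⟩ := hS p hp
    exact (Nat.Prime.coprime_iff_not_dvd h1).2 fun hdvd => ht ⟨p, h1, h2, h3, hdvd⟩
  have hle := Set.ncard_le_ncard hsub (Finset.finite_toSet _)
  rw [Set.ncard_coe_finset] at hle
  have hcop := Nat.Ico_filter_coprime_le 1 H hMpos.ne'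
  have h3 : ({t : ℕ | 0 < t ∧ t ≤ H ∧ ¬ ∃ p : ℕ, p.Prime ∧ (p : ZMod q) = a ∧
      B < p ∧ p ∣ t}.ncard : ℝ) ≤ (M.totient : ℝ) * ((H / M : ℕ) + 1) := by
    exact_mod_cast hle.trans hcop
  refine h3.trans ?_
  have h4 : ((H / M : ℕ) : ℝ) ≤ (H : ℝ) / M := Nat.cast_div_le
  have hMR : (0 : ℝ) < M := by exact_mod_cast hMpos
  have h5 : (M : ℝ) ≤ ε / 2 * H := by
    have h6 : (M / (ε / 2) : ℝ) ≤ H := hH₀.trans (by exact_mod_cast hH)
    rw [div_le_iff₀ (by positivity)] at h6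
    linarith
  have h7 : (M.totient : ℝ) ≤ M := by exact_mod_cast Nat.totient_le M
  calc (M.totient : ℝ) * ((H / M : ℕ) + 1) ≤ (M.totient : ℝ) * ((H : ℝ) / M + 1) := by
        exact mul_le_mul_of_nonneg_left (by linarith) (Nat.cast_nonneg _)
    _ = (M.totient : ℝ) * ((H : ℝ) / M) + M.totient := by ring
    _ ≤ (ε / 2 * M) * ((H : ℝ) / M) + ε / 2 * H := by
        refine add_le_add (mul_le_mul_of_nonneg_right htot (by positivity)) (h7.trans h5)
    _ = ε * H := by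
        field_simp
        ring

end Pool.Agent.H882
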