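import Pool.Agent.H882.AdCls
import Pool.Agent.H882.Dens

/-!
One hundred percent of the pairs of a vector and an integer have several common good primes, in a
set of primes with divergent sum of the reciprocals, also if only a positive proportion of the
residue classes is good.
-/

set_option autoImplicit false

namespace Pool.Agent.H882

/-- The sum of the reciprocals of the elements of `P` diverges. -/
def Dvg (P : Set ℕ) : Prop := ∀ (B : ℕ) (ε : ℝ), 0 < ε → ∃ S : Finset ℕ, (∀ p ∈ S, p ∈ P ∧ B < p) ∧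
  ∏ p ∈ S, (1 - (p : ℝ)⁻¹) ≤ ε

theorem dvg_primes : Dvg {p | p.Prime} := by
  intro B ε hε
  obtain ⟨S, hS, h⟩ := exists_primes_prod (q := 1) (a := 1) isUnit_one B hε
  exact ⟨S, fun p hp => ⟨(hS p hp).1, (hS p hp).2.2⟩, h⟩

theorem coprime_count (S : Finset ℕ) (hS : ∀ p ∈ S, p.Prime) {ε : ℝ} (hε : 0 < ε)
    (hprod : ∏ p ∈ S, (1 - (p : ℝ)⁻¹) ≤ ε / 2) :
    ∃ H₀ : ℕ, ∀ H : ℕ, H₀ ≤ H →
      ({t : ℕ | 0 < t ∧ t ≤ H ∧ ¬ ∃ p ∈ S, p ∣ t}.ncard : ℝ) ≤ ε * H := by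
  classical
  set M := ∏ p ∈ S, p with hM
  have hMpos : 0 < M := Finset.prod_pos fun p hp => (hS p hp).pos
  have hprimes : M.primeFactors = S := Nat.primeFactors_prod fun p hp => hS p hp
  have htot : (M.totient : ℝ) ≤ ε / 2 * M := by
    have h1 := Nat.totient_eq_mul_prod_factors M
    have h2 : (M.totient : ℝ) = M * ∏ p ∈ M.primeFactors, (1 - (p : ℝ)⁻¹) := by
      have h3 := congrArg (fun z : ℚ => (z : ℝ)) h1
      simpa using h3
    rw [h2, hprimes, mul_comm]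
    exact mul_le_mul_of_nonneg_right hprod (by positivity)
  obtain ⟨H₀, hH₀⟩ := exists_nat_ge (M / (ε / 2) : ℝ)
  refine ⟨H₀, fun H hH => ?_⟩
  have hsub : {t : ℕ | 0 < t ∧ t ≤ H ∧ ¬ ∃ p ∈ S, p ∣ t} ⊆
      ((Finset.Ico 1 (1 + H)).filter fun x => M.Coprime x : Finset ℕ) := by
    rintro t ⟨ht0, htH, ht⟩
    rw [Finset.coe_filter]
    refine ⟨by rw [Finset.mem_Ico]; omega, ?_⟩
    rw [hM, Nat.coprime_prod_left_iff]
    intro p hp
    exact (Nat.Prime.coprime_iff_not_dvd (hS p hp)).2 fun hdvd => ht ⟨p, hp, hdvd⟩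
  have hle := Set.ncard_le_ncard hsub (Finset.finite_toSet _)
  rw [Set.ncard_coe_finset] at hle
  have hcop := Nat.Ico_filter_coprime_le 1 H hMpos.ne'
  have h3 : ({t : ℕ | 0 < t ∧ t ≤ H ∧ ¬ ∃ p ∈ S, p ∣ t}.ncard : ℝ) ≤
      (M.totient : ℝ) * ((H / M : ℕ) + 1) := by
    exact_mod_cast hle.trans hcop
  refine h3.trans ?_
  have h4 : ((H / M : ℕ) : ℝ) ≤ (H : ℝ) / M := Nat.cast_div_le
  have hMR : (0 : ℝ) < M := by exact_mod_cast hMpos
  have h5 : (M : ℝ) ≤ ε / 2 * H := by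
    have h6 : (M / (ε / 2) : ℝ) ≤ H := hH₀.trans (by exact_mod_cast hH)
    rw [div_le_iff₀ (by positivity)] at h6
    linarith
  have h7 : (M.totient : ℝ) ≤ M := by exact_mod_cast Nat.totient_le M
  calc (M.totient : ℝ) * ((H / M : ℕ) + 1) ≤ (M.totient : ℝ) * ((H : ℝ) / M + 1) := by
        exact mul_le_mul_of_nonneg_left (by linarith) (Nat.cast_nonneg _)
    _ = (M.totient : ℝ) * ((H : ℝ) / M) + M.totient := by ring
    _ ≤ (ε / 2 * M) * ((H : ℝ) / M) + ε / 2 * H := by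
        refine add_le_add (mul_le_mul_of_nonneg_right htot (by positivity)) (h7.trans h5)
    _ = ε * H := by
        field_simp
        ring

/-- disjoint windows -/
theorem windows {P : Set ℕ} (hP : Dvg P) (B : ℕ) {ε : ℝ} (hε : 0 < ε) :
    ∃ S : ℕ → Finset ℕ, (∀ i, ∀ p ∈ S i, p ∈ P ∧ B < p) ∧ (∀ i, ∏ p ∈ S i, (1 - (p : ℝ)⁻¹) ≤ ε) ∧
      ∀ i j, i < j → ∀ p ∈ S i, ∀ p' ∈ S j, p < p' := by
  classical
  choose S hS using fun B' : ℕ => hP B' ε hε
  let b : ℕ → ℕ := fun i => Nat.rec B (fun _ b' => max b' ((S b').sup id)) i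
  have hb : ∀ i, b (i + 1) = max (b i) ((S (b i)).sup id) := fun i => rfl
  have hmono : Monotone b := monotone_nat_of_le_succ fun i => by
    rw [hb]
    exact le_max_left _ _
  refine ⟨fun i => S (b i), fun i p hp => ?_, fun i => (hS (b i)).2, fun i j hij p hp p' hp' => ?_⟩
  · obtain ⟨h1, h2⟩ := (hS (b i)).1 p hp
    exact ⟨h1, lt_of_le_of_lt (hmono (Nat.zero_le i)) h2⟩
  · obtain ⟨h1, h2⟩ := (hS (b j)).1 p' hp'
    refine lt_of_le_of_lt ?_ h2
    refine le_trans ?_ (hmono (Nat.succ_le_of_lt hij))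
    show p ≤ b (i + 1)
    rw [hb]
    exact (Finset.le_sup (f := id) hp).trans (le_max_right _ _)

/-- There are `K` distinct good primes. -/
def G1 {N : ℕ} (P : Set ℕ) (E : ∀ p : ℕ, Set (Fin N → ZMod p))
    (Bp : ∀ p q : ℕ, Set ((Fin N → ZMod p) × (Fin N → ZMod q))) (K B : ℕ) (u : Fin N → ℤ)
    (t : ℕ) : Prop :=
  ∃ f : Fin K → ℕ, Function.Injective f ∧
    (∀ i, f i ∈ P ∧ B < f i ∧ f i ∣ t ∧ red (f i) u ∉ E (f i)) ∧
    ∀ i i', i ≠ i' → (red (f i) u, red (f i') u) ∉ Bp (f i) (f i')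

theorem G1_anti {N : ℕ} {P : Set ℕ} {E : ∀ p : ℕ, Set (Fin N → ZMod p)}
    {Bp : ∀ p q : ℕ, Set ((Fin N → ZMod p) × (Fin N → ZMod q))} {K B B' : ℕ} (hB : B ≤ B')
    {u : Fin N → ℤ} {t : ℕ} (h : G1 P E Bp K B' u t) : G1 P E Bp K B u t := by
  obtain ⟨f, h1, h2, h3⟩ := h
  refine ⟨f, h1, fun l => ?_, h3⟩
  obtain ⟨a1, a2, a3, a4⟩ := h2 l
  exact ⟨a1, lt_of_le_of_lt hB a2, a3, a4⟩

open Classical in
theorem card_good1 {N K R H B t : ℕ} (hB : 0 < B) {P : Set ℕ} (hP : ∀ p ∈ P, p.Prime)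
    (E : ∀ p : ℕ, Set (Fin N → ZMod p))
    (Bp : ∀ p q : ℕ, Set ((Fin N → ZMod p) × (Fin N → ZMod q))) {κ C : ℝ}
    (hC : 0 ≤ C) (hE : ∀ p ∈ P, B < p → ((E p).ncard : ℝ) ≤ κ * (p : ℝ) ^ N)
    (hBp : ∀ p ∈ P, ∀ q ∈ P, B < p → B < q → p ≠ q →
      ((Bp p q).ncard : ℝ) ≤ C * (p : ℝ) ^ N * (q : ℝ) ^ N / B)
    (ht : 0 < t) (htH : t ≤ H) (f : Fin K × Fin R → ℕ) (hf : Function.Injective f)
    (hp : ∀ x, f x ∈ P ∧ B < f x ∧ f x ∣ t) :
    (((bx N H).filter fun u => ¬ G1 P E Bp K B u t).card : ℝ) ≤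
      (K * κ ^ R + (K * R) * (K * R) * (C / B)) * (3 * H) ^ N := by
  have hH : 1 ≤ H := by omega
  have hBR : (0 : ℝ) < B := by exact_mod_cast hB
  have hne : ∀ x, NeZero (f x) := fun x => ⟨(hP _ (hp x).1).ne_zero⟩
  have hcop : ∀ x y, x ≠ y → (f x).Coprime (f y) := fun x y hxy =>
    (Nat.coprime_primes (hP _ (hp x).1) (hP _ (hp y).1)).2 fun h => hxy (hf h)
  let S1 : Fin K → Finset (Fin N → ℤ) := fun g =>
    (bx N H).filter fun u => ∀ r : Fin R, red (f (g, r)) u ∈ E (f (g, r))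
  let S2 : (Fin K × Fin R) × (Fin K × Fin R) → Finset (Fin N → ℤ) := fun x =>
    if x.1 = x.2 then ∅ else (bx N H).filter fun u =>
      (red (f x.1) u, red (f x.2) u) ∈ Bp (f x.1) (f x.2)
  have hsub : ((bx N H).filter fun u => ¬ G1 P E Bp K B u t) ⊆
      (Finset.univ.biUnion S1) ∪ (Finset.univ.biUnion S2) := by
    intro s hs
    obtain ⟨hs1, hs2⟩ := Finset.mem_filter.1 hs
    by_contra hcon
    rw [Finset.mem_union, not_or, Finset.mem_biUnion, Finset.mem_biUnion] at hcon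
    obtain ⟨hc1, hc2⟩ := hcon
    push Not at hc1 hc2
    apply hs2
    have h1 : ∀ g : Fin K, ∃ r : Fin R, red (f (g, r)) s ∉ E (f (g, r)) := by
      intro g
      by_contra hcon
      push Not at hcon
      exact hc1 g (Finset.mem_univ _) (Finset.mem_filter.2 ⟨hs1, hcon⟩)
    choose r hr using h1
    refine ⟨fun g => f (g, r g), fun g g' h => ?_, fun g => ?_, fun g g' hgg h => ?_⟩
    · have := hf h
      rw [Prod.mk.injEq] at this
      exact this.1
    · obtain ⟨a1, a2, a3⟩ := hp (g, r g)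
      exact ⟨a1, a2, a3, hr g⟩
    · refine hc2 ((g, r g), (g', r g')) (Finset.mem_univ _) ?_
      show s ∈ if (g, r g) = (g', r g') then ∅ else _
      rw [if_neg fun h' => hgg (by rw [Prod.mk.injEq] at h'; exact h'.1)]
      exact Finset.mem_filter.2 ⟨hs1, h⟩
  have hS1 : ∀ g, ((S1 g).card : ℝ) ≤ κ ^ R * (3 * H) ^ N := by
    intro g
    have hne' : ∀ r : Fin R, NeZero (f (g, r)) := fun r => hne _
    have hcop' : Pairwise fun r r' : Fin R => (f (g, r)).Coprime (f (g, r')) := fun r r' h =>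
      hcop _ _ fun h' => h (by rw [Prod.mk.injEq] at h'; exact h'.2)
    have hle : ∏ r : Fin R, f (g, r) ≤ H := by
      refine (Nat.le_of_dvd ht ?_).trans htH
      exact Finset.prod_dvd_of_isRelPrime (fun r _ r' _ h => Nat.coprime_iff_isRelPrime.1
        (hcop' h)) fun r _ => (hp (g, r)).2.2
    have h1 := card_group (H := H) (fun r : Fin R => f (g, r)) hcop' hle E
      (fun r => hE _ (hp (g, r)).1 (hp (g, r)).2.1)
    rw [Fintype.card_fin] at h1
    refine le_trans ?_ h1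
    refine Nat.cast_le.2 (Finset.card_le_card fun u hu => ?_)
    simp only [S1, Finset.mem_filter] at hu ⊢
    exact hu
  have hS2 : ∀ x, ((S2 x).card : ℝ) ≤ (C / B) * (3 * H) ^ N := by
    rintro ⟨x, y⟩
    show (((if x = y then ∅ else _ : Finset (Fin N → ℤ)).card : ℕ) : ℝ) ≤ _
    split_ifs with hxy
    · rw [Finset.card_empty, Nat.cast_zero]
      positivity
    · obtain ⟨a1, a2, a3⟩ := hp x
      obtain ⟨b1, b2, b3⟩ := hp y
      have := hne x
      have := hne y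
      have hqH : f x * f y ≤ H :=
        (Nat.le_of_dvd ht ((hcop x y hxy).mul_dvd_of_dvd_of_dvd a3 b3)).trans htH
      have h1 := card_pair (H := H) (hcop x y hxy) hqH (Bp (f x) (f y))
      refine h1.trans ?_
      have hx0 : (0 : ℝ) < f x := by exact_mod_cast (hP _ a1).pos
      have hy0 : (0 : ℝ) < f y := by exact_mod_cast (hP _ b1).pos
      calc _ ≤ (C * (f x : ℝ) ^ N * (f y : ℝ) ^ N / B) * (3 * H / ((f x : ℝ) * f y)) ^ N :=
            mul_le_mul_of_nonneg_right (hBp _ a1 _ b1 a2 b2 fun h => hxy (hf h)) (by positivity)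
        _ = _ := by
            rw [div_pow, mul_pow ((f x : ℕ) : ℝ)]
            field_simp
  have hc : (((bx N H).filter fun u => ¬ G1 P E Bp K B u t).card : ℝ) ≤
      (∑ l, (S1 l).card : ℕ) + (∑ x, (S2 x).card : ℕ) := by
    have h1 := (Finset.card_le_card hsub).trans ((Finset.card_union_le _ _).trans
      (Nat.add_le_add Finset.card_biUnion_le Finset.card_biUnion_le))
    exact_mod_cast h1
  have h1 : ((∑ l, (S1 l).card : ℕ) : ℝ) ≤ K * (κ ^ R * (3 * H) ^ N) := by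
    rw [Nat.cast_sum]
    refine (Finset.sum_le_sum fun l _ => hS1 l).trans (le_of_eq ?_)
    rw [Finset.sum_const, Finset.card_univ, Fintype.card_fin, nsmul_eq_mul]
  have h2 : ((∑ x, (S2 x).card : ℕ) : ℝ) ≤ ((K * R) * (K * R)) * ((C / B) * (3 * H) ^ N) := by
    rw [Nat.cast_sum]
    refine (Finset.sum_le_sum fun l _ => hS2 l).trans (le_of_eq ?_)
    rw [Finset.sum_const, Finset.card_univ, Fintype.card_prod, Fintype.card_prod, Fintype.card_fin,
      Fintype.card_fin, nsmul_eq_mul]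
    push_cast
    ring
  refine (hc.trans (add_le_add h1 h2)).trans (le_of_eq ?_)
  ring

end Pool.Agent.H882
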