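import Mathlib

/-!
One set of density zero.
-/

set_option autoImplicit false

namespace Pool.Agent.H882

theorem exists_null (P : ℕ → ℕ → Prop) (hanti : ∀ B B' t, B ≤ B' → P B' t → P B t)
    (hd : ∀ B, ∀ ε : ℝ, 0 < ε → ∃ H₀ : ℕ, ∀ H : ℕ, H₀ ≤ H →
      ({t : ℕ | 0 < t ∧ t ≤ H ∧ ¬ P B t}.ncard : ℝ) ≤ ε * H) :
    ∃ E : Set ℕ, (∀ ε : ℝ, 0 < ε → ∃ H₀ : ℕ, ∀ H : ℕ, H₀ ≤ H →
      ({t : ℕ | t ∈ E ∧ t ≤ H}.ncard : ℝ) ≤ ε * H) ∧ ∀ B, ∃ T, ∀ t, T ≤ t → t ∉ E → P B t := by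
  classical
  have h0 : ∀ k : ℕ, ∃ N : ℕ, ∀ H : ℕ, N ≤ H →
      ({t : ℕ | 0 < t ∧ t ≤ H ∧ ¬ P k t}.ncard : ℝ) ≤ (1 / ((k : ℝ) + 1)) * H := fun k =>
    hd k _ (by positivity)
  choose N hN using h0
  let h : ℕ → ℕ := fun k => Nat.rec 1 (fun k hk => max (N (k + 1)) ((k + 2) * hk) + 1) k
  have hz : h 0 = 1 := rfl
  have hs : ∀ k, h (k + 1) = max (N (k + 1)) ((k + 2) * h k) + 1 := fun _ => rfl
  have hstep : ∀ k, (k + 2) * h k < h (k + 1) := by
    intro k
    rw [hs]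
    exact Nat.lt_succ_of_le (le_max_right _ _)
  have hmono : StrictMono h := by
    refine strictMono_nat_of_lt_succ fun k => ?_
    have := hstep k
    nlinarith
  have hNh : ∀ k, N (k + 1) ≤ h (k + 1) := by
    intro k
    rw [hs]
    exact (le_max_left _ _).trans (Nat.le_succ _)
  have hidx : ∀ t, 1 ≤ t → ∃ k, h k ≤ t ∧ t < h (k + 1) := by
    intro t ht
    have hex : ∃ k, t < h k := ⟨t + 1, lt_of_lt_of_le (Nat.lt_succ_self t) (hmono.id_le _)⟩
    obtain ⟨m, hm1, hm2⟩ : ∃ m, t < h m ∧ ∀ i, i < m → h i ≤ t := by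
      refine ⟨Nat.find hex, Nat.find_spec hex, fun i hi => ?_⟩
      have := Nat.find_min hex hi
      omega
    have h2 : m ≠ 0 := by
      intro h3
      rw [h3, hz] at hm1
      omega
    obtain ⟨k, rfl⟩ := Nat.exists_eq_succ_of_ne_zero h2
    exact ⟨k, hm2 k (by omega), hm1⟩
  refine ⟨{t | ∃ k, h k ≤ t ∧ t < h (k + 1) ∧ ¬ P k t}, ?_, ?_⟩
  · intro ε hε
    obtain ⟨k₀, hk₀⟩ := exists_nat_ge (3 / ε)
    refine ⟨h (k₀ + 2), fun H hH => ?_⟩
    have hH1 : 1 ≤ H := by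
      have := hmono.id_le (k₀ + 2)
      simp only [id] at this
      omega
    obtain ⟨k, hk1, hk2⟩ := hidx H hH1
    have hk3 : k₀ + 2 ≤ k := by
      by_contra hcon
      have := hmono.monotone (show k + 1 ≤ k₀ + 2 by omega)
      omega
    obtain ⟨j, rfl⟩ : ∃ j, k = j + 2 := ⟨k - 2, by omega⟩
    have hsub : {t : ℕ | t ∈ {t | ∃ k, h k ≤ t ∧ t < h (k + 1) ∧ ¬ P k t} ∧ t ≤ H} ⊆
        ({t : ℕ | 0 < t ∧ t ≤ H ∧ ¬ P (j + 2) t} ∪
          {t : ℕ | 0 < t ∧ t ≤ h (j + 2) ∧ ¬ P (j + 1) t}) ∪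
          ((Finset.range (h (j + 1)) : Finset ℕ) : Set ℕ) := by
      rintro t ⟨⟨i, hi1, hi2, hi3⟩, htH⟩
      have ht0 : 0 < t := by
        have := hmono.monotone (Nat.zero_le i)
        omega
      have hij : i ≤ j + 2 := by
        by_contra hcon
        have := hmono.monotone (show j + 2 + 1 ≤ i by omega)
        omega
      rcases Nat.lt_or_ge i (j + 1) with h1 | h1
      · right
        have := hmono.monotone (show i + 1 ≤ j + 1 by omega)
        simp only [Finset.coe_range, Set.mem_Iio]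
        omega
      · left
        rcases Nat.lt_or_ge i (j + 2) with h2 | h2
        · right
          have h3 : i = j + 1 := by omega
          subst h3
          exact ⟨ht0, hi2.le, hi3⟩
        · left
          have h3 : i = j + 2 := by omega
          subst h3
          exact ⟨ht0, htH, hi3⟩
    have hfin1 : {t : ℕ | 0 < t ∧ t ≤ H ∧ ¬ P (j + 2) t}.Finite :=
      (Set.finite_Iic H).subset fun t ht => ht.2.1
    have hfin2 : {t : ℕ | 0 < t ∧ t ≤ h (j + 2) ∧ ¬ P (j + 1) t}.Finite :=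
      (Set.finite_Iic (h (j + 2))).subset fun t ht => ht.2.1
    have hc := (Set.ncard_le_ncard hsub ((hfin1.union hfin2).union (Finset.finite_toSet _))).trans
      ((Set.ncard_union_le _ _).trans (Nat.add_le_add_right (Set.ncard_union_le _ _) _))
    rw [Set.ncard_coe_finset, Finset.card_range] at hc
    have h1 := hN (j + 2) H ((hNh (j + 1)).trans hk1)
    have h2 := hN (j + 1) (h (j + 2)) ((hNh j).trans (hmono.monotone (show j + 1 ≤ j + 2 by omega)))
    have h3 := hstep (j + 1)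
    have h3' : ((j : ℝ) + 1 + 2) * h (j + 1) ≤ h (j + 2) := by
      have h4 : (j + 1 + 2) * h (j + 1) ≤ h (j + 2) := h3.le
      exact_mod_cast h4
    have hHR : (h (j + 2) : ℝ) ≤ H := by exact_mod_cast hk1
    have hj : 3 / ε ≤ (j : ℝ) + 1 := by
      have : (k₀ : ℝ) ≤ j := by
        have : k₀ ≤ j := by omega
        exact_mod_cast this
      linarith
    have hj0 : (0 : ℝ) < (j : ℝ) + 1 := by positivity
    have hH0 : (0 : ℝ) ≤ H := Nat.cast_nonneg _
    have hb : (H : ℝ) / (j + 1) ≤ ε / 3 * H := by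
      rw [div_le_iff₀ hj0]
      rw [div_le_iff₀ hε] at hj
      nlinarith
    have ha : ((h (j + 1) : ℕ) : ℝ) ≤ H / (j + 1) := by
      rw [le_div_iff₀ hj0]
      have : (0 : ℝ) ≤ h (j + 1) := Nat.cast_nonneg _
      nlinarith
    have h5 : (1 / (((j + 2 : ℕ) : ℝ) + 1)) * H ≤ H / (j + 1) := by
      rw [one_div, inv_mul_eq_div]
      apply div_le_div_of_nonneg_left hH0 hj0
      push_cast
      linarith
    have h6 : (1 / (((j + 1 : ℕ) : ℝ) + 1)) * (h (j + 2) : ℝ) ≤ H / (j + 1) := by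
      rw [one_div, inv_mul_eq_div]
      apply div_le_div₀ hH0 hHR hj0
      push_cast
      linarith
    have hcR : ({t : ℕ | t ∈ {t | ∃ k, h k ≤ t ∧ t < h (k + 1) ∧ ¬ P k t} ∧ t ≤ H}.ncard : ℝ) ≤
        ({t : ℕ | 0 < t ∧ t ≤ H ∧ ¬ P (j + 2) t}.ncard : ℝ) +
        ({t : ℕ | 0 < t ∧ t ≤ h (j + 2) ∧ ¬ P (j + 1) t}.ncard : ℝ) + (h (j + 1) : ℝ) := by
      exact_mod_cast hc
    linarith
  · intro B
    refine ⟨h B, fun t ht htE => ?_⟩
    have ht1 : 1 ≤ t := by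
      have := hmono.monotone (Nat.zero_le B)
      omega
    obtain ⟨k, hk1, hk2⟩ := hidx t ht1
    have hBk : B ≤ k := by
      by_contra hcon
      have := hmono.monotone (show k + 1 ≤ B by omega)
      omega
    by_contra hcon
    exact htE ⟨k, hk1, hk2, fun h => hcon (hanti B k t hBk h)⟩

end Pool.Agent.H882
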