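import Pool.Agent.H882.OrdP
import Pool.Agent.H882.Dens
import Pool.Agent.H882.Null

/-!
Almost all places are good.
-/

set_option autoImplicit false

namespace Pool.Agent.H882

open UpperHalfPlane H294ZP Function Pool.Agent.N135.ZO NumberField IsDedekindDomain

variable {K : Type} [Field K] [NumberField K]

theorem val_int_le {v : HeightOneSpectrum (𝓞 K)} (x : K) (hx : IsIntegral ℤ x) :
    v.valuation K x ≤ 1 := by
  have : x = algebraMap (𝓞 K) K ⟨x, hx⟩ := rfl
  rw [this]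
  exact v.valuation_le_one _

theorem val_int_one {v : HeightOneSpectrum (𝓞 K)} {p : ℕ} (hp : p.Prime)
    (hpv : (p : 𝓞 K) ∈ v.asIdeal) {N : ℤ} (hN : N ≠ 0) (hlt : N.natAbs < p) :
    v.valuation K (N : K) = 1 := by
  refine le_antisymm (val_int_le _ (isIntegral_algebraMap (R := ℤ) (x := N))) ?_
  by_contra hcon
  rw [not_le] at hcon
  have h1 : ((N : 𝓞 K)) ∈ v.asIdeal := by
    rw [← v.valuation_lt_one_iff_mem (K := K)]
    simpa using hcon
  have hcop : IsCoprime N (p : ℤ) := by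
    rw [Int.isCoprime_iff_gcd_eq_one]
    have h2 : Nat.Coprime N.natAbs p := by
      rw [Nat.coprime_comm]
      refine (Nat.Prime.coprime_iff_not_dvd hp).2 fun h => ?_
      have := Nat.le_of_dvd (Int.natAbs_pos.2 hN) h
      omega
    rw [Int.gcd_def]
    simpa using h2
  obtain ⟨a, b, hab⟩ := hcop
  apply v.isPrime.ne_top
  rw [Ideal.eq_top_iff_one]
  have h3 : (1 : 𝓞 K) = (a : 𝓞 K) * N + b * p := by
    have := congrArg (fun z : ℤ => (z : 𝓞 K)) hab
    push_cast at this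
    exact this.symm
  rw [h3]
  exact v.asIdeal.add_mem (v.asIdeal.mul_mem_left _ h1) (v.asIdeal.mul_mem_left _ hpv)

/-- an element is a unit at almost all places -/
theorem exists_unit_bound {x : K} (hx : x ≠ 0) : ∃ B : ℕ, ∀ p : ℕ, p.Prime → B < p →
    ∀ v : HeightOneSpectrum (𝓞 K), (p : 𝓞 K) ∈ v.asIdeal → v.valuation K x = 1 := by
  have h1 : ∀ z : K, ∃ N : ℤ, N ≠ 0 ∧ IsIntegral ℤ ((N : K) * z) := by
    intro z
    have halg : IsAlgebraic ℤ z := by
      have : IsAlgebraic ℚ z := Algebra.IsAlgebraic.isAlgebraic z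
      exact (IsFractionRing.isAlgebraic_iff ℤ ℚ K).2 this
    obtain ⟨N, hN, hi⟩ := halg.exists_integral_multiple
    refine ⟨N, hN, ?_⟩
    simpa [zsmul_eq_mul] using hi
  obtain ⟨N₁, hN₁, hi₁⟩ := h1 x
  obtain ⟨N₂, hN₂, hi₂⟩ := h1 x⁻¹
  refine ⟨max N₁.natAbs N₂.natAbs, fun p hp hlt v hpv => ?_⟩
  have e1 := val_int_one hp hpv hN₁ (lt_of_le_of_lt (le_max_left _ _) hlt)
  have e2 := val_int_one hp hpv hN₂ (lt_of_le_of_lt (le_max_right _ _) hlt)
  have h2 := val_int_le (v := v) _ hi₁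
  have h3 := val_int_le (v := v) _ hi₂
  rw [map_mul, e1, one_mul] at h2
  rw [map_mul, e2, one_mul, map_inv₀] at h3
  refine le_antisymm h2 ?_
  have hne : v.valuation K x ≠ 0 := by
    rw [Valuation.ne_zero_iff]
    exact hx
  exact (inv_le_one₀ (zero_lt_iff.2 hne)).1 h3

theorem absNorm_span_p (p : ℕ) :
    Ideal.absNorm (Ideal.span {(p : 𝓞 K)}) = p ^ Module.finrank ℚ K := by
  rw [Ideal.absNorm_span_singleton]
  have : (Algebra.norm ℤ) (p : 𝓞 K) = (p : ℤ) ^ Module.finrank ℤ (𝓞 K) := by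
    have := Algebra.norm_algebraMap (R := ℤ) (S := 𝓞 K) (p : ℤ)
    simpa using this
  rw [this, RingOfIntegers.rank]
  simp [Int.natAbs_pow]

theorem exists_prime_above {p : ℕ} (hp : p.Prime) :
    ∃ v : HeightOneSpectrum (𝓞 K), (p : 𝓞 K) ∈ v.asIdeal := by
  have h1 : Ideal.span {(p : 𝓞 K)} ≠ ⊤ := by
    intro h
    have h2 := absNorm_span_p (K := K) p
    rw [h, Ideal.absNorm_top] at h2
    have h3 : 1 < p ^ Module.finrank ℚ K := Nat.one_lt_pow Module.finrank_pos.ne' hp.one_lt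
    omega
  obtain ⟨M, hM, hle⟩ := Ideal.exists_le_maximal _ h1
  have hmem : (p : 𝓞 K) ∈ M := hle (Ideal.mem_span_singleton_self _)
  refine ⟨⟨M, hM.isPrime, ?_⟩, hmem⟩
  rintro rfl
  rw [Ideal.mem_bot] at hmem
  exact hp.ne_zero (by exact_mod_cast hmem)

/-- the ramification is bounded by the degree -/
theorem not_mem_pow {p : ℕ} (hp : p.Prime) {v : HeightOneSpectrum (𝓞 K)} {k : ℕ}
    (hk : Module.finrank ℚ K < k) : (p : 𝓞 K) ∉ v.asIdeal ^ k := by
  intro hmem
  have h0 : (p : 𝓞 K) ≠ 0 := by exact_mod_cast hp.ne_zero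
  have hle : Ideal.span {(p : 𝓞 K)} ≤ v.asIdeal ^ k := by
    rw [Ideal.span_singleton_le_iff_mem]
    exact hmem
  have h1 := Ideal.absNorm_dvd_absNorm_of_le hle
  rw [map_pow] at h1
  rw [absNorm_span_p] at h1
  -- the norm of `v` is divisible by `p`
  have h3 : p ∣ Ideal.absNorm v.asIdeal := by
    have h4 : Ideal.absNorm v.asIdeal ≠ 1 := by
      intro h
      exact v.isPrime.ne_top (Ideal.absNorm_eq_one_iff.1 h)
    have h5 : Ideal.absNorm v.asIdeal ∣ p ^ Module.finrank ℚ K :=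
      (dvd_pow_self _ (by omega)).trans h1
    obtain ⟨m, -, hm⟩ := (Nat.dvd_prime_pow hp).1 h5
    rw [hm]
    rcases Nat.eq_zero_or_pos m with rfl | hm0
    · rw [pow_zero] at hm
      exact absurd hm h4
    · exact dvd_pow_self _ hm0.ne'
  have h6 : p ^ k ∣ p ^ Module.finrank ℚ K := (pow_dvd_pow_of_dvd h3 k).trans h1
  have h7 := (Nat.pow_dvd_pow_iff_le_right hp.one_lt).1 h6
  omega

theorem val_pow_lt_p {p : ℕ} (hp : p.Prime) {v : HeightOneSpectrum (𝓞 K)}
    (hk : Module.finrank ℚ K + 1 < p) {x : K} (hx : v.valuation K x < 1) :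
    v.valuation K x ^ (p - 1) < v.valuation K p := by
  by_contra hcon
  rw [not_lt] at hcon
  have h1 : v.valuation K x ≤ WithZero.exp (-1 : ℤ) := by
    rcases eq_or_ne (v.valuation K x) 0 with h | h
    · rw [h]
      exact zero_le
    · obtain ⟨n, hn⟩ : ∃ n : ℤ, v.valuation K x = WithZero.exp n :=
        ⟨WithZero.log (v.valuation K x), (WithZero.exp_log h).symm⟩
      rw [hn] at hx ⊢
      rw [← WithZero.exp_zero, WithZero.exp_lt_exp] at hx
      rw [WithZero.exp_le_exp]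
      omega
  have h2 : v.valuation K (algebraMap (𝓞 K) K (p : 𝓞 K)) ≤ WithZero.exp (-((p - 1 : ℕ) : ℤ)) := by
    rw [map_natCast]
    refine hcon.trans ?_
    calc v.valuation K x ^ (p - 1) ≤ WithZero.exp (-1 : ℤ) ^ (p - 1) :=
          pow_le_pow_left₀ zero_le h1 _
      _ = WithZero.exp (-((p - 1 : ℕ) : ℤ)) := by
        rw [← WithZero.exp_nsmul]
        simp
  have h3 : (p : 𝓞 K) ∈ v.asIdeal ^ (p - 1) := by
    rw [v.valuation_of_algebraMap, v.intValuation_le_pow_iff_mem] at h2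
    exact h2
  exact not_mem_pow hp (by omega) h3

end Pool.Agent.H882
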