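import Pool.Agent.H882.Dens

/-!
Rational points whose common denominator has a large prime factor which is prime to the numerators.
-/

set_option autoImplicit false

namespace Pool.Agent.H882

theorem card_mult {q H : ℕ} (hq : 0 < q) (hqH : q ≤ H) :
    (((Finset.Icc (-(H : ℤ)) H).filter fun a => (q : ℤ) ∣ a).card : ℝ) ≤ 3 * H / q := by
  classical
  have h1 : ((Finset.Icc (-(H : ℤ)) H).filter fun a => (q : ℤ) ∣ a) ⊆
      (Finset.Icc (-((H / q : ℕ) : ℤ)) ((H / q : ℕ) : ℤ)).image fun c => (q : ℤ) * c := by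
    intro a ha
    rw [Finset.mem_filter, Finset.mem_Icc] at ha
    obtain ⟨⟨h1, h2⟩, c, rfl⟩ := ha
    rw [Finset.mem_image]
    refine ⟨c, ?_, rfl⟩
    have hq' : (0 : ℤ) < q := by exact_mod_cast hq
    rw [Finset.mem_Icc]
    push_cast
    constructor
    · have : -c ≤ (H : ℤ) / q := (Int.le_ediv_iff_mul_le hq').2 (by linarith)
      linarith
    · exact (Int.le_ediv_iff_mul_le hq').2 (by linarith)
  have h2 := (Finset.card_le_card h1).trans Finset.card_image_le
  rw [Int.card_Icc] at h2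
  have h3 : (((H / q : ℕ) : ℤ) + 1 - -((H / q : ℕ) : ℤ)).toNat = 2 * (H / q) + 1 := by
    omega
  rw [h3] at h2
  have hq0 : (0 : ℝ) < q := by exact_mod_cast hq
  have h4 : ((H / q : ℕ) : ℝ) ≤ H / q := Nat.cast_div_le
  have h5 : (1 : ℝ) ≤ H / q := by
    rw [le_div_iff₀ hq0, one_mul]
    exact_mod_cast hqH
  calc _ ≤ ((2 * (H / q) + 1 : ℕ) : ℝ) := by exact_mod_cast h2
    _ = 2 * ((H / q : ℕ) : ℝ) + 1 := by push_cast; ring
    _ ≤ 2 * ((H : ℝ) / q) + (H : ℝ) / q := by linarith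
    _ = 3 * H / q := by ring

theorem count_bad (n B D : ℕ) [NeZero D] {ε : ℝ} (hε : 0 < ε) : ∃ H₀ : ℕ, ∀ H : ℕ, H₀ ≤ H →
    ({q : (Fin n → ℤ) × ℕ | (∀ i, |q.1 i| ≤ (H : ℤ)) ∧ 0 < q.2 ∧ q.2 ≤ H ∧
      ¬ ∃ p : ℕ, p.Prime ∧ (p : ZMod D) = 1 ∧ B < p ∧ p ∣ q.2 ∧
        ∀ i, ¬ (p : ℤ) ∣ q.1 i}.ncard : ℝ) ≤ ε * (H : ℝ) ^ (n + 1) := by
  classical
  obtain ⟨N, hN⟩ := exists_nat_gt ((n : ℝ) * 3 ^ n * 2 / ε)
  set B' : ℕ := max B N + 1 with hB'
  obtain ⟨H₁, hH₁⟩ := density (q := D) (a := 1) isUnit_one B'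
    (show (0 : ℝ) < ε / (2 * 3 ^ n) by positivity)
  refine ⟨max H₁ 1, fun H hH => ?_⟩
  have hHH₁ : H₁ ≤ H := (le_max_left _ _).trans hH
  have hH1 : 1 ≤ H := (le_max_right _ _).trans hH
  have hHr : (1 : ℝ) ≤ H := by exact_mod_cast hH1
  have hdens := hH₁ H hHH₁
  set P : ℕ → Prop := fun b => ∃ p : ℕ, p.Prime ∧ (p : ZMod D) = 1 ∧ B' < p ∧ p ∣ b with hP
  set Ic : Finset ℤ := Finset.Icc (-(H : ℤ)) H with hIc
  have hIcc : (Ic.card : ℝ) ≤ 3 * H := by
    rw [hIc, Int.card_Icc]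
    have : ((H : ℤ) + 1 - -(H : ℤ)).toNat = 2 * H + 1 := by omega
    rw [this]
    push_cast
    linarith
  set box : Finset (Fin n → ℤ) := Fintype.piFinset fun _ => Ic with hbox
  have hboxc : (box.card : ℝ) ≤ (3 * H) ^ n := by
    rw [hbox, Fintype.card_piFinset, Finset.prod_const, Finset.card_univ, Fintype.card_fin]
    push_cast
    exact pow_le_pow_left₀ (Nat.cast_nonneg _) hIcc n
  set S1 : Finset ℕ := (Finset.Icc 1 H).filter fun b => ¬ P b with hS1
  set S2 : Finset ℕ := (Finset.Icc 1 H).filter fun b => P b with hS2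
  have hS1c : (S1.card : ℝ) ≤ ε / (2 * 3 ^ n) * H := by
    refine le_trans ?_ hdens
    have e : {t : ℕ | 0 < t ∧ t ≤ H ∧ ¬ ∃ p : ℕ, p.Prime ∧ (p : ZMod D) = 1 ∧ B' < p ∧ p ∣ t} =
        (S1 : Set ℕ) := by
      ext t
      simp only [hS1, hP, Set.mem_ofPred_eq, Finset.coe_filter, Finset.mem_Icc]
      constructor
      · rintro ⟨h1, h2, h3⟩
        exact ⟨⟨h1, h2⟩, h3⟩
      · rintro ⟨⟨h1, h2⟩, h3⟩
        exact ⟨h1, h2, h3⟩
    rw [e, Set.ncard_coe_finset]
  have hS2c : (S2.card : ℝ) ≤ H := by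
    have h1 : S2.card ≤ (Finset.Icc 1 H).card := Finset.card_filter_le _ _
    rw [Nat.card_Icc] at h1
    have : S2.card ≤ H := by omega
    exact_mod_cast this
  let f : ℕ → ℕ := fun b => if h : P b then h.choose else 1
  have hf : ∀ b ∈ S2, (f b).Prime ∧ (f b : ZMod D) = 1 ∧ B' < f b ∧ f b ∣ b := by
    intro b hb
    rw [hS2, Finset.mem_filter] at hb
    have : f b = hb.2.choose := dif_pos hb.2
    rw [this]
    exact hb.2.choose_spec
  let bi : Fin n → ℕ → Finset (Fin n → ℤ) := fun i q =>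
    Fintype.piFinset (Function.update (fun _ => Ic) i (Ic.filter fun a => (q : ℤ) ∣ a))
  have hbi : ∀ b ∈ S2, ∀ i, ((bi i (f b)).card : ℝ) ≤ (3 * H) ^ n / B' := by
    intro b hb i
    obtain ⟨h1, -, h2, h3⟩ := hf b hb
    rw [hS2, Finset.mem_filter, Finset.mem_Icc] at hb
    have hfH : f b ≤ H := (Nat.le_of_dvd hb.1.1 h3).trans hb.1.2
    have e : (bi i (f b)).card =
        (Ic.filter fun a => ((f b : ℕ) : ℤ) ∣ a).card * Ic.card ^ (n - 1) := by
      show (Fintype.piFinset _).card = _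
      rw [Fintype.card_piFinset]
      have e2 : ∀ j, (Function.update (fun _ => Ic) i
          (Ic.filter fun a => ((f b : ℕ) : ℤ) ∣ a) j).card =
          Function.update (fun _ => Ic.card) i
          (Ic.filter fun a => ((f b : ℕ) : ℤ) ∣ a).card j := by
        intro j
        by_cases hj : j = i
        · subst hj; simp
        · simp [hj]
      simp only [e2]
      rw [Finset.prod_update_of_mem (Finset.mem_univ i), Finset.prod_const, Finset.card_sdiff_of_subset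
        (by simp), Finset.card_univ, Fintype.card_fin, Finset.card_singleton]
    rw [e]
    push_cast
    have h4 := card_mult (H := H) h1.pos hfH
    have hB0 : (0 : ℝ) < B' := by rw [hB']; positivity
    have hfB : (B' : ℝ) ≤ f b := by exact_mod_cast h2.le
    have h5 : (3 : ℝ) * H / f b ≤ 3 * H / B' :=
      div_le_div_of_nonneg_left (by positivity) hB0 hfB
    have hn : n - 1 + 1 = n := Nat.sub_add_cancel (Fin.pos i)
    have h6 : ((Ic.filter fun a => ((f b : ℕ) : ℤ) ∣ a).card : ℝ) * (Ic.card : ℝ) ^ (n - 1) ≤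
        (3 * (H : ℝ) / B') * (3 * (H : ℝ)) ^ (n - 1) :=
      mul_le_mul (h4.trans h5) (pow_le_pow_left₀ (Nat.cast_nonneg _) hIcc _)
        (by positivity) (by positivity)
    refine h6.trans_eq ?_
    calc (3 * (H : ℝ) / B') * (3 * (H : ℝ)) ^ (n - 1) = (3 * (H : ℝ)) ^ (n - 1 + 1) / B' := by
          rw [pow_succ]; ring
      _ = _ := by rw [hn]
  set bad2 : Finset ((Fin n → ℤ) × ℕ) := S2.biUnion fun b => Finset.univ.biUnion fun i =>
    (bi i (f b)).image fun a => (a, b) with hbad2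
  have hb2 : (bad2.card : ℝ) ≤ H * (n * ((3 * H) ^ n / B')) := by
    have h1 : bad2.card ≤ ∑ b ∈ S2, ∑ i, (bi i (f b)).card := by
      refine Finset.card_biUnion_le.trans (Finset.sum_le_sum fun b _ => ?_)
      exact Finset.card_biUnion_le.trans (Finset.sum_le_sum fun i _ => Finset.card_image_le)
    calc (bad2.card : ℝ) ≤ ∑ b ∈ S2, ∑ i, ((bi i (f b)).card : ℝ) := by exact_mod_cast h1
      _ ≤ ∑ b ∈ S2, ∑ i : Fin n, ((3 * H) ^ n / B' : ℝ) :=
          Finset.sum_le_sum fun b hb => Finset.sum_le_sum fun i _ => hbi b hb i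
      _ = S2.card * (n * ((3 * H) ^ n / B')) := by
          rw [Finset.sum_const, Finset.sum_const, Finset.card_univ, Fintype.card_fin,
            nsmul_eq_mul, nsmul_eq_mul]
      _ ≤ _ := mul_le_mul_of_nonneg_right hS2c (by positivity)
  have hsub : {q : (Fin n → ℤ) × ℕ | (∀ i, |q.1 i| ≤ (H : ℤ)) ∧ 0 < q.2 ∧ q.2 ≤ H ∧
      ¬ ∃ p : ℕ, p.Prime ∧ (p : ZMod D) = 1 ∧ B < p ∧ p ∣ q.2 ∧ ∀ i, ¬ (p : ℤ) ∣ q.1 i} ⊆
      (((box ×ˢ S1) ∪ bad2 : Finset ((Fin n → ℤ) × ℕ)) : Set ((Fin n → ℤ) × ℕ)) := by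
    rintro ⟨a, b⟩ ⟨h1, h2, h3, h4⟩
    simp only at h1 h2 h3 h4
    rw [Finset.mem_coe, Finset.mem_union]
    have ha : ∀ i, a i ∈ Ic := fun i => by
      rw [hIc, Finset.mem_Icc]
      exact abs_le.1 (h1 i)
    by_cases hPb : P b
    · right
      have hbS : b ∈ S2 := by
        rw [hS2, Finset.mem_filter, Finset.mem_Icc]
        exact ⟨⟨h2, h3⟩, hPb⟩
      obtain ⟨g1, g0, g2, g3⟩ := hf b hbS
      push Not at h4
      obtain ⟨i, hi⟩ := h4 (f b) g1 g0 (lt_of_le_of_lt (by rw [hB']; omega) g2) g3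
      rw [hbad2, Finset.mem_biUnion]
      refine ⟨b, hbS, ?_⟩
      rw [Finset.mem_biUnion]
      refine ⟨i, Finset.mem_univ _, ?_⟩
      rw [Finset.mem_image]
      refine ⟨a, ?_, rfl⟩
      show a ∈ Fintype.piFinset _
      rw [Fintype.mem_piFinset]
      intro j
      by_cases hj : j = i
      · subst hj
        rw [Function.update_self, Finset.mem_filter]
        exact ⟨ha j, hi⟩
      · rw [Function.update_of_ne hj]
        exact ha j
    · left
      rw [Finset.mem_product]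
      refine ⟨?_, ?_⟩
      · rw [hbox, Fintype.mem_piFinset]
        exact ha
      · rw [hS1, Finset.mem_filter, Finset.mem_Icc]
        exact ⟨⟨h2, h3⟩, hPb⟩
  have hle := Set.ncard_le_ncard hsub (Finset.finite_toSet _)
  rw [Set.ncard_coe_finset] at hle
  have hle2 : (((box ×ˢ S1) ∪ bad2).card : ℝ) ≤ box.card * S1.card + bad2.card := by
    have := Finset.card_union_le (box ×ˢ S1) bad2
    rw [Finset.card_product] at this
    exact_mod_cast this
  have hB0 : (0 : ℝ) < B' := by rw [hB']; positivity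
  have hBN : (n : ℝ) * 3 ^ n * 2 / ε < B' := by
    refine hN.trans_le ?_
    rw [hB']
    have : N ≤ max B N + 1 := by omega
    exact_mod_cast this
  calc _ ≤ (((box ×ˢ S1) ∪ bad2).card : ℝ) := by exact_mod_cast hle
    _ ≤ box.card * S1.card + bad2.card := hle2
    _ ≤ (3 * H) ^ n * (ε / (2 * 3 ^ n) * H) + H * (n * ((3 * H) ^ n / B')) := by
        refine add_le_add ?_ hb2
        exact mul_le_mul hboxc hS1c (Nat.cast_nonneg _) (by positivity)
    _ = (ε / 2 + n * 3 ^ n / B') * (H : ℝ) ^ (n + 1) := by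
        have h3 : (3 : ℝ) ^ n ≠ 0 := by positivity
        rw [mul_pow, pow_succ]
        field_simp
    _ ≤ ε * (H : ℝ) ^ (n + 1) := by
        refine mul_le_mul_of_nonneg_right ?_ (by positivity)
        have h4 : (n : ℝ) * 3 ^ n / B' ≤ ε / 2 := by
          rw [div_le_iff₀ hB0]
          rw [div_lt_iff₀ hε] at hBN
          linarith
        linarith

end Pool.Agent.H882
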