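import Pool.Graph.R_seed8.Y226.ZU.NF

/-!
Embeddings of the complex numbers into a complete algebraically closed field with large values at
algebraically independent elements.
-/

set_option autoImplicit false

namespace Pool.Agent.H882

open Cardinal Pool.Agent.Y226

theorem indep_scale {k A ι : Type} [Field k] [Field A] [Algebra k A] {x : ι → A}
    (hx : AlgebraicIndependent k x) (e : ι → k) (he : ∀ i, e i ≠ 0) :
    AlgebraicIndependent k (fun i => algebraMap k A (e i) * x i) := by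
  rw [algebraicIndependent_iff] at hx ⊢
  intro P hP
  let φ : MvPolynomial ι k →ₐ[k] MvPolynomial ι k :=
    MvPolynomial.aeval fun i => MvPolynomial.C (e i) * MvPolynomial.X i
  let ψ : MvPolynomial ι k →ₐ[k] MvPolynomial ι k :=
    MvPolynomial.aeval fun i => MvPolynomial.C (e i)⁻¹ * MvPolynomial.X i
  have h1 : ψ (φ P) = P := by
    have : ψ.comp φ = AlgHom.id k _ := by
      ext i
      simp only [φ, ψ, AlgHom.comp_apply, MvPolynomial.aeval_X, map_mul, AlgHom.id_apply]
      have e1 : (MvPolynomial.aeval fun i => MvPolynomial.C (e i)⁻¹ * MvPolynomial.X i)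
          (MvPolynomial.C (e i) : MvPolynomial ι k) = MvPolynomial.C (e i) := by
        rw [MvPolynomial.aeval_C]; rfl
      rw [e1, ← mul_assoc, ← map_mul, mul_inv_cancel₀ (he i), map_one, one_mul]
    exact DFunLike.congr_fun this P
  have h2 : MvPolynomial.aeval x (φ P) = 0 := by
    have e1 : (MvPolynomial.aeval x).comp φ =
        MvPolynomial.aeval (fun i => algebraMap k A (e i) * x i) := by
      ext i
      simp only [φ, AlgHom.comp_apply, MvPolynomial.aeval_X, map_mul, MvPolynomial.aeval_C]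
    have := DFunLike.congr_fun e1 P
    rw [AlgHom.comp_apply] at this
    rw [this, hP]
  rw [← h1, hx _ h2, map_zero]

theorem exists_ext {C : Type} [NormedField C] [CompleteSpace C] [IsAlgClosed C] (φ₀ : QA →+* C)
    (ϖ : QA) (hϖ : 1 < ‖φ₀ ϖ‖) {ι : Type} [Finite ι] (y : ι → ℂ) (hy : AlgebraicIndependent QA y)
    (R : ℝ) : ∃ Φ : ℂ →+* C, (∀ a : QA, Φ (a : ℂ) = φ₀ a) ∧ ∀ i, R < ‖Φ (y i)‖ := by
  classical
  letI : NontriviallyNormedField C :=
    { (inferInstance : NormedField C) with non_trivial := ⟨φ₀ ϖ, hϖ⟩ }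
  letI : Algebra QA C := φ₀.toAlgebra
  obtain ⟨S, hyS, hS⟩ := exists_isTranscendenceBasis_superset (R := QA) (s := Set.range y)
    hy.coe_range
  obtain ⟨κ, b, hb⟩ := exists_isTranscendenceBasis' QA C
  have hcard : #S ≤ #κ := by
    have h1 : #S ≤ 𝔠 := by
      rw [← Cardinal.mk_complex]
      exact Cardinal.mk_set_le S
    have h2 : 𝔠 ≤ #C := continuum_le_cardinal_of_nontriviallyNormedField C
    have h3 := IsAlgClosed.cardinal_le_max_transcendence_basis' b hb
    have h4 : #QA ≤ ℵ₀ := by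
      have := Algebra.IsAlgebraic.cardinalMk_le_max ℚ QA
      refine this.trans (max_le ?_ le_rfl)
      exact Cardinal.mk_le_aleph0
    have h5 : 𝔠 ≤ max #κ ℵ₀ := by
      refine (h2.trans h3).trans (max_le (max_le ?_ ?_) ?_)
      · exact h4.trans (le_max_right _ _)
      · exact le_max_left _ _
      · exact le_max_right _ _
    rcases le_max_iff.1 h5 with h | h
    · exact h1.trans h
    · exact absurd h (not_le.2 Cardinal.aleph0_lt_continuum)
  obtain ⟨f⟩ : Nonempty (S ↪ κ) := Cardinal.le_def _ _ |>.1 hcard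
  have hbf : AlgebraicIndependent QA (fun s : S => b (f s)) := hb.1.comp f f.injective
  -- the scaling
  have hk : ∀ s : S, ∃ e : QA, e ≠ 0 ∧ R < ‖φ₀ e * b (f s)‖ := by
    intro s
    have hne : b (f s) ≠ 0 := hbf.ne_zero s
    have hpos : 0 < ‖b (f s)‖ := norm_pos_iff.2 hne
    obtain ⟨k, hk⟩ := pow_unbounded_of_one_lt (R / ‖b (f s)‖) hϖ
    refine ⟨ϖ ^ k, pow_ne_zero _ ?_, ?_⟩
    · rintro rfl
      rw [map_zero, norm_zero] at hϖ
      exact absurd hϖ (not_lt.2 zero_le_one)
    · rw [norm_mul, map_pow, norm_pow]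
      rwa [div_lt_iff₀ hpos] at hk
  choose e he0 heR using hk
  have hc : AlgebraicIndependent QA (fun s : S => algebraMap QA C (e s) * b (f s)) :=
    indep_scale hbf e he0
  set c : S → C := fun s => algebraMap QA C (e s) * b (f s) with hcdef
  -- the homomorphism on the subalgebra
  have hS1 : AlgebraicIndependent QA ((↑) : S → ℂ) := hS.1
  let A := Algebra.adjoin QA (Set.range ((↑) : S → ℂ))
  let g : A →+* C := (MvPolynomial.aeval c : MvPolynomial S QA →ₐ[QA] C).toRingHom.comp
    (hS1.aevalEquiv.symm : A ≃ₐ[QA] MvPolynomial S QA).toRingEquiv.toRingHom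
  have hginj : Function.Injective g := by
    intro u v huv
    have h1 : Function.Injective (MvPolynomial.aeval c : MvPolynomial S QA →ₐ[QA] C) := hc
    exact (hS1.aevalEquiv.symm).injective (h1 huv)
  letI : Algebra A C := g.toAlgebra
  haveI : Algebra.IsAlgebraic A ℂ := hS.isAlgebraic
  haveI : FaithfulSMul A C := (faithfulSMul_iff_algebraMap_injective A C).2 hginj
  let Φ : ℂ →ₐ[A] C := IsAlgClosed.lift (R := A) (S := ℂ) (M := C)
  have hΦA : ∀ u : A, Φ (u : ℂ) = g u := fun u => Φ.commutes u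
  have hgX : ∀ s : S, ∀ h : (s : ℂ) ∈ A, g ⟨(s : ℂ), h⟩ = c s := by
    intro s h
    have h1 : hS1.aevalEquiv (MvPolynomial.X s) = ⟨(s : ℂ), h⟩ := by
      apply Subtype.ext
      refine (hS1.algebraMap_aevalEquiv _).trans ?_
      simp
    show (MvPolynomial.aeval c) (hS1.aevalEquiv.symm _) = _
    rw [← h1, AlgEquiv.symm_apply_apply, MvPolynomial.aeval_X]
  refine ⟨Φ.toRingHom, fun a => ?_, fun i => ?_⟩
  · have h1 : (a : ℂ) ∈ A := A.algebraMap_mem a
    have h2 := hΦA ⟨(a : ℂ), h1⟩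
    have h3 : hS1.aevalEquiv (MvPolynomial.C a) = ⟨(a : ℂ), h1⟩ := by
      apply Subtype.ext
      refine (hS1.algebraMap_aevalEquiv _).trans ?_
      rw [MvPolynomial.aeval_C]
      rfl
    have h4 : g ⟨(a : ℂ), h1⟩ = φ₀ a := by
      show (MvPolynomial.aeval c) (hS1.aevalEquiv.symm _) = _
      rw [← h3, AlgEquiv.symm_apply_apply, MvPolynomial.aeval_C]
      rfl
    rw [← h4]
    exact h2
  · have h1 : y i ∈ S := hyS ⟨i, rfl⟩
    have h2 : ((⟨y i, h1⟩ : S) : ℂ) ∈ A := Algebra.subset_adjoin ⟨⟨y i, h1⟩, rfl⟩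
    have h3 := hgX ⟨y i, h1⟩ h2
    have h4 : Φ (y i) = c ⟨y i, h1⟩ := by
      rw [← h3]
      exact hΦA ⟨y i, h2⟩
    show R < ‖Φ (y i)‖
    rw [h4]
    exact heR ⟨y i, h1⟩

end Pool.Agent.H882
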