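import Pool.Agent.H882.BadVal

/-!
The global theorem for centres with totally bad reduction.
-/

set_option autoImplicit false

namespace Pool.Agent.H882

open UpperHalfPlane H294ZP Function Pool.Agent.N135.ZO NumberField IsDedekindDomain
open Pool.Agent.Y226 Pool.Agent.Y226.ZG WithZero

theorem exists_prime_below {K : Type} [Field K] [NumberField K] (v : HeightOneSpectrum (𝓞 K)) :
    ∃ p : ℕ, p.Prime ∧ (p : 𝓞 K) ∈ v.asIdeal := by
  classical
  have hex : ∃ N : ℕ, 0 < N ∧ (N : 𝓞 K) ∈ v.asIdeal := by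
    refine ⟨Ideal.absNorm v.asIdeal, ?_, Ideal.absNorm_mem _⟩
    have : Ideal.absNorm v.asIdeal ≠ 0 := by
      rw [Ne, Ideal.absNorm_eq_zero_iff]
      exact v.ne_bot
    omega
  set N := Nat.find hex with hN
  obtain ⟨hN0, hNv⟩ := Nat.find_spec hex
  rw [← hN] at hN0 hNv
  have hN1 : N ≠ 1 := by
    intro h
    rw [h, Nat.cast_one] at hNv
    exact v.isPrime.ne_top ((Ideal.eq_top_iff_one _).2 hNv)
  have hq := Nat.minFac_prime hN1
  obtain ⟨k, hk⟩ := Nat.minFac_dvd N
  have hmem : ((N.minFac : ℕ) : 𝓞 K) * (k : 𝓞 K) ∈ v.asIdeal := by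
    rw [← Nat.cast_mul, ← hk]
    exact hNv
  rcases v.isPrime.mem_or_mem hmem with h | h
  · exact ⟨_, hq, h⟩
  · exfalso
    have hk0 : 0 < k := Nat.pos_of_ne_zero (by rintro rfl; simp at hk; omega)
    have hlt : k < N := by
      rw [hk]
      have := hq.one_lt
      nlinarith
    exact Nat.find_min hex hlt ⟨hk0, h⟩

theorem bad_glob {K : Type} [Field K] [NumberField K] (σ : K →+* ℂ)
    (v : HeightOneSpectrum (𝓞 K)) {n : ℕ} (s : Fin n → K) (hs : ∀ i, 1 < v.valuation K (s i)) :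
    ∃ G b : ℕ, ∀ (m : ℕ) (y : Fin n → ℂ),
      (∀ J : Finset (Fin n), J.card = m + 1 → ∃ (F : MvPolynomial (Fin n) K) (d : Fin n →₀ ℕ),
        (∀ u ∈ F.support, u ≤ d) ∧ d.support ⊆ J ∧ F.coeff d ≠ 0 ∧
        (∀ u, v.valuation K (F.coeff u) ≤ v.valuation K (F.coeff d)) ∧
        MvPolynomial.eval₂ σ y F = 0) →
      ∀ (lam : Fin n → K), (∀ i, v.valuation K (lam i) < v.valuation K (s i)) →
      ∀ (r : ℕ) (Z : SpecialDatum n r) (x : Fin n → ℂ), x ∈ Z.locus →
        (∀ i, x i = σ (s i) + σ (lam i) * y i) → ∀ (I W : Finset (Fin n)),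
        AlgebraicIndependent ℚ (fun i : W => x i) →
        (∀ i ∈ I, ∀ k ∈ I, i ≠ k → ∀ N, 0 < N → N ≤ G → IsogN N (x i) (x k) →
          (∀ j, v.valuation K (lam j) * exp (b : ℤ) ≤ v.valuation K (s j)) ∧
          ¬ IsogN N (σ (s i)) (σ (s k))) → I.card + W.card ≤ m + r := by
  classical
  obtain ⟨p, hp, hpv⟩ := exists_prime_below v
  haveI : Fact p.Prime := ⟨hp⟩
  obtain ⟨C, _, _, _, _, _, -, hpC⟩ := exists_padic p
  have hp1 : ‖(p : C)‖ < 1 := by
    rw [hpC]
    exact inv_lt_one_of_one_lt₀ (by exact_mod_cast hp.one_lt)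
  have hp0 : 0 < ‖(p : C)‖ := by
    rw [hpC]
    exact inv_pos.2 (by exact_mod_cast hp.pos)
  obtain ⟨ι, hι⟩ := exists_embedding (C := C) hp1 v hpv
  have halg : ∀ a : K, σ a ∈ QA := by
    intro a
    rw [mem_QA]
    exact (Algebra.IsAlgebraic.isAlgebraic (R := ℚ) a).algHom σ.toRatAlgHom
  let σ' : K →+* QA := RingHom.codRestrict σ QA halg
  have hσ' : ∀ a, ((σ' a : QA) : ℂ) = σ a := fun _ => rfl
  obtain ⟨φ₀, hφ₀⟩ := exists_phi σ' ι
  set ψ : ZZ →+* C := φ₀.comp iA with hψdef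
  have hψ : ∀ z, ‖ψ z‖ ≤ 1 := psi_norm φ₀
  have hψi : Function.Injective ψ := by
    refine φ₀.injective.comp ?_
    have : Function.Injective (rA.comp iA) := by rw [rA_comp]; exact Subtype.val_injective
    exact Function.Injective.of_comp (f := rA) this
  have hs1 : ∀ i, 1 < ‖ι (s i)‖ := fun i => one_lt_norm_of_val hι (hs i)
  obtain ⟨ϖ, hϖ⟩ := v.valuation_exists_uniformizer K
  set θ : ℝ := ‖ι ϖ‖ with hθdef
  have hθ1 : θ < 1 := norm_lt_one_of_val hι (by
    rw [hϖ, ← exp_zero, exp_lt_exp]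
    norm_num)
  have hθ0 : 0 ≤ θ := norm_nonneg _
  choose Gf hGf using fun i k : Fin n => bad_bound (p := p) hψ hp1 hp0 (hs1 i) (hs1 k) hθ1
  choose ε hε0 hε using fun i k : Fin n => bad_small (p := p) hψ hp1 hp0 (hs1 i) (hs1 k)
  have hbex : ∀ i k : Fin n, ∃ b : ℕ, θ ^ b < ε i k := fun i k =>
    exists_pow_lt_of_lt_one (hε0 i k) hθ1
  choose bf hbf using hbex
  refine ⟨∑ i, ∑ k, Gf i k, ∑ i, ∑ k, bf i k, fun m y hG lam hlam r Z x hxZ hxy I W hW hI => ?_⟩
  have hGle : ∀ i k, Gf i k ≤ ∑ i, ∑ k, Gf i k := fun i k =>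
    (Finset.single_le_sum (f := fun k => Gf i k) (fun _ _ => Nat.zero_le _)
      (Finset.mem_univ k)).trans (Finset.single_le_sum (f := fun i => ∑ k, Gf i k)
      (fun _ _ => Nat.zero_le _) (Finset.mem_univ i))
  have hble : ∀ i k, bf i k ≤ ∑ i, ∑ k, bf i k := fun i k =>
    (Finset.single_le_sum (f := fun k => bf i k) (fun _ _ => Nat.zero_le _)
      (Finset.mem_univ k)).trans (Finset.single_le_sum (f := fun i => ∑ k, bf i k)
      (fun _ _ => Nat.zero_le _) (Finset.mem_univ i))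
  set b := ∑ i, ∑ k, bf i k with hbdef
  -- the coordinates in `W`
  have hlamW : ∀ i ∈ W, lam i ≠ 0 := by
    intro i hi h0
    have h1 := hW.transcendental ⟨i, hi⟩
    apply h1
    show IsAlgebraic ℚ (x i)
    rw [hxy i, h0, map_zero, zero_mul, add_zero]
    exact mem_QA.1 (halg _)
  have hWQ : AlgebraicIndependent QA (fun i : W => x i) := hW.extendScalars QA
  have hyQ : AlgebraicIndependent QA (fun i : W => y i) :=
    indep_affine (fun i : W => σ' (s i)) (fun i : W => σ' (lam i))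
      (fun i => (map_ne_zero σ').2 (hlamW i i.2)) (fun i => hxy i) hWQ
  -- the embedding
  set D : ℕ := 1 + ∑ i, ∑ j, (Z.mat j * (Z.mat i).adjugate).det.toNat with hD
  have hDle : ∀ i j, (Z.mat j * (Z.mat i).adjugate).det.toNat ≤ D := fun i j =>
    ((Finset.single_le_sum (f := fun j => (Z.mat j * (Z.mat i).adjugate).det.toNat)
      (fun _ _ => Nat.zero_le _) (Finset.mem_univ j)).trans (Finset.single_le_sum
      (f := fun i => ∑ j, (Z.mat j * (Z.mat i).adjugate).det.toNat)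
      (fun _ _ => Nat.zero_le _) (Finset.mem_univ i))).trans (Nat.le_add_left _ _)
  set M : ℝ := ∑ k, ‖ι (s k)‖ ^ D with hM
  have hMle : ∀ k, ‖ι (s k)‖ ^ D ≤ M := fun k =>
    Finset.single_le_sum (f := fun k => ‖ι (s k)‖ ^ D) (fun _ _ => by positivity)
      (Finset.mem_univ k)
  have hM0 : 0 ≤ M := Finset.sum_nonneg fun _ _ => by positivity
  set R : ℝ := 1 + ∑ i, M / ‖ι (lam i)‖ with hR
  have hR1 : 1 ≤ R := le_add_of_nonneg_right (Finset.sum_nonneg fun _ _ => by positivity)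
  have hRle : ∀ i, M / ‖ι (lam i)‖ ≤ R := fun i =>
    (Finset.single_le_sum (f := fun i => M / ‖ι (lam i)‖) (fun _ _ => by positivity)
      (Finset.mem_univ i)).trans (le_add_of_nonneg_left zero_le_one)
  have hpQ : 1 < ‖φ₀ ((p : QA)⁻¹)‖ := by
    rw [map_inv₀, map_natCast, norm_inv]
    exact (one_lt_inv₀ hp0).2 hp1
  obtain ⟨Φ, hΦ, hΦy⟩ := exists_ext φ₀ ((p : QA)⁻¹) hpQ (fun i : W => y i) hyQ R
  have hΦK : ∀ a : K, Φ (σ a) = ι a := by
    intro a
    rw [← hσ' a, hΦ, hφ₀]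
  have hΦZ : Φ.comp ιZ = ψ := by
    ext z
    exact hΦ (iA z)
  have hΦx : ∀ i, Φ (x i) = ι (s i) + ι (lam i) * Φ (y i) := by
    intro i
    rw [hxy i, map_add, map_mul, hΦK, hΦK]
  -- the coordinates of large norm
  set U : Finset (Fin n) := Finset.univ.filter fun i => 1 < ‖Φ (y i)‖ with hU
  have hUm : U.card ≤ m := by
    refine big_card σ Φ y fun J hJ => ?_
    obtain ⟨F, d, h1, h2, h3, h4, h5⟩ := hG J hJ
    refine ⟨F, d, h1, h2, h3, fun u => ?_, h5⟩
    rw [hΦK, hΦK]
    exact norm_le_of_val_le hι (h4 u)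
  have hWU : W ⊆ U := by
    intro i hi
    rw [hU, Finset.mem_filter]
    exact ⟨Finset.mem_univ _, hR1.trans_lt (hΦy ⟨i, hi⟩)⟩
  have hxW : ∀ i ∈ W, M < ‖Φ (x i)‖ := by
    intro i hi
    have hl0 : 0 < ‖ι (lam i)‖ := norm_pos_iff.2 ((map_ne_zero ι).2 (hlamW i hi))
    have h1 : M < ‖ι (lam i) * Φ (y i)‖ := by
      rw [norm_mul, mul_comm]
      rw [← div_lt_iff₀ hl0]
      exact (hRle i).trans_lt (hΦy ⟨i, hi⟩)
    have h2 : ‖ι (s i)‖ < ‖ι (lam i) * Φ (y i)‖ := by
      refine lt_of_le_of_lt ?_ h1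
      refine le_trans ?_ (hMle i)
      exact le_self_pow₀ (hs1 i).le (by omega)
    rw [hΦx i, add_comm, neq_of_add_lt h2]
    exact h1
  have hxJ : ∀ i, i ∉ U → ‖Φ (x i) - ι (s i)‖ ≤ ‖ι (lam i)‖ := by
    intro i hi
    have h1 : ‖Φ (y i)‖ ≤ 1 := by
      by_contra hcon
      push Not at hcon
      exact hi (Finset.mem_filter.2 ⟨Finset.mem_univ _, hcon⟩)
    rw [hΦx i, add_sub_cancel_left]
    exact nmul_le' le_rfl h1
  have hlamθ : ∀ i, ‖ι (lam i)‖ ≤ θ * ‖ι (s i)‖ := by
    intro i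
    have := norm_of_val_mul_exp hι hϖ (val_mul_exp_one (hlam i))
    rwa [pow_one] at this
  have hxJn : ∀ i, i ∉ U → ‖Φ (x i)‖ = ‖ι (s i)‖ := fun i hi =>
    (qT_near hψ (hs1 i) hθ1 ((hxJ i hi).trans (hlamθ i))).1
  -- the set
  set T : Finset (Fin n) := (I \ U) ∪ W with hT
  have hdisj : Disjoint (I \ U) W := by
    rw [Finset.disjoint_left]
    intro i hi hiW
    exact (Finset.mem_sdiff.1 hi).2 (hWU hiW)
  have hTcard : T.card = (I \ U).card + W.card := Finset.card_union_of_disjoint hdisj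
  have hbig : ∀ i ∈ T, 1 < ‖Φ (x i)‖ := by
    intro i hi
    rcases Finset.mem_union.1 hi with h | h
    · rw [hxJn i (Finset.mem_sdiff.1 h).2]
      exact hs1 i
    · refine lt_of_le_of_lt ?_ (hxW i h)
      exact (one_le_pow₀ (hs1 i).le).trans (hMle i)
  have hdetpos : ∀ i j, 0 < (Z.mat j * (Z.mat i).adjugate).det := by
    intro i j
    rw [det_mul', det_adj]
    have h1 := Z.det_pos i
    have h2 := Z.det_pos j
    positivity
  have hTr : T.card ≤ r := by
    refine crit_card' Z hxZ T ?_ ?_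
    · intro i hi τ hτ hxi
      have h1 := hbig i hi
      rw [hxi] at h1
      exact absurd h1 (not_lt.2 (norm_le_one_of_isIntegral Φ (singular_modulus_integral τ hτ)))
    · intro i hi k hk hik w w' hrel hxi hxk
      have hdet := hdetpos i k
      rcases Finset.mem_union.1 hi with hi' | hi'
      · obtain ⟨hiI, hiU⟩ := Finset.mem_sdiff.1 hi'
        rcases Finset.mem_union.1 hk with hk' | hk'
        · obtain ⟨hkI, hkU⟩ := Finset.mem_sdiff.1 hk'
          -- both coordinates are near the centre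
          obtain ⟨A, B, g, ζ, hA, hB, hAB, hg, hζ, hrel', -, hpsi⟩ := tate_rel (C := C) hψ
            (K₀ := ℂ) (i₀ := ιZ) (ρ := RingHom.id ℂ) (φ := Φ) (RingHom.id_comp _) hΦZ
            (τ := w) (w := w') (a := (Z.mat k * (Z.mat i).adjugate) 0 0)
            (b := (Z.mat k * (Z.mat i).adjugate) 0 1)
            (c := (Z.mat k * (Z.mat i).adjugate) 1 0)
            (d := (Z.mat k * (Z.mat i).adjugate) 1 1)
            (by rw [← det_eq]; exact hdet) hrel (X := x i) (Y := x k) hxi hxk (hbig i hi)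
          have hdi := (hxJ i hiU).trans (hlamθ i)
          have hdk := (hxJ k hkU).trans (hlamθ k)
          have hle := hGf i k A B g ζ (Φ (x i)) (Φ (x k)) hA hB hAB hg hζ hdi hdk hrel'
          have hN0 : 0 < A * B * g ^ 2 := Nat.mul_pos (Nat.mul_pos hA hB) (pow_pos hg 2)
          have hiso : IsogN (A * B * g ^ 2) (x i) (x k) := by
            rw [hxi, hxk]
            exact isogN_of_psi hN0 hpsi
          obtain ⟨hsmall, hno⟩ := hI i hiI k hkI hik _ hN0 (hle.trans (hGle i k)) hiso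
          apply hno
          have hsm : ∀ j l l', ‖ι (lam j)‖ ≤ ε l l' * ‖ι (s j)‖ := by
            intro j l l'
            refine (norm_of_val_mul_exp hι hϖ (hsmall j)).trans ?_
            refine mul_le_mul_of_nonneg_right ?_ (norm_nonneg _)
            refine le_trans ?_ (hbf l l').le
            exact pow_le_pow_of_le_one hθ0 hθ1.le (hble l l')
          have h1 := hε i k A B g ζ (Φ (x i)) (Φ (x k)) hA hB hAB hg hζ
            ((hxJ i hiU).trans (hsm i i k)) ((hxJ k hkU).trans (hsm k i k)) hrel'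
          have h2 := psi_of_tate hψ hψi (hs1 i) (hs1 k) hA hB hg hζ h1
          refine isogN_of_psi hN0 ?_
          apply Φ.injective
          rw [map_PsiE, hΦZ, map_zero, hΦK, hΦK]
          exact h2
        · -- `k` is large
          have h1 := norm_le_of_rel hψ Φ hΦZ hdet hrel (by rw [← hxi]; exact hbig i hi)
          rw [← hxi, ← hxk, hxJn i hiU] at h1
          have h2 := hxW k hk'
          have h3 : ‖ι (s i)‖ ^ (Z.mat k * (Z.mat i).adjugate).det.toNat ≤ M :=
            (pow_le_pow_right₀ (hs1 i).le (hDle i k)).trans (hMle i)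
          exact absurd h2 (not_lt.2 (h1.trans h3))
      · rcases Finset.mem_union.1 hk with hk' | hk'
        · obtain ⟨hkI, hkU⟩ := Finset.mem_sdiff.1 hk'
          have hdet' : 0 < (Z.mat k * (Z.mat i).adjugate).adjugate.det := by
            rw [det_adj]; exact hdet
          have h1 := norm_le_of_rel hψ Φ hΦZ hdet' (rel_adj hrel)
            (by rw [← hxk]; exact hbig k hk)
          rw [← hxi, ← hxk, hxJn k hkU, det_adj] at h1
          have h2 := hxW i hi'
          have h3 : ‖ι (s k)‖ ^ (Z.mat k * (Z.mat i).adjugate).det.toNat ≤ M :=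
            (pow_le_pow_right₀ (hs1 k).le (hDle i k)).trans (hMle k)
          exact absurd h2 (not_lt.2 (h1.trans h3))
        · refine not_indep_of_integral hW hi' hk' hik ?_
          rw [hxi, hxk]
          refine isogenous_integral w w' _ _ _ _ ?_ hrel
          rw [← det_eq]
          exact hdet
  have hIU : I.card ≤ (I \ U).card + U.card := by
    have h1 := Finset.card_le_card (show I ⊆ (I \ U) ∪ U by
      intro i hi
      by_cases h : i ∈ U
      · exact Finset.mem_union_right _ h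
      · exact Finset.mem_union_left _ (Finset.mem_sdiff.2 ⟨hi, h⟩))
    exact h1.trans (Finset.card_union_le _ _)
  omega

end Pool.Agent.H882
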