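import Pool.Graph.R_seed8.Y226.ZP.Modular
import Pool.Graph.R_seed8.Y226.ZP.Wild
import Pool.Graph.R_seed8.Y226.ZP.Emb

/-!
Tate parameters in a small neighbourhood of a pair of points of multiplicative reduction: the orders
of the roots of unity in the Tate relations of isogenous pairs are bounded.
-/

set_option autoImplicit false

namespace Pool.Agent.H882

open Pool.Agent.Y226

variable {C : Type} [NormedField C] [IsUltrametricDist C] {p : ℕ} [hpf : Fact p.Prime]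

/-- a root of unity which is close to `1` is `1` -/
theorem ru_one (hp1 : ‖(p : C)‖ < 1) {ζ : C} {N : ℕ} (hN : 0 < N) (h : ζ ^ N = 1)
    (hlt : ‖ζ - 1‖ < ‖(p : C)‖) : ζ = 1 := by
  by_contra hne
  have hg : orderOf ζ ≠ 1 := fun h1 => hne (orderOf_eq_one_iff.1 h1)
  obtain ⟨r, hr, hrg⟩ := Nat.exists_prime_and_dvd hg
  have hfin : 0 < orderOf ζ := orderOf_pos_iff.2 (isOfFinOrder_iff_pow_eq_one.2 ⟨N, hN, h⟩)
  have hord : orderOf (ζ ^ (orderOf ζ / r)) = r := orderOf_pow_orderOf_div hfin.ne' hrg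
  set ξ := ζ ^ (orderOf ζ / r) with hξ
  have hξr : ξ ^ r = 1 := by rw [← hord]; exact pow_orderOf_eq_one ξ
  have hξne : ξ ≠ 1 := by
    intro h1
    rw [h1, orderOf_one] at hord
    exact hr.one_lt.ne hord
  have hζ1 : ‖ζ‖ ≤ 1 := (neq_one (hlt.trans hp1) norm_one).le
  have hξlt : ‖ξ - 1‖ < ‖(p : C)‖ := by
    have := npow_sub_pow (x := ζ) (y := 1) hζ1 norm_one.le le_rfl (orderOf ζ / r)
    rw [one_pow] at this
    exact this.trans_lt hlt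
  by_cases hrp : r = p
  · subst hrp
    have h2 := root_p_norm hp1 hξr hξne
    have h3 : 0 < r - 1 := Nat.sub_pos_of_lt hr.one_lt
    have h4 : ‖ξ - 1‖ ^ (r - 1) ≤ ‖ξ - 1‖ :=
      pow_le_of_le_one (norm_nonneg _) (hξlt.trans hp1).le h3.ne'
    rw [h2] at h4
    exact absurd hξlt (not_lt.2 h4)
  · have h2 : ‖((r : ℤ) : C)‖ = 1 := by
      refine int_unit hp1 ?_
      rw [Int.natCast_dvd_natCast]
      intro hd
      exact hrp ((Nat.prime_dvd_prime_iff_eq hpf.out hr).1 hd).symm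
    rw [Int.cast_natCast] at h2
    exact hξne (tame_eq_one h2 hξr (hξlt.trans hp1))

/-- roots of unity in a disc of radius less than one around `1` -/
theorem ru_pow (hp1 : ‖(p : C)‖ < 1) (hp0 : 0 < ‖(p : C)‖) {θ : ℝ} (hθ : θ < 1) :
    ∃ k : ℕ, ∀ (ζ : C) (N : ℕ), 0 < N → ζ ^ N = 1 → ‖ζ - 1‖ ≤ θ → ζ ^ p ^ k = 1 := by
  set ρ : ℝ := max ‖(p : C)‖ θ with hρ
  have hρ0 : 0 < ρ := hp0.trans_le (le_max_left _ _)
  have hρ1 : ρ < 1 := max_lt hp1 hθ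
  have step : ∀ ζ : C, ‖ζ - 1‖ ≤ θ → ‖ζ ^ p - 1‖ ≤ ρ * ‖ζ - 1‖ := by
    intro ζ hζ
    have hζ1 : ‖ζ - 1‖ ≤ 1 := hζ.trans hθ.le
    obtain ⟨r, hr, he⟩ := nadd_pow_prime hpf.out hζ1 (norm_one (α := C)).le 1
    rw [pow_one, sub_add_cancel, one_pow, mul_one] at he
    have e : ζ ^ p - 1 = (ζ - 1) ^ p + p * (ζ - 1) * r := by rw [he]; ring
    rw [e]
    refine nadd_le ?_ ?_
    · rw [norm_pow]
      have h2 := hpf.out.two_le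
      calc ‖ζ - 1‖ ^ p ≤ ‖ζ - 1‖ ^ 2 := pow_le_pow_of_le_one (norm_nonneg _) hζ1 h2
        _ = ‖ζ - 1‖ * ‖ζ - 1‖ := sq _
        _ ≤ ρ * ‖ζ - 1‖ :=
          mul_le_mul_of_nonneg_right (hζ.trans (le_max_right _ _)) (norm_nonneg _)
    · refine nmul_le' ?_ hr
      rw [norm_mul]
      exact mul_le_mul_of_nonneg_right (le_max_left _ _) (norm_nonneg _)
  have iter : ∀ (k : ℕ) (ζ : C), ‖ζ - 1‖ ≤ θ → ‖ζ ^ p ^ k - 1‖ ≤ ρ ^ k * ‖ζ - 1‖ := by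
    intro k
    induction k with
    | zero => intro ζ _; simp
    | succ k ih =>
      intro ζ hζ
      have h1 := step ζ hζ
      have h2 : ‖ζ ^ p - 1‖ ≤ θ := by
        refine h1.trans (le_trans ?_ hζ)
        calc ρ * ‖ζ - 1‖ ≤ 1 * ‖ζ - 1‖ := mul_le_mul_of_nonneg_right hρ1.le (norm_nonneg _)
          _ = ‖ζ - 1‖ := one_mul _
      have h3 := ih (ζ ^ p) h2
      rw [← pow_mul, ← pow_succ'] at h3
      calc _ ≤ ρ ^ k * ‖ζ ^ p - 1‖ := h3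
        _ ≤ ρ ^ k * (ρ * ‖ζ - 1‖) := mul_le_mul_of_nonneg_left h1 (by positivity)
        _ = ρ ^ (k + 1) * ‖ζ - 1‖ := by ring
  obtain ⟨k, hk⟩ := exists_pow_lt_of_lt_one hp0 hρ1
  refine ⟨k, fun ζ N hN h hle => ?_⟩
  refine ru_one hp1 hN (ζ := ζ ^ p ^ k) ?_ ?_
  · rw [← pow_mul, mul_comm, pow_mul, h, one_pow]
  · refine (iter k ζ hle).trans_lt ?_
    calc ρ ^ k * ‖ζ - 1‖ ≤ ρ ^ k * 1 :=
        mul_le_mul_of_nonneg_left (hle.trans hθ.le) (by positivity)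
      _ < ‖(p : C)‖ := by rwa [mul_one]

section tate

variable [CompleteSpace C] {ψ : ZZ →+* C} (hψ : ∀ z, ‖ψ z‖ ≤ 1)

include hψ

/-- the Tate parameters of nearby points -/
theorem qT_near {x s : C} (hs : 1 < ‖s‖) {θ : ℝ} (hθ : θ < 1) (h : ‖x - s‖ ≤ θ * ‖s‖) :
    ‖x‖ = ‖s‖ ∧ ‖qT ψ x / qT ψ s - 1‖ ≤ θ := by
  have hs0 : 0 < ‖s‖ := one_pos.trans hs
  have hlt : ‖x - s‖ < ‖s‖ := by
    refine h.trans_lt ?_
    calc θ * ‖s‖ < 1 * ‖s‖ := mul_lt_mul_of_pos_right hθ hs0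
      _ = ‖s‖ := one_mul _
  have hx : ‖x‖ = ‖s‖ := neq_of_sub_lt hlt
  refine ⟨hx, ?_⟩
  have hx1 : 1 < ‖x‖ := by rwa [hx]
  set z := qT ψ x with hz
  set z' := qT ψ s with hz'
  have e1 : z * x = cC ψ z := qT_eq hψ hx1
  have e2 : z' * s = cC ψ z' := qT_eq hψ hs
  have n1 : ‖z‖ = ‖s‖⁻¹ := by rw [hz, qT_norm hψ hx1, hx]
  have n2 : ‖z'‖ = ‖s‖⁻¹ := qT_norm hψ hs
  have l1 : ‖z‖ < 1 := qT_lt hψ hx1
  have l2 : ‖z'‖ < 1 := qT_lt hψ hs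
  have hc := cC_sub hψ l1 l2
  have e3 : (z - z') * s = -(z * (x - s)) + (cC ψ z - cC ψ z') := by
    rw [← e1, ← e2]; ring
  have h4 : ‖z * (x - s)‖ ≤ θ := by
    rw [norm_mul, n1]
    calc ‖s‖⁻¹ * ‖x - s‖ ≤ ‖s‖⁻¹ * (θ * ‖s‖) :=
        mul_le_mul_of_nonneg_left h (inv_nonneg.2 hs0.le)
      _ = θ := by field_simp
  have h5 : ‖z - z'‖ * ‖s‖ ≤ θ := by
    rw [← norm_mul, e3]
    by_contra hcon
    push Not at hcon
    have h6 : ‖-(z * (x - s))‖ < ‖-(z * (x - s)) + (cC ψ z - cC ψ z')‖ := by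
      rw [norm_neg]; exact h4.trans_lt hcon
    have h7 := nadd (-(z * (x - s))) (cC ψ z - cC ψ z')
    rcases le_max_iff.1 h7 with h8 | h8
    · exact absurd h6 (not_lt.2 h8)
    · have h9 : ‖(z - z') * s‖ ≤ ‖z - z'‖ := by rw [e3]; exact h8.trans hc
      rw [norm_mul] at h9
      have h10 : ‖z - z'‖ = 0 := by
        by_contra hne
        have hpos : 0 < ‖z - z'‖ := lt_of_le_of_ne (norm_nonneg _) (Ne.symm hne)
        nlinarith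
      have h11 : ‖(z - z') * s‖ = 0 := by rw [norm_mul, h10, zero_mul]
      rw [← e3, h11] at hcon
      have : 0 ≤ θ := (norm_nonneg _).trans h4
      exact absurd hcon (not_lt.2 this)
  have hz0 : z' ≠ 0 := qT_ne hψ hs
  have e4 : z / z' - 1 = (z - z') / z' := by field_simp
  rw [e4, norm_div, n2, div_inv_eq_mul]
  exact h5

/-- the basic estimate: a root of unity in a Tate relation between points near `a`, `b` -/
theorem ru_near {a b x y : C} (ha : 1 < ‖a‖) (hb : 1 < ‖b‖) {θ : ℝ} (hθ : θ < 1)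
    (hx : ‖x - a‖ ≤ θ * ‖a‖) (hy : ‖y - b‖ ≤ θ * ‖b‖) {A B : ℕ} {ζ : C}
    (hζ : ‖ζ‖ = 1) (h : qT ψ y ^ B = ζ * qT ψ x ^ A) :
    ‖b‖ ^ B = ‖a‖ ^ A ∧ ‖ζ - qT ψ b ^ B / qT ψ a ^ A‖ ≤ θ := by
  obtain ⟨nx, qx⟩ := qT_near hψ ha hθ hx
  obtain ⟨ny, qy⟩ := qT_near hψ hb hθ hy
  have hx1 : 1 < ‖x‖ := by rwa [nx]
  have hy1 : 1 < ‖y‖ := by rwa [ny]
  have h1 := congrArg norm h
  rw [norm_mul, norm_pow, norm_pow, hζ, one_mul, qT_norm hψ hx1, qT_norm hψ hy1, nx, ny, inv_pow,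
    inv_pow, inv_inj] at h1
  refine ⟨h1, ?_⟩
  have ea : qT ψ a ≠ 0 := qT_ne hψ ha
  have eb : qT ψ b ≠ 0 := qT_ne hψ hb
  have ex : qT ψ x ≠ 0 := qT_ne hψ hx1
  have ey : qT ψ y ≠ 0 := qT_ne hψ hy1
  set s := qT ψ x / qT ψ a with hs
  set t := qT ψ y / qT ψ b with ht
  have hs1 : ‖s‖ ≤ 1 := (neq_one (qx.trans_lt hθ) norm_one).le
  have ht1 : ‖t‖ ≤ 1 := (neq_one (qy.trans_lt hθ) norm_one).le
  have hs' := npow_sub_pow hs1 (norm_one (α := C)).le qx A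
  have ht' := npow_sub_pow ht1 (norm_one (α := C)).le qy B
  rw [one_pow] at hs' ht'
  set u := qT ψ b ^ B / qT ψ a ^ A with hu
  have hu1 : ‖u‖ = 1 := by
    rw [hu, norm_div, norm_pow, norm_pow, qT_norm hψ ha, qT_norm hψ hb, inv_pow, inv_pow, h1,
      div_self]
    exact inv_ne_zero (pow_ne_zero _ (one_pos.trans ha).ne')
  have key : ζ * s ^ A = u * t ^ B := by
    rw [hs, ht, hu, div_pow, div_pow]
    have e1 : ζ = qT ψ y ^ B / qT ψ x ^ A := by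
      rw [h]; field_simp
    rw [e1]
    field_simp
  have e : ζ - u = u * (t ^ B - 1) - ζ * (s ^ A - 1) := by linear_combination key
  rw [e]
  exact nsub_le (nmul_le hu1.le ht') (nmul_le hζ.le hs')

end tate

section main

variable [CompleteSpace C] {ψ : ZZ →+* C} (hψ : ∀ z, ‖ψ z‖ ≤ 1)

include hψ

omit [IsUltrametricDist C] [CompleteSpace C] hψ in
theorem ratio_unique {a b : C} (ha : 1 < ‖a‖) {A B A' B' : ℕ} (hA' : 0 < A')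
    (hc : A.Coprime B) (hc' : A'.Coprime B') (h : ‖b‖ ^ B = ‖a‖ ^ A) (h' : ‖b‖ ^ B' = ‖a‖ ^ A') :
    A = A' ∧ B = B' := by
  have h1 : ‖a‖ ^ (A * B') = ‖a‖ ^ (A' * B) := by
    rw [pow_mul, ← h, pow_mul, ← h', ← pow_mul, ← pow_mul, mul_comm B B']
  have h2 : A * B' = A' * B := pow_right_injective₀ (one_pos.trans ha) ha.ne' h1
  have h3 : A ∣ A' := by
    have : A ∣ A' * B := ⟨B', h2.symm⟩
    exact hc.dvd_of_dvd_mul_right this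
  have h4 : A' ∣ A := by
    have : A' ∣ A * B' := ⟨B, h2⟩
    exact hc'.dvd_of_dvd_mul_right this
  have h5 : A = A' := Nat.dvd_antisymm h3 h4
  refine ⟨h5, ?_⟩
  rw [h5] at h2
  exact (Nat.eq_of_mul_eq_mul_left hA' h2).symm

omit [IsUltrametricDist C] [CompleteSpace C] hψ in
theorem ru_norm {ζ : C} {g : ℕ} (hg : 0 < g) (h : ζ ^ g = 1) : ‖ζ‖ = 1 := by
  have h1 : ‖ζ‖ ^ g = 1 := by rw [← norm_pow, h, norm_one]
  exact (pow_eq_one_iff_of_nonneg (norm_nonneg _) hg.ne').1 h1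

/-- the bound for the degrees of the isogenies between points in two discs -/
theorem bad_bound (hp1 : ‖(p : C)‖ < 1) (hp0 : 0 < ‖(p : C)‖) {a b : C} (ha : 1 < ‖a‖)
    (hb : 1 < ‖b‖) {θ : ℝ} (hθ : θ < 1) : ∃ G : ℕ, ∀ (A B g : ℕ) (ζ x y : C), 0 < A → 0 < B →
      A.Coprime B → 0 < g → IsPrimitiveRoot ζ g → ‖x - a‖ ≤ θ * ‖a‖ → ‖y - b‖ ≤ θ * ‖b‖ →
      qT ψ y ^ B = ζ * qT ψ x ^ A → A * B * g ^ 2 ≤ G := by
  by_cases hex : ∃ (A B g : ℕ) (ζ x y : C), 0 < A ∧ 0 < B ∧ A.Coprime B ∧ 0 < g ∧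
      IsPrimitiveRoot ζ g ∧ ‖x - a‖ ≤ θ * ‖a‖ ∧ ‖y - b‖ ≤ θ * ‖b‖ ∧ qT ψ y ^ B = ζ * qT ψ x ^ A
  · obtain ⟨A₀, B₀, g₀, ζ₀, x₀, y₀, hA₀, hB₀, hc₀, hg₀, hζ₀, hx₀, hy₀, h₀⟩ := hex
    obtain ⟨k, hk⟩ := ru_pow hp1 hp0 hθ
    refine ⟨A₀ * B₀ * (p ^ k * g₀) ^ 2, fun A B g ζ x y hA hB hc hg hζ hx hy h => ?_⟩
    obtain ⟨r1, r2⟩ := ru_near hψ ha hb hθ hx hy (ru_norm hg hζ.pow_eq_one) h
    obtain ⟨r3, r4⟩ := ru_near hψ ha hb hθ hx₀ hy₀ (ru_norm hg₀ hζ₀.pow_eq_one) h₀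
    obtain ⟨rfl, rfl⟩ := ratio_unique ha hA₀ hc hc₀ r1 r3
    have hn₀ : ‖ζ₀‖ = 1 := ru_norm hg₀ hζ₀.pow_eq_one
    have hz₀ : ζ₀ ≠ 0 := norm_pos_iff.1 (by rw [hn₀]; exact one_pos)
    have h5 : ‖ζ / ζ₀ - 1‖ ≤ θ := by
      have e : ζ / ζ₀ - 1 = ((ζ - qT ψ b ^ B / qT ψ a ^ A) -
          (ζ₀ - qT ψ b ^ B / qT ψ a ^ A)) / ζ₀ := by field_simp; ring
      rw [e, norm_div, hn₀, div_one]
      exact nsub_le r2 r4
    have h6 : (ζ / ζ₀) ^ (g * g₀) = 1 := by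
      rw [div_pow, pow_mul, hζ.pow_eq_one, one_pow, mul_comm g g₀, pow_mul, hζ₀.pow_eq_one,
        one_pow, div_one]
    have h7 := hk _ _ (Nat.mul_pos hg hg₀) h6 h5
    have h8 : ζ ^ (p ^ k * g₀) = 1 := by
      rw [pow_mul]
      rw [div_pow, div_eq_one_iff_eq (pow_ne_zero _ hz₀)] at h7
      rw [h7, ← pow_mul, mul_comm, pow_mul, hζ₀.pow_eq_one, one_pow]
    have h9 : g ∣ p ^ k * g₀ := hζ.dvd_of_pow_eq_one _ h8
    have h10 : g ≤ p ^ k * g₀ := Nat.le_of_dvd (Nat.mul_pos (pow_pos hpf.out.pos k) hg₀) h9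
    exact Nat.mul_le_mul_left _ (Nat.pow_le_pow_left h10 2)
  · refine ⟨0, fun A B g ζ x y hA hB hc hg hζ hx hy h => ?_⟩
    exact absurd ⟨A, B, g, ζ, x, y, hA, hB, hc, hg, hζ, hx, hy, h⟩ hex

/-- in small discs the relations are those of the centres -/
theorem bad_small (hp1 : ‖(p : C)‖ < 1) (hp0 : 0 < ‖(p : C)‖) {a b : C} (ha : 1 < ‖a‖)
    (hb : 1 < ‖b‖) : ∃ ε : ℝ, 0 < ε ∧ ∀ (A B g : ℕ) (ζ x y : C), 0 < A → 0 < B →
      A.Coprime B → 0 < g → IsPrimitiveRoot ζ g → ‖x - a‖ ≤ ε * ‖a‖ → ‖y - b‖ ≤ ε * ‖b‖ →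
      qT ψ y ^ B = ζ * qT ψ x ^ A → qT ψ b ^ B = ζ * qT ψ a ^ A := by
  have ea : qT ψ a ≠ 0 := qT_ne hψ ha
  by_cases hex : ∃ A B : ℕ, 0 < A ∧ 0 < B ∧ A.Coprime B ∧ ‖b‖ ^ B = ‖a‖ ^ A
  · obtain ⟨A₀, B₀, hA₀, hB₀, hc₀, hAB₀⟩ := hex
    set u := qT ψ b ^ B₀ / qT ψ a ^ A₀ with hu
    have fin : ∀ ζ : C, ζ = u → qT ψ b ^ B₀ = ζ * qT ψ a ^ A₀ := by
      rintro ζ rfl
      rw [hu]; field_simp
    by_cases hex2 : ∃ (ζ₁ : C) (N : ℕ), 0 < N ∧ ζ₁ ^ N = 1 ∧ ‖ζ₁ - u‖ < ‖(p : C)‖ ∧ ζ₁ ≠ u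
    · obtain ⟨ζ₁, N, hN, hζ₁, hlt, hne⟩ := hex2
      have hpos : 0 < ‖ζ₁ - u‖ := norm_pos_iff.2 (sub_ne_zero.2 hne)
      refine ⟨‖ζ₁ - u‖ / 2, half_pos hpos, fun A B g ζ x y hA hB hc hg hζ hx hy h => ?_⟩
      have hθ : ‖ζ₁ - u‖ / 2 < 1 := (half_lt_self hpos).trans (hlt.trans hp1)
      obtain ⟨r1, r2⟩ := ru_near hψ ha hb hθ hx hy (ru_norm hg hζ.pow_eq_one) h
      obtain ⟨rfl, rfl⟩ := ratio_unique ha hA₀ hc hc₀ r1 hAB₀
      exfalso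
      have hn₁ : ‖ζ₁‖ = 1 := ru_norm hN hζ₁
      have hz₁ : ζ₁ ≠ 0 := norm_pos_iff.1 (by rw [hn₁]; exact one_pos)
      have hclose : ‖ζ / ζ₁ - 1‖ < ‖(p : C)‖ := by
        have e : ζ / ζ₁ - 1 = ((ζ - u) - (ζ₁ - u)) / ζ₁ := by field_simp; ring
        rw [e, norm_div, hn₁, div_one]
        exact nsub_lt (r2.trans_lt ((half_lt_self hpos).trans hlt)) hlt
      have h6 : (ζ / ζ₁) ^ (g * N) = 1 := by
        rw [div_pow, pow_mul, hζ.pow_eq_one, one_pow, mul_comm g N, pow_mul, hζ₁, one_pow, div_one]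
      have h7 := ru_one hp1 (Nat.mul_pos hg hN) h6 hclose
      rw [div_eq_one_iff_eq hz₁] at h7
      rw [h7] at r2
      linarith
    · refine ⟨‖(p : C)‖ / 2, half_pos hp0, fun A B g ζ x y hA hB hc hg hζ hx hy h => ?_⟩
      have hθ : ‖(p : C)‖ / 2 < 1 := (half_lt_self hp0).trans hp1
      obtain ⟨r1, r2⟩ := ru_near hψ ha hb hθ hx hy (ru_norm hg hζ.pow_eq_one) h
      obtain ⟨rfl, rfl⟩ := ratio_unique ha hA₀ hc hc₀ r1 hAB₀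
      refine fin ζ ?_
      by_contra hne
      exact hex2 ⟨ζ, g, hg, hζ.pow_eq_one, r2.trans_lt (half_lt_self hp0), hne⟩
  · refine ⟨1 / 2, by norm_num, fun A B g ζ x y hA hB hc hg hζ hx hy h => ?_⟩
    exfalso
    obtain ⟨r1, r2⟩ := ru_near hψ ha hb (by norm_num) hx hy (ru_norm hg hζ.pow_eq_one) h
    exact hex ⟨A, B, hA, hB, hc, r1⟩

/-- a Tate relation gives an isogeny -/
theorem psi_of_tate [CharZero C] [IsAlgClosed C] (hinj : Function.Injective ψ) {a b : C}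
    (ha : 1 < ‖a‖) (hb : 1 < ‖b‖) {A B g : ℕ} (hA : 0 < A) (hB : 0 < B) (hg : 0 < g) {ζ : C}
    (hζ : IsPrimitiveRoot ζ g) (h : qT ψ b ^ B = ζ * qT ψ a ^ A) :
    PsiE ψ (mP (A * B * g ^ 2)) (mD (A * B * g ^ 2)) a b = 0 := by
  set N := A * B * g ^ 2 with hN
  have hN0 : 0 < N := Nat.mul_pos (Nat.mul_pos hA hB) (pow_pos hg 2)
  obtain ⟨Q, hQ⟩ := IsAlgClosed.exists_pow_nat_eq (qT ψ a) hN0
  have hq1 := qT_lt hψ ha
  have hq0 := qT_ne hψ ha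
  have hQ0 : Q ≠ 0 := by
    rintro rfl
    rw [zero_pow hN0.ne'] at hQ
    exact hq0 hQ.symm
  have hQ1 : ‖Q‖ < 1 := by
    by_contra hcon
    push Not at hcon
    have : 1 ≤ ‖Q ^ N‖ := by rw [norm_pow]; exact one_le_pow₀ hcon
    rw [hQ] at this
    exact absurd hq1 (not_lt.2 this)
  have hα : 0 < A * g := Nat.mul_pos hA hg
  have hδ : 0 < B * g := Nat.mul_pos hB hg
  set ξ := qT ψ b / Q ^ ((A * g) ^ 2) with hξ
  have hξB : ξ ^ B = ζ := by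
    rw [hξ, div_pow, h, ← hQ, ← pow_mul, ← pow_mul]
    have e : (A * g) ^ 2 * B = N * A := by rw [hN]; ring
    rw [e]
    have : Q ^ (N * A) ≠ 0 := pow_ne_zero _ hQ0
    field_simp
  have hξ1 : ξ ^ (B * g) = 1 := by rw [pow_mul, hξB, hζ.pow_eq_one]
  have hprim : IsPrimitiveRoot (ψ (eZ 1 (B * g) hδ)) (B * g) :=
    (eZ_prim 1 hδ isCoprime_one_left).map_of_injective hinj
  have : NeZero (B * g) := ⟨hδ.ne'⟩
  obtain ⟨β, -, hβ⟩ := hprim.eq_pow_of_pow_eq_one hξ1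
  have heZ : eZ 1 (B * g) hδ ^ β = eZ (β : ℤ) (B * g) hδ := by
    apply Subtype.ext
    show (Complex.exp (2 * Real.pi * Complex.I * ((1 : ℤ) : ℂ) / ((B * g : ℕ) : ℂ))) ^ β =
      Complex.exp (2 * Real.pi * Complex.I * ((β : ℤ) : ℂ) / ((B * g : ℕ) : ℂ))
    rw [← Complex.exp_nat_mul]
    congr 1
    push_cast
    ring
  have hξe : ξ = ψ (eZ (β : ℤ) (B * g) hδ) := by rw [← heZ, map_pow]; exact hβ.symm
  have h1 := psi_of_param hψ (N := N) (β : ℤ) hα hδ (by rw [hN]; ring) hQ0 hQ1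
  rw [← hξe, hQ, JC_qT hψ ha] at h1
  have e2 : ξ * Q ^ ((A * g) ^ 2) = qT ψ b := by
    rw [hξ]
    have : Q ^ ((A * g) ^ 2) ≠ 0 := pow_ne_zero _ hQ0
    field_simp
  rw [e2, JC_qT hψ hb] at h1
  exact h1

/-- the norms of isogenous elements -/
theorem psi_norm_le [CharZero C] [IsAlgClosed C] {N : ℕ} (hN : 0 < N) {a b : C} (ha : 1 < ‖a‖)
    (h : PsiE ψ (mP N) (mD N) a b = 0) : ‖b‖ ≤ ‖a‖ ^ N := by
  obtain ⟨Q, hQ⟩ := IsAlgClosed.exists_pow_nat_eq (qT ψ a) hN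
  have hq1 := qT_lt hψ ha
  have hq0 := qT_ne hψ ha
  have hQ0 : Q ≠ 0 := by
    rintro rfl
    rw [zero_pow hN.ne'] at hQ
    exact hq0 hQ.symm
  have hQ1 : ‖Q‖ < 1 := by
    by_contra hcon
    push Not at hcon
    have : 1 ≤ ‖Q ^ N‖ := by rw [norm_pow]; exact one_le_pow₀ hcon
    rw [hQ] at this
    exact absurd hq1 (not_lt.2 this)
  have hJ : JC ψ (Q ^ N) = a := by rw [hQ]; exact JC_qT hψ ha
  rw [← hJ] at h
  obtain ⟨α, δ, β, hα, hδ, hαδ, hb⟩ := psi_roots hψ hN hQ0 hQ1 h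
  have hu : ‖ψ (eZ β δ hδ)‖ = 1 := by
    have h1 : ψ (eZ β δ hδ) ^ δ = 1 := by
      rw [← map_pow]
      have : eZ β δ hδ ^ δ = 1 := by
        apply Subtype.ext
        show (Complex.exp (2 * Real.pi * Complex.I * β / δ)) ^ δ = 1
        have hd0 : (δ : ℂ) ≠ 0 := by exact_mod_cast hδ.ne'
        rw [← Complex.exp_nat_mul]
        have : (δ : ℂ) * (2 * Real.pi * Complex.I * β / δ) = β * (2 * Real.pi * Complex.I) := by
          field_simp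
        rw [this, Complex.exp_int_mul_two_pi_mul_I]
      rw [this, map_one]
    exact ru_norm hδ h1
  have hz : ‖ψ (eZ β δ hδ) * Q ^ (α ^ 2)‖ < 1 := by
    rw [norm_mul, hu, one_mul, norm_pow]
    exact pow_lt_one₀ (norm_nonneg _) hQ1 (pow_pos hα 2).ne'
  have hbn : ‖b‖ = (‖Q‖ ^ (α ^ 2))⁻¹ := by
    rw [hb]
    unfold JC
    rw [norm_div, cC_norm hψ hz, one_div, norm_mul, hu, one_mul, norm_pow]
  have han : ‖a‖ ^ N = (‖Q‖ ^ (N * N))⁻¹ := by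
    have h1 : ‖Q‖ ^ N = ‖a‖⁻¹ := by rw [← norm_pow, hQ, qT_norm hψ ha]
    rw [pow_mul, h1, inv_pow, inv_inv]
  rw [hbn, han]
  have hQpos : 0 < ‖Q‖ := norm_pos_iff.2 hQ0
  have hαN : α ≤ N := by
    rw [← hαδ]
    exact Nat.le_mul_of_pos_right α hδ
  refine inv_anti₀ (pow_pos hQpos _) ?_
  exact pow_le_pow_of_le_one hQpos.le hQ1.le (by nlinarith)

end main

end Pool.Agent.H882
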