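import Pool.Agent.H882.BadGlob

/-!
Scaling of equations.
-/

set_option autoImplicit false

namespace Pool.Agent.H882

open NumberField IsDedekindDomain WithZero

theorem scale_eq {K : Type} [Field K] (σ : K →+* ℂ) {n : ℕ} (F : MvPolynomial (Fin n) K) (μ : K) :
    ∃ F' : MvPolynomial (Fin n) K, (∀ u, F'.coeff u = F.coeff u * μ ^ (∑ i, u i)) ∧
      ∀ y' y : Fin n → ℂ, (∀ i, y i = σ μ * y' i) →
        MvPolynomial.eval₂ σ y' F' = MvPolynomial.eval₂ σ y F := by
  classical
  refine ⟨∑ u ∈ F.support, MvPolynomial.monomial u (F.coeff u * μ ^ (∑ i, u i)), fun u => ?_,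
    fun y' y hy => ?_⟩
  · rw [MvPolynomial.coeff_sum]
    simp only [MvPolynomial.coeff_monomial]
    rw [Finset.sum_ite_eq']
    split_ifs with h
    · rfl
    · rw [MvPolynomial.notMem_support_iff.1 h, zero_mul]
  · rw [MvPolynomial.eval₂_sum, MvPolynomial.eval₂_eq']
    refine Finset.sum_congr rfl fun u _ => ?_
    rw [MvPolynomial.eval₂_monomial, Finsupp.prod_fintype _ _ (fun _ => pow_zero _), map_mul,
      map_pow, mul_assoc]
    congr 1
    rw [← Finset.prod_pow_eq_pow_sum, ← Finset.prod_mul_distrib]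
    refine Finset.prod_congr rfl fun i _ => ?_
    rw [hy i, mul_pow]

variable {K : Type} [Field K] [NumberField K]

theorem exists_exp_bound (v : HeightOneSpectrum (𝓞 K)) (a : K) {b : K} (hb : b ≠ 0) :
    ∃ c : ℕ, v.valuation K a ≤ v.valuation K b * exp (c : ℤ) := by
  by_cases ha : a = 0
  · exact ⟨0, by rw [ha, map_zero]; exact zero_le⟩
  have ha0 : v.valuation K a ≠ 0 := (Valuation.ne_zero_iff _).2 ha
  have hb0 : v.valuation K b ≠ 0 := (Valuation.ne_zero_iff _).2 hb
  refine ⟨(log (v.valuation K a) - log (v.valuation K b)).toNat, ?_⟩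
  rw [← exp_log ha0, ← exp_log hb0, ← exp_add, exp_le_exp, log_exp, log_exp]
  omega

theorem exists_scale (v : HeightOneSpectrum (𝓞 K)) {n : ℕ} (F : MvPolynomial (Fin n) K)
    (d : Fin n →₀ ℕ) (hle : ∀ u ∈ F.support, u ≤ d) (htop : F.coeff d ≠ 0) :
    ∃ c : ℕ, ∀ μ : K, exp (c : ℤ) ≤ v.valuation K μ → ∀ u,
      v.valuation K (F.coeff u * μ ^ (∑ i, u i)) ≤ v.valuation K (F.coeff d * μ ^ (∑ i, d i)) := by
  classical
  choose f hf using fun u => exists_exp_bound v (F.coeff u) htop
  refine ⟨∑ u ∈ F.support, f u, fun μ hμ u => ?_⟩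
  by_cases hu : u ∈ F.support
  · by_cases hud : u = d
    · rw [hud]
    · have h1 : v.valuation K (F.coeff u) ≤ v.valuation K (F.coeff d) * v.valuation K μ := by
        refine (hf u).trans (mul_le_mul' le_rfl (le_trans ?_ hμ))
        rw [exp_le_exp]
        have := Finset.single_le_sum (f := f) (fun _ _ => Nat.zero_le _) hu
        exact_mod_cast this
      have hμ1 : 1 ≤ v.valuation K μ := by
        refine le_trans ?_ hμ
        rw [← exp_zero, exp_le_exp]
        positivity
      have hlt : (∑ i, u i) + 1 ≤ ∑ i, d i := by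
        have h2 := hle u hu
        refine Finset.sum_lt_sum (fun i _ => h2 i) ?_
        by_contra hno
        push Not at hno
        apply hud
        ext i
        exact le_antisymm (h2 i) (hno i (Finset.mem_univ i))
      rw [map_mul, map_mul, map_pow, map_pow]
      calc _ ≤ (v.valuation K (F.coeff d) * v.valuation K μ) * v.valuation K μ ^ (∑ i, u i) :=
            mul_le_mul' h1 le_rfl
        _ = v.valuation K (F.coeff d) * v.valuation K μ ^ ((∑ i, u i) + 1) := by
            rw [pow_succ', mul_assoc]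
        _ ≤ _ := mul_le_mul' le_rfl (pow_le_pow_right₀ hμ1 hlt)
  · rw [MvPolynomial.notMem_support_iff.1 hu, zero_mul, map_zero]
    exact zero_le

end Pool.Agent.H882
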