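import Pool.Graph.R_pool_sql_team_seeded_63374d34.N135.ZO.Glob

/-!
Criterion: a point of a special subvariety of dimension `r` has at most `r` coordinates which are
not singular moduli and pairwise not isogenous. Lemmas on places of `ℂ`.
-/

set_option autoImplicit false

namespace Pool.Agent.H882

open UpperHalfPlane H294ZP Function Pool.Agent.N135.ZO NumberField IsDedekindDomain

/-- A point of a special subvariety of dimension `r` has at most `r` coordinates which are not
singular moduli and pairwise not isogenous. -/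
theorem crit_card {n r : ℕ} (Z : SpecialDatum n r) {x : Fin n → ℂ} (hx : x ∈ Z.locus)
    (J : Finset (Fin n)) (h1 : ∀ i ∈ J, ∀ τ : ℍ, IsCM τ → x i ≠ jj τ)
    (h2 : ∀ i ∈ J, ∀ j ∈ J, i ≠ j → ∀ (A : M2) (w w' : ℍ), 0 < A.det → Rel A w w' →
      x i = jj w → x j ≠ jj w') : J.card ≤ r := by
  classical
  obtain ⟨z, hz⟩ := hx
  have hnone : ∀ i ∈ J, Z.cls i ≠ none := by
    intro i hi hn
    exact h1 i hi _ (Z.isCM i) ((hz i).1 hn)
  have hinj : ∀ i ∈ J, ∀ j ∈ J, Z.cls i = Z.cls j → i = j := by
    intro i hi j hj hij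
    by_contra hne
    obtain ⟨k, hk⟩ := Option.ne_none_iff_exists'.1 (hnone i hi)
    obtain ⟨w, hw1, hw2⟩ := (hz i).2 k hk
    obtain ⟨w', hw1', hw2'⟩ := (hz j).2 k (hij ▸ hk)
    obtain ⟨A, hA, hrel⟩ := rel_of_two (M := Z.mat i) (M' := Z.mat j) (z := z k) (Z.det_pos i)
      (Z.det_pos j) hw1 hw1'
    exact h2 i hi j hj hne A w w' hA hrel hw2 hw2'
  have hr : J.card = (J.image Z.cls).card := by
    rw [Finset.card_image_of_injOn]
    intro i hi j hj hij
    exact hinj i hi j hj hij
  rw [hr]
  have hsub : J.image Z.cls ⊆ (Finset.univ : Finset (Fin r)).image some := by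
    intro c hc
    obtain ⟨i, hi, rfl⟩ := Finset.mem_image.1 hc
    obtain ⟨k, hk⟩ := Option.ne_none_iff_exists'.1 (hnone i hi)
    rw [hk]
    exact Finset.mem_image_of_mem _ (Finset.mem_univ k)
  calc (J.image Z.cls).card ≤ _ := Finset.card_le_card hsub
    _ ≤ (Finset.univ : Finset (Fin r)).card := Finset.card_image_le
    _ = r := by simp

open Set in
/-- algebraic independence is inherited by generators -/
theorem indep_of_alg {K : Type} [Field K] [Algebra K ℂ] {W : Type} [Finite W] {x y : W → ℂ}
    (hx : AlgebraicIndependent K x)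
    (h : ∀ i, IsAlgebraic (Algebra.adjoin K (Set.range y)) (x i)) :
    AlgebraicIndependent K y := by
  classical
  let M := AlgebraicIndependent.matroid K ℂ
  have hxi : Function.Injective x := hx.injective
  have h1 : M.Indep (range x) := hx.coe_range
  have h2 : range x ⊆ M.closure (range y) := by
    rw [AlgebraicIndependent.matroid_closure_eq]
    rintro _ ⟨i, rfl⟩
    exact h i
  have hfin : (range y).Finite := finite_range y
  have h3 : M.eRk (range x) ≤ M.eRk (range y) := by
    rw [← M.eRk_closure_eq (range y)]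
    exact M.eRk_mono h2
  rw [h1.eRk_eq_encard] at h3
  have h4 : (range x).encard = ENat.card W := by
    rw [← image_univ, hxi.encard_image, encard_univ]
  have h5 : (range y).encard ≤ ENat.card W := by
    rw [← image_univ, ← encard_univ]
    exact encard_image_le _ _
  have h6 : M.eRk (range y) ≤ (range y).encard := M.eRk_le_encard _
  have h7 : M.Indep (range y) := by
    rw [Matroid.indep_iff_eRk_eq_encard_of_finite hfin]
    exact le_antisymm h6 (h5.trans (h4 ▸ h3))
  have h8 : (range y).encard = ENat.card W := le_antisymm h5 ((h4 ▸ h3).trans h6)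
  have hyi : Function.Injective y := by
    have : Fintype W := Fintype.ofFinite W
    have h9 : (Finset.univ.image y).card = Fintype.card W := by
      have : ((Finset.univ.image y : Finset ℂ) : Set ℂ).encard = ENat.card W := by
        rw [← h8]; congr 1; ext; simp
      rw [encard_coe_eq_coe_finsetCard, ENat.card_eq_coe_fintype_card] at this
      exact_mod_cast this
    have h10 := Finset.card_image_iff.1 (h9.trans Finset.card_univ.symm)
    intro a b hab
    exact h10 (by simp) (by simp) hab
  have h11 : AlgebraicIndependent K ((↑) : range y → ℂ) := h7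
  exact (algebraicIndependent_subtype_range hyi).1 h11

/-- The number of the coordinates which are infinite at a place plus the number of the coordinates
with algebraically independent residues, for a point which satisfies equations whose leading
coefficients are units at the place. -/
theorem pole_card {R : Type} [CommRing R] (𝔭 : Ideal R) (σ : R →+* ℂ) {n m : ℕ}
    (V : ValuationSubring ℂ) (hA1 : ∀ a : R, V.valuation (σ a) ≤ 1)
    (y : Fin n → ℂ) (W : Finset (Fin n)) (hyW : ∀ i ∈ W, y i ∈ V)
    (hV2 : ∀ Q : MvPolynomial W R, V.valuation (MvPolynomial.eval₂ σ (fun i : W => y i) Q) < 1 ↔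
        MvPolynomial.map (Ideal.Quotient.mk 𝔭) Q = 0)
    (hG : ∀ J : Finset (Fin n), J.card = m + 1 → ∃ (G : MvPolynomial (Fin n) R) (d : Fin n →₀ ℕ),
      (∀ u ∈ G.support, u ≤ d) ∧ d.support ⊆ J ∧ G.coeff d ∉ 𝔭 ∧ MvPolynomial.eval₂ σ y G = 0) :
    {i | y i ∉ V}.ncard + W.card ≤ m := by
  classical
  set B : Finset (Fin n) := Finset.univ.filter fun i => y i ∉ V with hB
  have hBn : {i | y i ∉ V}.ncard = B.card := by
    rw [← Set.ncard_coe_finset]
    congr 1
    ext i
    simp [hB]
  have hdisj : Disjoint B W := by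
    rw [Finset.disjoint_left]
    intro i hi hiW
    rw [hB, Finset.mem_filter] at hi
    exact hi.2 (hyW i hiW)
  rw [hBn, ← Finset.card_union_of_disjoint hdisj]
  by_contra hcon
  obtain ⟨J, hJ, hJc⟩ := Finset.exists_subset_card_eq (show m + 1 ≤ (B ∪ W).card by omega)
  obtain ⟨G, d, hGd, hdJ, htop, heval⟩ := hG J hJc
  have hd0 : ∀ i, i ∉ B → i ∉ W → d i = 0 := by
    intro i hiB hiW
    by_contra hne
    have := hJ (hdJ (Finsupp.mem_support_iff.2 hne))
    rw [Finset.mem_union] at this
    tauto
  -- values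
  have hyB : ∀ i ∈ B, 1 < V.valuation (y i) := by
    intro i hi
    rw [hB, Finset.mem_filter] at hi
    rw [← not_le, V.valuation_le_one_iff]
    exact hi.2
  have hyB0 : ∀ i ∈ B, y i ≠ 0 := by
    rintro i hi h
    have := hyB i hi
    rw [h, map_zero] at this
    exact absurd this (not_lt.2 zero_le)
  -- the terms
  set T : (Fin n →₀ ℕ) → ℂ := fun u => σ (G.coeff u) * (∏ i ∈ B, (y i)⁻¹ ^ (d i - u i)) *
    ∏ i ∈ W, y i ^ u i with hT
  have hTsum : ∑ u ∈ G.support, T u = 0 := by
    have e : ∀ u ∈ G.support, T u = (σ (G.coeff u) * ∏ i, y i ^ u i) * ∏ i ∈ B, (y i)⁻¹ ^ d i := by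
      intro u hu
      have hud := hGd u hu
      have e1 : ∏ i, y i ^ u i = (∏ i ∈ B, y i ^ u i) * ∏ i ∈ W, y i ^ u i := by
        rw [← Finset.prod_union hdisj]
        symm
        apply Finset.prod_subset (Finset.subset_univ _)
        intro i _ hi
        rw [Finset.mem_union, not_or] at hi
        have : u i = 0 := Nat.le_zero.1 ((hud i).trans (hd0 i hi.1 hi.2).le)
        rw [this, pow_zero]
      have e2 : ∀ i ∈ B, (y i)⁻¹ ^ (d i - u i) = y i ^ u i * (y i)⁻¹ ^ d i := by
        intro i hi
        have h0 := hyB0 i hi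
        have h1 := hud i
        rw [inv_pow, inv_pow, pow_sub₀ _ h0 h1]
        field_simp
      rw [hT]
      simp only
      rw [Finset.prod_congr rfl e2, Finset.prod_mul_distrib, e1]
      ring
    rw [Finset.sum_congr rfl e, ← Finset.sum_mul]
    rw [MvPolynomial.eval₂_eq'] at heval
    rw [heval, zero_mul]
  have hW1 : ∀ u : Fin n →₀ ℕ, V.valuation (∏ i ∈ W, y i ^ u i) ≤ 1 := by
    intro u
    rw [V.valuation_le_one_iff]
    exact prod_mem fun i hi => pow_mem (hyW i hi) _
  -- the polynomial Q
  set S : Finset (Fin n →₀ ℕ) := G.support.filter fun u => ∀ i ∈ B, u i = d i with hS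
  set Q : MvPolynomial W R := ∑ u ∈ S, MvPolynomial.monomial (Finsupp.subtypeDomain (· ∈ W) u)
    (G.coeff u) with hQ
  have hQc : Q.coeff (Finsupp.subtypeDomain (· ∈ W) d) = G.coeff d := by
    rw [hQ, MvPolynomial.coeff_sum]
    have hdS : d ∈ S := by
      rw [hS, Finset.mem_filter]
      refine ⟨?_, fun _ _ => rfl⟩
      rw [MvPolynomial.mem_support_iff]
      intro h0
      rw [h0] at htop
      exact htop 𝔭.zero_mem
    rw [Finset.sum_eq_single d]
    · rw [MvPolynomial.coeff_monomial, if_pos rfl]
    · intro u hu hne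
      rw [MvPolynomial.coeff_monomial, if_neg]
      intro h
      apply hne
      rw [hS, Finset.mem_filter] at hu
      ext i
      by_cases hiB : i ∈ B
      · exact hu.2 i hiB
      · by_cases hiW : i ∈ W
        · exact DFunLike.congr_fun h ⟨i, hiW⟩
        · rw [hd0 i hiB hiW]
          exact Nat.le_zero.1 ((hGd u hu.1 i).trans (hd0 i hiB hiW).le)
    · intro h
      exact absurd hdS h
  have hQne : MvPolynomial.map (Ideal.Quotient.mk 𝔭) Q ≠ 0 := by
    intro h
    have := congrArg (fun P => MvPolynomial.coeff (Finsupp.subtypeDomain (· ∈ W) d) P) h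
    simp only [MvPolynomial.coeff_map, hQc, MvPolynomial.coeff_zero] at this
    exact htop (Ideal.Quotient.eq_zero_iff_mem.1 this)
  have hQe : MvPolynomial.eval₂ σ (fun i : W => y i) Q = ∑ u ∈ S, T u := by
    rw [hQ, MvPolynomial.eval₂_sum]
    refine Finset.sum_congr rfl fun u hu => ?_
    rw [hS, Finset.mem_filter] at hu
    rw [MvPolynomial.eval₂_monomial, Finsupp.prod_fintype _ _ (fun _ => pow_zero _)]
    rw [hT]
    simp only
    have e1 : ∏ i ∈ B, (y i)⁻¹ ^ (d i - u i) = 1 := by
      refine Finset.prod_eq_one fun i hi => ?_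
      rw [hu.2 i hi, Nat.sub_self, pow_zero]
    rw [e1, mul_one]
    congr 1
    rw [← Finset.prod_coe_sort W (fun i => y i ^ u i)]
    rfl
  have hrest : V.valuation (∑ u ∈ G.support.filter fun u => ¬ ∀ i ∈ B, u i = d i, T u) < 1 := by
    refine Valuation.map_sum_lt _ one_ne_zero fun u hu => ?_
    rw [Finset.mem_filter] at hu
    obtain ⟨hu1, hu2⟩ := hu
    push Not at hu2
    obtain ⟨i, hiB, hne⟩ := hu2
    rw [hT]
    simp only
    rw [map_mul, map_mul, map_prod]
    have h1 : ∏ i ∈ B, V.valuation ((y i)⁻¹ ^ (d i - u i)) < 1 := by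
      have hlt : V.valuation ((y i)⁻¹ ^ (d i - u i)) < 1 := by
        rw [map_pow, map_inv₀]
        refine pow_lt_one₀ zero_le ?_ ?_
        · exact inv_lt_one_of_one_lt₀ (hyB i hiB)
        · have := hGd u hu1 i
          omega
      have hle : ∀ j ∈ B, V.valuation ((y j)⁻¹ ^ (d j - u j)) ≤ 1 := by
        intro j hj
        rw [map_pow, map_inv₀]
        exact pow_le_one₀ zero_le (inv_lt_one_of_one_lt₀ (hyB j hj)).le
      rw [← Finset.mul_prod_erase B _ hiB]
      calc _ ≤ V.valuation ((y i)⁻¹ ^ (d i - u i)) * 1 := by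
            refine mul_le_mul_right ?_ _
            exact Finset.prod_le_one (fun _ _ => zero_le) fun j hj =>
              hle j (Finset.mem_of_mem_erase hj)
        _ < 1 := by rw [mul_one]; exact hlt
    calc _ ≤ 1 * (∏ i ∈ B, V.valuation ((y i)⁻¹ ^ (d i - u i))) * 1 := by
          refine mul_le_mul' (mul_le_mul' (hA1 _) le_rfl) (hW1 u)
      _ < 1 := by rw [one_mul, mul_one]; exact h1
  have hfin : V.valuation (MvPolynomial.eval₂ σ (fun i : W => y i) Q) < 1 := by
    rw [hQe]
    have e : ∑ u ∈ S, T u = -∑ u ∈ G.support.filter fun u => ¬ ∀ i ∈ B, u i = d i, T u := by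
      have := Finset.sum_filter_add_sum_filter_not G.support (fun u => ∀ i ∈ B, u i = d i) T
      rw [hTsum] at this
      rw [hS]
      linear_combination this
    rw [e, Valuation.map_neg]
    exact hrest
  exact hQne ((hV2 Q).1 hfin)

end Pool.Agent.H882
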