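import Pool.Agent.H882.BadLoc
import Pool.Agent.H882.BadEmb
import Pool.Agent.H882.Crit
import Pool.Graph.R_pool_sql_team_seeded_3997aac3.Q223.UV.Surj

/-!
Preparations for the global theorem for centres with totally bad reduction.
-/

set_option autoImplicit false

namespace Pool.Agent.H882

open UpperHalfPlane H294ZP Function Pool.Agent.N135.ZO NumberField IsDedekindDomain
open Pool.Agent.Y226

/-- isogenous of degree `N` -/
def IsogN (N : ℕ) (x x' : ℂ) : Prop :=
  ∃ (M : M2) (τ w : ℍ), M.det = N ∧ Rel M τ w ∧ jj τ = x ∧ jj w = x'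

theorem isogN_of_psi {N : ℕ} (hN : 0 < N) {x y : ℂ} (h : PsiE ιZ (mP N) (mD N) x y = 0) :
    IsogN N x y := by
  obtain ⟨τ, rfl⟩ := Pool.Agent.Q223.UV.jj_surj x
  obtain ⟨ι, _, α, δ, β, g, h1, h2, -, h4, -⟩ := modular_spec N hN
  rw [← h4 τ y] at h
  obtain ⟨k, -, hk⟩ := Finset.prod_eq_zero_iff.1 h
  refine ⟨!![(α k : ℤ), β k; 0, (δ k : ℤ)], τ, g k τ, ?_, ?_, rfl, (sub_eq_zero.1 hk).symm⟩
  · rw [Matrix.det_fin_two_of]
    have := (h1 k).2.2
    rw [mul_zero, sub_zero]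
    exact_mod_cast this
  · have := h2 k τ
    unfold Pool.Agent.N135.ZO.Rel N135.ZO.den N135.ZO.num
    simp only [Matrix.of_apply, Matrix.cons_val', Matrix.cons_val_zero, Matrix.cons_val_one,
      Matrix.cons_val_fin_one]
    push_cast
    linear_combination this

theorem psi_of_rel {A : M2} {w w' : ℍ} (hA : 0 < A.det) (h : Rel A w w') :
    PsiE ιZ (mP A.det.toNat) (mD A.det.toNat) (jj w) (jj w') = 0 := by
  have hN : 0 < A.det.toNat := by omega
  obtain ⟨-, -, -, -, -, -, -, -, -, -, h5⟩ := modular_spec _ hN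
  refine h5 w w' (A 0 0) (A 0 1) (A 1 0) (A 1 1) ?_ h
  rw [← det_eq]
  omega

section C

variable {C : Type} [NormedField C] [IsUltrametricDist C] [CompleteSpace C] [CharZero C]
  [IsAlgClosed C]

theorem norm_le_of_rel {ψ : ZZ →+* C} (hψ : ∀ z, ‖ψ z‖ ≤ 1) (Φ : ℂ →+* C) (hΦ : Φ.comp ιZ = ψ)
    {A : M2} {w w' : ℍ} (hA : 0 < A.det) (h : Rel A w w') (h1 : 1 < ‖Φ (jj w)‖) :
    ‖Φ (jj w')‖ ≤ ‖Φ (jj w)‖ ^ A.det.toNat := by
  have hN : 0 < A.det.toNat := by omega
  refine psi_norm_le hψ hN h1 ?_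
  have h2 := congrArg Φ (psi_of_rel hA h)
  rwa [map_PsiE, hΦ, map_zero] at h2

end C

/-- A point of a special subvariety of dimension `r` has at most `r` coordinates which are not
singular moduli and pairwise not isogenous. -/
theorem crit_card' {n r : ℕ} (Z : SpecialDatum n r) {x : Fin n → ℂ} (hx : x ∈ Z.locus)
    (J : Finset (Fin n)) (h1 : ∀ i ∈ J, ∀ τ : ℍ, IsCM τ → x i ≠ jj τ)
    (h2 : ∀ i ∈ J, ∀ j ∈ J, i ≠ j → ∀ (w w' : ℍ), Rel (Z.mat j * (Z.mat i).adjugate) w w' →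
      x i = jj w → x j ≠ jj w') : J.card ≤ r := by
  classical
  obtain ⟨z, hz⟩ := hx
  have hnone : ∀ i ∈ J, Z.cls i ≠ none := by
    intro i hi hn
    exact h1 i hi _ (Z.isCM i) ((hz i).1 hn)
  have hinj : ∀ i ∈ J, ∀ j ∈ J, Z.cls i = Z.cls j → i = j := by
    intro i hi j hj hij
    by_contra hne
    obtain ⟨k, hk⟩ := Option.ne_none_iff_exists'.1 (hnone i hi)
    obtain ⟨w, hw1, hw2⟩ := (hz i).2 k hk
    obtain ⟨w', hw1', hw2'⟩ := (hz j).2 k (hij ▸ hk)
    exact h2 i hi j hj hne w w' ((rel_adj hw1).mul hw1') hw2 hw2'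
  have hr : J.card = (J.image Z.cls).card := by
    rw [Finset.card_image_of_injOn]
    intro i hi j hj hij
    exact hinj i hi j hj hij
  rw [hr]
  have hsub : J.image Z.cls ⊆ (Finset.univ : Finset (Fin r)).image some := by
    intro c hc
    obtain ⟨i, hi, rfl⟩ := Finset.mem_image.1 hc
    obtain ⟨k, hk⟩ := Option.ne_none_iff_exists'.1 (hnone i hi)
    rw [hk]
    exact Finset.mem_image_of_mem _ (Finset.mem_univ k)
  calc (J.image Z.cls).card ≤ _ := Finset.card_le_card hsub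
    _ ≤ (Finset.univ : Finset (Fin r)).card := Finset.card_image_le
    _ = r := by simp

theorem not_indep_of_integral {n : ℕ} {W : Finset (Fin n)} {x : Fin n → ℂ}
    (hW : AlgebraicIndependent ℚ (fun i : W => x i)) {i k : Fin n} (hi : i ∈ W) (hk : k ∈ W)
    (hik : i ≠ k) (h : IsIntegral (Algebra.adjoin ℤ {x i}) (x k)) : False := by
  have h1 := hW.transcendental_adjoin (s := {⟨i, hi⟩}) (i := ⟨k, hk⟩) (by
    rw [Set.mem_singleton_iff]
    intro h
    exact hik (congrArg Subtype.val h).symm)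
  rw [Set.image_singleton] at h1
  apply h1
  have hle : ∀ t ∈ Algebra.adjoin ℤ {x i}, t ∈ Algebra.adjoin ℚ {x i} := by
    have : Algebra.adjoin ℤ {x i} ≤ (Algebra.adjoin ℚ {x i}).restrictScalars ℤ :=
      Algebra.adjoin_le Algebra.subset_adjoin
    exact fun t ht => this ht
  let f : Algebra.adjoin ℤ {x i} →+* Algebra.adjoin ℚ {x i} :=
    RingHom.codRestrict (algebraMap (Algebra.adjoin ℤ {x i}) ℂ) (Algebra.adjoin ℚ {x i})
      fun t => hle t t.2
  have hf : (algebraMap (Algebra.adjoin ℚ {x i}) ℂ).comp f =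
      algebraMap (Algebra.adjoin ℤ {x i}) ℂ := RingHom.ext fun t => rfl
  obtain ⟨P, hP, hPe⟩ := h
  refine ⟨P.map f, (hP.map f).ne_zero, ?_⟩
  rw [Polynomial.aeval_def, Polynomial.eval₂_map, hf]
  exact hPe

section eqs

variable {C : Type} [NormedField C] [IsUltrametricDist C]

/-- the number of the coordinates of norm greater than one, for a point which satisfies equations
whose leading coefficients dominate -/
theorem big_card {K : Type} [Field K] (σ : K →+* ℂ) (Φ : ℂ →+* C) {n m : ℕ} (y : Fin n → ℂ)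
    (hG : ∀ J : Finset (Fin n), J.card = m + 1 → ∃ (G : MvPolynomial (Fin n) K) (d : Fin n →₀ ℕ),
      (∀ u ∈ G.support, u ≤ d) ∧ d.support ⊆ J ∧ G.coeff d ≠ 0 ∧
      (∀ u, ‖Φ (σ (G.coeff u))‖ ≤ ‖Φ (σ (G.coeff d))‖) ∧ MvPolynomial.eval₂ σ y G = 0) :
    (Finset.univ.filter fun i => 1 < ‖Φ (y i)‖).card ≤ m := by
  classical
  by_contra hcon
  obtain ⟨J, hJ, hJc⟩ := Finset.exists_subset_card_eq
    (show m + 1 ≤ (Finset.univ.filter fun i => 1 < ‖Φ (y i)‖).card by omega)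
  obtain ⟨G, d, hGd, hdJ, htop, hcoef, heval⟩ := hG J hJc
  have hbig : ∀ i, d i ≠ 0 → 1 < ‖Φ (y i)‖ := by
    intro i hi
    have := hJ (hdJ (Finsupp.mem_support_iff.2 hi))
    exact (Finset.mem_filter.1 this).2
  set T : (Fin n →₀ ℕ) → C := fun u => Φ (σ (G.coeff u)) * ∏ i, Φ (y i) ^ u i with hT
  have hsum : ∑ u ∈ G.support, T u = 0 := by
    have h1 := congrArg Φ heval
    rw [MvPolynomial.eval₂_eq', map_sum, map_zero] at h1
    rw [← h1]
    refine Finset.sum_congr rfl fun u _ => ?_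
    rw [hT]
    simp only [map_mul, map_prod, map_pow]
  have hdS : d ∈ G.support := MvPolynomial.mem_support_iff.2 htop
  have hc0 : 0 < ‖Φ (σ (G.coeff d))‖ := by
    rw [norm_pos_iff]
    exact (map_ne_zero Φ).2 ((map_ne_zero σ).2 htop)
  have hprodpos : 0 < ∏ i, ‖Φ (y i)‖ ^ d i := by
    refine Finset.prod_pos fun i _ => ?_
    by_cases hi : d i = 0
    · rw [hi, pow_zero]; exact one_pos
    · exact pow_pos (one_pos.trans (hbig i hi)) _
  have hTd : ‖T d‖ = ‖Φ (σ (G.coeff d))‖ * ∏ i, ‖Φ (y i)‖ ^ d i := by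
    rw [hT]
    simp only [norm_mul, norm_prod, norm_pow]
  have hlt : ∀ u ∈ G.support.erase d, ‖T u‖ < ‖T d‖ := by
    intro u hu
    rw [Finset.mem_erase] at hu
    have hud := hGd u hu.2
    obtain ⟨i₀, hi₀⟩ : ∃ i, u i < d i := by
      by_contra hno
      push Not at hno
      apply hu.1
      ext i
      exact le_antisymm (hud i) (hno i)
    have e1 : ‖T u‖ = ‖Φ (σ (G.coeff u))‖ * ∏ i, ‖Φ (y i)‖ ^ u i := by
      rw [hT]
      simp only [norm_mul, norm_prod, norm_pow]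
    rw [e1, hTd]
    have h1 : ∏ i, ‖Φ (y i)‖ ^ u i < ∏ i, ‖Φ (y i)‖ ^ d i := by
      have hle : ∀ i, ‖Φ (y i)‖ ^ u i ≤ ‖Φ (y i)‖ ^ d i := by
        intro i
        by_cases hi : d i = 0
        · have := hud i
          rw [hi] at this
          rw [hi, Nat.le_zero.1 this]
        · exact pow_le_pow_right₀ (hbig i hi).le (hud i)
      have hsl : ‖Φ (y i₀)‖ ^ u i₀ < ‖Φ (y i₀)‖ ^ d i₀ :=
        pow_lt_pow_right₀ (hbig i₀ (by omega)) hi₀
      have hpos : 0 < ∏ i ∈ Finset.univ.erase i₀, ‖Φ (y i)‖ ^ d i := by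
        refine Finset.prod_pos fun i _ => ?_
        by_cases hi : d i = 0
        · rw [hi, pow_zero]; exact one_pos
        · exact pow_pos (one_pos.trans (hbig i hi)) _
      rw [← Finset.mul_prod_erase _ _ (Finset.mem_univ i₀),
        ← Finset.mul_prod_erase _ _ (Finset.mem_univ i₀)]
      calc _ ≤ ‖Φ (y i₀)‖ ^ u i₀ * ∏ i ∈ Finset.univ.erase i₀, ‖Φ (y i)‖ ^ d i := by
            refine mul_le_mul_of_nonneg_left ?_ (by positivity)
            exact Finset.prod_le_prod (fun _ _ => by positivity) fun i _ => hle i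
        _ < _ := mul_lt_mul_of_pos_right hsl hpos
    calc _ ≤ ‖Φ (σ (G.coeff d))‖ * ∏ i, ‖Φ (y i)‖ ^ u i :=
          mul_le_mul_of_nonneg_right (hcoef u) (Finset.prod_nonneg fun _ _ => by positivity)
      _ < _ := mul_lt_mul_of_pos_left h1 hc0
  have hTdpos : 0 < ‖T d‖ := by rw [hTd]; exact mul_pos hc0 hprodpos
  have h2 : T d = -∑ u ∈ G.support.erase d, T u := by
    rw [← Finset.add_sum_erase _ _ hdS] at hsum
    exact eq_neg_of_add_eq_zero_left hsum
  have h3 : ‖T d‖ < ‖T d‖ := by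
    conv_lhs => rw [h2, norm_neg]
    by_cases hemp : (G.support.erase d).Nonempty
    · obtain ⟨u₀, hu₀, hmax⟩ := Finset.exists_max_image _ (fun u => ‖T u‖) hemp
      exact (nsum_le _ _ (norm_nonneg _) hmax).trans_lt (hlt u₀ hu₀)
    · rw [Finset.not_nonempty_iff_eq_empty.1 hemp, Finset.sum_empty, norm_zero]
      exact hTdpos
  exact lt_irrefl _ h3

end eqs

section val

open WithZero Pool.Agent.Y226.ZG

variable {C : Type} [NormedField C] [IsUltrametricDist C] {K : Type} [Field K] [NumberField K]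
  [CompleteSpace C] [CharZero C] [IsAlgClosed C]
  {v : HeightOneSpectrum (𝓞 K)} {ι : K →+* C}
  (hι : ∀ x : 𝓞 K, ‖ι (algebraMap (𝓞 K) K x)‖ < 1 ↔ x ∈ v.asIdeal)

include hι

theorem norm_le_one_of_val {x : K} (hx : v.valuation K x ≤ 1) : ‖ι x‖ ≤ 1 := by
  obtain ⟨n, d, hnd⟩ := v.exists_primeCompl_mul_eq_of_integer x hx
  have hd : (d : 𝓞 K) ∉ v.asIdeal := d.2
  have h := congrArg (fun y => ‖ι y‖) hnd
  simp only [map_mul, norm_mul] at h
  rw [norm_unit hι hd, mul_one] at h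
  rw [h]
  exact int_norm_le ι n

theorem norm_lt_one_of_val {x : K} (hx : v.valuation K x < 1) : ‖ι x‖ < 1 := by
  obtain ⟨n, d, hnd⟩ := v.exists_primeCompl_mul_eq_of_integer x hx.le
  have hd : (d : 𝓞 K) ∉ v.asIdeal := d.2
  have hv := congrArg (v.valuation K) hnd
  rw [map_mul, (HeightOneSpectrum.valuation_eq_one_iff_notMem (K := K) v).2 hd, mul_one] at hv
  have hn : n ∈ v.asIdeal := by
    rw [← HeightOneSpectrum.valuation_lt_one_iff_mem (K := K), ← hv]
    exact hx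
  have h := congrArg (fun y => ‖ι y‖) hnd
  simp only [map_mul, norm_mul] at h
  rw [norm_unit hι hd, mul_one] at h
  rw [h]
  exact (hι n).2 hn

theorem norm_le_of_val_le {x y : K} (h : v.valuation K x ≤ v.valuation K y) : ‖ι x‖ ≤ ‖ι y‖ := by
  by_cases hy : y = 0
  · rw [hy, map_zero] at h
    have : v.valuation K x = 0 := le_antisymm h zero_le
    rw [(Valuation.zero_iff _).1 this, hy]
  · have hvy : v.valuation K y ≠ 0 := (Valuation.ne_zero_iff _).2 hy
    have h1 : v.valuation K (x / y) ≤ 1 := by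
      rw [map_div₀]
      exact div_le_one_of_le₀ h zero_le
    have h2 := norm_le_one_of_val hι h1
    rw [map_div₀, norm_div] at h2
    have hpos : 0 < ‖ι y‖ := norm_pos_iff.2 ((map_ne_zero ι).2 hy)
    rwa [div_le_one₀ hpos] at h2

theorem one_lt_norm_of_val {x : K} (hx : 1 < v.valuation K x) : 1 < ‖ι x‖ := by
  have hx0 : x ≠ 0 := by
    rintro rfl
    rw [map_zero] at hx
    exact absurd hx (not_lt.2 zero_le)
  have h1 : v.valuation K x⁻¹ < 1 := by
    rw [map_inv₀]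
    exact inv_lt_one_of_one_lt₀ hx
  have h2 := norm_lt_one_of_val hι h1
  rw [map_inv₀, norm_inv] at h2
  exact (inv_lt_one₀ (norm_pos_iff.2 ((map_ne_zero ι).2 hx0))).1 h2

theorem norm_of_val_mul_exp {ϖ x y : K} (hϖ : v.valuation K ϖ = exp (-1 : ℤ)) {b : ℕ}
    (h : v.valuation K x * exp (b : ℤ) ≤ v.valuation K y) : ‖ι x‖ ≤ ‖ι ϖ‖ ^ b * ‖ι y‖ := by
  have h1 : v.valuation K x ≤ v.valuation K (ϖ ^ b * y) := by
    rw [map_mul, map_pow, hϖ, ← exp_nsmul]
    have e : exp (b • (-1 : ℤ)) = (exp (b : ℤ))⁻¹ := by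
      rw [← exp_neg]; congr 1; simp
    rw [e]
    have hpos : (exp (b : ℤ) : ℤᵐ⁰) ≠ 0 := exp_ne_zero
    rw [← div_eq_inv_mul]
    exact (le_div_iff₀ (zero_lt_iff.2 hpos)).2 h
  have h2 := norm_le_of_val_le hι h1
  rwa [map_mul, map_pow, norm_mul, norm_pow] at h2

omit [CompleteSpace C] [CharZero C] [IsAlgClosed C] hι [NormedField C] [IsUltrametricDist C] in
theorem val_mul_exp_one {x y : K} (h : v.valuation K x < v.valuation K y) :
    v.valuation K x * exp ((1 : ℕ) : ℤ) ≤ v.valuation K y := by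
  by_cases hx : x = 0
  · rw [hx, map_zero, zero_mul]; exact zero_le
  have hx0 : v.valuation K x ≠ 0 := (Valuation.ne_zero_iff _).2 hx
  have hy0 : v.valuation K y ≠ 0 := fun h0 => by
    rw [h0] at h
    exact not_lt_zero h
  have hx' := (exp_log hx0).symm
  have hy' := (exp_log hy0).symm
  have hlt : log (v.valuation K x) < log (v.valuation K y) := by
    rw [hx', hy', exp_lt_exp] at h
    exact h
  rw [hx', hy', ← exp_add, exp_le_exp]
  push_cast
  omega

end val

end Pool.Agent.H882
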