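import Pool.Agent.H882.CenFac
import Pool.Graph.R_pool_sql_team_3845a38e.H13.DivisorBound

/-!
The number of the singular moduli with an endomorphism of given degree and trace.
-/

set_option autoImplicit false

namespace Pool.Agent.H882

open UpperHalfPlane H294ZP Function Pool.Agent.N135.ZO MatrixGroups

/-- the values of `j` at the points fixed by an integral matrix of determinant `p` and trace `a` -/
def SM (p : ℕ) (a : ℤ) : Set ℂ :=
  {z | ∃ (τ : ℍ) (M : M2), M.det = p ∧ M.trace = a ∧ Rel M τ τ ∧ jj τ = z}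

theorem rel_quad {M : M2} {τ : ℍ} (h : Rel M τ τ) :
    ((M 1 0 : ℤ) : ℂ) * (τ : ℂ) ^ 2 + ((M 1 1 - M 0 0 : ℤ) : ℂ) * τ + ((-M 0 1 : ℤ) : ℂ) = 0 := by
  unfold N135.ZO.Rel N135.ZO.den N135.ZO.num at h
  push_cast
  linear_combination h

theorem rel_ne {p : ℕ} (hp : p.Prime) {M : M2} {τ : ℍ} (hM : M.det = p) (h : Rel M τ τ) :
    M 1 0 ≠ 0 := by
  intro h0
  have h1 := rel_quad h
  rw [h0, Int.cast_zero, zero_mul, zero_add] at h1
  have him := congrArg Complex.im h1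
  simp only [Complex.add_im, Complex.mul_im, Complex.intCast_re, Complex.intCast_im, zero_mul,
    add_zero, Complex.zero_im] at him
  have hτ : (τ : ℂ).im ≠ 0 := τ.im_ne_zero
  have h2 : ((M 1 1 - M 0 0 : ℤ) : ℝ) = 0 := by
    rcases mul_eq_zero.1 him with h | h
    · exact h
    · exact absurd h hτ
  have h3 : M 1 1 = M 0 0 := by
    have : M 1 1 - M 0 0 = 0 := by exact_mod_cast h2
    omega
  rw [det_eq, h0, mul_zero, sub_zero, h3] at hM
  have h4 : (M 0 0).natAbs * (M 0 0).natAbs = p := by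
    have := congrArg Int.natAbs hM
    rwa [Int.natAbs_mul, Int.natAbs_natCast] at this
  have h5 := hp.prime
  rw [← h4] at h5
  exact h5.irreducible.not_isSquare ⟨_, rfl⟩

theorem trace_sq_lt {p : ℕ} (hp : p.Prime) {M : M2} {τ : ℍ} (hM : M.det = p) (h : Rel M τ τ) :
    M.trace ^ 2 < 4 * p := by
  have h1 := H610.disc_pos τ _ _ _ (rel_ne hp hM h) (rel_quad h)
  rw [Matrix.trace_fin_two]
  rw [det_eq] at hM
  nlinarith

/-- the values at the roots of the forms with given `A`, `B` -/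
def TT (N A B : ℤ) : Set ℂ := {z | ∃ τ : ℍ, (2 * (A : ℂ) * τ + B) ^ 2 = -(N : ℂ) ∧ jj τ = z}

theorem TT_sub {N A B : ℤ} (hA : 0 < A) : (TT N A B).Subsingleton := by
  rintro z ⟨τ, hτ, rfl⟩ z' ⟨τ', hτ', rfl⟩
  have h : (2 * (A : ℂ) * τ + B) ^ 2 = (2 * (A : ℂ) * τ' + B) ^ 2 := hτ.trans hτ'.symm
  have hA0 : (A : ℂ) ≠ 0 := by exact_mod_cast hA.ne'
  rcases sq_eq_sq_iff_eq_or_eq_neg.1 h with h1 | h1
  · have h2 : (τ : ℂ) = τ' := by
      have : (2 * (A : ℂ)) * τ = (2 * (A : ℂ)) * τ' := by linear_combination h1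
      exact mul_left_cancel₀ (mul_ne_zero two_ne_zero hA0) this
    rw [UpperHalfPlane.ext_iff.2 h2]
  · exfalso
    have him := congrArg Complex.im h1
    simp only [Complex.add_im, Complex.mul_im, Complex.mul_re, Complex.intCast_re,
      Complex.intCast_im, Complex.neg_im, zero_mul, mul_zero, add_zero, sub_zero,
      Complex.re_ofNat, Complex.im_ofNat] at him
    have e1 : 0 < (τ : ℂ).im := τ.im_pos
    have e2 : 0 < (τ' : ℂ).im := τ'.im_pos
    have e3 : (0 : ℝ) < A := by exact_mod_cast hA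
    nlinarith [mul_pos e3 e1, mul_pos e3 e2]

/-- the numbers `(B² + N) / 4` -/
def mB (N B : ℤ) : ℕ := ((B ^ 2 + N) / 4).toNat

/-- covering of the singular moduli -/
theorem SM_subset {p : ℕ} (hp : p.Prime) (a : ℤ) :
    SM p a ⊆ ⋃ B ∈ Finset.Icc (-((Nat.sqrt (4 * p) : ℕ) : ℤ)) (Nat.sqrt (4 * p) : ℕ),
      ⋃ A ∈ (mB (4 * p - a ^ 2) B).divisors, TT (4 * p - a ^ 2) A B := by
  rintro z ⟨τ, M, hM, htr, hrel, rfl⟩
  -- the fundamental domain
  obtain ⟨γ, hγ⟩ := ModularGroup.exists_smul_mem_fd τ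
  set τ' := γ • τ with hτ'
  have hdet := γ.det_coe
  have hrelγ : Rel (γ : M2) τ τ' := by
    unfold N135.ZO.Rel N135.ZO.den N135.ZO.num
    rw [hτ', coe_specialLinearGroup_apply]
    have hd : ((γ 1 0 : ℤ) : ℂ) * (τ : ℂ) + ((γ 1 1 : ℤ) : ℂ) ≠ 0 := by
      have := denom_ne_zero γ τ
      simpa [denom] using this
    simp only [eq_intCast, Complex.ofReal_intCast]
    rw [div_mul_cancel₀ _ hd]
  have hjj : jj τ' = jj τ := hrelγ.jj hdet
  -- the conjugate matrix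
  set M' : M2 := (γ : M2) * (M * (γ : M2).adjugate) with hM'
  have hM'det : M'.det = p := by
    rw [hM', det_mul', det_mul', det_adj, hdet, hM, one_mul, mul_one]
  have hadjM : (γ : M2).adjugate * (γ : M2) = 1 := by
    rw [Matrix.adjugate_mul, hdet, one_smul]
  have hM'tr : M'.trace = a := by
    rw [hM', Matrix.trace_mul_comm, mul_assoc, hadjM, mul_one, htr]
  have hrel' : Rel M' τ' τ' := ((rel_adj hrelγ).mul hrel).mul hrelγ
  have hA0 : M' 1 0 ≠ 0 := rel_ne hp hM'det hrel'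
  have hquad := rel_quad hrel'
  set A := M' 1 0 with hA
  set B := M' 1 1 - M' 0 0 with hB
  set C := -M' 0 1 with hC
  have hdisc : B ^ 2 - 4 * A * C = a ^ 2 - 4 * p := by
    rw [det_eq] at hM'det
    rw [Matrix.trace_fin_two] at hM'tr
    rw [hA, hB, hC, ← hM'tr]
    linear_combination (-4) * hM'det
  set N : ℤ := 4 * p - a ^ 2 with hN
  have hAC : 4 * (A * C) = B ^ 2 + N := by rw [hN]; linarith
  have hsq : (2 * (A : ℂ) * τ' + B) ^ 2 = -(N : ℂ) := by
    have e : ((B ^ 2 - 4 * A * C : ℤ) : ℂ) = -(N : ℂ) := by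
      rw [hdisc, hN]
      push_cast
      ring
    push_cast at e
    linear_combination 4 * (A : ℂ) * hquad + e
  have hNpos : 0 < N := by
    have := trace_sq_lt hp hM'det hrel'
    rw [hM'tr] at this
    rw [hN]
    linarith
  -- real and imaginary parts
  set x := (τ' : ℂ).re with hx
  set y := (τ' : ℂ).im with hy
  have hypos : 0 < y := τ'.im_pos
  have hAR : (A : ℝ) ≠ 0 := by exact_mod_cast hA0
  have hre := congrArg Complex.re hsq
  have him := congrArg Complex.im hsq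
  simp only [sq, Complex.mul_re, Complex.mul_im, Complex.add_re, Complex.add_im, Complex.intCast_re,
    Complex.intCast_im, Complex.neg_re, Complex.neg_im, zero_mul, mul_zero, add_zero, sub_zero,
    Complex.re_ofNat, Complex.im_ofNat, ← hx, ← hy, neg_zero] at hre him
  have h1 : 2 * (A : ℝ) * x + B = 0 := by
    have h2 : (4 * (A : ℝ) * y) * (2 * (A : ℝ) * x + B) = 0 := by linarith
    rcases mul_eq_zero.1 h2 with h | h
    · exact absurd h (mul_ne_zero (mul_ne_zero four_ne_zero hAR) hypos.ne')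
    · exact h
  have h2 : 4 * (A : ℝ) ^ 2 * y ^ 2 = N := by
    have e1 : (2 * (A : ℝ) * x + B) * (2 * (A : ℝ) * x + B) = 0 := by rw [h1, mul_zero]
    nlinarith
  obtain ⟨hfd1, hfd2⟩ := hγ
  have hfd1' : 1 ≤ x ^ 2 + y ^ 2 := by
    have h3 : 1 ≤ Complex.normSq (τ' : ℂ) := hfd1
    rw [Complex.normSq_apply] at h3
    nlinarith
  have hfd2' : |x| ≤ 1 / 2 := hfd2
  have hx2 : x ^ 2 ≤ 1 / 4 := by
    have := sq_abs x
    nlinarith [abs_nonneg x]
  have hBR : (B : ℝ) ^ 2 ≤ (A : ℝ) ^ 2 := by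
    have e1 : (B : ℝ) = -(2 * A * x) := by linarith
    rw [e1]
    nlinarith [sq_nonneg (A : ℝ)]
  have hA2R : 4 * (A : ℝ) ^ 2 ≤ (B : ℝ) ^ 2 + N := by
    have e1 : (B : ℝ) = -(2 * A * x) := by linarith
    rw [e1, ← h2]
    nlinarith [sq_nonneg (A : ℝ)]
  have hBA : B ^ 2 ≤ A ^ 2 := by exact_mod_cast hBR
  have hA2 : 4 * A ^ 2 ≤ B ^ 2 + N := by exact_mod_cast hA2R
  have hBN : B ^ 2 ≤ 4 * p := by nlinarith [sq_nonneg a]
  have hL : |B| ≤ ((Nat.sqrt (4 * p) : ℕ) : ℤ) := by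
    have e1 : B.natAbs ≤ Nat.sqrt (4 * p) := by
      rw [Nat.le_sqrt]
      have e2 : (B.natAbs : ℤ) * B.natAbs = B ^ 2 := by
        rw [← sq, Int.natAbs_sq]
      have e3 : (B.natAbs : ℤ) * B.natAbs ≤ ((4 * p : ℕ) : ℤ) := by
        rw [e2]
        push_cast
        exact hBN
      exact_mod_cast e3
    rw [← Int.natCast_natAbs]
    exact_mod_cast e1
  have hACpos : 0 < A * C := by nlinarith [sq_nonneg B]
  have hm : mB N B = (A * C).toNat := by
    unfold mB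
    rw [← hAC, Int.mul_ediv_cancel_left _ (by norm_num : (4 : ℤ) ≠ 0)]
  have hdvd : A.natAbs ∣ mB N B := by
    rw [hm]
    have e1 : (A * C).toNat = A.natAbs * C.natAbs := by
      rw [← Int.natAbs_mul]
      omega
    rw [e1]
    exact dvd_mul_right _ _
  have hm0 : mB N B ≠ 0 := by
    rw [hm]
    omega
  rw [Set.mem_iUnion₂]
  rcases lt_or_gt_of_ne hA0 with hneg | hpos
  · refine ⟨-B, ?_, ?_⟩
    · rw [Finset.mem_Icc]
      have := abs_le.1 hL
      constructor <;> linarith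
    · rw [Set.mem_iUnion₂]
      have e0 : mB N (-B) = mB N B := by unfold mB; rw [neg_sq]
      refine ⟨A.natAbs, ?_, τ', ?_, hjj⟩
      · rw [Nat.mem_divisors, e0]
        exact ⟨hdvd, hm0⟩
      · have e1 : ((A.natAbs : ℕ) : ℤ) = -A := by omega
        have e2 : (((A.natAbs : ℕ) : ℤ) : ℂ) = -(A : ℂ) := by rw [e1]; push_cast; ring
        rw [e2]
        push_cast
        linear_combination hsq
  · refine ⟨B, ?_, ?_⟩
    · rw [Finset.mem_Icc]
      exact abs_le.1 hL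
    · rw [Set.mem_iUnion₂]
      refine ⟨A.natAbs, ?_, τ', ?_, hjj⟩
      · rw [Nat.mem_divisors]
        exact ⟨hdvd, hm0⟩
      · have e1 : ((A.natAbs : ℕ) : ℤ) = A := by omega
        rw [e1]
        exact hsq

theorem SM_card {p : ℕ} (hp : p.Prime) (a : ℤ) : (SM p a).Finite ∧ (SM p a).ncard ≤
    ∑ B ∈ Finset.Icc (-((Nat.sqrt (4 * p) : ℕ) : ℤ)) (Nat.sqrt (4 * p) : ℕ),
      (mB (4 * p - a ^ 2) B).divisors.card := by
  classical
  set N : ℤ := 4 * p - a ^ 2 with hN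
  set S := Finset.Icc (-((Nat.sqrt (4 * p) : ℕ) : ℤ)) (Nat.sqrt (4 * p) : ℕ) with hS
  have hfin1 : ∀ (B : ℤ), ∀ A ∈ (mB N B).divisors, (TT N A B).Finite := fun B A hA =>
    (TT_sub (by exact_mod_cast Nat.pos_of_mem_divisors hA)).finite
  have hfin2 : ∀ B : ℤ, (⋃ A ∈ (mB N B).divisors, TT N A B).Finite := fun B =>
    Set.Finite.biUnion (Finset.finite_toSet _) (hfin1 B)
  have hfin : (⋃ B ∈ S, ⋃ A ∈ (mB N B).divisors, TT N A B).Finite :=
    Set.Finite.biUnion (Finset.finite_toSet _) fun B _ => hfin2 B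
  refine ⟨hfin.subset (SM_subset hp a), (Set.ncard_le_ncard (SM_subset hp a) hfin).trans ?_⟩
  refine (Finset.set_ncard_biUnion_le S _).trans (Finset.sum_le_sum fun B _ => ?_)
  refine (Finset.set_ncard_biUnion_le _ _).trans ?_
  rw [Finset.card_eq_sum_ones]
  refine Finset.sum_le_sum fun A hA => ?_
  have : Finite (TT N A B) := hfin1 B A hA
  exact Set.ncard_le_one_iff_subsingleton.2
    (TT_sub (by exact_mod_cast Nat.pos_of_mem_divisors hA))

theorem SM_bound {δ : ℝ} (hδ : 0 < δ) : ∃ C : ℝ, 1 ≤ C ∧ ∀ (p : ℕ), p.Prime → ∀ a : ℤ,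
    ((SM p a).ncard : ℝ) ≤ C * (p : ℝ) ^ (1 / 2 + δ) := by
  obtain ⟨C, hC1, hC⟩ := Pool.Agent.H13.DivisorBound.card_divisors_le_rpow δ hδ
  have h2δ : (1 : ℝ) ≤ 2 ^ δ := Real.one_le_rpow (by norm_num) hδ.le
  refine ⟨5 * (C * 2 ^ δ), by nlinarith, fun p hp a => ?_⟩
  have hp0 : (0 : ℝ) < p := by exact_mod_cast hp.pos
  have hp1 : (1 : ℝ) ≤ p := by exact_mod_cast hp.one_lt.le
  set S := Finset.Icc (-((Nat.sqrt (4 * p) : ℕ) : ℤ)) (Nat.sqrt (4 * p) : ℕ) with hS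
  have hterm : ∀ B ∈ S, ((mB (4 * p - a ^ 2) B).divisors.card : ℝ) ≤ C * (2 * p) ^ δ := by
    intro B hB
    rw [hS, Finset.mem_Icc] at hB
    have hB2 : B ^ 2 ≤ 4 * p := by
      have h1 : Nat.sqrt (4 * p) * Nat.sqrt (4 * p) ≤ 4 * p := Nat.sqrt_le _
      have h2 : ((Nat.sqrt (4 * p) : ℕ) : ℤ) * (Nat.sqrt (4 * p) : ℕ) ≤ 4 * p := by
        exact_mod_cast h1
      nlinarith
    have hm : mB (4 * p - a ^ 2) B ≤ 2 * p := by
      unfold mB
      have h1 : (B ^ 2 + (4 * p - a ^ 2)) / 4 ≤ (2 * p : ℤ) := by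
        have h2 : B ^ 2 + (4 * p - a ^ 2) ≤ 4 * (2 * p) := by nlinarith [sq_nonneg a]
        omega
      omega
    by_cases h0 : mB (4 * p - a ^ 2) B = 0
    · rw [h0, Nat.divisors_zero, Finset.card_empty, Nat.cast_zero]
      have : (0 : ℝ) ≤ C := by linarith
      positivity
    · refine (hC _ h0).trans ?_
      refine mul_le_mul_of_nonneg_left ?_ (by linarith)
      refine Real.rpow_le_rpow (Nat.cast_nonneg _) ?_ hδ.le
      exact_mod_cast hm
  have hcard : (S.card : ℝ) ≤ 5 * (p : ℝ) ^ (1 / 2 : ℝ) := by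
    rw [hS, Int.card_Icc]
    have e : (((Nat.sqrt (4 * p) : ℕ) : ℤ) + 1 - -((Nat.sqrt (4 * p) : ℕ) : ℤ)).toNat =
        2 * Nat.sqrt (4 * p) + 1 := by omega
    rw [e]
    push_cast
    have h1 : ((Nat.sqrt (4 * p) : ℕ) : ℝ) ≤ Real.sqrt ((4 * p : ℕ) : ℝ) := Real.nat_sqrt_le_real_sqrt
    have h2 : Real.sqrt ((4 * p : ℕ) : ℝ) = 2 * Real.sqrt p := by
      push_cast
      rw [Real.sqrt_mul (by norm_num), show (4 : ℝ) = 2 ^ 2 by norm_num,
        Real.sqrt_sq (by norm_num)]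
    have h3 : (1 : ℝ) ≤ Real.sqrt p := by
      rw [Real.one_le_sqrt]
      exact hp1
    rw [← Real.sqrt_eq_rpow]
    linarith
  calc ((SM p a).ncard : ℝ) ≤ ((∑ B ∈ S, (mB (4 * p - a ^ 2) B).divisors.card : ℕ) : ℝ) := by
        exact_mod_cast (SM_card hp a).2
    _ = ∑ B ∈ S, ((mB (4 * p - a ^ 2) B).divisors.card : ℝ) := by push_cast; rfl
    _ ≤ ∑ B ∈ S, C * (2 * p) ^ δ := Finset.sum_le_sum hterm
    _ = S.card * (C * (2 * p) ^ δ) := by rw [Finset.sum_const, nsmul_eq_mul]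
    _ ≤ (5 * (p : ℝ) ^ (1 / 2 : ℝ)) * (C * (2 * p) ^ δ) := by
        refine mul_le_mul_of_nonneg_right hcard ?_
        have : (0 : ℝ) ≤ C := by linarith
        positivity
    _ = 5 * (C * 2 ^ δ) * (p : ℝ) ^ (1 / 2 + δ) := by
        rw [Real.mul_rpow (by norm_num) hp0.le, Real.rpow_add hp0]
        ring

end Pool.Agent.H882
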