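import Mathlib

/-!
One set of density zero in a box of any dimension.
-/

set_option autoImplicit false

namespace Pool.Agent.H882

theorem exists_null2 {Q : Type} (ht : Q → ℕ) {d : ℕ} (hd0 : d ≠ 0) {c : ℝ} (hc : 0 ≤ c)
    (hfin : ∀ H, {q | ht q ≤ H}.Finite)
    (hbox : ∀ H : ℕ, 1 ≤ H → ({q | ht q ≤ H}.ncard : ℝ) ≤ c * (H : ℝ) ^ d)
    (hpos : ∀ q, 1 ≤ ht q)
    (P : ℕ → Q → Prop) (hanti : ∀ B B' q, B ≤ B' → P B' q → P B q)
    (hd : ∀ B, ∀ ε : ℝ, 0 < ε → ∃ H₀ : ℕ, ∀ H : ℕ, H₀ ≤ H →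
      ({q | ht q ≤ H ∧ ¬ P B q}.ncard : ℝ) ≤ ε * (H : ℝ) ^ d) :
    ∃ E : Set Q, (∀ ε : ℝ, 0 < ε → ∃ H₀ : ℕ, ∀ H : ℕ, H₀ ≤ H →
      ({q | q ∈ E ∧ ht q ≤ H}.ncard : ℝ) ≤ ε * (H : ℝ) ^ d) ∧
      ∀ B, ∃ T, ∀ q, T ≤ ht q → q ∉ E → P B q := by
  classical
  have h0 : ∀ k : ℕ, ∃ N : ℕ, ∀ H : ℕ, N ≤ H →
      ({q | ht q ≤ H ∧ ¬ P k q}.ncard : ℝ) ≤ (1 / ((k : ℝ) + 1)) * (H : ℝ) ^ d := fun k =>
    hd k _ (by positivity)
  choose N hN using h0
  let h : ℕ → ℕ := fun k => Nat.rec 1 (fun k hk => max (N (k + 1)) ((k + 2) * hk) + 1) k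
  have hz : h 0 = 1 := rfl
  have hs : ∀ k, h (k + 1) = max (N (k + 1)) ((k + 2) * h k) + 1 := fun _ => rfl
  have hstep : ∀ k, (k + 2) * h k < h (k + 1) := by
    intro k
    rw [hs]
    exact Nat.lt_succ_of_le (le_max_right _ _)
  have hmono : StrictMono h := by
    refine strictMono_nat_of_lt_succ fun k => ?_
    have := hstep k
    nlinarith
  have hNh : ∀ k, N (k + 1) ≤ h (k + 1) := by
    intro k
    rw [hs]
    exact (le_max_left _ _).trans (Nat.le_succ _)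
  have hidx : ∀ t, 1 ≤ t → ∃ k, h k ≤ t ∧ t < h (k + 1) := by
    intro t ht
    have hex : ∃ k, t < h k := ⟨t + 1, lt_of_lt_of_le (Nat.lt_succ_self t) (hmono.id_le _)⟩
    obtain ⟨m, hm1, hm2⟩ : ∃ m, t < h m ∧ ∀ i, i < m → h i ≤ t := by
      refine ⟨Nat.find hex, Nat.find_spec hex, fun i hi => ?_⟩
      have := Nat.find_min hex hi
      omega
    have h2 : m ≠ 0 := by
      intro h3
      rw [h3, hz] at hm1
      omega
    obtain ⟨k, rfl⟩ := Nat.exists_eq_succ_of_ne_zero h2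
    exact ⟨k, hm2 k (by omega), hm1⟩
  refine ⟨{q | ∃ k, h k ≤ ht q ∧ ht q < h (k + 1) ∧ ¬ P k q}, ?_, ?_⟩
  · intro ε hε
    obtain ⟨k₀, hk₀⟩ := exists_nat_ge ((2 + c) / ε)
    refine ⟨h (k₀ + 2), fun H hH => ?_⟩
    have hH1 : 1 ≤ H := by
      have := hmono.id_le (k₀ + 2)
      simp only [id] at this
      omega
    obtain ⟨k, hk1, hk2⟩ := hidx H hH1
    have hk3 : k₀ + 2 ≤ k := by
      by_contra hcon
      have := hmono.monotone (show k + 1 ≤ k₀ + 2 by omega)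
      omega
    obtain ⟨j, rfl⟩ : ∃ j, k = j + 2 := ⟨k - 2, by omega⟩
    have hsub : {q : Q | q ∈ {q | ∃ k, h k ≤ ht q ∧ ht q < h (k + 1) ∧ ¬ P k q} ∧ ht q ≤ H} ⊆
        ({q | ht q ≤ H ∧ ¬ P (j + 2) q} ∪ {q | ht q ≤ h (j + 2) ∧ ¬ P (j + 1) q}) ∪
          {q | ht q ≤ h (j + 1)} := by
      rintro q ⟨⟨i, hi1, hi2, hi3⟩, htH⟩
      have hij : i ≤ j + 2 := by
        by_contra hcon
        have := hmono.monotone (show j + 2 + 1 ≤ i by omega)
        omega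
      rcases Nat.lt_or_ge i (j + 1) with h1 | h1
      · right
        have := hmono.monotone (show i + 1 ≤ j + 1 by omega)
        show ht q ≤ h (j + 1)
        omega
      · left
        rcases Nat.lt_or_ge i (j + 2) with h2 | h2
        · right
          have h3 : i = j + 1 := by omega
          subst h3
          exact ⟨hi2.le, hi3⟩
        · left
          have h3 : i = j + 2 := by omega
          subst h3
          exact ⟨htH, hi3⟩
    have hfin1 : {q | ht q ≤ H ∧ ¬ P (j + 2) q}.Finite := (hfin H).subset fun q hq => hq.1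
    have hfin2 : {q | ht q ≤ h (j + 2) ∧ ¬ P (j + 1) q}.Finite :=
      (hfin (h (j + 2))).subset fun q hq => hq.1
    have hcd := (Set.ncard_le_ncard hsub ((hfin1.union hfin2).union (hfin (h (j + 1))))).trans
      ((Set.ncard_union_le _ _).trans (Nat.add_le_add_right (Set.ncard_union_le _ _) _))
    have h1 := hN (j + 2) H ((hNh (j + 1)).trans hk1)
    have h2 := hN (j + 1) (h (j + 2)) ((hNh j).trans (hmono.monotone (show j + 1 ≤ j + 2 by omega)))
    have h3 := hstep (j + 1)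
    have h3' : ((j : ℝ) + 1 + 2) * h (j + 1) ≤ h (j + 2) := by
      have h4 : (j + 1 + 2) * h (j + 1) ≤ h (j + 2) := h3.le
      exact_mod_cast h4
    have hHR : (h (j + 2) : ℝ) ≤ H := by exact_mod_cast hk1
    have hj : (2 + c) / ε ≤ (j : ℝ) + 1 := by
      have : (k₀ : ℝ) ≤ j := by
        have : k₀ ≤ j := by omega
        exact_mod_cast this
      linarith
    have hj0 : (0 : ℝ) < (j : ℝ) + 1 := by positivity
    have hH0 : (0 : ℝ) ≤ H := Nat.cast_nonneg _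
    have hHd0 : (0 : ℝ) ≤ (H : ℝ) ^ d := by positivity
    have hb : (2 + c) * ((H : ℝ) ^ d / (j + 1)) ≤ ε * (H : ℝ) ^ d := by
      rw [div_le_iff₀ hε] at hj
      rw [← mul_div_assoc, div_le_iff₀ hj0]
      nlinarith
    have h7 : (h (j + 1) : ℝ) ≤ H / (j + 1) := by
      rw [le_div_iff₀ hj0]
      have : (0 : ℝ) ≤ h (j + 1) := Nat.cast_nonneg _
      nlinarith
    have h8 : (1 : ℝ) ≤ h (j + 1) := by
      have := hmono.monotone (Nat.zero_le (j + 1))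
      have : 1 ≤ h (j + 1) := by omega
      exact_mod_cast this
    have h9 : ((h (j + 1) : ℕ) : ℝ) ^ d ≤ (H : ℝ) ^ d / (j + 1) := by
      calc ((h (j + 1) : ℕ) : ℝ) ^ d ≤ ((H : ℝ) / (j + 1)) ^ d :=
            pow_le_pow_left₀ (by linarith) h7 d
        _ = (H : ℝ) ^ d / (j + 1) ^ d := div_pow _ _ _
        _ ≤ (H : ℝ) ^ d / (j + 1) := by
            apply div_le_div_of_nonneg_left hHd0 hj0
            exact le_self_pow₀ (by linarith [(Nat.cast_nonneg j : (0 : ℝ) ≤ j)]) hd0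
    have h10 := hbox (h (j + 1)) (by exact_mod_cast h8)
    have h11 : ({q | ht q ≤ h (j + 1)}.ncard : ℝ) ≤ c * ((H : ℝ) ^ d / (j + 1)) :=
      h10.trans (mul_le_mul_of_nonneg_left h9 hc)
    have h5 : (1 / (((j + 2 : ℕ) : ℝ) + 1)) * (H : ℝ) ^ d ≤ (H : ℝ) ^ d / (j + 1) := by
      rw [one_div, inv_mul_eq_div]
      apply div_le_div_of_nonneg_left hHd0 hj0
      push_cast
      linarith
    have h6 : (1 / (((j + 1 : ℕ) : ℝ) + 1)) * (h (j + 2) : ℝ) ^ d ≤ (H : ℝ) ^ d / (j + 1) := by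
      rw [one_div, inv_mul_eq_div]
      apply div_le_div₀ hHd0 (pow_le_pow_left₀ (Nat.cast_nonneg _) hHR d) hj0
      push_cast
      linarith
    have hcR : ({q : Q | q ∈ {q | ∃ k, h k ≤ ht q ∧ ht q < h (k + 1) ∧ ¬ P k q} ∧
        ht q ≤ H}.ncard : ℝ) ≤
        ({q | ht q ≤ H ∧ ¬ P (j + 2) q}.ncard : ℝ) +
        ({q | ht q ≤ h (j + 2) ∧ ¬ P (j + 1) q}.ncard : ℝ) +
          ({q | ht q ≤ h (j + 1)}.ncard : ℝ) := by
      exact_mod_cast hcd
    linarith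
  · intro B
    refine ⟨h B, fun q hq hqE => ?_⟩
    obtain ⟨k, hk1, hk2⟩ := hidx (ht q) (hpos q)
    have hBk : B ≤ k := by
      by_contra hcon
      have := hmono.monotone (show k + 1 ≤ B by omega)
      omega
    by_contra hcon
    exact hqE ⟨k, hk1, hk2, fun h => hcon (hanti B k q hBk h)⟩

end Pool.Agent.H882
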