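import Pool.Agent.H882.CenDens
import Pool.Agent.H882.CenNull

/-!
One hundred percent of the pairs of a centre and an integer have several common good primes.
-/

set_option autoImplicit false

namespace Pool.Agent.H882

theorem count_cen {n : ℕ} {Z : Type} (E : ∀ p : ℕ, Set (Fin n → ZMod p))
    (Γ : ∀ p : ℕ, ZMod p → Set Z)
    (hE : ∀ η : ℝ, 0 < η → ∃ B : ℕ, ∀ p, p.Prime → B < p → ((E p).ncard : ℝ) ≤ η * (p : ℝ) ^ n)
    (hΓ1 : ∀ p, p.Prime → 3 < p → ∀ a, (Γ p a).Subsingleton)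
    (hΓ2 : ∀ p, p.Prime → 3 < p → ∀ a b z, z ∈ Γ p a → z ∈ Γ p b → a = b) (B : ℕ) {ε : ℝ}
    (hε : 0 < ε) :
    ∃ H₀ : ℕ, ∀ H : ℕ, H₀ ≤ H → ({q : (Fin n → ℤ) × ℕ | (∀ i, |q.1 i| ≤ (H : ℤ)) ∧ q.2 + 1 ≤ H ∧
      ¬ PP E Γ B q.1 (q.2 + 1)}.ncard : ℝ) ≤ ε * (H : ℝ) ^ (n + 1) := by
  classical
  obtain ⟨δ, hδ, hδε⟩ : ∃ δ : ℝ, 0 < δ ∧ 2 * δ * 3 ^ n = ε := by
    refine ⟨ε / (2 * 3 ^ n), by positivity, ?_⟩
    field_simp
  have hn1 : (0 : ℝ) < (n : ℝ) + 1 := by positivity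
  obtain ⟨η, hη, hηδ⟩ : ∃ η : ℝ, 0 < η ∧ (n + 1) * η = δ / 2 := by
    refine ⟨δ / (2 * (n + 1)), by positivity, ?_⟩
    field_simp
  obtain ⟨B₁, hB₁⟩ := hE η hη
  obtain ⟨B₂, hB₂⟩ := exists_nat_ge (((n : ℝ) + 1) * (n + 1) * n / (δ / 2))
  obtain ⟨D, hD1, hD⟩ := Nat.exists_infinite_primes (n + 2)
  have : Fact D.Prime := ⟨hD⟩
  obtain ⟨B', hB'⟩ : ∃ B' : ℕ, B' = B + B₁ + B₂ + 4 := ⟨_, rfl⟩
  have hB'0 : 0 < B' := by omega
  have hB'R : (0 : ℝ) < B' := by exact_mod_cast hB'0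
  have hunit : ∀ l : Fin (n + 1), IsUnit (((l.val + 1 : ℕ) : ZMod D)) := by
    intro l
    rw [ZMod.isUnit_iff_coprime]
    exact (Nat.coprime_of_lt_prime (by omega) (by omega) hD).symm
  have hdens : ∀ l : Fin (n + 1), ∃ H₀ : ℕ, ∀ H : ℕ, H₀ ≤ H → ({t : ℕ | 0 < t ∧ t ≤ H ∧
      ¬ ∃ p : ℕ, p.Prime ∧ (p : ZMod D) = ((l.val + 1 : ℕ) : ZMod D) ∧ B' < p ∧ p ∣ t}.ncard : ℝ) ≤
      δ / (n + 1) * H := fun l => density (hunit l) B' (by positivity)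
  choose H₁ hH₁ using hdens
  refine ⟨1 + ∑ l, H₁ l, fun H hH => ?_⟩
  have hH1 : 1 ≤ H := by omega
  have hHl : ∀ l, H₁ l ≤ H := fun l =>
    (Finset.single_le_sum (fun _ _ => Nat.zero_le _) (Finset.mem_univ l)).trans (by omega)
  let bad : Finset ℕ := (Finset.range H).filter fun u => ¬ ∀ l : Fin (n + 1), ∃ p : ℕ, p.Prime ∧
    (p : ZMod D) = ((l.val + 1 : ℕ) : ZMod D) ∧ B' < p ∧ p ∣ u + 1
  have hbad : (bad.card : ℝ) ≤ δ * H := by
    have hsub : (bad : Set ℕ) ⊆ ⋃ l : Fin (n + 1), (fun t => t - 1) '' {t : ℕ | 0 < t ∧ t ≤ H ∧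
      ¬ ∃ p : ℕ, p.Prime ∧ (p : ZMod D) = ((l.val + 1 : ℕ) : ZMod D) ∧ B' < p ∧ p ∣ t} := by
      intro u hu
      obtain ⟨hu1, hu2⟩ := Finset.mem_filter.1 (Finset.mem_coe.1 hu)
      rw [not_forall] at hu2
      obtain ⟨l, hl⟩ := hu2
      rw [Set.mem_iUnion]
      exact ⟨l, u + 1, ⟨Nat.succ_pos u, Finset.mem_range.1 hu1, hl⟩, rfl⟩
    have hfin : ∀ l : Fin (n + 1), {t : ℕ | 0 < t ∧ t ≤ H ∧
      ¬ ∃ p : ℕ, p.Prime ∧ (p : ZMod D) = ((l.val + 1 : ℕ) : ZMod D) ∧ B' < p ∧ p ∣ t}.Finite :=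
      fun l => (Set.finite_Iic H).subset fun t ht => ht.2.1
    have h1 : bad.card ≤ ∑ l : Fin (n + 1), {t : ℕ | 0 < t ∧ t ≤ H ∧
      ¬ ∃ p : ℕ, p.Prime ∧ (p : ZMod D) = ((l.val + 1 : ℕ) : ZMod D) ∧ B' < p ∧ p ∣ t}.ncard := by
      rw [← Set.ncard_coe_finset]
      refine (Set.ncard_le_ncard hsub (Set.finite_iUnion fun l => (hfin l).image _)).trans ?_
      refine (Set.ncard_iUnion_le_of_fintype _).trans ?_
      exact Finset.sum_le_sum fun l _ => Set.ncard_image_le (hfin l)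
    have h2 : (bad.card : ℝ) ≤ ∑ l : Fin (n + 1), (δ / (n + 1) * H : ℝ) := by
      have h3 : (bad.card : ℝ) ≤ ((∑ l : Fin (n + 1), {t : ℕ | 0 < t ∧ t ≤ H ∧
        ¬ ∃ p : ℕ, p.Prime ∧ (p : ZMod D) = ((l.val + 1 : ℕ) : ZMod D) ∧ B' < p ∧
          p ∣ t}.ncard : ℕ) : ℝ) := by exact_mod_cast h1
      refine h3.trans ?_
      rw [Nat.cast_sum]
      exact Finset.sum_le_sum fun l _ => hH₁ l H (hHl l)
    refine h2.trans (le_of_eq ?_)
    rw [Finset.sum_const, Finset.card_univ, Fintype.card_fin, nsmul_eq_mul]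
    push_cast
    field_simp
  have hcoef : ((n + 1) * η + (n + 1) * (n + 1) * n / B' : ℝ) ≤ δ := by
    have h1 : ((n : ℝ) + 1) * (n + 1) * n / B' ≤ δ / 2 := by
      rw [div_le_iff₀ hB'R]
      rw [div_le_iff₀ (by positivity)] at hB₂
      have h2 : (B₂ : ℝ) ≤ B' := by
        have : B₂ ≤ B' := by omega
        exact_mod_cast this
      nlinarith
    linarith
  have hgood : ∀ u, u < H → u ∉ bad →
      ((((bx n H).filter fun s => ¬ PP E Γ B s (u + 1)).card : ℕ) : ℝ) ≤ δ * (3 * H) ^ n := by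
    intro u huH hu
    have h1 : ∀ l : Fin (n + 1), ∃ p : ℕ, p.Prime ∧
      (p : ZMod D) = ((l.val + 1 : ℕ) : ZMod D) ∧ B' < p ∧ p ∣ u + 1 := by
      by_contra hcon
      exact hu (Finset.mem_filter.2 ⟨Finset.mem_range.2 huH, hcon⟩)
    choose f hf1 hf2 hf3 hf4 using h1
    have hfinj : Function.Injective f := by
      intro l l' h
      have h2 := hf2 l
      rw [h, hf2 l', ZMod.natCast_eq_natCast_iff'] at h2
      rw [Nat.mod_eq_of_lt (by omega), Nat.mod_eq_of_lt (by omega)] at h2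
      apply Fin.ext
      omega
    have h3 := card_good (H := H) (B := B') hB'0 E Γ (η := η) hΓ1 hΓ2 (Nat.succ_pos u) huH f hfinj
      (fun l => ⟨hf1 l, by have := hf3 l; omega, hf3 l, hf4 l⟩)
      (fun l => hB₁ (f l) (hf1 l) (by have := hf3 l; omega))
    have h4 : ((bx n H).filter fun s => ¬ PP E Γ B s (u + 1)).card ≤
        ((bx n H).filter fun s => ¬ PP E Γ B' s (u + 1)).card := by
      apply Finset.card_le_card
      intro s hs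
      obtain ⟨hs1, hs2⟩ := Finset.mem_filter.1 hs
      exact Finset.mem_filter.2 ⟨hs1, fun h => hs2 (PP_anti (by omega) h)⟩
    calc ((((bx n H).filter fun s => ¬ PP E Γ B s (u + 1)).card : ℕ) : ℝ) ≤
        ((((bx n H).filter fun s => ¬ PP E Γ B' s (u + 1)).card : ℕ) : ℝ) := by exact_mod_cast h4
      _ ≤ _ := h3
      _ ≤ δ * (3 * H) ^ n := mul_le_mul_of_nonneg_right hcoef (by positivity)
  have hall : ∀ u, ((((bx n H).filter fun s => ¬ PP E Γ B s (u + 1)).card : ℕ) : ℝ) ≤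
      (3 * H) ^ n := by
    intro u
    refine le_trans ?_ (card_bx hH1)
    exact_mod_cast Finset.card_filter_le _ _
  have hset : {q : (Fin n → ℤ) × ℕ | (∀ i, |q.1 i| ≤ (H : ℤ)) ∧ q.2 + 1 ≤ H ∧
      ¬ PP E Γ B q.1 (q.2 + 1)} ⊆ (((Finset.range H).biUnion fun u =>
        ((bx n H).filter fun s => ¬ PP E Γ B s (u + 1)).image fun s => (s, u) :
          Finset ((Fin n → ℤ) × ℕ)) : Set ((Fin n → ℤ) × ℕ)) := by
    rintro ⟨s, u⟩ ⟨h1, h2, h3⟩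
    rw [Finset.mem_coe, Finset.mem_biUnion]
    refine ⟨u, Finset.mem_range.2 h2, Finset.mem_image.2 ⟨s, ?_, rfl⟩⟩
    exact Finset.mem_filter.2 ⟨mem_bx.2 h1, h3⟩
  have h1 := Set.ncard_le_ncard hset (Finset.finite_toSet _)
  rw [Set.ncard_coe_finset] at h1
  have h2 := h1.trans (Finset.card_biUnion_le.trans (Finset.sum_le_sum fun u _ =>
    Finset.card_image_le))
  have h3 : (({q : (Fin n → ℤ) × ℕ | (∀ i, |q.1 i| ≤ (H : ℤ)) ∧ q.2 + 1 ≤ H ∧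
      ¬ PP E Γ B q.1 (q.2 + 1)}.ncard : ℕ) : ℝ) ≤ ∑ u ∈ Finset.range H,
        ((((bx n H).filter fun s => ¬ PP E Γ B s (u + 1)).card : ℕ) : ℝ) := by
    exact_mod_cast h2
  have h4 : ∑ u ∈ Finset.range H, ((((bx n H).filter fun s => ¬ PP E Γ B s (u + 1)).card : ℕ) : ℝ) ≤
      ∑ u ∈ Finset.range H, (δ * (3 * H) ^ n + if u ∈ bad then (3 * H : ℝ) ^ n else 0) := by
    refine Finset.sum_le_sum fun u hu => ?_
    split_ifs with h
    · have := hall u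
      have h5 : (0 : ℝ) ≤ δ * (3 * H) ^ n := by positivity
      linarith
    · have := hgood u (Finset.mem_range.1 hu) h
      linarith
  have h5 : ∑ u ∈ Finset.range H, (δ * (3 * H) ^ n + if u ∈ bad then (3 * H : ℝ) ^ n else 0) =
      H * (δ * (3 * H) ^ n) + bad.card * (3 * H : ℝ) ^ n := by
    rw [Finset.sum_add_distrib, Finset.sum_const, Finset.card_range, nsmul_eq_mul,
      ← Finset.sum_filter, Finset.sum_const, nsmul_eq_mul]
    congr 2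
    have : (Finset.range H).filter (fun u => u ∈ bad) = bad := by
      ext u
      rw [Finset.mem_filter]
      exact ⟨fun h => h.2, fun h => ⟨(Finset.mem_filter.1 h).1, h⟩⟩
    rw [this]
  have h6 : (bad.card : ℝ) * (3 * H : ℝ) ^ n ≤ δ * H * (3 * H : ℝ) ^ n :=
    mul_le_mul_of_nonneg_right hbad (by positivity)
  calc _ ≤ _ := h3
    _ ≤ _ := h4
    _ = _ := h5
    _ ≤ H * (δ * (3 * H) ^ n) + δ * H * (3 * H : ℝ) ^ n := by linarith
    _ = (2 * δ * 3 ^ n) * (H : ℝ) ^ (n + 1) := by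
        rw [mul_pow, pow_succ]
        ring
    _ = _ := by rw [hδε]

/-- One set of density zero outside which there are common good primes. -/
theorem null_cen {n : ℕ} {Z : Type} (E : ∀ p : ℕ, Set (Fin n → ZMod p))
    (Γ : ∀ p : ℕ, ZMod p → Set Z)
    (hE : ∀ η : ℝ, 0 < η → ∃ B : ℕ, ∀ p, p.Prime → B < p → ((E p).ncard : ℝ) ≤ η * (p : ℝ) ^ n)
    (hΓ1 : ∀ p, p.Prime → 3 < p → ∀ a, (Γ p a).Subsingleton)
    (hΓ2 : ∀ p, p.Prime → 3 < p → ∀ a b z, z ∈ Γ p a → z ∈ Γ p b → a = b) :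
    ∃ N : Set ((Fin n → ℤ) × ℕ), (∀ ε : ℝ, 0 < ε → ∃ H₀ : ℕ, ∀ H : ℕ, H₀ ≤ H →
      ({q : (Fin n → ℤ) × ℕ | q ∈ N ∧ (∀ i, |q.1 i| ≤ (H : ℤ)) ∧ q.2 ≤ H}.ncard : ℝ) ≤
        ε * (H : ℝ) ^ (n + 1)) ∧
      ∀ B : ℕ, ∃ T : ℕ, ∀ (s : Fin n → ℤ) (t : ℕ), 0 < t → (T ≤ t ∨ ∃ i, (T : ℤ) ≤ |s i|) →
        (s, t) ∉ N → PP E Γ B s t := by
  classical
  let ht : (Fin n → ℤ) × ℕ → ℕ := fun q => max (q.2 + 1) (Finset.univ.sup fun i => (q.1 i).natAbs)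
  have hle : ∀ (q : (Fin n → ℤ) × ℕ) (H : ℕ), ht q ≤ H ↔
      (∀ i, |q.1 i| ≤ (H : ℤ)) ∧ q.2 + 1 ≤ H := by
    intro q H
    show max _ _ ≤ H ↔ _
    rw [max_le_iff, Finset.sup_le_iff, and_comm]
    refine and_congr ⟨fun h i => ?_, fun h i _ => ?_⟩ Iff.rfl
    · have := h i (Finset.mem_univ i)
      rw [Int.abs_eq_natAbs]
      exact_mod_cast this
    · have := h i
      rw [Int.abs_eq_natAbs] at this
      exact_mod_cast this
  have hsub : ∀ H : ℕ, {q | ht q ≤ H} ⊆ ((bx n H ×ˢ Finset.range H :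
      Finset ((Fin n → ℤ) × ℕ)) : Set ((Fin n → ℤ) × ℕ)) := by
    intro H q hq
    obtain ⟨h1, h2⟩ := (hle q H).1 hq
    rw [Finset.mem_coe, Finset.mem_product]
    exact ⟨mem_bx.2 h1, Finset.mem_range.2 h2⟩
  obtain ⟨N, hN1, hN2⟩ := exists_null2 ht (d := n + 1) (Nat.succ_ne_zero n) (c := 3 ^ n)
    (by positivity) (fun H => (Finset.finite_toSet _).subset (hsub H))
    (fun H hH => by
      have h1 := Set.ncard_le_ncard (hsub H) (Finset.finite_toSet _)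
      rw [Set.ncard_coe_finset, Finset.card_product, Finset.card_range] at h1
      have h2 : ({q | ht q ≤ H}.ncard : ℝ) ≤ (bx n H).card * H := by exact_mod_cast h1
      refine h2.trans ?_
      calc ((bx n H).card : ℝ) * H ≤ (3 * H) ^ n * H :=
            mul_le_mul_of_nonneg_right (card_bx hH) (Nat.cast_nonneg _)
        _ = 3 ^ n * (H : ℝ) ^ (n + 1) := by
            rw [mul_pow, pow_succ]
            ring)
    (fun q => (Nat.succ_le_succ (Nat.zero_le _)).trans (le_max_left _ _))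
    (fun B q => PP E Γ B q.1 (q.2 + 1)) (fun B B' q hB h => PP_anti hB h)
    (fun B ε hε => by
      obtain ⟨H₀, hH₀⟩ := count_cen E Γ hE hΓ1 hΓ2 B hε
      refine ⟨H₀, fun H hH => ?_⟩
      have h1 := hH₀ H hH
      have e : {q | ht q ≤ H ∧ ¬ PP E Γ B q.1 (q.2 + 1)} =
          {q : (Fin n → ℤ) × ℕ | (∀ i, |q.1 i| ≤ (H : ℤ)) ∧ q.2 + 1 ≤ H ∧
            ¬ PP E Γ B q.1 (q.2 + 1)} := by
        ext q
        show ht q ≤ H ∧ _ ↔ _ ∧ _ ∧ _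
        rw [hle, and_assoc]
      rw [e]
      exact h1)
  refine ⟨{q | 0 < q.2 ∧ (q.1, q.2 - 1) ∈ N}, fun ε hε => ?_, fun B => ?_⟩
  · obtain ⟨H₀, hH₀⟩ := hN1 ε hε
    refine ⟨H₀, fun H hH => ?_⟩
    refine le_trans ?_ (hH₀ H hH)
    have h1 : {q : (Fin n → ℤ) × ℕ | q ∈ {q : (Fin n → ℤ) × ℕ | 0 < q.2 ∧ (q.1, q.2 - 1) ∈ N} ∧
        (∀ i, |q.1 i| ≤ (H : ℤ)) ∧ q.2 ≤ H} ⊆
        (fun q : (Fin n → ℤ) × ℕ => (q.1, q.2 + 1)) '' {q | q ∈ N ∧ ht q ≤ H} := by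
      rintro ⟨s, t⟩ ⟨⟨h1, h2⟩, h3, h4⟩
      have h1' : 0 < t := h1
      have h4' : t ≤ H := h4
      have e : t - 1 + 1 = t := Nat.sub_add_cancel h1'
      refine ⟨(s, t - 1), ⟨h2, (hle _ _).2 ⟨h3, ?_⟩⟩, ?_⟩
      · show t - 1 + 1 ≤ H
        omega
      · show (s, t - 1 + 1) = (s, t)
        rw [e]
    have hfin : {q | q ∈ N ∧ ht q ≤ H}.Finite :=
      ((Finset.finite_toSet _).subset (hsub H)).subset fun q hq => hq.2
    exact_mod_cast (Set.ncard_le_ncard h1 (hfin.image _)).trans (Set.ncard_image_le hfin)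
  · obtain ⟨T, hT⟩ := hN2 B
    refine ⟨T, fun s t ht0 hTt hst => ?_⟩
    have e : t - 1 + 1 = t := Nat.sub_add_cancel ht0
    have h1 := hT (s, t - 1) ?_ ?_
    · have h2 : PP E Γ B s (t - 1 + 1) := h1
      rw [e] at h2
      exact h2
    · show T ≤ max (t - 1 + 1) _
      rw [e]
      rcases hTt with h | ⟨i, hi⟩
      · exact h.trans (le_max_left _ _)
      · refine le_trans ?_ (le_max_right _ _)
        have h3 : T ≤ (s i).natAbs := by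
          rw [Int.abs_eq_natAbs] at hi
          exact_mod_cast hi
        exact h3.trans (Finset.le_sup (f := fun i => (s i).natAbs) (Finset.mem_univ i))
    · intro h
      exact hst ⟨ht0, h⟩

end Pool.Agent.H882
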