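import Pool.Agent.H882.Dens

/-!
One hundred percent of the pairs of a centre and an integer have several common good primes.
-/

set_option autoImplicit false

namespace Pool.Agent.H882

/-- integers of a box in one residue class -/
theorem card_class {M H : ℕ} (hM : 0 < M) (hMH : M ≤ H) (A : Finset ℤ)
    (hA : ∀ a ∈ A, |a| ≤ (H : ℤ)) (hcong : ∀ a ∈ A, ∀ b ∈ A, (M : ℤ) ∣ a - b) :
    (A.card : ℝ) ≤ 3 * H / M := by
  classical
  have hMZ : (0 : ℤ) < M := by exact_mod_cast hM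
  have h1 : A.card ≤ (Finset.Icc (0 : ℤ) (2 * H / M)).card := by
    refine Finset.card_le_card_of_injOn (fun a => (a + H) / M) ?_ ?_
    · intro a ha
      have h := abs_le.1 (hA a ha)
      rw [Finset.mem_coe, Finset.mem_Icc]
      constructor
      · exact Int.ediv_nonneg (by linarith) hMZ.le
      · exact Int.ediv_le_ediv hMZ (by linarith)
    · intro a ha b hb hab
      obtain ⟨c, hc⟩ := hcong a ha b hb
      have e : a + H = (b + H) + M * c := by linarith
      simp only at hab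
      rw [e, Int.add_mul_ediv_left _ _ hMZ.ne'] at hab
      have hc0 : c = 0 := by linarith
      rw [hc0, mul_zero] at hc
      linarith
  rw [Int.card_Icc] at h1
  have hMR : (0 : ℝ) < M := by exact_mod_cast hM
  have h2 : ((2 * H / M : ℤ) + 1 - 0).toNat = 2 * H / M + 1 := by
    have : (2 * (H : ℤ) / M) = ((2 * H / M : ℕ) : ℤ) := by push_cast; rfl
    rw [this, sub_zero]
    generalize 2 * H / M = k
    omega
  rw [h2] at h1
  have h3 : ((2 * H / M : ℕ) : ℝ) ≤ 2 * H / M := by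
    have := @Nat.cast_div_le ℝ _ _ _ (2 * H) M
    push_cast at this
    exact this
  have h4 : (1 : ℝ) ≤ H / M := by
    rw [le_div_iff₀ hMR, one_mul]
    exact_mod_cast hMH
  calc (A.card : ℝ) ≤ ((2 * H / M + 1 : ℕ) : ℝ) := by exact_mod_cast h1
    _ = ((2 * H / M : ℕ) : ℝ) + 1 := by push_cast; ring
    _ ≤ 2 * H / M + H / M := by linarith
    _ = 3 * H / M := by ring

/-- the box -/
noncomputable def bx (n H : ℕ) : Finset (Fin n → ℤ) :=
  Fintype.piFinset fun _ => Finset.Icc (-(H : ℤ)) H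

theorem mem_bx {n H : ℕ} {s : Fin n → ℤ} : s ∈ bx n H ↔ ∀ i, |s i| ≤ (H : ℤ) := by
  unfold bx
  rw [Fintype.mem_piFinset]
  simp only [Finset.mem_Icc, abs_le]

theorem card_Icc_le {H : ℕ} (hH : 1 ≤ H) : ((Finset.Icc (-(H : ℤ)) H).card : ℝ) ≤ 3 * H := by
  rw [Int.card_Icc]
  have : ((H : ℤ) + 1 - -(H : ℤ)).toNat = 2 * H + 1 := by omega
  rw [this]
  push_cast
  have : (1 : ℝ) ≤ H := by exact_mod_cast hH
  linarith

theorem card_bx {n H : ℕ} (hH : 1 ≤ H) : ((bx n H).card : ℝ) ≤ (3 * H) ^ n := by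
  unfold bx
  rw [Fintype.card_piFinset, Finset.prod_const, Finset.card_univ, Fintype.card_fin]
  push_cast
  exact pow_le_pow_left₀ (Nat.cast_nonneg _) (card_Icc_le hH) n

open Classical in
/-- centres in given residue classes -/
theorem card_E {n H q : ℕ} [NeZero q] (hqH : q ≤ H) (E : Set (Fin n → ZMod q)) :
    (((bx n H).filter fun s => (fun i => (s i : ZMod q)) ∈ E).card : ℝ) ≤
      E.ncard * (3 * H / q) ^ n := by
  have hq0 : 0 < q := Nat.pos_of_ne_zero (NeZero.ne q)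
  have hEf : E.Finite := Set.toFinite E
  set EF := hEf.toFinset with hEF
  have hcE : EF.card = E.ncard := (Set.ncard_eq_toFinset_card E hEf).symm
  let cl : ZMod q → Finset ℤ := fun a => (Finset.Icc (-(H : ℤ)) H).filter fun b => (b : ZMod q) = a
  have hcl : ∀ a, ((cl a).card : ℝ) ≤ 3 * H / q := by
    intro a
    refine card_class hq0 hqH _ ?_ ?_
    · intro b hb
      rw [Finset.mem_filter, Finset.mem_Icc] at hb
      exact abs_le.2 hb.1
    · intro b hb c hc
      rw [Finset.mem_filter] at hb hc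
      rw [← ZMod.intCast_zmod_eq_zero_iff_dvd]
      push_cast
      rw [hb.2, hc.2, sub_self]
  have hsub : ((bx n H).filter fun s => (fun i => (s i : ZMod q)) ∈ E) ⊆
      EF.biUnion fun e => Fintype.piFinset fun i => cl (e i) := by
    intro s hs
    rw [Finset.mem_filter, mem_bx] at hs
    rw [Finset.mem_biUnion]
    refine ⟨fun i => (s i : ZMod q), ?_, ?_⟩
    · rw [hEF, Set.Finite.mem_toFinset]
      exact hs.2
    · rw [Fintype.mem_piFinset]
      intro i
      rw [Finset.mem_filter, Finset.mem_Icc]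
      exact ⟨abs_le.1 (hs.1 i), rfl⟩
  have h1 := (Finset.card_le_card hsub).trans Finset.card_biUnion_le
  calc _ ≤ ((∑ e ∈ EF, (Fintype.piFinset fun i => cl (e i)).card : ℕ) : ℝ) := by exact_mod_cast h1
    _ = ∑ e ∈ EF, ∏ i, ((cl (e i)).card : ℝ) := by
        push_cast
        refine Finset.sum_congr rfl fun e _ => ?_
        rw [Fintype.card_piFinset]
        push_cast
        rfl
    _ ≤ ∑ e ∈ EF, (3 * H / q : ℝ) ^ n := by
        refine Finset.sum_le_sum fun e _ => ?_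
        calc _ ≤ ∏ i : Fin n, (3 * H / q : ℝ) :=
              Finset.prod_le_prod (fun i _ => Nat.cast_nonneg _) fun i _ => hcl _
          _ = _ := by rw [Finset.prod_const, Finset.card_univ, Fintype.card_fin]
    _ = _ := by rw [Finset.sum_const, nsmul_eq_mul, hcE]

/-- integers in given residue classes for two moduli -/
theorem card_two_one {H q q' : ℕ} [NeZero q] (hq' : 0 < q') (hcop : q.Coprime q')
    (hqH : q * q' ≤ H) (A : Finset ℤ) (hA : ∀ a ∈ A, |a| ≤ (H : ℤ))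
    (hR : ∀ a ∈ A, ∀ b ∈ A, (q : ℤ) ∣ a - b → (q' : ℤ) ∣ a - b) :
    (A.card : ℝ) ≤ 3 * H / q' := by
  classical
  have hq0 : 0 < q := Nat.pos_of_ne_zero (NeZero.ne q)
  have hqR : (0 : ℝ) < q := by exact_mod_cast hq0
  have hqR' : (0 : ℝ) < q' := by exact_mod_cast hq'
  have h1 : A ⊆ (Finset.univ : Finset (ZMod q)).biUnion fun a =>
      A.filter fun b : ℤ => (b : ZMod q) = a := by
    intro b hb
    rw [Finset.mem_biUnion]
    exact ⟨(b : ZMod q), Finset.mem_univ _, Finset.mem_filter.2 ⟨hb, rfl⟩⟩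
  have h2 : ∀ a : ZMod q, ((A.filter fun b : ℤ => (b : ZMod q) = a).card : ℝ) ≤
      3 * H / ((q * q' : ℕ) : ℝ) := by
    intro a
    refine card_class (Nat.mul_pos hq0 hq') hqH _ ?_ ?_
    · intro b hb
      exact hA b (Finset.mem_filter.1 hb).1
    · intro b hb c hc
      have hb' := Finset.mem_filter.1 hb
      have hc' := Finset.mem_filter.1 hc
      have h3 : (q : ℤ) ∣ b - c := by
        rw [← ZMod.intCast_zmod_eq_zero_iff_dvd]
        push_cast
        rw [hb'.2, hc'.2, sub_self]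
      have h4 := hR b hb'.1 c hc'.1 h3
      have h5 : IsCoprime (q : ℤ) (q' : ℤ) := Nat.isCoprime_iff_coprime.2 hcop
      have h6 := h5.mul_dvd h3 h4
      rw [Nat.cast_mul]
      exact h6
  have h3 := (Finset.card_le_card h1).trans Finset.card_biUnion_le
  have h4 : (A.card : ℝ) ≤
      ((∑ a : ZMod q, (A.filter fun b : ℤ => (b : ZMod q) = a).card : ℕ) : ℝ) := by
    exact_mod_cast h3
  have h5 : ((∑ a : ZMod q, (A.filter fun b : ℤ => (b : ZMod q) = a).card : ℕ) : ℝ) ≤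
      ∑ a : ZMod q, (3 * H / ((q * q' : ℕ) : ℝ) : ℝ) := by
    rw [Nat.cast_sum]
    exact Finset.sum_le_sum fun a _ => h2 a
  have h6 : (∑ a : ZMod q, (3 * H / ((q * q' : ℕ) : ℝ) : ℝ)) = 3 * H / q' := by
    rw [Finset.sum_const, Finset.card_univ, ZMod.card, nsmul_eq_mul, Nat.cast_mul]
    field_simp
  linarith

open Classical in
/-- centres with one coordinate in given residue classes for two moduli -/
theorem card_two {n H q q' : ℕ} [NeZero q] (hq' : 0 < q') (hcop : q.Coprime q') (hqH : q * q' ≤ H)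
    (hH : 1 ≤ H) (i : Fin n) (R : ℤ → Prop)
    (hR : ∀ a b : ℤ, R a → R b → (q : ℤ) ∣ a - b → (q' : ℤ) ∣ a - b) :
    (((bx n H).filter fun s => R (s i)).card : ℝ) ≤ (3 * H) ^ n / q' := by
  obtain ⟨A, hAdef⟩ : ∃ A : Finset ℤ, ∀ a, a ∈ A ↔ (|a| ≤ (H : ℤ) ∧ R a) := by
    refine ⟨(Finset.Icc (-(H : ℤ)) H).filter fun a => R a, fun a => ?_⟩
    rw [Finset.mem_filter, Finset.mem_Icc, abs_le]
  have hAc : (A.card : ℝ) ≤ 3 * H / q' :=
    card_two_one hq' hcop hqH A (fun a ha => ((hAdef a).1 ha).1)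
      fun a ha b hb h => hR a b ((hAdef a).1 ha).2 ((hAdef b).1 hb).2 h
  have hsub : ((bx n H).filter fun s => R (s i)) ⊆
      Fintype.piFinset (Function.update (fun _ => Finset.Icc (-(H : ℤ)) H) i A) := by
    intro s hs
    have hs' := Finset.mem_filter.1 hs
    have hs1 := mem_bx.1 hs'.1
    rw [Fintype.mem_piFinset]
    intro j
    by_cases hj : j = i
    · subst hj
      rw [Function.update_self]
      exact (hAdef _).2 ⟨hs1 j, hs'.2⟩
    · rw [Function.update_of_ne hj, Finset.mem_Icc]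
      exact abs_le.1 (hs1 j)
  have h1 := Finset.card_le_card hsub
  have e : (Fintype.piFinset (Function.update (fun _ => Finset.Icc (-(H : ℤ)) H) i A)).card =
      A.card * (Finset.Icc (-(H : ℤ)) H).card ^ (n - 1) := by
    rw [Fintype.card_piFinset]
    have e2 : ∀ j, (Function.update (fun _ => Finset.Icc (-(H : ℤ)) H) i A j).card =
        Function.update (fun _ => (Finset.Icc (-(H : ℤ)) H).card) i A.card j := by
      intro j
      by_cases hj : j = i
      · subst hj; simp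
      · simp [hj]
    simp only [e2]
    rw [Finset.prod_update_of_mem (Finset.mem_univ i), Finset.prod_const, Finset.card_sdiff_of_subset
      (by simp), Finset.card_univ, Fintype.card_fin, Finset.card_singleton]
  rw [e] at h1
  have hn : n - 1 + 1 = n := Nat.sub_add_cancel (Fin.pos i)
  have h2 : (((bx n H).filter fun s => R (s i)).card : ℝ) ≤
      (A.card : ℝ) * ((Finset.Icc (-(H : ℤ)) H).card : ℝ) ^ (n - 1) := by
    exact_mod_cast h1
  have h3 : (A.card : ℝ) * ((Finset.Icc (-(H : ℤ)) H).card : ℝ) ^ (n - 1) ≤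
      (3 * (H : ℝ) / q') * (3 * (H : ℝ)) ^ (n - 1) :=
    mul_le_mul hAc (pow_le_pow_left₀ (Nat.cast_nonneg _) (card_Icc_le hH) _)
      (by positivity) (by positivity)
  have h4 : (3 * (H : ℝ) / q') * (3 * (H : ℝ)) ^ (n - 1) = (3 * (H : ℝ)) ^ n / q' := by
    conv_rhs => rw [← hn, pow_succ]
    ring
  linarith

/-- there are `n + 1` distinct common good primes -/
def PP {n : ℕ} {Z : Type} (E : ∀ p : ℕ, Set (Fin n → ZMod p)) (Γ : ∀ p : ℕ, ZMod p → Set Z)
    (B : ℕ) (s : Fin n → ℤ) (t : ℕ) : Prop :=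
  ∃ f : Fin (n + 1) → ℕ, Function.Injective f ∧
    (∀ l, (f l).Prime ∧ 3 < f l ∧ B < f l ∧ f l ∣ t ∧ (fun i => (s i : ZMod (f l))) ∉ E (f l)) ∧
    ∀ l l', l ≠ l' → ∀ i z, z ∈ Γ (f l) (s i : ZMod (f l)) → z ∉ Γ (f l') (s i : ZMod (f l'))

theorem PP_anti {n : ℕ} {Z : Type} {E : ∀ p : ℕ, Set (Fin n → ZMod p)} {Γ : ∀ p : ℕ, ZMod p → Set Z}
    {B B' : ℕ} (hB : B ≤ B') {s : Fin n → ℤ} {t : ℕ} (h : PP E Γ B' s t) : PP E Γ B s t := by
  obtain ⟨f, h1, h2, h3⟩ := h
  refine ⟨f, h1, fun l => ?_, h3⟩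
  obtain ⟨a1, a2, a3, a4, a5⟩ := h2 l
  exact ⟨a1, a2, lt_of_le_of_lt hB a3, a4, a5⟩

open Classical in
theorem card_good {n H B t : ℕ} (hB : 0 < B) {Z : Type} (E : ∀ p : ℕ, Set (Fin n → ZMod p))
    (Γ : ∀ p : ℕ, ZMod p → Set Z) {η : ℝ}
    (hΓ1 : ∀ p, p.Prime → 3 < p → ∀ a, (Γ p a).Subsingleton)
    (hΓ2 : ∀ p, p.Prime → 3 < p → ∀ a b z, z ∈ Γ p a → z ∈ Γ p b → a = b)
    (ht : 0 < t) (htH : t ≤ H) (f : Fin (n + 1) → ℕ) (hf : Function.Injective f)
    (hp : ∀ l, (f l).Prime ∧ 3 < f l ∧ B < f l ∧ f l ∣ t)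
    (hE : ∀ l, ((E (f l)).ncard : ℝ) ≤ η * (f l : ℝ) ^ n) :
    (((bx n H).filter fun s => ¬ PP E Γ B s t).card : ℝ) ≤
      ((n + 1) * η + (n + 1) * (n + 1) * n / B) * (3 * H) ^ n := by
  have hH : 1 ≤ H := by omega
  have hBR : (0 : ℝ) < B := by exact_mod_cast hB
  let S1 : Fin (n + 1) → Finset (Fin n → ℤ) := fun l =>
    (bx n H).filter fun s => (fun i => (s i : ZMod (f l))) ∈ E (f l)
  let S2 : Fin (n + 1) × Fin (n + 1) × Fin n → Finset (Fin n → ℤ) := fun x =>
    if x.1 = x.2.1 then ∅ else (bx n H).filter fun s => (fun a : ℤ => ∃ z,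
      z ∈ Γ (f x.1) (a : ZMod (f x.1)) ∧ z ∈ Γ (f x.2.1) (a : ZMod (f x.2.1))) (s x.2.2)
  have hsub : ((bx n H).filter fun s => ¬ PP E Γ B s t) ⊆
      (Finset.univ.biUnion S1) ∪ (Finset.univ.biUnion S2) := by
    intro s hs
    obtain ⟨hs1, hs2⟩ := Finset.mem_filter.1 hs
    by_contra hcon
    rw [Finset.mem_union, not_or, Finset.mem_biUnion, Finset.mem_biUnion] at hcon
    obtain ⟨hc1, hc2⟩ := hcon
    push Not at hc1 hc2
    apply hs2
    refine ⟨f, hf, fun l => ?_, fun l l' hll i z hz hz' => ?_⟩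
    · obtain ⟨a1, a2, a3, a4⟩ := hp l
      refine ⟨a1, a2, a3, a4, fun h => ?_⟩
      exact hc1 l (Finset.mem_univ _) (Finset.mem_filter.2 ⟨hs1, h⟩)
    · refine hc2 ⟨l, l', i⟩ (Finset.mem_univ _) ?_
      show s ∈ if l = l' then ∅ else _
      rw [if_neg hll]
      exact Finset.mem_filter.2 ⟨hs1, z, hz, hz'⟩
  have hS1 : ∀ l, ((S1 l).card : ℝ) ≤ η * (3 * H) ^ n := by
    intro l
    obtain ⟨a1, a2, a3, a4⟩ := hp l
    have : NeZero (f l) := ⟨a1.ne_zero⟩
    have hfR : (0 : ℝ) < f l := by exact_mod_cast a1.pos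
    have h1 := card_E (H := H) ((Nat.le_of_dvd ht a4).trans htH) (E (f l))
    refine h1.trans ?_
    calc ((E (f l)).ncard : ℝ) * (3 * H / (f l : ℝ)) ^ n ≤
        (η * (f l : ℝ) ^ n) * (3 * H / (f l : ℝ)) ^ n :=
          mul_le_mul_of_nonneg_right (hE l) (by positivity)
      _ = η * (3 * H) ^ n := by
          rw [div_pow]
          field_simp
  have hS2 : ∀ x, ((S2 x).card : ℝ) ≤ (3 * H) ^ n / B := by
    rintro ⟨l, l', i⟩
    show (((if l = l' then ∅ else _ : Finset (Fin n → ℤ)).card : ℕ) : ℝ) ≤ _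
    split_ifs with hll
    · rw [Finset.card_empty, Nat.cast_zero]
      positivity
    · obtain ⟨a1, a2, a3, a4⟩ := hp l
      obtain ⟨b1, b2, b3, b4⟩ := hp l'
      have : NeZero (f l) := ⟨a1.ne_zero⟩
      have hcop : (f l).Coprime (f l') := (Nat.coprime_primes a1 b1).2 fun h => hll (hf h)
      have hqH : f l * f l' ≤ H := (Nat.le_of_dvd ht (hcop.mul_dvd_of_dvd_of_dvd a4 b4)).trans htH
      have h1 := card_two (H := H) b1.pos hcop hqH hH i
        (fun a : ℤ => ∃ z, z ∈ Γ (f l) (a : ZMod (f l)) ∧ z ∈ Γ (f l') (a : ZMod (f l'))) ?_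
      · refine h1.trans ?_
        apply div_le_div_of_nonneg_left (by positivity) hBR
        exact_mod_cast b3.le
      · rintro a b ⟨z, hz1, hz2⟩ ⟨w, hw1, hw2⟩ hd
        have e1 : ((a : ℤ) : ZMod (f l)) = (b : ZMod (f l)) := by
          rw [← sub_eq_zero, ← Int.cast_sub]
          exact (ZMod.intCast_zmod_eq_zero_iff_dvd _ _).2 hd
        rw [← e1] at hw1
        have e2 := hΓ1 _ a1 a2 _ hz1 hw1
        rw [← e2] at hw2
        have e3 := hΓ2 _ b1 b2 _ _ _ hz2 hw2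
        rw [← ZMod.intCast_zmod_eq_zero_iff_dvd, Int.cast_sub, sub_eq_zero]
        exact e3
  have hc : (((bx n H).filter fun s => ¬ PP E Γ B s t).card : ℝ) ≤
      (∑ l, (S1 l).card : ℕ) + (∑ x, (S2 x).card : ℕ) := by
    have h1 := (Finset.card_le_card hsub).trans ((Finset.card_union_le _ _).trans
      (Nat.add_le_add Finset.card_biUnion_le Finset.card_biUnion_le))
    exact_mod_cast h1
  have h1 : ((∑ l, (S1 l).card : ℕ) : ℝ) ≤ (n + 1) * (η * (3 * H) ^ n) := by
    rw [Nat.cast_sum]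
    refine (Finset.sum_le_sum fun l _ => hS1 l).trans (le_of_eq ?_)
    rw [Finset.sum_const, Finset.card_univ, Fintype.card_fin, nsmul_eq_mul]
    push_cast
    rfl
  have h2 : ((∑ x, (S2 x).card : ℕ) : ℝ) ≤ ((n + 1) * (n + 1) * n) * ((3 * H) ^ n / B) := by
    rw [Nat.cast_sum]
    refine (Finset.sum_le_sum fun l _ => hS2 l).trans (le_of_eq ?_)
    rw [Finset.sum_const, Finset.card_univ, Fintype.card_prod, Fintype.card_prod, Fintype.card_fin,
      Fintype.card_fin, nsmul_eq_mul]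
    push_cast
    ring
  refine (hc.trans (add_le_add h1 h2)).trans (le_of_eq ?_)
  ring

end Pool.Agent.H882
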