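import Pool.Agent.H882.CenCls

/-!
Isogenous singular moduli with endomorphisms of the same prime degree.
-/

set_option autoImplicit false

namespace Pool.Agent.H882

open UpperHalfPlane H294ZP Function Pool.Agent.N135.ZO

theorem SM_at {p : ℕ} {a : ℤ} {z : ℂ} (hz : z ∈ SM p a) {τ : ℍ} (hτ : jj τ = z) :
    ∃ M : M2, M.det = p ∧ M.trace = a ∧ Rel M τ τ := by
  obtain ⟨τ', M, hM, htr, hrel, hj⟩ := hz
  obtain ⟨γ, hγ, hγrel⟩ := Pool.Agent.N101.ZP.jj_inj (hj.trans hτ.symm)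
  refine ⟨γ * (M * γ.adjugate), ?_, ?_, ((rel_adj hγrel).mul hrel).mul hγrel⟩
  · rw [det_mul', det_mul', det_adj, hγ, hM, one_mul, mul_one]
  · rw [Matrix.trace_mul_comm, mul_assoc, Matrix.adjugate_mul, hγ, one_smul, mul_one, htr]

theorem quad_prop {τ : ℍ} {A B C A' B' C' : ℤ} (h : (A : ℂ) * (τ : ℂ) ^ 2 + B * τ + C = 0)
    (h' : (A' : ℂ) * (τ : ℂ) ^ 2 + B' * τ + C' = 0) : A' * B = A * B' ∧ A' * C = A * C' := by
  have h1 : ((A' * B - A * B' : ℤ) : ℂ) * τ + ((A' * C - A * C' : ℤ) : ℂ) = 0 := by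
    push_cast
    linear_combination (A' : ℂ) * h - (A : ℂ) * h'
  have him := congrArg Complex.im h1
  simp only [Complex.add_im, Complex.mul_im, Complex.intCast_re, Complex.intCast_im, zero_mul,
    add_zero, Complex.zero_im] at him
  have hτ : (τ : ℂ).im ≠ 0 := τ.im_ne_zero
  have h2 : ((A' * B - A * B' : ℤ) : ℝ) = 0 := by
    rcases mul_eq_zero.1 him with h | h
    · exact h
    · exact absurd h hτ
  have h3 : A' * B - A * B' = 0 := by exact_mod_cast h2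
  rw [h3, Int.cast_zero, zero_mul, zero_add] at h1
  have h4 : A' * C - A * C' = 0 := by exact_mod_cast h1
  exact ⟨by linarith, by linarith⟩

/-- isogenous singular moduli -/
theorem sq_of_isog {p : ℕ} (hp : p.Prime) {a a' : ℤ} {z z' : ℂ} (hz : z ∈ SM p a)
    (hz' : z' ∈ SM p a') (h : Isog z z') :
    ∃ Z : ℤ, Z ^ 2 = (4 * p - a ^ 2) * (4 * p - a' ^ 2) := by
  obtain ⟨g, τ, w, hg, hrel, hτ, hw⟩ := h
  obtain ⟨M, hM, htr, hMrel⟩ := SM_at hz hτ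
  obtain ⟨M', hM', htr', hMrel'⟩ := SM_at hz' hw
  set T : M2 := g.adjugate * (M' * g) with hT
  have hTrel : Rel T τ τ := (hrel.mul hMrel').mul (rel_adj hrel)
  have hTdet : T.det = g.det ^ 2 * p := by
    rw [hT, det_mul', det_mul', det_adj, hM']
    ring
  have hTtr : T.trace = g.det * a' := by
    rw [hT, Matrix.trace_mul_comm, mul_assoc, Matrix.mul_adjugate, Matrix.mul_smul, mul_one,
      Matrix.trace_smul, htr', smul_eq_mul]
  have hA0 := rel_ne hp hM hMrel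
  have h1 := rel_quad hMrel
  have h2 := rel_quad hTrel
  obtain ⟨e1, e2⟩ := quad_prop h1 h2
  have hpos := trace_sq_lt hp hM hMrel
  rw [htr] at hpos
  have d1 : (M 1 1 - M 0 0) ^ 2 - 4 * M 1 0 * (-M 0 1) = a ^ 2 - 4 * p := by
    rw [det_eq] at hM
    rw [Matrix.trace_fin_two] at htr
    rw [← htr]
    linear_combination (-4) * hM
  have d2 : (T 1 1 - T 0 0) ^ 2 - 4 * T 1 0 * (-T 0 1) = g.det ^ 2 * (a' ^ 2 - 4 * p) := by
    rw [det_eq] at hTdet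
    rw [Matrix.trace_fin_two] at hTtr
    have : g.det ^ 2 * (a' ^ 2 - 4 * p) = (g.det * a') ^ 2 - 4 * (g.det ^ 2 * p) := by ring
    rw [this, ← hTtr, ← hTdet]
    ring
  set A := M 1 0 with hA
  set D := g.det with hD
  have key : A ^ 2 * (D ^ 2 * (a' ^ 2 - 4 * p)) = T 1 0 ^ 2 * (a ^ 2 - 4 * p) := by
    rw [← d1, ← d2]
    linear_combination (-(A * (T 1 1 - T 0 0) + T 1 0 * (M 1 1 - M 0 0))) * e1 +
      (4 * A * T 1 0) * e2
  have hAD : A * D ≠ 0 := mul_ne_zero hA0 hg.ne'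
  have key2 : (4 * p - a ^ 2) * (4 * p - a' ^ 2) * (A * D) ^ 2 = (T 1 0 * (4 * p - a ^ 2)) ^ 2 := by
    linear_combination (-(4 * (p : ℤ) - a ^ 2)) * key
  have hdvd : (A * D) ^ 2 ∣ (T 1 0 * (4 * p - a ^ 2)) ^ 2 := Dvd.intro_left _ key2
  rw [Int.pow_dvd_pow_iff two_ne_zero] at hdvd
  obtain ⟨Z, hZ⟩ := hdvd
  refine ⟨Z, ?_⟩
  rw [hZ] at key2
  have h3 : (A * D) ^ 2 * ((4 * p - a ^ 2) * (4 * p - a' ^ 2)) = (A * D) ^ 2 * Z ^ 2 := by
    linear_combination key2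
  exact (mul_left_cancel₀ (pow_ne_zero 2 hAD) h3).symm

/-- There are at most eighteen traces which belong to the same field. -/
theorem few_traces {p : ℕ} (hp : p.Prime) (a : ℤ) : ∃ F : Finset ℤ, F.card ≤ 18 ∧
    ∀ a' : ℤ, a ^ 2 < 4 * p → a' ^ 2 < 4 * p →
      (∃ Z : ℤ, Z ^ 2 = (4 * p - a ^ 2) * (4 * p - a' ^ 2)) → a' ∈ F := by
  classical
  have hF : ∀ k : ℤ, ∃ F : Finset ℤ, F.card ≤ 2 ∧ ∀ a' : ℤ,
      4 * a' ^ 2 - 2 * k * a * a' + (4 * a ^ 2 + (k ^ 2 - 16) * p) = 0 → a' ∈ F := by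
    intro k
    by_cases hr : ∃ r : ℤ, 4 * r ^ 2 - 2 * k * a * r + (4 * a ^ 2 + (k ^ 2 - 16) * p) = 0
    · obtain ⟨r, hr⟩ := hr
      refine ⟨{r, (k * a - 2 * r) / 2}, Finset.card_le_two, fun a' ha' => ?_⟩
      rw [Finset.mem_insert, Finset.mem_singleton]
      by_cases h : a' = r
      · exact Or.inl h
      · right
        have h1 : (a' - r) * (2 * (2 * (a' + r) - k * a)) = 0 := by linear_combination ha' - hr
        rcases mul_eq_zero.1 h1 with h2 | h2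
        · exact absurd (sub_eq_zero.1 h2) h
        · have h3 : k * a - 2 * r = 2 * a' := by linarith
          rw [h3, Int.mul_ediv_cancel_left _ two_ne_zero]
    · exact ⟨∅, by simp, fun a' ha' => absurd ⟨a', ha'⟩ hr⟩
  choose F hF1 hF2 using hF
  refine ⟨(Finset.Icc (-4 : ℤ) 4).biUnion F, ?_, ?_⟩
  · refine (Finset.card_biUnion_le).trans ?_
    calc ∑ k ∈ Finset.Icc (-4 : ℤ) 4, (F k).card ≤ ∑ k ∈ Finset.Icc (-4 : ℤ) 4, 2 :=
          Finset.sum_le_sum fun k _ => hF1 k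
      _ = 18 := by simp
  · rintro a' ha ha' ⟨Z, hZ⟩
    have hpZ : Prime (p : ℤ) := Nat.prime_iff_prime_int.1 hp
    have hp0 : (p : ℤ) ≠ 0 := hpZ.ne_zero
    have hppos : (0 : ℤ) < p := by exact_mod_cast hp.pos
    have h1 : (a * a' + Z) * (a * a' - Z) = p * (4 * (a ^ 2 + a' ^ 2 - 4 * p)) := by
      linear_combination -hZ
    have h2 : ∃ Z' : ℤ, Z' ^ 2 = (4 * p - a ^ 2) * (4 * p - a' ^ 2) ∧ (p : ℤ) ∣ a * a' + Z' := by
      rcases hpZ.dvd_or_dvd ⟨_, h1⟩ with h | h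
      · exact ⟨Z, hZ, h⟩
      · exact ⟨-Z, by rw [neg_sq, hZ], by rwa [← sub_eq_add_neg]⟩
    obtain ⟨Z', hZ', k, hk⟩ := h2
    have hS : 0 ≤ a ^ 2 * (4 * p - a' ^ 2) + a' ^ 2 * (4 * p - a ^ 2) := by
      have e1 : 0 ≤ a ^ 2 * (4 * p - a' ^ 2) := mul_nonneg (sq_nonneg _) (by linarith)
      have e2 : 0 ≤ a' ^ 2 * (4 * p - a ^ 2) := mul_nonneg (sq_nonneg _) (by linarith)
      linarith
    have hT : (2 * a * a' * Z') ^ 2 ≤ (a ^ 2 * (4 * p - a' ^ 2) + a' ^ 2 * (4 * p - a ^ 2)) ^ 2 := by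
      have e : (2 * a * a' * Z') ^ 2 = 4 * a ^ 2 * a' ^ 2 * ((4 * p - a ^ 2) * (4 * p - a' ^ 2)) := by
        rw [← hZ']
        ring
      rw [e]
      nlinarith [sq_nonneg (a ^ 2 * (4 * p - a' ^ 2) - a' ^ 2 * (4 * p - a ^ 2))]
    have hTS : 2 * a * a' * Z' ≤ a ^ 2 * (4 * p - a' ^ 2) + a' ^ 2 * (4 * p - a ^ 2) :=
      (le_abs_self _).trans (abs_le_of_sq_le_sq hT hS)
    have hW : (k * p) ^ 2 ≤ 16 * (p : ℤ) ^ 2 := by
      have e : (k * p) ^ 2 = (a * a' + Z') ^ 2 := by rw [hk]; ring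
      rw [e]
      nlinarith
    have hk2 : k ^ 2 ≤ 16 := by
      have e : k ^ 2 * (p : ℤ) ^ 2 ≤ 16 * (p : ℤ) ^ 2 := by
        calc _ = (k * p) ^ 2 := by ring
          _ ≤ _ := hW
      exact le_of_mul_le_mul_right e (by positivity)
    have hk4 : -4 ≤ k ∧ k ≤ 4 := by
      constructor <;> nlinarith
    rw [Finset.mem_biUnion]
    refine ⟨k, Finset.mem_Icc.2 hk4, hF2 k a' ?_⟩
    have e1 : Z' = p * k - a * a' := by linarith
    rw [e1] at hZ'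
    have e2 : (p : ℤ) * (4 * a' ^ 2 - 2 * k * a * a' + (4 * a ^ 2 + (k ^ 2 - 16) * p)) = 0 := by
      linear_combination hZ'
    exact (mul_eq_zero.1 e2).resolve_left hp0

end Pool.Agent.H882
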