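import Pool.Agent.H882.CenGlob
import Pool.Agent.H882.CenIso

/-!
The exceptional residue classes of centres modulo `p`.
-/

set_option autoImplicit false

namespace Pool.Agent.H882

open UpperHalfPlane H294ZP Function Pool.Agent.N135.ZO NumberField IsDedekindDomain
open Pool.Agent.Y226

theorem isCM_of_fix {p : ℕ} (hp : p.Prime) {M : M2} {τ : ℍ} (hM : M.det = p) (h : Rel M τ τ) :
    IsCM τ := ⟨M 1 0, M 1 1 - M 0 0, -M 0 1, rel_ne hp hM h, rel_quad h⟩

theorem ordAt_of_trace {p : ℕ} (hp : p.Prime) (hp3 : 3 < p) {M : M2} {τ : ℍ} (hM : M.det = p)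
    (h : Rel M τ τ) (htr : M.trace ≠ 0) : OrdAt p τ := by
  refine ⟨1, M, one_pos, by rw [hM, pow_one], ?_, ?_⟩
  · intro hdvd
    have h1 := trace_sq_lt hp hM h
    obtain ⟨k, hk⟩ := hdvd
    have hk0 : k ≠ 0 := by
      rintro rfl
      rw [mul_zero] at hk
      exact htr hk
    have hk1 : 1 ≤ k ^ 2 := by
      have := sq_nonneg k
      have h2 : k ^ 2 ≠ 0 := pow_ne_zero 2 hk0
      omega
    have hp3' : (3 : ℤ) < p := by exact_mod_cast hp3
    rw [hk] at h1
    have e1 : 0 ≤ (p : ℤ) ^ 2 * (k ^ 2 - 1) := mul_nonneg (sq_nonneg _) (by linarith)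
    have e2 : 0 ≤ (p : ℤ) * ((p : ℤ) - 4) := mul_nonneg (by linarith) (by linarith)
    nlinarith
  · exact h

theorem count_coord {n q : ℕ} [NeZero q] (k : Fin n) (g : (Fin n → ZMod q) → Finset (ZMod q))
    (hg : ∀ s b, g (Function.update s k b) = g s) (H : ℕ) (hH : ∀ s, (g s).card ≤ H) :
    (Finset.univ.filter fun s : Fin n → ZMod q => s k ∈ g s).card ≤ H * q ^ (n - 1) := by
  classical
  set f : (Fin n → ZMod q) → (Fin n → ZMod q) := fun s => Function.update s k 0 with hf
  have h1 := Finset.card_le_mul_card_image (f := f)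
    (Finset.univ.filter fun s : Fin n → ZMod q => s k ∈ g s) H ?_
  · refine h1.trans (Nat.mul_le_mul_left _ ?_)
    have h2 : ((Finset.univ.filter fun s : Fin n → ZMod q => s k ∈ g s).image f) ⊆
        Fintype.piFinset (Function.update (fun _ : Fin n => (Finset.univ : Finset (ZMod q))) k {0}) := by
      intro s hs
      obtain ⟨s', -, rfl⟩ := Finset.mem_image.1 hs
      rw [Fintype.mem_piFinset]
      intro i
      by_cases hi : i = k
      · subst hi
        simp [hf]
      · simp [hf, hi]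
    refine (Finset.card_le_card h2).trans ?_
    rw [Fintype.card_piFinset]
    have e2 : ∀ j, (Function.update (fun _ : Fin n => (Finset.univ : Finset (ZMod q))) k {0} j).card =
        Function.update (fun _ : Fin n => q) k 1 j := by
      intro j
      by_cases hj : j = k
      · subst hj; simp
      · simp [hj, ZMod.card]
    simp only [e2]
    rw [Finset.prod_update_of_mem (Finset.mem_univ k), Finset.prod_const, Finset.card_sdiff_of_subset
      (by simp), Finset.card_univ, Fintype.card_fin, Finset.card_singleton, one_mul]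
  · intro a ha
    obtain ⟨s₀, hs₀, rfl⟩ := Finset.mem_image.1 ha
    refine (Finset.card_le_card_of_injOn (fun s => s k) (t := g s₀) ?_ ?_).trans (hH s₀)
    · intro s hs
      rw [Finset.mem_coe, Finset.mem_filter, Finset.mem_filter] at hs
      obtain ⟨⟨-, h3⟩, h4⟩ := hs
      have h5 : g s = g s₀ := by
        rw [← hg s 0, ← hg s₀ 0]
        exact congrArg g h4
      rw [Finset.mem_coe, ← h5]
      exact h3
    · intro s hs s' hs' h
      rw [Finset.mem_coe, Finset.mem_filter] at hs hs'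
      have h6 : f s = f s' := hs.2.trans hs'.2.symm
      funext i
      by_cases hi : i = k
      · subst hi
        exact h
      · have := congrFun h6 i
        simpa [hf, hi] using this

section C

variable {C : Type} [NormedField C] [IsUltrametricDist C]

theorem dvd_of_norm {p : ℕ} (hp : p.Prime) (hp1 : ‖(p : C)‖ < 1) {k : ℤ} (h : ‖(k : C)‖ < 1) :
    (p : ℤ) ∣ k := by
  by_contra hcon
  have hpZ : Prime (p : ℤ) := Nat.prime_iff_prime_int.1 hp
  obtain ⟨u, v, huv⟩ := (hpZ.coprime_iff_not_dvd.2 hcon)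
  have h1 : (u : C) * (p : C) + (v : C) * (k : C) = 1 := by
    exact_mod_cast congrArg (fun t : ℤ => (t : C)) huv
  have h2 : ‖(u : C) * (p : C) + (v : C) * (k : C)‖ < 1 := by
    refine nadd_lt ?_ ?_
    · rw [norm_mul]
      calc _ ≤ 1 * ‖(p : C)‖ := mul_le_mul_of_nonneg_right
            (IsUltrametricDist.norm_intCast_le_one C u) (norm_nonneg _)
        _ < 1 := by rw [one_mul]; exact hp1
    · rw [norm_mul]
      calc _ ≤ 1 * ‖(k : C)‖ := mul_le_mul_of_nonneg_right
            (IsUltrametricDist.norm_intCast_le_one C v) (norm_nonneg _)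
        _ < 1 := by rw [one_mul]; exact h
  rw [h1, norm_one] at h2
  exact lt_irrefl _ h2

theorem norm_le_p {p : ℕ} {k : ℤ} (h : (p : ℤ) ∣ k) : ‖(k : C)‖ ≤ ‖(p : C)‖ := by
  obtain ⟨z, rfl⟩ := h
  push_cast
  rw [norm_mul]
  calc _ ≤ ‖(p : C)‖ * 1 := mul_le_mul_of_nonneg_left
        (IsUltrametricDist.norm_intCast_le_one C z) (norm_nonneg _)
    _ = _ := mul_one _

end C

/-- integral at `p` -/
def PI {K : Type} [Field K] (p : ℕ) (b : K) : Prop := ∃ N : ℕ, ¬ p ∣ N ∧ IsIntegral ℤ ((N : K) * b)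

theorem norm_of_PI {C : Type} [NormedField C] [IsUltrametricDist C] {p : ℕ} (hp : p.Prime)
    (hp1 : ‖(p : C)‖ < 1) {K : Type} [Field K] (χ : K →+* C) {b : K} (h : PI p b) : ‖χ b‖ ≤ 1 := by
  obtain ⟨N, hN, hint⟩ := h
  have h1 : ‖(N : C)‖ = 1 := by
    refine le_antisymm (by simpa using IsUltrametricDist.norm_intCast_le_one C (N : ℤ)) ?_
    by_contra hcon
    push Not at hcon
    have h2 : ‖(((N : ℕ) : ℤ) : C)‖ < 1 := by simpa using hcon
    have h3 := dvd_of_norm hp hp1 h2
    exact hN (by exact_mod_cast h3)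
  have h2 : IsIntegral ℤ (χ ((N : K) * b)) := hint.map χ.toIntAlgHom
  have h3 : ‖χ ((N : K) * b)‖ ≤ 1 := by
    have := norm_le_one_of_isIntegral (RingHom.id C) h2
    simpa using this
  rw [map_mul, map_natCast, norm_mul, h1, one_mul] at h3
  exact h3

/-- Everything about one prime. -/
theorem local_data (n : ℕ) {p : ℕ} (hp : p.Prime) (hp3 : 3 < p) :
    ∃ (E : Set (Fin n → ZMod p)) (Γ : ZMod p → Set ℂ),
      (∀ a, (Γ a).Subsingleton ∧ ∀ z ∈ Γ a, ∃ τ : ℍ, IsCM τ ∧ jj τ = z) ∧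
      (∀ z a b, z ∈ Γ a → z ∈ Γ b → a = b) ∧
      (∀ H : ℕ, (∀ a, (SM p a).ncard ≤ H) →
        E.ncard ≤ (n * (H + 2) + n * n * (18 * H)) * p ^ (n - 1)) ∧
      ∀ (K : Type) [Field K] [NumberField K] (σ : K →+* ℂ) (m : ℕ) (y : Fin n → ℂ),
        (∀ J : Finset (Fin n), J.card = m + 1 → ∃ (F : MvPolynomial (Fin n) K) (d : Fin n →₀ ℕ),
          (∀ u ∈ F.support, u ≤ d) ∧ d.support ⊆ J ∧ F.coeff d ≠ 0 ∧
          (∀ u, PI p (F.coeff u)) ∧ PI p (F.coeff d)⁻¹ ∧ MvPolynomial.eval₂ σ y F = 0) →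
        ∀ (s : Fin n → ℤ), (fun i => (s i : ZMod p)) ∉ E → ∀ (lam : Fin n → 𝓞 K),
        (∀ i, (p : 𝓞 K) ∣ lam i) → ∀ (r : ℕ) (Z : SpecialDatum n r) (x : Fin n → ℂ),
        x ∈ Z.locus → (∀ i, x i = (s i : ℂ) + σ (lam i) * y i) → ∀ (I W : Finset (Fin n)),
        AlgebraicIndependent ℚ (fun i : W => x i) → (∀ i ∈ I, x i ∉ Γ (s i)) →
        I.card + W.card ≤ m + r := by
  classical
  have hpf : Fact p.Prime := ⟨hp⟩
  have hp2 : p ≠ 2 := by omega
  obtain ⟨C, _, _, _, _, _, φ₀, hpC⟩ := exists_padic p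
  have hp1 : ‖(p : C)‖ < 1 := by
    rw [hpC]
    exact inv_lt_one_of_one_lt₀ (by exact_mod_cast hp.one_lt)
  have hp0 : 0 < ‖(p : C)‖ := by
    rw [hpC]
    exact inv_pos.2 (by exact_mod_cast hp.pos)
  have hpQ : 1 < ‖φ₀ ((p : QA)⁻¹)‖ := by
    rw [map_inv₀, map_natCast, norm_inv]
    exact (one_lt_inv₀ hp0).2 hp1
  obtain ⟨Ψ, -, -⟩ := exists_ext φ₀ ((p : QA)⁻¹) hpQ (fun i : Empty => (0 : ℂ))
    (by
      rw [algebraicIndependent_empty_type_iff]
      exact (algebraMap QA ℂ).injective) 0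
  choose t M hM hrel hnear using fun a : ZMod p => exists_root hp hp2 hp1 Ψ (a.val : ℤ)
  obtain ⟨P⟩ := exists_pkg hp hp2
  -- integers
  have hval : ∀ (s : ℤ), (p : ℤ) ∣ s - ((s : ZMod p).val : ℤ) := by
    intro s
    rw [← ZMod.intCast_zmod_eq_zero_iff_dvd]
    push_cast
    rw [ZMod.natCast_zmod_val, sub_self]
  have heq : ∀ a b : ZMod p, ‖((a.val : ℤ) : C) - ((b.val : ℤ) : C)‖ < 1 → a = b := by
    intro a b h
    rw [← Int.cast_sub] at h
    have h1 := dvd_of_norm hp hp1 h
    rw [← ZMod.intCast_zmod_eq_zero_iff_dvd] at h1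
    push_cast at h1
    rw [ZMod.natCast_zmod_val, ZMod.natCast_zmod_val] at h1
    exact sub_eq_zero.1 h1
  have hnearZ : ∀ s : ℤ, ‖Ψ (jj (t (s : ZMod p))) - (s : C)‖ < 1 := by
    intro s
    have e : Ψ (jj (t (s : ZMod p))) - (s : C) = (Ψ (jj (t (s : ZMod p))) -
        (((s : ZMod p).val : ℤ) : C)) + -((s - ((s : ZMod p).val : ℤ) : ℤ) : C) := by
      push_cast
      ring
    rw [e]
    refine nadd_lt (hnear _) ?_
    rw [norm_neg]
    exact (norm_le_p (hval s)).trans_lt hp1
  have hinj : ∀ a b : ZMod p, jj (t a) = jj (t b) → a = b := by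
    intro a b h
    apply heq
    have e : ((a.val : ℤ) : C) - ((b.val : ℤ) : C) = -(Ψ (jj (t a)) - ((a.val : ℤ) : C)) +
        (Ψ (jj (t b)) - ((b.val : ℤ) : C)) := by
      rw [h]
      ring
    rw [e]
    refine nadd_lt ?_ (hnear b)
    rw [norm_neg]
    exact hnear a
  have hunit : ∀ (a : ZMod p) (k : ℤ), a ≠ (k : ZMod p) → ‖Ψ (jj (t a)) - (k : C)‖ = 1 := by
    intro a k hak
    refine le_antisymm ?_ ?_
    · refine nsub_le ?_ (IsUltrametricDist.norm_intCast_le_one C k)
      exact norm_le_one_of_isIntegral Ψ (singular_modulus_integral _ (isCM_of_fix hp (hM a) (hrel a)))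
    · by_contra hcon
      push Not at hcon
      have h1 : ‖(((a.val : ℤ) - k : ℤ) : C)‖ < 1 := by
        have e : (((a.val : ℤ) - k : ℤ) : C) = -(Ψ (jj (t a)) - ((a.val : ℤ) : C)) +
            (Ψ (jj (t a)) - (k : C)) := by
          push_cast
          ring
        rw [e]
        refine nadd_lt ?_ hcon
        rw [norm_neg]
        exact hnear a
      have h2 := dvd_of_norm hp hp1 h1
      rw [← ZMod.intCast_zmod_eq_zero_iff_dvd] at h2
      push_cast at h2
      rw [ZMod.natCast_zmod_val] at h2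
      exact hak (sub_eq_zero.1 h2)
  have hn0 : ∀ a : ZMod p, a ≠ 0 → ‖Ψ (jj (t a))‖ = 1 := by
    intro a ha
    have := hunit a 0 (by simpa using ha)
    simpa using this
  have hn1 : ∀ a : ZMod p, a ≠ 1728 → ‖Ψ (jj (t a) - 1728)‖ = 1 := by
    intro a ha
    have h1 := hunit a 1728 (by simpa using ha)
    have e : Ψ (jj (t a) - 1728) = Ψ (jj (t a)) - ((1728 : ℤ) : C) := by
      rw [map_sub]
      congr 1
      have := map_ofNat Ψ 1728
      simpa using this
    rw [e]
    exact h1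
  -- the exceptional classes
  set b1 : Finset (ZMod p) := Finset.univ.filter fun a => (M a).trace = 0 ∨ a = 0 ∨ a = 1728 with hb1
  set b2 : ZMod p → Finset (ZMod p) := fun a =>
    Finset.univ.filter fun b => Isog (jj (t a)) (jj (t b)) with hb2
  set E : Set (Fin n → ZMod p) := {s | (∃ i, s i ∈ b1) ∨ ∃ i k, i ≠ k ∧ s k ∈ b2 (s i)} with hE
  set Γ : ZMod p → Set ℂ := fun a => {z | a ∉ b1 ∧ (∃ τ : ℍ, IsCM τ ∧ jj τ = z) ∧
    ‖Ψ z - ((a.val : ℤ) : C)‖ ≤ ‖(p : C)‖} with hΓ
  refine ⟨E, Γ, fun a => ⟨?_, ?_⟩, ?_, ?_, ?_⟩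
  · rintro z ⟨ha, ⟨τ, hτ, rfl⟩, hz⟩ z' ⟨-, ⟨τ', hτ', rfl⟩, hz'⟩
    have ha' : (M a).trace ≠ 0 ∧ a ≠ 0 ∧ a ≠ 1728 := by
      rw [hb1, Finset.mem_filter] at ha
      push Not at ha
      exact ha (Finset.mem_univ a)
    have hrad : ∀ {u : C}, ‖u‖ ≤ ‖(p : C)‖ → ‖u‖ ^ (p - 1) < ‖(p : C)‖ := by
      intro u hu
      calc ‖u‖ ^ (p - 1) ≤ ‖(p : C)‖ ^ (p - 1) := pow_le_pow_left₀ (norm_nonneg _) hu _
        _ < ‖(p : C)‖ ^ 1 := pow_lt_pow_right_of_lt_one₀ hp0 hp1 (by omega)
        _ = _ := pow_one _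
    refine cm_unique hp hp2 hp1 P hτ hτ' (G0_of hp hp1 P Ψ (ordAt_of_trace hp hp3 (hM a) (hrel a)
      ha'.1) (hn0 a ha'.2.1) (hn1 a ha'.2.2)) (s := ((a.val : ℤ) : C)) ?_ (hrad hz) (hrad hz')
    rw [← norm_neg, neg_sub]
    exact hnear a
  · rintro z ⟨-, h, -⟩
    exact h
  · rintro z a b ⟨-, -, h1⟩ ⟨-, -, h2⟩
    apply heq
    have e : ((a.val : ℤ) : C) - ((b.val : ℤ) : C) = -(Ψ z - ((a.val : ℤ) : C)) +
        (Ψ z - ((b.val : ℤ) : C)) := by ring
    rw [e]
    refine nadd_lt ?_ (h2.trans_lt hp1)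
    rw [norm_neg]
    exact h1.trans_lt hp1
  · intro H hH
    have hb1c : b1.card ≤ H + 2 := by
      have h1 : b1 ⊆ (Finset.univ.filter fun a => (M a).trace = 0) ∪ {0, 1728} := by
        intro a ha
        rw [hb1, Finset.mem_filter] at ha
        rw [Finset.mem_union, Finset.mem_filter, Finset.mem_insert, Finset.mem_singleton]
        rcases ha.2 with h | h | h
        · exact Or.inl ⟨Finset.mem_univ a, h⟩
        · exact Or.inr (Or.inl h)
        · exact Or.inr (Or.inr h)
      refine (Finset.card_le_card h1).trans ((Finset.card_union_le _ _).trans ?_)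
      refine Nat.add_le_add ?_ Finset.card_le_two
      refine le_trans ?_ (hH 0)
      rw [← Set.ncard_coe_finset]
      refine Set.ncard_le_ncard_of_injOn (fun a => jj (t a)) ?_ ?_ (SM_card hp 0).1
      · intro a ha
        rw [Finset.mem_coe, Finset.mem_filter] at ha
        exact ⟨t a, M a, hM a, ha.2, hrel a, rfl⟩
      · intro a _ b _ h
        exact hinj a b h
    have hb2c : ∀ a, (b2 a).card ≤ 18 * H := by
      intro a
      obtain ⟨F, hF1, hF2⟩ := few_traces hp (M a).trace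
      have h1 : (b2 a).card ≤ (⋃ a' ∈ F, SM p a').ncard := by
        rw [← Set.ncard_coe_finset]
        refine Set.ncard_le_ncard_of_injOn (fun b => jj (t b)) ?_ ?_
          (Set.Finite.biUnion (Finset.finite_toSet _) fun a' _ => (SM_card hp a').1)
        · intro b hb
          rw [Finset.mem_coe, hb2, Finset.mem_filter] at hb
          have hz : jj (t a) ∈ SM p (M a).trace := ⟨t a, M a, hM a, rfl, hrel a, rfl⟩
          have hz' : jj (t b) ∈ SM p (M b).trace := ⟨t b, M b, hM b, rfl, hrel b, rfl⟩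
          refine Set.mem_iUnion₂.2 ⟨(M b).trace, ?_, hz'⟩
          exact hF2 _ (trace_sq_lt hp (hM a) (hrel a)) (trace_sq_lt hp (hM b) (hrel b))
            (sq_of_isog hp hz hz' hb.2)
        · intro b _ b' _ h
          exact hinj b b' h
      refine h1.trans ((Finset.set_ncard_biUnion_le F _).trans ?_)
      calc ∑ a' ∈ F, (SM p a').ncard ≤ ∑ a' ∈ F, H := Finset.sum_le_sum fun a' _ => hH a'
        _ = F.card * H := by rw [Finset.sum_const, smul_eq_mul]
        _ ≤ 18 * H := Nat.mul_le_mul_right _ hF1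
    let big : Finset (Fin n → ZMod p) := ((Finset.univ : Finset (Fin n)).biUnion fun i =>
        Finset.univ.filter fun s : Fin n → ZMod p => s i ∈ b1) ∪
        ((Finset.univ : Finset (Fin n × Fin n)).biUnion fun ik =>
        Finset.univ.filter fun s : Fin n → ZMod p => s ik.2 ∈
          (if ik.1 = ik.2 then (∅ : Finset (ZMod p)) else b2 (s ik.1)))
    have hsub : E ⊆ (big : Set (Fin n → ZMod p)) := by
      intro s hs
      rw [Finset.mem_coe, Finset.mem_union, Finset.mem_biUnion, Finset.mem_biUnion]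
      rcases hs with ⟨i, hi⟩ | ⟨i, k, hik, hk⟩
      · exact Or.inl ⟨i, Finset.mem_univ i, Finset.mem_filter.2 ⟨Finset.mem_univ s, hi⟩⟩
      · refine Or.inr ⟨(i, k), Finset.mem_univ _, Finset.mem_filter.2 ⟨Finset.mem_univ s, ?_⟩⟩
        simp only [hik, if_false]
        exact hk
    refine (Set.ncard_le_ncard hsub (Finset.finite_toSet _)).trans ?_
    rw [Set.ncard_coe_finset]
    refine (Finset.card_union_le _ _).trans ?_
    rw [add_mul]
    refine Nat.add_le_add ?_ ?_
    · refine (Finset.card_biUnion_le).trans ?_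
      calc _ ≤ ∑ i : Fin n, (H + 2) * p ^ (n - 1) := Finset.sum_le_sum fun i _ =>
            count_coord i (fun _ => b1) (fun _ _ => rfl) (H + 2) fun _ => hb1c
        _ = _ := by
          rw [Finset.sum_const, Finset.card_univ, Fintype.card_fin, smul_eq_mul, mul_assoc]
    · refine (Finset.card_biUnion_le).trans ?_
      calc _ ≤ ∑ ik : Fin n × Fin n, (18 * H) * p ^ (n - 1) := Finset.sum_le_sum fun ik _ => by
            refine count_coord ik.2 (fun s => if ik.1 = ik.2 then (∅ : Finset (ZMod p)) else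
              b2 (s ik.1)) (fun s b => ?_) (18 * H) fun s => ?_
            · by_cases h : ik.1 = ik.2
              · simp [h]
              · simp [h]
            · by_cases h : ik.1 = ik.2
              · simp [h]
              · simp only [h, if_false]
                exact hb2c _
        _ = _ := by
          rw [Finset.sum_const, Finset.card_univ, Fintype.card_prod, Fintype.card_fin,
            smul_eq_mul]
          ring
  · intro K _ _ σ m y hG s hs lam hlam r Z x hxZ hxy I W hW hI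
    have hs1 : ∀ i, (M (s i : ZMod p)).trace ≠ 0 ∧ (s i : ZMod p) ≠ 0 ∧ (s i : ZMod p) ≠ 1728 := by
      intro i
      by_contra hcon
      apply hs
      refine Or.inl ⟨i, ?_⟩
      rw [hb1, Finset.mem_filter]
      refine ⟨Finset.mem_univ _, ?_⟩
      by_contra h
      push Not at h
      exact hcon h
    let D : CData p n Ψ :=
      { s := s
        t := fun i => t (s i : ZMod p)
        cm := fun i => isCM_of_fix hp (hM _) (hrel _)
        ord := fun i => ordAt_of_trace hp hp3 (hM _) (hrel _) (hs1 i).1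
        n0 := fun i => hn0 _ (hs1 i).2.1
        n1 := fun i => hn1 _ (hs1 i).2.2
        near := fun i => hnearZ (s i)
        iso := fun i k hik hiso => by
          apply hs
          refine Or.inr ⟨i, k, hik, ?_⟩
          rw [hb2, Finset.mem_filter]
          exact ⟨Finset.mem_univ _, hiso⟩ }
    refine cen_glob hp hp2 hp1 hp0 Ψ D σ m y (fun J hJ => ?_) (fun i => ((lam i : 𝓞 K) : K))
      (fun i => ?_) Z x hxZ hxy I W hW fun i hi hcm hle => ?_
    · obtain ⟨F, d, h1, h2, h3, h4, h5, h6⟩ := hG J hJ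
      refine ⟨F, d, h1, h2, h3, fun u => ?_, h6⟩
      have e1 : ‖Ψ (σ (F.coeff u))‖ ≤ 1 := norm_of_PI hp hp1 (Ψ.comp σ) (h4 u)
      have e2 : ‖Ψ (σ (F.coeff d)⁻¹)‖ ≤ 1 := norm_of_PI hp hp1 (Ψ.comp σ) h5
      rw [map_inv₀, map_inv₀, norm_inv] at e2
      have e3 : 0 < ‖Ψ (σ (F.coeff d))‖ :=
        norm_pos_iff.2 ((map_ne_zero Ψ).2 ((map_ne_zero σ).2 h3))
      exact e1.trans ((inv_le_one₀ e3).1 e2)
    · obtain ⟨μ, hμ⟩ := hlam i
      rw [hμ]
      push_cast
      rw [map_mul, map_mul, norm_mul, map_natCast, map_natCast]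
      have e1 : ‖Ψ (σ (μ : K))‖ ≤ 1 := norm_le_one_of_isIntegral Ψ
        ((RingOfIntegers.isIntegral_coe μ).map σ.toIntAlgHom)
      calc _ ≤ ‖(p : C)‖ * 1 := mul_le_mul_of_nonneg_left e1 (norm_nonneg _)
        _ = _ := mul_one _
    · apply hI i hi
      refine ⟨?_, hcm, ?_⟩
      · rw [hb1, Finset.mem_filter]
        rintro ⟨-, h⟩
        have h1 := hs1 i
        rcases h with h | h | h
        · exact h1.1 h
        · exact h1.2.1 h
        · exact h1.2.2 h
      · have e : Ψ (x i) - (((s i : ZMod p).val : ℤ) : C) = (Ψ (x i) - (s i : C)) -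
            -((s i - ((s i : ZMod p).val : ℤ) : ℤ) : C) := by
          push_cast
          ring
        rw [e]
        refine nsub_le hle ?_
        rw [norm_neg]
        exact norm_le_p (hval (s i))

end Pool.Agent.H882
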