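import Pool.Agent.H882.CenKr
import Pool.Graph.R_pool_sql_team_seeded_63374d34.N101.ZP.Inj

/-!
Every residue class modulo `p` contains a singular modulus with an endomorphism of degree `p`.
-/

set_option autoImplicit false

namespace Pool.Agent.H882

open UpperHalfPlane H294ZP Function Pool.Agent.N135.ZO Polynomial
open Pool.Agent.Y226 (ZZ ιZ ιZ_apply)

theorem dg_factor {l : ℕ} (hl : l.Prime) : ∃ P : ℂ[X], H610.U1 P.leadingCoeff ∧
    (∀ τ, dg hl.pos τ = P.eval (jj τ)) := by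
  classical
  have hA : TA := ⟨ta1.1, ta1.2, ta2⟩
  have hC : TC := tc
  have hB : TB := TBproof.tb hA hC
  have hN := hl.pos
  have hjN : Lau l l 1 jj := by
    have := H610.lau_reindex hN hA.2.2
    rwa [mul_one] at this
  have hfac : ∀ k : Option (Fin l), ∃ (m : ℕ) (u : ℂ), H610.U1 u ∧
      Lau l m u (fun w => jj w - jj (hh hl.pos k w)) := by
    intro k
    have h4 := (hC.2.2.2.2 hA.2.1 hA.2.2 (ka l k) (kd l k) (kb l k) (ka_pos hN k) (kd_pos hN k)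
      (hh hN k) (hh_mul hN k)).1
    rw [ka_mul_kd] at h4
    refine H610.factor hC hN (n := ka l k ^ 2) ?_ hjN ?_ h4
    · cases k with
      | none =>
        simp only [ka]
        intro h
        have h1 := hl.one_lt
        nlinarith
      | some b =>
        simp only [ka, one_pow]
        exact hl.one_lt.ne
    · refine ⟨H610.lau_int h4, Complex.exp (2 * Real.pi * Complex.I * (kb l k) / (kd l k)), ?_,
        H610.exp_int _ _ (kd_pos hN k)⟩
      rw [← Complex.exp_add, neg_add_cancel, Complex.exp_zero]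
  choose m u hu hm using hfac
  obtain ⟨hU, hL⟩ := H610.lau_prod hC hN Finset.univ (fun k w => jj w - jj (hh hl.pos k w)) m u hu hm
  set M := ∑ k, m k with hM
  set U := ∏ k, u k with hUdef
  obtain ⟨P, hPi, hPe, hdvd, hdeg, hlead⟩ := hB l hN M U (dg hl.pos) (dg_inv hl) (dg_hol hl.pos) hL
  have hU' := hU
  obtain ⟨hUi, V, hUV, hVi⟩ := hU
  have hU0 : U ≠ 0 := by
    intro h0; rw [h0, zero_mul] at hUV; exact zero_ne_one hUV
  have hlead' := hlead (hdvd hU0)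
  have hdeg' : P.natDegree = M / l := by
    refine le_antisymm hdeg ?_
    apply le_natDegree_of_ne_zero
    rw [hlead']
    exact hU0
  refine ⟨P, ?_, hPe⟩
  rw [leadingCoeff, hdeg', hlead']
  exact hU'

theorem fix_of_dg {l : ℕ} (hl : l.Prime) {τ : ℍ} (h : dg hl.pos τ = 0) :
    ∃ M : M2, M.det = l ∧ Rel M τ τ := by
  unfold dg at h
  obtain ⟨k, -, hk⟩ := Finset.prod_eq_zero_iff.1 h
  obtain ⟨γ, hγ, hrel⟩ := Pool.Agent.N101.ZP.jj_inj (sub_eq_zero.1 hk).symm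
  refine ⟨γ * gk l k, ?_, (rel_hh hl.pos k τ).mul hrel⟩
  rw [det_mul', hγ, det_gk, one_mul]

section C

variable {C : Type} [NormedField C] [IsUltrametricDist C]

theorem norm_one_of_U1 (Φ : ℂ →+* C) {u : ℂ} (h : H610.U1 u) : ‖Φ u‖ = 1 := by
  obtain ⟨h1, v, h2, h3⟩ := h
  have e1 := Pool.Agent.Y226.norm_le_one_of_isIntegral Φ h1
  have e2 := Pool.Agent.Y226.norm_le_one_of_isIntegral Φ h3
  have h4 : ‖Φ u‖ * ‖Φ v‖ = 1 := by
    rw [← norm_mul, ← map_mul, h2, map_one, norm_one]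
  refine le_antisymm e1 ?_
  calc (1 : ℝ) = ‖Φ u‖ * ‖Φ v‖ := h4.symm
    _ ≤ ‖Φ u‖ * 1 := mul_le_mul_of_nonneg_left e2 (norm_nonneg _)
    _ = _ := mul_one _

/-- the prime ideal of an embedding -/
def idl (Φ : ℂ →+* C) : Ideal ZZ where
  carrier := {z | ‖Φ (ιZ z)‖ < 1}
  add_mem' := fun {a b} ha hb => by
    show ‖Φ (ιZ (a + b))‖ < 1
    rw [map_add, map_add]
    exact Pool.Agent.Y226.nadd_lt ha hb
  zero_mem' := by
    show ‖Φ (ιZ 0)‖ < 1
    rw [map_zero, map_zero, norm_zero]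
    exact zero_lt_one
  smul_mem' := fun c z hz => by
    show ‖Φ (ιZ (c * z))‖ < 1
    rw [map_mul, map_mul, norm_mul]
    have h1 : ‖Φ (ιZ c)‖ ≤ 1 := Pool.Agent.Y226.norm_le_one_of_isIntegral Φ c.2
    calc _ ≤ 1 * ‖Φ (ιZ z)‖ := mul_le_mul_of_nonneg_right h1 (norm_nonneg _)
      _ < 1 := by rw [one_mul]; exact hz

theorem mem_idl {Φ : ℂ →+* C} {z : ZZ} : z ∈ idl Φ ↔ ‖Φ (ιZ z)‖ < 1 := Iff.rfl

theorem idl_prime (Φ : ℂ →+* C) : (idl Φ).IsPrime := by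
  refine ⟨?_, ?_⟩
  · intro h
    have h1 : (1 : ZZ) ∈ idl Φ := by rw [h]; exact Submodule.mem_top
    rw [mem_idl, map_one, map_one, norm_one] at h1
    exact lt_irrefl _ h1
  · intro a b hab
    rw [mem_idl, map_mul, map_mul, norm_mul] at hab
    have ha : ‖Φ (ιZ a)‖ ≤ 1 := Pool.Agent.Y226.norm_le_one_of_isIntegral Φ a.2
    have hb : ‖Φ (ιZ b)‖ ≤ 1 := Pool.Agent.Y226.norm_le_one_of_isIntegral Φ b.2
    by_contra hcon
    push Not at hcon
    rw [mem_idl, mem_idl, not_lt, not_lt] at hcon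
    have h1 : ‖Φ (ιZ a)‖ = 1 := le_antisymm ha hcon.1
    have h2 : ‖Φ (ιZ b)‖ = 1 := le_antisymm hb hcon.2
    rw [h1, h2, one_mul] at hab
    exact lt_irrefl _ hab

theorem norm_eval_lt (Φ : ℂ →+* C) {P : ZZ[X]} (hP : ∀ i, P.coeff i ∈ idl Φ) (j : ℤ) :
    ‖Φ (P.eval₂ ιZ (j : ℂ))‖ < 1 := by
  have h : P.eval₂ ιZ (j : ℂ) = ((P.eval ((j : ℤ) : ZZ) : ZZ) : ℂ) := by
    rw [← ιZ_apply, ← Polynomial.eval₂_at_apply]
    congr 1
  rw [h, ← ιZ_apply]
  have h2 : P.eval ((j : ℤ) : ZZ) ∈ idl Φ := by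
    rw [Polynomial.eval_eq_sum_range]
    exact (idl Φ).sum_mem fun i _ => (idl Φ).mul_mem_right _ (hP i)
  exact h2

/-- Every residue class contains a singular modulus with an endomorphism of degree `p`. -/
theorem exists_root {p : ℕ} (hp : p.Prime) (hp2 : p ≠ 2) (hp1 : ‖(p : C)‖ < 1) (Φ : ℂ →+* C)
    (j : ℤ) : ∃ (τ : ℍ) (M : M2), M.det = p ∧ Rel M τ τ ∧ ‖Φ (jj τ) - (j : C)‖ < 1 := by
  obtain ⟨τ₀, hτ₀⟩ := Pool.Agent.Q223.UV.jj_surj (j : ℂ)
  have hpI : ((p : ℕ) : ZZ) ∈ idl Φ := by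
    rw [mem_idl, map_natCast, map_natCast]
    exact hp1
  obtain ⟨P, hP1, hP2⟩ := dg_congr hp hp2 (idl_prime Φ) hpI
  obtain ⟨Q, hQ1, hQ2⟩ := dg_factor hp
  have h1 := hP2 τ₀
  rw [hτ₀] at h1
  have h2 : ‖Φ (dg hp.pos τ₀)‖ < 1 := by
    have e : dg hp.pos τ₀ = P.eval₂ ιZ (j : ℂ) - ((j : ℂ) ^ p - (j : ℂ)) ^ 2 := by
      rw [← h1]
      ring
    rw [e, map_sub]
    have h3 : ‖Φ (((j : ℂ) ^ p - (j : ℂ)) ^ 2)‖ < 1 := by
      have : Fact p.Prime := ⟨hp⟩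
      have h4 : (p : ℤ) ∣ j ^ p - j := by
        rw [← ZMod.intCast_zmod_eq_zero_iff_dvd]
        push_cast
        rw [ZMod.pow_card, sub_self]
      obtain ⟨z, hz⟩ := h4
      have e2 : ((j : ℂ) ^ p - (j : ℂ)) = (p : ℂ) * (z : ℂ) := by
        exact_mod_cast congrArg (fun t : ℤ => (t : ℂ)) hz
      rw [e2, map_pow, norm_pow, map_mul, norm_mul, map_natCast, map_intCast]
      have h5 : ‖(z : C)‖ ≤ 1 := IsUltrametricDist.norm_intCast_le_one C z
      have h6 : ‖(p : C)‖ * ‖(z : C)‖ < 1 := by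
        calc _ ≤ ‖(p : C)‖ * 1 := mul_le_mul_of_nonneg_left h5 (norm_nonneg _)
          _ < 1 := by rw [mul_one]; exact hp1
      exact pow_lt_one₀ (by positivity) h6 two_ne_zero
    rw [sub_eq_add_neg]
    refine Pool.Agent.Y226.nadd_lt (norm_eval_lt Φ hP1 j) ?_
    rw [norm_neg]
    exact h3
  rw [hQ2 τ₀, hτ₀, (IsAlgClosed.splits Q).eval_eq_prod_roots, map_mul, norm_mul,
    norm_one_of_U1 Φ hQ1, one_mul, map_multiset_prod, Multiset.map_map] at h2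
  have h3 : ∃ r ∈ Q.roots, ‖Φ ((j : ℂ) - r)‖ < 1 := by
    by_contra hcon
    push Not at hcon
    have h4 : ∀ s : Multiset ℂ, (∀ r ∈ s, 1 ≤ ‖Φ ((j : ℂ) - r)‖) →
        1 ≤ ‖(s.map (Φ ∘ fun r => (j : ℂ) - r)).prod‖ := by
      intro s
      induction s using Multiset.induction_on with
      | empty => intro _; simp
      | cons a s ih =>
        intro hs
        rw [Multiset.map_cons, Multiset.prod_cons, norm_mul]
        have e1 := hs a (Multiset.mem_cons_self a s)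
        have e2 := ih fun r hr => hs r (Multiset.mem_cons_of_mem hr)
        exact one_le_mul_of_one_le_of_one_le e1 e2
    exact absurd h2 (not_lt.2 (h4 _ hcon))
  obtain ⟨r, hr, hlt⟩ := h3
  obtain ⟨τ, hτ⟩ := Pool.Agent.Q223.UV.jj_surj r
  have hroot : dg hp.pos τ = 0 := by
    rw [hQ2 τ, hτ]
    exact isRoot_of_mem_roots hr
  obtain ⟨M, hM, hrel⟩ := fix_of_dg hp hroot
  refine ⟨τ, M, hM, hrel, ?_⟩
  rw [hτ]
  have e : Φ r - (j : C) = -(Φ ((j : ℂ) - r)) := by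
    rw [map_sub, map_intCast]
    ring
  rw [e, norm_neg]
  exact hlt

end C

end Pool.Agent.H882
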