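import Pool.Agent.H882.MixGlob

/-!
The theorem for integral centres at one prime.
-/

set_option autoImplicit false

namespace Pool.Agent.H882

open UpperHalfPlane H294ZP Function Pool.Agent.N135.ZO NumberField IsDedekindDomain
open Pool.Agent.Y226 Pool.Agent.Y226.ZG WithZero

section C

variable {C : Type} [NormedField C] [IsUltrametricDist C] [CompleteSpace C] [CharZero C]
  [IsAlgClosed C]

/-- the data of a good centre at `p` -/
structure CData (p n : ℕ) (Ψ : ℂ →+* C) where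
  s : Fin n → ℤ
  t : Fin n → ℍ
  cm : ∀ i, IsCM (t i)
  ord : ∀ i, OrdAt p (t i)
  n0 : ∀ i, ‖Ψ (jj (t i))‖ = 1
  n1 : ∀ i, ‖Ψ (jj (t i) - 1728)‖ = 1
  near : ∀ i, ‖Ψ (jj (t i)) - (s i : C)‖ < 1
  iso : ∀ i k, i ≠ k → ¬ Isog (jj (t i)) (jj (t k))

theorem cm_mem_QA {τ : ℍ} (h : IsCM τ) : jj τ ∈ QA := by
  rw [mem_QA]
  exact ((singular_modulus_integral τ h).tower_top (A := ℚ)).isAlgebraic

theorem G0_of {p : ℕ} (hp : p.Prime) (hp1 : ‖(p : C)‖ < 1) (P : Pkg p hp.pos) (Φ : ℂ →+* C)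
    {τ : ℍ} (hord : OrdAt p τ) (h0 : ‖Φ (jj τ)‖ = 1) (h1 : ‖Φ (jj τ - 1728)‖ = 1) :
    G0 P (VF Φ) (jj τ) := by
  have hpV : (VF Φ).valuation (p : ℂ) < 1 := by
    rw [VF_lt_one, map_natCast]
    exact hp1
  have hmem : jj τ ∈ VF Φ := by
    rw [VF_mem]
    exact h0.le
  obtain ⟨e, M, he, hdet, htr, hfix⟩ := hord
  exact ⟨hmem, ord_of_fix hp hpV P hmem he hdet htr hfix, VF_eq_one.2 h0, VF_eq_one.2 h1⟩

theorem cen_glob {p : ℕ} (hp : p.Prime) (hp2 : p ≠ 2) (hp1 : ‖(p : C)‖ < 1)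
    (hp0 : 0 < ‖(p : C)‖) (Ψ : ℂ →+* C) {n : ℕ} (D : CData p n Ψ) {K : Type} [Field K]
    [NumberField K] (σ : K →+* ℂ) (m : ℕ) (y : Fin n → ℂ)
    (hG : ∀ J : Finset (Fin n), J.card = m + 1 → ∃ (F : MvPolynomial (Fin n) K) (d : Fin n →₀ ℕ),
        (∀ u ∈ F.support, u ≤ d) ∧ d.support ⊆ J ∧ F.coeff d ≠ 0 ∧
        (∀ u, ‖Ψ (σ (F.coeff u))‖ ≤ ‖Ψ (σ (F.coeff d))‖) ∧
        MvPolynomial.eval₂ σ y F = 0)
    (lam : Fin n → K) (hlam : ∀ i, ‖Ψ (σ (lam i))‖ ≤ ‖(p : C)‖)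
    {r : ℕ} (Z : SpecialDatum n r) (x : Fin n → ℂ) (hxZ : x ∈ Z.locus)
    (hxy : ∀ i, x i = (D.s i : ℂ) + σ (lam i) * y i) (I W : Finset (Fin n))
    (hW : AlgebraicIndependent ℚ (fun i : W => x i))
    (hI : ∀ i ∈ I, (∃ τ : ℍ, IsCM τ ∧ jj τ = x i) → ¬ ‖Ψ (x i) - (D.s i : C)‖ ≤ ‖(p : C)‖) :
    I.card + W.card ≤ m + r := by
  classical
  have : Fact p.Prime := ⟨hp⟩
  set φ₀ : QA →+* C := Ψ.comp (algebraMap QA ℂ) with hφ₀
  have hφ₀a : ∀ a : QA, φ₀ a = Ψ (a : ℂ) := fun _ => rfl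
  have halg : ∀ a : K, σ a ∈ QA := by
    intro a
    rw [mem_QA]
    exact (Algebra.IsAlgebraic.isAlgebraic (R := ℚ) a).algHom σ.toRatAlgHom
  have hpQ : 1 < ‖φ₀ ((p : QA)⁻¹)‖ := by
    rw [map_inv₀, map_natCast, norm_inv]
    exact (one_lt_inv₀ hp0).2 hp1
  obtain ⟨P⟩ := exists_pkg hp hp2
  -- the coordinates in `W`
  have hlamW : ∀ i ∈ W, lam i ≠ 0 := by
    intro i hi h0
    have h1 := hW.transcendental ⟨i, hi⟩
    apply h1
    show IsAlgebraic ℚ (x i)
    rw [hxy i, h0, map_zero, zero_mul, add_zero]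
    exact (isAlgebraic_int (R := ℚ) (A := ℂ) (D.s i))
  have hWQ : AlgebraicIndependent QA (fun i : W => x i) := hW.extendScalars QA
  have hyQ : AlgebraicIndependent QA (fun i : W => y i) := by
    refine indep_affine (fun i : W => ((D.s i : ℤ) : QA)) (fun i : W => ⟨σ (lam i), halg _⟩)
      (fun i h => ?_) (fun i => ?_) hWQ
    · have h1 : σ (lam i) = 0 := congrArg (fun w : QA => (w : ℂ)) h
      exact hlamW i i.2 ((map_eq_zero σ).1 h1)
    · rw [hxy i, map_intCast]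
      rfl
  -- the embedding
  set R : ℝ := 1 + ∑ i, 1 / ‖Ψ (σ (lam i))‖ with hR
  have hR1 : 1 ≤ R := le_add_of_nonneg_right (Finset.sum_nonneg fun _ _ => by positivity)
  have hRle : ∀ i, 1 / ‖Ψ (σ (lam i))‖ ≤ R := fun i =>
    (Finset.single_le_sum (f := fun i => 1 / ‖Ψ (σ (lam i))‖) (fun _ _ => by positivity)
      (Finset.mem_univ i)).trans (le_add_of_nonneg_left zero_le_one)
  obtain ⟨Φ, hΦ, hΦy⟩ := exists_ext φ₀ ((p : QA)⁻¹) hpQ (fun i : W => y i) hyQ R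
  have hΦQ : ∀ z : ℂ, z ∈ QA → Φ z = Ψ z := fun z hz => hΦ ⟨z, hz⟩
  have hΦK : ∀ a : K, Φ (σ a) = Ψ (σ a) := fun a => hΦQ _ (halg a)
  have hΦj : ∀ i, Φ (jj (D.t i)) = Ψ (jj (D.t i)) := fun i => hΦQ _ (cm_mem_QA (D.cm i))
  have hΦx : ∀ i, Φ (x i) = (D.s i : C) + Φ (σ (lam i)) * Φ (y i) := by
    intro i
    rw [hxy i, map_add, map_mul, map_intCast]
  have hpV : (VF Φ).valuation (p : ℂ) < 1 := by
    rw [VF_lt_one, map_natCast]
    exact hp1
  have hG0 : ∀ i, G0 P (VF Φ) (jj (D.t i)) := by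
    intro i
    refine G0_of hp hp1 P Φ (D.ord i) ?_ ?_
    · rw [hΦj]
      exact D.n0 i
    · have e : Φ (jj (D.t i) - 1728) = Ψ (jj (D.t i) - 1728) := by
        rw [map_sub, map_sub, hΦj]
        congr 1
        exact (map_ofNat Φ 1728).trans (map_ofNat Ψ 1728).symm
      rw [e]
      exact D.n1 i
  -- the coordinates of large norm
  set U : Finset (Fin n) := Finset.univ.filter fun i => 1 < ‖Φ (y i)‖ with hU
  have hUm : U.card ≤ m := by
    refine big_card σ Φ y fun J hJ => ?_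
    obtain ⟨F, d, h1, h2, h3, h4, h5⟩ := hG J hJ
    refine ⟨F, d, h1, h2, h3, fun u => ?_, h5⟩
    rw [hΦK, hΦK]
    exact h4 u
  have hWU : W ⊆ U := by
    intro i hi
    rw [hU, Finset.mem_filter]
    exact ⟨Finset.mem_univ _, hR1.trans_lt (hΦy ⟨i, hi⟩)⟩
  have hsle : ∀ i, ‖(D.s i : C)‖ ≤ 1 := fun i => IsUltrametricDist.norm_intCast_le_one C _
  have hxW : ∀ i ∈ W, 1 < ‖Φ (x i)‖ := by
    intro i hi
    have hl0 : 0 < ‖Ψ (σ (lam i))‖ :=
      norm_pos_iff.2 ((map_ne_zero Ψ).2 ((map_ne_zero σ).2 (hlamW i hi)))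
    have h1 : 1 < ‖Φ (σ (lam i)) * Φ (y i)‖ := by
      rw [norm_mul, hΦK, mul_comm]
      rw [← div_lt_iff₀ hl0]
      exact (hRle i).trans_lt (hΦy ⟨i, hi⟩)
    have h2 : ‖(D.s i : C)‖ < ‖Φ (σ (lam i)) * Φ (y i)‖ := lt_of_le_of_lt (hsle i) h1
    rw [hΦx i, add_comm, neq_of_add_lt h2]
    exact h1
  have hxJ : ∀ i, i ∉ U → ‖Φ (x i) - (D.s i : C)‖ ≤ ‖(p : C)‖ := by
    intro i hi
    have h1 : ‖Φ (y i)‖ ≤ 1 := by
      by_contra hcon
      push Not at hcon
      exact hi (Finset.mem_filter.2 ⟨Finset.mem_univ _, hcon⟩)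
    rw [hΦx i, add_sub_cancel_left]
    refine nmul_le' ?_ h1
    rw [hΦK]
    exact hlam i
  have hxO : ∀ i, i ∉ U → (VF Φ).valuation (x i - jj (D.t i)) < 1 := by
    intro i hiU
    rw [VF_lt_one, map_sub, hΦj]
    have e : Φ (x i) - Ψ (jj (D.t i)) = (Φ (x i) - (D.s i : C)) + -(Ψ (jj (D.t i)) - (D.s i : C)) := by
      ring
    rw [e]
    refine nadd_lt ((hxJ i hiU).trans_lt hp1) ?_
    rw [norm_neg]
    exact D.near i
  have hxOV : ∀ i, i ∉ U → x i ∈ VF Φ := by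
    intro i hiU
    exact ((hG0 i).congr (hxO i hiU)).mem
  -- the set
  set T : Finset (Fin n) := (I \ U) ∪ W with hT
  have hdisj : Disjoint (I \ U) W := by
    rw [Finset.disjoint_left]
    intro i hi hiW
    exact (Finset.mem_sdiff.1 hi).2 (hWU hiW)
  have hTcard : T.card = (I \ U).card + W.card := Finset.card_union_of_disjoint hdisj
  have hdetpos : ∀ i j, 0 < (Z.mat j * (Z.mat i).adjugate).det := by
    intro i j
    rw [det_mul', det_adj]
    have h1 := Z.det_pos i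
    have h2 := Z.det_pos j
    positivity
  have hint : ∀ {A : M2} {w w' : ℍ}, 0 < A.det → Rel A w w' → jj w ∈ VF Φ → ¬ 1 < ‖Φ (jj w')‖ := by
    intro A w w' hA hrel hmem
    exact not_lt.2 (rel_mem hA hrel hmem)
  have hTr : T.card ≤ r := by
    refine crit_card' Z hxZ T ?_ ?_
    · intro i hi τ hτ hxi
      have hcmint : ‖Φ (jj τ)‖ ≤ 1 := norm_le_one_of_isIntegral Φ (singular_modulus_integral τ hτ)
      rcases Finset.mem_union.1 hi with hi' | hi'
      · obtain ⟨hiI, hiU⟩ := Finset.mem_sdiff.1 hi'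
        refine hI i hiI ⟨τ, hτ, hxi.symm⟩ ?_
        rw [← hΦQ (x i) (by rw [hxi]; exact cm_mem_QA hτ)]
        exact hxJ i hiU
      · have h1 := hxW i hi'
        rw [hxi] at h1
        exact absurd h1 (not_lt.2 hcmint)
    · intro i hi k hk hik w w' hrel hxi hxk
      have hdet := hdetpos i k
      have hdet' : 0 < (Z.mat k * (Z.mat i).adjugate).adjugate.det := by
        rw [det_adj]; exact hdet
      rcases Finset.mem_union.1 hi with hi' | hi'
      · obtain ⟨hiI, hiU⟩ := Finset.mem_sdiff.1 hi'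
        rcases Finset.mem_union.1 hk with hk' | hk'
        · obtain ⟨hkI, hkU⟩ := Finset.mem_sdiff.1 hk'
          refine D.iso i k hik (near_isog hp hp2 hpV P (D.cm i) (D.cm k)
            (hG0 i) (hG0 k) hdet hrel ?_ ?_)
          · rw [← hxi]
            exact hxO i hiU
          · rw [← hxk]
            exact hxO k hkU
        · -- `k` is large
          refine hint hdet hrel ?_ ?_
          · rw [← hxi]
            exact hxOV i hiU
          · rw [← hxk]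
            exact hxW k hk'
      · rcases Finset.mem_union.1 hk with hk' | hk'
        · obtain ⟨hkI, hkU⟩ := Finset.mem_sdiff.1 hk'
          refine hint hdet' (rel_adj hrel) ?_ ?_
          · rw [← hxk]
            exact hxOV k hkU
          · rw [← hxi]
            exact hxW i hi'
        · refine not_indep_of_integral hW hi' hk' hik ?_
          rw [hxi, hxk]
          refine isogenous_integral w w' _ _ _ _ ?_ hrel
          rw [← det_eq]
          exact hdet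
  have hIU : I.card ≤ (I \ U).card + U.card := by
    have h1 := Finset.card_le_card (show I ⊆ (I \ U) ∪ U by
      intro i hi
      by_cases h : i ∈ U
      · exact Finset.mem_union_right _ h
      · exact Finset.mem_union_left _ (Finset.mem_sdiff.2 ⟨hi, h⟩))
    exact h1.trans (Finset.card_union_le _ _)
  omega

end C

end Pool.Agent.H882
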