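import Pool.Agent.H882.MixLoc

/-!
The congruence of Kronecker on the diagonal: every residue class modulo `p` contains a singular
modulus with an endomorphism of degree `p`.
-/

set_option autoImplicit false

namespace Pool.Agent.H882

open UpperHalfPlane H294ZP Function Pool.Agent.N135.ZO Polynomial
open Pool.Agent.Y226 (ZZ ιZ ιZ_apply eZ qq_h)
open H294ZP.TA2 (R mp)

variable {l : ℕ}

theorem eZ_pow_l (hl : 0 < l) (b : ℤ) : (eZ b l hl) ^ l = 1 := by
  apply Subtype.ext
  show (Complex.exp (2 * Real.pi * Complex.I * b / l)) ^ l = 1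
  have hd0 : (l : ℂ) ≠ 0 := by exact_mod_cast hl.ne'
  rw [← Complex.exp_nat_mul]
  have : (l : ℂ) * (2 * Real.pi * Complex.I * b / l) = b * (2 * Real.pi * Complex.I) := by
    field_simp
  rw [this, Complex.exp_int_mul_two_pi_mul_I]

/-- the expansion of `j (g_b τ)` -/
theorem hs_some (hl : 0 < l) (b : Fin l) (τ : ℍ) :
    HasSum (fun n => (((W.coeff n : ZZ) * (eZ (kb l (some b)) l hl) ^ (n + (l - 1)) : ZZ) : ℂ) *
      qq l τ ^ n) (qq l τ ^ 1 * jj (hh hl (some b) τ)) := by
  have h1 := hasSum_cf R_W (ka_pos hl (some b)) (kd_pos hl (some b)) (hh_mul hl (some b) τ)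
  rw [ka_mul_kd] at h1
  have h2 := qq_h (ka_pos hl (some b)) (kd_pos hl (some b)) (hh_mul hl (some b) τ)
  rw [ka_mul_kd] at h2
  have h3 := h1.mul_left (((eZ (kb l (some b)) l hl : ZZ) : ℂ) ^ (l - 1))
  have h4 : ((eZ (kb l (some b)) l hl : ZZ) : ℂ) ^ (l - 1) * ((eZ (kb l (some b)) l hl : ZZ) : ℂ)
      = 1 := by
    rw [← pow_succ, Nat.sub_add_cancel hl]
    have := congrArg (fun z : ZZ => (z : ℂ)) (eZ_pow_l hl (kb l (some b)))
    simpa using this
  refine TCx.hs_congr h3 (fun n => ?_) ?_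
  · have e : (cf W (ka l (some b)) (eZ (kb l (some b)) (kd l (some b)) (kd_pos hl (some b))) n : ZZ)
        = (W.coeff n : ZZ) * (eZ (kb l (some b)) l hl) ^ n := by
      simp only [cf, ka, kd, one_pow, one_dvd, if_true, Nat.div_one]
    rw [e]
    push_cast
    rw [pow_add]
    ring
  · rw [h2]
    have e : (ka l (some b)) ^ 2 = 1 := by simp [ka]
    rw [e, pow_one]
    have e2 : ιZ (eZ (kb l (some b)) (kd l (some b)) (kd_pos hl (some b))) =
        ((eZ (kb l (some b)) l hl : ZZ) : ℂ) := rfl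
    rw [e2]
    linear_combination (-(qq l τ * jj (hh hl (some b) τ))) * h4

theorem LX_jj_sub (hl : l.Prime) {I : Ideal ZZ} (hI : I.IsPrime) (hlI : ((l : ℕ) : ZZ) ∈ I)
    (b b' : Fin l) :
    LX I l (fun τ => jj (hh hl.pos (some b) τ) - jj (hh hl.pos (some b') τ)) := by
  refine ⟨⟨1, ⟨fun n => (W.coeff n : ZZ) * (eZ (kb l (some b)) l hl.pos) ^ (n + (l - 1)) -
      (W.coeff n : ZZ) * (eZ (kb l (some b')) l hl.pos) ^ (n + (l - 1)), fun n => ?_, fun τ => ?_⟩⟩,
      H610.hol_sub (LX.jj_hh hl.pos (some b)).2 (LX.jj_hh hl.pos (some b')).2⟩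
  · dsimp only
    rw [← mul_sub]
    apply I.mul_mem_left
    have e : ∀ c : Fin l, (eZ (kb l (some c)) l hl.pos) ^ (n + (l - 1)) - 1 ∈ I := fun c => by
      obtain ⟨t, ht⟩ := sub_dvd_pow_sub_pow (eZ (kb l (some c)) l hl.pos) 1 (n + (l - 1))
      rw [one_pow] at ht
      rw [ht]
      exact I.mul_mem_right _ (eZ_sub_one hl hI hlI _)
    have := I.sub_mem (e b) (e b')
    simpa using this
  · refine TCx.hs_congr ((hs_some hl.pos b τ).sub (hs_some hl.pos b' τ)) (fun n => ?_) (by ring)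
    push_cast
    ring

/-- `j (τ / l) ^ l` is congruent to `j (τ)` modulo `l` -/
theorem LX_frob_zero (hl : l.Prime) :
    LX (Ideal.span {((l : ℕ) : ZZ)}) l
      (fun τ => jj τ - jj (hh hl.pos (some ⟨0, hl.pos⟩) τ) ^ l) := by
  refine ⟨⟨l, ⟨fun n => ((W.expand l hl.ne_zero - W ^ l).coeff n : ZZ), fun n => ?_, fun τ => ?_⟩⟩,
    H610.hol_sub (LX.jj hl.pos (N := l)).2 ((LX.jj_hh hl.pos (some ⟨0, hl.pos⟩)).pow l).2⟩
  · obtain ⟨t, ht⟩ := frob_dvd hl W n
    dsimp only
    rw [ht]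
    push_cast
    exact Ideal.mul_mem_right _ _ (Ideal.subset_span (Set.mem_singleton _))
  · set w := hh hl.pos (some ⟨0, hl.pos⟩) τ with hw
    have hwτ : (w : ℂ) * l = τ := by
      have := hh_mul hl.pos (some ⟨0, hl.pos⟩) τ
      simpa [kd, ka, kb] using this
    have hq1 : qq 1 w = qq l τ := by
      unfold qq
      congr 1
      rw [← hwτ]
      have hl0 : (l : ℂ) ≠ 0 := by exact_mod_cast hl.ne_zero
      push_cast
      field_simp
    have hq2 : qq 1 τ = qq l τ ^ l := by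
      unfold qq
      rw [← Complex.exp_nat_mul]
      congr 1
      have hl0 : (l : ℂ) ≠ 0 := by exact_mod_cast hl.ne_zero
      push_cast
      field_simp
    have h1 := (R_pow R_W l) w
    have h2 := R_W τ
    have h3 : HasSum (fun n => (mp (W.expand l hl.ne_zero)).coeff n * qq l τ ^ n)
        (qq l τ ^ l * jj τ) := by
      rw [hq2] at h2
      have hinj : Function.Injective (fun n : ℕ => l * n) := by
        intro x y hxy
        exact Nat.eq_of_mul_eq_mul_left hl.pos hxy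
      rw [← hinj.hasSum_iff]
      · refine TCx.hs_congr h2 (fun n => ?_) (by simp only [hq2])
        simp only [Function.comp, PowerSeries.coeff_map, PowerSeries.coeff_expand_mul, pow_mul]
      · intro n hn
        have : ¬ l ∣ n := by
          rintro ⟨k, rfl⟩
          exact hn ⟨k, rfl⟩
        rw [PowerSeries.coeff_map, PowerSeries.coeff_expand_of_not_dvd _ _ _ this]
        simp
    rw [hq1] at h1
    refine TCx.hs_congr (h3.sub h1) (fun n => ?_) ?_
    · rw [← sub_mul, PowerSeries.coeff_map, PowerSeries.coeff_map, ← map_sub, ← map_sub]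
      simp
    · simp only [hq1]
      rw [mul_pow]
      ring

theorem LX_prod_sub {I : Ideal ZZ} {N : ℕ} {ι : Type} (s : Finset ι) (F G : ι → ℍ → ℂ)
    (hF : ∀ i ∈ s, LX ⊤ N (F i)) (hG : ∀ i ∈ s, LX ⊤ N (G i))
    (h : ∀ i ∈ s, LX I N (fun τ => F i τ - G i τ)) :
    LX I N (fun τ => ∏ i ∈ s, F i τ - ∏ i ∈ s, G i τ) := by
  classical
  induction s using Finset.induction_on with
  | empty =>
    simp only [Finset.prod_empty, sub_self]
    exact LX.zero
  | insert a s ha ih =>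
    have h1 := ih (fun i hi => hF i (Finset.mem_insert_of_mem hi))
      (fun i hi => hG i (Finset.mem_insert_of_mem hi)) (fun i hi => h i (Finset.mem_insert_of_mem hi))
    have h2 := (hF a (Finset.mem_insert_self a s)).mul_left h1
    have h3 := (h a (Finset.mem_insert_self a s)).mul_right
      (LX.prod s G fun i hi => hG i (Finset.mem_insert_of_mem hi))
    have h4 := h2.add h3
    have e : (fun τ => ∏ i ∈ insert a s, F i τ - ∏ i ∈ insert a s, G i τ) = fun τ =>
        F a τ * (∏ i ∈ s, F i τ - ∏ i ∈ s, G i τ) + (F a τ - G a τ) * ∏ i ∈ s, G i τ := by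
      funext τ
      rw [Finset.prod_insert ha, Finset.prod_insert ha]
      ring
    rw [e]
    exact h4

/-- the `l`-th power of a difference -/
theorem LX_pow_sub (hl : l.Prime) (hl2 : l ≠ 2) {I : Ideal ZZ} (hlI : ((l : ℕ) : ZZ) ∈ I)
    {f g : ℍ → ℂ} (hf : LX ⊤ l f) (hg : LX ⊤ l g) :
    LX I l (fun τ => (f τ - g τ) ^ l - (f τ ^ l - g τ ^ l)) := by
  obtain ⟨N, hN⟩ : ∃ N, l = N + 1 := ⟨l - 1, by have := hl.pos; omega⟩
  have hodd : Odd l := hl.odd_of_ne_two hl2
  have e : (fun τ => (f τ - g τ) ^ l - (f τ ^ l - g τ ^ l)) = fun τ =>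
      ∑ i ∈ Finset.range N, f τ ^ (i + 1) * (-g τ) ^ (l - (i + 1)) * (l.choose (i + 1) : ℂ) := by
    funext τ
    rw [sub_eq_add_neg (f τ) (g τ), add_pow]
    have h1 : Finset.range (l + 1) = Finset.range (N + 1 + 1) := by rw [hN]
    rw [h1, Finset.sum_range_succ, Finset.sum_range_succ', ← hN]
    simp only [pow_zero, Nat.sub_zero, Nat.choose_zero_right, Nat.sub_self, Nat.choose_self,
      Nat.cast_one, mul_one, one_mul, hodd.neg_pow]
    ring
  rw [e]
  refine LX.sum _ _ fun i hi => ?_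
  have hi' := Finset.mem_range.1 hi
  have hdvd : l ∣ l.choose (i + 1) := hl.dvd_choose_self (by omega) (by omega)
  obtain ⟨t, ht⟩ := hdvd
  have hc : (((l.choose (i + 1) : ℕ) : ZZ)) ∈ I := by
    rw [ht, Nat.cast_mul]
    exact I.mul_mem_right _ hlI
  have := ((hf.pow (i + 1)).mul_left ((hg.neg).pow (l - (i + 1)))).mul_left (LX.const (N := l) hc)
  simpa using this

/-- the values of the polynomial of the diagonal -/
noncomputable def dg (hl : 0 < l) (τ : ℍ) : ℂ := ∏ k, (jj τ - jj (hh hl k τ))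

theorem dg_inv (hl : l.Prime) : Inv (dg hl.pos) := by
  refine inv_of_rel fun γ hγ τ w hw => ?_
  obtain ⟨σ, hσ⟩ := perm hl hγ hw
  unfold dg
  rw [← Equiv.prod_comp σ (fun k => jj τ - jj (hh hl.pos k τ))]
  refine Finset.prod_congr rfl fun k _ => ?_
  rw [(hσ k).1, hw.jj hγ]

theorem dg_hol (hl : 0 < l) : Hol (dg hl) :=
  (LX.prod Finset.univ (fun k τ => jj τ - jj (hh hl k τ)) fun k _ =>
    (LX.jj hl).sub (LX.jj_hh hl k)).2

/-- The congruence of Kronecker on the diagonal. -/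
theorem dg_congr (hl : l.Prime) (hl2 : l ≠ 2) {I : Ideal ZZ} (hI : I.IsPrime)
    (hlI : ((l : ℕ) : ZZ) ∈ I) : ∃ P : ZZ[X], (∀ i, P.coeff i ∈ I) ∧ ∀ τ,
    dg hl.pos τ + (jj τ ^ l - jj τ) ^ 2 = P.eval₂ ιZ (jj τ) := by
  refine tbX I l hl.pos (fun τ => dg hl.pos τ + (jj τ ^ l - jj τ) ^ 2)
    (inv_of_rel fun γ hγ τ w hw => ?_) ?_
  · have h1 := (dg_inv hl) (γ 0 0) (γ 0 1) (γ 1 0) (γ 1 1) (by rw [← det_eq]; exact hγ) τ w hw
    rw [h1, hw.jj hγ]
  · have hsp : Ideal.span {((l : ℕ) : ZZ)} ≤ I := by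
      rw [Ideal.span_singleton_le_iff_mem]
      exact hlI
    set b0 : Option (Fin l) := some ⟨0, hl.pos⟩ with hb0
    have hj := LX.jj (N := l) hl.pos
    have hg := LX.jj_hh hl.pos b0
    have hn := LX.jj_hh hl.pos none
    -- the product over the non canonical elements
    have h1 : LX I l (fun τ => ∏ b : Fin l, (jj τ - jj (hh hl.pos (some b) τ)) -
        ∏ b : Fin l, (jj τ - jj (hh hl.pos b0 τ))) := by
      refine LX_prod_sub Finset.univ (fun b τ => jj τ - jj (hh hl.pos (some b) τ))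
        (fun _ τ => jj τ - jj (hh hl.pos b0 τ)) (fun b _ => hj.sub (LX.jj_hh hl.pos _))
        (fun b _ => hj.sub hg) fun b _ => ?_
      have := LX_jj_sub hl hI hlI ⟨0, hl.pos⟩ b
      have e : (fun τ => jj τ - jj (hh hl.pos (some b) τ) - (jj τ - jj (hh hl.pos b0 τ))) =
          fun τ => jj (hh hl.pos (some ⟨0, hl.pos⟩) τ) - jj (hh hl.pos (some b) τ) := by
        funext τ
        rw [hb0]
        ring
      rw [e]
      exact this
    have h2 := LX_pow_sub hl hl2 hlI hj hg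
    have h3 := (LX_frob_zero hl).mono hsp
    have h4 := (LX.jj_frob hl).mono hsp
    have h5 := (hj.sub hn).mul_left h1
    have h6 := (hj.sub hn).mul_left h2
    have h7 := (hj.sub hn).mul_left h3
    have h8 := ((hj.pow l).sub hj).mul_left h4.neg
    have h9 := ((h5.add h6).add h7).add h8
    have e : (fun τ => dg hl.pos τ + (jj τ ^ l - jj τ) ^ 2) = fun τ =>
        (jj τ - jj (hh hl.pos none τ)) * (∏ b : Fin l, (jj τ - jj (hh hl.pos (some b) τ)) -
          ∏ b : Fin l, (jj τ - jj (hh hl.pos b0 τ))) +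
        (jj τ - jj (hh hl.pos none τ)) * ((jj τ - jj (hh hl.pos b0 τ)) ^ l -
          (jj τ ^ l - jj (hh hl.pos b0 τ) ^ l)) +
        (jj τ - jj (hh hl.pos none τ)) * (jj τ - jj (hh hl.pos b0 τ) ^ l) +
        (jj τ ^ l - jj τ) * -(jj (hh hl.pos none τ) - jj τ ^ l) := by
      funext τ
      unfold dg
      rw [Fintype.prod_option, Finset.prod_const, Finset.card_univ, Fintype.card_fin]
      ring
    rw [e]
    exact h9

end Pool.Agent.H882
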