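import Pool.Agent.H882.CenE
import Pool.Agent.H882.CenCount

/-!
The exceptional residue classes for all primes.
-/

set_option autoImplicit false

namespace Pool.Agent.H882

open UpperHalfPlane H294ZP Function Pool.Agent.N135.ZO NumberField IsDedekindDomain
open Pool.Agent.Y226

theorem bound_E {n : ℕ} (E : ∀ p : ℕ, Set (Fin n → ZMod p))
    (hE : ∀ p, ∀ H : ℕ, (∀ a, (SM p a).ncard ≤ H) →
      (E p).ncard ≤ (n * (H + 2) + n * n * (18 * H)) * p ^ (n - 1)) {ε : ℝ} (hε : 0 < ε) :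
    ∃ C : ℝ, ∀ p : ℕ, p.Prime → ((E p).ncard : ℝ) ≤ C * (p : ℝ) ^ ((n : ℝ) - 1 / 2 + ε) := by
  obtain ⟨C, hC1, hC⟩ := SM_bound hε
  refine ⟨(3 * n + 18 * n ^ 2) * C, fun p hp => ?_⟩
  have hp0 : (0 : ℝ) < p := by exact_mod_cast hp.pos
  have hp1 : (1 : ℝ) ≤ p := by exact_mod_cast hp.one_lt.le
  rcases Nat.eq_zero_or_pos n with rfl | hn
  · have h1 : (E p).ncard ≤ 0 := by
      have h2 := hE p (Nat.floor (C * (p : ℝ) ^ (1 / 2 + ε))) fun a => Nat.le_floor (hC p hp a)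
      simpa using h2
    have h2 : ((E p).ncard : ℝ) = 0 := by exact_mod_cast Nat.le_zero.1 h1
    rw [h2]
    simp
  · have hX1 : (1 : ℝ) ≤ C * (p : ℝ) ^ (1 / 2 + ε) := by
      have : (1 : ℝ) ≤ (p : ℝ) ^ (1 / 2 + ε) := Real.one_le_rpow hp1 (by positivity)
      nlinarith
    set X := C * (p : ℝ) ^ (1 / 2 + ε) with hX
    set H := Nat.floor X with hH
    have h2 := hE p H fun a => Nat.le_floor (hC p hp a)
    have hHX : (H : ℝ) ≤ X := Nat.floor_le (by linarith)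
    have h3 : ((E p).ncard : ℝ) ≤ (n * (H + 2) + n * n * (18 * H)) * (p : ℝ) ^ (n - 1) := by
      exact_mod_cast h2
    have hn0 : (0 : ℝ) ≤ n := Nat.cast_nonneg _
    calc ((E p).ncard : ℝ) ≤ (n * (H + 2) + n * n * (18 * H)) * (p : ℝ) ^ (n - 1) := h3
      _ ≤ ((3 * n + 18 * n ^ 2) * X) * (p : ℝ) ^ (n - 1) := by
          refine mul_le_mul_of_nonneg_right ?_ (by positivity)
          have e1 : (n : ℝ) * (H + 2) ≤ n * (3 * X) := mul_le_mul_of_nonneg_left (by linarith) hn0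
          have e2 : (n : ℝ) * n * (18 * H) ≤ n * n * (18 * X) :=
            mul_le_mul_of_nonneg_left (by linarith) (by positivity)
          nlinarith
      _ = (3 * n + 18 * n ^ 2) * C * ((p : ℝ) ^ (1 / 2 + ε) * (p : ℝ) ^ (n - 1)) := by
          rw [hX]
          ring
      _ = (3 * n + 18 * n ^ 2) * C * (p : ℝ) ^ ((n : ℝ) - 1 / 2 + ε) := by
          congr 1
          rw [← Real.rpow_natCast, ← Real.rpow_add hp0]
          congr 1
          rw [Nat.cast_sub hn]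
          push_cast
          ring

theorem small_E {n : ℕ} (E : ∀ p : ℕ, Set (Fin n → ZMod p))
    (hE : ∀ ε : ℝ, 0 < ε → ∃ C : ℝ, ∀ p : ℕ, p.Prime →
      ((E p).ncard : ℝ) ≤ C * (p : ℝ) ^ ((n : ℝ) - 1 / 2 + ε)) (η : ℝ) (hη : 0 < η) :
    ∃ B : ℕ, ∀ p, p.Prime → B < p → ((E p).ncard : ℝ) ≤ η * (p : ℝ) ^ n := by
  obtain ⟨C, hC⟩ := hE (1 / 4) (by norm_num)
  obtain ⟨B, hB⟩ := exists_nat_ge ((max C 0 / η) ^ 4)
  refine ⟨B, fun p hp hBp => ?_⟩
  have hp0 : (0 : ℝ) < p := by exact_mod_cast hp.pos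
  have h1 : (max C 0 / η) ^ 4 ≤ (p : ℝ) := hB.trans (by exact_mod_cast hBp.le)
  have h2 : max C 0 / η ≤ (p : ℝ) ^ (1 / 4 : ℝ) := by
    have h3 : ((max C 0 / η) ^ 4) ^ (1 / 4 : ℝ) ≤ (p : ℝ) ^ (1 / 4 : ℝ) :=
      Real.rpow_le_rpow (by positivity) h1 (by norm_num)
    have h4 : ((max C 0 / η) ^ 4) ^ (1 / 4 : ℝ) = max C 0 / η := by
      rw [← Real.rpow_natCast, ← Real.rpow_mul (by positivity)]
      norm_num
    rwa [h4] at h3
  rw [div_le_iff₀ hη] at h2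
  have h5 : (p : ℝ) ^ ((n : ℝ) - 1 / 2 + 1 / 4) * (p : ℝ) ^ (1 / 4 : ℝ) = (p : ℝ) ^ n := by
    rw [← Real.rpow_add hp0, ← Real.rpow_natCast]
    congr 1
    ring
  calc ((E p).ncard : ℝ) ≤ C * (p : ℝ) ^ ((n : ℝ) - 1 / 2 + 1 / 4) := hC p hp
    _ ≤ ((p : ℝ) ^ (1 / 4 : ℝ) * η) * (p : ℝ) ^ ((n : ℝ) - 1 / 2 + 1 / 4) :=
        mul_le_mul_of_nonneg_right ((le_max_left _ _).trans h2) (by positivity)
    _ = η * ((p : ℝ) ^ ((n : ℝ) - 1 / 2 + 1 / 4) * (p : ℝ) ^ (1 / 4 : ℝ)) := by ring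
    _ = η * (p : ℝ) ^ n := by rw [h5]

/-- integrality away from finitely many primes -/
theorem PI_almost {K : Type} [Field K] [NumberField K] (b : K) :
    ∃ B : ℕ, ∀ p : ℕ, p.Prime → B < p → PI p b := by
  have halg : IsAlgebraic ℤ b := by
    have : IsAlgebraic ℚ b := Algebra.IsAlgebraic.isAlgebraic b
    exact (IsFractionRing.isAlgebraic_iff ℤ ℚ K).2 this
  obtain ⟨N, hN, hi⟩ := halg.exists_integral_multiple
  refine ⟨N.natAbs, fun p hp hlt => ⟨N.natAbs, fun h => ?_, ?_⟩⟩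
  · have := Nat.le_of_dvd (Int.natAbs_pos.2 hN) h
    omega
  · rw [zsmul_eq_mul] at hi
    rcases Int.natAbs_eq N with h | h
    · rw [h, Int.cast_natCast] at hi
      exact hi
    · rw [h, Int.cast_neg, Int.cast_natCast, neg_mul] at hi
      have h2 := hi.neg
      rw [neg_neg] at h2
      exact h2

theorem PI_zero {K : Type} [Field K] {p : ℕ} (hp : p.Prime) : PI p (0 : K) :=
  ⟨1, hp.one_lt.ne' ∘ fun h => Nat.dvd_one.1 h, by rw [mul_zero]; exact isIntegral_zero⟩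

end Pool.Agent.H882
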