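import Pool.Agent.H882.MvBad

/-!
The embeddings and the exceptional classes of the poles, for one prime.
-/

set_option autoImplicit false

namespace Pool.Agent.H882

open UpperHalfPlane H294ZP Function Pool.Agent.Y226 Cardinal

/-- The local data for an arbitrary set `V`. -/
def Loc (n d m p : ℕ) (E : Set (Fin n → ZMod p)) (Γ : ZMod p → Set ℂ) (F : Subfield ℂ)
    (V : Set (Fin d → ℂ)) (Bd : Set (Fin d → ZMod p)) : Prop :=
  ∃ (C : Type) (_ : NormedField C) (_ : IsUltrametricDist C) (_ : CompleteSpace C) (_ : CharZero C)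
    (_ : IsAlgClosed C) (φ₀ : QA →+* C), ‖(p : C)‖ = (p : ℝ)⁻¹ ∧ CoreC n p E Γ φ₀ ∧
    ∀ δ : Fin d → ℤ, (fun i => (δ i : ZMod p)) ∉ Bd → ∀ w ∈ Inv δ V,
      ∀ {ι : Type} [Finite ι] (u : ι → ℂ), AlgebraicIndependent F u → ∀ (a : ι → QA),
        ∃ Φ : ℂ →+* C, (∀ a : QA, Φ (a : ℂ) = φ₀ a) ∧ (∀ i, ‖Φ (u i) - φ₀ (a i)‖ < 1) ∧
          (Finset.univ.filter fun i => 1 < ‖Φ (w i)‖).card ≤ m

theorem mv_prime {n d m : ℕ} {F : Subfield ℂ} (hF : #F ≤ ℵ₀) {V : Set (Fin d → ℂ)}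
    (P : Finset (Fin d) → MvPolynomial (Fin d) ℂ)
    (hP : ∀ J : Finset (Fin d), J.card = m + 1 → (∀ y ∈ V, MvPolynomial.eval y (P J) = 0) ∧
      ∀ u ∈ (P J).support, u.support ⊆ J)
    (hP0 : ∀ J : Finset (Fin d), J.card = m + 1 → P J ≠ 0)
    (hPF : ∀ (J : Finset (Fin d)) (u : Fin d →₀ ℕ), (P J).coeff u ∈ F) :
    ∃ B K : ℕ, ∀ p : ℕ, p.Prime → B < p → ∀ (E : Set (Fin n → ZMod p)) (Γ : ZMod p → Set ℂ),
      Core n p E Γ → ∃ Bd : Set (Fin d → ZMod p), Bd.ncard ≤ K * p ^ (d - 1) ∧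
        (d = 0 → Bd = ∅) ∧ Loc n d m p E Γ F V Bd := by
  classical
  let S : Finset ℂ := (Finset.univ : Finset (Finset (Fin d))).biUnion fun J =>
    (P J).support.image (P J).coeff
  have hS : ∀ b ∈ S, b ≠ 0 := by
    intro b hb
    obtain ⟨J, -, hJ⟩ := Finset.mem_biUnion.1 hb
    obtain ⟨u, hu, rfl⟩ := Finset.mem_image.1 hJ
    exact MvPolynomial.mem_support_iff.1 hu
  obtain ⟨B, hB⟩ := good_embed_all S hS
  refine ⟨B, ∑ J, (P J).totalDegree, fun p hp hBp E Γ hcore => ?_⟩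
  have : NeZero p := ⟨hp.ne_zero⟩
  obtain ⟨C, i1, i2, i3, i4, i5, φ₀, hpC, hmain⟩ := hcore
  obtain ⟨Φ₁, hΦ₁, hΦS⟩ := hB p hp hBp C φ₀ hpC
  have hp1 : ‖(p : C)‖ < 1 := by
    rw [hpC]
    exact inv_lt_one_of_one_lt₀ (by exact_mod_cast hp.one_lt)
  have hp0 : 0 < ‖(p : C)‖ := by
    rw [hpC]
    exact inv_pos.2 (by exact_mod_cast hp.pos)
  have hpQ : 1 < ‖Φ₁ (((p : QA)⁻¹ : QA) : ℂ)‖ := by
    rw [hΦ₁, map_inv₀, map_natCast, norm_inv]
    exact (one_lt_inv₀ hp0).2 hp1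
  have hcoef : ∀ J, ∀ u ∈ (P J).support, ‖Φ₁ ((P J).coeff u)‖ = 1 := by
    intro J u hu
    exact hΦS _ (Finset.mem_biUnion.2 ⟨J, Finset.mem_univ J, Finset.mem_image_of_mem _ hu⟩)
  let T : Finset (Fin d) → Set (Fin d → ZMod p) := fun J => if J.card = m + 1 then
    {a | ‖Φ₁ (MvPolynomial.eval (fun i => ((a i).val : ℂ)) (P J))‖ < 1} else ∅
  have hTc : ∀ J, (T J).ncard ≤ (P J).totalDegree * p ^ (d - 1) := by
    intro J
    show (if J.card = m + 1 then _ else ∅ : Set (Fin d → ZMod p)).ncard ≤ _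
    split_ifs with hJ
    · exact count_small hp hp1 Φ₁ (P J) (hP0 J hJ) (hcoef J)
    · rw [Set.ncard_empty]
      exact Nat.zero_le _
  refine ⟨⋃ J, T J, ?_, ?_, C, i1, i2, i3, i4, i5, φ₀, hpC, hmain,
    fun δ hδ w hw ι _ u hu a => ?_⟩
  · refine (Set.ncard_iUnion_le_of_fintype _).trans ?_
    rw [Finset.sum_mul]
    exact Finset.sum_le_sum fun J _ => hTc J
  · intro hd0
    rw [Set.iUnion_eq_empty]
    intro J
    refine if_neg fun h => ?_
    have h1 := Finset.card_le_univ J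
    rw [Fintype.card_fin] at h1
    omega
  · obtain ⟨Φ, hΦF, hΦQ, hΦu⟩ := exists_over F hF Φ₁ ((p : QA)⁻¹) hpQ u hu a (fun _ => 1)
      (fun _ => one_pos)
    have hΦ₀ : ∀ a : QA, Φ (a : ℂ) = φ₀ a := fun a => (hΦQ a).trans (hΦ₁ a)
    refine ⟨Φ, hΦ₀, fun i => ?_, ?_⟩
    · have h1 := hΦu i
      rw [hΦ₁] at h1
      exact h1
    · refine bad_Inv P hP Φ (fun J hJ => ⟨fun v hv => ?_, ?_⟩) hw
      · rw [hΦF _ (hPF J v), hcoef J v hv]
      · have hmemF : MvPolynomial.eval (fun i => (δ i : ℂ)) (P J) ∈ F := by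
          rw [MvPolynomial.eval_eq']
          refine sum_mem fun v _ => mul_mem (hPF J v) (prod_mem fun i _ => pow_mem ?_ _)
          exact intCast_mem F (δ i)
        rw [hΦF _ hmemF]
        have hδJ : (fun i => (δ i : ZMod p)) ∉ T J := fun h => hδ (Set.mem_iUnion.2 ⟨J, h⟩)
        have hTJ : T J = {a | ‖Φ₁ (MvPolynomial.eval (fun i => ((a i).val : ℂ)) (P J))‖ < 1} :=
          if_pos hJ
        rw [hTJ] at hδJ
        have h1 : ¬ ‖Φ₁ (MvPolynomial.eval (fun i => (((δ i : ZMod p)).val : ℂ)) (P J))‖ < 1 := hδJ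
        have h2 : Nr (Φ₁ (MvPolynomial.eval (fun i => (δ i : ℂ)) (P J)))
            (Φ₁ (MvPolynomial.eval (fun i => (((δ i : ZMod p)).val : ℂ)) (P J))) := by
          rw [MvPolynomial.eval_eq', MvPolynomial.eval_eq', map_sum, map_sum]
          refine Nr.sum _ fun v hv => ?_
          rw [map_mul, map_mul, map_prod, map_prod]
          refine (Nr.rfl' (hcoef J v hv).le).mul (Nr.prod _ fun i _ => ?_)
          rw [map_pow, map_pow]
          refine Nr.pow ?_ _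
          rw [map_intCast, map_natCast]
          refine ⟨IsUltrametricDist.norm_intCast_le_one C _, ?_, ?_⟩
          · simpa using IsUltrametricDist.norm_intCast_le_one C (((δ i : ZMod p)).val : ℤ)
          · have h3 : (p : ℤ) ∣ δ i - (((δ i : ZMod p)).val : ℤ) := by
              rw [← ZMod.intCast_zmod_eq_zero_iff_dvd]
              push_cast
              rw [ZMod.natCast_zmod_val, sub_self]
            have h4 := (norm_le_p (C := C) h3).trans_lt hp1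
            push_cast at h4
            exact h4
        exact h2.norm_eq (le_antisymm h2.2.1 (not_lt.1 h1))

end Pool.Agent.H882
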