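import Pool.Agent.H882.FmCls
import Pool.Agent.H882.MvPrime

/-!
The embeddings and the exceptional classes of the parameters, for one prime.
-/

set_option autoImplicit false

namespace Pool.Agent.H882

open UpperHalfPlane H294ZP Function Pool.Agent.Y226 Cardinal

/-- The local data: for parameters outside the exceptional classes, there are embeddings for which
the elements of `S` and the values of the polynomials in `Q` are units. -/
def LocF (n N p : ℕ) (E : Set (Fin n → ZMod p)) (Γ : ZMod p → Set ℂ) (F : Subfield ℂ)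
    (Q : Finset (MvPolynomial (Fin N) ℂ)) (S : Finset ℂ) (Bd : Set (Fin N → ZMod p)) : Prop :=
  ∃ (C : Type) (_ : NormedField C) (_ : IsUltrametricDist C) (_ : CompleteSpace C) (_ : CharZero C)
    (_ : IsAlgClosed C) (φ₀ : QA →+* C), ‖(p : C)‖ = (p : ℝ)⁻¹ ∧ CoreCW n p E Γ φ₀ ∧
    ∀ u : Fin N → ℤ, red p u ∉ Bd →
      ∀ {ι : Type} [Finite ι] (y : ι → ℂ), AlgebraicIndependent F y → ∀ (a : ι → QA),
        ∃ Φ : ℂ →+* C, (∀ a : QA, Φ (a : ℂ) = φ₀ a) ∧ (∀ i, ‖Φ (y i) - φ₀ (a i)‖ < 1) ∧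
          (∀ b ∈ S, ‖Φ b‖ = 1) ∧ ∀ q ∈ Q, ‖Φ (MvPolynomial.eval (fun i => (u i : ℂ)) q)‖ = 1

theorem fm_prime {n N : ℕ} {F : Subfield ℂ} (hF : #F ≤ ℵ₀) (Q : Finset (MvPolynomial (Fin N) ℂ))
    (hQ0 : ∀ q ∈ Q, q ≠ 0) (hQF : ∀ q ∈ Q, ∀ u, q.coeff u ∈ F) (S : Finset ℂ)
    (hS0 : ∀ b ∈ S, b ≠ 0) (hSF : ∀ b ∈ S, b ∈ F) :
    ∃ B K : ℕ, ∀ p : ℕ, p.Prime → B < p → ∀ (E : Set (Fin n → ZMod p)) (Γ : ZMod p → Set ℂ),
      CoreW n p E Γ → ∃ Bd : Set (Fin N → ZMod p), Bd.ncard ≤ K * p ^ (N - 1) ∧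
        (N = 0 → Bd = ∅) ∧ LocF n N p E Γ F Q S Bd := by
  classical
  let S' : Finset ℂ := S ∪ Q.biUnion fun q => q.support.image q.coeff
  have hS' : ∀ b ∈ S', b ≠ 0 := by
    intro b hb
    rcases Finset.mem_union.1 hb with hb | hb
    · exact hS0 b hb
    · obtain ⟨q, -, hq⟩ := Finset.mem_biUnion.1 hb
      obtain ⟨u, hu, rfl⟩ := Finset.mem_image.1 hq
      exact MvPolynomial.mem_support_iff.1 hu
  obtain ⟨B, hB⟩ := good_embed_all S' hS'
  refine ⟨B, ∑ q ∈ Q, q.totalDegree, fun p hp hBp E Γ hcore => ?_⟩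
  have : NeZero p := ⟨hp.ne_zero⟩
  obtain ⟨C, i1, i2, i3, i4, i5, φ₀, hpC, hmain⟩ := hcore
  obtain ⟨Φ₁, hΦ₁, hΦS⟩ := hB p hp hBp C φ₀ hpC
  have hp1 : ‖(p : C)‖ < 1 := by
    rw [hpC]
    exact inv_lt_one_of_one_lt₀ (by exact_mod_cast hp.one_lt)
  have hp0 : 0 < ‖(p : C)‖ := by
    rw [hpC]
    exact inv_pos.2 (by exact_mod_cast hp.pos)
  have hpQ : 1 < ‖Φ₁ (((p : QA)⁻¹ : QA) : ℂ)‖ := by
    rw [hΦ₁, map_inv₀, map_natCast, norm_inv]
    exact (one_lt_inv₀ hp0).2 hp1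
  have hcoef : ∀ q ∈ Q, ∀ u ∈ q.support, ‖Φ₁ (q.coeff u)‖ = 1 := by
    intro q hq u hu
    exact hΦS _ (Finset.mem_union_right _
      (Finset.mem_biUnion.2 ⟨q, hq, Finset.mem_image_of_mem _ hu⟩))
  let T : MvPolynomial (Fin N) ℂ → Set (Fin N → ZMod p) := fun q =>
    {a | ‖Φ₁ (MvPolynomial.eval (fun i => ((a i).val : ℂ)) q)‖ < 1}
  have hTc : ∀ q ∈ Q, (T q).ncard ≤ q.totalDegree * p ^ (N - 1) := fun q hq =>
    count_small hp hp1 Φ₁ q (hQ0 q hq) (hcoef q hq)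
  have hB1 : (⋃ q ∈ Q, T q).ncard ≤ (∑ q ∈ Q, q.totalDegree) * p ^ (N - 1) := by
    refine (Finset.set_ncard_biUnion_le Q T).trans ?_
    rw [Finset.sum_mul]
    exact Finset.sum_le_sum hTc
  refine ⟨⋃ q ∈ Q, T q, hB1, ?_, C, i1, i2, i3, i4, i5, φ₀, hpC, hmain,
    fun u hu ι _ y hy a => ?_⟩
  · intro hN
    subst hN
    have h0 : ∀ q : MvPolynomial (Fin 0) ℂ, q.totalDegree = 0 := by
      intro q
      refine Nat.le_zero.1 (Finset.sup_le fun s _ => ?_)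
      rw [Subsingleton.elim s 0, Finsupp.sum_zero_index]
    rw [Finset.sum_eq_zero fun q _ => h0 q, zero_mul, Nat.le_zero,
      Set.ncard_eq_zero (Set.toFinite _)] at hB1
    exact hB1
  · obtain ⟨Φ, hΦF, hΦQ, hΦu⟩ := exists_over F hF Φ₁ ((p : QA)⁻¹) hpQ y hy a (fun _ => 1)
      (fun _ => one_pos)
    have hΦ₀ : ∀ a : QA, Φ (a : ℂ) = φ₀ a := fun a => (hΦQ a).trans (hΦ₁ a)
    refine ⟨Φ, hΦ₀, fun i => ?_, fun b hb => ?_, fun q hq => ?_⟩
    · have h1 := hΦu i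
      rw [hΦ₁] at h1
      exact h1
    · rw [hΦF b (hSF b hb)]
      exact hΦS b (Finset.mem_union_left _ hb)
    · have hmemF : MvPolynomial.eval (fun i => (u i : ℂ)) q ∈ F := by
        rw [MvPolynomial.eval_eq']
        refine sum_mem fun v _ => mul_mem (hQF q hq v) (prod_mem fun i _ => pow_mem ?_ _)
        exact intCast_mem F (u i)
      rw [hΦF _ hmemF]
      have h1 : ¬ ‖Φ₁ (MvPolynomial.eval (fun i => (((u i : ZMod p)).val : ℂ)) q)‖ < 1 :=
        fun h => hu (Set.mem_iUnion₂.2 ⟨q, hq, h⟩)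
      have h2 : Nr (Φ₁ (MvPolynomial.eval (fun i => (u i : ℂ)) q))
          (Φ₁ (MvPolynomial.eval (fun i => (((u i : ZMod p)).val : ℂ)) q)) := by
        rw [MvPolynomial.eval_eq', MvPolynomial.eval_eq', map_sum, map_sum]
        refine Nr.sum _ fun v hv => ?_
        rw [map_mul, map_mul, map_prod, map_prod]
        refine (Nr.rfl' (hcoef q hq v hv).le).mul (Nr.prod _ fun i _ => ?_)
        rw [map_pow, map_pow]
        refine Nr.pow ?_ _
        rw [map_intCast, map_natCast]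
        refine ⟨IsUltrametricDist.norm_intCast_le_one C _, ?_, ?_⟩
        · simpa using IsUltrametricDist.norm_intCast_le_one C (((u i : ZMod p)).val : ℤ)
        · have h3 : (p : ℤ) ∣ u i - (((u i : ZMod p)).val : ℤ) := by
            rw [← ZMod.intCast_zmod_eq_zero_iff_dvd]
            push_cast
            rw [ZMod.natCast_zmod_val, sub_self]
          have h4 := (norm_le_p (C := C) h3).trans_lt hp1
          push_cast at h4
          exact h4
      exact h2.norm_eq (le_antisymm h2.2.1 (not_lt.1 h1))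

end Pool.Agent.H882
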