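import Pool.Agent.H882.CoreAll
import Pool.Agent.H882.FmPrime

/-!
Isogenies between elliptic curves near to integral points in general position: the local theorem.
-/

set_option autoImplicit false

namespace Pool.Agent.H882

open UpperHalfPlane H294ZP Function Pool.Agent.N135.ZO NumberField IsDedekindDomain
open Pool.Agent.Y226

/-- The local statement for `E`, for one embedding of the algebraic numbers: values of `j` near to
different coordinates of `s` are not isogenous. -/
def CoreCI (n p : ℕ) (E : Set (Fin n → ZMod p)) {C : Type} [NormedField C] (φ₀ : QA →+* C) : Prop :=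
  ∀ Φ : ℂ →+* C, (∀ a : QA, Φ (a : ℂ) = φ₀ a) → ∀ (s : Fin n → ℤ),
    (fun i => (s i : ZMod p)) ∉ E → ∀ (i k : Fin n), i ≠ k → ∀ (M : M2) (w w' : ℍ), 0 < M.det →
      Rel M w w' → ‖Φ (jj w) - (s i : C)‖ < 1 → ¬ ‖Φ (jj w') - (s k : C)‖ < 1

/-- The local statement for `E`. -/
def CoreI (n p : ℕ) (E : Set (Fin n → ZMod p)) : Prop :=
  ∃ (C : Type) (_ : NormedField C) (_ : IsUltrametricDist C) (_ : CompleteSpace C) (_ : CharZero C)
    (_ : IsAlgClosed C) (φ₀ : QA →+* C), ‖(p : C)‖ = (p : ℝ)⁻¹ ∧ CoreCI n p E φ₀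

theorem core_data_i (n : ℕ) {p : ℕ} (hp : p.Prime) (hp3 : 3 < p) :
    ∃ (E : Set (Fin n → ZMod p)),
      (∀ H : ℕ, (∀ a, (SM p a).ncard ≤ H) →
        E.ncard ≤ (n * (H + 2) + n * n * (18 * H)) * p ^ (n - 1)) ∧ CoreI n p E := by
  classical
  have hpf : Fact p.Prime := ⟨hp⟩
  have hp2 : p ≠ 2 := by omega
  obtain ⟨C, _, _, _, _, _, φ₀, hpC⟩ := exists_padic p
  have hp1 : ‖(p : C)‖ < 1 := by
    rw [hpC]
    exact inv_lt_one_of_one_lt₀ (by exact_mod_cast hp.one_lt)
  have hp0 : 0 < ‖(p : C)‖ := by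
    rw [hpC]
    exact inv_pos.2 (by exact_mod_cast hp.pos)
  have hpQ : 1 < ‖φ₀ ((p : QA)⁻¹)‖ := by
    rw [map_inv₀, map_natCast, norm_inv]
    exact (one_lt_inv₀ hp0).2 hp1
  obtain ⟨Ψ, hΨ, -⟩ := exists_ext φ₀ ((p : QA)⁻¹) hpQ (fun i : Empty => (0 : ℂ))
    (by
      rw [algebraicIndependent_empty_type_iff]
      exact (algebraMap QA ℂ).injective) 0
  choose t M hM hrel hnear using fun a : ZMod p => exists_root hp hp2 hp1 Ψ (a.val : ℤ)
  obtain ⟨P⟩ := exists_pkg hp hp2
  -- integers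
  have hval : ∀ (s : ℤ), (p : ℤ) ∣ s - ((s : ZMod p).val : ℤ) := by
    intro s
    rw [← ZMod.intCast_zmod_eq_zero_iff_dvd]
    push_cast
    rw [ZMod.natCast_zmod_val, sub_self]
  have heq : ∀ a b : ZMod p, ‖((a.val : ℤ) : C) - ((b.val : ℤ) : C)‖ < 1 → a = b := by
    intro a b h
    rw [← Int.cast_sub] at h
    have h1 := dvd_of_norm hp hp1 h
    rw [← ZMod.intCast_zmod_eq_zero_iff_dvd] at h1
    push_cast at h1
    rw [ZMod.natCast_zmod_val, ZMod.natCast_zmod_val] at h1
    exact sub_eq_zero.1 h1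
  have hnearZ : ∀ s : ℤ, ‖Ψ (jj (t (s : ZMod p))) - (s : C)‖ < 1 := by
    intro s
    have e : Ψ (jj (t (s : ZMod p))) - (s : C) = (Ψ (jj (t (s : ZMod p))) -
        (((s : ZMod p).val : ℤ) : C)) + -((s - ((s : ZMod p).val : ℤ) : ℤ) : C) := by
      push_cast
      ring
    rw [e]
    refine nadd_lt (hnear _) ?_
    rw [norm_neg]
    exact (norm_le_p (hval s)).trans_lt hp1
  have hinj : ∀ a b : ZMod p, jj (t a) = jj (t b) → a = b := by
    intro a b h
    apply heq
    have e : ((a.val : ℤ) : C) - ((b.val : ℤ) : C) = -(Ψ (jj (t a)) - ((a.val : ℤ) : C)) +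
        (Ψ (jj (t b)) - ((b.val : ℤ) : C)) := by
      rw [h]
      ring
    rw [e]
    refine nadd_lt ?_ (hnear b)
    rw [norm_neg]
    exact hnear a
  have hunit : ∀ (a : ZMod p) (k : ℤ), a ≠ (k : ZMod p) → ‖Ψ (jj (t a)) - (k : C)‖ = 1 := by
    intro a k hak
    refine le_antisymm ?_ ?_
    · refine nsub_le ?_ (IsUltrametricDist.norm_intCast_le_one C k)
      exact norm_le_one_of_isIntegral Ψ (singular_modulus_integral _ (isCM_of_fix hp (hM a) (hrel a)))
    · by_contra hcon
      push Not at hcon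
      have h1 : ‖(((a.val : ℤ) - k : ℤ) : C)‖ < 1 := by
        have e : (((a.val : ℤ) - k : ℤ) : C) = -(Ψ (jj (t a)) - ((a.val : ℤ) : C)) +
            (Ψ (jj (t a)) - (k : C)) := by
          push_cast
          ring
        rw [e]
        refine nadd_lt ?_ hcon
        rw [norm_neg]
        exact hnear a
      have h2 := dvd_of_norm hp hp1 h1
      rw [← ZMod.intCast_zmod_eq_zero_iff_dvd] at h2
      push_cast at h2
      rw [ZMod.natCast_zmod_val] at h2
      exact hak (sub_eq_zero.1 h2)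
  have hn0 : ∀ a : ZMod p, a ≠ 0 → ‖Ψ (jj (t a))‖ = 1 := by
    intro a ha
    have := hunit a 0 (by simpa using ha)
    simpa using this
  have hn1 : ∀ a : ZMod p, a ≠ 1728 → ‖Ψ (jj (t a) - 1728)‖ = 1 := by
    intro a ha
    have h1 := hunit a 1728 (by simpa using ha)
    have e : Ψ (jj (t a) - 1728) = Ψ (jj (t a)) - ((1728 : ℤ) : C) := by
      rw [map_sub]
      congr 1
      have := map_ofNat Ψ 1728
      simpa using this
    rw [e]
    exact h1
  -- the exceptional classes
  set b1 : Finset (ZMod p) := Finset.univ.filter fun a => (M a).trace = 0 ∨ a = 0 ∨ a = 1728 with hb1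
  set b2 : ZMod p → Finset (ZMod p) := fun a =>
    Finset.univ.filter fun b => Isog (jj (t a)) (jj (t b)) with hb2
  set E : Set (Fin n → ZMod p) := {s | (∃ i, s i ∈ b1) ∨ ∃ i k, i ≠ k ∧ s k ∈ b2 (s i)} with hE
  refine ⟨E, ?_, ?_⟩
  · intro H hH
    have hb1c : b1.card ≤ H + 2 := by
      have h1 : b1 ⊆ (Finset.univ.filter fun a => (M a).trace = 0) ∪ {0, 1728} := by
        intro a ha
        rw [hb1, Finset.mem_filter] at ha
        rw [Finset.mem_union, Finset.mem_filter, Finset.mem_insert, Finset.mem_singleton]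
        rcases ha.2 with h | h | h
        · exact Or.inl ⟨Finset.mem_univ a, h⟩
        · exact Or.inr (Or.inl h)
        · exact Or.inr (Or.inr h)
      refine (Finset.card_le_card h1).trans ((Finset.card_union_le _ _).trans ?_)
      refine Nat.add_le_add ?_ Finset.card_le_two
      refine le_trans ?_ (hH 0)
      rw [← Set.ncard_coe_finset]
      refine Set.ncard_le_ncard_of_injOn (fun a => jj (t a)) ?_ ?_ (SM_card hp 0).1
      · intro a ha
        rw [Finset.mem_coe, Finset.mem_filter] at ha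
        exact ⟨t a, M a, hM a, ha.2, hrel a, rfl⟩
      · intro a _ b _ h
        exact hinj a b h
    have hb2c : ∀ a, (b2 a).card ≤ 18 * H := by
      intro a
      obtain ⟨F, hF1, hF2⟩ := few_traces hp (M a).trace
      have h1 : (b2 a).card ≤ (⋃ a' ∈ F, SM p a').ncard := by
        rw [← Set.ncard_coe_finset]
        refine Set.ncard_le_ncard_of_injOn (fun b => jj (t b)) ?_ ?_
          (Set.Finite.biUnion (Finset.finite_toSet _) fun a' _ => (SM_card hp a').1)
        · intro b hb
          rw [Finset.mem_coe, hb2, Finset.mem_filter] at hb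
          have hz : jj (t a) ∈ SM p (M a).trace := ⟨t a, M a, hM a, rfl, hrel a, rfl⟩
          have hz' : jj (t b) ∈ SM p (M b).trace := ⟨t b, M b, hM b, rfl, hrel b, rfl⟩
          refine Set.mem_iUnion₂.2 ⟨(M b).trace, ?_, hz'⟩
          exact hF2 _ (trace_sq_lt hp (hM a) (hrel a)) (trace_sq_lt hp (hM b) (hrel b))
            (sq_of_isog hp hz hz' hb.2)
        · intro b _ b' _ h
          exact hinj b b' h
      refine h1.trans ((Finset.set_ncard_biUnion_le F _).trans ?_)
      calc ∑ a' ∈ F, (SM p a').ncard ≤ ∑ a' ∈ F, H := Finset.sum_le_sum fun a' _ => hH a'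
        _ = F.card * H := by rw [Finset.sum_const, smul_eq_mul]
        _ ≤ 18 * H := Nat.mul_le_mul_right _ hF1
    let big : Finset (Fin n → ZMod p) := ((Finset.univ : Finset (Fin n)).biUnion fun i =>
        Finset.univ.filter fun s : Fin n → ZMod p => s i ∈ b1) ∪
        ((Finset.univ : Finset (Fin n × Fin n)).biUnion fun ik =>
        Finset.univ.filter fun s : Fin n → ZMod p => s ik.2 ∈
          (if ik.1 = ik.2 then (∅ : Finset (ZMod p)) else b2 (s ik.1)))
    have hsub : E ⊆ (big : Set (Fin n → ZMod p)) := by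
      intro s hs
      rw [Finset.mem_coe, Finset.mem_union, Finset.mem_biUnion, Finset.mem_biUnion]
      rcases hs with ⟨i, hi⟩ | ⟨i, k, hik, hk⟩
      · exact Or.inl ⟨i, Finset.mem_univ i, Finset.mem_filter.2 ⟨Finset.mem_univ s, hi⟩⟩
      · refine Or.inr ⟨(i, k), Finset.mem_univ _, Finset.mem_filter.2 ⟨Finset.mem_univ s, ?_⟩⟩
        simp only [hik, if_false]
        exact hk
    refine (Set.ncard_le_ncard hsub (Finset.finite_toSet _)).trans ?_
    rw [Set.ncard_coe_finset]
    refine (Finset.card_union_le _ _).trans ?_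
    rw [add_mul]
    refine Nat.add_le_add ?_ ?_
    · refine (Finset.card_biUnion_le).trans ?_
      calc _ ≤ ∑ i : Fin n, (H + 2) * p ^ (n - 1) := Finset.sum_le_sum fun i _ =>
            count_coord i (fun _ => b1) (fun _ _ => rfl) (H + 2) fun _ => hb1c
        _ = _ := by
          rw [Finset.sum_const, Finset.card_univ, Fintype.card_fin, smul_eq_mul, mul_assoc]
    · refine (Finset.card_biUnion_le).trans ?_
      calc _ ≤ ∑ ik : Fin n × Fin n, (18 * H) * p ^ (n - 1) := Finset.sum_le_sum fun ik _ => by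
            refine count_coord ik.2 (fun s => if ik.1 = ik.2 then (∅ : Finset (ZMod p)) else
              b2 (s ik.1)) (fun s b => ?_) (18 * H) fun s => ?_
            · by_cases h : ik.1 = ik.2
              · simp [h]
              · simp [h]
            · by_cases h : ik.1 = ik.2
              · simp [h]
              · simp only [h, if_false]
                exact hb2c _
        _ = _ := by
          rw [Finset.sum_const, Finset.card_univ, Fintype.card_prod, Fintype.card_fin,
            smul_eq_mul]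
          ring
  · refine ⟨C, inferInstance, inferInstance, inferInstance, inferInstance, inferInstance, φ₀, hpC,
      fun Φ hΦ s hs i k hik A w w' hdet hrel' hi hk => ?_⟩
    have hs1 : ∀ i, (M (s i : ZMod p)).trace ≠ 0 ∧ (s i : ZMod p) ≠ 0 ∧ (s i : ZMod p) ≠ 1728 := by
      intro i
      by_contra hcon
      apply hs
      refine Or.inl ⟨i, ?_⟩
      rw [hb1, Finset.mem_filter]
      refine ⟨Finset.mem_univ _, ?_⟩
      by_contra h
      push Not at h
      exact hcon h
    have hcm : ∀ i, IsCM (t (s i : ZMod p)) := fun i => isCM_of_fix hp (hM _) (hrel _)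
    have hΦQ : ∀ z : ℂ, z ∈ QA → Φ z = Ψ z := fun z hz => (hΦ ⟨z, hz⟩).trans (hΨ ⟨z, hz⟩).symm
    have hΦj : ∀ i, Φ (jj (t (s i : ZMod p))) = Ψ (jj (t (s i : ZMod p))) :=
      fun i => hΦQ _ (cm_mem_QA (hcm i))
    have hpV : (VF Φ).valuation (p : ℂ) < 1 := by
      rw [VF_lt_one, map_natCast]
      exact hp1
    have hG0 : ∀ i, G0 P (VF Φ) (jj (t (s i : ZMod p))) := by
      intro i
      refine G0_of hp hp1 P Φ (ordAt_of_trace hp hp3 (hM _) (hrel _) (hs1 i).1) ?_ ?_
      · rw [hΦj]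
        exact hn0 _ (hs1 i).2.1
      · have e : Φ (jj (t (s i : ZMod p)) - 1728) = Ψ (jj (t (s i : ZMod p)) - 1728) := by
          rw [map_sub, map_sub, hΦj]
          congr 1
          exact (map_ofNat Φ 1728).trans (map_ofNat Ψ 1728).symm
        rw [e]
        exact hn1 _ (hs1 i).2.2
    have hxO : ∀ (i : Fin n) (z : ℂ), ‖Φ z - (s i : C)‖ < 1 →
        (VF Φ).valuation (z - jj (t (s i : ZMod p))) < 1 := by
      intro i z hz
      rw [VF_lt_one, map_sub, hΦj]
      have e : Φ z - Ψ (jj (t (s i : ZMod p))) =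
          (Φ z - (s i : C)) + -(Ψ (jj (t (s i : ZMod p))) - (s i : C)) := by
        ring
      rw [e]
      refine nadd_lt hz ?_
      rw [norm_neg]
      exact hnearZ (s i)
    have hiso := near_isog hp hp2 hpV P (hcm i) (hcm k) (hG0 i) (hG0 k) hdet hrel'
      (hxO i _ hi) (hxO k _ hk)
    apply hs
    refine Or.inr ⟨i, k, hik, ?_⟩
    rw [hb2, Finset.mem_filter]
    exact ⟨Finset.mem_univ _, hiso⟩

/-- The classes for all primes. -/
theorem core_all_i (n : ℕ) : ∃ (E : ∀ p : ℕ, Set (Fin n → ZMod p)),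
    (∀ ε : ℝ, 0 < ε → ∃ C : ℝ, ∀ p : ℕ, p.Prime →
      ((E p).ncard : ℝ) ≤ C * (p : ℝ) ^ ((n : ℝ) - 1 / 2 + ε)) ∧
    ∀ p : ℕ, p.Prime → 3 < p → CoreI n p (E p) := by
  classical
  have hdata : ∀ p : ℕ, ∃ (E : Set (Fin n → ZMod p)),
      (∀ H : ℕ, (∀ a, (SM p a).ncard ≤ H) →
        E.ncard ≤ (n * (H + 2) + n * n * (18 * H)) * p ^ (n - 1)) ∧
      (p.Prime → 3 < p → CoreI n p E) := by
    intro p
    by_cases h : p.Prime ∧ 3 < p
    · obtain ⟨E, h3, h4⟩ := core_data_i n h.1 h.2
      exact ⟨E, h3, fun _ _ => h4⟩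
    · refine ⟨∅, fun H _ => ?_, fun h1 h2 => absurd ⟨h1, h2⟩ h⟩
      rw [Set.ncard_empty]
      exact Nat.zero_le _
  choose E hE hcore using hdata
  exact ⟨E, fun ε hε => bound_E E hE hε, hcore⟩

end Pool.Agent.H882
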