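import Pool.Agent.H882.CenRes

/-!
The local theorem for arbitrary embeddings which extend a given one on the algebraic numbers.
-/

set_option autoImplicit false

namespace Pool.Agent.H882

open UpperHalfPlane H294ZP Function Pool.Agent.N135.ZO NumberField IsDedekindDomain
open Pool.Agent.Y226

/-- The local statement for `E` and `Γ`. -/
def Core (n p : ℕ) (E : Set (Fin n → ZMod p)) (Γ : ZMod p → Set ℂ) : Prop :=
  ∃ (C : Type) (_ : NormedField C) (_ : IsUltrametricDist C) (_ : CompleteSpace C) (_ : CharZero C)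
    (_ : IsAlgClosed C) (φ₀ : QA →+* C), ‖(p : C)‖ = (p : ℝ)⁻¹ ∧
    ∀ Φ : ℂ →+* C, (∀ a : QA, Φ (a : ℂ) = φ₀ a) → ∀ (s : Fin n → ℤ),
      (fun i => (s i : ZMod p)) ∉ E → ∀ (r : ℕ) (Z : SpecialDatum n r) (x : Fin n → ℂ),
      x ∈ Z.locus → ∀ (J W : Finset (Fin n)), (∀ i ∈ J, ‖Φ (x i) - (s i : C)‖ ≤ ‖(p : C)‖) →
      (∀ i ∈ J, x i ∉ Γ (s i)) → (∀ i ∈ W, 1 < ‖Φ (x i)‖) →
      AlgebraicIndependent ℚ (fun i : W => x i) → J.card + W.card ≤ r

/-- Everything about one prime. -/
theorem core_data (n : ℕ) {p : ℕ} (hp : p.Prime) (hp3 : 3 < p) :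
    ∃ (E : Set (Fin n → ZMod p)) (Γ : ZMod p → Set ℂ),
      (∀ a, (Γ a).Subsingleton ∧ ∀ z ∈ Γ a, ∃ τ : ℍ, IsCM τ ∧ jj τ = z) ∧
      (∀ z a b, z ∈ Γ a → z ∈ Γ b → a = b) ∧
      (∀ H : ℕ, (∀ a, (SM p a).ncard ≤ H) →
        E.ncard ≤ (n * (H + 2) + n * n * (18 * H)) * p ^ (n - 1)) ∧ Core n p E Γ := by
  classical
  have hpf : Fact p.Prime := ⟨hp⟩
  have hp2 : p ≠ 2 := by omega
  obtain ⟨C, _, _, _, _, _, φ₀, hpC⟩ := exists_padic p
  have hp1 : ‖(p : C)‖ < 1 := by
    rw [hpC]
    exact inv_lt_one_of_one_lt₀ (by exact_mod_cast hp.one_lt)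
  have hp0 : 0 < ‖(p : C)‖ := by
    rw [hpC]
    exact inv_pos.2 (by exact_mod_cast hp.pos)
  have hpQ : 1 < ‖φ₀ ((p : QA)⁻¹)‖ := by
    rw [map_inv₀, map_natCast, norm_inv]
    exact (one_lt_inv₀ hp0).2 hp1
  obtain ⟨Ψ, hΨ, -⟩ := exists_ext φ₀ ((p : QA)⁻¹) hpQ (fun i : Empty => (0 : ℂ))
    (by
      rw [algebraicIndependent_empty_type_iff]
      exact (algebraMap QA ℂ).injective) 0
  choose t M hM hrel hnear using fun a : ZMod p => exists_root hp hp2 hp1 Ψ (a.val : ℤ)
  obtain ⟨P⟩ := exists_pkg hp hp2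
  -- integers
  have hval : ∀ (s : ℤ), (p : ℤ) ∣ s - ((s : ZMod p).val : ℤ) := by
    intro s
    rw [← ZMod.intCast_zmod_eq_zero_iff_dvd]
    push_cast
    rw [ZMod.natCast_zmod_val, sub_self]
  have heq : ∀ a b : ZMod p, ‖((a.val : ℤ) : C) - ((b.val : ℤ) : C)‖ < 1 → a = b := by
    intro a b h
    rw [← Int.cast_sub] at h
    have h1 := dvd_of_norm hp hp1 h
    rw [← ZMod.intCast_zmod_eq_zero_iff_dvd] at h1
    push_cast at h1
    rw [ZMod.natCast_zmod_val, ZMod.natCast_zmod_val] at h1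
    exact sub_eq_zero.1 h1
  have hnearZ : ∀ s : ℤ, ‖Ψ (jj (t (s : ZMod p))) - (s : C)‖ < 1 := by
    intro s
    have e : Ψ (jj (t (s : ZMod p))) - (s : C) = (Ψ (jj (t (s : ZMod p))) -
        (((s : ZMod p).val : ℤ) : C)) + -((s - ((s : ZMod p).val : ℤ) : ℤ) : C) := by
      push_cast
      ring
    rw [e]
    refine nadd_lt (hnear _) ?_
    rw [norm_neg]
    exact (norm_le_p (hval s)).trans_lt hp1
  have hinj : ∀ a b : ZMod p, jj (t a) = jj (t b) → a = b := by
    intro a b h
    apply heq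
    have e : ((a.val : ℤ) : C) - ((b.val : ℤ) : C) = -(Ψ (jj (t a)) - ((a.val : ℤ) : C)) +
        (Ψ (jj (t b)) - ((b.val : ℤ) : C)) := by
      rw [h]
      ring
    rw [e]
    refine nadd_lt ?_ (hnear b)
    rw [norm_neg]
    exact hnear a
  have hunit : ∀ (a : ZMod p) (k : ℤ), a ≠ (k : ZMod p) → ‖Ψ (jj (t a)) - (k : C)‖ = 1 := by
    intro a k hak
    refine le_antisymm ?_ ?_
    · refine nsub_le ?_ (IsUltrametricDist.norm_intCast_le_one C k)
      exact norm_le_one_of_isIntegral Ψ (singular_modulus_integral _ (isCM_of_fix hp (hM a) (hrel a)))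
    · by_contra hcon
      push Not at hcon
      have h1 : ‖(((a.val : ℤ) - k : ℤ) : C)‖ < 1 := by
        have e : (((a.val : ℤ) - k : ℤ) : C) = -(Ψ (jj (t a)) - ((a.val : ℤ) : C)) +
            (Ψ (jj (t a)) - (k : C)) := by
          push_cast
          ring
        rw [e]
        refine nadd_lt ?_ hcon
        rw [norm_neg]
        exact hnear a
      have h2 := dvd_of_norm hp hp1 h1
      rw [← ZMod.intCast_zmod_eq_zero_iff_dvd] at h2
      push_cast at h2
      rw [ZMod.natCast_zmod_val] at h2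
      exact hak (sub_eq_zero.1 h2)
  have hn0 : ∀ a : ZMod p, a ≠ 0 → ‖Ψ (jj (t a))‖ = 1 := by
    intro a ha
    have := hunit a 0 (by simpa using ha)
    simpa using this
  have hn1 : ∀ a : ZMod p, a ≠ 1728 → ‖Ψ (jj (t a) - 1728)‖ = 1 := by
    intro a ha
    have h1 := hunit a 1728 (by simpa using ha)
    have e : Ψ (jj (t a) - 1728) = Ψ (jj (t a)) - ((1728 : ℤ) : C) := by
      rw [map_sub]
      congr 1
      have := map_ofNat Ψ 1728
      simpa using this
    rw [e]
    exact h1
  -- the exceptional classes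
  set b1 : Finset (ZMod p) := Finset.univ.filter fun a => (M a).trace = 0 ∨ a = 0 ∨ a = 1728 with hb1
  set b2 : ZMod p → Finset (ZMod p) := fun a =>
    Finset.univ.filter fun b => Isog (jj (t a)) (jj (t b)) with hb2
  set E : Set (Fin n → ZMod p) := {s | (∃ i, s i ∈ b1) ∨ ∃ i k, i ≠ k ∧ s k ∈ b2 (s i)} with hE
  set Γ : ZMod p → Set ℂ := fun a => {z | a ∉ b1 ∧ (∃ τ : ℍ, IsCM τ ∧ jj τ = z) ∧
    ‖Ψ z - ((a.val : ℤ) : C)‖ ≤ ‖(p : C)‖} with hΓ
  refine ⟨E, Γ, fun a => ⟨?_, ?_⟩, ?_, ?_, ?_⟩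
  · rintro z ⟨ha, ⟨τ, hτ, rfl⟩, hz⟩ z' ⟨-, ⟨τ', hτ', rfl⟩, hz'⟩
    have ha' : (M a).trace ≠ 0 ∧ a ≠ 0 ∧ a ≠ 1728 := by
      rw [hb1, Finset.mem_filter] at ha
      push Not at ha
      exact ha (Finset.mem_univ a)
    have hrad : ∀ {u : C}, ‖u‖ ≤ ‖(p : C)‖ → ‖u‖ ^ (p - 1) < ‖(p : C)‖ := by
      intro u hu
      calc ‖u‖ ^ (p - 1) ≤ ‖(p : C)‖ ^ (p - 1) := pow_le_pow_left₀ (norm_nonneg _) hu _
        _ < ‖(p : C)‖ ^ 1 := pow_lt_pow_right_of_lt_one₀ hp0 hp1 (by omega)
        _ = _ := pow_one _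
    refine cm_unique hp hp2 hp1 P hτ hτ' (G0_of hp hp1 P Ψ (ordAt_of_trace hp hp3 (hM a) (hrel a)
      ha'.1) (hn0 a ha'.2.1) (hn1 a ha'.2.2)) (s := ((a.val : ℤ) : C)) ?_ (hrad hz) (hrad hz')
    rw [← norm_neg, neg_sub]
    exact hnear a
  · rintro z ⟨-, h, -⟩
    exact h
  · rintro z a b ⟨-, -, h1⟩ ⟨-, -, h2⟩
    apply heq
    have e : ((a.val : ℤ) : C) - ((b.val : ℤ) : C) = -(Ψ z - ((a.val : ℤ) : C)) +
        (Ψ z - ((b.val : ℤ) : C)) := by ring
    rw [e]
    refine nadd_lt ?_ (h2.trans_lt hp1)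
    rw [norm_neg]
    exact h1.trans_lt hp1
  · intro H hH
    have hb1c : b1.card ≤ H + 2 := by
      have h1 : b1 ⊆ (Finset.univ.filter fun a => (M a).trace = 0) ∪ {0, 1728} := by
        intro a ha
        rw [hb1, Finset.mem_filter] at ha
        rw [Finset.mem_union, Finset.mem_filter, Finset.mem_insert, Finset.mem_singleton]
        rcases ha.2 with h | h | h
        · exact Or.inl ⟨Finset.mem_univ a, h⟩
        · exact Or.inr (Or.inl h)
        · exact Or.inr (Or.inr h)
      refine (Finset.card_le_card h1).trans ((Finset.card_union_le _ _).trans ?_)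
      refine Nat.add_le_add ?_ Finset.card_le_two
      refine le_trans ?_ (hH 0)
      rw [← Set.ncard_coe_finset]
      refine Set.ncard_le_ncard_of_injOn (fun a => jj (t a)) ?_ ?_ (SM_card hp 0).1
      · intro a ha
        rw [Finset.mem_coe, Finset.mem_filter] at ha
        exact ⟨t a, M a, hM a, ha.2, hrel a, rfl⟩
      · intro a _ b _ h
        exact hinj a b h
    have hb2c : ∀ a, (b2 a).card ≤ 18 * H := by
      intro a
      obtain ⟨F, hF1, hF2⟩ := few_traces hp (M a).trace
      have h1 : (b2 a).card ≤ (⋃ a' ∈ F, SM p a').ncard := by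
        rw [← Set.ncard_coe_finset]
        refine Set.ncard_le_ncard_of_injOn (fun b => jj (t b)) ?_ ?_
          (Set.Finite.biUnion (Finset.finite_toSet _) fun a' _ => (SM_card hp a').1)
        · intro b hb
          rw [Finset.mem_coe, hb2, Finset.mem_filter] at hb
          have hz : jj (t a) ∈ SM p (M a).trace := ⟨t a, M a, hM a, rfl, hrel a, rfl⟩
          have hz' : jj (t b) ∈ SM p (M b).trace := ⟨t b, M b, hM b, rfl, hrel b, rfl⟩
          refine Set.mem_iUnion₂.2 ⟨(M b).trace, ?_, hz'⟩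
          exact hF2 _ (trace_sq_lt hp (hM a) (hrel a)) (trace_sq_lt hp (hM b) (hrel b))
            (sq_of_isog hp hz hz' hb.2)
        · intro b _ b' _ h
          exact hinj b b' h
      refine h1.trans ((Finset.set_ncard_biUnion_le F _).trans ?_)
      calc ∑ a' ∈ F, (SM p a').ncard ≤ ∑ a' ∈ F, H := Finset.sum_le_sum fun a' _ => hH a'
        _ = F.card * H := by rw [Finset.sum_const, smul_eq_mul]
        _ ≤ 18 * H := Nat.mul_le_mul_right _ hF1
    let big : Finset (Fin n → ZMod p) := ((Finset.univ : Finset (Fin n)).biUnion fun i =>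
        Finset.univ.filter fun s : Fin n → ZMod p => s i ∈ b1) ∪
        ((Finset.univ : Finset (Fin n × Fin n)).biUnion fun ik =>
        Finset.univ.filter fun s : Fin n → ZMod p => s ik.2 ∈
          (if ik.1 = ik.2 then (∅ : Finset (ZMod p)) else b2 (s ik.1)))
    have hsub : E ⊆ (big : Set (Fin n → ZMod p)) := by
      intro s hs
      rw [Finset.mem_coe, Finset.mem_union, Finset.mem_biUnion, Finset.mem_biUnion]
      rcases hs with ⟨i, hi⟩ | ⟨i, k, hik, hk⟩
      · exact Or.inl ⟨i, Finset.mem_univ i, Finset.mem_filter.2 ⟨Finset.mem_univ s, hi⟩⟩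
      · refine Or.inr ⟨(i, k), Finset.mem_univ _, Finset.mem_filter.2 ⟨Finset.mem_univ s, ?_⟩⟩
        simp only [hik, if_false]
        exact hk
    refine (Set.ncard_le_ncard hsub (Finset.finite_toSet _)).trans ?_
    rw [Set.ncard_coe_finset]
    refine (Finset.card_union_le _ _).trans ?_
    rw [add_mul]
    refine Nat.add_le_add ?_ ?_
    · refine (Finset.card_biUnion_le).trans ?_
      calc _ ≤ ∑ i : Fin n, (H + 2) * p ^ (n - 1) := Finset.sum_le_sum fun i _ =>
            count_coord i (fun _ => b1) (fun _ _ => rfl) (H + 2) fun _ => hb1c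
        _ = _ := by
          rw [Finset.sum_const, Finset.card_univ, Fintype.card_fin, smul_eq_mul, mul_assoc]
    · refine (Finset.card_biUnion_le).trans ?_
      calc _ ≤ ∑ ik : Fin n × Fin n, (18 * H) * p ^ (n - 1) := Finset.sum_le_sum fun ik _ => by
            refine count_coord ik.2 (fun s => if ik.1 = ik.2 then (∅ : Finset (ZMod p)) else
              b2 (s ik.1)) (fun s b => ?_) (18 * H) fun s => ?_
            · by_cases h : ik.1 = ik.2
              · simp [h]
              · simp [h]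
            · by_cases h : ik.1 = ik.2
              · simp [h]
              · simp only [h, if_false]
                exact hb2c _
        _ = _ := by
          rw [Finset.sum_const, Finset.card_univ, Fintype.card_prod, Fintype.card_fin,
            smul_eq_mul]
          ring
  · refine ⟨C, inferInstance, inferInstance, inferInstance, inferInstance, inferInstance, φ₀, hpC,
      fun Φ hΦ s hs r Z x hxZ J W hJ hJΓ hxW hW => ?_⟩
    have hs1 : ∀ i, (M (s i : ZMod p)).trace ≠ 0 ∧ (s i : ZMod p) ≠ 0 ∧ (s i : ZMod p) ≠ 1728 := by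
      intro i
      by_contra hcon
      apply hs
      refine Or.inl ⟨i, ?_⟩
      rw [hb1, Finset.mem_filter]
      refine ⟨Finset.mem_univ _, ?_⟩
      by_contra h
      push Not at h
      exact hcon h
    have hcm : ∀ i, IsCM (t (s i : ZMod p)) := fun i => isCM_of_fix hp (hM _) (hrel _)
    have hΦQ : ∀ z : ℂ, z ∈ QA → Φ z = Ψ z := fun z hz => (hΦ ⟨z, hz⟩).trans (hΨ ⟨z, hz⟩).symm
    have hΦj : ∀ i, Φ (jj (t (s i : ZMod p))) = Ψ (jj (t (s i : ZMod p))) :=
      fun i => hΦQ _ (cm_mem_QA (hcm i))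
    have hpV : (VF Φ).valuation (p : ℂ) < 1 := by
      rw [VF_lt_one, map_natCast]
      exact hp1
    have hG0 : ∀ i, G0 P (VF Φ) (jj (t (s i : ZMod p))) := by
      intro i
      refine G0_of hp hp1 P Φ (ordAt_of_trace hp hp3 (hM _) (hrel _) (hs1 i).1) ?_ ?_
      · rw [hΦj]
        exact hn0 _ (hs1 i).2.1
      · have e : Φ (jj (t (s i : ZMod p)) - 1728) = Ψ (jj (t (s i : ZMod p)) - 1728) := by
          rw [map_sub, map_sub, hΦj]
          congr 1
          exact (map_ofNat Φ 1728).trans (map_ofNat Ψ 1728).symm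
        rw [e]
        exact hn1 _ (hs1 i).2.2
    have hxO : ∀ i ∈ J, (VF Φ).valuation (x i - jj (t (s i : ZMod p))) < 1 := by
      intro i hi
      rw [VF_lt_one, map_sub, hΦj]
      have e : Φ (x i) - Ψ (jj (t (s i : ZMod p))) =
          (Φ (x i) - (s i : C)) + -(Ψ (jj (t (s i : ZMod p))) - (s i : C)) := by
        ring
      rw [e]
      refine nadd_lt ((hJ i hi).trans_lt hp1) ?_
      rw [norm_neg]
      exact hnearZ (s i)
    have hxOV : ∀ i ∈ J, x i ∈ VF Φ := fun i hi => ((hG0 i).congr (hxO i hi)).mem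
    have hsle : ∀ i, ‖(s i : C)‖ ≤ 1 := fun i => IsUltrametricDist.norm_intCast_le_one C _
    have hdisj : Disjoint J W := by
      rw [Finset.disjoint_left]
      intro i hi hiW
      have h1 : ‖Φ (x i)‖ ≤ 1 := hxOV i hi
      exact absurd (hxW i hiW) (not_lt.2 h1)
    rw [← Finset.card_union_of_disjoint hdisj]
    have hdetpos : ∀ i j, 0 < (Z.mat j * (Z.mat i).adjugate).det := by
      intro i j
      rw [det_mul', det_adj]
      have h1 := Z.det_pos i
      have h2 := Z.det_pos j
      positivity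
    have hint : ∀ {A : M2} {w w' : ℍ}, 0 < A.det → Rel A w w' → jj w ∈ VF Φ →
        ¬ 1 < ‖Φ (jj w')‖ := by
      intro A w w' hA hrel hmem
      exact not_lt.2 (rel_mem hA hrel hmem)
    refine crit_card' Z hxZ (J ∪ W) ?_ ?_
    · intro i hi τ hτ hxi
      have hcmint : ‖Φ (jj τ)‖ ≤ 1 := norm_le_one_of_isIntegral Φ (singular_modulus_integral τ hτ)
      rcases Finset.mem_union.1 hi with hi' | hi'
      · apply hJΓ i hi'
        refine ⟨?_, ⟨τ, hτ, hxi.symm⟩, ?_⟩
        · rw [hb1, Finset.mem_filter]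
          rintro ⟨-, h⟩
          have h1 := hs1 i
          rcases h with h | h | h
          · exact h1.1 h
          · exact h1.2.1 h
          · exact h1.2.2 h
        · have hle := hJ i hi'
          rw [hΦQ (x i) (by rw [hxi]; exact cm_mem_QA hτ)] at hle
          have e : Ψ (x i) - (((s i : ZMod p).val : ℤ) : C) = (Ψ (x i) - (s i : C)) -
              -((s i - ((s i : ZMod p).val : ℤ) : ℤ) : C) := by
            push_cast
            ring
          rw [e]
          refine nsub_le hle ?_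
          rw [norm_neg]
          exact norm_le_p (hval (s i))
      · have h1 := hxW i hi'
        rw [hxi] at h1
        exact absurd h1 (not_lt.2 hcmint)
    · intro i hi k hk hik w w' hrel' hxi hxk
      have hdet := hdetpos i k
      have hdet' : 0 < (Z.mat k * (Z.mat i).adjugate).adjugate.det := by
        rw [det_adj]; exact hdet
      rcases Finset.mem_union.1 hi with hi' | hi'
      · rcases Finset.mem_union.1 hk with hk' | hk'
        · have hiso := near_isog hp hp2 hpV P (hcm i) (hcm k) (hG0 i) (hG0 k) hdet hrel'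
            (by rw [← hxi]; exact hxO i hi') (by rw [← hxk]; exact hxO k hk')
          apply hs
          refine Or.inr ⟨i, k, hik, ?_⟩
          rw [hb2, Finset.mem_filter]
          exact ⟨Finset.mem_univ _, hiso⟩
        · refine hint hdet hrel' ?_ ?_
          · rw [← hxi]
            exact hxOV i hi'
          · rw [← hxk]
            exact hxW k hk'
      · rcases Finset.mem_union.1 hk with hk' | hk'
        · refine hint hdet' (rel_adj hrel') ?_ ?_
          · rw [← hxk]
            exact hxOV k hk'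
          · rw [← hxi]
            exact hxW i hi'
        · refine not_indep_of_integral hW hi' hk' hik ?_
          rw [hxi, hxk]
          refine isogenous_integral w w' _ _ _ _ ?_ hrel'
          rw [← det_eq]
          exact hdet

end Pool.Agent.H882
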