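import Pool.Agent.H882.EmbNear
import Pool.Agent.H882.CenRes

/-!
Good embeddings of finitely generated fields: finitely many nonzero complex numbers are units.
-/

set_option autoImplicit false

namespace Pool.Agent.H882

open Pool.Agent.Y226

section Nr

variable {C : Type} [NormedField C] [IsUltrametricDist C]

/-- congruent integral elements -/
def Nr (x y : C) : Prop := ‖x‖ ≤ 1 ∧ ‖y‖ ≤ 1 ∧ ‖x - y‖ < 1

theorem Nr.rfl' {x : C} (h : ‖x‖ ≤ 1) : Nr x x := ⟨h, h, by rw [sub_self, norm_zero]; exact one_pos⟩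

theorem Nr.add {x y x' y' : C} (h : Nr x y) (h' : Nr x' y') : Nr (x + x') (y + y') := by
  obtain ⟨a1, a2, a3⟩ := h
  obtain ⟨b1, b2, b3⟩ := h'
  refine ⟨(IsUltrametricDist.norm_add_le_max _ _).trans (max_le a1 b1),
    (IsUltrametricDist.norm_add_le_max _ _).trans (max_le a2 b2), ?_⟩
  have e : x + x' - (y + y') = (x - y) + (x' - y') := by ring
  rw [e]
  exact (IsUltrametricDist.norm_add_le_max _ _).trans_lt (max_lt a3 b3)

theorem Nr.mul {x y x' y' : C} (h : Nr x y) (h' : Nr x' y') : Nr (x * x') (y * y') := by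
  obtain ⟨a1, a2, a3⟩ := h
  obtain ⟨b1, b2, b3⟩ := h'
  refine ⟨?_, ?_, ?_⟩
  · rw [norm_mul]
    exact mul_le_one₀ a1 (norm_nonneg _) b1
  · rw [norm_mul]
    exact mul_le_one₀ a2 (norm_nonneg _) b2
  · have e : x * x' - y * y' = (x - y) * x' + y * (x' - y') := by ring
    rw [e]
    refine (IsUltrametricDist.norm_add_le_max _ _).trans_lt (max_lt ?_ ?_)
    · rw [norm_mul]
      exact (mul_le_of_le_one_right (norm_nonneg _) b1).trans_lt a3
    · rw [norm_mul]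
      exact (mul_le_of_le_one_left (norm_nonneg _) a2).trans_lt b3

theorem Nr.pow {x y : C} (h : Nr x y) (n : ℕ) : Nr (x ^ n) (y ^ n) := by
  induction n with
  | zero => simpa using Nr.rfl' (x := (1 : C)) (by rw [norm_one])
  | succ n ih => rw [pow_succ, pow_succ]; exact ih.mul h

theorem Nr.prod {ι : Type} (s : Finset ι) {f g : ι → C} (h : ∀ i ∈ s, Nr (f i) (g i)) :
    Nr (∏ i ∈ s, f i) (∏ i ∈ s, g i) := by
  classical
  induction s using Finset.induction_on with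
  | empty => simpa using Nr.rfl' (x := (1 : C)) (by rw [norm_one])
  | insert a s ha ih =>
    rw [Finset.prod_insert ha, Finset.prod_insert ha]
    exact (h a (Finset.mem_insert_self a s)).mul (ih fun i hi => h i (Finset.mem_insert_of_mem hi))

theorem Nr.sum {ι : Type} (s : Finset ι) {f g : ι → C} (h : ∀ i ∈ s, Nr (f i) (g i)) :
    Nr (∑ i ∈ s, f i) (∑ i ∈ s, g i) := by
  classical
  induction s using Finset.induction_on with
  | empty => simpa using Nr.rfl' (x := (0 : C)) (by rw [norm_zero]; exact zero_le_one)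
  | insert a s ha ih =>
    rw [Finset.sum_insert ha, Finset.sum_insert ha]
    exact (h a (Finset.mem_insert_self a s)).add (ih fun i hi => h i (Finset.mem_insert_of_mem hi))

theorem Nr.norm_eq {x y : C} (h : Nr x y) (hy : ‖y‖ = 1) : ‖x‖ = 1 := by
  have e : x = y + (x - y) := by ring
  rw [e, IsUltrametricDist.norm_add_eq_max_of_norm_ne_norm]
  · rw [hy]
    exact max_eq_left h.2.2.le
  · rw [hy]
    exact h.2.2.ne'

theorem Nr.eval {U : Type} [Fintype U] (φ₀ : QA →+* C) (Φ : ℂ →+* C)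
    (hΦ : ∀ c : QA, Φ (c : ℂ) = φ₀ c) (u : U → ℂ) (a : U → QA)
    (hu : ∀ i, Nr (Φ (u i)) (φ₀ (a i))) (h : MvPolynomial U QA)
    (hc : ∀ d ∈ h.support, ‖φ₀ (h.coeff d)‖ ≤ 1) :
    Nr (Φ (MvPolynomial.aeval u h)) (φ₀ (MvPolynomial.eval a h)) := by
  have e1 : Φ (MvPolynomial.aeval u h) =
      ∑ d ∈ h.support, φ₀ (h.coeff d) * ∏ i, Φ (u i) ^ d i := by
    rw [MvPolynomial.aeval_def, MvPolynomial.eval₂_eq', map_sum]
    refine Finset.sum_congr rfl fun d _ => ?_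
    rw [map_mul, map_prod]
    congr 1
    · exact hΦ _
    · exact Finset.prod_congr rfl fun i _ => map_pow _ _ _
  have e2 : φ₀ (MvPolynomial.eval a h) =
      ∑ d ∈ h.support, φ₀ (h.coeff d) * ∏ i, φ₀ (a i) ^ d i := by
    rw [MvPolynomial.eval_eq', map_sum]
    refine Finset.sum_congr rfl fun d _ => ?_
    rw [map_mul, map_prod]
    congr 1
    exact Finset.prod_congr rfl fun i _ => map_pow _ _ _
  rw [e1, e2]
  refine Nr.sum _ fun d hd => (Nr.rfl' (hc d hd)).mul (Nr.prod _ fun i _ => (hu i).pow _)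

end Nr

/-- A maximal independent subset. -/
theorem exists_max_indep (S : Finset ℂ) : ∃ U : Finset ℂ, U ⊆ S ∧
    AlgebraicIndependent QA (fun u : U => (u : ℂ)) ∧
    ∀ b ∈ S, IsAlgebraic (Algebra.adjoin QA (Set.range fun u : U => (u : ℂ))) b := by
  classical
  obtain ⟨U, hU, hmax⟩ := Finset.exists_max_image (S.powerset.filter fun U : Finset ℂ =>
    AlgebraicIndepOn QA (id : ℂ → ℂ) (U : Set ℂ)) Finset.card ⟨∅, by
      rw [Finset.mem_filter]
      refine ⟨Finset.empty_mem_powerset _, ?_⟩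
      rw [Finset.coe_empty]
      exact algebraicIndependent_empty_type_iff.2 (algebraMap QA ℂ).injective⟩
  obtain ⟨hU1, hU2⟩ := Finset.mem_filter.1 hU
  rw [Finset.mem_powerset] at hU1
  have hr : (Set.range fun u : U => (u : ℂ)) = (U : Set ℂ) := Subtype.range_coe
  refine ⟨U, hU1, hU2, fun b hb => ?_⟩
  rw [hr]
  by_cases hbU : b ∈ U
  · exact isAlgebraic_algebraMap (⟨b, Algebra.subset_adjoin hbU⟩ : Algebra.adjoin QA (U : Set ℂ))
  · by_contra hcon
    have h1 : Transcendental (Algebra.adjoin QA ((id : ℂ → ℂ) '' (U : Set ℂ))) (id b) := by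
      rw [Set.image_id]
      exact hcon
    have h2 := AlgebraicIndepOn.insert hU2 h1
    have h3 : insert b U ∈ S.powerset.filter fun U : Finset ℂ =>
        AlgebraicIndepOn QA (id : ℂ → ℂ) (U : Set ℂ) := by
      rw [Finset.mem_filter, Finset.mem_powerset]
      refine ⟨Finset.insert_subset hb hU1, ?_⟩
      rw [Finset.coe_insert]
      exact h2
    have h4 := hmax _ h3
    rw [Finset.card_insert_of_notMem hbU] at h4
    omega

section Mult

variable {U : Finset ℂ}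

/-- the values of polynomials at the elements of `U` -/
noncomputable def ev (U : Finset ℂ) : MvPolynomial U QA →+* ℂ :=
  (MvPolynomial.aeval (fun u : U => (u : ℂ)) : MvPolynomial U QA →ₐ[QA] ℂ).toRingHom

theorem int_mult (hU : AlgebraicIndependent QA (fun u : U => (u : ℂ))) (z : ℂ)
    (hz : IsAlgebraic (Algebra.adjoin QA (Set.range fun u : U => (u : ℂ))) z) :
    ∃ (g : MvPolynomial U QA) (P : Polynomial (MvPolynomial U QA)), g ≠ 0 ∧ P.Monic ∧
      P.eval₂ (ev U) (ev U g * z) = 0 := by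
  obtain ⟨y, hy, P, hP, hPz⟩ := hz.exists_integral_multiple
  have hcomp : (ev U).comp (hU.aevalEquiv.symm : _ ≃ₐ[QA] MvPolynomial U QA).toRingEquiv.toRingHom =
      algebraMap (Algebra.adjoin QA (Set.range fun u : U => (u : ℂ))) ℂ := by
    ext w
    have h1 := hU.algebraMap_aevalEquiv (hU.aevalEquiv.symm w)
    rw [AlgEquiv.apply_symm_apply] at h1
    exact h1.symm
  refine ⟨hU.aevalEquiv.symm y, P.map hU.aevalEquiv.symm.toRingEquiv.toRingHom, ?_, hP.map _, ?_⟩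
  · intro h
    apply hy
    exact (map_eq_zero_iff _ hU.aevalEquiv.symm.injective).1 h
  · rw [Polynomial.eval₂_map, hcomp]
    have h2 : ev U (hU.aevalEquiv.symm y) * z = y • z := by
      have h3 := DFunLike.congr_fun hcomp y
      have h4 : ev U (hU.aevalEquiv.symm y) = (y : ℂ) := h3
      rw [h4]
      rfl
    rw [h2]
    exact hPz

/-- the coefficients -/
noncomputable def cf (h : MvPolynomial U QA) : Finset QA := by
  classical exact h.support.image h.coeff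

theorem mem_cf {h : MvPolynomial U QA} {d : U →₀ ℕ} (hd : d ∈ h.support) : h.coeff d ∈ cf h := by
  classical
  exact Finset.mem_image_of_mem _ hd

theorem norm_root {C : Type} [NormedField C] [IsUltrametricDist C] (Φ : ℂ →+* C)
    (P : Polynomial ℂ) (hP : P.Monic) (hc : ∀ j, ‖Φ (P.coeff j)‖ ≤ 1) {w : ℂ} (hw : P.eval w = 0) :
    ‖Φ w‖ ≤ 1 := by
  set V := VF Φ with hV
  have hsub : (↑P.coeffs : Set ℂ) ⊆ V.toSubring := by
    intro c hcc
    obtain ⟨j, -, rfl⟩ := Polynomial.mem_coeffs_iff.1 hcc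
    exact hc j
  have h1 : IsIntegral V.toSubring w := by
    refine ⟨P.toSubring V.toSubring hsub, (Polynomial.monic_toSubring _ _ _).2 hP, ?_⟩
    rw [Polynomial.eval₂_eq_eval_map]
    have h2 : (P.toSubring V.toSubring hsub).map (algebraMap V.toSubring ℂ) = P :=
      Polynomial.map_toSubring _ _ _
    rw [h2]
    exact hw
  have h3 : IsIntegral V w := h1
  obtain ⟨v, hv⟩ := IsIntegrallyClosed.isIntegral_iff.1 h3
  have h4 : (v : ℂ) ∈ V := v.2
  have h5 : (v : ℂ) = w := hv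
  rw [h5] at h4
  exact h4

theorem norm_le_of {C : Type} [NormedField C] [IsUltrametricDist C] (φ₀ : QA →+* C) (Φ : ℂ →+* C)
    (hΦ : ∀ c : QA, Φ (c : ℂ) = φ₀ c) (a : U → QA) (hu : ∀ u : U, Nr (Φ u) (φ₀ (a u)))
    {g : MvPolynomial U QA} {P : Polynomial (MvPolynomial U QA)} {z : ℂ} (hP : P.Monic)
    (hPz : P.eval₂ (ev U) (ev U g * z) = 0) (hg : ∀ w ∈ cf g, ‖φ₀ w‖ ≤ 1)
    (hPc : ∀ j, ∀ w ∈ cf (P.coeff j), ‖φ₀ w‖ ≤ 1) (hne : MvPolynomial.eval a g ≠ 0)
    (hinv : ‖φ₀ (MvPolynomial.eval a g)⁻¹‖ ≤ 1) : ‖Φ z‖ ≤ 1 := by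
  have h1 : Nr (Φ (ev U g)) (φ₀ (MvPolynomial.eval a g)) :=
    Nr.eval φ₀ Φ hΦ _ a hu g fun d hd => hg _ (mem_cf hd)
  have h2 : ‖φ₀ (MvPolynomial.eval a g)‖ = 1 := by
    refine le_antisymm h1.2.1 ?_
    rw [map_inv₀, norm_inv] at hinv
    exact (inv_le_one₀ (norm_pos_iff.2 ((map_ne_zero φ₀).2 hne))).1 hinv
  have h3 := h1.norm_eq h2
  have h4 : ‖Φ (ev U g * z)‖ ≤ 1 := by
    refine norm_root Φ (P.map (ev U)) (hP.map _) (fun j => ?_) ?_
    · rw [Polynomial.coeff_map]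
      exact (Nr.eval φ₀ Φ hΦ _ a hu (P.coeff j) fun d hd => hPc j _ (mem_cf hd)).1
    · rw [Polynomial.eval_map]
      exact hPz
  rwa [map_mul, norm_mul, h3, one_mul] at h4

end Mult

/-- Finitely many nonzero complex numbers are units for all embeddings which are near a certain
algebraic point, if finitely many algebraic numbers are integral. -/
theorem good_embed (S : Finset ℂ) (hS : ∀ b ∈ S, b ≠ 0) : ∃ (U : Finset ℂ) (a : U → QA)
    (T : Finset QA), U ⊆ S ∧ AlgebraicIndependent QA (fun u : U => (u : ℂ)) ∧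
    (∀ b ∈ S, IsAlgebraic (Algebra.adjoin QA (Set.range fun u : U => (u : ℂ))) b) ∧
    ∀ (C : Type) [NormedField C] [IsUltrametricDist C] (φ₀ : QA →+* C),
      (∀ w ∈ T, ‖φ₀ w‖ ≤ 1) → ∀ Φ : ℂ →+* C, (∀ c : QA, Φ (c : ℂ) = φ₀ c) →
      (∀ u : U, ‖Φ u - φ₀ (a u)‖ < 1) → ∀ b ∈ S, ‖Φ b‖ = 1 := by
  classical
  obtain ⟨U, hUS, hU, hUalg⟩ := exists_max_indep S
  have hUalg' : ∀ b ∈ S, IsAlgebraic (Algebra.adjoin QA (Set.range fun u : U => (u : ℂ))) b⁻¹ :=
    fun b hb => (hUalg b hb).inv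
  choose g P hg hP hPz using fun b : S => int_mult hU (b : ℂ) (hUalg b b.2)
  choose g' P' hg' hP' hPz' using fun b : S => int_mult hU (b : ℂ)⁻¹ (hUalg' b b.2)
  have hprod : (∏ b : S, g b) * ∏ b : S, g' b ≠ 0 :=
    mul_ne_zero (Finset.prod_ne_zero_iff.2 fun b _ => hg b)
      (Finset.prod_ne_zero_iff.2 fun b _ => hg' b)
  obtain ⟨a, ha⟩ : ∃ a : U → QA, MvPolynomial.eval a ((∏ b : S, g b) * ∏ b : S, g' b) ≠ 0 := by
    by_contra hcon
    push Not at hcon
    exact hprod (MvPolynomial.funext fun a => by rw [hcon a, map_zero])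
  rw [map_mul, map_prod, map_prod] at ha
  have ha1 : ∀ b : S, MvPolynomial.eval a (g b) ≠ 0 := fun b =>
    Finset.prod_ne_zero_iff.1 (left_ne_zero_of_mul ha) b (Finset.mem_univ b)
  have ha2 : ∀ b : S, MvPolynomial.eval a (g' b) ≠ 0 := fun b =>
    Finset.prod_ne_zero_iff.1 (right_ne_zero_of_mul ha) b (Finset.mem_univ b)
  let Tz : MvPolynomial U QA → Polynomial (MvPolynomial U QA) → Finset QA := fun g P =>
    cf g ∪ P.support.biUnion (fun j => cf (P.coeff j)) ∪ {(MvPolynomial.eval a g)⁻¹}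
  have hcf0 : cf (0 : MvPolynomial U QA) = ∅ := by
    unfold cf
    simp
  have hTz : ∀ (g : MvPolynomial U QA) (P : Polynomial (MvPolynomial U QA)),
      (∀ w ∈ cf g, w ∈ Tz g P) ∧ (∀ j, ∀ w ∈ cf (P.coeff j), w ∈ Tz g P) ∧
        (MvPolynomial.eval a g)⁻¹ ∈ Tz g P := by
    intro g P
    refine ⟨fun w hw => ?_, fun j w hw => ?_, ?_⟩
    · exact Finset.mem_union_left _ (Finset.mem_union_left _ hw)
    · refine Finset.mem_union_left _ (Finset.mem_union_right _ (Finset.mem_biUnion.2 ⟨j, ?_, hw⟩))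
      by_contra hj
      rw [Polynomial.notMem_support_iff.1 hj, hcf0] at hw
      exact absurd hw (Finset.notMem_empty w)
    · exact Finset.mem_union_right _ (Finset.mem_singleton_self _)
  refine ⟨U, a, (Finset.univ.biUnion fun b : S => Tz (g b) (P b) ∪ Tz (g' b) (P' b)) ∪
    Finset.univ.image a, hUS, hU, hUalg, fun C _ _ φ₀ hT Φ hΦ hu b hb => ?_⟩
  have hua : ∀ u : U, Nr (Φ u) (φ₀ (a u)) := by
    intro u
    have h1 : ‖φ₀ (a u)‖ ≤ 1 := hT _ (Finset.mem_union_right _ (Finset.mem_image_of_mem _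
      (Finset.mem_univ u)))
    refine ⟨?_, h1, hu u⟩
    have e : Φ u = φ₀ (a u) + (Φ u - φ₀ (a u)) := by ring
    rw [e]
    exact (IsUltrametricDist.norm_add_le_max _ _).trans (max_le h1 (hu u).le)
  have hT1 : ∀ w ∈ Tz (g ⟨b, hb⟩) (P ⟨b, hb⟩), ‖φ₀ w‖ ≤ 1 := fun w hw =>
    hT w (Finset.mem_union_left _ (Finset.mem_biUnion.2 ⟨⟨b, hb⟩, Finset.mem_univ _,
      Finset.mem_union_left _ hw⟩))
  have hT2 : ∀ w ∈ Tz (g' ⟨b, hb⟩) (P' ⟨b, hb⟩), ‖φ₀ w‖ ≤ 1 := fun w hw =>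
    hT w (Finset.mem_union_left _ (Finset.mem_biUnion.2 ⟨⟨b, hb⟩, Finset.mem_univ _,
      Finset.mem_union_right _ hw⟩))
  obtain ⟨c1, c2, c3⟩ := hTz (g ⟨b, hb⟩) (P ⟨b, hb⟩)
  obtain ⟨d1, d2, d3⟩ := hTz (g' ⟨b, hb⟩) (P' ⟨b, hb⟩)
  have h1 : ‖Φ b‖ ≤ 1 := norm_le_of φ₀ Φ hΦ a hua (hP ⟨b, hb⟩) (hPz ⟨b, hb⟩)
    (fun w hw => hT1 w (c1 w hw)) (fun j w hw => hT1 w (c2 j w hw)) (ha1 _) (hT1 _ c3)
  have h2 : ‖Φ b⁻¹‖ ≤ 1 := norm_le_of φ₀ Φ hΦ a hua (hP' ⟨b, hb⟩) (hPz' ⟨b, hb⟩)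
    (fun w hw => hT2 w (d1 w hw)) (fun j w hw => hT2 w (d2 j w hw)) (ha2 _) (hT2 _ d3)
  refine le_antisymm h1 ?_
  rw [map_inv₀, norm_inv] at h2
  exact (inv_le_one₀ (norm_pos_iff.2 ((map_ne_zero Φ).2 (hS b hb)))).1 h2

end Pool.Agent.H882
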