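import Pool.Agent.H882.Core
import Pool.Agent.H882.EmbGood

/-!
The local theorem for all primes, and the choice of embeddings.
-/

set_option autoImplicit false

namespace Pool.Agent.H882

open UpperHalfPlane H294ZP Function Pool.Agent.N135.ZO NumberField IsDedekindDomain
open Pool.Agent.Y226

theorem PI_alg {K : Type} [Field K] [CharZero K] (b : K) (hb : IsAlgebraic ℚ b) :
    ∃ B : ℕ, ∀ p : ℕ, p.Prime → B < p → PI p b := by
  have halg : IsAlgebraic ℤ b := (IsFractionRing.isAlgebraic_iff ℤ ℚ K).2 hb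
  obtain ⟨N, hN, hi⟩ := halg.exists_integral_multiple
  refine ⟨N.natAbs, fun p hp hlt => ⟨N.natAbs, fun h => ?_, ?_⟩⟩
  · have := Nat.le_of_dvd (Int.natAbs_pos.2 hN) h
    omega
  · rw [zsmul_eq_mul] at hi
    rcases Int.natAbs_eq N with h | h
    · rw [h, Int.cast_natCast] at hi
      exact hi
    · rw [h, Int.cast_neg, Int.cast_natCast, neg_mul] at hi
      have h2 := hi.neg
      rw [neg_neg] at h2
      exact h2

/-- The classes for all primes. -/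
theorem core_all (n : ℕ) : ∃ (E : ∀ p : ℕ, Set (Fin n → ZMod p)) (Γ : ∀ p : ℕ, ZMod p → Set ℂ),
    (∀ ε : ℝ, 0 < ε → ∃ C : ℝ, ∀ p : ℕ, p.Prime →
      ((E p).ncard : ℝ) ≤ C * (p : ℝ) ^ ((n : ℝ) - 1 / 2 + ε)) ∧
    (∀ p a, (Γ p a).Subsingleton ∧ ∀ z ∈ Γ p a, ∃ τ : ℍ, IsCM τ ∧ jj τ = z) ∧
    (∀ p z a b, z ∈ Γ p a → z ∈ Γ p b → a = b) ∧
    ∀ p : ℕ, p.Prime → 3 < p → Core n p (E p) (Γ p) := by
  classical
  have hdata : ∀ p : ℕ, ∃ (E : Set (Fin n → ZMod p)) (Γ : ZMod p → Set ℂ),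
      (∀ a, (Γ a).Subsingleton ∧ ∀ z ∈ Γ a, ∃ τ : ℍ, IsCM τ ∧ jj τ = z) ∧
      (∀ z a b, z ∈ Γ a → z ∈ Γ b → a = b) ∧
      (∀ H : ℕ, (∀ a, (SM p a).ncard ≤ H) →
        E.ncard ≤ (n * (H + 2) + n * n * (18 * H)) * p ^ (n - 1)) ∧
      (p.Prime → 3 < p → Core n p E Γ) := by
    intro p
    by_cases h : p.Prime ∧ 3 < p
    · obtain ⟨E, Γ, h1, h2, h3, h4⟩ := core_data n h.1 h.2
      exact ⟨E, Γ, h1, h2, h3, fun _ _ => h4⟩
    · refine ⟨∅, fun _ => ∅, fun a => ⟨Set.subsingleton_empty, fun z hz => hz.elim⟩,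
        fun z a b hz => hz.elim, fun H _ => ?_, fun h1 h2 => absurd ⟨h1, h2⟩ h⟩
      rw [Set.ncard_empty]
      exact Nat.zero_le _
  choose E Γ hΓ hΓ2 hE hcore using hdata
  exact ⟨E, Γ, fun ε hε => bound_E E hE hε, hΓ, hΓ2, hcore⟩

/-- For all large primes `p` and all embeddings of the algebraic numbers there is an embedding for
which the elements of `S` are units, and with given approximations at further independent
elements. -/
theorem good_embed_all (S : Finset ℂ) (hS : ∀ b ∈ S, b ≠ 0) : ∃ B : ℕ, ∀ p : ℕ, p.Prime → B < p →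
    ∀ (C : Type) [NormedField C] [IsUltrametricDist C] [CompleteSpace C] [IsAlgClosed C]
      (φ₀ : QA →+* C), ‖(p : C)‖ = (p : ℝ)⁻¹ →
      ∃ Φ : ℂ →+* C, (∀ a : QA, Φ (a : ℂ) = φ₀ a) ∧ ∀ b ∈ S, ‖Φ b‖ = 1 := by
  classical
  obtain ⟨U, a, T, -, hU, -, hmain⟩ := good_embed S hS
  choose B hB using fun w : QA => PI_alg (w : QA) (Algebra.IsAlgebraic.isAlgebraic w)
  refine ⟨∑ w ∈ T, B w, fun p hp hlt C _ _ _ _ φ₀ hpC => ?_⟩
  have hp1 : ‖(p : C)‖ < 1 := by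
    rw [hpC]
    exact inv_lt_one_of_one_lt₀ (by exact_mod_cast hp.one_lt)
  have hp0 : 0 < ‖(p : C)‖ := by
    rw [hpC]
    exact inv_pos.2 (by exact_mod_cast hp.pos)
  have hpQ : 1 < ‖φ₀ ((p : QA)⁻¹)‖ := by
    rw [map_inv₀, map_natCast, norm_inv]
    exact (one_lt_inv₀ hp0).2 hp1
  have hT : ∀ w ∈ T, ‖φ₀ w‖ ≤ 1 := by
    intro w hw
    have h1 : B w ≤ ∑ w ∈ T, B w := Finset.single_le_sum (f := B) (fun _ _ => Nat.zero_le _) hw
    exact norm_of_PI hp hp1 φ₀ (hB w p hp (by omega))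
  obtain ⟨Φ, hΦ, hΦu⟩ := exists_near φ₀ ((p : QA)⁻¹) hpQ (fun u : U => (u : ℂ)) hU a
    (fun _ => 1) (fun _ => one_pos)
  exact ⟨Φ, hΦ, hmain C φ₀ hT Φ hΦ hΦu⟩

end Pool.Agent.H882
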