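import Pool.Agent.H882.CoreW
import Pool.Agent.H882.CoreAll

/-!
The local theorem in the weak form for all primes.
-/

set_option autoImplicit false

namespace Pool.Agent.H882

open UpperHalfPlane H294ZP Function Pool.Agent.N135.ZO NumberField IsDedekindDomain
open Pool.Agent.Y226

/-- The classes for all primes. -/
theorem core_all_w (n : ℕ) : ∃ (E : ∀ p : ℕ, Set (Fin n → ZMod p)) (Γ : ∀ p : ℕ, ZMod p → Set ℂ),
    (∀ ε : ℝ, 0 < ε → ∃ C : ℝ, ∀ p : ℕ, p.Prime →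
      ((E p).ncard : ℝ) ≤ C * (p : ℝ) ^ ((n : ℝ) - 1 / 2 + ε)) ∧
    (∀ p a, (Γ p a).Subsingleton ∧ ∀ z ∈ Γ p a, ∃ τ : ℍ, IsCM τ ∧ jj τ = z) ∧
    (∀ p z a b, z ∈ Γ p a → z ∈ Γ p b → a = b) ∧
    ∀ p : ℕ, p.Prime → 3 < p → CoreW n p (E p) (Γ p) := by
  classical
  have hdata : ∀ p : ℕ, ∃ (E : Set (Fin n → ZMod p)) (Γ : ZMod p → Set ℂ),
      (∀ a, (Γ a).Subsingleton ∧ ∀ z ∈ Γ a, ∃ τ : ℍ, IsCM τ ∧ jj τ = z) ∧
      (∀ z a b, z ∈ Γ a → z ∈ Γ b → a = b) ∧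
      (∀ H : ℕ, (∀ a, (SM p a).ncard ≤ H) →
        E.ncard ≤ (n * (H + 2) + n * n * (18 * H)) * p ^ (n - 1)) ∧
      (p.Prime → 3 < p → CoreW n p E Γ) := by
    intro p
    by_cases h : p.Prime ∧ 3 < p
    · obtain ⟨E, Γ, h1, h2, h3, h4⟩ := core_data_w n h.1 h.2
      exact ⟨E, Γ, h1, h2, h3, fun _ _ => h4⟩
    · refine ⟨∅, fun _ => ∅, fun a => ⟨Set.subsingleton_empty, fun z hz => hz.elim⟩,
        fun z a b hz => hz.elim, fun H _ => ?_, fun h1 h2 => absurd ⟨h1, h2⟩ h⟩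
      rw [Set.ncard_empty]
      exact Nat.zero_le _
  choose E Γ hΓ hΓ2 hE hcore using hdata
  exact ⟨E, Γ, fun ε hε => bound_E E hE hε, hΓ, hΓ2, hcore⟩

end Pool.Agent.H882
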