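import Pool.Agent.H882.FmFam
import Pool.Agent.H882.AdCount
import Pool.Agent.H882.CenRes

/-!
Counting residue classes: pull-backs, fibres of rational functions, pairs of classes.
-/

set_option autoImplicit false

namespace Pool.Agent.H882

open Polynomial

theorem card_pull {n N p : ℕ} [NeZero p] (σ : Fin n → Fin N) (hσ : Function.Injective σ)
    (S : Set (Fin n → ZMod p)) :
    {u : Fin N → ZMod p | (fun i => u (σ i)) ∈ S}.ncard ≤ S.ncard * p ^ (N - n) := by
  classical
  let K : Set (Fin N) := (Set.range σ)ᶜ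
  have hK : Fintype.card K = N - n := by
    rw [Fintype.card_compl_set, Fintype.card_fin, Set.card_range_of_injective hσ, Fintype.card_fin]
  have hcu : (Set.univ : Set (K → ZMod p)).ncard = p ^ (N - n) := by
    rw [Set.ncard_univ, Nat.card_eq_fintype_card, Fintype.card_fun, ZMod.card, hK]
  have h1 : {u : Fin N → ZMod p | (fun i => u (σ i)) ∈ S}.ncard ≤
      (S ×ˢ (Set.univ : Set (K → ZMod p))).ncard := by
    refine Set.ncard_le_ncard_of_injOn (fun u => ((fun i => u (σ i)), fun k : K => u k)) ?_ ?_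
      (Set.toFinite _)
    · intro u hu
      exact ⟨hu, Set.mem_univ _⟩
    · intro u _ v _ huv
      rw [Prod.mk.injEq] at huv
      funext j
      by_cases hj : j ∈ Set.range σ
      · obtain ⟨i, rfl⟩ := hj
        exact congrFun huv.1 i
      · exact congrFun huv.2 ⟨j, hj⟩
  rwa [Set.ncard_prod, hcu] at h1

theorem card_fib {n p c : ℕ} [NeZero p] (ρ : Fin n → ZMod p → ZMod p)
    (hρ : ∀ i β, {x | ρ i x = β}.ncard ≤ c) (E : Set (Fin n → ZMod p)) :
    {s : Fin n → ZMod p | (fun i => ρ i (s i)) ∈ E}.ncard ≤ c ^ n * E.ncard := by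
  classical
  have hEf : E.Finite := Set.toFinite E
  let fb : Fin n → ZMod p → Finset (ZMod p) := fun i β => Finset.univ.filter fun x => ρ i x = β
  have hfb : ∀ i β, (fb i β).card ≤ c := by
    intro i β
    refine le_trans (le_of_eq ?_) (hρ i β)
    rw [← Set.ncard_coe_finset]
    congr 1
    ext x
    simp [fb]
  have hsub : {s : Fin n → ZMod p | (fun i => ρ i (s i)) ∈ E} ⊆
      ((hEf.toFinset.biUnion fun e => Fintype.piFinset fun i => fb i (e i) :
        Finset (Fin n → ZMod p)) : Set (Fin n → ZMod p)) := by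
    intro s hs
    rw [Finset.mem_coe, Finset.mem_biUnion]
    refine ⟨fun i => ρ i (s i), (Set.Finite.mem_toFinset _).2 hs, ?_⟩
    rw [Fintype.mem_piFinset]
    intro i
    exact Finset.mem_filter.2 ⟨Finset.mem_univ _, rfl⟩
  refine (Set.ncard_le_ncard hsub (Finset.finite_toSet _)).trans ?_
  rw [Set.ncard_coe_finset]
  refine Finset.card_biUnion_le.trans ?_
  calc ∑ e ∈ hEf.toFinset, (Fintype.piFinset fun i => fb i (e i)).card
      ≤ ∑ e ∈ hEf.toFinset, c ^ n := by
        refine Finset.sum_le_sum fun e _ => ?_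
        rw [Fintype.card_piFinset]
        calc ∏ i, (fb i (e i)).card ≤ ∏ _i : Fin n, c :=
              Finset.prod_le_prod' fun i _ => hfb i _
          _ = c ^ n := by rw [Finset.prod_const, Finset.card_univ, Fintype.card_fin]
    _ = _ := by
        rw [Finset.sum_const, smul_eq_mul, ← Set.ncard_eq_toFinset_card E hEf, mul_comm]

/-- the rational function modulo `p` -/
noncomputable def rr (p : ℕ) (a b : ℤ[X]) (x : ZMod p) : ZMod p :=
  (a.map (Int.castRingHom (ZMod p))).eval x * ((b.map (Int.castRingHom (ZMod p))).eval x)⁻¹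

/-- linear independence of numerator and denominator -/
def Nonc (a b : ℤ[X]) : Prop := ∀ c d : ℤ, Polynomial.C c * a = Polynomial.C d * b → c = 0 ∧ d = 0

theorem rr_fib {a b : ℤ[X]} (hab : Nonc a b) : ∃ B : ℕ, ∀ p : ℕ, p.Prime → B < p →
    (∀ β : ZMod p, {x | rr p a b x = β}.ncard ≤ 2 * (max a.natDegree b.natDegree)) ∧
      {x : ZMod p | (b.map (Int.castRingHom (ZMod p))).eval x = 0}.ncard ≤
        max a.natDegree b.natDegree := by
  classical
  -- a minor
  obtain ⟨k, l, hμ⟩ : ∃ k l, a.coeff k * b.coeff l - a.coeff l * b.coeff k ≠ 0 := by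
    by_contra hcon
    push Not at hcon
    have hb0 : b ≠ 0 := by
      rintro rfl
      have := hab 0 1 (by simp)
      exact one_ne_zero this.2
    obtain ⟨l, hl⟩ : ∃ l, b.coeff l ≠ 0 := by
      by_contra h
      push Not at h
      exact hb0 (Polynomial.ext fun i => by rw [h i, Polynomial.coeff_zero])
    refine hl (hab (b.coeff l) (a.coeff l) ?_).1
    ext k
    rw [Polynomial.coeff_C_mul, Polynomial.coeff_C_mul]
    have := hcon k l
    linarith
  refine ⟨(a.coeff k * b.coeff l - a.coeff l * b.coeff k).natAbs, fun p hp hlt => ?_⟩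
  have : Fact p.Prime := ⟨hp⟩
  have hμp : ((a.coeff k * b.coeff l - a.coeff l * b.coeff k : ℤ) : ZMod p) ≠ 0 := by
    intro h
    rw [ZMod.intCast_zmod_eq_zero_iff_dvd] at h
    have h1 := Int.natAbs_dvd_natAbs.2 h
    rw [Int.natAbs_natCast] at h1
    have h2 := Nat.le_of_dvd (Int.natAbs_pos.2 hμ) h1
    omega
  push_cast at hμp
  have hbne : b.map (Int.castRingHom (ZMod p)) ≠ 0 := by
    intro h
    apply hμp
    have h1 : ((b.coeff l : ℤ) : ZMod p) = 0 := by
      have := congrArg (fun g : (ZMod p)[X] => g.coeff l) h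
      simpa using this
    have h2 : ((b.coeff k : ℤ) : ZMod p) = 0 := by
      have := congrArg (fun g : (ZMod p)[X] => g.coeff k) h
      simpa using this
    rw [h1, h2]
    ring
  have hroots : ∀ g : (ZMod p)[X], g ≠ 0 → g.natDegree ≤ max a.natDegree b.natDegree →
      {x | g.eval x = 0}.ncard ≤ max a.natDegree b.natDegree := by
    intro g hg hdeg
    have h1 : {x | g.eval x = 0} = (g.roots.toFinset : Set (ZMod p)) := by
      ext x
      simp [Polynomial.mem_roots hg, Polynomial.IsRoot]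
    rw [h1, Set.ncard_coe_finset]
    exact (Multiset.toFinset_card_le _).trans ((Polynomial.card_roots' g).trans hdeg)
  have hb2 := hroots _ hbne ((Polynomial.natDegree_map_le).trans (le_max_right _ _))
  refine ⟨fun β => ?_, hb2⟩
  have hg : a.map (Int.castRingHom (ZMod p)) -
      Polynomial.C β * b.map (Int.castRingHom (ZMod p)) ≠ 0 := by
    intro h
    apply hμp
    have h1 : ((a.coeff k : ℤ) : ZMod p) = β * ((b.coeff k : ℤ) : ZMod p) := by
      have := congrArg (fun g : (ZMod p)[X] => g.coeff k) h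
      simp only [Polynomial.coeff_sub, Polynomial.coeff_map, Polynomial.coeff_C_mul,
        Polynomial.coeff_zero] at this
      simpa using sub_eq_zero.1 this
    have h2 : ((a.coeff l : ℤ) : ZMod p) = β * ((b.coeff l : ℤ) : ZMod p) := by
      have := congrArg (fun g : (ZMod p)[X] => g.coeff l) h
      simp only [Polynomial.coeff_sub, Polynomial.coeff_map, Polynomial.coeff_C_mul,
        Polynomial.coeff_zero] at this
      simpa using sub_eq_zero.1 this
    rw [h1, h2]
    ring
  have hg2 : (a.map (Int.castRingHom (ZMod p)) -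
      Polynomial.C β * b.map (Int.castRingHom (ZMod p))).natDegree ≤
      max a.natDegree b.natDegree := by
    refine (Polynomial.natDegree_sub_le _ _).trans (max_le_max Polynomial.natDegree_map_le ?_)
    exact (Polynomial.natDegree_C_mul_le _ _).trans Polynomial.natDegree_map_le
  have hsub : {x | rr p a b x = β} ⊆
      {x : ZMod p | (b.map (Int.castRingHom (ZMod p))).eval x = 0} ∪
      {x | (a.map (Int.castRingHom (ZMod p)) -
        Polynomial.C β * b.map (Int.castRingHom (ZMod p))).eval x = 0} := by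
    intro x hx
    by_cases h0 : (b.map (Int.castRingHom (ZMod p))).eval x = 0
    · exact Or.inl h0
    · right
      show Polynomial.eval x _ = 0
      have h1 : (a.map (Int.castRingHom (ZMod p))).eval x *
        ((b.map (Int.castRingHom (ZMod p))).eval x)⁻¹ = β := hx
      rw [Polynomial.eval_sub, Polynomial.eval_mul, Polynomial.eval_C, ← h1, mul_assoc,
        inv_mul_cancel₀ h0, mul_one, sub_self]
  refine (Set.ncard_le_ncard hsub (Set.toFinite _)).trans ((Set.ncard_union_le _ _).trans ?_)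
  have h3 := hroots _ hg hg2
  omega

theorem pair_count {n N p q c : ℕ} [NeZero p] [NeZero q] (σ : Fin n → Fin N)
    (ρ : Fin n → ZMod p → ZMod p) (ρ' : Fin n → ZMod q → ZMod q) (Γ : ZMod p → Set ℂ)
    (Γ' : ZMod q → Set ℂ) (h1 : ∀ a, (Γ a).Subsingleton)
    (h2 : ∀ z a b, z ∈ Γ' a → z ∈ Γ' b → a = b) (hf : ∀ i β, {x | ρ' i x = β}.ncard ≤ c) :
    {uv : (Fin N → ZMod p) × (Fin N → ZMod q) | ∃ i z, z ∈ Γ (ρ i (uv.1 (σ i))) ∧
      z ∈ Γ' (ρ' i (uv.2 (σ i)))}.ncard ≤ n * (p ^ N * (c * q ^ (N - 1))) := by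
  classical
  let S : Fin n → (Fin N → ZMod p) → Set (ZMod q) := fun i u =>
    {x | ∃ z, z ∈ Γ (ρ i (u (σ i))) ∧ z ∈ Γ' (ρ' i x)}
  have hS : ∀ i u, (S i u).ncard ≤ c := by
    intro i u
    rcases (S i u).eq_empty_or_nonempty with h | ⟨x₀, z₀, hz₀, hz₀'⟩
    · rw [h, Set.ncard_empty]
      exact Nat.zero_le _
    · refine le_trans (Set.ncard_le_ncard ?_ (Set.toFinite _)) (hf i (ρ' i x₀))
      rintro x ⟨z, hz, hz'⟩
      have := h1 _ hz hz₀
      rw [this] at hz'
      exact h2 _ _ _ hz' hz₀'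
  have hSu : ∀ i u, {v : Fin N → ZMod q | v (σ i) ∈ S i u}.ncard ≤ c * q ^ (N - 1) := by
    intro i u
    have hfin : (S i u).Finite := Set.toFinite _
    have h3 := count_coord (n := N) (q := q) (σ i) (fun _ => hfin.toFinset) (fun _ _ => rfl) c
      (fun _ => by
        rw [← Set.ncard_eq_toFinset_card _ hfin]
        exact hS i u)
    refine le_trans (le_of_eq ?_) h3
    rw [← Set.ncard_coe_finset]
    congr 1
    ext v
    rw [Set.mem_setOf_eq, Finset.mem_coe, Finset.mem_filter, Set.Finite.mem_toFinset]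
    exact ⟨fun h => ⟨Finset.mem_univ _, h⟩, fun h => h.2⟩
  have hsub : {uv : (Fin N → ZMod p) × (Fin N → ZMod q) | ∃ i z, z ∈ Γ (ρ i (uv.1 (σ i))) ∧
      z ∈ Γ' (ρ' i (uv.2 (σ i)))} ⊆ ⋃ iu : Fin n × (Fin N → ZMod p),
        ({iu.2} : Set (Fin N → ZMod p)) ×ˢ {v : Fin N → ZMod q | v (σ iu.1) ∈ S iu.1 iu.2} := by
    rintro ⟨u, v⟩ ⟨i, z, hz, hz'⟩
    rw [Set.mem_iUnion]
    exact ⟨(i, u), Set.mem_singleton _, z, hz, hz'⟩
  refine (Set.ncard_le_ncard hsub (Set.toFinite _)).trans ?_
  refine (Set.ncard_iUnion_le_of_fintype _).trans ?_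
  calc ∑ iu : Fin n × (Fin N → ZMod p), (({iu.2} : Set (Fin N → ZMod p)) ×ˢ
        {v : Fin N → ZMod q | v (σ iu.1) ∈ S iu.1 iu.2}).ncard
      ≤ ∑ iu : Fin n × (Fin N → ZMod p), c * q ^ (N - 1) := by
        refine Finset.sum_le_sum fun iu _ => ?_
        rw [Set.ncard_prod, Set.ncard_singleton, one_mul]
        exact hSu _ _
    _ = _ := by
        rw [Finset.sum_const, Finset.card_univ, Fintype.card_prod, Fintype.card_fin,
          Fintype.card_fun, ZMod.card, Fintype.card_fin, smul_eq_mul]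
        ring

end Pool.Agent.H882
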