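import Pool.Agent.H882.FmLoc

/-!
Members of families which degenerate to unions of coordinate subspaces: all but `m` coordinates are
small.
-/

set_option autoImplicit false

namespace Pool.Agent.H882

open Pool.Agent.Y226 Polynomial

section

variable {C : Type} [NormedField C] [IsUltrametricDist C]

theorem one_J {d N M q p : ℕ} (hp1 : ‖(p : C)‖ < 1) (hp0 : 0 < ‖(p : C)‖) (Φ : ℂ →+* C)
    (J : Finset (Fin d)) (e : Fin d → ℕ) (he : ∀ i, i ∉ J → e i = 0) (c : ℂ) (hc : ‖Φ c‖ = 1)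
    (G : MvPolynomial ((Fin N ⊕ Fin M) ⊕ (Fin q ⊕ Fin d)) ℂ)
    (hG : ∀ u ∈ G.support, ‖Φ (G.coeff u)‖ ≤ 1)
    (hdeg : ∀ i, G.degreeOf (Sum.inr (Sum.inr i)) ≤ e i) (δ : Fin N → ℤ) (t : Fin M → ℕ)
    (lam : Fin q → ℂ) (hlam : ∀ i, ‖Φ (lam i)‖ ≤ 1) (x : Fin d → ℂ) (τ : ℂ)
    (hτ : ‖Φ τ‖ ≤ ‖(p : C)‖)
    (heq : c * ∏ i, x i ^ e i + τ * MvPolynomial.eval (Sum.elim (Sum.elim (fun i => (δ i : ℂ))
      (fun l => (t l : ℂ))) (Sum.elim lam x)) G = 0) (hE : ∑ i, e i < p - 1) :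
    ∃ i ∈ J, ‖Φ (x i)‖ ^ (p - 1) < ‖(p : C)‖ := by
  classical
  by_contra hcon
  push Not at hcon
  let a : Fin d → ℝ := fun i => min 1 ‖Φ (x i)‖
  let b : Fin d → ℝ := fun i => max 1 ‖Φ (x i)‖
  have hab : ∀ i, a i * b i = ‖Φ (x i)‖ := fun i => (min_mul_max _ _).trans (one_mul _)
  have ha0 : ∀ i, 0 ≤ a i := fun i => le_min zero_le_one (norm_nonneg _)
  have hb1 : ∀ i, 1 ≤ b i := fun i => le_max_left _ _
  have hb0 : ∀ i, 0 < b i := fun i => lt_of_lt_of_le one_pos (hb1 i)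
  have hG1 : ‖Φ (MvPolynomial.eval (Sum.elim (Sum.elim (fun i => (δ i : ℂ))
      (fun l => (t l : ℂ))) (Sum.elim lam x)) G)‖ ≤ ∏ i, b i ^ e i := by
    rw [MvPolynomial.eval_eq', map_sum]
    refine IsUltrametricDist.norm_sum_le_of_forall_le_of_nonneg
      (Finset.prod_nonneg fun i _ => pow_nonneg (hb0 i).le _) fun u hu => ?_
    rw [map_mul, norm_mul]
    refine (mul_le_of_le_one_left (norm_nonneg _) (hG u hu)).trans ?_
    rw [map_prod, norm_prod, Fintype.prod_sum_type, Fintype.prod_sum_type, Fintype.prod_sum_type]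
    simp only [Sum.elim_inl, Sum.elim_inr, map_pow, norm_pow, map_intCast, map_natCast]
    have h1 : ∏ i : Fin N, ‖(δ i : C)‖ ^ u (Sum.inl (Sum.inl i)) ≤ 1 :=
      Finset.prod_le_one (fun i _ => pow_nonneg (norm_nonneg _) _) fun i _ =>
        pow_le_one₀ (norm_nonneg _) (IsUltrametricDist.norm_intCast_le_one C _)
    have h2 : ∏ i : Fin M, ‖(t i : C)‖ ^ u (Sum.inl (Sum.inr i)) ≤ 1 :=
      Finset.prod_le_one (fun i _ => pow_nonneg (norm_nonneg _) _) fun i _ =>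
        pow_le_one₀ (norm_nonneg _) (by
          simpa using IsUltrametricDist.norm_intCast_le_one C (t i : ℤ))
    have h3 : ∏ i : Fin q, ‖Φ (lam i)‖ ^ u (Sum.inr (Sum.inl i)) ≤ 1 :=
      Finset.prod_le_one (fun i _ => pow_nonneg (norm_nonneg _) _) fun i _ =>
        pow_le_one₀ (norm_nonneg _) (hlam i)
    have h4 : ∏ i : Fin d, ‖Φ (x i)‖ ^ u (Sum.inr (Sum.inr i)) ≤ ∏ i, b i ^ e i := by
      refine Finset.prod_le_prod (fun i _ => pow_nonneg (norm_nonneg _) _) fun i _ => ?_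
      have hxb : ‖Φ (x i)‖ ≤ b i := le_max_right _ _
      refine (pow_le_pow_left₀ (norm_nonneg _) hxb _).trans ?_
      refine pow_le_pow_right₀ (hb1 i) ?_
      exact (MvPolynomial.monomial_le_degreeOf _ hu).trans (hdeg i)
    have n1 : 0 ≤ ∏ i : Fin N, ‖(δ i : C)‖ ^ u (Sum.inl (Sum.inl i)) :=
      Finset.prod_nonneg fun i _ => pow_nonneg (norm_nonneg _) _
    have n2 : 0 ≤ ∏ i : Fin M, ‖(t i : C)‖ ^ u (Sum.inl (Sum.inr i)) :=
      Finset.prod_nonneg fun i _ => pow_nonneg (norm_nonneg _) _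
    have n3 : 0 ≤ ∏ i : Fin q, ‖Φ (lam i)‖ ^ u (Sum.inr (Sum.inl i)) :=
      Finset.prod_nonneg fun i _ => pow_nonneg (norm_nonneg _) _
    have n4 : 0 ≤ ∏ i : Fin d, ‖Φ (x i)‖ ^ u (Sum.inr (Sum.inr i)) :=
      Finset.prod_nonneg fun i _ => pow_nonneg (norm_nonneg _) _
    calc _ ≤ 1 * (∏ i : Fin d, ‖Φ (x i)‖ ^ u (Sum.inr (Sum.inr i))) := by
          refine mul_le_mul (mul_le_one₀ h1 n2 h2) ?_ (mul_nonneg n3 n4) zero_le_one
          exact mul_le_of_le_one_left n4 h3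
      _ ≤ _ := by
          rw [one_mul]
          exact h4
  have hB0 : 0 < ∏ i, b i ^ e i := Finset.prod_pos fun i _ => pow_pos (hb0 i) _
  have h5 : (∏ i, a i ^ e i) * ∏ i, b i ^ e i ≤ ‖(p : C)‖ * ∏ i, b i ^ e i := by
    rw [← Finset.prod_mul_distrib]
    have e1 : ∏ i, a i ^ e i * b i ^ e i = ‖Φ (c * ∏ i, x i ^ e i)‖ := by
      rw [map_mul, norm_mul, hc, one_mul, map_prod, norm_prod]
      refine Finset.prod_congr rfl fun i _ => ?_
      rw [← mul_pow, hab, map_pow, norm_pow]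
    rw [e1, eq_neg_of_add_eq_zero_left heq, map_neg, norm_neg, map_mul, norm_mul]
    exact mul_le_mul hτ hG1 (norm_nonneg _) (norm_nonneg _)
  have h6 : ∏ i, a i ^ e i ≤ ‖(p : C)‖ := le_of_mul_le_mul_right h5 hB0
  have h7 : (∏ i, a i ^ e i) ^ (p - 1) ≤ ‖(p : C)‖ ^ (p - 1) :=
    pow_le_pow_left₀ (Finset.prod_nonneg fun i _ => pow_nonneg (ha0 i) _) h6 _
  have h8 : ‖(p : C)‖ ^ (∑ i, e i) ≤ (∏ i, a i ^ e i) ^ (p - 1) := by
    rw [← Finset.prod_pow, ← Finset.prod_pow_eq_pow_sum]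
    refine Finset.prod_le_prod (fun i _ => pow_nonneg hp0.le _) fun i _ => ?_
    by_cases hi : i ∈ J
    · rw [← pow_mul, mul_comm, pow_mul]
      refine pow_le_pow_left₀ hp0.le ?_ _
      rcases le_total 1 ‖Φ (x i)‖ with h | h
      · have h9 : a i = 1 := min_eq_left h
        rw [h9, one_pow]
        exact hp1.le
      · have h9 : a i = ‖Φ (x i)‖ := min_eq_right h
        rw [h9]
        exact hcon i hi
    · rw [he i hi, pow_zero, pow_zero, one_pow]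
  exact absurd (h8.trans h7) (not_le.2 (pow_lt_pow_right_of_lt_one₀ hp0 hp1 hE))

theorem pow_sub_le {a b : C} (ha : ‖a‖ ≤ 1) (hb : ‖b‖ ≤ 1) (n : ℕ) :
    ‖a ^ n - b ^ n‖ ≤ ‖a - b‖ := by
  induction n with
  | zero => simp
  | succ n ih =>
    have e : a ^ (n + 1) - b ^ (n + 1) = a * (a ^ n - b ^ n) + (a - b) * b ^ n := by ring
    rw [e]
    refine (IsUltrametricDist.norm_add_le_max _ _).trans (max_le ?_ ?_)
    · rw [norm_mul]
      exact (mul_le_of_le_one_left (norm_nonneg _) ha).trans ih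
    · rw [norm_mul, norm_pow]
      exact mul_le_of_le_one_right (norm_nonneg _) (pow_le_one₀ (norm_nonneg _) hb)

theorem eval_sub_le (g : C[X]) (hg : ∀ n, ‖g.coeff n‖ ≤ 1) {a b : C} (ha : ‖a‖ ≤ 1)
    (hb : ‖b‖ ≤ 1) : ‖g.eval a - g.eval b‖ ≤ ‖a - b‖ := by
  rw [Polynomial.eval_eq_sum_range, Polynomial.eval_eq_sum_range, ← Finset.sum_sub_distrib]
  refine IsUltrametricDist.norm_sum_le_of_forall_le_of_nonneg (norm_nonneg _) fun n _ => ?_
  rw [← mul_sub, norm_mul]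
  exact (mul_le_of_le_one_left (norm_nonneg _) (hg n)).trans (pow_sub_le ha hb n)

omit [IsUltrametricDist C] in
theorem map_eval' (Φ : ℂ →+* C) (g : ℂ[X]) (z : ℂ) : Φ (g.eval z) = (g.map Φ).eval (Φ z) := by
  rw [Polynomial.eval_map, Polynomial.eval₂_at_apply]

theorem norm_eq_of_sub {a b : C} (h : ‖a - b‖ < 1) (hb : ‖b‖ = 1) : ‖a‖ = 1 := by
  have e : a = b + (a - b) := by ring
  rw [e, IsUltrametricDist.norm_add_eq_max_of_norm_ne_norm]
  · rw [hb]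
    exact max_eq_left h.le
  · rw [hb]
    exact h.ne'

/-- the value of a rational function at a near point is a unit -/
theorem U_unit (Φ : ℂ →+* C) {u w : ℂ[X]} (hu : ∀ n, ‖Φ (u.coeff n)‖ ≤ 1)
    (hw : ∀ n, ‖Φ (w.coeff n)‖ ≤ 1) (s : ℤ) (hus : ‖Φ (u.eval (s : ℂ))‖ = 1)
    (hws : ‖Φ (w.eval (s : ℂ))‖ = 1) {x v : ℂ} (hx : ‖Φ x‖ < 1)
    (hv : v * w.eval ((s : ℂ) + x) = u.eval ((s : ℂ) + x)) : ‖Φ v‖ = 1 := by
  have hs : ‖Φ (s : ℂ)‖ ≤ 1 := by
    rw [map_intCast]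
    exact IsUltrametricDist.norm_intCast_le_one C s
  have hsx : ‖Φ ((s : ℂ) + x)‖ ≤ 1 := by
    rw [map_add]
    exact (IsUltrametricDist.norm_add_le_max _ _).trans (max_le hs hx.le)
  have key : ∀ g : ℂ[X], (∀ n, ‖Φ (g.coeff n)‖ ≤ 1) → ‖Φ (g.eval (s : ℂ))‖ = 1 →
      ‖Φ (g.eval ((s : ℂ) + x))‖ = 1 := by
    intro g hg h
    refine norm_eq_of_sub ?_ h
    rw [map_eval', map_eval']
    refine (eval_sub_le _ (fun n => ?_) hsx hs).trans_lt ?_
    · rw [Polynomial.coeff_map]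
      exact hg n
    · rw [map_add, add_sub_cancel_left]
      exact hx
  have h1 := congrArg (fun z => ‖Φ z‖) hv
  simp only [map_mul, norm_mul] at h1
  rw [key w hw hws, key u hu hus, mul_one] at h1
  exact h1

end

/-- the value of a rational function over the integers at a near point is near -/
theorem R_near {C : Type} [NormedField C] [IsUltrametricDist C] [CharZero C] {p : ℕ} (hp : p.Prime)
    (hp3 : 3 < p) (hp1 : ‖(p : C)‖ < 1) (hp0 : 0 < ‖(p : C)‖) (a b : ℤ[X]) (s s' : ℤ)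
    (hb : ¬ (p : ℤ) ∣ b.eval s) (hs' : (p : ℤ) ∣ a.eval s - s' * b.eval s) (Φ : ℂ →+* C)
    {x j : ℂ} (hx : ‖Φ x‖ ^ (p - 1) < ‖(p : C)‖)
    (hj : j * (b.map (Int.castRingHom ℂ)).eval ((s : ℂ) + x) =
      (a.map (Int.castRingHom ℂ)).eval ((s : ℂ) + x)) :
    ‖Φ j - (s' : C)‖ ^ (p - 1) < ‖(p : C)‖ := by
  have hx1 : ‖Φ x‖ < 1 := by
    by_contra h
    push Not at h
    have h2 : (1 : ℝ) ≤ ‖Φ x‖ ^ (p - 1) := one_le_pow₀ h
    linarith
  have hs : ‖(s : C)‖ ≤ 1 := IsUltrametricDist.norm_intCast_le_one C s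
  have hsx : ‖(s : C) + Φ x‖ ≤ 1 :=
    (IsUltrametricDist.norm_add_le_max _ _).trans (max_le hs hx1.le)
  have key : ∀ g : ℤ[X], ‖(g.map (Int.castRingHom C)).eval ((s : C) + Φ x) -
      ((g.eval s : ℤ) : C)‖ ≤ ‖Φ x‖ := by
    intro g
    have e : ((g.eval s : ℤ) : C) = (g.map (Int.castRingHom C)).eval (s : C) := by
      rw [Polynomial.eval_intCast_map]
      rfl
    rw [e]
    refine (eval_sub_le _ (fun n => ?_) hsx hs).trans ?_
    · rw [Polynomial.coeff_map]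
      exact IsUltrametricDist.norm_intCast_le_one C _
    · rw [add_sub_cancel_left]
  have hΦ : ∀ g : ℤ[X], Φ ((g.map (Int.castRingHom ℂ)).eval ((s : ℂ) + x)) =
      (g.map (Int.castRingHom C)).eval ((s : C) + Φ x) := by
    intro g
    rw [map_eval', Polynomial.map_map, map_add, map_intCast]
    congr 2
    exact RingHom.ext_int _ _
  have hbu : ‖(b.map (Int.castRingHom C)).eval ((s : C) + Φ x)‖ = 1 :=
    norm_eq_of_sub ((key b).trans_lt hx1) (norm_unit hp hp1 hb)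
  have h1 := congrArg Φ hj
  rw [map_mul, hΦ, hΦ] at h1
  have h2 : (Φ j - (s' : C)) * (b.map (Int.castRingHom C)).eval ((s : C) + Φ x) =
      ((a - Polynomial.C s' * b).map (Int.castRingHom C)).eval ((s : C) + Φ x) := by
    rw [sub_mul, h1]
    simp
  have h3 : ‖Φ j - (s' : C)‖ =
      ‖((a - Polynomial.C s' * b).map (Int.castRingHom C)).eval ((s : C) + Φ x)‖ := by
    rw [← h2, norm_mul, hbu, mul_one]
  have h4 : ‖(((a - Polynomial.C s' * b).eval s : ℤ) : C)‖ ≤ ‖(p : C)‖ := by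
    refine norm_le_p ?_
    simpa using hs'
  have h5 := key (a - Polynomial.C s' * b)
  have h6 : ‖Φ j - (s' : C)‖ ≤ max ‖Φ x‖ ‖(p : C)‖ := by
    rw [h3]
    have e : ((a - Polynomial.C s' * b).map (Int.castRingHom C)).eval ((s : C) + Φ x) =
        (((a - Polynomial.C s' * b).map (Int.castRingHom C)).eval ((s : C) + Φ x) -
        (((a - Polynomial.C s' * b).eval s : ℤ) : C)) +
        (((a - Polynomial.C s' * b).eval s : ℤ) : C) := by ring
    rw [e]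
    exact (IsUltrametricDist.norm_add_le_max _ _).trans (max_le_max h5 h4)
  rcases le_total ‖Φ x‖ ‖(p : C)‖ with h | h
  · rw [max_eq_right h] at h6
    calc ‖Φ j - (s' : C)‖ ^ (p - 1) ≤ ‖(p : C)‖ ^ (p - 1) :=
          pow_le_pow_left₀ (norm_nonneg _) h6 _
      _ < ‖(p : C)‖ ^ 1 := pow_lt_pow_right_of_lt_one₀ hp0 hp1 (by omega)
      _ = _ := pow_one _
  · rw [max_eq_left h] at h6
    exact (pow_le_pow_left₀ (norm_nonneg _) h6 _).trans_lt hx

end Pool.Agent.H882
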