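import Pool.Agent.H882.MvLoc

/-!
Residue classes at which a polynomial is small, and the closure of the inverted set.
-/

set_option autoImplicit false

namespace Pool.Agent.H882

open Function Pool.Agent.Y226

section

variable {C : Type} [NormedField C] [IsUltrametricDist C] [CharZero C]

/-- The residue classes at which a polynomial with unit coefficients is small. -/
theorem count_small {d p : ℕ} (hp : p.Prime) (hp1 : ‖(p : C)‖ < 1) (Φ : ℂ →+* C)
    (P : MvPolynomial (Fin d) ℂ) (hP0 : P ≠ 0) (hP : ∀ u ∈ P.support, ‖Φ (P.coeff u)‖ = 1) :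
    {a : Fin d → ZMod p | ‖Φ (MvPolynomial.eval (fun i => ((a i).val : ℂ)) P)‖ < 1}.ncard ≤
      P.totalDegree * p ^ (d - 1) := by
  classical
  have : NeZero p := ⟨hp.ne_zero⟩
  rcases Nat.eq_zero_or_pos d with rfl | hd
  · have h1 : {a : Fin 0 → ZMod p | ‖Φ (MvPolynomial.eval (fun i => ((a i).val : ℂ)) P)‖ < 1} =
        ∅ := by
      rw [Set.eq_empty_iff_forall_notMem]
      intro a ha
      obtain ⟨u, hu⟩ := MvPolynomial.support_nonempty.2 hP0
      have h2 : MvPolynomial.eval (fun i => ((a i).val : ℂ)) P = P.coeff u := by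
        rw [MvPolynomial.eval_eq']
        rw [Finset.sum_eq_single u]
        · simp
        · intro v _ hv
          exact absurd (Subsingleton.elim v u) hv
        · intro h
          exact absurd hu h
      have h3 : ‖Φ (MvPolynomial.eval (fun i => ((a i).val : ℂ)) P)‖ < 1 := ha
      rw [h2, hP u hu] at h3
      exact lt_irrefl _ h3
    rw [h1, Set.ncard_empty]
    exact Nat.zero_le _
  set R := VF Φ with hR
  let k := IsLocalRing.ResidueField R
  let res : R →+* k := IsLocalRing.residue R
  have hres : ∀ z : R, res z = 0 ↔ ‖Φ (z : ℂ)‖ < 1 := by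
    intro z
    have h1 : res z = 0 ↔ z ∈ IsLocalRing.maximalIdeal R := Ideal.Quotient.eq_zero_iff_mem
    rw [h1, ValuationSubring.valuation_lt_one_iff, VF_lt_one]
  -- the polynomial over the valuation ring
  have hmem : ∀ u, P.coeff u ∈ R := by
    intro u
    show ‖Φ (P.coeff u)‖ ≤ 1
    by_cases hu : u ∈ P.support
    · exact (hP u hu).le
    · rw [MvPolynomial.notMem_support_iff.1 hu, map_zero, norm_zero]
      exact zero_le_one
  let P' : MvPolynomial (Fin d) R := ∑ u ∈ P.support, MvPolynomial.monomial u ⟨P.coeff u, hmem u⟩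
  have hcoef : ∀ u, P'.coeff u = ⟨P.coeff u, hmem u⟩ := by
    intro u
    show (∑ v ∈ P.support, MvPolynomial.monomial v (⟨P.coeff v, hmem v⟩ : R)).coeff u = _
    rw [MvPolynomial.coeff_sum]
    simp only [MvPolynomial.coeff_monomial]
    by_cases hu : u ∈ P.support
    · rw [Finset.sum_eq_single u]
      · rw [if_pos rfl]
      · intro v _ hv
        rw [if_neg hv]
      · intro h
        exact absurd hu h
    · rw [Finset.sum_eq_zero]
      · apply Subtype.ext
        exact (MvPolynomial.notMem_support_iff.1 hu).symm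
      · intro v hv
        rw [if_neg]
        rintro rfl
        exact hu hv
  have hmapP : P'.map (algebraMap R ℂ) = P := by
    ext u
    rw [MvPolynomial.coeff_map, hcoef]
    rfl
  let Q : MvPolynomial (Fin d) k := P'.map res
  have hQ0 : Q ≠ 0 := by
    obtain ⟨u, hu⟩ := MvPolynomial.support_nonempty.2 hP0
    intro h
    have h1 : Q.coeff u = 0 := by rw [h, MvPolynomial.coeff_zero]
    have h2 : Q.coeff u = res (P'.coeff u) := MvPolynomial.coeff_map _ _ _
    rw [h2, hres, hcoef] at h1
    exact absurd h1 (by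
      show ¬ ‖Φ (P.coeff u)‖ < 1
      rw [hP u hu]
      exact lt_irrefl _)
  have hQdeg : Q.totalDegree ≤ P.totalDegree := by
    refine Finset.sup_mono ?_
    intro u hu
    rw [MvPolynomial.mem_support_iff] at hu ⊢
    intro h
    apply hu
    have h2 : Q.coeff u = res (P'.coeff u) := MvPolynomial.coeff_map _ _ _
    rw [h2, hcoef]
    have h3 : (⟨P.coeff u, hmem u⟩ : R) = 0 := Subtype.ext h
    rw [h3, map_zero]
  -- the classes
  let e : ZMod p → k := fun a => res (a.val : R)
  have he : Injective e := by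
    intro a b hab
    have h1 : res (((a.val : R)) - (b.val : R)) = 0 := by
      rw [map_sub]
      exact sub_eq_zero.2 hab
    rw [hres] at h1
    have h2 : Φ (((((a.val : R)) - (b.val : R) : R)) : ℂ) = (((a.val : ℤ) - (b.val : ℤ) : ℤ) : C) := by
      push_cast
      rw [map_sub, map_natCast, map_natCast]
    rw [h2] at h1
    have h3 := dvd_of_norm hp hp1 h1
    rw [← ZMod.intCast_zmod_eq_zero_iff_dvd] at h3
    push_cast at h3
    rw [ZMod.natCast_zmod_val, ZMod.natCast_zmod_val] at h3
    exact sub_eq_zero.1 h3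
  let S : Finset k := Finset.univ.image e
  have hS : S.card = p := by
    show (Finset.univ.image e).card = p
    rw [Finset.card_image_of_injective _ he, Finset.card_univ, ZMod.card]
  have hsz := MvPolynomial.schwartz_zippel_totalDegree hQ0 S
  rw [hS] at hsz
  have hp0 : (0 : ℚ≥0) < p := by exact_mod_cast hp.pos
  rw [div_le_div_iff₀ (by positivity) hp0] at hsz
  have hsz' : (Finset.filter (fun f => MvPolynomial.eval f Q = 0)
      (Fintype.piFinset fun _ : Fin d => S)).card * p ≤ Q.totalDegree * p ^ d := by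
    exact_mod_cast hsz
  have hd1 : p ^ d = p ^ (d - 1) * p := by
    rw [← pow_succ]
    congr 1
    omega
  rw [hd1, ← mul_assoc] at hsz'
  have hsz2 := Nat.le_of_mul_le_mul_right hsz' hp.pos
  have hcard : {a : Fin d → ZMod p | ‖Φ (MvPolynomial.eval (fun i => ((a i).val : ℂ)) P)‖ < 1}.ncard ≤
      (Finset.filter (fun f => MvPolynomial.eval f Q = 0)
      (Fintype.piFinset fun _ : Fin d => S)).card := by
    rw [← Set.ncard_coe_finset]
    refine Set.ncard_le_ncard_of_injOn (fun a i => e (a i)) ?_ ?_ (Finset.finite_toSet _)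
    · intro a ha
      rw [Finset.mem_coe, Finset.mem_filter, Fintype.mem_piFinset]
      refine ⟨fun i => Finset.mem_image_of_mem _ (Finset.mem_univ _), ?_⟩
      have h1 : MvPolynomial.eval (fun i => e (a i)) Q =
          res (MvPolynomial.eval (fun i => ((a i).val : R)) P') := by
        show MvPolynomial.eval (fun i => res ((a i).val : R)) (P'.map res) = _
        rw [MvPolynomial.eval_map, MvPolynomial.eval₂_eq_eval_map]
        exact (MvPolynomial.map_eval res _ _).symm
      have h2 : ((MvPolynomial.eval (fun i => ((a i).val : R)) P' : R) : ℂ) =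
          MvPolynomial.eval (fun i => ((a i).val : ℂ)) P := by
        have h3 := MvPolynomial.map_eval (algebraMap R ℂ) (fun i => ((a i).val : R)) P'
        rw [hmapP] at h3
        have h4 : (algebraMap R ℂ) ∘ (fun i => ((a i).val : R)) = fun i => ((a i).val : ℂ) := by
          funext i
          exact map_natCast _ _
        rw [h4] at h3
        exact h3
      rw [h1, hres, h2]
      exact ha
    · intro a _ b _ hab
      funext i
      exact he (congrFun hab i)
  exact hcard.trans (hsz2.trans (Nat.mul_le_mul_right _ hQdeg))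

end

/-- The Zariski closure of the set of the points `w` with `w_i = 1 / (y_i - δ_i)`, `y ∈ V`. -/
def Inv {d : ℕ} (δ : Fin d → ℤ) (V : Set (Fin d → ℂ)) : Set (Fin d → ℂ) :=
  {w | ∀ G : MvPolynomial (Fin d) ℂ,
    (∀ u : Fin d → ℂ, (∃ y ∈ V, ∀ i, u i * (y i - δ i) = 1) → MvPolynomial.eval u G = 0) →
      MvPolynomial.eval w G = 0}

theorem eval_Inv {d : ℕ} {δ : Fin d → ℤ} {V : Set (Fin d → ℂ)} {w : Fin d → ℂ} (hw : w ∈ Inv δ V)
    (P : MvPolynomial (Fin d) ℂ) (hP : ∀ y ∈ V, MvPolynomial.eval y P = 0) (J : Finset (Fin d))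
    (hJ : ∀ u ∈ P.support, u.support ⊆ J) (hw0 : ∀ i ∈ J, w i ≠ 0) :
    MvPolynomial.eval (fun i => (δ i : ℂ) + (w i)⁻¹) P = 0 := by
  classical
  set D := P.totalDegree with hD
  have huD : ∀ u ∈ P.support, ∀ i, u i ≤ D := by
    intro u hu i
    have h1 : (u.sum fun _ e => e) ≤ D := MvPolynomial.le_totalDegree hu
    rw [Finsupp.sum_fintype _ _ fun _ => rfl] at h1
    exact (Finset.single_le_sum (f := fun i => u i) (fun _ _ => Nat.zero_le _)
      (Finset.mem_univ i)).trans h1
  let Q : MvPolynomial (Fin d) ℂ := ∑ u ∈ P.support, MvPolynomial.C (P.coeff u) *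
    ∏ i ∈ J, (MvPolynomial.C (δ i : ℂ) * MvPolynomial.X i + 1) ^ (u i) *
      MvPolynomial.X i ^ (D - u i)
  have hQ : ∀ v : Fin d → ℂ, (∀ i ∈ J, v i ≠ 0) → MvPolynomial.eval v Q =
      (∏ i ∈ J, v i ^ D) * MvPolynomial.eval (fun i => (δ i : ℂ) + (v i)⁻¹) P := by
    intro v hv
    have e1 : MvPolynomial.eval v Q = ∑ u ∈ P.support, P.coeff u *
        ∏ i ∈ J, ((δ i : ℂ) * v i + 1) ^ (u i) * v i ^ (D - u i) := by
      show MvPolynomial.eval v (∑ u ∈ P.support, _) = _
      rw [map_sum]
      refine Finset.sum_congr rfl fun u _ => ?_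
      rw [map_mul, MvPolynomial.eval_C, map_prod]
      congr 1
      refine Finset.prod_congr rfl fun i _ => ?_
      rw [map_mul, map_pow, map_pow, map_add, map_mul, MvPolynomial.eval_C, MvPolynomial.eval_X,
        map_one]
    rw [e1, MvPolynomial.eval_eq', Finset.mul_sum]
    refine Finset.sum_congr rfl fun u hu => ?_
    have e2 : ∏ i, ((δ i : ℂ) + (v i)⁻¹) ^ u i = ∏ i ∈ J, ((δ i : ℂ) + (v i)⁻¹) ^ u i := by
      symm
      refine Finset.prod_subset (Finset.subset_univ J) fun i _ hi => ?_
      have : u i = 0 := by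
        by_contra h
        exact hi (hJ u hu (Finsupp.mem_support_iff.2 h))
      rw [this, pow_zero]
    rw [e2, mul_left_comm, ← Finset.prod_mul_distrib]
    congr 1
    refine Finset.prod_congr rfl fun i hi => ?_
    have hvi := hv i hi
    have e3 : (δ i : ℂ) * v i + 1 = ((δ i : ℂ) + (v i)⁻¹) * v i := by
      field_simp
    have e4 : v i ^ D = v i ^ (u i) * v i ^ (D - u i) := by
      rw [← pow_add, Nat.add_sub_cancel' (huD u hu i)]
    rw [e3, mul_pow, e4]
    ring
  have h1 : MvPolynomial.eval w Q = 0 := by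
    apply hw Q
    rintro u ⟨y, hy, hu⟩
    have hu0 : ∀ i, u i ≠ 0 := fun i h => by
      have := hu i
      rw [h, zero_mul] at this
      exact zero_ne_one this
    have hu1 : (fun i => (δ i : ℂ) + (u i)⁻¹) = y := by
      funext i
      have h2 := hu i
      have h3 : y i - δ i = (u i)⁻¹ := eq_inv_of_mul_eq_one_right h2
      rw [← h3]
      ring
    rw [hQ u fun i _ => hu0 i, hu1, hP y hy, mul_zero]
  rw [hQ w hw0] at h1
  rcases mul_eq_zero.1 h1 with h2 | h2
  · exfalso
    obtain ⟨i, hi, hi0⟩ := Finset.prod_eq_zero_iff.1 h2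
    exact pow_ne_zero _ (hw0 i hi) hi0
  · exact h2

/-- The number of the bad coordinates. -/
theorem bad_Inv {C : Type} [NormedField C] [IsUltrametricDist C] {d m : ℕ} {δ : Fin d → ℤ}
    {V : Set (Fin d → ℂ)} (P : Finset (Fin d) → MvPolynomial (Fin d) ℂ)
    (hP : ∀ J : Finset (Fin d), J.card = m + 1 → (∀ y ∈ V, MvPolynomial.eval y (P J) = 0) ∧
      ∀ u ∈ (P J).support, u.support ⊆ J) (Φ : ℂ →+* C)
    (hΦ : ∀ J : Finset (Fin d), J.card = m + 1 → (∀ u ∈ (P J).support, ‖Φ ((P J).coeff u)‖ ≤ 1) ∧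
      ‖Φ (MvPolynomial.eval (fun i => (δ i : ℂ)) (P J))‖ = 1) {w : Fin d → ℂ} (hw : w ∈ Inv δ V) :
    (Finset.univ.filter fun i => 1 < ‖Φ (w i)‖).card ≤ m := by
  classical
  by_contra hcon
  obtain ⟨J, hJ, hJc⟩ := Finset.exists_subset_card_eq
    (show m + 1 ≤ (Finset.univ.filter fun i => 1 < ‖Φ (w i)‖).card by omega)
  obtain ⟨h1, h2⟩ := hP J hJc
  obtain ⟨h3, h4⟩ := hΦ J hJc
  have hbig : ∀ i ∈ J, 1 < ‖Φ (w i)‖ := fun i hi => (Finset.mem_filter.1 (hJ hi)).2
  have hw0 : ∀ i ∈ J, w i ≠ 0 := by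
    intro i hi h
    have := hbig i hi
    rw [h, map_zero, norm_zero] at this
    exact absurd this (not_lt.2 zero_le_one)
  have h5 := eval_Inv hw (P J) h1 J h2 hw0
  have h6 : Nr (Φ (MvPolynomial.eval (fun i => (δ i : ℂ) + (w i)⁻¹) (P J)))
      (Φ (MvPolynomial.eval (fun i => (δ i : ℂ)) (P J))) := by
    rw [MvPolynomial.eval_eq', MvPolynomial.eval_eq', map_sum, map_sum]
    refine Nr.sum _ fun u hu => ?_
    rw [map_mul, map_mul, map_prod, map_prod]
    refine (Nr.rfl' (h3 u hu)).mul (Nr.prod _ fun i _ => ?_)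
    rw [map_pow, map_pow]
    by_cases hi : i ∈ J
    · refine Nr.pow ?_ _
      have h7 : ‖Φ ((w i)⁻¹)‖ < 1 := by
        rw [map_inv₀, norm_inv]
        exact inv_lt_one_of_one_lt₀ (hbig i hi)
      have h8 : ‖Φ (δ i : ℂ)‖ ≤ 1 := by
        rw [map_intCast]
        exact IsUltrametricDist.norm_intCast_le_one C _
      refine ⟨?_, h8, ?_⟩
      · rw [map_add]
        exact (IsUltrametricDist.norm_add_le_max _ _).trans (max_le h8 h7.le)
      · rw [map_add, add_sub_cancel_left]
        exact h7
    · have : u i = 0 := by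
        by_contra h
        exact hi (h2 u hu (Finsupp.mem_support_iff.2 h))
      rw [this, pow_zero, pow_zero]
      exact Nr.rfl' (by rw [norm_one])
  have h7 := h6.norm_eq h4
  rw [h5, map_zero, norm_zero] at h7
  exact zero_ne_one h7

end Pool.Agent.H882
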