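import Pool.Agent.H882.FmPrime

/-!
The exceptional classes of the parameters for modular coordinates which are rational functions.
-/

set_option autoImplicit false

namespace Pool.Agent.H882

open Polynomial

/-- the exceptional classes -/
def EF {n N : ℕ} (p : ℕ) (σ : Fin n → Fin N) (a b : Fin n → ℤ[X]) (E : Set (Fin n → ZMod p))
    (Bd : Set (Fin N → ZMod p)) : Set (Fin N → ZMod p) :=
  {u | u ∈ Bd ∨ (fun i => rr p (a i) (b i) (u (σ i))) ∈ E ∨
    ∃ i, ((b i).map (Int.castRingHom (ZMod p))).eval (u (σ i)) = 0}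

theorem card_EF {n N p c : ℕ} [NeZero p] {σ : Fin n → Fin N} (hσ : Function.Injective σ)
    {a b : Fin n → ℤ[X]} (h1 : ∀ i (β : ZMod p), {x | rr p (a i) (b i) x = β}.ncard ≤ c)
    (h2 : ∀ i, {x : ZMod p | ((b i).map (Int.castRingHom (ZMod p))).eval x = 0}.ncard ≤ c)
    (E : Set (Fin n → ZMod p)) (Bd : Set (Fin N → ZMod p)) :
    (EF p σ a b E Bd).ncard ≤ Bd.ncard + (c ^ n * E.ncard * p ^ (N - n) +
      n * (c * p ^ (N - 1))) := by
  classical
  let T : Fin n → Finset (ZMod p) := fun i =>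
    Finset.univ.filter fun x => ((b i).map (Int.castRingHom (ZMod p))).eval x = 0
  have hT : ∀ i, (T i).card ≤ c := by
    intro i
    refine le_trans (le_of_eq ?_) (h2 i)
    rw [← Set.ncard_coe_finset]
    congr 1
    ext x
    simp [T]
  have hsub : EF p σ a b E Bd ⊆ Bd ∪ ({u | (fun i => u (σ i)) ∈
      {s : Fin n → ZMod p | (fun i => rr p (a i) (b i) (s i)) ∈ E}} ∪
      (((Finset.univ : Finset (Fin n)).biUnion fun i =>
        Finset.univ.filter fun u : Fin N → ZMod p => u (σ i) ∈ (fun _ => T i) u :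
          Finset (Fin N → ZMod p)) : Set (Fin N → ZMod p))) := by
    rintro u (h | h | ⟨i, hi⟩)
    · exact Or.inl h
    · exact Or.inr (Or.inl h)
    · refine Or.inr (Or.inr ?_)
      rw [Finset.mem_coe, Finset.mem_biUnion]
      exact ⟨i, Finset.mem_univ i, Finset.mem_filter.2 ⟨Finset.mem_univ u,
        Finset.mem_filter.2 ⟨Finset.mem_univ _, hi⟩⟩⟩
  refine (Set.ncard_le_ncard hsub (Set.toFinite _)).trans ((Set.ncard_union_le _ _).trans
    (Nat.add_le_add le_rfl ((Set.ncard_union_le _ _).trans (Nat.add_le_add ?_ ?_))))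
  · refine (card_pull σ hσ _).trans (Nat.mul_le_mul_right _ ?_)
    exact card_fib (fun i => rr p (a i) (b i)) h1 E
  · rw [Set.ncard_coe_finset]
    refine Finset.card_biUnion_le.trans ?_
    calc _ ≤ ∑ i : Fin n, c * p ^ (N - 1) := Finset.sum_le_sum fun i _ =>
          count_coord (σ i) (fun _ => T i) (fun _ _ => rfl) c fun _ => hT i
      _ = _ := by rw [Finset.sum_const, Finset.card_univ, Fintype.card_fin, smul_eq_mul]

theorem small_EF {n N c K B₀ : ℕ} {σ : Fin n → Fin N} (hσ : Function.Injective σ)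
    {a b : Fin n → ℤ[X]} (E : ∀ p : ℕ, Set (Fin n → ZMod p)) (Bd : ∀ p : ℕ, Set (Fin N → ZMod p))
    (hE : ∀ η : ℝ, 0 < η → ∃ B : ℕ, ∀ p, p.Prime → B < p → ((E p).ncard : ℝ) ≤ η * (p : ℝ) ^ n)
    (h1 : ∀ p, p.Prime → B₀ < p → ∀ i (β : ZMod p), {x | rr p (a i) (b i) x = β}.ncard ≤ c)
    (h2 : ∀ p, p.Prime → B₀ < p → ∀ i,
      {x : ZMod p | ((b i).map (Int.castRingHom (ZMod p))).eval x = 0}.ncard ≤ c)
    (h3 : ∀ p, p.Prime → B₀ < p → (Bd p).ncard ≤ K * p ^ (N - 1) ∧ (N = 0 → Bd p = ∅)) :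
    ∃ B : ℕ, ∀ p, p.Prime → B < p →
      ((EF p σ a b (E p) (Bd p)).ncard : ℝ) ≤ 1 / 2 * (p : ℝ) ^ N := by
  have hnN : n ≤ N := by
    have := Fintype.card_le_of_injective σ hσ
    rwa [Fintype.card_fin, Fintype.card_fin] at this
  obtain ⟨B₁, hB₁⟩ := hE (1 / (4 * (c ^ n + 1))) (by positivity)
  refine ⟨B₀ + B₁ + 4 * (K + n * c), fun p hp hlt => ?_⟩
  have : NeZero p := ⟨hp.ne_zero⟩
  have hp0 : (0 : ℝ) < p := by exact_mod_cast hp.pos
  obtain ⟨h4, h5⟩ := h3 p hp (by omega)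
  have h6 : ((EF p σ a b (E p) (Bd p)).ncard : ℝ) ≤ ((Bd p).ncard : ℝ) +
      ((c : ℝ) ^ n * (E p).ncard * (p : ℝ) ^ (N - n) + n * (c * (p : ℝ) ^ (N - 1))) := by
    exact_mod_cast card_EF hσ (h1 p hp (by omega)) (h2 p hp (by omega)) (E p) (Bd p)
  have h7 : (c : ℝ) ^ n * (E p).ncard * (p : ℝ) ^ (N - n) ≤ 1 / 4 * (p : ℝ) ^ N := by
    have h8 := hB₁ p hp (by omega)
    have h9 : (c : ℝ) ^ n * (1 / (4 * (c ^ n + 1))) ≤ 1 / 4 := by
      rw [mul_one_div, div_le_div_iff₀ (by positivity) (by norm_num)]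
      have : (0 : ℝ) ≤ (c : ℝ) ^ n := by positivity
      nlinarith
    have e : (p : ℝ) ^ N = (p : ℝ) ^ n * (p : ℝ) ^ (N - n) := by
      rw [← pow_add]
      congr 1
      omega
    calc (c : ℝ) ^ n * (E p).ncard * (p : ℝ) ^ (N - n) ≤
        (c : ℝ) ^ n * (1 / (4 * (c ^ n + 1)) * (p : ℝ) ^ n) * (p : ℝ) ^ (N - n) := by
          refine mul_le_mul_of_nonneg_right ?_ (by positivity)
          exact mul_le_mul_of_nonneg_left h8 (by positivity)
      _ = ((c : ℝ) ^ n * (1 / (4 * (c ^ n + 1)))) * (p : ℝ) ^ N := by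
          rw [e]
          ring
      _ ≤ _ := mul_le_mul_of_nonneg_right h9 (by positivity)
  rcases Nat.eq_zero_or_pos N with hN | hN
  · have hn : n = 0 := by omega
    have hB0 : ((Bd p).ncard : ℝ) = 0 := by
      rw [h5 hN, Set.ncard_empty, Nat.cast_zero]
    have h8 : (n : ℝ) = 0 := by exact_mod_cast hn
    rw [h8, hB0] at h6
    have h9 : (0 : ℝ) ≤ (p : ℝ) ^ N := by positivity
    linarith
  · have e : (p : ℝ) ^ N = p * (p : ℝ) ^ (N - 1) := by
      rw [← pow_succ']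
      congr 1
      omega
    have h8 : ((Bd p).ncard : ℝ) ≤ K * (p : ℝ) ^ (N - 1) := by exact_mod_cast h4
    have h9 : ((K + n * c : ℕ) : ℝ) * 4 ≤ p := by
      have : (K + n * c) * 4 ≤ p := by omega
      exact_mod_cast this
    push_cast at h9
    have h10 : (0 : ℝ) ≤ (p : ℝ) ^ (N - 1) := by positivity
    have h11 : ((K : ℝ) + n * c) * (p : ℝ) ^ (N - 1) ≤ 1 / 4 * (p : ℝ) ^ N := by
      rw [e, ← mul_assoc]
      exact mul_le_mul_of_nonneg_right (by linarith) h10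
    nlinarith

end Pool.Agent.H882
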