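import Pool.Agent.H882.FxKro

/-!
The set of the numbers `j (g τ)`, `det g = l`, `j (τ) = s` an integer, is stable under the automorphisms
of the ring of algebraic integers.
-/

set_option autoImplicit false

namespace Pool.Agent.H882

open UpperHalfPlane H294ZP Function Pool.Agent.N135.ZO Polynomial
open Pool.Agent.Y226 (ZZ ιZ ιZ_apply eZ qq_h eZ_mul Ev Rep)
open H294ZP.TA2 (R mp)

/-- the expansion of `j ∘ g` with the automorphism `δ` applied to the coefficients -/
theorem rep_gal {N m : ℕ} (hm : 0 < m) (δ : ZZ →+* ZZ) {u u' : ZZ} (huu : u * u' = 1) {g : ℍ → ℍ}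
    (hg : ∀ τ, qq 1 (g τ) = ιZ u * qq N τ ^ m) {τ₀ w₀ : ℍ}
    (hw : qq 1 w₀ = ιZ (δ u) * qq N τ₀ ^ m) :
    Rep (ιZ.comp δ) N (qq N τ₀) (fun τ => jj (g τ)) (jj w₀) := by
  set F : PowerSeries ZZ := PowerSeries.mk fun k =>
    if m ∣ k then u' * (((PowerSeries.coeff (k / m) W : ℤ) : ZZ) * u ^ (k / m)) else 0 with hF
  have hinj : Function.Injective (fun n : ℕ => m * n) := by
    intro x y hxy
    exact Nat.eq_of_mul_eq_mul_left hm hxy
  have key : ∀ (φ : ZZ →+* ℂ) (q : ℂ) (w : ℍ), qq 1 w = φ u * q ^ m →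
      Ev φ q F (q ^ m * jj w) := by
    intro φ q w hz
    have hS : HasSum (fun n => ((PowerSeries.coeff n W : ℤ) : ℂ) * qq 1 w ^ n)
        (qq 1 w * jj w) := by
      have h := R_W w
      refine TCx.hs_congr h (fun n => ?_) rfl
      rw [PowerSeries.coeff_map]
      rfl
    have hsum := hS.summable.norm
    have e1 : ∀ k, k ∉ Set.range (fun n : ℕ => m * n) →
        φ (PowerSeries.coeff k F) * q ^ k = 0 := by
      intro k hk
      have : ¬ m ∣ k := by
        rintro ⟨l, rfl⟩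
        exact hk ⟨l, rfl⟩
      rw [hF, PowerSeries.coeff_mk, if_neg this, map_zero, zero_mul]
    have e2 : ∀ n, φ (PowerSeries.coeff (m * n) F) * q ^ (m * n) =
        φ u' * (((PowerSeries.coeff n W : ℤ) : ℂ) * qq 1 w ^ n) := by
      intro n
      rw [hF, PowerSeries.coeff_mk, if_pos (dvd_mul_right _ _), Nat.mul_div_cancel_left _ hm,
        map_mul, map_mul, map_pow, map_intCast, hz, mul_pow, pow_mul]
      ring
    have e3 : q ^ m * jj w = φ u' * (qq 1 w * jj w) := by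
      have h1 : φ u * φ u' = 1 := by rw [← map_mul, huu, map_one]
      rw [hz]
      linear_combination (-(q ^ m * jj w)) * h1
    rw [e3]
    refine ⟨?_, ?_⟩
    · rw [← hinj.hasSum_iff e1]
      simp only [Function.comp_def, e2]
      exact hS.mul_left _
    · rw [← hinj.summable_iff (f := fun k => ‖φ (PowerSeries.coeff k F) * q ^ k‖)
        (fun k hk => by rw [e1 k hk, norm_zero])]
      simp only [Function.comp_def, e2, norm_mul (φ u')]
      exact hsum.mul_left _
  exact ⟨m, F, fun τ => key ιZ (qq N τ) (g τ) (hg τ), key (ιZ.comp δ) (qq N τ₀) w₀ hw⟩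

theorem exists_pi {l : ℕ} (hl : l.Prime) (δ : ZZ →+* ZZ) (k : Option (Fin l)) :
    ∃ k' : Option (Fin l), ka l k' = ka l k ∧
      δ (eZ (kb l k) (kd l k) (kd_pos hl.pos k)) = eZ (kb l k') (kd l k') (kd_pos hl.pos k') := by
  cases k with
  | none =>
    refine ⟨none, rfl, ?_⟩
    have h1 : eZ (kb l (none : Option (Fin l))) (kd l (none : Option (Fin l)))
        (kd_pos hl.pos none) = 1 := by
      apply Subtype.ext
      show Complex.exp (2 * Real.pi * Complex.I * ((0 : ℤ) : ℂ) / _) = 1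
      simp
    rw [h1, map_one]
  | some b =>
    have h1 := eZ_pow_l hl.pos (kb l (some b))
    have h2 : (ιZ (δ (eZ (kb l (some b)) l hl.pos))) ^ l = 1 := by
      rw [← map_pow, ← map_pow, h1, map_one, map_one]
    have : NeZero l := ⟨hl.ne_zero⟩
    obtain ⟨i, hi, hi2⟩ := (Complex.isPrimitiveRoot_exp l hl.ne_zero).eq_pow_of_pow_eq_one h2
    refine ⟨some ⟨i, hi⟩, rfl, ?_⟩
    apply Subtype.ext
    show ιZ (δ (eZ (kb l (some b)) l hl.pos)) = Complex.exp (2 * Real.pi * Complex.I * _ / l)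
    rw [← hi2, ← Complex.exp_nat_mul]
    congr 1
    show _ = 2 * Real.pi * Complex.I * (((i : ℕ) : ℤ) : ℂ) / l
    push_cast
    ring

/-- the automorphisms permute the neighbours of a rational integer -/
theorem gal_nbr {l : ℕ} (hl : l.Prime) (δ : ZZ →+* ZZ) {τ₀ : ℍ} {s : ℤ} (hs : jj τ₀ = s) {T : ZZ}
    {k : Option (Fin l)} (hT : ιZ T = jj (hh hl.pos k τ₀)) :
    ∃ k', ιZ (δ T) = jj (hh hl.pos k' τ₀) := by
  choose π hπ1 hπ2 using exists_pi hl δ
  set f : ℍ → ℂ := fun τ => ∏ k : Option (Fin l), (ιZ T + -1 * jj (hh hl.pos k τ)) with hf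
  have hfI : Inv f := by
    refine inv_of_rel fun γ hγ τ w hw => ?_
    obtain ⟨σ, hσ⟩ := perm hl hγ hw
    rw [hf]
    dsimp only
    rw [← Equiv.prod_comp σ (fun k => ιZ T + -1 * jj (hh hl.pos k τ))]
    refine Finset.prod_congr rfl fun k _ => ?_
    rw [show jj (hh hl.pos k w) = jj (hh hl.pos (σ k) τ) from (hσ k).1]
  have hm1 : LX ⊤ l (fun _ => (-1 : ℂ)) := by
    have := (LX.const (I := ⊤) (N := l) (z := (-1 : ZZ)) trivial)
    simpa using this
  have hfL : LX ⊤ l f := LX.prod Finset.univ (fun k τ => ιZ T + -1 * jj (hh hl.pos k τ))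
    fun k _ => (LX.const (I := ⊤) (N := l) (z := T) trivial).add
      (hm1.mul_left (LX.jj_hh hl.pos k))
  obtain ⟨P, -, hP⟩ := tbX ⊤ l hl.pos f hfI hfL
  have r1 : Rep (ιZ.comp δ) l (qq l τ₀) jj (jj τ₀) := by
    refine rep_gal (N := l) (m := l) hl.pos δ (u := 1) (u' := 1) (by simp) (g := id)
      (fun τ => ?_) ?_
    · rw [map_one, one_mul]
      unfold qq
      rw [← Complex.exp_nat_mul]
      congr 1
      have : (l : ℂ) ≠ 0 := by exact_mod_cast hl.ne_zero
      simp only [id]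
      push_cast
      field_simp
    · rw [map_one, map_one, one_mul]
      unfold qq
      rw [← Complex.exp_nat_mul]
      congr 1
      have : (l : ℂ) ≠ 0 := by exact_mod_cast hl.ne_zero
      push_cast
      field_simp
  have r2 : Rep (ιZ.comp δ) l (qq l τ₀) f (P.eval₂ (ιZ.comp δ) (jj τ₀)) := by
    have h1 := r1.poly P
    have e : (fun τ => P.eval₂ ιZ (jj τ)) = f := by
      funext τ
      exact (hP τ).symm
    rw [e] at h1
    exact h1
  have r3 : Rep (ιZ.comp δ) l (qq l τ₀) f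
      (∏ k : Option (Fin l), (ιZ (δ T) + -1 * jj (hh hl.pos (π k) τ₀))) := by
    have hn' : Rep (ιZ.comp δ) l (qq l τ₀) (fun _ => ((-1 : ℂ))) (-1 : ℂ) := by
      have := Rep.const (ψ := ιZ.comp δ) (N := l) (Q := qq l τ₀) (-1 : ZZ)
      simpa using this
    refine Rep.prod _ fun k _ => (Rep.const T).add (hn'.mul ?_)
    refine rep_gal (m := ka l k ^ 2) (pow_pos (ka_pos hl.pos k) 2) δ
      (eZ_mul (kb l k) (kd l k) (kd_pos hl.pos k)) (fun τ => ?_) ?_
    · have h1 := qq_h (ka_pos hl.pos k) (kd_pos hl.pos k) (hh_mul hl.pos k τ)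
      rw [ka_mul_kd] at h1
      exact h1
    · have h1 := qq_h (ka_pos hl.pos (π k)) (kd_pos hl.pos (π k)) (hh_mul hl.pos (π k) τ₀)
      rw [ka_mul_kd] at h1
      rw [h1, hπ2 k, hπ1 k]
  have hq0 : qq l τ₀ ≠ 0 := Complex.exp_ne_zero _
  have h1 := r2.unique hl.pos hq0 r3
  have h2 : P.eval₂ ιZ (jj τ₀) = 0 := by
    rw [← hP τ₀, hf]
    dsimp only
    refine Finset.prod_eq_zero (Finset.mem_univ k) ?_
    rw [hT]
    ring
  have h3 : ∀ φ : ZZ →+* ℂ, P.eval₂ φ (jj τ₀) = φ (P.eval ((s : ℤ) : ZZ)) := by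
    intro φ
    rw [hs, eval₂_eq_eval_map, ← map_intCast φ s, eval_map, eval₂_hom]
  have h4 : P.eval ((s : ℤ) : ZZ) = 0 := by
    rw [h3 ιZ] at h2
    apply Subtype.ext
    exact h2
  rw [h3 (ιZ.comp δ), h4, map_zero] at h1
  obtain ⟨k', -, hk'⟩ := Finset.prod_eq_zero_iff.1 h1.symm
  refine ⟨π k', ?_⟩
  linear_combination hk'

end Pool.Agent.H882
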