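import Pool.Agent.H882.CenKr

/-!
The congruence of Kronecker for the values of `j`.
-/

set_option autoImplicit false

namespace Pool.Agent.H882

open UpperHalfPlane H294ZP Function Pool.Agent.N135.ZO Polynomial
open Pool.Agent.Y226 (ZZ ιZ ιZ_apply)

variable {l : ℕ}

/-- the values of the product of Kronecker -/
noncomputable def kf (hl : 0 < l) (k : Option (Fin l)) (τ : ℍ) : ℂ :=
  (jj (hh hl k τ) - jj τ ^ l) * (jj (hh hl k τ) ^ l - jj τ)

theorem LX_kf (hl : l.Prime) (hl2 : l ≠ 2) {I : Ideal ZZ} (hI : I.IsPrime)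
    (hlI : ((l : ℕ) : ZZ) ∈ I) (k : Option (Fin l)) : LX I l (kf hl.pos k) := by
  have hsp : Ideal.span {((l : ℕ) : ZZ)} ≤ I := by
    rw [Ideal.span_singleton_le_iff_mem]
    exact hlI
  have hj := LX.jj (N := l) hl.pos
  have hf := LX.jj_hh hl.pos k
  cases k with
  | none =>
    have h1 := ((LX.jj_frob hl).mono hsp).mul_right ((hf.pow l).sub hj)
    exact h1
  | some b =>
    set b0 : Option (Fin l) := some ⟨0, hl.pos⟩ with hb0
    have hg := LX.jj_hh hl.pos b0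
    have h1 := LX_pow_sub hl hl2 hlI hf hg
    have h2 := (LX_jj_sub hl hI hlI b ⟨0, hl.pos⟩).mul_right ((hf.sub hg).pow (l - 1))
    have h3 := (LX_frob_zero hl).mono hsp
    have h4 := (h2.sub h1).sub h3
    have h5 := (hf.sub (hj.pow l)).mul_left h4
    have e : kf hl.pos (some b) = fun τ => (jj (hh hl.pos (some b) τ) - jj τ ^ l) *
        ((jj (hh hl.pos (some b) τ) - jj (hh hl.pos (some ⟨0, hl.pos⟩) τ)) *
          (jj (hh hl.pos (some b) τ) - jj (hh hl.pos b0 τ)) ^ (l - 1) -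
          ((jj (hh hl.pos (some b) τ) - jj (hh hl.pos b0 τ)) ^ l -
            (jj (hh hl.pos (some b) τ) ^ l - jj (hh hl.pos b0 τ) ^ l)) -
          (jj τ - jj (hh hl.pos (some ⟨0, hl.pos⟩) τ) ^ l)) := by
      funext τ
      unfold kf
      rw [← hb0]
      have e1 : (jj (hh hl.pos (some b) τ) - jj (hh hl.pos b0 τ)) ^ l =
          (jj (hh hl.pos (some b) τ) - jj (hh hl.pos b0 τ)) *
            (jj (hh hl.pos (some b) τ) - jj (hh hl.pos b0 τ)) ^ (l - 1) := by
        rw [← pow_succ', Nat.sub_add_cancel hl.pos]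
      rw [e1]
      ring
    rw [e]
    exact h5

/-- the polynomial with these roots -/
noncomputable def kp (hl : 0 < l) (τ : ℍ) : ℂ[X] := ∏ k, (X - C (kf hl k τ))

theorem kp_inv (hl : l.Prime) {γ : M2} (hγ : γ.det = 1) {τ w : ℍ} (hw : Rel γ τ w) :
    kp hl.pos w = kp hl.pos τ := by
  obtain ⟨σ, hσ⟩ := perm hl hγ hw
  unfold kp
  rw [← Equiv.prod_comp σ (fun k => (X - C (kf hl.pos k τ) : ℂ[X]))]
  refine Finset.prod_congr rfl fun k _ => ?_
  have h1 : kf hl.pos k w = kf hl.pos (σ k) τ := by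
    unfold kf
    rw [show jj (hh hl.pos k w) = jj (hh hl.pos (σ k) τ) from (hσ k).1, hw.jj hγ]
  rw [h1]

theorem kp_coeff (hl : l.Prime) (hl2 : l ≠ 2) {I : Ideal ZZ} (hI : I.IsPrime)
    (hlI : ((l : ℕ) : ZZ) ∈ I) (j : ℕ) : ∃ P : ZZ[X], (∀ i, P.coeff i ∈ I) ∧ ∀ τ,
    (kp hl.pos τ - X ^ (l + 1)).coeff j = P.eval₂ ιZ (jj τ) := by
  refine tbX I l hl.pos (fun τ => (kp hl.pos τ - X ^ (l + 1)).coeff j)
    (inv_of_rel fun γ hγ τ w hw => by rw [kp_inv hl hγ hw]) ?_
  have hsub : ∀ k : Option (Fin l), PL I l (fun τ => (X - C (kf hl.pos k τ) : ℂ[X]) - X) := by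
    intro k
    have h1 := PL.C ((LX_kf hl hl2 hI hlI k).neg)
    have e : (fun τ => (X - C (kf hl.pos k τ) : ℂ[X]) - X) = fun τ => C (-kf hl.pos k τ) := by
      funext τ
      rw [C_neg]
      ring
    rw [e]
    exact h1
  have h1 := PL.prod_sub Finset.univ (fun (k : Option (Fin l)) τ => (X - C (kf hl.pos k τ) : ℂ[X]))
    (fun _ _ => X) (fun k _ => (PL.X (N := l)).sub
      (PL.C ((LX_kf hl hl2 hI hlI k).mono le_top))) (fun _ _ => PL.X) fun k _ => hsub k
  have e : (fun τ => ∏ k : Option (Fin l), (X - C (kf hl.pos k τ) : ℂ[X]) -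
      ∏ _k : Option (Fin l), (X : ℂ[X])) = fun τ => kp hl.pos τ - X ^ (l + 1) := by
    funext τ
    rw [Finset.prod_const, Finset.card_univ, Fintype.card_option, Fintype.card_fin]
    rfl
  rw [e] at h1
  exact h1 j

variable {V : ValuationSubring ℂ}

/-- The congruence of Kronecker. -/
theorem kro (hl : l.Prime) (hl2 : l ≠ 2) (hlV : V.valuation (l : ℂ) < 1) {τ : ℍ} (hτ : jj τ ∈ V)
    (k : Option (Fin l)) : V.valuation (kf hl.pos k τ) < 1 := by
  set I : Ideal ZZ := Ideal.comap (ρV V) (IsLocalRing.maximalIdeal V) with hI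
  have hprime : I.IsPrime := Ideal.IsPrime.comap (ρV V)
  have hval : ∀ z : ZZ, z ∈ I ↔ V.valuation (ιZ z) < 1 := by
    intro z
    rw [hI, Ideal.mem_comap, ← ρV_coe V z]
    exact V.valuation_lt_one_iff (ρV V z)
  have hlI : ((l : ℕ) : ZZ) ∈ I := by
    rw [hval, map_natCast]
    exact hlV
  have hlZ : (0 : ℤ) < l := by exact_mod_cast hl.pos
  have hy : jj (hh hl.pos k τ) ∈ V := rel_mem (M := gk l k) (by rw [det_gk]; exact hlZ)
    (rel_hh hl.pos k τ) hτ
  set z := kf hl.pos k τ with hz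
  have hzV : z ∈ V := V.mul_mem _ _ (sub_mem hy (V.pow_mem hτ l)) (sub_mem (V.pow_mem hy l) hτ)
  have hcoef : ∀ j, V.valuation ((kp hl.pos τ - X ^ (l + 1)).coeff j) < 1 := by
    intro j
    obtain ⟨Q, hQ1, hQ2⟩ := kp_coeff hl hl2 hprime hlI j
    rw [hQ2 τ, eval₂_eq_sum_range]
    refine Valuation.map_sum_lt _ one_ne_zero fun i _ => ?_
    exact lt_mul_mem ((hval _).1 (hQ1 i)) (V.pow_mem hτ i)
  have h0 : (kp hl.pos τ).eval z = 0 := by
    unfold kp
    rw [eval_prod]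
    exact Finset.prod_eq_zero (Finset.mem_univ k) (by simp [hz])
  have h1 : z ^ (l + 1) = -(kp hl.pos τ - X ^ (l + 1)).eval z := by
    rw [eval_sub, h0, eval_pow, eval_X]
    ring
  have h2 : V.valuation ((kp hl.pos τ - X ^ (l + 1)).eval z) < 1 := by
    rw [eval_eq_sum_range]
    refine Valuation.map_sum_lt _ one_ne_zero fun i _ => ?_
    exact lt_mul_mem (hcoef i) (V.pow_mem hzV i)
  by_contra hcon
  have h3 : V.valuation z = 1 := le_antisymm (val_le hzV) (not_lt.1 hcon)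
  have h4 := congrArg V.valuation h1
  rw [map_pow, h3, one_pow, Valuation.map_neg] at h4
  rw [← h4] at h2
  exact lt_irrefl _ h2

theorem kro_rel (hl : l.Prime) (hl2 : l ≠ 2) (hlV : V.valuation (l : ℂ) < 1) {τ w : ℍ}
    (hτ : jj τ ∈ V) {E : M2} (hE : E.det = l) (h : Rel E τ w) :
    V.valuation ((jj w - jj τ ^ l) * (jj w ^ l - jj τ)) < 1 := by
  have hlZ : (0 : ℤ) < l := by exact_mod_cast hl.pos
  obtain ⟨k, C, -, -, hCdet, hCrel, -⟩ := exists_fac (M := E) (by rw [hE]; exact hlZ) hl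
    (by rw [hE]) h
  have hC1 : C.det = 1 := by
    rw [hE] at hCdet
    have : (1 : ℤ) * l = C.det * l := by rw [one_mul]; exact hCdet
    exact (mul_right_cancel₀ hlZ.ne' this).symm
  have h1 := hCrel.jj hC1
  rw [h1]
  exact kro hl hl2 hlV hτ k

end Pool.Agent.H882
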