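import Pool.Agent.H882.FxGal

/-!
The action of a matrix on the lines modulo `l`, and its discriminant.
-/

set_option autoImplicit false

namespace Pool.Agent.H882

open UpperHalfPlane H294ZP Function Pool.Agent.N135.ZO

/-- the line `k` is fixed by `M` -/
def Fixd (l : ℕ) (M : M2) (k : Option (Fin l)) : Prop := ∃ M' : M2, gk l k * M = M' * gk l k

/-- the number `a` is a square modulo `l` -/
def SqMod (l : ℕ) (a : ℤ) : Prop := ∃ r : ℤ, (l : ℤ) ∣ a - r ^ 2

/-- the number `a` is a square modulo `l`, and not divisible by `l` -/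
def SqModU (l : ℕ) (a : ℤ) : Prop := ∃ r : ℤ, ¬ (l : ℤ) ∣ r ∧ (l : ℤ) ∣ a - r ^ 2

theorem gk_none (l : ℕ) : gk l none = !![(l : ℤ), 0; 0, 1] := by
  simp [gk, ka, kb, kd]

theorem gk_some (l : ℕ) (b : Fin l) : gk l (some b) = !![1, ((b : ℕ) : ℤ); 0, (l : ℤ)] := by
  simp [gk, ka, kb, kd]

theorem fixd_some {l : ℕ} (hl : 0 < l) {M : M2} {b : Fin l} : Fixd l M (some b) ↔
    (l : ℤ) ∣ M 1 0 * (b : ℕ) ^ 2 + (M 0 0 - M 1 1) * (b : ℕ) - M 0 1 := by
  have hl0 : (l : ℤ) ≠ 0 := by exact_mod_cast hl.ne'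
  unfold Fixd
  rw [gk_some]
  constructor
  · rintro ⟨M', h⟩
    have h00 := congrFun (congrFun h 0) 0
    have h01 := congrFun (congrFun h 0) 1
    rw [mul_entries, mul_entries] at h00 h01
    simp only [Matrix.of_apply, Matrix.cons_val', Matrix.cons_val_zero, Matrix.cons_val_one,
      Matrix.cons_val_fin_one] at h00 h01
    refine ⟨-M' 0 1, ?_⟩
    have h0 : M' 0 0 = M 0 0 + (b : ℕ) * M 1 0 := by linarith
    rw [h0] at h01
    linear_combination -h01
  · rintro ⟨e, he⟩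
    refine ⟨!![M 0 0 + (b : ℕ) * M 1 0, -e; (l : ℤ) * M 1 0, M 1 1 - (b : ℕ) * M 1 0], ?_⟩
    ext i j
    rw [mul_entries, mul_entries]
    fin_cases i <;> fin_cases j <;>
      simp only [Matrix.of_apply, Matrix.cons_val', Matrix.cons_val_zero, Matrix.cons_val_one,
        Matrix.cons_val_fin_one, Fin.zero_eta, Fin.mk_one, Fin.isValue] <;>
      first
        | ring1
        | linear_combination -he

theorem fixd_none {l : ℕ} {M : M2} : Fixd l M none ↔ (l : ℤ) ∣ M 1 0 := by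
  unfold Fixd
  rw [gk_none]
  constructor
  · rintro ⟨M', h⟩
    have h10 := congrFun (congrFun h 1) 0
    rw [mul_entries, mul_entries] at h10
    simp only [Matrix.of_apply, Matrix.cons_val', Matrix.cons_val_zero, Matrix.cons_val_one,
      Matrix.cons_val_fin_one] at h10
    exact ⟨M' 1 0, by linarith⟩
  · rintro ⟨e, he⟩
    refine ⟨!![M 0 0, (l : ℤ) * M 0 1; e, M 1 1], ?_⟩
    ext i j
    rw [mul_entries, mul_entries]
    fin_cases i <;> fin_cases j <;>
      simp only [Matrix.of_apply, Matrix.cons_val', Matrix.cons_val_zero, Matrix.cons_val_one,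
        Matrix.cons_val_fin_one, Fin.zero_eta, Fin.mk_one, Fin.isValue] <;>
      first
        | ring1
        | linear_combination he

theorem disc_eq (M : M2) : M.trace ^ 2 - 4 * M.det = (M 0 0 - M 1 1) ^ 2 + 4 * M 0 1 * M 1 0 := by
  rw [det_eq, Matrix.trace_fin_two]
  ring

/-- a matrix whose discriminant is a square has a fixed line -/
theorem exists_fixd {l : ℕ} (hl : l.Prime) (hl2 : l ≠ 2) {M : M2}
    (h : SqMod l (M.trace ^ 2 - 4 * M.det)) : ∃ k, Fixd l M k := by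
  have : Fact l.Prime := ⟨hl⟩
  obtain ⟨r, hr⟩ := h
  by_cases hC : (l : ℤ) ∣ M 1 0
  · exact ⟨none, fixd_none.2 hC⟩
  have hC' : ((M 1 0 : ℤ) : ZMod l) ≠ 0 := by
    rwa [Ne, ZMod.intCast_zmod_eq_zero_iff_dvd]
  have h2 : (2 : ZMod l) ≠ 0 := by
    intro h
    have h1 : ((2 : ℕ) : ZMod l) = 0 := by exact_mod_cast h
    rw [ZMod.natCast_eq_zero_iff] at h1
    exact hl2 ((Nat.prime_dvd_prime_iff_eq hl Nat.prime_two).1 h1)
  set b₀ : ZMod l := ((r : ZMod l) - ((M 0 0 : ZMod l) - (M 1 1 : ZMod l))) / (2 * (M 1 0 : ZMod l))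
    with hb₀
  have hb1 : 2 * (M 1 0 : ZMod l) * b₀ = (r : ZMod l) - ((M 0 0 : ZMod l) - (M 1 1 : ZMod l)) := by
    rw [hb₀]
    field_simp
  have : NeZero l := ⟨hl.ne_zero⟩
  refine ⟨some ⟨b₀.val, ZMod.val_lt b₀⟩, (fixd_some hl.pos).2 ?_⟩
  rw [← ZMod.intCast_zmod_eq_zero_iff_dvd]
  push_cast
  rw [ZMod.natCast_zmod_val]
  rw [disc_eq, ← ZMod.intCast_zmod_eq_zero_iff_dvd] at hr
  push_cast at hr
  have h4 : (4 : ZMod l) * (M 1 0 : ZMod l) ≠ 0 := by
    have : (4 : ZMod l) = 2 * 2 := by norm_num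
    rw [this]
    exact mul_ne_zero (mul_ne_zero h2 h2) hC'
  refine (mul_eq_zero.1 ?_).resolve_left h4
  linear_combination (2 * (M 1 0 : ZMod l) * b₀ + (r : ZMod l) + ((M 0 0 : ZMod l) -
    (M 1 1 : ZMod l))) * hb1 - hr

/-- a matrix with two fixed lines which does not fix all lines -/
theorem disc_of_fixd {l : ℕ} (hl : l.Prime) {M : M2} {k₁ k₂ k₃ : Option (Fin l)}
    (h12 : k₁ ≠ k₂) (h1 : Fixd l M k₁) (h2 : Fixd l M k₂) (h3 : ¬ Fixd l M k₃) :
    SqModU l (M.trace ^ 2 - 4 * M.det) := by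
  have : Fact l.Prime := ⟨hl⟩
  -- the scalar case
  have hsc : ¬ ((M 1 0 : ZMod l) = 0 ∧ (M 0 0 : ZMod l) - (M 1 1 : ZMod l) = 0 ∧
      (M 0 1 : ZMod l) = 0) := by
    rintro ⟨e1, e2, e3⟩
    apply h3
    cases k₃ with
    | none => rw [fixd_none, ← ZMod.intCast_zmod_eq_zero_iff_dvd]; exact e1
    | some b =>
      rw [fixd_some hl.pos, ← ZMod.intCast_zmod_eq_zero_iff_dvd]
      push_cast
      rw [e1, e2, e3]
      ring
  have hcast : ∀ b b' : Fin l, b ≠ b' → (((b : ℕ) : ZMod l)) - ((b' : ℕ) : ZMod l) ≠ 0 := by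
    intro b b' hbb h
    apply hbb
    have h4 := sub_eq_zero.1 h
    rw [ZMod.natCast_eq_natCast_iff] at h4
    exact Fin.ext (Nat.ModEq.eq_of_lt_of_lt h4 b.2 b'.2)
  have key : ∀ b b' : Fin l, b ≠ b' → Fixd l M (some b) → Fixd l M (some b') →
      SqModU l (M.trace ^ 2 - 4 * M.det) := by
    intro b b' hbb hb hb'
    rw [fixd_some hl.pos, ← ZMod.intCast_zmod_eq_zero_iff_dvd] at hb hb'
    push_cast at hb hb'
    have h5 : (M 1 0 : ZMod l) * ((b : ℕ) + (b' : ℕ) : ZMod l) + ((M 0 0 : ZMod l) -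
        (M 1 1 : ZMod l)) = 0 := by
      refine (mul_eq_zero.1 ?_).resolve_left (hcast b b' hbb)
      linear_combination hb - hb'
    refine ⟨M 1 0 * ((b : ℕ) - (b' : ℕ)), ?_, ?_⟩
    · rw [← ZMod.intCast_zmod_eq_zero_iff_dvd]
      push_cast
      intro h6
      have hC := (mul_eq_zero.1 h6).resolve_right (hcast b b' hbb)
      apply hsc
      refine ⟨hC, ?_, ?_⟩
      · rw [hC, zero_mul, zero_add] at h5
        exact h5
      · rw [hC, zero_mul, zero_add] at h5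
        rw [hC, h5] at hb
        linear_combination -hb
    · rw [disc_eq, ← ZMod.intCast_zmod_eq_zero_iff_dvd]
      push_cast
      linear_combination ((M 0 0 : ZMod l) - (M 1 1 : ZMod l) - (M 1 0 : ZMod l) * ((b : ℕ) +
        (b' : ℕ) : ZMod l) + 4 * (M 1 0 : ZMod l) * (b : ℕ)) * h5 - 4 * (M 1 0 : ZMod l) * hb
  have key2 : ∀ b : Fin l, Fixd l M none → Fixd l M (some b) →
      SqModU l (M.trace ^ 2 - 4 * M.det) := by
    intro b hn hb
    rw [fixd_none, ← ZMod.intCast_zmod_eq_zero_iff_dvd] at hn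
    rw [fixd_some hl.pos, ← ZMod.intCast_zmod_eq_zero_iff_dvd] at hb
    push_cast at hb
    refine ⟨M 0 0 - M 1 1, ?_, ?_⟩
    · rw [← ZMod.intCast_zmod_eq_zero_iff_dvd]
      push_cast
      intro h6
      apply hsc
      refine ⟨hn, h6, ?_⟩
      rw [hn, h6] at hb
      linear_combination -hb
    · rw [disc_eq, ← ZMod.intCast_zmod_eq_zero_iff_dvd]
      push_cast
      rw [hn]
      ring
  cases k₁ with
  | none =>
    cases k₂ with
    | none => exact absurd rfl h12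
    | some b => exact key2 b h1 h2
  | some b =>
    cases k₂ with
    | none => exact key2 b h2 h1
    | some b' => exact key b b' (fun h => h12 (congrArg some h)) h1 h2

/-- the discriminants of two fields -/
theorem sq_contra {l : ℕ} (hl : l.Prime) {a b Z : ℤ} (hZ : Z ^ 2 = a * b) (ha : ¬ SqMod l a)
    (hb : SqModU l b) : False := by
  have : Fact l.Prime := ⟨hl⟩
  obtain ⟨r, hr1, hr2⟩ := hb
  have hr1' : ((r : ℤ) : ZMod l) ≠ 0 := by
    rwa [Ne, ZMod.intCast_zmod_eq_zero_iff_dvd]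
  rw [← ZMod.intCast_zmod_eq_zero_iff_dvd] at hr2
  push_cast at hr2
  apply ha
  have : NeZero l := ⟨hl.ne_zero⟩
  refine ⟨(((Z : ZMod l) / (r : ZMod l)).val : ℤ), ?_⟩
  rw [← ZMod.intCast_zmod_eq_zero_iff_dvd]
  push_cast
  rw [ZMod.natCast_zmod_val]
  have h1 : ((Z : ℤ) : ZMod l) ^ 2 = (a : ZMod l) * (b : ZMod l) := by
    exact_mod_cast congrArg (fun z : ℤ => (z : ZMod l)) hZ
  have h2 : (b : ZMod l) = (r : ZMod l) ^ 2 := by linear_combination hr2
  rw [div_pow, h1, h2]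
  field_simp
  ring

end Pool.Agent.H882
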