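import Pool.Agent.H882.FyNbr
import Pool.Agent.H882.FmLoc

/-!
The local theorem with the canonical lifts, for algebraic centres.
-/

set_option autoImplicit false

namespace Pool.Agent.H882

open UpperHalfPlane H294ZP Function Pool.Agent.N135.ZO NumberField IsDedekindDomain
open Pool.Agent.Y226

/-- isogenous singular moduli with endomorphisms of degrees `p`, `q` -/
theorem sq_isog2 {p q : ℕ} (hp : p.Prime) {a a' : ℤ} {z z' : ℂ} (hz : z ∈ SM p a)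
    (hz' : z' ∈ SM q a') (h : Isog z z') :
    ∃ Z : ℤ, Z ^ 2 = (a ^ 2 - 4 * p) * (a' ^ 2 - 4 * q) := by
  obtain ⟨g, τ, w, hg, hrel, hτ, hw⟩ := h
  obtain ⟨M, hM, htr, hMrel⟩ := SM_at hz hτ
  obtain ⟨M', hM', htr', hMrel'⟩ := SM_at hz' hw
  set T : M2 := g.adjugate * (M' * g) with hT
  have hTrel : Rel T τ τ := (hrel.mul hMrel').mul (rel_adj hrel)
  have hTdet : T.det = g.det ^ 2 * q := by
    rw [hT, det_mul', det_mul', det_adj, hM']
    ring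
  have hTtr : T.trace = g.det * a' := by
    rw [hT, Matrix.trace_mul_comm, mul_assoc, Matrix.mul_adjugate, Matrix.mul_smul, mul_one,
      Matrix.trace_smul, htr', smul_eq_mul]
  have hA0 := rel_ne hp hM hMrel
  have h1 := rel_quad hMrel
  have h2 := rel_quad hTrel
  obtain ⟨e1, e2⟩ := quad_prop h1 h2
  have d1 : (M 1 1 - M 0 0) ^ 2 - 4 * M 1 0 * (-M 0 1) = a ^ 2 - 4 * p := by
    rw [det_eq] at hM
    rw [Matrix.trace_fin_two] at htr
    rw [← htr]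
    linear_combination (-4) * hM
  have d2 : (T 1 1 - T 0 0) ^ 2 - 4 * T 1 0 * (-T 0 1) = g.det ^ 2 * (a' ^ 2 - 4 * q) := by
    rw [det_eq] at hTdet
    rw [Matrix.trace_fin_two] at hTtr
    have : g.det ^ 2 * (a' ^ 2 - 4 * q) = (g.det * a') ^ 2 - 4 * (g.det ^ 2 * q) := by ring
    rw [this, ← hTtr, ← hTdet]
    ring
  set A := M 1 0 with hA
  set D := g.det with hD
  have key : A ^ 2 * (D ^ 2 * (a' ^ 2 - 4 * q)) = T 1 0 ^ 2 * (a ^ 2 - 4 * p) := by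
    rw [← d1, ← d2]
    linear_combination (-(A * (T 1 1 - T 0 0) + T 1 0 * (M 1 1 - M 0 0))) * e1 +
      (4 * A * T 1 0) * e2
  have hAD : A * D ≠ 0 := mul_ne_zero hA0 hg.ne'
  have key2 : (a ^ 2 - 4 * p) * (a' ^ 2 - 4 * q) * (A * D) ^ 2 = (T 1 0 * (a ^ 2 - 4 * p)) ^ 2 := by
    linear_combination (a ^ 2 - 4 * (p : ℤ)) * key
  have hdvd : (A * D) ^ 2 ∣ (T 1 0 * (a ^ 2 - 4 * p)) ^ 2 := Dvd.intro_left _ key2
  rw [Int.pow_dvd_pow_iff two_ne_zero] at hdvd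
  obtain ⟨Z, hZ⟩ := hdvd
  refine ⟨Z, ?_⟩
  rw [hZ] at key2
  have h3 : (A * D) ^ 2 * ((a ^ 2 - 4 * p) * (a' ^ 2 - 4 * q)) = (A * D) ^ 2 * Z ^ 2 := by
    linear_combination key2
  exact (mul_left_cancel₀ (pow_ne_zero 2 hAD) h3).symm

/-- The local statement for the centre `s`: open residue discs. -/
def CoreO (n : ℕ) {C : Type} [NormedField C] (φ₀ : QA →+* C) (s : Fin n → QA)
    (Γ : Fin n → Set ℂ) : Prop :=
  ∀ Φ : ℂ →+* C, (∀ a : QA, Φ (a : ℂ) = φ₀ a) → ∀ (r : ℕ) (Z : SpecialDatum n r)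
    (x : Fin n → ℂ), x ∈ Z.locus → ∀ (J W : Finset (Fin n)),
    (∀ i ∈ J, ‖Φ (x i) - φ₀ (s i)‖ < 1) → (∀ i ∈ J, x i ∉ Γ i) → (∀ i ∈ W, 1 < ‖Φ (x i)‖) →
    AlgebraicIndependent ℚ (fun i : W => x i) → J.card + W.card ≤ r

/-- the canonical lifts near to the centre -/
theorem exists_lifts {n p : ℕ} (hp : p.Prime) (hp3 : 3 < p) {C : Type} [NormedField C]
    [IsUltrametricDist C] [CompleteSpace C] [CharZero C] [IsAlgClosed C] (hp1 : ‖(p : C)‖ < 1)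
    (Ψ : ℂ →+* C) (s : Fin n → QA)
    (hs : ∀ i, ‖Ψ (s i : ℂ)‖ ≤ 1 ∧ ‖Ψ (s i : ℂ) ^ p - Ψ (s i : ℂ)‖ < 1) :
    ∃ (t : Fin n → ℍ) (M : Fin n → M2), (∀ i, (M i).det = p) ∧ (∀ i, Rel (M i) (t i) (t i)) ∧
      ∀ i, ‖Ψ (jj (t i)) - Ψ (s i : ℂ)‖ < 1 := by
  have h : ∀ i, ∃ (t : ℍ) (M : M2), M.det = p ∧ Rel M t t ∧ ‖Ψ (jj t) - Ψ (s i : ℂ)‖ < 1 := by
    intro i
    obtain ⟨a, ha⟩ := near_int hp hp1 (hs i).1 (hs i).2
    obtain ⟨t, M, h1, h2, h3⟩ := exists_root hp (by omega) hp1 Ψ a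
    refine ⟨t, M, h1, h2, ?_⟩
    have e : Ψ (jj t) - Ψ (s i : ℂ) = (Ψ (jj t) - (a : C)) + -(Ψ (s i : ℂ) - (a : C)) := by ring
    rw [e]
    refine nadd_lt h3 ?_
    rw [norm_neg]
    exact ha
  choose t M h1 h2 h3 using h
  exact ⟨t, M, h1, h2, h3⟩

theorem fy_core {n p : ℕ} (hp : p.Prime) (hp3 : 3 < p) {C : Type} [NormedField C]
    [IsUltrametricDist C] [CompleteSpace C] [CharZero C] [IsAlgClosed C] (φ₀ : QA →+* C)
    (hp1 : ‖(p : C)‖ < 1) (s : Fin n → QA) (hs0 : ∀ i, ‖φ₀ (s i)‖ = 1)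
    (hs1 : ∀ i, ‖φ₀ (s i - 1728)‖ = 1) (t : Fin n → ℍ) (M : Fin n → M2)
    (hM : ∀ i, (M i).det = p) (hrel : ∀ i, Rel (M i) (t i) (t i))
    (htr : ∀ i, (M i).trace ≠ 0) (Ψ : ℂ →+* C) (hΨ : ∀ a : QA, Ψ (a : ℂ) = φ₀ a)
    (hnear : ∀ i, ‖Ψ (jj (t i)) - Ψ (s i : ℂ)‖ < 1)
    (hiso : ∀ i k, i ≠ k → ¬ Isog (jj (t i)) (jj (t k))) :
    CoreO n φ₀ s fun i => {z | Isog (jj (t i)) z ∧ ∃ τ : ℍ, IsCM τ ∧ jj τ = z} := by
  classical
  have hp2 : p ≠ 2 := by omega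
  obtain ⟨P⟩ := exists_pkg hp hp2
  intro Φ hΦ r Z x hxZ J W hJ hJΓ hxW hW
  have hcm : ∀ i, IsCM (t i) := fun i => isCM_of_fix hp (hM _) (hrel _)
  have hΦQ : ∀ z : ℂ, z ∈ QA → Φ z = Ψ z := fun z hz => (hΦ ⟨z, hz⟩).trans (hΨ ⟨z, hz⟩).symm
  have hΦj : ∀ i, Φ (jj (t i)) = Ψ (jj (t i)) := fun i => hΦQ _ (cm_mem_QA (hcm i))
  have hpV : (VF Φ).valuation (p : ℂ) < 1 := by
    rw [VF_lt_one, map_natCast]
    exact hp1
  have hunit : ∀ {a b : C}, ‖a‖ = 1 → ‖b - a‖ < 1 → ‖b‖ = 1 := by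
    intro a b ha hab
    have e : b = a + (b - a) := by ring
    rw [e, IsUltrametricDist.norm_add_eq_max_of_norm_ne_norm, ha, max_eq_left hab.le]
    rw [ha]
    exact hab.ne'
  have hG0 : ∀ i, G0 P (VF Φ) (jj (t i)) := by
    intro i
    have h1 : ‖Φ (jj (t i)) - φ₀ (s i)‖ < 1 := by
      rw [hΦj, ← hΨ]
      exact hnear i
    refine G0_of hp hp1 P Φ (ordAt_of_trace hp hp3 (hM _) (hrel _) (htr i)) ?_ ?_
    · exact hunit (hs0 i) h1
    · refine hunit (hs1 i) ?_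
      have e : Φ (jj (t i) - 1728) - φ₀ (s i - 1728) = Φ (jj (t i)) - φ₀ (s i) := by
        rw [map_sub, map_sub]
        have e1 : Φ 1728 = 1728 := map_ofNat Φ 1728
        have e2 : φ₀ 1728 = 1728 := map_ofNat φ₀ 1728
        rw [e1, e2]
        ring
      rw [e]
      exact h1
  have hxO : ∀ i ∈ J, (VF Φ).valuation (x i - jj (t i)) < 1 := by
    intro i hi
    rw [VF_lt_one, map_sub, hΦj]
    have e : Φ (x i) - Ψ (jj (t i)) =
        (Φ (x i) - φ₀ (s i)) + -(Ψ (jj (t i)) - Ψ (s i : ℂ)) := by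
      rw [hΨ]
      ring
    rw [e]
    refine nadd_lt (hJ i hi) ?_
    rw [norm_neg]
    exact hnear i
  have hxOV : ∀ i ∈ J, x i ∈ VF Φ := fun i hi => ((hG0 i).congr (hxO i hi)).mem
  have hdisj : Disjoint J W := by
    rw [Finset.disjoint_left]
    intro i hi hiW
    have h1 : ‖Φ (x i)‖ ≤ 1 := hxOV i hi
    exact absurd (hxW i hiW) (not_lt.2 h1)
  rw [← Finset.card_union_of_disjoint hdisj]
  have hdetpos : ∀ i j, 0 < (Z.mat j * (Z.mat i).adjugate).det := by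
    intro i j
    rw [det_mul', det_adj]
    have h1 := Z.det_pos i
    have h2 := Z.det_pos j
    positivity
  have hint : ∀ {A : M2} {w w' : ℍ}, 0 < A.det → Rel A w w' → jj w ∈ VF Φ →
      ¬ 1 < ‖Φ (jj w')‖ := by
    intro A w w' hA hrel hmem
    exact not_lt.2 (rel_mem hA hrel hmem)
  refine crit_card' Z hxZ (J ∪ W) ?_ ?_
  · intro i hi τ hτ hxi
    have hcmint : ‖Φ (jj τ)‖ ≤ 1 := norm_le_one_of_isIntegral Φ (singular_modulus_integral τ hτ)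
    rcases Finset.mem_union.1 hi with hi' | hi'
    · apply hJΓ i hi'
      have h1 := cm_isog hp hp2 hpV P (hcm i) hτ (hG0 i) (by rw [← hxi]; exact hxO i hi')
      rw [← hxi] at h1
      exact ⟨h1, τ, hτ, hxi.symm⟩
    · have h1 := hxW i hi'
      rw [hxi] at h1
      exact absurd h1 (not_lt.2 hcmint)
  · intro i hi k hk hik w w' hrel' hxi hxk
    have hdet := hdetpos i k
    have hdet' : 0 < (Z.mat k * (Z.mat i).adjugate).adjugate.det := by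
      rw [det_adj]; exact hdet
    rcases Finset.mem_union.1 hi with hi' | hi'
    · rcases Finset.mem_union.1 hk with hk' | hk'
      · exact hiso i k hik (near_isog hp hp2 hpV P (hcm i) (hcm k) (hG0 i) (hG0 k) hdet hrel'
          (by rw [← hxi]; exact hxO i hi') (by rw [← hxk]; exact hxO k hk'))
      · refine hint hdet hrel' ?_ ?_
        · rw [← hxi]
          exact hxOV i hi'
        · rw [← hxk]
          exact hxW k hk'
    · rcases Finset.mem_union.1 hk with hk' | hk'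
      · refine hint hdet' (rel_adj hrel') ?_ ?_
        · rw [← hxk]
          exact hxOV k hk'
        · rw [← hxi]
          exact hxW i hi'
      · refine not_indep_of_integral hW hi' hk' hik ?_
        rw [hxi, hxk]
        refine isogenous_integral w w' _ _ _ _ ?_ hrel'
        rw [← det_eq]
        exact hdet

theorem open_local {n p : ℕ} (hp : p.Prime) {Γ : Fin n → Set ℂ} {s : Fin n → QA}
    {C : Type} [NormedField C] [IsUltrametricDist C] (φ₀ : QA →+* C)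
    (hpC : ‖(p : C)‖ = (p : ℝ)⁻¹) (hmain : CoreO n φ₀ s Γ)
    {F : Subfield ℂ} {m : ℕ} (x : Fin n → ℂ) (hxΓ : ∀ i, x i ∉ Γ i)
    (hemb : ∀ {ι : Type} [Finite ι] (u : ι → ℂ), AlgebraicIndependent F u → ∀ (a : ι → QA),
      ∃ Φ : ℂ →+* C, (∀ a : QA, Φ (a : ℂ) = φ₀ a) ∧ (∀ i, ‖Φ (u i) - φ₀ (a i)‖ < 1) ∧
        ∃ Bad : Finset (Fin n), Bad.card ≤ m ∧ ∀ i, i ∉ Bad → ‖Φ (x i) - φ₀ (s i)‖ < 1)
    {r : ℕ} (Z : SpecialDatum n r) (hxZ : x ∈ Z.locus) (W : Finset (Fin n))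
    (hind : AlgebraicIndependent F (fun i : W => x i)) : n + W.card ≤ m + r := by
  classical
  have hpR : (1 : ℝ) < p := by exact_mod_cast hp.one_lt
  obtain ⟨Φ, h1, h3, Bad, hBad, hgood⟩ := hemb _ hind (fun _ => (p : QA)⁻¹)
  have hq : ‖φ₀ ((p : QA)⁻¹)‖ = p := by
    rw [map_inv₀, map_natCast, norm_inv, hpC, inv_inv]
  have hW : ∀ i ∈ W, 1 < ‖Φ (x i)‖ := by
    intro i hi
    have h4 : ‖Φ (x i) - φ₀ ((p : QA)⁻¹)‖ < 1 := h3 ⟨i, hi⟩
    have e : Φ (x i) = φ₀ ((p : QA)⁻¹) + (Φ (x i) - φ₀ ((p : QA)⁻¹)) := by ring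
    have h5 : ‖Φ (x i)‖ = p := by
      rw [e, IsUltrametricDist.norm_add_eq_max_of_norm_ne_norm]
      · rw [hq]
        exact max_eq_left (h4.trans hpR).le
      · rw [hq]
        exact (h4.trans hpR).ne'
    rw [h5]
    exact hpR
  have h6 := hmain Φ h1 r Z x hxZ (Finset.univ.filter fun i : Fin n => i ∉ Bad) W
    (fun i hi => hgood i (Finset.mem_filter.1 hi).2) (fun i _ => hxΓ i) hW
    (hind.restrictScalars (algebraMap ℚ F).injective)
  have h7 : (Finset.univ.filter fun i : Fin n => i ∉ Bad) = Badᶜ := by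
    ext i
    simp
  rw [h7, Finset.card_compl, Fintype.card_fin] at h6
  omega

end Pool.Agent.H882
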