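import Pool.Agent.H882.AdOne

/-!
The sum of the reciprocals diverges.
-/

set_option autoImplicit false

namespace Pool.Agent.H882

theorem one_sub_le_prod (S : Finset ℕ) (h : ∀ p ∈ S, 1 ≤ p) :
    1 - ∑ p ∈ S, (p : ℝ)⁻¹ ≤ ∏ p ∈ S, (1 - (p : ℝ)⁻¹) := by
  classical
  induction S using Finset.induction_on with
  | empty => simp
  | insert a S ha ih =>
    rw [Finset.sum_insert ha, Finset.prod_insert ha]
    have h1 := ih fun p hp => h p (Finset.mem_insert_of_mem hp)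
    have h2 : (1 : ℝ) ≤ a := by exact_mod_cast h a (Finset.mem_insert_self _ _)
    have h3 : (a : ℝ)⁻¹ ≤ 1 := inv_le_one_of_one_le₀ h2
    have h4 : 0 ≤ (a : ℝ)⁻¹ := by positivity
    have h5 : (0 : ℝ) ≤ ∑ p ∈ S, (p : ℝ)⁻¹ := Finset.sum_nonneg fun p _ => by positivity
    calc 1 - ((a : ℝ)⁻¹ + ∑ p ∈ S, (p : ℝ)⁻¹)
        ≤ (1 - (a : ℝ)⁻¹) * (1 - ∑ p ∈ S, (p : ℝ)⁻¹) := by nlinarith
      _ ≤ _ := mul_le_mul_of_nonneg_left h1 (by linarith)

theorem Dvg.not_summable {P : Set ℕ} (h : Dvg P) :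
    ¬ Summable (P.indicator fun p : ℕ => (1 : ℝ) / p) := by
  classical
  intro hs
  have hnn : ∀ n : ℕ, 0 ≤ P.indicator (fun p : ℕ => (1 : ℝ) / p) n := fun n =>
    Set.indicator_nonneg (fun _ _ => by positivity) n
  obtain ⟨T, hT⟩ := (summable_iff_vanishing_norm.1 hs) (1 / 2) (by norm_num)
  obtain ⟨S, hS1, hS2⟩ := h (T.sup id) (1 / 4) (by norm_num)
  have hdis : Disjoint S T := by
    rw [Finset.disjoint_left]
    intro p hp hpT
    have h1 : p ≤ T.sup id := Finset.le_sup (f := id) hpT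
    exact absurd (hS1 p hp).2 (not_lt.2 h1)
  have h1 := hT S hdis
  have h2 : ∑ p ∈ S, P.indicator (fun p : ℕ => (1 : ℝ) / p) p = ∑ p ∈ S, (p : ℝ)⁻¹ := by
    refine Finset.sum_congr rfl fun p hp => ?_
    rw [Set.indicator_of_mem (hS1 p hp).1, one_div]
  rw [h2] at h1
  have h3 := one_sub_le_prod S fun p hp => lt_of_le_of_lt (Nat.zero_le _) (hS1 p hp).2
  have h4 := le_abs_self (∑ p ∈ S, (p : ℝ)⁻¹)
  rw [Real.norm_eq_abs] at h1
  linarith

end Pool.Agent.H882
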