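import Pool.Agent.H882.PmPoly
import Pool.Graph.R_seed8.TH888.B1.Roots
import Pool.Graph.R_seed8.H921R2.TatePole.Radical

/-!
Primes modulo which a monic polynomial splits into distinct linear factors: the sum of the
reciprocals diverges (Chebotarev). Embeddings of number fields at these primes.
-/

set_option autoImplicit false

namespace Pool.Agent.H882

open Polynomial NumberField

theorem dvg_of {P : Set ℕ} (hP : ∀ p ∈ P, p.Prime)
    (h : ¬ Summable (fun n : ℕ => P.indicator (fun n : ℕ => (1 : ℝ) / n) n)) : Dvg P := by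
  classical
  intro B ε hε
  have h1 := TH888.B1.diverges_diff (Set.finite_Iic B) h
  have hnn : ∀ n : ℕ, 0 ≤ (P \ Set.Iic B).indicator (fun n : ℕ => (1 : ℝ) / n) n := by
    intro n
    refine Set.indicator_nonneg (fun _ _ => ?_) n
    positivity
  rw [not_summable_iff_tendsto_nat_atTop_of_nonneg hnn] at h1
  obtain ⟨N, hN⟩ := (h1.eventually (Filter.eventually_ge_atTop (-Real.log ε))).exists
  let S : Finset ℕ := (Finset.range N).filter fun p => p ∈ P ∧ B < p
  refine ⟨S, fun p hp => (Finset.mem_filter.1 hp).2, ?_⟩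
  have h2 : ∑ i ∈ Finset.range N, (P \ Set.Iic B).indicator (fun n : ℕ => (1 : ℝ) / n) i =
      ∑ p ∈ S, (p : ℝ)⁻¹ := by
    rw [Finset.sum_filter]
    refine Finset.sum_congr rfl fun i _ => ?_
    by_cases hi : i ∈ P ∧ B < i
    · rw [if_pos hi, Set.indicator_of_mem, one_div]
      exact ⟨hi.1, fun h => absurd h (not_le.2 hi.2)⟩
    · rw [if_neg hi, Set.indicator_of_notMem]
      rintro ⟨h3, h4⟩
      exact hi ⟨h3, not_le.1 h4⟩
  rw [h2] at hN
  calc ∏ p ∈ S, (1 - (p : ℝ)⁻¹) ≤ ∏ p ∈ S, Real.exp (-(p : ℝ)⁻¹) := by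
        refine Finset.prod_le_prod (fun p hp => ?_) fun p hp => ?_
        · have h3 : (1 : ℝ) ≤ p := by
            exact_mod_cast (hP p (Finset.mem_filter.1 hp).2.1).one_lt.le
          have h4 := inv_le_one_of_one_le₀ h3
          linarith
        · have := Real.add_one_le_exp (-(p : ℝ)⁻¹)
          linarith
    _ = Real.exp (-∑ p ∈ S, (p : ℝ)⁻¹) := by
        rw [← Real.exp_sum, Finset.sum_neg_distrib]
    _ ≤ Real.exp (Real.log ε) := Real.exp_le_exp.2 (by linarith)
    _ = ε := Real.exp_log hε

/-- a separable polynomial is separable modulo almost all primes -/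
theorem sep_mod (f : ℤ[X]) (hd : 0 < f.natDegree)
    (hs : (f.map (Int.castRingHom ℚ)).Separable) : ∃ R : ℤ, R ≠ 0 ∧ ∀ p : ℕ, p.Prime →
      ¬ (p : ℤ) ∣ R → (f.map (Int.castRingHom (ZMod p))).Separable := by
  have hinj : Function.Injective (Int.castRingHom ℚ) := (Int.castRingHom ℚ).injective_int
  obtain ⟨a, b, -, -, hab⟩ := exists_mul_add_mul_eq_C_resultant f f.derivative le_rfl le_rfl
    (Or.inl hd.ne')
  refine ⟨f.resultant f.derivative, ?_, fun p hp hpR => ?_⟩
  · intro h0
    have h1 : (f.map (Int.castRingHom ℚ)).resultant (f.map (Int.castRingHom ℚ)).derivative = 0 := by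
      rw [Polynomial.derivative_map, Polynomial.natDegree_map_eq_of_injective hinj,
        Polynomial.natDegree_map_eq_of_injective hinj, resultant_map_map, h0, map_zero]
    rw [resultant_eq_zero_iff] at h1
    exact h1.2 hs
  · have : Fact p.Prime := ⟨hp⟩
    have hR : ((f.resultant f.derivative : ℤ) : ZMod p) ≠ 0 := by
      rwa [Ne, ZMod.intCast_zmod_eq_zero_iff_dvd]
    have h1 := congrArg (Polynomial.map (Int.castRingHom (ZMod p))) hab
    rw [Polynomial.map_add, Polynomial.map_mul, Polynomial.map_mul, Polynomial.map_C,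
      ← Polynomial.derivative_map] at h1
    refine ⟨Polynomial.C (((f.resultant f.derivative : ℤ) : ZMod p))⁻¹ *
      a.map (Int.castRingHom (ZMod p)), Polynomial.C (((f.resultant f.derivative : ℤ) : ZMod p))⁻¹ *
      b.map (Int.castRingHom (ZMod p)), ?_⟩
    have h2 : Polynomial.C (((f.resultant f.derivative : ℤ) : ZMod p))⁻¹ *
        (f.map (Int.castRingHom (ZMod p)) * a.map (Int.castRingHom (ZMod p)) +
        (f.map (Int.castRingHom (ZMod p))).derivative * b.map (Int.castRingHom (ZMod p))) = 1 := by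
      rw [h1, ← Polynomial.C_mul]
      have e : (Int.castRingHom (ZMod p)) (f.resultant f.derivative) =
        ((f.resultant f.derivative : ℤ) : ZMod p) := rfl
      rw [e, inv_mul_cancel₀ hR, Polynomial.C_1]
    rw [← h2]
    ring

/-- the polynomial splits modulo `p` with distinct roots -/
def SplP (f : ℤ[X]) (p : ℕ) : Prop :=
  ∃ A : Finset (ZMod p), A.card = f.natDegree ∧
    f.map (Int.castRingHom (ZMod p)) = ∏ a ∈ A, (X - Polynomial.C a)

theorem ms_lift {α β : Type} (f : α → β) (s : Multiset β) (h : ∀ b ∈ s, ∃ a, f a = b) :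
    ∃ t : Multiset α, t.map f = s := by
  induction s using Multiset.induction_on with
  | empty => exact ⟨0, rfl⟩
  | cons b s ih =>
    obtain ⟨t, ht⟩ := ih fun c hc => h c (Multiset.mem_cons_of_mem hc)
    obtain ⟨a, ha⟩ := h b (Multiset.mem_cons_self _ _)
    exact ⟨a ::ₘ t, by rw [Multiset.map_cons, ha, ht]⟩

theorem dvg_aux (L : Type) [Field L] [NumberField L] [IsGalois ℚ L] (f : ℤ[X]) (hm : f.Monic)
    (hd : 0 < f.natDegree) (hs : (f.map (Int.castRingHom ℚ)).Separable)
    (hspl : (f.map (Int.castRingHom L)).Splits) : Dvg {p | p.Prime ∧ SplP f p} := by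
  classical
  refine dvg_of (fun p hp => hp.1) ?_
  obtain ⟨R, hR0, hR⟩ := sep_mod f hd hs
  have hmL : (f.map (Int.castRingHom L)).Monic := hm.map _
  have hprod := hspl.eq_prod_roots_of_monic hmL
  have hint : ∀ r ∈ (f.map (Int.castRingHom L)).roots, IsIntegral ℤ r := by
    intro r hr
    refine ⟨f, hm, ?_⟩
    rw [Polynomial.mem_roots hmL.ne_zero, Polynomial.IsRoot, Polynomial.eval_map] at hr
    exact hr
  obtain ⟨rs, hrs⟩ : ∃ rs : Multiset (𝓞 L), rs.map (algebraMap _ L) =
      (f.map (Int.castRingHom L)).roots := by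
    have : ∀ r ∈ (f.map (Int.castRingHom L)).roots,
        ∃ y : 𝓞 L, algebraMap _ L y = r :=
      fun r hr => ⟨⟨r, hint r hr⟩, rfl⟩
    exact ms_lift _ _ this
  have hO : f.map (Int.castRingHom (𝓞 L)) =
      (rs.map fun r => X - Polynomial.C r).prod := by
    apply Polynomial.map_injective (algebraMap (𝓞 L) L)
      RingOfIntegers.coe_injective
    rw [Polynomial.map_map, Polynomial.map_multiset_prod, Multiset.map_map]
    have e : (algebraMap (𝓞 L) L).comp
      (Int.castRingHom (𝓞 L)) = Int.castRingHom L :=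
      RingHom.ext_int _ _
    rw [e, hprod, ← hrs, Multiset.map_map]
    congr 1
    refine Multiset.map_congr rfl fun r _ => ?_
    simp
  have hfr := TH888.B1.frob_diverges L (1 : Gal(L/ℚ))
  have hfin : {p : ℕ | (p : ℤ) ∣ R}.Finite := by
    apply (Set.finite_Icc 0 R.natAbs).subset
    intro p hp
    rw [Set.mem_ofPred_eq, Int.natCast_dvd] at hp
    exact ⟨Nat.zero_le _, Nat.le_of_dvd (Int.natAbs_pos.mpr hR0) hp⟩
  refine TH888.B1.diverges_mono ?_ (TH888.B1.diverges_diff hfin hfr)
  rintro p ⟨⟨hp, hx⟩, hpl⟩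
  have : Fact p.Prime := ⟨hp⟩
  obtain ⟨φ, hφ⟩ := TH888.B1.exists_hom (1 : Gal(L/ℚ)) hp hx
  refine ⟨hp, ?_⟩
  have hz : ∀ y : 𝓞 L, ∃ z : ZMod p,
      algebraMap (ZMod p) (AlgebraicClosure (ZMod p)) z = φ y := by
    intro y
    have h3 : φ y ^ p = φ y := by
      rw [← hφ y, one_smul]
    exact W54.ChTor.frob_fixed p (φ y) h3
  choose z hz using hz
  have hsep := hR p hp hpl
  have hmod : f.map (Int.castRingHom (ZMod p)) = (rs.map fun r => X - Polynomial.C (z r)).prod := by
    apply Polynomial.map_injective (algebraMap (ZMod p) (AlgebraicClosure (ZMod p)))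
      (algebraMap (ZMod p) (AlgebraicClosure (ZMod p))).injective
    have h3 := congrArg (Polynomial.map φ) hO
    rw [Polynomial.map_map, Polynomial.map_multiset_prod, Multiset.map_map] at h3
    rw [Polynomial.map_map, Polynomial.map_multiset_prod, Multiset.map_map]
    have e : (algebraMap (ZMod p) (AlgebraicClosure (ZMod p))).comp (Int.castRingHom (ZMod p)) =
      φ.comp (Int.castRingHom (𝓞 L)) := RingHom.ext_int _ _
    rw [e, h3]
    congr 1
    refine Multiset.map_congr rfl fun r _ => ?_
    simp [hz]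
  have hroots : (f.map (Int.castRingHom (ZMod p))).roots = rs.map z := by
    rw [hmod]
    have e : (rs.map fun r => X - Polynomial.C (z r)) =
        ((rs.map z).map fun a => X - Polynomial.C a) := by
      rw [Multiset.map_map]
      rfl
    rw [e, Polynomial.roots_multiset_prod_X_sub_C]
  have hnd : (rs.map z).Nodup := by
    rw [← hroots]
    exact Polynomial.nodup_roots hsep
  refine ⟨⟨rs.map z, hnd⟩, ?_, ?_⟩
  · rw [Finset.card_mk, Multiset.card_map]
    have h3 := congrArg Multiset.card hrs
    rw [Multiset.card_map] at h3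
    rw [h3]
    have h4 := hspl.natDegree_eq_card_roots
    rw [← h4, hm.natDegree_map]
  · rw [hmod]
    show _ = ((rs.map z).map fun a => X - Polynomial.C a).prod
    rw [Multiset.map_map]
    rfl

theorem map_rat (f : ℤ[X]) (F : ℚ[X]) (hF : F = f.map (Int.castRingHom ℚ)) (L : Type)
    [Field L] [Algebra ℚ L] : F.map (algebraMap ℚ L) = f.map (Int.castRingHom L) := by
  subst hF
  rw [Polynomial.map_map]
  congr 1
  exact RingHom.ext_int _ _

theorem dvg_split (f : ℤ[X]) (hm : f.Monic) (hd : 0 < f.natDegree)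
    (hs : (f.map (Int.castRingHom ℚ)).Separable) : Dvg {p | p.Prime ∧ SplP f p} := by
  obtain ⟨F, hF⟩ : ∃ F : ℚ[X], F = f.map (Int.castRingHom ℚ) := ⟨_, rfl⟩
  have hS : IsSplittingField ℚ F.SplittingField F := IsSplittingField.splittingField F
  have h1 : FiniteDimensional ℚ F.SplittingField := IsSplittingField.finiteDimensional _ F
  have h2 : CharZero F.SplittingField :=
    charZero_of_injective_algebraMap (algebraMap ℚ F.SplittingField).injective
  have hnf : NumberField F.SplittingField := ⟨⟩
  have hN : Normal ℚ F.SplittingField := Normal.of_isSplittingField F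
  have hG : IsGalois ℚ F.SplittingField := ⟨⟩
  have hspl := SplittingField.splits F
  refine dvg_aux F.SplittingField f hm hd hs ?_
  rw [← map_rat f F hF F.SplittingField]
  exact hspl

end Pool.Agent.H882
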