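import Pool.Agent.H882.FyLoc
import Pool.Agent.H882.NfSplit

/-!
Chebotarev: for an automorphism `σ` and a finite set `S` of algebraic integers there are many primes
at which `σ` is a Frobenius on `S`, for a conjugate of a given embedding.
-/

set_option autoImplicit false

namespace Pool.Agent.H882

open NumberField Polynomial
open scoped Pointwise
open Pool.Agent.W401.Cheb (xp)
open Pool.Agent.Y226 (QA nadd_lt norm_le_one_of_isIntegral)

section

variable {C : Type} [NormedField C] [IsUltrametricDist C]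

/-- the prime ideal of an embedding -/
def qid {R : Type} [CommRing R] (φ : R →+* C) (hφ : ∀ x, ‖φ x‖ ≤ 1) : Ideal R where
  carrier := {x | ‖φ x‖ < 1}
  add_mem' {x y} hx hy := by
    show ‖φ (x + y)‖ < 1
    rw [map_add]
    exact nadd_lt hx hy
  zero_mem' := by
    show ‖φ 0‖ < 1
    rw [map_zero, norm_zero]
    exact one_pos
  smul_mem' c x hx := by
    show ‖φ (c * x)‖ < 1
    rw [map_mul, norm_mul]
    exact (mul_le_of_le_one_left (norm_nonneg _) (hφ c)).trans_lt hx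

theorem mem_qid {R : Type} [CommRing R] (φ : R →+* C) (hφ : ∀ x, ‖φ x‖ ≤ 1) (x : R) :
    x ∈ qid φ hφ ↔ ‖φ x‖ < 1 := Iff.rfl

theorem qid_prime {R : Type} [CommRing R] (φ : R →+* C) (hφ : ∀ x, ‖φ x‖ ≤ 1) :
    (qid φ hφ).IsPrime := by
  refine ⟨?_, ?_⟩
  · intro h
    have h1 : (1 : R) ∈ qid φ hφ := by
      rw [h]
      trivial
    rw [mem_qid, map_one, norm_one] at h1
    exact lt_irrefl _ h1
  · intro x y h
    rw [mem_qid, map_mul, norm_mul] at h
    rw [mem_qid, mem_qid]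
    by_contra hcon
    push Not at hcon
    have h1 := le_antisymm (hφ x) hcon.1
    have h2 := le_antisymm (hφ y) hcon.2
    rw [h1, h2, one_mul] at h
    exact lt_irrefl _ h

theorem frob_gen (L : Type) [Field L] [NumberField L] [IsGalois ℚ L] (g : Gal(L/ℚ)) {p : ℕ}
    (hp : p.Prime) (hx : xp L g p ≠ 0) (hp1 : ‖(p : C)‖ < 1) (φ : 𝓞 L →+* C)
    (hφ : ∀ x, ‖φ x‖ ≤ 1) :
    ∃ h : Gal(L/ℚ), ∀ x : 𝓞 L, ‖φ (h • g • h⁻¹ • x) - φ x ^ p‖ < 1 := by
  have : Fact p.Prime := ⟨hp⟩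
  obtain ⟨φ', hφ'⟩ := TH888.B1.exists_hom g hp hx
  have hq := qid_prime φ hφ
  have hk : (RingHom.ker φ').IsPrime := RingHom.ker_isPrime φ'
  have heq : Ideal.under ℤ (RingHom.ker φ') = Ideal.under ℤ (qid φ hφ) := by
    ext n
    rw [Ideal.under_def, Ideal.under_def, Ideal.mem_comap, Ideal.mem_comap, RingHom.mem_ker,
      mem_qid]
    have e1 : algebraMap ℤ (𝓞 L) n = (n : 𝓞 L) := rfl
    rw [e1, map_intCast, map_intCast, CharP.intCast_eq_zero_iff (AlgebraicClosure (ZMod p)) p]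
    constructor
    · intro h
      exact (norm_le_p h).trans_lt hp1
    · intro h
      exact dvd_of_norm hp hp1 h
  obtain ⟨h, hh⟩ := Algebra.IsInvariant.exists_smul_of_under_eq ℤ (𝓞 L) Gal(L/ℚ)
    (RingHom.ker φ') (qid φ hφ) heq
  refine ⟨h, fun x => ?_⟩
  rw [← map_pow, ← map_sub, ← mem_qid φ hφ, hh, Ideal.mem_pointwise_smul_iff_inv_smul_mem,
    smul_sub, inv_smul_smul, smul_pow', RingHom.mem_ker, map_sub, map_pow, hφ', sub_self]

end

theorem frob_fld (A : Type) [Field A] [CharZero A] [IsAlgClosed A] [Algebra.IsAlgebraic ℚ A]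
    (σ : A ≃+* A) (S : Finset A) (hS : ∀ y ∈ S, IsIntegral ℤ y) :
    ∃ P : Set ℕ, (∀ p ∈ P, p.Prime) ∧ Dvg P ∧ ∀ p ∈ P, ∀ (C : Type) [NormedField C]
      [IsUltrametricDist C] (φ : A →+* C), ‖(p : C)‖ < 1 →
        ∃ γ : A ≃+* A, ∀ y ∈ S, ‖φ (γ (σ y)) - φ (γ y) ^ p‖ < 1 := by
  classical
  have hcl : IsAlgClosure ℚ A := ⟨inferInstance, inferInstance⟩
  have hnA : Normal ℚ A := IsAlgClosure.normal ℚ A
  obtain ⟨F, hF⟩ : ∃ F : ℚ[X], F = ∏ y ∈ S, minpoly ℚ y := ⟨_, rfl⟩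
  have hF0 : F ≠ 0 := by
    rw [hF, Finset.prod_ne_zero_iff]
    intro y _
    exact minpoly.ne_zero (Algebra.IsIntegral.isIntegral y)
  have hSp : IsSplittingField ℚ F.SplittingField F := IsSplittingField.splittingField F
  have h1 : FiniteDimensional ℚ F.SplittingField := IsSplittingField.finiteDimensional _ F
  have h2 : CharZero F.SplittingField :=
    charZero_of_injective_algebraMap (algebraMap ℚ F.SplittingField).injective
  have hnf : NumberField F.SplittingField := ⟨⟩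
  have hN : Normal ℚ F.SplittingField := Normal.of_isSplittingField F
  have hG : IsGalois ℚ F.SplittingField := ⟨⟩
  have hspl := SplittingField.splits F
  obtain ⟨L, hL, hLn, hLG, ι, hι⟩ : ∃ (L : Type) (_ : Field L) (_ : NumberField L)
      (_ : IsGalois ℚ L) (ι : L →+* A), ∀ y ∈ S, ∃ x : L, ι x = y := by
    refine ⟨F.SplittingField, inferInstance, hnf, hG,
      (IsAlgClosed.lift (R := ℚ) (S := F.SplittingField) (M := A)).toRingHom, fun y hy => ?_⟩
    have h3 : (Polynomial.map (IsAlgClosed.lift (R := ℚ) (S := F.SplittingField)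
      (M := A)).toRingHom (F.map (algebraMap ℚ F.SplittingField))).IsRoot y := by
      rw [Polynomial.IsRoot, Polynomial.map_map]
      have e : (IsAlgClosed.lift (R := ℚ) (S := F.SplittingField) (M := A)).toRingHom.comp
        (algebraMap ℚ F.SplittingField) = algebraMap ℚ A := RingHom.ext_rat _ _
      rw [e, Polynomial.eval_map_algebraMap, hF, map_prod]
      exact Finset.prod_eq_zero hy (minpoly.aeval ℚ y)
    obtain ⟨x, hx⟩ := hspl.mem_range_of_isRoot ((Polynomial.map_ne_zero_iff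
      (algebraMap ℚ F.SplittingField).injective).2 hF0) h3
    exact ⟨x, hx⟩
  let algLA : Algebra L A := ι.toAlgebra
  have hst : IsScalarTower ℚ L A := IsScalarTower.of_algebraMap_eq' (RingHom.ext_rat _ _)
  obtain ⟨σ', hσ'⟩ : ∃ σ' : A ≃ₐ[ℚ] A, ∀ y, σ' y = σ y :=
    ⟨AlgEquiv.ofRingEquiv (f := σ) (fun q => by simp), fun _ => rfl⟩
  obtain ⟨g, hg⟩ : ∃ g : Gal(L/ℚ), ∀ x : L, σ (ι x) = ι (g x) :=
    ⟨σ'.restrictNormal L, fun x => by
      rw [← hσ']
      exact (AlgEquiv.restrictNormal_commutes σ' L x).symm⟩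
  refine ⟨{p | p.Prime ∧ xp L g p ≠ 0}, fun p hp => hp.1,
    dvg_of (fun p hp => hp.1) (TH888.B1.frob_diverges L g), ?_⟩
  rintro p ⟨hp, hpx⟩ C _ _ φ hp1
  obtain ⟨h, hh⟩ := frob_gen L g hp hpx hp1 ((φ.comp ι).comp (algebraMap (𝓞 L) L)) fun x =>
    norm_le_one_of_isIntegral (φ.comp ι) (RingOfIntegers.isIntegral_coe x)
  refine ⟨(h.liftNormal A).toRingEquiv, fun y hy => ?_⟩
  have hlift : ∀ x : L, (h.liftNormal A).toRingEquiv (ι x) = ι (h x) := fun x =>
    AlgEquiv.liftNormal_commutes h A x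
  obtain ⟨x, rfl⟩ := hι y hy
  have hxint : IsIntegral ℤ x := by
    obtain ⟨Q, hQ, hQx⟩ := hS _ hy
    refine ⟨Q, hQ, ι.injective ?_⟩
    rw [hom_eval₂, map_zero, ← hQx]
    congr 1
    exact RingHom.ext_int _ _
  obtain ⟨z, rfl⟩ : ∃ z : 𝓞 L, (z : L) = x := ⟨⟨x, hxint⟩, rfl⟩
  rw [hg, hlift, hlift]
  have h4 := hh (h • z)
  rw [inv_smul_smul] at h4
  exact h4

end Pool.Agent.H882
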