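import Pool.Agent.H882.FxGal
import Pool.Graph.R_seed8.Y226.ZP.Emb

/-!
The set of the numbers `j (g τ)`, `det g = l`, `j (τ) = s`, is stable under the automorphisms of the
field of algebraic numbers which fix `s`.
-/

set_option autoImplicit false

namespace Pool.Agent.H882

open UpperHalfPlane H294ZP Function Pool.Agent.N135.ZO Polynomial
open Pool.Agent.Y226 (ZZ ιZ ιZ_apply eZ qq_h eZ_mul Ev Rep QA iA)
open H294ZP.TA2 (R mp)

/-- the ring of algebraic integers: the restriction of an endomorphism of the algebraic numbers -/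
theorem int_of_QA {z : QA} (h : IsIntegral ℤ z) : IsIntegral ℤ (z : ℂ) :=
  h.map (algebraMap QA ℂ).toIntAlgHom

theorem QA_of_int {z : QA} (h : IsIntegral ℤ (z : ℂ)) : IsIntegral ℤ z := by
  obtain ⟨Q, hQ, hQx⟩ := h
  refine ⟨Q, hQ, Subtype.ext ?_⟩
  have h1 : (algebraMap QA ℂ) (Q.eval₂ (algebraMap ℤ QA) z) = 0 := by
    rw [Polynomial.hom_eval₂, ← hQx]
    congr 1
  exact h1

/-- an automorphism of the algebraic numbers on the integers -/
noncomputable def rZ (γ : QA →+* QA) : ZZ →+* ZZ where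
  toFun z := ⟨((γ (iA z) : QA) : ℂ), int_of_QA ((QA_of_int (z := iA z) z.2).map γ.toIntAlgHom)⟩
  map_one' := Subtype.ext (by
    show ((γ (iA 1) : QA) : ℂ) = 1
    rw [map_one, map_one]
    rfl)
  map_mul' a b := Subtype.ext (by
    show ((γ (iA (a * b)) : QA) : ℂ) = (γ (iA a) : ℂ) * (γ (iA b) : ℂ)
    rw [map_mul, map_mul]
    rfl)
  map_zero' := Subtype.ext (by
    show ((γ (iA 0) : QA) : ℂ) = 0
    rw [map_zero, map_zero]
    rfl)
  map_add' a b := Subtype.ext (by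
    show ((γ (iA (a + b)) : QA) : ℂ) = (γ (iA a) : ℂ) + (γ (iA b) : ℂ)
    rw [map_add, map_add]
    rfl)

theorem iA_rZ (γ : QA →+* QA) : iA.comp (rZ γ) = γ.comp iA := by
  ext z
  rfl

theorem exists_scale (T : QA) : ∃ (N : ℕ) (T' : ZZ), N ≠ 0 ∧ ιZ T' = N * (T : ℂ) ∧
    ∀ γ : QA →+* QA, ιZ (rZ γ T') = N * ((γ T : QA) : ℂ) := by
  have halg : IsAlgebraic ℤ T :=
    (IsFractionRing.isAlgebraic_iff ℤ ℚ QA).2 (Algebra.IsAlgebraic.isAlgebraic T)
  obtain ⟨y, hy0, hy⟩ := halg.exists_integral_multiple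
  have h1 : IsIntegral ℤ ((y.natAbs : QA) * T) := by
    rw [zsmul_eq_mul] at hy
    rcases Int.natAbs_eq y with h | h
    · rw [h, Int.cast_natCast] at hy
      exact hy
    · rw [h, Int.cast_neg, Int.cast_natCast, neg_mul] at hy
      have h2 := hy.neg
      rw [neg_neg] at h2
      exact h2
  refine ⟨y.natAbs, ⟨(((y.natAbs : QA) * T : QA) : ℂ), int_of_QA h1⟩,
    Int.natAbs_ne_zero.2 hy0, rfl, fun γ => ?_⟩
  show ((γ ((y.natAbs : QA) * T) : QA) : ℂ) = _
  rw [map_mul, map_natCast]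
  rfl

/-- the automorphisms which fix an algebraic number permute its neighbours -/
theorem gal_nbrQ {l : ℕ} (hl : l.Prime) (γ : QA →+* QA) {τ₀ : ℍ} {s : QA} (hs : jj τ₀ = s)
    (hγ : γ s = s) {T : QA} {k : Option (Fin l)} (hT : (T : ℂ) = jj (hh hl.pos k τ₀)) :
    ∃ k', ((γ T : QA) : ℂ) = jj (hh hl.pos k' τ₀) := by
  obtain ⟨N, T', hN0, hT', hTγ⟩ := exists_scale T
  have hTg := hTγ γ
  obtain ⟨δ, hδ⟩ : ∃ δ : ZZ →+* ZZ, δ = rZ γ := ⟨_, rfl⟩
  rw [← hδ] at hTg
  choose π hπ1 hπ2 using exists_pi hl δ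
  set f : ℍ → ℂ := fun τ => ∏ k : Option (Fin l), (ιZ T' + -N * jj (hh hl.pos k τ)) with hf
  have hfI : Inv f := by
    refine inv_of_rel fun γ hγ τ w hw => ?_
    obtain ⟨σ, hσ⟩ := perm hl hγ hw
    rw [hf]
    dsimp only
    rw [← Equiv.prod_comp σ (fun k => ιZ T' + -N * jj (hh hl.pos k τ))]
    refine Finset.prod_congr rfl fun k _ => ?_
    rw [show jj (hh hl.pos k w) = jj (hh hl.pos (σ k) τ) from (hσ k).1]
  have hm1 : LX ⊤ l (fun _ => (-N : ℂ)) := by
    have := (LX.const (I := ⊤) (N := l) (z := (-N : ZZ)) trivial)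
    simpa using this
  have hfL : LX ⊤ l f := LX.prod Finset.univ (fun k τ => ιZ T' + -N * jj (hh hl.pos k τ))
    fun k _ => (LX.const (I := ⊤) (N := l) (z := T') trivial).add
      (hm1.mul_left (LX.jj_hh hl.pos k))
  obtain ⟨P, -, hP⟩ := tbX ⊤ l hl.pos f hfI hfL
  have r1 : Rep (ιZ.comp δ) l (qq l τ₀) jj (jj τ₀) := by
    refine rep_gal (N := l) (m := l) hl.pos δ (u := 1) (u' := 1) (by simp) (g := id)
      (fun τ => ?_) ?_
    · rw [map_one, one_mul]
      unfold qq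
      rw [← Complex.exp_nat_mul]
      congr 1
      have : (l : ℂ) ≠ 0 := by exact_mod_cast hl.ne_zero
      simp only [id]
      push_cast
      field_simp
    · rw [map_one, map_one, one_mul]
      unfold qq
      rw [← Complex.exp_nat_mul]
      congr 1
      have : (l : ℂ) ≠ 0 := by exact_mod_cast hl.ne_zero
      push_cast
      field_simp
  have r2 : Rep (ιZ.comp δ) l (qq l τ₀) f (P.eval₂ (ιZ.comp δ) (jj τ₀)) := by
    have h1 := r1.poly P
    have e : (fun τ => P.eval₂ ιZ (jj τ)) = f := by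
      funext τ
      exact (hP τ).symm
    rw [e] at h1
    exact h1
  have r3 : Rep (ιZ.comp δ) l (qq l τ₀) f
      (∏ k : Option (Fin l), (ιZ (δ T') + -N * jj (hh hl.pos (π k) τ₀))) := by
    have hn' : Rep (ιZ.comp δ) l (qq l τ₀) (fun _ => ((-N : ℂ))) (-N : ℂ) := by
      have := Rep.const (ψ := ιZ.comp δ) (N := l) (Q := qq l τ₀) (-N : ZZ)
      simpa using this
    refine Rep.prod _ fun k _ => (Rep.const T').add (hn'.mul ?_)
    refine rep_gal (m := ka l k ^ 2) (pow_pos (ka_pos hl.pos k) 2) δ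
      (eZ_mul (kb l k) (kd l k) (kd_pos hl.pos k)) (fun τ => ?_) ?_
    · have h1 := qq_h (ka_pos hl.pos k) (kd_pos hl.pos k) (hh_mul hl.pos k τ)
      rw [ka_mul_kd] at h1
      exact h1
    · have h1 := qq_h (ka_pos hl.pos (π k)) (kd_pos hl.pos (π k)) (hh_mul hl.pos (π k) τ₀)
      rw [ka_mul_kd] at h1
      rw [h1, hπ2 k, hπ1 k]
  have hq0 : qq l τ₀ ≠ 0 := Complex.exp_ne_zero _
  have h1 := r2.unique hl.pos hq0 r3
  have h2 : P.eval₂ ιZ (jj τ₀) = 0 := by
    rw [← hP τ₀, hf]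
    dsimp only
    refine Finset.prod_eq_zero (Finset.mem_univ k) ?_
    rw [hT', hT]
    ring
  have h3 : P.eval₂ iA s = 0 := by
    apply Subtype.ext
    show (algebraMap QA ℂ) (P.eval₂ iA s) = 0
    rw [Polynomial.hom_eval₂]
    rw [hs] at h2
    exact h2
  have h4 : P.eval₂ (ιZ.comp δ) (jj τ₀) = 0 := by
    have h5 := congrArg γ h3
    rw [Polynomial.hom_eval₂, map_zero, ← iA_rZ, ← hδ, hγ] at h5
    have h6 := congrArg (algebraMap QA ℂ) h5
    rw [Polynomial.hom_eval₂, map_zero] at h6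
    rw [hs]
    exact h6
  rw [h4] at h1
  obtain ⟨k', -, hk'⟩ := Finset.prod_eq_zero_iff.1 h1.symm
  refine ⟨π k', ?_⟩
  rw [hTg] at hk'
  have hNC : (N : ℂ) ≠ 0 := by exact_mod_cast hN0
  apply mul_left_cancel₀ hNC
  linear_combination hk'

end Pool.Agent.H882
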