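import Pool.Agent.H882.FxLine
import Pool.Agent.H882.CenIso

/-!
The neighbours of an algebraic number and the discriminant of the canonical lift.
-/

set_option autoImplicit false

namespace Pool.Agent.H882

open UpperHalfPlane H294ZP Function Pool.Agent.N135.ZO
open Pool.Agent.Y226 (ZZ ιZ ιZ_apply PsiE map_PsiE modular_family)

/-- the numbers `j (g τ)`, `det g = l`, `j (τ) = s` -/
def Nbr (l : ℕ) (s : ℂ) : Set ℂ :=
  {y | ∃ (A : M2) (τ w : ℍ), A.det = l ∧ Rel A τ w ∧ jj τ = s ∧ jj w = y}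

variable {V : ValuationSubring ℂ} {p l : ℕ}

theorem cg_symm {x y : ℂ} (h : V.valuation (x - y) < 1) : V.valuation (y - x) < 1 := by
  rw [← Valuation.map_neg]
  rwa [neg_sub]

theorem cg_trans {x y z : ℂ} (h : V.valuation (x - y) < 1) (h' : V.valuation (y - z) < 1) :
    V.valuation (x - z) < 1 := by
  have e : x - z = (x - y) + (y - z) := by ring
  rw [e]
  exact Valuation.map_add_lt _ h h'

theorem cg_pow {x y : ℂ} (hx : x ∈ V) (hy : y ∈ V) (h : V.valuation (x - y) < 1) (n : ℕ) :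
    V.valuation (x ^ n - y ^ n) < 1 := by
  obtain ⟨c, hc⟩ := sub_dvd_pow_sub_pow (⟨x, hx⟩ : V) ⟨y, hy⟩ n
  have h1 := congrArg (fun w : V => (w : ℂ)) hc
  push_cast at h1
  rw [h1]
  exact lt_mul_mem h c.2

theorem cg_frob (hp : p.Prime) (hp2 : p ≠ 2) (hpV : V.valuation (p : ℂ) < 1) {x y : ℂ}
    (hx : x ∈ V) (hy : y ∈ V) (h : V.valuation (x ^ p - y ^ p) < 1) :
    V.valuation (x - y) < 1 := by
  obtain ⟨r, hr⟩ := exists_add_pow_prime_eq hp (⟨x, hx⟩ : V) (-⟨y, hy⟩)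
  have h1 := congrArg (fun w : V => (w : ℂ)) hr
  push_cast at h1
  rw [(hp.odd_of_ne_two hp2).neg_pow, ← sub_eq_add_neg, ← sub_eq_add_neg] at h1
  have h2 : V.valuation ((x - y) ^ p) < 1 := by
    rw [h1]
    refine Valuation.map_add_lt _ h ?_
    exact lt_mul_mem (lt_mul_mem (lt_mul_mem hpV hx) (V.neg_mem _ hy)) r.2
  by_contra hcon
  have h3 : V.valuation (x - y) = 1 := le_antisymm (val_le (sub_mem hx hy)) (not_lt.1 hcon)
  rw [map_pow, h3, one_pow] at h2
  exact lt_irrefl _ h2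

theorem jj_of_det {τ w : ℍ} (hl : l.Prime) {A : M2} (hA : A.det = l) (h : Rel A τ w) :
    ∃ k, jj w = jj (hh hl.pos k τ) := by
  have hlZ : (0 : ℤ) < l := by exact_mod_cast hl.pos
  obtain ⟨k, C, -, -, hCdet, hCrel, -⟩ := exists_fac (M := A) (by rw [hA]; exact hlZ) hl
    (by rw [hA]) h
  have hC1 : C.det = 1 := by
    rw [hA] at hCdet
    have : (1 : ℤ) * l = C.det * l := by rw [one_mul]; exact hCdet
    exact (mul_right_cancel₀ hlZ.ne' this).symm
  exact ⟨k, hCrel.jj hC1⟩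

theorem mem_nbr (hl : l.Prime) {s : ℂ} {τ : ℍ} (hτ : jj τ = s) {y : ℂ} :
    y ∈ Nbr l s ↔ ∃ k, y = jj (hh hl.pos k τ) := by
  constructor
  · rintro ⟨A, τ', w, hA, hrel, hj, rfl⟩
    obtain ⟨γ, hγ, hγrel⟩ := Pool.Agent.N101.ZP.jj_inj (hτ.trans hj.symm)
    exact jj_of_det hl (A := A * γ) (by rw [det_mul', hA, hγ, mul_one]) (hγrel.mul hrel)
  · rintro ⟨k, rfl⟩
    exact ⟨gk l k, τ, hh hl.pos k τ, det_gk l k, rel_hh hl.pos k τ, hτ, rfl⟩

theorem near_nbr (hl : l.Prime) {τ τ' w : ℍ} (hτ : jj τ ∈ V) (hτ' : jj τ' ∈ V)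
    (hlt : V.valuation (jj τ - jj τ') < 1) {A : M2} (hA : A.det = l) (hrel : Rel A τ w) :
    ∃ k, V.valuation (jj w - jj (hh hl.pos k τ')) < 1 := by
  classical
  have hlZ : (0 : ℤ) < l := by exact_mod_cast hl.pos
  have hw : jj w ∈ V := rel_mem (M := A) (by rw [hA]; exact hlZ) hrel hτ
  obtain ⟨ι, _, α, δ, β, g, Q, h1, h2, -, h3, h4⟩ := modular_family l hl.pos
  have h5 := h4 τ w (A 0 0) (A 0 1) (A 1 0) (A 1 1) (by rw [← det_eq, hA]) hrel
  have h6 := psi_congr hτ' hw hlt (y' := jj w) (by rw [sub_self, map_zero]; exact zero_lt_one)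
    Q _ h5
  rw [← h3] at h6
  have hrelk : ∀ k, Rel !![(α k : ℤ), β k; 0, (δ k : ℤ)] τ' (g k τ') := by
    intro k
    have := h2 k τ'
    simp only [Pool.Agent.N135.ZO.Rel, Pool.Agent.N135.ZO.den, Pool.Agent.N135.ZO.num,
      Matrix.of_apply, Matrix.cons_val', Matrix.cons_val_zero,
      Matrix.cons_val_one, Matrix.cons_val_fin_one]
    push_cast
    rw [← this]
    ring
  have hdetk : ∀ k, (!![(α k : ℤ), β k; 0, (δ k : ℤ)] : M2).det = l := by
    intro k
    rw [Matrix.det_fin_two_of, mul_zero, sub_zero]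
    exact_mod_cast (h1 k).2.2
  have hmem : ∀ k, jj (g k τ') ∈ V := fun k => rel_mem (by rw [hdetk]; exact hlZ) (hrelk k) hτ'
  have h7 : ∃ k, V.valuation (jj w - jj (g k τ')) < 1 := by
    by_contra hcon
    push Not at hcon
    rw [map_prod] at h6
    have h8 : ∀ k, V.valuation (jj w - jj (g k τ')) = 1 := fun k =>
      le_antisymm (val_le (sub_mem hw (hmem k))) (hcon k)
    rw [Finset.prod_congr rfl (fun k _ => h8 k), Finset.prod_const_one] at h6
    exact lt_irrefl _ h6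
  obtain ⟨k, hk⟩ := h7
  obtain ⟨k', hk'⟩ := jj_of_det hl (hdetk k) (hrelk k)
  exact ⟨k', by rw [← hk']; exact hk⟩

/-- a fixed line gives a point over the prime field -/
theorem fix_cong (hp : p.Prime) (hp2 : p ≠ 2) (hpV : V.valuation (p : ℂ) < 1) (hl : l.Prime)
    {t : ℍ} (ht : jj t ∈ V) {M : M2} (hM : M.det = p) (hrel : Rel M t t) {k : Option (Fin l)}
    (hk : Fixd l M k) :
    V.valuation (jj (hh hl.pos k t) ^ p - jj (hh hl.pos k t)) < 1 := by
  have hlZ : (0 : ℤ) < l := by exact_mod_cast hl.pos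
  have hpZ : (0 : ℤ) < p := by exact_mod_cast hp.pos
  obtain ⟨M', hM'⟩ := hk
  have hdet : M'.det = p := by
    have h1 := congrArg Matrix.det hM'
    rw [det_mul', det_mul', det_gk, hM] at h1
    have h2 : M'.det * l = p * l := by rw [← h1]; ring
    exact mul_right_cancel₀ hlZ.ne' h2
  have hy : jj (hh hl.pos k t) ∈ V := rel_mem (M := gk l k) (by rw [det_gk]; exact hlZ)
    (rel_hh hl.pos k t) ht
  obtain ⟨z, hz⟩ := exists_rel (M := M') (by rw [hdet]; exact hpZ) (hh hl.pos k t)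
  have h1 := (rel_hh hl.pos k t).mul hz
  have h2 := hrel.mul (rel_hh hl.pos k t)
  rw [hM'] at h2
  have h3 : z = hh hl.pos k t := Rel.unique (M := M' * gk l k)
    (by rw [det_mul', hdet, det_gk]; positivity) h1 h2
  rw [h3] at hz
  have h4 := kro_rel hp hp2 hpV hy hdet hz
  set y := jj (hh hl.pos k t) with hydef
  have e : (y - y ^ p) * (y ^ p - y) = -((y ^ p - y) ^ 2) := by ring
  rw [e, Valuation.map_neg, map_pow] at h4
  by_contra hcon
  have h5 : V.valuation (y ^ p - y) = 1 :=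
    le_antisymm (val_le (sub_mem (V.pow_mem hy p) hy)) (not_lt.1 hcon)
  rw [h5, one_pow] at h4
  exact lt_irrefl _ h4

/-- a point over the prime field: the Frobenius maps it to a congruent one -/
theorem cong_fix (hp : p.Prime) (hp2 : p ≠ 2) (hpV : V.valuation (p : ℂ) < 1) (hl : l.Prime)
    {t : ℍ} (ht : jj t ∈ V) {M : M2} (hM : M.det = p) (hrel : Rel M t t) {k : Option (Fin l)}
    (hk : V.valuation (jj (hh hl.pos k t) ^ p - jj (hh hl.pos k t)) < 1) :
    ∃ k' : Option (Fin l), V.valuation (jj (hh hl.pos k t) - jj (hh hl.pos k' t)) < 1 ∧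
      (k' = k → Fixd l M k) := by
  have hlZ : (0 : ℤ) < l := by exact_mod_cast hl.pos
  have hpZ : (0 : ℤ) < p := by exact_mod_cast hp.pos
  obtain ⟨k', E, hE⟩ := factor hl (gk l k * M) (by rw [det_mul', det_gk]; exact dvd_mul_right _ _)
  have hdet : E.det = p := by
    have h1 := congrArg Matrix.det hE
    rw [det_mul', det_mul', det_gk, det_gk, hM] at h1
    have h2 : E.det * l = p * l := by rw [← h1]; ring
    exact mul_right_cancel₀ hlZ.ne' h2
  have hy : ∀ k : Option (Fin l), jj (hh hl.pos k t) ∈ V := fun k =>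
    rel_mem (M := gk l k) (by rw [det_gk]; exact hlZ) (rel_hh hl.pos k t) ht
  obtain ⟨z, hz⟩ := exists_rel (M := E) (by rw [hdet]; exact hpZ) (hh hl.pos k' t)
  have h1 := (rel_hh hl.pos k' t).mul hz
  have h2 := hrel.mul (rel_hh hl.pos k t)
  rw [hE] at h2
  have h3 : z = hh hl.pos k t := Rel.unique (M := E * gk l k')
    (by rw [det_mul', hdet, det_gk]; positivity) h1 h2
  rw [h3] at hz
  have h4 := kro_rel hp hp2 hpV (hy k') hdet hz
  refine ⟨k', ?_, ?_⟩
  · set y := jj (hh hl.pos k t) with hydef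
    set y' := jj (hh hl.pos k' t) with hydef'
    by_contra hcon
    have c1 : V.valuation (y - y' ^ p) = 1 := by
      refine le_antisymm (val_le (sub_mem (hy k) (V.pow_mem (hy k') p))) ?_
      by_contra h5
      rw [not_le] at h5
      exact hcon (cg_frob hp hp2 hpV (hy k) (hy k') (cg_trans hk h5))
    have c2 : V.valuation (y ^ p - y') = 1 := by
      refine le_antisymm (val_le (sub_mem (V.pow_mem (hy k) p) (hy k'))) ?_
      by_contra h5
      rw [not_le] at h5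
      exact hcon (cg_trans (cg_symm hk) h5)
    rw [map_mul, c1, c2, one_mul] at h4
    exact lt_irrefl _ h4
  · intro h
    rw [h] at hE
    exact ⟨E, hE⟩

/-- no neighbour over the prime field -/
theorem loc_ns (hp : p.Prime) (hp2 : p ≠ 2) (hpV : V.valuation (p : ℂ) < 1) (hl : l.Prime)
    (hl2 : l ≠ 2) {s : ℂ} (hs : s ∈ V) {τ : ℍ} (hτ : jj τ = s) {t : ℍ} {M : M2} (hM : M.det = p)
    (hrel : Rel M t t) (ht : V.valuation (jj t - s) < 1)
    (h : ∀ y ∈ Nbr l s, ¬ V.valuation (y ^ p - y) < 1) :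
    ¬ SqMod l (M.trace ^ 2 - 4 * p) := by
  intro hsq
  have hlZ : (0 : ℤ) < l := by exact_mod_cast hl.pos
  have htV : jj t ∈ V := by
    have e : jj t = s + (jj t - s) := by ring
    rw [e]
    exact V.add_mem _ _ hs ((V.valuation_le_one_iff _).1 ht.le)
  have hτV : jj τ ∈ V := by rw [hτ]; exact hs
  rw [← hM] at hsq
  obtain ⟨k, hk⟩ := exists_fixd hl hl2 hsq
  have h1 := fix_cong hp hp2 hpV hl htV hM hrel hk
  obtain ⟨k', hk'⟩ := near_nbr hl htV hτV (by rw [hτ]; exact ht) (det_gk l k) (rel_hh hl.pos k t)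
  have hy : jj (hh hl.pos k t) ∈ V := rel_mem (M := gk l k) (by rw [det_gk]; exact hlZ)
    (rel_hh hl.pos k t) htV
  have hy' : jj (hh hl.pos k' τ) ∈ V := rel_mem (M := gk l k') (by rw [det_gk]; exact hlZ)
    (rel_hh hl.pos k' τ) hτV
  refine h _ ((mem_nbr hl hτ).2 ⟨k', rfl⟩) ?_
  exact cg_trans (cg_trans (cg_pow hy' hy (cg_symm hk') p) h1) hk'

/-- two neighbours over the prime field -/
theorem loc_sp (hp : p.Prime) (hp2 : p ≠ 2) (hpV : V.valuation (p : ℂ) < 1) (hl : l.Prime)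
    {s : ℂ} (hs : s ∈ V) {τ : ℍ} (hτ : jj τ = s) {t : ℍ} {M : M2} (hM : M.det = p)
    (hrel : Rel M t t) (ht : V.valuation (jj t - s) < 1) (hcard : (Nbr l s).ncard = l + 1)
    (hinc : ∀ y ∈ Nbr l s, ∀ y' ∈ Nbr l s, V.valuation (y - y') < 1 → y = y') {y₁ y₂ y₃ : ℂ}
    (h₁ : y₁ ∈ Nbr l s) (h₂ : y₂ ∈ Nbr l s) (h₃ : y₃ ∈ Nbr l s) (h₁₂ : y₁ ≠ y₂)
    (c₁ : V.valuation (y₁ ^ p - y₁) < 1) (c₂ : V.valuation (y₂ ^ p - y₂) < 1)
    (c₃ : ¬ V.valuation (y₃ ^ p - y₃) < 1) :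
    SqModU l (M.trace ^ 2 - 4 * p) := by
  have hlZ : (0 : ℤ) < l := by exact_mod_cast hl.pos
  have htV : jj t ∈ V := by
    have e : jj t = s + (jj t - s) := by ring
    rw [e]
    exact V.add_mem _ _ hs ((V.valuation_le_one_iff _).1 ht.le)
  have hτV : jj τ ∈ V := by rw [hτ]; exact hs
  have hy : ∀ k : Option (Fin l), jj (hh hl.pos k t) ∈ V := fun k =>
    rel_mem (M := gk l k) (by rw [det_gk]; exact hlZ) (rel_hh hl.pos k t) htV
  have hyτ : ∀ k : Option (Fin l), jj (hh hl.pos k τ) ∈ V := fun k =>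
    rel_mem (M := gk l k) (by rw [det_gk]; exact hlZ) (rel_hh hl.pos k τ) hτV
  have hNV : ∀ y ∈ Nbr l s, y ∈ V := by
    intro y hyN
    obtain ⟨k, rfl⟩ := (mem_nbr hl hτ).1 hyN
    exact hyτ k
  have hex : ∀ y : Nbr l s, ∃ k, V.valuation ((y : ℂ) - jj (hh hl.pos k t)) < 1 := by
    rintro ⟨y, hyN⟩
    obtain ⟨k, rfl⟩ := (mem_nbr hl hτ).1 hyN
    exact near_nbr hl hτV htV (by rw [hτ]; exact cg_symm ht) (det_gk l k) (rel_hh hl.pos k τ)
  choose κ hκ using hex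
  have hinj : Function.Injective κ := by
    intro y y' h
    have h1 := hκ y
    rw [h] at h1
    exact Subtype.ext (hinc y y.2 y' y'.2 (cg_trans h1 (cg_symm (hκ y'))))
  have hbij := hinj.bijective_of_nat_card_le (by
    rw [Nat.card_coe_set_eq, hcard, Nat.card_eq_fintype_card, Fintype.card_option,
      Fintype.card_fin])
  have hsep : ∀ k k' : Option (Fin l),
      V.valuation (jj (hh hl.pos k t) - jj (hh hl.pos k' t)) < 1 → k = k' := by
    intro k k' h
    obtain ⟨y, rfl⟩ := hbij.2 k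
    obtain ⟨y', rfl⟩ := hbij.2 k'
    have h1 := cg_trans (cg_trans (hκ y) h) (cg_symm (hκ y'))
    rw [Subtype.ext (hinc y y.2 y' y'.2 h1)]
  have hfix : ∀ y : Nbr l s, V.valuation ((y : ℂ) ^ p - y) < 1 → Fixd l M (κ y) := by
    intro y h
    have h1 := hκ y
    have h2 : V.valuation (jj (hh hl.pos (κ y) t) ^ p - jj (hh hl.pos (κ y) t)) < 1 :=
      cg_trans (cg_trans (cg_pow (hy _) (hNV y y.2) (cg_symm h1) p) h) h1
    obtain ⟨k', hk1, hk2⟩ := cong_fix hp hp2 hpV hl htV hM hrel h2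
    exact hk2 (hsep _ _ hk1).symm
  have hnot : ¬ Fixd l M (κ ⟨y₃, h₃⟩) := by
    intro h
    apply c₃
    have h1 := hκ ⟨y₃, h₃⟩
    have h2 := fix_cong hp hp2 hpV hl htV hM hrel h
    exact cg_trans (cg_trans (cg_pow (hNV y₃ h₃) (hy _) h1 p) h2) (cg_symm h1)
  rw [← hM]
  refine disc_of_fixd hl (k₁ := κ ⟨y₁, h₁⟩) (k₂ := κ ⟨y₂, h₂⟩) ?_ (hfix ⟨y₁, h₁⟩ c₁)
    (hfix ⟨y₂, h₂⟩ c₂) hnot
  intro h
  exact h₁₂ (congrArg Subtype.val (hinj h))

end Pool.Agent.H882
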