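import Pool.Agent.H882.NfLoc
import Pool.Agent.H882.CenNull

/-!
One set of density zero for vectors with several good primes in a set of primes with divergent sum
of the reciprocals; coordinates with respect to an integral basis.
-/

set_option autoImplicit false

namespace Pool.Agent.H882

open Polynomial NumberField

theorem Dvg.mono' {P P' : Set ℕ} (h : Dvg P') (B₀ : ℕ) (hP : ∀ p ∈ P', B₀ < p → p ∈ P) : Dvg P := by
  intro B ε hε
  obtain ⟨S, hS, h1⟩ := h (max B B₀) ε hε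
  refine ⟨S, fun p hp => ?_, h1⟩
  obtain ⟨h2, h3⟩ := hS p hp
  exact ⟨hP p h2 (lt_of_le_of_lt (le_max_right _ _) h3), lt_of_le_of_lt (le_max_left _ _) h3⟩

theorem null_g1 {N : ℕ} {P : Set ℕ} (hP : ∀ p ∈ P, p.Prime) (hdiv : Dvg P)
    (E : ∀ p : ℕ, Set (Fin N → ZMod p))
    (Bp : ∀ p q : ℕ, Set ((Fin N → ZMod p) × (Fin N → ZMod q))) {κ C : ℝ} (hκ0 : 0 ≤ κ)
    (hκ1 : κ < 1) (hC : 0 ≤ C) (B₀ : ℕ)
    (hE : ∀ p ∈ P, B₀ < p → ((E p).ncard : ℝ) ≤ κ * (p : ℝ) ^ N)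
    (hBp : ∀ p ∈ P, ∀ q ∈ P, B₀ < p → B₀ < q → p ≠ q →
      ((Bp p q).ncard : ℝ) ≤ C * (p : ℝ) ^ N * (q : ℝ) ^ N / q) (K : ℕ) :
    ∃ Nl : Set ((Fin N → ℤ) × ℕ), (∀ ε : ℝ, 0 < ε → ∃ H₀ : ℕ, ∀ H : ℕ, H₀ ≤ H →
      ({q : (Fin N → ℤ) × ℕ | q ∈ Nl ∧ (∀ i, |q.1 i| ≤ (H : ℤ)) ∧ q.2 ≤ H}.ncard : ℝ) ≤
        ε * (H : ℝ) ^ (N + 1)) ∧
      ∀ B : ℕ, ∃ T : ℕ, ∀ (s : Fin N → ℤ) (t : ℕ), 0 < t → (T ≤ t ∨ ∃ i, (T : ℤ) ≤ |s i|) →
        (s, t) ∉ Nl → G1 P E Bp K B s t := by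
  classical
  let ht : (Fin N → ℤ) × ℕ → ℕ := fun q => max (q.2 + 1) (Finset.univ.sup fun i => (q.1 i).natAbs)
  have hle : ∀ (q : (Fin N → ℤ) × ℕ) (H : ℕ), ht q ≤ H ↔
      (∀ i, |q.1 i| ≤ (H : ℤ)) ∧ q.2 + 1 ≤ H := by
    intro q H
    show max _ _ ≤ H ↔ _
    rw [max_le_iff, Finset.sup_le_iff, and_comm]
    refine and_congr ⟨fun h i => ?_, fun h i _ => ?_⟩ Iff.rfl
    · have := h i (Finset.mem_univ i)
      rw [Int.abs_eq_natAbs]
      exact_mod_cast this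
    · have := h i
      rw [Int.abs_eq_natAbs] at this
      exact_mod_cast this
  have hsub : ∀ H : ℕ, {q | ht q ≤ H} ⊆ ((bx N H ×ˢ Finset.range H :
      Finset ((Fin N → ℤ) × ℕ)) : Set ((Fin N → ℤ) × ℕ)) := by
    intro H q hq
    obtain ⟨h1, h2⟩ := (hle q H).1 hq
    rw [Finset.mem_coe, Finset.mem_product]
    exact ⟨mem_bx.2 h1, Finset.mem_range.2 h2⟩
  obtain ⟨Nl, hN1, hN2⟩ := exists_null2 ht (d := N + 1) (Nat.succ_ne_zero N) (c := 3 ^ N)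
    (by positivity) (fun H => (Finset.finite_toSet _).subset (hsub H))
    (fun H hH => by
      have h1 := Set.ncard_le_ncard (hsub H) (Finset.finite_toSet _)
      rw [Set.ncard_coe_finset, Finset.card_product, Finset.card_range] at h1
      have h2 : ({q | ht q ≤ H}.ncard : ℝ) ≤ (bx N H).card * H := by exact_mod_cast h1
      refine h2.trans ?_
      calc ((bx N H).card : ℝ) * H ≤ (3 * H) ^ N * H :=
            mul_le_mul_of_nonneg_right (card_bx hH) (Nat.cast_nonneg _)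
        _ = 3 ^ N * (H : ℝ) ^ (N + 1) := by
            rw [mul_pow, pow_succ]
            ring)
    (fun q => (Nat.succ_le_succ (Nat.zero_le _)).trans (le_max_left _ _))
    (fun B q => G1 P E Bp K B q.1 (q.2 + 1)) (fun B B' q hB h => G1_anti hB h)
    (fun B ε hε => by
      obtain ⟨H₀, hH₀⟩ := count_g1 hP hdiv E Bp hκ0 hκ1 hC B₀ hE hBp K B hε
      refine ⟨H₀, fun H hH => ?_⟩
      have h1 := hH₀ H hH
      have e : {q | ht q ≤ H ∧ ¬ G1 P E Bp K B q.1 (q.2 + 1)} =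
          {q : (Fin N → ℤ) × ℕ | (∀ i, |q.1 i| ≤ (H : ℤ)) ∧ q.2 + 1 ≤ H ∧
            ¬ G1 P E Bp K B q.1 (q.2 + 1)} := by
        ext q
        show ht q ≤ H ∧ _ ↔ _ ∧ _ ∧ _
        rw [hle, and_assoc]
      rw [e]
      exact h1)
  refine ⟨{q | 0 < q.2 ∧ (q.1, q.2 - 1) ∈ Nl}, fun ε hε => ?_, fun B => ?_⟩
  · obtain ⟨H₀, hH₀⟩ := hN1 ε hε
    refine ⟨H₀, fun H hH => ?_⟩
    refine le_trans ?_ (hH₀ H hH)
    have h1 : {q : (Fin N → ℤ) × ℕ | q ∈ {q : (Fin N → ℤ) × ℕ | 0 < q.2 ∧ (q.1, q.2 - 1) ∈ Nl} ∧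
        (∀ i, |q.1 i| ≤ (H : ℤ)) ∧ q.2 ≤ H} ⊆
        (fun q : (Fin N → ℤ) × ℕ => (q.1, q.2 + 1)) '' {q | q ∈ Nl ∧ ht q ≤ H} := by
      rintro ⟨s, t⟩ ⟨⟨h1, h2⟩, h3, h4⟩
      have h1' : 0 < t := h1
      have h4' : t ≤ H := h4
      have e : t - 1 + 1 = t := Nat.sub_add_cancel h1'
      refine ⟨(s, t - 1), ⟨h2, (hle _ _).2 ⟨h3, ?_⟩⟩, ?_⟩
      · show t - 1 + 1 ≤ H
        omega
      · show (s, t - 1 + 1) = (s, t)
        rw [e]
    have hfin : {q | q ∈ Nl ∧ ht q ≤ H}.Finite :=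
      ((Finset.finite_toSet _).subset (hsub H)).subset fun q hq => hq.2
    exact_mod_cast (Set.ncard_le_ncard h1 (hfin.image _)).trans (Set.ncard_image_le hfin)
  · obtain ⟨T, hT⟩ := hN2 B
    refine ⟨T, fun s t ht0 hTt hst => ?_⟩
    have e : t - 1 + 1 = t := Nat.sub_add_cancel ht0
    have h1 := hT (s, t - 1) ?_ ?_
    · have h2 : G1 P E Bp K B s (t - 1 + 1) := h1
      rw [e] at h2
      exact h2
    · show T ≤ max (t - 1 + 1) _
      rw [e]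
      rcases hTt with h | ⟨i, hi⟩
      · exact h.trans (le_max_left _ _)
      · refine le_trans ?_ (le_max_right _ _)
        have h3 : T ≤ (s i).natAbs := by
          rw [Int.abs_eq_natAbs] at hi
          exact_mod_cast hi
        exact h3.trans (Finset.le_sup (f := fun i => (s i).natAbs) (Finset.mem_univ i))
    · intro h
      exact hst ⟨ht0, h⟩

section

variable {K : Type} [Field K] [NumberField K] {n d : ℕ}

/-- the coordinates with respect to an integral basis -/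
noncomputable def crd (ω : Module.Basis (Fin d) ℤ (𝓞 K)) (s : Fin n → 𝓞 K) : Fin (n * d) → ℤ :=
  fun j => ω.repr (s (finProdFinEquiv.symm j).1) (finProdFinEquiv.symm j).2

theorem crd_inj (ω : Module.Basis (Fin d) ℤ (𝓞 K)) : Function.Injective (crd (n := n) ω) := by
  intro s s' h
  funext i
  apply ω.repr.injective
  ext k
  have h1 := congrFun h (finProdFinEquiv (i, k))
  unfold crd at h1
  rw [Equiv.symm_apply_apply] at h1
  exact h1

theorem LL_crd (ω : Module.Basis (Fin d) ℤ (𝓞 K)) {p : ℕ} (ρ : 𝓞 K →+* ZMod p)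
    (s : Fin n → 𝓞 K) (i : Fin n) :
    LL (fun k => ρ (ω k)) (red p (crd ω s)) i = ρ (s i) := by
  unfold LL red crd
  conv_rhs => rw [← ω.sum_repr (s i)]
  rw [map_sum]
  refine Finset.sum_congr rfl fun k _ => ?_
  rw [Equiv.symm_apply_apply, zsmul_eq_mul, map_mul, map_intCast]

theorem exists_unit_coord (ω : Module.Basis (Fin d) ℤ (𝓞 K)) {p : ℕ} (hp : p.Prime)
    (ρ : 𝓞 K →+* ZMod p) : ∃ k, ρ (ω k) ≠ 0 := by
  have : Fact p.Prime := ⟨hp⟩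
  by_contra h
  push Not at h
  have h1 : ρ 1 = 0 := by
    rw [← ω.sum_repr 1, map_sum]
    refine Finset.sum_eq_zero fun k _ => ?_
    rw [zsmul_eq_mul, map_mul, h k, mul_zero]
  rw [map_one] at h1
  exact one_ne_zero h1

end

end Pool.Agent.H882
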