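import Pool.Agent.H882.FyFrob
import Pool.Agent.H882.FyGal
import Pool.Agent.H882.CoreAll
import Pool.Agent.H882.NfNull

/-!
The Frobenius at many primes acts on the neighbours of given algebraic numbers as a given
automorphism.
-/

set_option autoImplicit false

namespace Pool.Agent.H882

open UpperHalfPlane H294ZP Function Pool.Agent.N135.ZO
open Pool.Agent.Y226 (ZZ ιZ ιZ_apply QA mem_QA iA nadd_lt norm_le_one_of_isIntegral)

theorem nbr_range {l : ℕ} (hl : l.Prime) {s : ℂ} {τ : ℍ} (hτ : jj τ = s) :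
    Nbr l s = Set.range fun k => jj (hh hl.pos k τ) := by
  ext y
  rw [mem_nbr hl hτ]
  constructor
  · rintro ⟨k, h⟩
    exact ⟨k, h.symm⟩
  · rintro ⟨k, h⟩
    exact ⟨k, h.symm⟩

theorem nbr_finite {l : ℕ} (hl : l.Prime) (s : ℂ) : (Nbr l s).Finite := by
  obtain ⟨τ, hτ⟩ := Pool.Agent.Q223.UV.jj_surj s
  rw [nbr_range hl hτ]
  exact Set.finite_range _

/-- the neighbours of an algebraic number are algebraic -/
theorem nbr_alg {l : ℕ} (hl : 0 < l) {s : ℂ} (hs : s ∈ QA) {y : ℂ} (h : y ∈ Nbr l s) :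
    y ∈ QA := by
  obtain ⟨A, τ, w, hA, hrel, hj, rfl⟩ := h
  have h1 := isogenous_integral τ w (A 0 0) (A 0 1) (A 1 0) (A 1 1)
    (by rw [← det_eq, hA]; exact_mod_cast hl) hrel
  obtain ⟨Q, hQ, hQx⟩ := h1
  have hle : ∀ z : Algebra.adjoin ℤ {jj τ}, (z : ℂ) ∈ QA := by
    intro z
    refine Algebra.adjoin_induction (p := fun z _ => z ∈ QA) ?_ ?_ ?_ ?_ z.2
    · intro x hx
      rw [Set.mem_singleton_iff] at hx
      rw [hx, hj]
      exact hs
    · intro r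
      exact intCast_mem QA r
    · intro x y _ _ hx hy
      exact QA.add_mem hx hy
    · intro x y _ _ hx hy
      exact QA.mul_mem hx hy
  obtain ⟨g, hg⟩ : ∃ g : Algebra.adjoin ℤ {jj τ} →+* QA, ∀ z, ((g z : QA) : ℂ) = z :=
    ⟨{ toFun := fun z => ⟨z, hle z⟩
       map_one' := rfl
       map_mul' := fun _ _ => rfl
       map_zero' := rfl
       map_add' := fun _ _ => rfl }, fun _ => rfl⟩
  have h2 : IsIntegral QA (jj w) := by
    refine ⟨Q.map g, hQ.map g, ?_⟩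
    rw [Polynomial.eval₂_map]
    have e : (algebraMap QA ℂ).comp g = algebraMap (Algebra.adjoin ℤ {jj τ}) ℂ :=
      RingHom.ext fun z => hg z
    rw [e]
    exact hQx
  have h3 : IsAlgebraic QA (jj w) := h2.isAlgebraic
  exact mem_QA.2 (h3.restrictScalars ℚ)

theorem gal_mem {l : ℕ} (hl : l.Prime) {s : QA} (γ : QA →+* QA) (hγ : γ s = s) {y : QA}
    (hy : (y : ℂ) ∈ Nbr l s) : ((γ y : QA) : ℂ) ∈ Nbr l s := by
  obtain ⟨τ, hτ⟩ := Pool.Agent.Q223.UV.jj_surj (s : ℂ)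
  obtain ⟨k, hk⟩ := (mem_nbr hl hτ).1 hy
  obtain ⟨k', hk'⟩ := gal_nbrQ hl γ hτ hγ (k := k) hk
  exact (mem_nbr hl hτ).2 ⟨k', hk'⟩

theorem alg_map (σ : ℂ →+* ℂ) {y : ℂ} (hy : y ∈ QA) : σ y ∈ QA :=
  mem_QA.2 ((mem_QA.1 hy).algHom σ.toRatAlgHom)

/-- the restriction to the algebraic numbers -/
noncomputable def sQ (σ : ℂ ≃+* ℂ) : QA ≃+* QA where
  toFun y := ⟨σ (y : ℂ), alg_map σ.toRingHom y.2⟩
  invFun y := ⟨σ.symm (y : ℂ), alg_map σ.symm.toRingHom y.2⟩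
  left_inv _ := Subtype.ext (σ.symm_apply_apply _)
  right_inv _ := Subtype.ext (σ.apply_symm_apply _)
  map_mul' _ _ := Subtype.ext (map_mul σ _ _)
  map_add' _ _ := Subtype.ext (map_add σ _ _)

theorem sQ_apply (σ : ℂ ≃+* ℂ) (y : QA) : ((sQ σ y : QA) : ℂ) = σ (y : ℂ) := rfl

section

variable {C : Type} [NormedField C] [IsUltrametricDist C]

theorem geo_lt {w : C} (hw : ‖w‖ = 1) (h : ‖1 - w‖ < 1) (j : ℕ) : ‖1 - w ^ j‖ < 1 := by
  induction j with
  | zero =>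
    rw [pow_zero, sub_self, norm_zero]
    exact one_pos
  | succ j ih =>
    have e : 1 - w ^ (j + 1) = (1 - w ^ j) + w ^ j * (1 - w) := by ring
    rw [e]
    refine nadd_lt ih ?_
    rw [norm_mul, norm_pow, hw, one_pow, one_mul]
    exact h

theorem root_cong {l p : ℕ} (hl : l.Prime) (hp : p.Prime) (hlp : l < p) (hp1 : ‖(p : C)‖ < 1)
    {ζ : C} (hζ : IsPrimitiveRoot ζ l) (h : ‖ζ - ζ ^ p‖ < 1) : l ∣ p - 1 := by
  by_contra hcon
  have hcop : (p - 1).Coprime l := ((hl.coprime_iff_not_dvd).2 hcon).symm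
  have hω := hζ.pow_of_coprime (p - 1) hcop
  have hn : ∀ {z : C}, z ^ l = 1 → ‖z‖ = 1 := by
    intro z hz
    have h1 : ‖z‖ ^ l = 1 := by rw [← norm_pow, hz, norm_one]
    exact (pow_eq_one_iff_of_nonneg (norm_nonneg _) hl.ne_zero).1 h1
  have h2 : ‖1 - ζ ^ (p - 1)‖ < 1 := by
    have e : ζ - ζ ^ p = ζ * (1 - ζ ^ (p - 1)) := by
      have h3 : ζ ^ p = ζ * ζ ^ (p - 1) := by
        rw [← pow_succ']
        congr 1
        have := hp.pos
        omega
      rw [h3]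
      ring
    rw [e, norm_mul, hn hζ.pow_eq_one, one_mul] at h
    exact h
  have h3 := hω.geom_sum_eq_zero hl.one_lt
  have h4 : (l : C) = ∑ j ∈ Finset.range l, (1 - (ζ ^ (p - 1)) ^ j) := by
    rw [Finset.sum_sub_distrib, h3, sub_zero, Finset.sum_const, Finset.card_range, nsmul_eq_mul,
      mul_one]
  have h5 : ‖((l : ℤ) : C)‖ < 1 := by
    push_cast
    rw [h4]
    have h6 : ∀ j ∈ Finset.range l, ‖1 - (ζ ^ (p - 1)) ^ j‖ < 1 := fun j _ =>
      geo_lt (hn hω.pow_eq_one) h2 j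
    refine Finset.sum_induction _ (fun z : C => ‖z‖ < 1) (fun a b ha hb => nadd_lt ha hb) ?_ h6
    rw [norm_zero]
    exact one_pos
  have h6 := dvd_of_norm hp hp1 h5
  have h7 := Nat.le_of_dvd hl.pos (Int.natCast_dvd_natCast.1 h6)
  omega

/-- an element which is congruent to its `p`-th power is congruent to an integer -/
theorem near_int {p : ℕ} (hp : p.Prime) (hp1 : ‖(p : C)‖ < 1) {x : C} (hx : ‖x‖ ≤ 1)
    (h : ‖x ^ p - x‖ < 1) : ∃ a : ℤ, ‖x - (a : C)‖ < 1 := by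
  have : Fact p.Prime := ⟨hp⟩
  by_contra hcon
  push Not at hcon
  obtain ⟨f, hf⟩ : ∃ f : Polynomial ℤ, f = ∏ a ∈ Finset.range p,
    (Polynomial.X - Polynomial.C (a : ℤ)) := ⟨_, rfl⟩
  have h1 : f.map (Int.castRingHom (ZMod p)) = Polynomial.X ^ p - Polynomial.X := by
    have hm : (Polynomial.X ^ p - Polynomial.X : Polynomial (ZMod p)).Monic :=
      Polynomial.monic_X_pow_sub (by
        rw [Polynomial.degree_X]
        exact_mod_cast hp.one_lt)
    have hr := FiniteField.roots_X_pow_card_sub_X (ZMod p)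
    rw [ZMod.card] at hr
    have hd : (Polynomial.X ^ p - Polynomial.X : Polynomial (ZMod p)).natDegree = p :=
      FiniteField.X_pow_card_sub_X_natDegree_eq (ZMod p) hp.one_lt
    have h2 := Polynomial.prod_multiset_X_sub_C_of_monic_of_roots_card_eq hm (by
      rw [hr, hd]
      show Finset.univ.card = p
      rw [Finset.card_univ, ZMod.card])
    rw [hr] at h2
    rw [← h2, hf, Polynomial.map_prod]
    simp only [Polynomial.map_sub, Polynomial.map_X, Polynomial.map_C]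
    show _ = ∏ a : ZMod p, (Polynomial.X - Polynomial.C a)
    refine Finset.prod_bij' (fun a _ => (a : ZMod p)) (fun z _ => z.val) (fun _ _ =>
      Finset.mem_univ _) (fun z _ => Finset.mem_range.2 (ZMod.val_lt z)) (fun a ha => ?_)
      (fun z _ => ZMod.natCast_zmod_val z) (fun a _ => ?_)
    · exact ZMod.val_cast_of_lt (Finset.mem_range.1 ha)
    · simp
  have h2 : (f - (Polynomial.X ^ p - Polynomial.X)).map (Int.castRingHom (ZMod p)) = 0 := by
    rw [Polynomial.map_sub, h1]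
    simp
  have h3 : ‖(f - (Polynomial.X ^ p - Polynomial.X)).eval₂ (Int.castRingHom C) x‖ < 1 := by
    rw [Polynomial.eval₂_eq_sum_range]
    refine Finset.sum_induction _ (fun z : C => ‖z‖ < 1) (fun a b ha hb => nadd_lt ha hb) (by
      rw [norm_zero]
      exact one_pos) fun i _ => ?_
    have h4 := congrArg (fun g => Polynomial.coeff g i) h2
    simp only [Polynomial.coeff_map, Polynomial.coeff_zero] at h4
    have h5 : (p : ℤ) ∣ (f - (Polynomial.X ^ p - Polynomial.X)).coeff i := by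
      rw [← ZMod.intCast_zmod_eq_zero_iff_dvd]
      exact h4
    rw [norm_mul, norm_pow]
    exact (mul_le_of_le_one_right (norm_nonneg _) (pow_le_one₀ (norm_nonneg _) hx)).trans_lt
      ((norm_le_p (C := C) h5).trans_lt hp1)
  have h4 : ‖f.eval₂ (Int.castRingHom C) x‖ < 1 := by
    have e : f.eval₂ (Int.castRingHom C) x =
        (f - (Polynomial.X ^ p - Polynomial.X)).eval₂ (Int.castRingHom C) x + (x ^ p - x) := by
      rw [Polynomial.eval₂_sub, Polynomial.eval₂_sub, Polynomial.eval₂_pow, Polynomial.eval₂_X]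
      ring
    rw [e]
    exact nadd_lt h3 h
  rw [hf, Polynomial.eval₂_finsetProd, norm_prod] at h4
  have h5 : ∀ a ∈ Finset.range p, ‖Polynomial.eval₂ (Int.castRingHom C) x
      (Polynomial.X - Polynomial.C (a : ℤ))‖ = 1 := by
    intro a _
    have e : Polynomial.eval₂ (Int.castRingHom C) x (Polynomial.X - Polynomial.C (a : ℤ)) =
        x - ((a : ℤ) : C) := by
      rw [Polynomial.eval₂_sub, Polynomial.eval₂_X, Polynomial.eval₂_C]
      rfl
    rw [e]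
    refine le_antisymm ?_ (hcon a)
    rw [sub_eq_add_neg]
    refine (IsUltrametricDist.norm_add_le_max _ _).trans (max_le hx ?_)
    rw [norm_neg]
    exact IsUltrametricDist.norm_intCast_le_one C _
  rw [Finset.prod_congr rfl h5, Finset.prod_const_one] at h4
  exact lt_irrefl _ h4

end

/-- Frobenius elements for algebraic numbers -/
theorem frob_alg (σ : QA ≃+* QA) (S : Finset QA) :
    ∃ P : Set ℕ, (∀ p ∈ P, p.Prime) ∧ Dvg P ∧ ∀ p ∈ P, ∀ (C : Type) [NormedField C]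
      [IsUltrametricDist C] (φ : QA →+* C), ‖(p : C)‖ < 1 → ∃ γ : QA ≃+* QA, ∀ y ∈ S,
        ‖φ (γ y)‖ ≤ 1 ∧ (y ≠ 0 → ‖φ (γ y)‖ = 1) ∧ ‖φ (γ (σ y)) - φ (γ y) ^ p‖ < 1 := by
  classical
  choose N T hN0 hT _ using exists_scale
  obtain ⟨P, hPp, hPd, hP⟩ := frob_fld QA σ (S.image fun y => (N y : QA) * y) fun y hy => by
    obtain ⟨z, -, rfl⟩ := Finset.mem_image.1 hy
    refine QA_of_int ?_
    have h1 : (((N z : QA) * z : QA) : ℂ) = ιZ (T z) := by
      rw [hT]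
      rfl
    rw [h1]
    exact (T z).2
  choose Bd hBd using fun w : QA => PI_alg w (Algebra.IsAlgebraic.isAlgebraic w)
  obtain ⟨B, hB⟩ : ∃ B : ℕ, B = ∑ y ∈ S, (Bd y + Bd y⁻¹ + N y) := ⟨_, rfl⟩
  refine ⟨{p | p ∈ P ∧ B < p}, fun p hp => hPp p hp.1,
    hPd.mono' B fun p hp hlt => ⟨hp, hlt⟩, ?_⟩
  rintro p ⟨hpP, hpB⟩ C _ _ φ hp1
  have hp := hPp p hpP
  obtain ⟨γ, hγ⟩ := hP p hpP C φ hp1
  refine ⟨γ, fun y hy => ?_⟩
  have hle : Bd y + Bd y⁻¹ + N y ≤ B := by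
    rw [hB]
    exact Finset.single_le_sum (f := fun y => Bd y + Bd y⁻¹ + N y) (fun _ _ => Nat.zero_le _) hy
  have h1 : ‖φ (γ y)‖ ≤ 1 :=
    norm_of_PI hp hp1 (φ.comp γ.toRingHom) (hBd y p hp (by omega))
  have h2 : ‖φ (γ y⁻¹)‖ ≤ 1 :=
    norm_of_PI hp hp1 (φ.comp γ.toRingHom) (hBd y⁻¹ p hp (by omega))
  refine ⟨h1, fun hy0 => ?_, ?_⟩
  · refine le_antisymm h1 ?_
    have h3 : φ (γ y) * φ (γ y⁻¹) = 1 := by
      rw [← map_mul, ← map_mul, mul_inv_cancel₀ hy0, map_one, map_one]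
    have h4 := congrArg norm h3
    rw [norm_mul, norm_one] at h4
    by_contra hcon
    push Not at hcon
    have h5 : ‖φ (γ y)‖ * ‖φ (γ y⁻¹)‖ < 1 :=
      (mul_le_of_le_one_right (norm_nonneg _) h2).trans_lt hcon
    exact absurd h4 h5.ne
  · have h3 := hγ ((N y : QA) * y) (Finset.mem_image_of_mem _ hy)
    simp only [map_mul, map_natCast] at h3
    have hNp : ¬ (p : ℤ) ∣ (N y : ℤ) := by
      intro h
      have := Nat.le_of_dvd (Nat.pos_of_ne_zero (hN0 y)) (Int.natCast_dvd_natCast.1 h)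
      omega
    have hN1 : ‖(N y : C)‖ = 1 := by
      have h6 := IsUltrametricDist.norm_intCast_le_one C (N y : ℤ)
      push_cast at h6
      refine le_antisymm h6 ?_
      by_contra h7
      push Not at h7
      have h8 : ‖(((N y : ℤ)) : C)‖ < 1 := by
        push_cast
        exact h7
      exact hNp (dvd_of_norm hp hp1 h8)
    have hfer : ‖(N y : C) ^ p - (N y : C)‖ < 1 := by
      have : Fact p.Prime := ⟨hp⟩
      have h4 : (p : ℤ) ∣ (N y : ℤ) ^ p - N y := by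
        rw [← ZMod.intCast_zmod_eq_zero_iff_dvd]
        push_cast
        rw [ZMod.pow_card, sub_self]
      have h5 := (norm_le_p (C := C) h4).trans_lt hp1
      push_cast at h5
      exact h5
    have h4 : (N y : C) * (φ (γ (σ y)) - φ (γ y) ^ p) =
        ((N y : C) * φ (γ (σ y)) - ((N y : C) * φ (γ y)) ^ p) +
          ((N y : C) ^ p - (N y : C)) * φ (γ y) ^ p := by ring
    have h5 : ‖(N y : C) * (φ (γ (σ y)) - φ (γ y) ^ p)‖ < 1 := by
      rw [h4]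
      refine nadd_lt h3 ?_
      rw [norm_mul, norm_pow]
      exact (mul_le_of_le_one_right (norm_nonneg _)
        (pow_le_one₀ (norm_nonneg _) h1)).trans_lt hfer
    rwa [norm_mul, hN1, one_mul] at h5

/-- The Frobenius on the neighbours. -/
theorem frob_nbr (σ : ℂ ≃+* ℂ) {ι : Type} [Finite ι] (l : ι → ℕ) (hl : ∀ i, (l i).Prime)
    (s : ι → QA) (hσ : ∀ i, σ (s i : ℂ) = s i) (X : Finset QA) :
    ∃ P : Set ℕ, (∀ p ∈ P, p.Prime) ∧ Dvg P ∧ ∀ p ∈ P, ∀ (C : Type) [NormedField C]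
      [IsUltrametricDist C] (φ : QA →+* C), ‖(p : C)‖ < 1 → ∃ γ : QA ≃+* QA,
      ∀ Ψ : ℂ →+* C, (∀ a : QA, Ψ (a : ℂ) = φ (γ a)) →
      (∀ i, ‖Ψ (s i : ℂ)‖ ≤ 1 ∧ ‖Ψ (s i : ℂ) ^ p - Ψ (s i : ℂ)‖ < 1) ∧
      (∀ x ∈ X, x ≠ 0 → ‖Ψ (x : ℂ)‖ = 1) ∧
      (∀ i, ∀ y ∈ Nbr (l i) (s i), ∀ y' ∈ Nbr (l i) (s i), ‖Ψ (y - y')‖ < 1 → y = y') ∧
      (∀ i, σ (Complex.exp (2 * Real.pi * Complex.I / l i)) =
        Complex.exp (2 * Real.pi * Complex.I / l i) → l i ∣ p - 1) ∧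
      ∀ i, ∀ y ∈ Nbr (l i) (s i), (‖Ψ (y ^ p - y)‖ < 1 ↔ σ y = y) := by
  classical
  have hQ : ∀ {y : ℂ}, IsIntegral ℤ y → y ∈ QA := fun h =>
    mem_QA.2 (h.tower_top (A := ℚ)).isAlgebraic
  have hζi : ∀ i, IsIntegral ℤ (Complex.exp (2 * Real.pi * Complex.I / l i)) := fun i =>
    (Complex.isPrimitiveRoot_exp (l i) (hl i).ne_zero).isIntegral (hl i).pos
  obtain ⟨ζ, hζ⟩ : ∃ ζ : ι → QA, ∀ i, (ζ i : ℂ) = Complex.exp (2 * Real.pi * Complex.I / l i) :=
    ⟨fun i => ⟨_, hQ (hζi i)⟩, fun _ => rfl⟩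
  have hfin : ({y : QA | ∃ i, (y : ℂ) ∈ Nbr (l i) (s i)}).Finite := by
    have h1 : (⋃ i, Nbr (l i) (s i)).Finite := Set.finite_iUnion fun i => nbr_finite (hl i) _
    refine (h1.preimage (f := fun y : QA => (y : ℂ)) (Subtype.val_injective.injOn)).subset ?_
    rintro y ⟨i, hi⟩
    exact Set.mem_iUnion.2 ⟨i, hi⟩
  obtain ⟨Y, hY⟩ : ∃ Y : Finset QA, ∀ y, y ∈ Y ↔ ∃ i, (y : ℂ) ∈ Nbr (l i) (s i) :=
    ⟨hfin.toFinset, fun y => hfin.mem_toFinset⟩
  have : Fintype ι := Fintype.ofFinite ι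
  obtain ⟨P, hPp, hPd, hP⟩ := frob_alg (sQ σ) (Y ∪ (Y ×ˢ Y).image (fun u => u.1 - u.2) ∪
    Finset.univ.image ζ ∪ Finset.univ.image s ∪ X)
  obtain ⟨B, hB⟩ : ∃ B : ℕ, B = ∑ i, l i := ⟨_, rfl⟩
  refine ⟨{p | p ∈ P ∧ B < p}, fun p hp => hPp p hp.1,
    hPd.mono' B fun p hp hlt => ⟨hp, hlt⟩, ?_⟩
  rintro p ⟨hpP, hpB⟩ C _ _ φ hp1
  have hp := hPp p hpP
  obtain ⟨γ, hγ⟩ := hP p hpP C φ hp1
  refine ⟨γ, fun Ψ hΨ => ?_⟩
  simp only [← hΨ] at hγ
  have hlift : ∀ i, ∀ y ∈ Nbr (l i) (s i), ∃ y' : QA, (y' : ℂ) = y ∧ y' ∈ Y := by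
    intro i y hy
    exact ⟨⟨y, nbr_alg (hl i).pos (s i).2 hy⟩, rfl, (hY _).2 ⟨i, hy⟩⟩
  have hsep : ∀ y ∈ Y, ∀ y' ∈ Y, ‖Ψ ((y : ℂ) - (y' : ℂ))‖ < 1 → y = y' := by
    intro y hy y' hy' h
    by_contra hne
    have h1 := (hγ (y - y') (Finset.mem_union_left _ (Finset.mem_union_left _
      (Finset.mem_union_left _ (Finset.mem_union_right _ (Finset.mem_image.2
        ⟨(y, y'), Finset.mem_product.2 ⟨hy, hy'⟩, rfl⟩)))))).2.1 (sub_ne_zero.2 hne)
    have h2 : (((y - y' : QA)) : ℂ) = (y : ℂ) - y' := rfl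
    rw [h2] at h1
    exact absurd h1 h.ne
  refine ⟨fun i => ?_, fun x hx hx0 => ?_, fun i y hy y' hy' h => ?_, fun i hσζ => ?_,
    fun i y hy => ?_⟩
  · obtain ⟨h1, -, h2⟩ := hγ (s i) (Finset.mem_union_left _ (Finset.mem_union_right _
      (Finset.mem_image_of_mem _ (Finset.mem_univ i))))
    refine ⟨h1, ?_⟩
    rw [sQ_apply, hσ i] at h2
    rw [← norm_neg, neg_sub]
    exact h2
  · exact (hγ x (Finset.mem_union_right _ hx)).2.1 hx0
  · obtain ⟨u, rfl, hu⟩ := hlift i y hy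
    obtain ⟨u', rfl, hu'⟩ := hlift i y' hy'
    rw [hsep u hu u' hu' h]
  · have hprim := Complex.isPrimitiveRoot_exp (l i) (hl i).ne_zero
    have h1 := (hγ (ζ i) (Finset.mem_union_left _ (Finset.mem_union_left _
      (Finset.mem_union_right _ (Finset.mem_image_of_mem _ (Finset.mem_univ i)))))).2.2
    rw [sQ_apply, hζ, hσζ] at h1
    refine root_cong (hl i) hp ?_ hp1 (ζ := Ψ (Complex.exp (2 * Real.pi * Complex.I / l i)))
      (hprim.map_of_injective Ψ.injective) h1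
    have := Finset.single_le_sum (f := l) (fun _ _ => Nat.zero_le _) (Finset.mem_univ i)
    omega
  · obtain ⟨u, rfl, hu⟩ := hlift i y hy
    have h1 := (hγ u (Finset.mem_union_left _ (Finset.mem_union_left _
      (Finset.mem_union_left _ (Finset.mem_union_left _ hu))))).2.2
    rw [sQ_apply] at h1
    have hfix : (sQ σ).toRingHom (s i) = s i := Subtype.ext (hσ i)
    have hmem : ((sQ σ u : QA) : ℂ) ∈ Nbr (l i) (s i) :=
      gal_mem (hl i) (sQ σ).toRingHom hfix hy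
    constructor
    · intro h
      have h4 : ‖Ψ (((sQ σ u : QA) : ℂ) - (u : ℂ))‖ < 1 := by
        have e : Ψ (((sQ σ u : QA) : ℂ) - (u : ℂ)) =
            (Ψ (σ (u : ℂ)) - Ψ (u : ℂ) ^ p) + Ψ ((u : ℂ) ^ p - u) := by
          rw [sQ_apply, map_sub, map_sub, map_pow]
          ring
        rw [e]
        exact nadd_lt h1 h
      have h5 := hsep _ ((hY _).2 ⟨i, hmem⟩) u hu h4
      have h7 := congrArg (fun z : QA => (z : ℂ)) h5
      exact h7
    · intro h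
      rw [h] at h1
      rw [map_sub, map_pow, ← norm_neg, neg_sub]
      exact h1

end Pool.Agent.H882
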