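import Pool.Agent.H882.FyCore

/-!
The primes of one type: the discriminants of the canonical lifts of the coordinates of the centre have
prescribed quadratic characters.
-/

set_option autoImplicit false

namespace Pool.Agent.H882

open UpperHalfPlane H294ZP Function Pool.Agent.N135.ZO
open Pool.Agent.Y226 (QA)

/-- the Galois condition for the centre -/
def Sep {n : ℕ} (s : Fin n → ℂ) (ℓ : Fin (n + 1) → Fin n → ℕ) (σ : Fin (n + 1) → ℂ ≃+* ℂ) : Prop :=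
  (∀ a k, σ a (s k) = s k) ∧
  (∀ a i, (ℓ a i).Prime ∧ ℓ a i % 4 = 1 ∧ σ a (Complex.exp (2 * Real.pi * Complex.I / ℓ a i)) =
    Complex.exp (2 * Real.pi * Complex.I / ℓ a i)) ∧
  (∀ a i k, (Nbr (ℓ a i) (s k)).ncard = ℓ a i + 1) ∧
  (∀ a i, ∀ y ∈ Nbr (ℓ a i) (s i), σ a y ≠ y) ∧
  ∀ a i b k, (b, k) ≠ (a, i) → {y | y ∈ Nbr (ℓ a i) (s k) ∧ σ b y = y}.ncard = 2

theorem sqmod_neg {l p : ℕ} (hl : l.Prime) (hl4 : l % 4 = 1) (hp : 0 < p) (hlp : l ∣ p - 1) :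
    SqMod l (0 ^ 2 - 4 * p) := by
  have : Fact l.Prime := ⟨hl⟩
  obtain ⟨u, hu⟩ := ZMod.exists_sq_eq_neg_one_iff.2 (show l % 4 ≠ 3 by omega)
  refine ⟨2 * (u.val : ℤ), ?_⟩
  rw [← ZMod.intCast_zmod_eq_zero_iff_dvd]
  have hp1 : (p : ZMod l) = 1 := by
    have h1 : ((p - 1 : ℕ) : ZMod l) = 0 := (ZMod.natCast_eq_zero_iff _ _).2 hlp
    have h2 : ((p - 1 + 1 : ℕ) : ZMod l) = 1 := by
      rw [Nat.cast_add, h1, zero_add, Nat.cast_one]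
    rwa [Nat.sub_add_cancel hp] at h2
  push_cast
  rw [hp1, ZMod.natCast_zmod_val]
  linear_combination (4 : ZMod l) * hu

theorem type_primes {n : ℕ} {s : Fin n → QA} (hs : ∀ i, s i ≠ 0 ∧ s i ≠ 1728)
    {ℓ : Fin (n + 1) → Fin n → ℕ} {σ : Fin (n + 1) → ℂ ≃+* ℂ}
    (h : Sep (fun i => (s i : ℂ)) ℓ σ) (b : Fin (n + 1)) :
    ∃ P : Set ℕ, (∀ p ∈ P, p.Prime ∧ 3 < p) ∧ Dvg P ∧ ∀ p ∈ P, ∀ (C : Type) [NormedField C]
      [IsUltrametricDist C] (φ : QA →+* C), ‖(p : C)‖ < 1 → ∃ γ : QA ≃+* QA,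
      ∀ Ψ : ℂ →+* C, (∀ a : QA, Ψ (a : ℂ) = φ (γ a)) →
      (∀ i, ‖Ψ (s i : ℂ)‖ ≤ 1 ∧ ‖Ψ (s i : ℂ) ^ p - Ψ (s i : ℂ)‖ < 1) ∧
      (∀ i, ‖Ψ (s i : ℂ)‖ = 1 ∧ ‖Ψ ((s i - 1728 : QA) : ℂ)‖ = 1) ∧
      ∀ (k : Fin n) (t : ℍ) (M : M2), M.det = p → Rel M t t → ‖Ψ (jj t) - Ψ (s k : ℂ)‖ < 1 →
        M.trace ≠ 0 ∧ ∀ a i, ((b, k) = (a, i) → ¬ SqMod (ℓ a i) (M.trace ^ 2 - 4 * p)) ∧
          ((b, k) ≠ (a, i) → SqModU (ℓ a i) (M.trace ^ 2 - 4 * p)) := by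
  classical
  obtain ⟨h0, h1, h2, h3, h4⟩ := h
  obtain ⟨P, hPp, hPd, hP⟩ := frob_nbr (σ b) (ι := (Fin (n + 1) × Fin n) × Fin n)
    (fun j => ℓ j.1.1 j.1.2) (fun j => (h1 _ _).1) (fun j => s j.2) (fun j => h0 b j.2)
    (Finset.univ.image s ∪ Finset.univ.image fun i => s i - 1728)
  refine ⟨{p | p ∈ P ∧ 3 < p}, fun p hp => ⟨hPp p hp.1, hp.2⟩,
    hPd.mono' 3 fun p hp hlt => ⟨hp, hlt⟩, ?_⟩
  rintro p ⟨hpP, hp3⟩ C _ _ φ hp1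
  have hp := hPp p hpP
  have hp2 : p ≠ 2 := by omega
  obtain ⟨γ, hγ⟩ := hP p hpP C φ hp1
  refine ⟨γ, fun Ψ hΨ => ?_⟩
  obtain ⟨hsp, hX, hinc, hroot, hiff⟩ := hγ Ψ hΨ
  refine ⟨fun i => hsp ((0, i), i), fun i => ⟨?_, ?_⟩, ?_⟩
  · exact hX _ (Finset.mem_union_left _ (Finset.mem_image_of_mem _ (Finset.mem_univ i))) (hs i).1
  · exact hX _ (Finset.mem_union_right _ (Finset.mem_image_of_mem (fun i => s i - 1728)
      (Finset.mem_univ i))) (sub_ne_zero.2 (hs i).2)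
  intro k t M hM hrel ht
  have hpV : (VF Ψ).valuation (p : ℂ) < 1 := by
    rw [VF_lt_one, map_natCast]
    exact hp1
  have htV : (VF Ψ).valuation (jj t - s k) < 1 := by
    rw [VF_lt_one, map_sub]
    exact ht
  have hsV : (s k : ℂ) ∈ VF Ψ := (hsp ((0, k), k)).1
  obtain ⟨τ, hτ⟩ := Pool.Agent.Q223.UV.jj_surj (s k : ℂ)
  have hns : ∀ a i, (b, k) = (a, i) → ¬ SqMod (ℓ a i) (M.trace ^ 2 - 4 * p) := by
    intro a i hai
    rw [Prod.mk.injEq] at hai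
    obtain ⟨rfl, rfl⟩ := hai
    have hl2 : ℓ b k ≠ 2 := by
      have := (h1 b k).2.1
      omega
    refine loc_ns hp hp2 hpV (h1 b k).1 hl2 hsV hτ hM hrel htV fun y hy hlt => ?_
    rw [VF_lt_one] at hlt
    exact h3 b k y hy ((hiff ((b, k), k) y hy).1 hlt)
  refine ⟨fun htr => ?_, fun a i => ⟨hns a i, fun hai => ?_⟩⟩
  · refine hns b k rfl ?_
    rw [htr]
    refine sqmod_neg (h1 b k).1 (h1 b k).2.1 hp.pos ?_
    exact hroot ((b, k), k) (h1 b k).2.2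
  · have hl5 : 5 ≤ ℓ a i := by
      have h5 := (h1 a i).2.1
      have h6 := (h1 a i).1.two_le
      omega
    have h5 := h4 a i b k hai
    obtain ⟨z₁, z₂, hz, hzz⟩ := Set.ncard_eq_two.1 h5
    have m1 : z₁ ∈ {y | y ∈ Nbr (ℓ a i) (s k) ∧ σ b y = y} := by
      rw [hzz]
      exact Set.mem_insert _ _
    have m2 : z₂ ∈ {y | y ∈ Nbr (ℓ a i) (s k) ∧ σ b y = y} := by
      rw [hzz]
      exact Set.mem_insert_of_mem _ rfl
    obtain ⟨z₃, m3, m3'⟩ := Set.exists_mem_notMem_of_ncard_lt_ncard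
      (s := {y | y ∈ Nbr (ℓ a i) (s k) ∧ σ b y = y}) (t := Nbr (ℓ a i) (s k)) (by
        rw [h5, h2 a i k]
        omega) ((nbr_finite (h1 a i).1 (s k)).subset fun y hy => hy.1)
    have hiff' := hiff ((a, i), k)
    refine loc_sp hp hp2 hpV (h1 a i).1 hsV hτ hM hrel htV (h2 a i k)
      (fun y hy y' hy' hlt => ?_) m1.1 m2.1 m3 hz ?_ ?_ ?_
    · rw [VF_lt_one] at hlt
      exact hinc ((a, i), k) y hy y' hy' hlt
    · rw [VF_lt_one]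
      exact (hiff' z₁ m1.1).2 m1.2
    · rw [VF_lt_one]
      exact (hiff' z₂ m2.1).2 m2.2
    · rw [VF_lt_one]
      exact fun h6 => m3' ⟨m3, (hiff' z₃ m3).1 h6⟩

/-- the local data at the primes of all types -/
theorem fy_local {n : ℕ} {s : Fin n → QA} (hs : ∀ i, s i ≠ 0 ∧ s i ≠ 1728)
    {ℓ : Fin (n + 1) → Fin n → ℕ} {σ : Fin (n + 1) → ℂ ≃+* ℂ}
    (h : Sep (fun i => (s i : ℂ)) ℓ σ) :
    ∃ (P : Fin (n + 1) → Set ℕ) (Γ : Fin (n + 1) → ℕ → Fin n → Set ℂ),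
      (∀ a, ∀ p ∈ P a, p.Prime) ∧ (∀ a, Dvg (P a)) ∧
      (∀ a, ∀ p ∈ P a, ∃ (C : Type) (_ : NormedField C) (_ : IsUltrametricDist C)
        (_ : CompleteSpace C) (_ : CharZero C) (_ : IsAlgClosed C) (φ₀ : QA →+* C),
          ‖(p : C)‖ = (p : ℝ)⁻¹ ∧ CoreO n φ₀ s (Γ a p)) ∧
      ∀ a b, a ≠ b → ∀ p ∈ P a, ∀ q ∈ P b, ∀ i, ∀ z ∈ Γ a p i, z ∉ Γ b q i := by
  classical
  choose P hP1 hP2 hP3 using type_primes hs h
  obtain ⟨-, hS1, -, -, -⟩ := h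
  have hdata : ∀ (a : Fin (n + 1)) (p : ℕ), ∃ (t : Fin n → ℍ) (M : Fin n → M2), p ∈ P a →
      (∀ i, (M i).det = p) ∧ (∀ i, Rel (M i) (t i) (t i)) ∧
      (∀ i a' i', ((a, i) = (a', i') → ¬ SqMod (ℓ a' i') ((M i).trace ^ 2 - 4 * p)) ∧
          ((a, i) ≠ (a', i') → SqModU (ℓ a' i') ((M i).trace ^ 2 - 4 * p))) ∧
      ∃ (C : Type) (_ : NormedField C) (_ : IsUltrametricDist C)
        (_ : CompleteSpace C) (_ : CharZero C) (_ : IsAlgClosed C) (φ₀ : QA →+* C),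
          ‖(p : C)‖ = (p : ℝ)⁻¹ ∧
            CoreO n φ₀ s fun i => {z | Isog (jj (t i)) z ∧ ∃ τ : ℍ, IsCM τ ∧ jj τ = z} := by
    intro a p
    by_cases hpP : p ∈ P a
    swap
    · exact ⟨fun _ => UpperHalfPlane.I, fun _ => 1, fun h => absurd h hpP⟩
    obtain ⟨hp, hp3⟩ := hP1 a p hpP
    have : Fact p.Prime := ⟨hp⟩
    obtain ⟨C, i1, i2, i3, i4, i5, φ, hpC⟩ := Y226.exists_padic p
    have hp1 : ‖(p : C)‖ < 1 := by
      rw [hpC]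
      exact inv_lt_one_of_one_lt₀ (by exact_mod_cast hp.one_lt)
    have hp0 : 0 < ‖(p : C)‖ := by
      rw [hpC]
      exact inv_pos.2 (by exact_mod_cast hp.pos)
    obtain ⟨γ, hγ⟩ := hP3 a p hpP C φ hp1
    obtain ⟨φ₀, hφ₀⟩ : ∃ φ₀ : QA →+* C, ∀ y, φ₀ y = φ (γ y) := ⟨φ.comp γ.toRingHom, fun _ => rfl⟩
    have hpQ : 1 < ‖φ₀ ((p : QA)⁻¹)‖ := by
      rw [map_inv₀, map_natCast, norm_inv]
      exact (one_lt_inv₀ hp0).2 hp1
    obtain ⟨Ψ, hΨ, -⟩ := exists_ext φ₀ ((p : QA)⁻¹) hpQ (fun i : Empty => (0 : ℂ))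
      (by
        rw [algebraicIndependent_empty_type_iff]
        exact (algebraMap QA ℂ).injective) 0
    obtain ⟨c1, c2, c3⟩ := hγ Ψ fun y => by rw [hΨ, hφ₀]
    obtain ⟨t, M, hM, hrel, hnear⟩ := exists_lifts hp hp3 hp1 Ψ s c1
    have hty := fun i => c3 i (t i) (M i) (hM i) (hrel i) (hnear i)
    refine ⟨t, M, fun _ => ⟨hM, hrel, fun i => (hty i).2, C, i1, i2, i3, i4, i5, φ₀, hpC, ?_⟩⟩
    refine fy_core hp hp3 φ₀ hp1 s (fun i => ?_) (fun i => ?_) t M hM hrel (fun i => (hty i).1) Ψ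
      hΨ hnear fun i k hik hiso => ?_
    · rw [← hΨ]
      exact (c2 i).1
    · rw [← hΨ]
      exact (c2 i).2
    · obtain ⟨Z, hZ⟩ := sq_isog2 hp (z := jj (t i)) (z' := jj (t k))
        ⟨_, _, hM _, rfl, hrel _, rfl⟩ ⟨_, _, hM _, rfl, hrel _, rfl⟩ hiso
      refine sq_contra (hS1 a i).1 hZ (((hty i).2 a i).1 rfl) (((hty k).2 a i).2 ?_)
      intro h2
      rw [Prod.mk.injEq] at h2
      exact hik h2.2.symm
  choose t M hdata using hdata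
  refine ⟨P, fun a p i => {z | Isog (jj (t a p i)) z ∧ ∃ τ : ℍ, IsCM τ ∧ jj τ = z},
    fun a p hp => (hP1 a p hp).1, hP2, fun a p hp => (hdata a p hp).2.2.2, ?_⟩
  intro a b hab p hpP q hqP i z hz hz'
  obtain ⟨hM, hrel, hty, -⟩ := hdata a p hpP
  obtain ⟨hM', hrel', hty', -⟩ := hdata b q hqP
  obtain ⟨Z, hZ⟩ := sq_isog2 (hP1 a p hpP).1 (z := jj (t a p i)) (z' := jj (t b q i))
    ⟨_, _, hM _, rfl, hrel _, rfl⟩ ⟨_, _, hM' _, rfl, hrel' _, rfl⟩ (hz.1.trans hz'.1.symm)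
  refine sq_contra (hS1 a i).1 hZ ((hty i a i).1 rfl) ((hty' i a i).2 ?_)
  intro h5
  rw [Prod.mk.injEq] at h5
  exact hab h5.1.symm

/-- one null set: all other numbers are divisible by large primes of all types -/
theorem fx_null {n : ℕ} (P : Fin (n + 1) → Set ℕ) (hP : ∀ a, ∀ p ∈ P a, p.Prime)
    (hd : ∀ a, Dvg (P a)) : ∃ N : Set ℕ, (∀ ε : ℝ, 0 < ε → ∃ H₀ : ℕ, ∀ H : ℕ, H₀ ≤ H →
      ((N ∩ Set.Icc 0 H).ncard : ℝ) ≤ ε * H) ∧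
      ∀ B : ℕ, ∃ T : ℕ, ∀ t, T ≤ t → t ∉ N → ∀ a, ∃ p ∈ P a, B < p ∧ p ∣ t := by
  classical
  have h1 : ∀ a, ∃ N : Set ((Fin 0 → ℤ) × ℕ), (∀ ε : ℝ, 0 < ε → ∃ H₀ : ℕ, ∀ H : ℕ, H₀ ≤ H →
      ({q : (Fin 0 → ℤ) × ℕ | q ∈ N ∧ (∀ i, |q.1 i| ≤ (H : ℤ)) ∧ q.2 ≤ H}.ncard : ℝ) ≤
        ε * (H : ℝ) ^ (0 + 1)) ∧
      ∀ B : ℕ, ∃ T : ℕ, ∀ (s : Fin 0 → ℤ) (t : ℕ), 0 < t → (T ≤ t ∨ ∃ i, (T : ℤ) ≤ |s i|) →
        (s, t) ∉ N → G1 (P a) (fun _ => ∅) (fun _ _ => ∅) 1 B s t := fun a =>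
    null_g1 (hP a) (hd a) (fun _ => ∅) (fun _ _ => ∅) (κ := 1 / 2) (C := 0) (by norm_num)
      (by norm_num) le_rfl 0 (fun p _ _ => by simp) (fun p _ q _ _ _ _ => by simp) 1
  choose N hN hNT using h1
  refine ⟨{t | ∃ a, ((fun i => i.elim0 : Fin 0 → ℤ), t) ∈ N a}, fun ε hε => ?_, fun B => ?_⟩
  · have hn : (0 : ℝ) < (n : ℝ) + 1 := by positivity
    choose H₀ hH₀ using fun a => hN a (ε / (n + 1)) (div_pos hε hn)
    refine ⟨∑ a, H₀ a, fun H hH => ?_⟩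
    have hle : ∀ a, H₀ a ≤ H := fun a =>
      (Finset.single_le_sum (f := H₀) (fun _ _ => Nat.zero_le _) (Finset.mem_univ a)).trans hH
    have hsub : {t | ∃ a, ((fun i => i.elim0 : Fin 0 → ℤ), t) ∈ N a} ∩ Set.Icc 0 H ⊆
        ⋃ a ∈ (Finset.univ : Finset (Fin (n + 1))),
          {t : ℕ | ((fun i => i.elim0 : Fin 0 → ℤ), t) ∈ N a ∧ t ≤ H} := by
      rintro t ⟨⟨a, ha⟩, -, ht⟩
      exact Set.mem_iUnion₂.2 ⟨a, Finset.mem_univ a, ha, ht⟩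
    have hfin : ∀ a, {t : ℕ | ((fun i => i.elim0 : Fin 0 → ℤ), t) ∈ N a ∧ t ≤ H}.Finite :=
      fun a => (Set.finite_Icc 0 H).subset fun t ht => ⟨Nat.zero_le _, ht.2⟩
    have hcard : ∀ a, ({t : ℕ | ((fun i => i.elim0 : Fin 0 → ℤ), t) ∈ N a ∧ t ≤ H}.ncard : ℝ) ≤
        ε / (n + 1) * H := by
      intro a
      have h2 := hH₀ a H (hle a)
      rw [zero_add, pow_one] at h2
      refine le_trans ?_ h2
      have h3 : {q : (Fin 0 → ℤ) × ℕ | q ∈ N a ∧ (∀ i, |q.1 i| ≤ (H : ℤ)) ∧ q.2 ≤ H}.Finite := by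
        have h4 : (Set.Icc 0 H).Finite := Set.finite_Icc 0 H
        refine ((Set.finite_univ (α := Fin 0 → ℤ)).prod h4).subset ?_
        rintro q ⟨-, -, h5⟩
        exact ⟨trivial, Nat.zero_le _, h5⟩
      exact_mod_cast Set.ncard_le_ncard_of_injOn (fun t => ((fun i => i.elim0 : Fin 0 → ℤ), t))
        (by
          rintro t ⟨h5, h6⟩
          exact ⟨h5, fun i => i.elim0, h6⟩)
        (by
          intro t _ t' _ h5
          exact (Prod.mk.injEq _ _ _ _ ▸ h5).2) h3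
    have h2 := (Set.ncard_le_ncard hsub (Set.Finite.biUnion (Finset.finite_toSet _)
      fun a _ => hfin a)).trans (Finset.set_ncard_biUnion_le Finset.univ _)
    have h3 : (((∑ a : Fin (n + 1), {t : ℕ | ((fun i => i.elim0 : Fin 0 → ℤ), t) ∈ N a ∧
        t ≤ H}.ncard) : ℕ) : ℝ) ≤ ε * H := by
      push_cast
      calc _ ≤ ∑ a : Fin (n + 1), ε / (n + 1) * H := Finset.sum_le_sum fun a _ => hcard a
        _ = ε * H := by
          rw [Finset.sum_const, Finset.card_univ, Fintype.card_fin, nsmul_eq_mul]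
          push_cast
          field_simp
    exact le_trans (by exact_mod_cast h2) h3
  · choose T hT using fun a => hNT a B
    refine ⟨∑ a, T a + 1, fun t ht htN a => ?_⟩
    have hle : T a ≤ ∑ a, T a :=
      Finset.single_le_sum (f := T) (fun _ _ => Nat.zero_le _) (Finset.mem_univ a)
    obtain ⟨f, -, hf, -⟩ := hT a (fun i => i.elim0) t (by omega) (Or.inl (by omega))
      fun h => htN ⟨a, h⟩
    obtain ⟨h1, h2, h3, -⟩ := hf 0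
    exact ⟨f 0, h1, h2, h3⟩

end Pool.Agent.H882
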