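import Pool.Agent.H882.FzMaster
import Pool.Agent.H882.FmFam

/-!
The coordinates of the members of a degenerating family.
-/

set_option autoImplicit false

namespace Pool.Agent.H882

open UpperHalfPlane H294ZP Function Cardinal
open Pool.Agent.Y226

theorem fam_bad {F : Subfield ℂ} {n q m : ℕ} (expo : Finset (Fin n) → Fin n → ℕ)
    (lead : Finset (Fin n) → F) (rest : Finset (Fin n) → MvPolynomial (Fin q ⊕ Fin n) F)
    (expo_eq_zero : ∀ J i, i ∉ J → expo J i = 0) (lead_ne_zero : ∀ J, lead J ≠ 0)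
    (degree_le : ∀ J i, (rest J).degreeOf (Sum.inr i) ≤ expo J i) :
    ∃ S : Finset ℂ, (∀ b ∈ S, b ≠ 0) ∧ (∀ b ∈ S, b ∈ F) ∧ ∃ B : ℕ, ∀ p : ℕ, p.Prime → B < p →
      ∀ (C : Type) [NormedField C] [IsUltrametricDist C] [CharZero C] (Φ : ℂ →+* C),
        ‖(p : C)‖ = (p : ℝ)⁻¹ → (∀ b ∈ S, ‖Φ b‖ = 1) → ∀ t : ℕ, p ∣ t → ∀ lam : Fin q → ℂ,
          (∀ i, IsIntegral ℤ (lam i)) → ∀ x : Fin n → ℂ, (∀ J : Finset (Fin n), J.card = m + 1 →
            (lead J : ℂ) * ∏ i, x i ^ expo J i +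
              (t : ℂ) * MvPolynomial.aeval (Sum.elim lam x) (rest J) = 0) →
            ∃ Bad : Finset (Fin n), Bad.card ≤ m ∧ ∀ i, i ∉ Bad → ‖Φ (x i)‖ < 1 := by
  classical
  let S : Finset ℂ := (Finset.univ.image fun J : Finset (Fin n) => ((lead J : F) : ℂ)) ∪
    Finset.univ.biUnion fun J : Finset (Fin n) =>
      (rest J).support.image fun v => (((rest J).coeff v : F) : ℂ)
  have hne : ∀ c : F, c ≠ 0 → (c : ℂ) ≠ 0 := fun c hc h => hc (Subtype.ext h)
  have hS0 : ∀ b ∈ S, b ≠ 0 := by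
    intro b hb
    rcases Finset.mem_union.1 hb with hb | hb
    · obtain ⟨J, -, rfl⟩ := Finset.mem_image.1 hb
      exact hne _ (lead_ne_zero J)
    · obtain ⟨J, -, hJ⟩ := Finset.mem_biUnion.1 hb
      obtain ⟨v, hv, rfl⟩ := Finset.mem_image.1 hJ
      exact hne _ (MvPolynomial.mem_support_iff.1 hv)
  have hSF : ∀ b ∈ S, b ∈ F := by
    intro b hb
    rcases Finset.mem_union.1 hb with hb | hb
    · obtain ⟨J, -, rfl⟩ := Finset.mem_image.1 hb
      exact Subtype.property _
    · obtain ⟨J, -, hJ⟩ := Finset.mem_biUnion.1 hb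
      obtain ⟨v, hv, rfl⟩ := Finset.mem_image.1 hJ
      exact Subtype.property _
  refine ⟨S, hS0, hSF, (∑ J, ∑ i, expo J i) + 1, fun p p1 hpB C' _ _ _ Φ hpC g3 t hpt lam hlam x
    hxm => ?_⟩
  have hp1 : ‖(p : C')‖ < 1 := by
    rw [hpC]
    exact inv_lt_one_of_one_lt₀ (by exact_mod_cast p1.one_lt)
  have hp0 : 0 < ‖(p : C')‖ := by
    rw [hpC]
    exact inv_pos.2 (by exact_mod_cast p1.pos)
  refine ⟨Finset.univ.filter fun i => ¬ ‖Φ (x i)‖ ^ (p - 1) < ‖(p : C')‖, ?_, fun i hi => ?_⟩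
  · by_contra hcard
    rw [not_le] at hcard
    obtain ⟨J, hJ1, hJ2⟩ := Finset.exists_subset_card_eq (Nat.succ_le_of_lt hcard)
    have hmem := hxm J hJ2
    have key : ∃ i ∈ J, ‖Φ (x i)‖ ^ (p - 1) < ‖(p : C')‖ := by
      refine one_J (p := p) (N := 0) (M := 0) hp1 hp0 Φ J (expo J) (expo_eq_zero J)
        (lead J : ℂ) ?_
        (MvPolynomial.rename Sum.inr (MvPolynomial.map (algebraMap F ℂ) (rest J))) ?_ ?_
        (fun i => i.elim0) (fun i => i.elim0) lam
        (fun i => norm_le_one_of_isIntegral Φ (hlam i)) x (t : ℂ) ?_ ?_ ?_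
      · exact g3 _ (Finset.mem_union_left _ (Finset.mem_image_of_mem _ (Finset.mem_univ J)))
      · intro v hv
        obtain ⟨v', rfl, hv'⟩ := MvPolynomial.coeff_rename_ne_zero _ _ _
          (MvPolynomial.mem_support_iff.1 hv)
        rw [MvPolynomial.coeff_rename_mapDomain _ Sum.inr_injective, MvPolynomial.coeff_map]
        rw [MvPolynomial.coeff_map] at hv'
        refine (g3 _ (Finset.mem_union_right _ (Finset.mem_biUnion.2 ⟨J, Finset.mem_univ J,
          Finset.mem_image.2 ⟨v', ?_, rfl⟩⟩))).le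
        rw [MvPolynomial.mem_support_iff]
        intro h
        rw [h, map_zero] at hv'
        exact hv' rfl
      · intro i
        rw [MvPolynomial.degreeOf_rename_of_injective Sum.inr_injective,
          MvPolynomial.degreeOf_le_iff]
        intro v hv
        exact (MvPolynomial.monomial_le_degreeOf _
          (MvPolynomial.support_map_subset _ _ hv)).trans (degree_le J i)
      · obtain ⟨c', hc'⟩ := hpt
        rw [hc', map_natCast]
        push_cast
        rw [norm_mul]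
        refine mul_le_of_le_one_right (norm_nonneg _) ?_
        simpa using IsUltrametricDist.norm_intCast_le_one C' (c' : ℤ)
      · rw [MvPolynomial.eval_rename, MvPolynomial.eval_map, ← MvPolynomial.aeval_def]
        exact hmem
      · have h1 : ∑ i, expo J i ≤ ∑ J, ∑ i, expo J i :=
          Finset.single_le_sum (f := fun J => ∑ i, expo J i) (fun _ _ => Nat.zero_le _)
            (Finset.mem_univ J)
        omega
    obtain ⟨i, hi, hi'⟩ := key
    exact (Finset.mem_filter.1 (hJ1 hi)).2 hi'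
  · have hi' : ‖Φ (x i)‖ ^ (p - 1) < ‖(p : C')‖ := by
      by_contra h1
      exact hi (Finset.mem_filter.2 ⟨Finset.mem_univ _, h1⟩)
    exact wk_lt_one hp1 hi'

end Pool.Agent.H882
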