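import Pool.Agent.H882.FyFrob
import Pool.Agent.H882.FyNbr
import Pool.Agent.H882.FyGal

/-!
Chebotarev: algebraic numbers with rational residues.
-/

set_option autoImplicit false

namespace Pool.Agent.H882

open Pool.Agent.Y226 (QA nadd_lt norm_le_one_of_isIntegral)

/-- Hints: `exists_scale` (or `IsAlgebraic.exists_integral_multiple`) gives `N ≠ 0` with `N β` integral;
apply `frob_fld QA (RingEquiv.refl QA)` to the finite set of the `N_β β` (all integral); then with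
`φ' = φ ∘ γ`, `‖φ' y - φ' y ^ p‖ < 1`, `near_int` (in `FyNbr`) gives an integer `a` near to `φ' (N β)`;
for `p > N` choose `N' : ℤ` with `p ∣ N N' - 1`, then `φ' β` is near to `a N'`. -/
theorem rt_frob (S : Finset QA) : ∃ P : Set ℕ, (∀ p ∈ P, p.Prime) ∧ Dvg P ∧ ∃ B : ℕ, ∀ p ∈ P, B < p →
    ∀ (C : Type) [NormedField C] [IsUltrametricDist C] (φ : QA →+* C), ‖(p : C)‖ < 1 →
      ∃ γ : QA ≃+* QA, ∀ β ∈ S, ∃ m : ℤ, ‖φ (γ β) - (m : C)‖ < 1 := by
  classical
  have hsc : ∀ β : QA, ∃ N : ℕ, N ≠ 0 ∧ IsIntegral ℤ ((N : QA) * β) := by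
    intro T
    have halg : IsAlgebraic ℤ T :=
      (IsFractionRing.isAlgebraic_iff ℤ ℚ QA).2 (Algebra.IsAlgebraic.isAlgebraic T)
    obtain ⟨y, hy0, hy⟩ := halg.exists_integral_multiple
    refine ⟨y.natAbs, Int.natAbs_ne_zero.2 hy0, ?_⟩
    rw [zsmul_eq_mul] at hy
    rcases Int.natAbs_eq y with h | h
    · rw [h, Int.cast_natCast] at hy
      exact hy
    · rw [h, Int.cast_neg, Int.cast_natCast, neg_mul] at hy
      have h2 := hy.neg
      rw [neg_neg] at h2
      exact h2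
  choose N hN0 hNi using hsc
  obtain ⟨P, hP, hD, hF⟩ := frob_fld QA (RingEquiv.refl QA)
    (S.image fun β => (N β : QA) * β) (by
      intro y hy
      obtain ⟨β, _, rfl⟩ := Finset.mem_image.1 hy
      exact hNi β)
  refine ⟨P, hP, hD, ∑ β ∈ S, N β, fun p hp hB C _ _ φ hp1 => ?_⟩
  obtain ⟨γ, hγ⟩ := hF p hp C φ hp1
  refine ⟨γ, fun β hβ => ?_⟩
  have h1 : ‖φ (γ ((N β : QA) * β)) - φ (γ ((N β : QA) * β)) ^ p‖ < 1 :=
    hγ _ (Finset.mem_image_of_mem _ hβ)
  have hint : ‖φ (γ ((N β : QA) * β))‖ ≤ 1 :=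
    norm_le_one_of_isIntegral (φ.comp γ.toRingHom) (hNi β)
  obtain ⟨a, ha⟩ := near_int (hP p hp) hp1 hint (by rw [norm_sub_rev]; exact h1)
  have hlt : N β < p :=
    lt_of_le_of_lt (Finset.single_le_sum (fun _ _ => Nat.zero_le _) hβ) hB
  have hnd : ¬ p ∣ N β := Nat.not_dvd_of_pos_of_lt (Nat.pos_of_ne_zero (hN0 β)) hlt
  have hcop : IsCoprime (p : ℤ) (N β : ℤ) := by
    rw [Nat.isCoprime_iff_coprime]
    exact (Nat.Prime.coprime_iff_not_dvd (hP p hp)).2 hnd
  obtain ⟨u, v, huv⟩ := hcop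
  have hn : ‖((N β : ℕ) : C)‖ = 1 := by
    refine le_antisymm ?_ ?_
    · have := IsUltrametricDist.norm_intCast_le_one C (N β : ℤ)
      rw [Int.cast_natCast] at this
      exact this
    · by_contra hcon
      push Not at hcon
      have h2 : ‖((N β : ℤ) : C)‖ < 1 := by
        rw [Int.cast_natCast]
        exact hcon
      exact hnd (Int.natCast_dvd_natCast.1 (dvd_of_norm (hP p hp) hp1 h2))
  have e0 : φ (γ ((N β : QA) * β)) = ((N β : ℕ) : C) * φ (γ β) := by
    rw [map_mul, map_mul, map_natCast, map_natCast]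
  rw [e0] at hint ha
  have hx : ‖φ (γ β)‖ ≤ 1 := by
    rw [norm_mul, hn, one_mul] at hint
    exact hint
  have huvC : (u : C) * (p : C) + (v : C) * ((N β : ℕ) : C) = 1 := by
    exact_mod_cast congrArg (fun t : ℤ => (t : C)) huv
  refine ⟨a * v, ?_⟩
  have e : φ (γ β) - ((a * v : ℤ) : C) = (u : C) * ((p : C) * φ (γ β)) +
      (v : C) * (((N β : ℕ) : C) * φ (γ β) - (a : C)) := by
    push_cast
    linear_combination (-(φ (γ β))) * huvC
  rw [e]
  have hi : ∀ z : ℤ, ∀ w : C, ‖w‖ < 1 → ‖(z : C) * w‖ < 1 := by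
    intro z w hw
    rw [norm_mul]
    exact (mul_le_of_le_one_left (norm_nonneg _)
      (IsUltrametricDist.norm_intCast_le_one C z)).trans_lt hw
  refine nadd_lt (hi _ _ ?_) (hi _ _ ha)
  rw [norm_mul]
  exact (mul_le_of_le_one_right (norm_nonneg _) hx).trans_lt hp1

end Pool.Agent.H882
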