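import Pool.Agent.H882.RtLoc
import Pool.Agent.H882.RtFrob

/-!
The data at the primes of a set with divergent sum of the reciprocals.
-/

set_option autoImplicit false

namespace Pool.Agent.H882

open UpperHalfPlane H294ZP Function Pool.Agent.N135.ZO NumberField IsDedekindDomain
open Pool.Agent.Y226

theorem unit_large_all (T : Finset ℂ) (hT : ∀ c ∈ T, c ∈ QA ∧ c ≠ 0) : ∃ B : ℕ, ∀ p : ℕ, p.Prime →
    B < p → ∀ (C : Type) [NormedField C] [IsUltrametricDist C] (Ψ : ℂ →+* C), ‖(p : C)‖ < 1 →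
      ∀ c ∈ T, ‖Ψ c‖ = 1 := by
  classical
  induction T using Finset.induction_on with
  | empty => exact ⟨0, fun p _ _ C _ _ Ψ _ c hc => absurd hc (Finset.notMem_empty c)⟩
  | insert a T ha ih =>
    obtain ⟨B, hB⟩ := ih fun c hc => hT c (Finset.mem_insert_of_mem hc)
    obtain ⟨h1, h2⟩ := hT a (Finset.mem_insert_self a T)
    obtain ⟨B', hB'⟩ := unit_large h1 h2
    refine ⟨B + B', fun p hp hlt C _ _ Ψ hp1 c hc => ?_⟩
    rcases Finset.mem_insert.1 hc with rfl | hc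
    · exact hB' p hp (by omega) C Ψ hp1
    · exact hB p hp (by omega) C Ψ hp1 c hc

theorem rt_prime {n : ℕ} {D₀ : Dt n} (hD₀ : Good D₀) {N : ℕ} (hN : N ≠ 0) :
    ∃ (m : ℕ) (P : Set ℕ), (∀ p ∈ P, p.Prime) ∧
    Dvg P ∧ ∃ B : ℕ, ∀ p ∈ P, B < p → ∃ (R : Finset (ZMod p)) (t : ZMod p → ℍ) (b1 : Set (ZMod p)),
      R.card ≤ m ∧ (∀ H : ℕ, (∀ a, (SM p a).ncard ≤ H) → b1.ncard ≤ H + 2 ∧
        ∀ c, {c' | Isog (jj (t c)) (jj (t c'))}.ncard ≤ 18 * H) ∧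
      ∀ D, Cls D₀ N D → RtLoc n p D R (fun c => jj (t c)) b1 := by
  classical
  obtain ⟨S, hS⟩ : ∃ S : Finset QA, S = (Finset.univ : Finset (Fin n × Fin n)).biUnion fun ij =>
    (lp D₀ ij.1 ij.2).roots.toFinset := ⟨_, rfl⟩
  obtain ⟨T, hT⟩ : ∃ T : Finset ℂ, T = ((Finset.univ : Finset (Fin n × Fin n)).filter fun ij =>
    ij.1 ≠ ij.2).image fun ij => ((D₀ ij.1 ij.2).2 (D₀ ij.1 ij.2).1 : ℂ) := ⟨_, rfl⟩
  have hT0 : ∀ c ∈ T, c ∈ QA ∧ c ≠ 0 := by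
    intro c hc
    rw [hT] at hc
    obtain ⟨ij, hij, rfl⟩ := Finset.mem_image.1 hc
    refine ⟨((D₀ ij.1 ij.2).2 (D₀ ij.1 ij.2).1).2, fun h => hD₀ _ _ (Finset.mem_filter.1 hij).2 ?_⟩
    exact Subtype.ext h
  obtain ⟨B₁, hB₁⟩ := unit_large_all T hT0
  obtain ⟨P, hP, hPd, B₂, hB₂⟩ := rt_frob S
  refine ⟨S.card, P, hP, hPd, B₁ + B₂ + 3 + N, fun p hpP hlt => ?_⟩
  have hp := hP p hpP
  have hpf : Fact p.Prime := ⟨hp⟩
  obtain ⟨C, _, _, _, _, _, φ₀, hpC⟩ := exists_padic p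
  have hp1 : ‖(p : C)‖ < 1 := by
    rw [hpC]
    exact inv_lt_one_of_one_lt₀ (by exact_mod_cast hp.one_lt)
  have hp0 : 0 < ‖(p : C)‖ := by
    rw [hpC]
    exact inv_pos.2 (by exact_mod_cast hp.pos)
  obtain ⟨γ, hγ⟩ := hB₂ p hpP (by omega) C φ₀ hp1
  have hpQ : 1 < ‖(φ₀.comp (γ : QA →+* QA)) ((p : QA)⁻¹)‖ := by
    rw [map_inv₀, map_natCast, norm_inv]
    exact (one_lt_inv₀ hp0).2 hp1
  obtain ⟨Ψ, hΨ, -⟩ := exists_ext (φ₀.comp (γ : QA →+* QA)) ((p : QA)⁻¹) hpQ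
    (fun i : Empty => (0 : ℂ))
    (by
      rw [algebraicIndependent_empty_type_iff]
      exact (algebraMap QA ℂ).injective) 0
  choose! m hm using hγ
  obtain ⟨t, b1, h1, h2, h3, h4⟩ := rt_classes hp (by omega) hp1 Ψ
  have hc1 : ∀ c ∈ T, ‖Ψ c‖ = 1 := hB₁ p hp (by omega) C Ψ hp1
  refine ⟨S.image fun β => (m β : ZMod p), t, b1, Finset.card_image_le, h1, fun D hD =>
    rt_loc hp (by omega) (hD.good hD₀) hp1 Ψ h2 h3 h4
      (fun i j hij u => hD.norm_le hp hN (by omega) hp1 Ψ hij u) (fun i j hij => ?_) _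
      fun i j hij β hβ => ?_⟩
  · have e : (D i j).2 (D i j).1 = (D₀ i j).2 (D₀ i j).1 := by
      obtain ⟨e1, e2, -⟩ := hD i j hij
      have e3 := e2 _ le_rfl
      rw [Prod.mk.eta] at e3
      rw [e1, e3]
    rw [e]
    refine hc1 _ ?_
    rw [hT]
    exact Finset.mem_image.2 ⟨(i, j), Finset.mem_filter.2 ⟨Finset.mem_univ _, hij⟩, rfl⟩
  · have hβS : β ∈ S := by
      rw [hS, Finset.mem_biUnion]
      rw [hD.lp_eq hij] at hβ
      exact ⟨(i, j), Finset.mem_univ _, Multiset.mem_toFinset.2 hβ⟩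
    refine ⟨m β, ?_, Finset.mem_image.2 ⟨β, hβS, rfl⟩⟩
    rw [hΨ]
    exact hm β hβS

end Pool.Agent.H882
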