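import Pool.Agent.H882.FzFam
import Pool.Agent.H882.RtPrime

/-!
Images under rational functions with algebraic coefficients of points near to an algebraic centre.
-/

set_option autoImplicit false

namespace Pool.Agent.H882

open Polynomial Pool.Agent.Y226

theorem int_large_all (T : Finset ℂ) (hT : ∀ c ∈ T, c ∈ QA) : ∃ B : ℕ, ∀ p : ℕ, p.Prime →
    B < p → ∀ (C : Type) [NormedField C] [IsUltrametricDist C] (Ψ : ℂ →+* C), ‖(p : C)‖ < 1 →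
      ∀ c ∈ T, ‖Ψ c‖ ≤ 1 ∧ (c ≠ 0 → ‖Ψ c‖ = 1) := by
  classical
  obtain ⟨B, hB⟩ := unit_large_all (T.filter fun c => c ≠ 0) fun c hc =>
    ⟨hT c (Finset.mem_filter.1 hc).1, (Finset.mem_filter.1 hc).2⟩
  refine ⟨B, fun p hp hpB C _ _ Ψ h1 c hc => ?_⟩
  have key : c ≠ 0 → ‖Ψ c‖ = 1 := fun h =>
    hB p hp hpB C Ψ h1 c (Finset.mem_filter.2 ⟨hc, h⟩)
  refine ⟨?_, key⟩
  by_cases h : c = 0
  · rw [h, map_zero, norm_zero]
    exact zero_le_one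
  · exact (key h).le

theorem poly_nr {C : Type} [NormedField C] [IsUltrametricDist C] (Φ : ℂ →+* C) (f : ℂ[X])
    (hf : ∀ k ∈ f.support, ‖Φ (f.coeff k)‖ ≤ 1) {s x : ℂ} (hs : ‖Φ s‖ ≤ 1) (hx : ‖Φ x‖ < 1) :
    Nr (Φ (f.eval (s + x))) (Φ (f.eval s)) := by
  have e : ∀ z : ℂ, Φ (f.eval z) = ∑ k ∈ f.support, Φ (f.coeff k) * Φ z ^ k := by
    intro z
    rw [Polynomial.eval_eq_sum, Polynomial.sum, map_sum]
    exact Finset.sum_congr rfl fun k _ => by rw [map_mul, map_pow]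
  rw [e, e]
  refine Nr.sum _ fun k hk => (Nr.rfl' (hf k hk)).mul (Nr.pow ?_ k)
  rw [map_add]
  refine ⟨(IsUltrametricDist.norm_add_le_max _ _).trans (max_le hs hx.le), hs, ?_⟩
  rw [add_sub_cancel_left]
  exact hx

theorem img_near {C : Type} [NormedField C] [IsUltrametricDist C] (Φ : ℂ →+* C) (a b : ℂ[X])
    (ha : ∀ k ∈ a.support, ‖Φ (a.coeff k)‖ ≤ 1) (hb : ∀ k ∈ b.support, ‖Φ (b.coeff k)‖ ≤ 1)
    {s x y c : ℂ} (hs : ‖Φ s‖ ≤ 1) (hx : ‖Φ x‖ < 1) (hc : ‖Φ c‖ ≤ 1)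
    (h1 : a.eval s = c * b.eval s) (h2 : ‖Φ (b.eval s)‖ = 1)
    (hy : y * b.eval (s + x) = a.eval (s + x)) : ‖Φ y - Φ c‖ < 1 := by
  have hA := poly_nr Φ a ha hs hx
  have hB := poly_nr Φ b hb hs hx
  have hB1 : ‖Φ (b.eval (s + x))‖ = 1 := hB.norm_eq h2
  have e : (Φ y - Φ c) * Φ (b.eval (s + x)) =
      (Φ (a.eval (s + x)) - Φ (a.eval s)) + Φ c * (Φ (b.eval s) - Φ (b.eval (s + x))) := by
    rw [h1, ← hy, map_mul, map_mul]
    ring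
  have h3 : ‖(Φ y - Φ c) * Φ (b.eval (s + x))‖ < 1 := by
    rw [e]
    refine (IsUltrametricDist.norm_add_le_max _ _).trans_lt (max_lt hA.2.2 ?_)
    rw [norm_mul, norm_sub_rev]
    exact (mul_le_of_le_one_left (norm_nonneg _) hc).trans_lt hB.2.2
  rwa [norm_mul, hB1, mul_one] at h3

end Pool.Agent.H882
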