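import Pool.Agent.H882.NfCls

/-!
The values of rational functions over the integers of a number field near to integral points; the
choice of embeddings.
-/

set_option autoImplicit false

namespace Pool.Agent.H882

open Polynomial NumberField Pool.Agent.Y226 Cardinal

theorem RK_near {C : Type} [NormedField C] [IsUltrametricDist C] [CharZero C] {p : ℕ}
    (hp : p.Prime) (hp1 : ‖(p : C)‖ < 1) {K : Type} [Field K] [NumberField K] (σ : K →+* ℂ)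
    (Φ : ℂ →+* C) {ρ : 𝓞 K →+* ZMod p} (hρ : NearK (Φ.comp σ) ρ) (a b : (𝓞 K)[X]) (s : 𝓞 K)
    (s' : ℤ) (hb : (b.map ρ).eval (ρ s) ≠ 0) (hs' : (s' : ZMod p) = rk ρ a b (ρ s)) {x j : ℂ}
    (hx : ‖Φ x‖ ^ (p - 1) < ‖(p : C)‖)
    (hj : j * (b.map (σ.comp (algebraMap (𝓞 K) K))).eval (σ s + x) =
      (a.map (σ.comp (algebraMap (𝓞 K) K))).eval (σ s + x)) :
    ‖Φ j - (s' : C)‖ ^ (p - 1) < ‖(p : C)‖ := by
  have : Fact p.Prime := ⟨hp⟩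
  obtain ⟨ψ, hψ⟩ : ∃ ψ : 𝓞 K →+* C, ψ = Φ.comp (σ.comp (algebraMap (𝓞 K) K)) := ⟨_, rfl⟩
  have hψn : ∀ (c : 𝓞 K) (k : ℤ), (k : ZMod p) = ρ c → ‖ψ c - (k : C)‖ ^ (p - 1) < ‖(p : C)‖ := by
    intro c k hk
    rw [hψ]
    exact hρ c k hk
  have hval : ∀ c : 𝓞 K, ∃ k : ℤ, (k : ZMod p) = ρ c := fun c => ⟨((ρ c).val : ℤ), by
    push_cast
    rw [ZMod.natCast_zmod_val]⟩
  have hψ1 : ∀ c, ‖ψ c‖ ≤ 1 := by
    intro c
    obtain ⟨k, hk⟩ := hval c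
    have h4 : ψ c = (ψ c - (k : C)) + (k : C) := by ring
    rw [h4]
    exact (IsUltrametricDist.norm_add_le_max _ _).trans (max_le (wk_lt_one hp1 (hψn c k hk)).le
      (IsUltrametricDist.norm_intCast_le_one C _))
  have hx1 : ‖Φ x‖ < 1 := wk_lt_one hp1 hx
  have hsx : ‖ψ s + Φ x‖ ≤ 1 :=
    (IsUltrametricDist.norm_add_le_max _ _).trans (max_le (hψ1 s) hx1.le)
  have key : ∀ g : (𝓞 K)[X], ‖(g.map ψ).eval (ψ s + Φ x) - ψ (g.eval s)‖ ≤ ‖Φ x‖ := by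
    intro g
    have e : ψ (g.eval s) = (g.map ψ).eval (ψ s) := by
      rw [Polynomial.eval_map, Polynomial.eval₂_at_apply]
    rw [e]
    refine (eval_sub_le _ (fun n => ?_) hsx (hψ1 s)).trans ?_
    · rw [Polynomial.coeff_map]
      exact hψ1 _
    · rw [add_sub_cancel_left]
  have hΦ : ∀ g : (𝓞 K)[X], Φ ((g.map (σ.comp (algebraMap (𝓞 K) K))).eval (σ s + x)) =
      (g.map ψ).eval (ψ s + Φ x) := by
    intro g
    rw [map_eval', Polynomial.map_map, map_add, hψ]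
    rfl
  have hρev : ∀ g : (𝓞 K)[X], ρ (g.eval s) = (g.map ρ).eval (ρ s) := by
    intro g
    rw [Polynomial.eval_map, Polynomial.eval₂_at_apply]
  have hbu : ‖(b.map ψ).eval (ψ s + Φ x)‖ = 1 := by
    refine norm_eq_of_sub ((key b).trans_lt hx1) ?_
    obtain ⟨k, hk⟩ := hval (b.eval s)
    refine norm_eq_of_sub (wk_lt_one hp1 (hψn _ k hk)) (norm_unit hp hp1 ?_)
    rw [← ZMod.intCast_zmod_eq_zero_iff_dvd, hk, hρev]
    exact hb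
  have h1 := congrArg Φ hj
  rw [map_mul, hΦ, hΦ] at h1
  have h2 : (Φ j - (s' : C)) * (b.map ψ).eval (ψ s + Φ x) =
      ((a - Polynomial.C (s' : 𝓞 K) * b).map ψ).eval (ψ s + Φ x) := by
    rw [sub_mul, h1]
    simp
  have h3 : ‖Φ j - (s' : C)‖ =
      ‖((a - Polynomial.C (s' : 𝓞 K) * b).map ψ).eval (ψ s + Φ x)‖ := by
    rw [← h2, norm_mul, hbu, mul_one]
  have h4 : ‖ψ ((a - Polynomial.C (s' : 𝓞 K) * b).eval s)‖ ^ (p - 1) < ‖(p : C)‖ := by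
    have h5 := hψn ((a - Polynomial.C (s' : 𝓞 K) * b).eval s) 0 (by
      rw [hρev, Polynomial.map_sub, Polynomial.map_mul, Polynomial.map_C, Polynomial.eval_sub,
        Polynomial.eval_mul, Polynomial.eval_C, map_intCast, hs']
      unfold rk
      rw [mul_assoc, inv_mul_cancel₀ hb, mul_one, sub_self, Int.cast_zero])
    rwa [Int.cast_zero, sub_zero] at h5
  have h5 := key (a - Polynomial.C (s' : 𝓞 K) * b)
  have h6 : ‖Φ j - (s' : C)‖ ≤ max ‖Φ x‖ ‖ψ ((a - Polynomial.C (s' : 𝓞 K) * b).eval s)‖ := by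
    rw [h3]
    have e : ((a - Polynomial.C (s' : 𝓞 K) * b).map ψ).eval (ψ s + Φ x) =
        (((a - Polynomial.C (s' : 𝓞 K) * b).map ψ).eval (ψ s + Φ x) -
        ψ ((a - Polynomial.C (s' : 𝓞 K) * b).eval s)) +
        ψ ((a - Polynomial.C (s' : 𝓞 K) * b).eval s) := by ring
    rw [e]
    exact (IsUltrametricDist.norm_add_le_max _ _).trans (max_le_max h5 le_rfl)
  rcases max_cases ‖Φ x‖ ‖ψ ((a - Polynomial.C (s' : 𝓞 K) * b).eval s)‖ with ⟨h, -⟩ | ⟨h, -⟩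
  · rw [h] at h6
    exact (pow_le_pow_left₀ (norm_nonneg _) h6 _).trans_lt hx
  · rw [h] at h6
    exact (pow_le_pow_left₀ (norm_nonneg _) h6 _).trans_lt h4

/-- the choice of embeddings: given values of independent elements, and units -/
theorem emb_units {F : Subfield ℂ} (hF : #F ≤ ℵ₀) (S : Finset ℂ) (hS0 : ∀ b ∈ S, b ≠ 0)
    (hSF : ∀ b ∈ S, b ∈ F) : ∃ B : ℕ, ∀ p : ℕ, p.Prime → B < p →
      ∀ (C : Type) [NormedField C] [IsUltrametricDist C] [CompleteSpace C] [CharZero C]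
        [IsAlgClosed C] (φ₀ : QA →+* C), ‖(p : C)‖ = (p : ℝ)⁻¹ →
        ∀ {ι : Type} [Finite ι] (y : ι → ℂ), AlgebraicIndependent F y → ∀ (a : ι → QA),
        ∃ Φ : ℂ →+* C, (∀ a : QA, Φ (a : ℂ) = φ₀ a) ∧ (∀ i, ‖Φ (y i) - φ₀ (a i)‖ < 1) ∧
          ∀ b ∈ S, ‖Φ b‖ = 1 := by
  obtain ⟨B, hB⟩ := good_embed_all S hS0
  refine ⟨B, fun p hp hlt C _ _ _ _ _ φ₀ hpC ι _ y hy a => ?_⟩
  obtain ⟨Φ₁, hΦ₁, hΦS⟩ := hB p hp hlt C φ₀ hpC
  have hp1 : ‖(p : C)‖ < 1 := by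
    rw [hpC]
    exact inv_lt_one_of_one_lt₀ (by exact_mod_cast hp.one_lt)
  have hp0 : 0 < ‖(p : C)‖ := by
    rw [hpC]
    exact inv_pos.2 (by exact_mod_cast hp.pos)
  have hpQ : 1 < ‖Φ₁ (((p : QA)⁻¹ : QA) : ℂ)‖ := by
    rw [hΦ₁, map_inv₀, map_natCast, norm_inv]
    exact (one_lt_inv₀ hp0).2 hp1
  obtain ⟨Φ, hΦF, hΦQ, hΦu⟩ := exists_over F hF Φ₁ ((p : QA)⁻¹) hpQ y hy a (fun _ => 1)
    (fun _ => one_pos)
  have hΦ₀ : ∀ a : QA, Φ (a : ℂ) = φ₀ a := fun a => (hΦQ a).trans (hΦ₁ a)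
  refine ⟨Φ, hΦ₀, fun i => ?_, fun b hb => ?_⟩
  · have h1 := hΦu i
    rw [hΦ₁] at h1
    exact h1
  · rw [hΦF b (hSF b hb)]
    exact hΦS b hb

end Pool.Agent.H882
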