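import Pool.Agent.H882.NvFrob
import Pool.Agent.H882.FyType

/-!
Residue classes of `ℤ ^ n` of centres with the Galois condition.
-/

set_option autoImplicit false

namespace Pool.Agent.H882

open UpperHalfPlane H294ZP Function Pool.Agent.N135.ZO
open Pool.Agent.Y226

/-- one prime -/
theorem one_prime {n : ℕ} (ℓ : Fin (n + 1) → Fin n → ℕ) (hℓ : ∀ a i, (ℓ a i).Prime ∧ ℓ a i % 4 = 1)
    {r : ℕ} (hr : r.Prime) (hr1 : ∀ a i, 4 * ℓ a i ^ 2 < r) (hr2 : 11 < r) :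
    ∃ B : ℕ, ∀ p : ℕ, p.Prime → B < p → (∀ a i, ℓ a i ∣ p - 1) →
      (∀ T : Fin (n + 1) × Fin n → Prop, ∃ a : ℤ, a ≠ 0 ∧
        a ^ 2 < 4 * p ∧ (r : ℤ) ∣ a ^ 2 - 4 * p ∧ ¬ (r : ℤ) ^ 2 ∣ a ^ 2 - 4 * p ∧
        SqMod 11 (a ^ 2 - 4 * p) ∧ ∀ i, (T i → ¬ SqMod (ℓ i.1 i.2) (a ^ 2 - 4 * p)) ∧
          (¬ T i → SqModU (ℓ i.1 i.2) (a ^ 2 - 4 * p))) →
      ∀ b : Fin (n + 1), ∃ c : Fin n → ℤ, ∀ s : Fin n → ℤ, (∀ k, (p : ℤ) ∣ s k - c k) →
        (∀ k, s k ≠ 0 ∧ s k ≠ 1728) ∧ (∀ a i k, (Nbr (ℓ a i) (s k : ℂ)).ncard = ℓ a i + 1) ∧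
        ∃ σ : ℂ ≃+* ℂ,
          (∀ a i, σ (Complex.exp (2 * Real.pi * Complex.I / ℓ a i)) =
            Complex.exp (2 * Real.pi * Complex.I / ℓ a i)) ∧
          (∀ i, ∀ y ∈ Nbr (ℓ b i) (s i : ℂ), σ y ≠ y) ∧
          ∀ a i k, (b, k) ≠ (a, i) → {y | y ∈ Nbr (ℓ a i) (s k : ℂ) ∧ σ y = y}.ncard = 2 := by
  classical
  obtain ⟨B₀, hB₀⟩ := nbr11_unit
  choose B₁ hB₁ using fun (x : Fin (n + 1) × Fin n) => nd_root (hℓ x.1 x.2).1
  refine ⟨B₀ + (∑ x, B₁ x) + (∑ x : Fin (n + 1) × Fin n, ℓ x.1 x.2) + 3,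
    fun p hp hpB hdiv htr b => ?_⟩
  have hB₁' : ∀ x, B₁ x < p := by
    intro x
    have := Finset.single_le_sum (f := B₁) (fun _ _ => Nat.zero_le _) (Finset.mem_univ x)
    omega
  have hℓp : ∀ a i, ℓ a i < p := by
    intro a i
    have := Finset.single_le_sum (f := fun x : Fin (n + 1) × Fin n => ℓ x.1 x.2)
      (fun _ _ => Nat.zero_le _) (Finset.mem_univ (a, i))
    simp only at this
    omega
  have hp3 : 3 < p := by omega
  have hp2 : p ≠ 2 := by omega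
  have : Fact p.Prime := ⟨hp⟩
  obtain ⟨C, _, _, _, _, _, φ₀, hpC⟩ := exists_padic p
  have hp1 : ‖(p : C)‖ < 1 := by
    rw [hpC]
    exact inv_lt_one_of_one_lt₀ (by exact_mod_cast hp.one_lt)
  have hp0 : 0 < ‖(p : C)‖ := by
    rw [hpC]
    exact inv_pos.2 (by exact_mod_cast hp.pos)
  have hpQ : 1 < ‖φ₀ ((p : QA)⁻¹)‖ := by
    rw [map_inv₀, map_natCast, norm_inv]
    exact (one_lt_inv₀ hp0).2 hp1
  obtain ⟨Ψ, -, -⟩ := exists_ext φ₀ ((p : QA)⁻¹) hpQ (fun i : Empty => (0 : ℂ))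
    (by
      rw [algebraicIndependent_empty_type_iff]
      exact (algebraMap QA ℂ).injective) 0
  have hpV : (VF Ψ).valuation (p : ℂ) < 1 := by
    rw [VF_lt_one, map_natCast]
    exact hp1
  choose a ha0 ha1 ha2 ha3 ha4 ha5 using fun k : Fin n => htr fun x => (b, k) = x
  choose t ht using fun k => exists_Mt (ha1 k)
  have hM : ∀ k, (Mt (a k) p).det = p := fun k => Mt_det _ _
  have hcm : ∀ k, IsCM (t k) := fun k => isCM_of_fix hp (hM k) (ht k)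
  have hle : ∀ k, ‖Ψ (jj (t k))‖ ≤ 1 := fun k =>
    norm_le_one_of_isIntegral Ψ (singular_modulus_integral _ (hcm k))
  have hnn : ∀ k, ∀ e : ℍ, Sp e → ¬ ‖Ψ (jj (t k) - jj e)‖ < 1 := by
    intro k e he
    refine not_near hp hp3 hp1 Ψ (hB₀ p hp (by omega) C Ψ hp1) (hM k) (ht k) ?_ ?_ hr hr2 ?_ ?_ he
    all_goals rw [Mt_trace]
    · exact ha0 k
    · exact ha4 k
    · exact ha2 k
    · exact ha3 k
  have hn0 : ∀ k, ‖Ψ (jj (t k))‖ = 1 := by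
    intro k
    have h1 := hnn k ρ6 (Or.inl rfl)
    rw [jj_rho, sub_zero, not_lt] at h1
    exact le_antisymm (hle k) h1
  have h1728 : ‖Ψ (1728 : ℂ)‖ ≤ 1 := by
    have h1 := IsUltrametricDist.norm_intCast_le_one C 1728
    have h2 : Ψ (1728 : ℂ) = 1728 := map_ofNat Ψ 1728
    rw [h2]
    exact_mod_cast h1
  have hn1 : ∀ k, ‖Ψ (jj (t k) - 1728)‖ = 1 := by
    intro k
    have h1 := hnn k UpperHalfPlane.I (Or.inr rfl)
    rw [jj_I, not_lt] at h1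
    refine le_antisymm ?_ h1
    rw [map_sub]
    exact nsub_le (hle k) h1728
  have hinc : ∀ (k : Fin n) (a' : Fin (n + 1)) (i : Fin n) (u u' : Option (Fin (ℓ a' i))),
      ‖Ψ (jj (hh (hℓ a' i).1.pos u (t k)) - jj (hh (hℓ a' i).1.pos u' (t k)))‖ < 1 → u = u' := by
    intro k a' i u u' h
    refine nbr_incong hp hp3 hp1 Ψ (hℓ a' i).1 (fun τ hτ =>
      hB₁ (a', i) p hp (hB₁' (a', i)) C Ψ hp1 τ hτ) (hM k) (ht k) ?_ (hn0 k) (hn1 k) hr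
      (hr1 a' i) ?_ ?_ h
    all_goals rw [Mt_trace]
    · exact ha0 k
    · exact ha2 k
    · exact ha3 k
  -- the residue classes
  have hc : ∀ k, ∃ c : ℤ, ‖Ψ (jj (t k)) - (c : C)‖ < 1 := by
    intro k
    have htV : jj (t k) ∈ VF Ψ := VF_mem.2 (hle k)
    have h4 := kro_rel hp hp2 hpV htV (hM k) (ht k)
    refine near_int hp hp1 (hle k) ?_
    have e : (jj (t k) - jj (t k) ^ p) * (jj (t k) ^ p - jj (t k)) =
      -((jj (t k) ^ p - jj (t k)) ^ 2) := by ring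
    rw [e, VF_lt_one, map_neg, norm_neg, map_pow, norm_pow] at h4
    rw [← map_pow, ← map_sub]
    by_contra hcon
    exact absurd h4 (not_lt.2 (one_le_pow₀ (not_lt.1 hcon)))
  choose c hc using hc
  refine ⟨c, fun s hs => ?_⟩
  have hnear : ∀ k, ‖Ψ (jj (t k) - (s k : ℂ))‖ < 1 := by
    intro k
    have e : Ψ (jj (t k) - (s k : ℂ)) = (Ψ (jj (t k)) - (c k : C)) + -((s k - c k : ℤ) : C) := by
      rw [map_sub, map_intCast]
      push_cast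
      ring
    rw [e]
    refine nadd_lt (hc k) ?_
    rw [norm_neg]
    exact (norm_le_p (hs k)).trans_lt hp1
  have hs1 : ∀ k, ‖Ψ (s k : ℂ)‖ ≤ 1 := by
    intro k
    rw [map_intCast]
    exact IsUltrametricDist.norm_intCast_le_one C _
  have hall := fun (k : Fin n) (a' : Fin (n + 1)) (i : Fin n) =>
    nbr_of_near hp hp2 hp1 Ψ (hℓ a' i).1 (hM k) (ht k) (hinc k a' i) (hs1 k) (hnear k)
  refine ⟨fun k => ⟨fun h => ?_, fun h => ?_⟩, fun a' i k => (hall k a' i).1, ?_⟩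
  · have h1 := hnear k
    rw [h, Int.cast_zero, sub_zero, hn0 k] at h1
    exact lt_irrefl _ h1
  · have h1 := hnear k
    rw [h] at h1
    push_cast at h1
    rw [hn1 k] at h1
    exact lt_irrefl _ h1
  -- the automorphism
  have hfin : (⋃ x : (Fin (n + 1) × Fin n) × Fin n, Nbr (ℓ x.1.1 x.1.2) (s x.2 : ℂ)).Finite :=
    Set.finite_iUnion fun x => nbr_finite (hℓ _ _).1 _
  obtain ⟨σ, hσ⟩ := exists_sigma hp hp1 Ψ (hfin.toFinset ∪
    Finset.univ.image fun x : Fin (n + 1) × Fin n =>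
      Complex.exp (2 * Real.pi * Complex.I / ℓ x.1 x.2)) (by
    intro y hy
    rcases Finset.mem_union.1 hy with h | h
    · obtain ⟨x, hx⟩ := Set.mem_iUnion.1 (hfin.mem_toFinset.1 h)
      exact nbr_int (hℓ _ _).1.pos (isIntegral_algebraMap (x := s x.2)) hx
    · obtain ⟨x, -, rfl⟩ := Finset.mem_image.1 h
      exact (Complex.isPrimitiveRoot_exp (ℓ x.1 x.2) (hℓ _ _).1.ne_zero).isIntegral
        (hℓ _ _).1.pos)
  have hσN : ∀ (k : Fin n) (a' : Fin (n + 1)) (i : Fin n), ∀ y ∈ Nbr (ℓ a' i) (s k : ℂ),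
      (σ y = y ↔ ‖Ψ (y ^ p - y)‖ < 1) := by
    intro k a' i y hy
    refine sigma_nbr (hℓ a' i).1 Ψ (s := ((s k : ℤ) : QA)) σ ?_ ?_ ?_ ?_
    · push_cast
      exact map_intCast σ _
    · exact (hall k a' i).2.1
    · exact hy
    · exact hσ y (Finset.mem_union_left _ (hfin.mem_toFinset.2
        (Set.mem_iUnion.2 ⟨((a', i), k), hy⟩)))
  refine ⟨σ, fun a' i => ?_, fun i y hy h => ?_, fun a' i k hne => ?_⟩
  · refine sigma_root (hℓ a' i).1 hp (hℓp a' i) hp1 Ψ (hdiv a' i) ?_ σ ?_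
    · exact (Complex.isPrimitiveRoot_exp (ℓ a' i) (hℓ _ _).1.ne_zero).pow_eq_one
    · exact hσ _ (Finset.mem_union_right _ (Finset.mem_image.2 ⟨(a', i), Finset.mem_univ _, rfl⟩))
  · refine (hall i b i).2.2.1 (fun k hk => ?_) y hy ((hσN i b i y hy).1 h)
    have h2 := sqmod_of_fixd (hℓ b i).1 hk
    rw [hM, Mt_trace] at h2
    exact (ha5 i (b, i)).1 rfl h2
  · have h2 := (hall k a' i).2.2.2 (two_fixd (hℓ a' i).1 (by
      have := (hℓ a' i).2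
      omega) ((ha5 k (a', i)).2 hne))
    rw [← h2]
    congr 1
    ext y
    constructor
    · rintro ⟨h3, h4⟩
      exact ⟨h3, (hσN k a' i y h3).1 h4⟩
    · rintro ⟨h3, h4⟩
      exact ⟨h3, (hσN k a' i y h3).2 h4⟩

theorem exists_primes (ι : Type) [Finite ι] : ∃ ℓ : ι → ℕ, Function.Injective ℓ ∧
    ∀ i, (ℓ i).Prime ∧ ℓ i % 4 = 1 := by
  obtain ⟨m, ⟨e⟩⟩ := Finite.exists_equiv_fin ι
  have h1 : ∀ N : ℕ, ∃ q, N < q ∧ (q.Prime ∧ q % 4 = 1) := by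
    intro N
    obtain ⟨q, hq1, hq2, hq3⟩ := Nat.exists_prime_gt_modEq_one (k := 4) N (by norm_num)
    exact ⟨q, hq2, hq1, hq3⟩
  obtain ⟨f, hf1, hf2⟩ := Nat.exists_strictMono_subsequence h1
  exact ⟨fun i => f (e i), fun i j h => e.injective (Fin.ext (hf1.injective h)), fun i => hf2 _⟩

/-- residue classes of centres -/
theorem exists_sep (n N : ℕ) (hN : 0 < N) : ∃ (m : ℕ) (c : Fin n → ℤ), 0 < m ∧ m.Coprime N ∧
    ∀ s : Fin n → ℤ,
    (∀ i, (m : ℤ) ∣ s i - c i) → (∀ i, s i ≠ 0 ∧ s i ≠ 1728) ∧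
      ∃ (ℓ : Fin (n + 1) → Fin n → ℕ) (σ : Fin (n + 1) → ℂ ≃+* ℂ),
        Sep (fun i => (s i : ℂ)) ℓ σ := by
  classical
  obtain ⟨ℓ', hinj, hℓ'⟩ := exists_primes (Fin (n + 1) × Fin n)
  obtain ⟨ℓ, hℓe⟩ : ∃ ℓ : Fin (n + 1) → Fin n → ℕ, ∀ a i, ℓ a i = ℓ' (a, i) :=
    ⟨fun a i => ℓ' (a, i), fun _ _ => rfl⟩
  have hℓ : ∀ a i, (ℓ a i).Prime ∧ ℓ a i % 4 = 1 := fun a i => by
    rw [hℓe]
    exact hℓ' _
  obtain ⟨r, hrb, hr⟩ := Nat.exists_infinite_primes (12 + ∑ x, (4 * ℓ' x ^ 2 + 1))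
  have hr1' : ∀ x, 4 * ℓ' x ^ 2 < r := by
    intro x
    have := Finset.single_le_sum (f := fun x => 4 * ℓ' x ^ 2 + 1) (fun _ _ => Nat.zero_le _)
      (Finset.mem_univ x)
    omega
  have hr1 : ∀ a i, 4 * ℓ a i ^ 2 < r := fun a i => by
    rw [hℓe]
    exact hr1' _
  obtain ⟨B, hB⟩ := one_prime ℓ hℓ hr hr1 (by omega)
  have hP : ∀ N' : ℕ, ∃ p, N' < p ∧ (B + N < p ∧ p.Prime ∧ (∀ i, ℓ' i ∣ p - 1) ∧
      ∀ T : Fin (n + 1) × Fin n → Prop, ∃ a : ℤ, a ≠ 0 ∧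
        a ^ 2 < 4 * p ∧ (r : ℤ) ∣ a ^ 2 - 4 * p ∧ ¬ (r : ℤ) ^ 2 ∣ a ^ 2 - 4 * p ∧
        SqMod 11 (a ^ 2 - 4 * p) ∧ ∀ i, (T i → ¬ SqMod (ℓ' i) (a ^ 2 - 4 * p)) ∧
          (¬ T i → SqModU (ℓ' i) (a ^ 2 - 4 * p))) := by
    intro N'
    obtain ⟨p, h1, h2, h3, h4⟩ := exists_traces ℓ' hℓ' hinj hr (fun i => by
      have h5 := hr1' i
      have h6 := (hℓ' i).1.pos
      nlinarith) (by omega) (N' + B + N)
    exact ⟨p, by omega, by omega, h1, h3, h4⟩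
  obtain ⟨p, hpm, hp⟩ := Nat.exists_strictMono_subsequence hP
  have hkey := fun b : Fin (n + 1) => hB (p b) (hp b).2.1 (lt_of_le_of_lt
    (Nat.le_add_right B N) (hp b).1) (fun a i => by
    rw [hℓe]
    exact (hp b).2.2.1 _) (fun T => by
    obtain ⟨a, h1, h2, h3, h4, h5, h6⟩ := (hp b).2.2.2 T
    exact ⟨a, h1, h2, h3, h4, h5, fun i => by
      rw [hℓe]
      exact h6 i⟩) b
  choose c hc using hkey
  have hpair : Set.Pairwise (↑(Finset.univ : Finset (Fin (n + 1))))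
      (Function.onFun Nat.Coprime fun b : Fin (n + 1) => p b) := by
    intro b _ b' _ hbb
    exact (Nat.coprime_primes (hp b).2.1 (hp b').2.1).2
      fun h => hbb (Fin.ext (hpm.injective h))
  have hcrt : ∀ k : Fin n, ∃ c' : ℤ, ∀ b : Fin (n + 1), ((p b : ℕ) : ℤ) ∣ c' - c b k := by
    intro k
    obtain ⟨k1, hk1⟩ := Nat.chineseRemainderOfFinset (fun b : Fin (n + 1) =>
      (c b k % (p b : ℕ)).toNat) (fun b : Fin (n + 1) => p b) Finset.univ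
      (fun b _ => (hp b).2.1.ne_zero) hpair
    refine ⟨k1, fun b => ?_⟩
    have h1 := (Nat.modEq_iff_dvd.1 (hk1 b (Finset.mem_univ b)).symm)
    have h2 : ((((c b k % (p b : ℕ)).toNat : ℕ)) : ℤ) = c b k % (p b : ℕ) :=
      Int.toNat_of_nonneg (Int.emod_nonneg _ (by exact_mod_cast (hp b).2.1.ne_zero))
    rw [h2] at h1
    have h3 : ((p b : ℕ) : ℤ) ∣ c b k % (p b : ℕ) - c b k := by
      rw [Int.emod_def]
      exact ⟨-(c b k / (p b : ℕ)), by ring⟩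
    have e : (k1 : ℤ) - c b k = ((k1 : ℤ) - c b k % (p b : ℕ)) + (c b k % (p b : ℕ) - c b k) := by
      ring
    rw [e]
    exact dvd_add h1 h3
  choose c' hc' using hcrt
  refine ⟨∏ b : Fin (n + 1), p b, c', Finset.prod_pos fun b _ => (hp b).2.1.pos,
    Nat.Coprime.prod_left fun b _ => (((hp b).2.1.coprime_iff_not_dvd).2 fun h => ?_),
    fun s hs => ?_⟩
  · have h5 := Nat.le_of_dvd hN h
    have h6 := (hp b).1
    omega
  have hsb : ∀ (b : Fin (n + 1)) (k : Fin n), ((p b : ℕ) : ℤ) ∣ s k - c b k := by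
    intro b k
    have h1 : ((p b : ℕ) : ℤ) ∣ s k - c' k :=
      (Int.natCast_dvd_natCast.2 (Finset.dvd_prod_of_mem (fun b : Fin (n + 1) => p b)
        (Finset.mem_univ b))).trans (hs k)
    have e : s k - c b k = (s k - c' k) + (c' k - c b k) := by ring
    rw [e]
    exact dvd_add h1 (hc' k b)
  have hall := fun b => hc b s (hsb b)
  choose h0 h1 σ h2 h3 h4 using hall
  exact ⟨h0 0, ℓ, σ, fun a k => map_intCast (σ a) _, fun a i => ⟨(hℓ a i).1, (hℓ a i).2, h2 a a i⟩,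
    h1 0, fun a i y hy => h3 a i y hy, fun a i b k hne => h4 b a i k hne⟩

/-- every residue class contains a residue class of centres -/
theorem dense_sep (n N : ℕ) (hN : 0 < N) (c₀ : Fin n → ℤ) : ∃ (m : ℕ) (c : Fin n → ℤ), 0 < m ∧
    N ∣ m ∧ (∀ i, (N : ℤ) ∣ c i - c₀ i) ∧
    ∀ s : Fin n → ℤ, (∀ i, (m : ℤ) ∣ s i - c i) → (∀ i, s i ≠ 0 ∧ s i ≠ 1728) ∧
      ∃ (ℓ : Fin (n + 1) → Fin n → ℕ) (σ : Fin (n + 1) → ℂ ≃+* ℂ),
        Sep (fun i => (s i : ℂ)) ℓ σ := by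
  obtain ⟨m, c, hm, hmN, h⟩ := exists_sep n N hN
  have hcop : IsCoprime (m : ℤ) (N : ℤ) := Nat.isCoprime_iff_coprime.2 hmN
  obtain ⟨u, v, huv⟩ := hcop
  refine ⟨N * m, fun i => c₀ i * (u * m) + c i * (v * N), Nat.mul_pos hN hm, dvd_mul_right _ _,
    fun i => ⟨v * (c i - c₀ i), ?_⟩, fun s hs => h s fun i => ?_⟩
  · linear_combination (c₀ i) * huv
  · have h1 : (m : ℤ) ∣ s i - (c₀ i * (u * m) + c i * (v * N)) :=
      (by
        push_cast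
        exact dvd_mul_left _ _ : (m : ℤ) ∣ ((N * m : ℕ) : ℤ)).trans (hs i)
    have e : s i - c i = (s i - (c₀ i * (u * m) + c i * (v * N))) + m * (u * (c₀ i - c i)) := by
      linear_combination (c i) * huv
    rw [e]
    exact dvd_add h1 (dvd_mul_right _ _)

end Pool.Agent.H882
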