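import Pool.Agent.H882.FyType
import Pool.Agent.H882.NvSep
import Pool.Agent.H882.FyDvg
import Pool.Agent.H882.NfLoc

/-!
The general theorem for a fixed centre: points which for all embeddings have at most `m` coordinates
which are not near to the centre.
-/

set_option autoImplicit false

namespace Pool.Agent.H882

open UpperHalfPlane H294ZP Function Pool.Agent.N135.ZO Cardinal
open Pool.Agent.Y226

/-- For all embeddings above the prime `p` for which the elements of `S` are units, at most `m`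
coordinates of `y` are not near to `c`. -/
def FarLE {N : ℕ} (S : Finset ℂ) (p m : ℕ) (c : Fin N → QA) (y : Fin N → ℂ) : Prop :=
  ∀ (C : Type) [NormedField C] [IsUltrametricDist C] [CharZero C] (Φ : ℂ →+* C),
    ‖(p : C)‖ = (p : ℝ)⁻¹ → (∀ b ∈ S, ‖Φ b‖ = 1) →
      ∃ Bad : Finset (Fin N), Bad.card ≤ m ∧ ∀ i, i ∉ Bad → ‖Φ (y i) - Φ (c i)‖ < 1

theorem fz_master {n : ℕ} {c : Fin n → QA} (hc : ∀ i, c i ≠ 0 ∧ c i ≠ 1728)
    {ℓ : Fin (n + 1) → Fin n → ℕ} {σ : Fin (n + 1) → ℂ ≃+* ℂ}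
    (hsep : Sep (fun i => (c i : ℂ)) ℓ σ) :
    ∃ (P : Fin (n + 1) → Set ℕ) (N : Set ℕ),
      (∀ a, ∀ p ∈ P a, p.Prime) ∧ (∀ a, Dvg (P a)) ∧
      (∀ ε : ℝ, 0 < ε → ∃ H₀ : ℕ, ∀ H : ℕ, H₀ ≤ H → ((N ∩ Set.Icc 0 H).ncard : ℝ) ≤ ε * H) ∧
      (∀ B : ℕ, ∃ T : ℕ, ∀ t, T ≤ t → t ∉ N → ∀ a, ∃ p ∈ P a, B < p ∧ p ∣ t) ∧
      ∀ (F : Subfield ℂ) (S : Finset ℂ), (∀ b ∈ S, b ≠ 0) → (∀ b ∈ S, b ∈ F) → ∃ B : ℕ,
        ∀ (g : Fin (n + 1) → ℕ), (∀ a, g a ∈ P a ∧ B < g a) → ∀ (m : ℕ) (y : Fin n → ℂ),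
          (∀ a, FarLE S (g a) m c y) → ∀ (r : ℕ) (Z : SpecialDatum n r), y ∈ Z.locus →
            ∀ W : Finset (Fin n), AlgebraicIndependent F (fun i : W => y i) →
              n + W.card ≤ m + r := by
  classical
  obtain ⟨P, Γ, hP, hPd, hloc, hdis⟩ := fy_local (s := c) hc hsep
  obtain ⟨N, hN, hNT⟩ := fx_null P hP hPd
  refine ⟨P, N, hP, hPd, hN, hNT, fun F S hS0 hSF => ?_⟩
  obtain ⟨F₀, hF₀⟩ : ∃ F₀ : Subfield ℂ, F₀ = Subfield.closure (S : Set ℂ) := ⟨_, rfl⟩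
  have hF₀F : F₀ ≤ F := by
    rw [hF₀, Subfield.closure_le]
    exact fun b hb => hSF b hb
  have hF₀c : #F₀ ≤ ℵ₀ := by
    rw [hF₀]
    refine (Subfield.cardinalMk_closure_le_max _).trans (max_le ?_ le_rfl)
    exact (Cardinal.lt_aleph0_of_finite _).le
  obtain ⟨B, hB⟩ := emb_units hF₀c S hS0 fun b hb => by
    rw [hF₀]
    exact Subfield.subset_closure hb
  refine ⟨B, fun g hg m y hfar r Z hyZ W hind => ?_⟩
  obtain ⟨a, ha⟩ : ∃ a : Fin (n + 1), ∀ i, y i ∉ Γ a (g a) i := by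
    by_contra hno
    push Not at hno
    choose e he using hno
    obtain ⟨a, b, hab, heab⟩ := Fintype.exists_ne_map_eq_of_card_lt e (by simp)
    refine hdis a b hab (g a) (hg a).1 (g b) (hg b).1 (e a) (y (e a)) (he a) ?_
    rw [heab]
    exact he b
  obtain ⟨hpP, hpB⟩ := hg a
  have hfa := hfar a
  obtain ⟨p, hpg⟩ : ∃ p, p = g a := ⟨_, rfl⟩
  rw [← hpg] at hpP hpB ha hfa
  have p1 := hP a p hpP
  obtain ⟨C', i1, i2, i3, i4, i5, φ₀, hpC, hCC⟩ := hloc a p hpP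
  have hind' : AlgebraicIndependent F₀ (fun i : W => y i) := by
    let : Algebra F₀ F := (Subfield.inclusion hF₀F).toAlgebra
    have : IsScalarTower F₀ F ℂ := IsScalarTower.of_algebraMap_eq fun x => rfl
    exact hind.restrictScalars (algebraMap F₀ F).injective
  refine open_local p1 φ₀ hpC hCC (F := F₀) (m := m) y ha (fun {_} _ y' hy' a' => ?_)
    Z hyZ W hind'
  obtain ⟨Φ, g1, g2, g3⟩ := hB p p1 hpB C' φ₀ hpC y' hy' a'
  obtain ⟨Bad, hBad1, hBad2⟩ := hfa C' Φ hpC g3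
  refine ⟨Φ, g1, g2, Bad, hBad1, fun i hi => ?_⟩
  have := hBad2 i hi
  rwa [g1] at this

end Pool.Agent.H882
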