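import Pool.Agent.H882.MvEmb

/-!
The local theorem in the mixed case, for embeddings with at most `m` bad coordinates.
-/

set_option autoImplicit false

namespace Pool.Agent.H882

open UpperHalfPlane H294ZP Function Pool.Agent.Y226

/-- The local statement for `E` and `Γ`, for one embedding of the algebraic numbers. -/
def CoreC (n p : ℕ) (E : Set (Fin n → ZMod p)) (Γ : ZMod p → Set ℂ) {C : Type} [NormedField C]
    (φ₀ : QA →+* C) : Prop :=
  ∀ Φ : ℂ →+* C, (∀ a : QA, Φ (a : ℂ) = φ₀ a) → ∀ (s : Fin n → ℤ),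
    (fun i => (s i : ZMod p)) ∉ E → ∀ (r : ℕ) (Z : SpecialDatum n r) (x : Fin n → ℂ),
    x ∈ Z.locus → ∀ (J W : Finset (Fin n)), (∀ i ∈ J, ‖Φ (x i) - (s i : C)‖ ≤ ‖(p : C)‖) →
    (∀ i ∈ J, x i ∉ Γ (s i)) → (∀ i ∈ W, 1 < ‖Φ (x i)‖) →
    AlgebraicIndependent ℚ (fun i : W => x i) → J.card + W.card ≤ r

theorem mv_local {n k M p : ℕ} (hp : p.Prime) {E : Set (Fin n → ZMod p)} {Γ : ZMod p → Set ℂ}
    {C : Type} [NormedField C] [IsUltrametricDist C] [CompleteSpace C] [CharZero C]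
    [IsAlgClosed C] (φ₀ : QA →+* C) (hpC : ‖(p : C)‖ = (p : ℝ)⁻¹) (hmain : CoreC n p E Γ φ₀)
    {F : Subfield ℂ} {m : ℕ} (y : Fin (n + k) → ℂ)
    (hemb : ∀ {ι : Type} [Finite ι] (u : ι → ℂ), AlgebraicIndependent F u → ∀ (a : ι → QA),
      ∃ Φ : ℂ →+* C, (∀ a : QA, Φ (a : ℂ) = φ₀ a) ∧ (∀ i, ‖Φ (u i) - φ₀ (a i)‖ < 1) ∧
        (Finset.univ.filter fun i => 1 < ‖Φ (y i)‖).card ≤ m)
    (s : Fin (n + k) → ℤ) (hs : (fun i : Fin n => (s (Fin.castAdd k i) : ZMod p)) ∉ E)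
    (hsk : ∀ j : Fin k, ¬ (p : ℤ) ∣ s (Fin.natAdd n j))
    (lam : Fin (n + k) → ℂ) (hlam : ∀ i, IsIntegral ℤ (lam i))
    (t : Fin M → ℕ) (A : Fin M → Fin k → ℤ) (l : Fin M) (ht0 : t l ≠ 0) (hpl : p ∣ t l)
    (hpl' : ∀ l', l' ≠ l → ¬ p ∣ t l') (x : Fin n → ℂ) (z : Fin k → ℂ)
    (hx : ∀ i, x i = (s (Fin.castAdd k i) : ℂ) +
      (p : ℂ) * lam (Fin.castAdd k i) * y (Fin.castAdd k i))
    (hz : ∀ j, z j = (∏ l', (t l' : ℂ) ^ A l' j) * ((s (Fin.natAdd n j) : ℂ) +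
      (p : ℂ) * lam (Fin.natAdd n j) * y (Fin.natAdd n j)))
    {r : ℕ} (Z : SpecialDatum n r) (hxZ : x ∈ Z.locus)
    (hxΓ : ∀ i, x i ∉ Γ (s (Fin.castAdd k i)))
    (L : AddSubgroup (Fin k → ℤ)) (g : Fin k → ℂ) (hg0 : ∀ j, g j ≠ 0)
    (hg : ∀ j, PI p (g j) ∧ PI p (g j)⁻¹)
    (hzL : ∀ χ ∈ L, ∏ j, z j ^ χ j = ∏ j, g j ^ χ j)
    (W : Finset (Fin n)) (V : Finset (Fin k))
    (hind : AlgebraicIndependent F (Sum.elim (fun i : W => x i) (fun j : V => z j))) :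
    ∃ B : Finset (Fin k), V ⊆ B ∧ n + W.card + B.card ≤ m + r ∧
      ∀ χ ∈ L, (∀ j ∈ B, j ∉ V → χ j = 0) → ∑ j, χ j * A l j = 0 := by
  classical
  have hp1 : ‖(p : C)‖ < 1 := by
    rw [hpC]
    exact inv_lt_one_of_one_lt₀ (by exact_mod_cast hp.one_lt)
  have hpR : (1 : ℝ) < p := by exact_mod_cast hp.one_lt
  have hpR0 : (0 : ℝ) < p := by exact_mod_cast hp.pos
  obtain ⟨w, u, hu, hwu⟩ := Nat.exists_eq_pow_mul_and_not_dvd ht0 p hp.ne_one
  have hw0 : w ≠ 0 := by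
    rintro rfl
    rw [pow_zero, one_mul] at hwu
    rw [hwu] at hpl
    exact hu hpl
  have hunitN : ∀ a : ℕ, ¬ p ∣ a → ‖(a : C)‖ = 1 := by
    intro a ha
    have h1 := norm_unit (C := C) hp hp1 (a := (a : ℤ)) (by exact_mod_cast ha)
    simpa using h1
  have htl : ‖(t l : C)‖ = ((p : ℝ) ^ w)⁻¹ := by
    rw [hwu, Nat.cast_mul, Nat.cast_pow, norm_mul, norm_pow, hunitN u hu, mul_one, hpC, inv_pow]
  have hscale : ∀ j, ‖∏ l', ((t l' : ℕ) : C) ^ A l' j‖ = (p : ℝ) ^ (-((w : ℤ) * A l j)) := by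
    intro j
    rw [norm_prod, Finset.prod_eq_single l]
    · rw [norm_zpow, htl, ← zpow_natCast, ← zpow_neg, ← zpow_mul, neg_mul]
    · intro l' _ hl'
      rw [norm_zpow, hunitN _ (hpl' l' hl'), one_zpow]
    · intro h
      exact absurd (Finset.mem_univ l) h
  -- the embeddings
  have hΦ : ∀ N : ℕ, ∃ Φ : ℂ →+* C, (∀ a : QA, Φ (a : ℂ) = φ₀ a) ∧
      (Finset.univ.filter fun i => 1 < ‖Φ (y i)‖).card ≤ m ∧ (∀ i ∈ W, 1 < ‖Φ (x i)‖) ∧
      ∀ j ∈ V, 1 ≤ N → ‖Φ (z j)‖ = (p : ℝ) ^ ((N : ℤ) ^ (j.val + 1)) := by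
    intro N
    obtain ⟨Φ, h1, h3, h2⟩ := hemb _ hind
      (Sum.elim (fun _ => (p : QA)⁻¹) (fun j => ((p : QA)⁻¹) ^ (N ^ (j.val.val + 1))))
    have hnear : ∀ {a b : C}, ‖a - b‖ < 1 → 1 < ‖b‖ → ‖a‖ = ‖b‖ := by
      intro a b hab hb
      have e : a = b + (a - b) := by ring
      rw [e, IsUltrametricDist.norm_add_eq_max_of_norm_ne_norm]
      · exact max_eq_left (hab.trans hb).le
      · exact (hab.trans hb).ne'
    have hq : ‖φ₀ ((p : QA)⁻¹)‖ = p := by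
      rw [map_inv₀, map_natCast, norm_inv, hpC, inv_inv]
    refine ⟨Φ, h1, h2, fun i hi => ?_, fun j hj hN => ?_⟩
    · have h4 : ‖Φ (x i) - φ₀ ((p : QA)⁻¹)‖ < 1 := h3 (Sum.inl ⟨i, hi⟩)
      rw [hnear h4 (by rw [hq]; exact hpR), hq]
      exact hpR
    · have h4 : ‖Φ (z j) - φ₀ (((p : QA)⁻¹) ^ (N ^ (j.val + 1)))‖ < 1 := h3 (Sum.inr ⟨j, hj⟩)
      have h5 : ‖φ₀ (((p : QA)⁻¹) ^ (N ^ (j.val + 1)))‖ = (p : ℝ) ^ (N ^ (j.val + 1)) := by
        rw [map_pow, norm_pow, hq]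
      rw [hnear h4, h5]
      · exact_mod_cast (zpow_natCast (p : ℝ) (N ^ (j.val + 1))).symm
      · rw [h5]
        exact one_lt_pow₀ hpR (pow_ne_zero _ (by omega))
  choose Φ hΦ1 hΦ2 hΦ3 hΦ4 using hΦ
  -- the bad coordinates
  have hbad : ∀ N, (Finset.univ.filter fun i => 1 < ‖Φ N (y i)‖).card ≤ m := hΦ2
  obtain ⟨Bk, hBk⟩ : ∃ Bk : ℕ → Finset (Fin k), ∀ N, Bk N =
    Finset.univ.filter fun j : Fin k => 1 < ‖Φ N (y (Fin.natAdd n j))‖ := ⟨_, fun _ => rfl⟩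
  have hlamN : ∀ N i, ‖Φ N (lam i)‖ ≤ 1 := fun N i => norm_le_one_of_isIntegral (Φ N) (hlam i)
  have hsmall : ∀ N i, ¬ 1 < ‖Φ N (y i)‖ → ‖Φ N ((p : ℂ) * lam i * y i)‖ ≤ ‖(p : C)‖ := by
    intro N i hi
    rw [map_mul, map_mul, map_natCast, norm_mul, norm_mul, mul_assoc]
    exact mul_le_of_le_one_right (norm_nonneg _) (mul_le_one₀ (hlamN N i) (norm_nonneg _)
      (not_lt.1 hi))
  have hcardN : ∀ N, n + W.card + (Bk N).card ≤ m + r := by
    intro N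
    have h1 := hmain (Φ N) (hΦ1 N) (fun i => s (Fin.castAdd k i)) hs r Z x hxZ
      (Finset.univ.filter fun i : Fin n => ¬ 1 < ‖Φ N (y (Fin.castAdd k i))‖) W
      (fun i hi => by
        rw [hx i, map_add, map_intCast, add_sub_cancel_left]
        exact hsmall N _ (Finset.mem_filter.1 hi).2)
      (fun i _ => hxΓ i) (hΦ3 N)
      ((hind.comp Sum.inl Sum.inl_injective).restrictScalars (algebraMap ℚ F).injective)
    have h2 := Finset.card_filter_add_card_filter_not (s := (Finset.univ : Finset (Fin n)))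
      (fun i : Fin n => 1 < ‖Φ N (y (Fin.castAdd k i))‖)
    rw [Finset.card_univ, Fintype.card_fin] at h2
    have h3 := hbad N
    rw [card_add, ← hBk N] at h3
    omega
  have hgood : ∀ N j, j ∉ Bk N → ‖Φ N (z j)‖ = (p : ℝ) ^ (-((w : ℤ) * A l j)) := by
    intro N j hj
    have h0 : ¬ 1 < ‖Φ N (y (Fin.natAdd n j))‖ := by
      intro h
      apply hj
      rw [hBk N]
      exact Finset.mem_filter.2 ⟨Finset.mem_univ j, h⟩
    have h1 := hsmall N _ h0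
    have h2 := norm_unit (C := C) hp hp1 (hsk j)
    have h3 : ‖(s (Fin.natAdd n j) : C) + Φ N ((p : ℂ) * lam (Fin.natAdd n j) *
        y (Fin.natAdd n j))‖ = 1 := by
      rw [IsUltrametricDist.norm_add_eq_max_of_norm_ne_norm]
      · rw [h2]
        exact max_eq_left (h1.trans hp1.le)
      · rw [h2]
        exact (h1.trans_lt hp1).ne'
    have h4 : Φ N (∏ l', (t l' : ℂ) ^ A l' j) = ∏ l', ((t l' : ℕ) : C) ^ A l' j := by
      rw [map_prod]
      exact Finset.prod_congr rfl fun l' _ => by rw [map_zpow₀, map_natCast]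
    rw [hz j, map_mul, map_add, map_intCast, norm_mul, h3, mul_one, h4, hscale]
  obtain ⟨N₀, hN₀1, hN₀⟩ : ∃ N₀ : ℕ, 1 ≤ N₀ ∧ ∀ N, N₀ ≤ N → V ⊆ Bk N := by
    refine ⟨1 + ∑ j, ((w : ℤ) * A l j).natAbs, by omega, fun N hN j hj => ?_⟩
    by_contra hjB
    have h1 := hgood N j hjB
    rw [hΦ4 N j hj (by omega)] at h1
    have h2 : ((N : ℤ) ^ (j.val + 1)) = -((w : ℤ) * A l j) :=
      zpow_right_injective₀ hpR0 hpR.ne' h1
    have h3 : ((w : ℤ) * A l j).natAbs ≤ ∑ j, ((w : ℤ) * A l j).natAbs :=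
      Finset.single_le_sum (f := fun j => ((w : ℤ) * A l j).natAbs) (fun _ _ => Nat.zero_le _)
        (Finset.mem_univ j)
    have h4 : N ≤ N ^ (j.val + 1) := Nat.le_self_pow (Nat.succ_ne_zero _) N
    have h5 : (N : ℤ) ≤ (N : ℤ) ^ (j.val + 1) := by exact_mod_cast h4
    omega
  -- the same bad set for infinitely many exponents
  obtain ⟨B, hB⟩ := Finite.exists_infinite_fiber fun N : ℕ => Bk (N + N₀)
  have hinf : {N : ℕ | N₀ ≤ N ∧ Bk N = B}.Infinite := by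
    have h1 : ((fun N : ℕ => Bk (N + N₀)) ⁻¹' {B}).Infinite := Set.infinite_coe_iff.1 hB
    refine (h1.image (f := fun N => N + N₀) (fun a _ b _ hab => by
      simpa using hab)).mono ?_
    rintro _ ⟨N, hN, rfl⟩
    exact ⟨Nat.le_add_left _ _, hN⟩
  obtain ⟨N₁, hN₁, hN₁B⟩ := hinf.nonempty
  have hVB : V ⊆ B := by
    rw [← hN₁B]
    exact hN₀ N₁ hN₁
  refine ⟨B, hVB, ?_, fun χ hχ hχ0 => ?_⟩
  · rw [← hN₁B]
    exact hcardN N₁
  · have hid : ∀ N ∈ {N : ℕ | N₀ ≤ N ∧ Bk N = B},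
        ∑ j ∈ V, χ j * (N : ℤ) ^ (j.val + 1) = ∑ j ∈ Bᶜ, χ j * ((w : ℤ) * A l j) := by
      rintro N ⟨hN, hNB⟩
      have hgn : ∀ j, ‖Φ N (g j)‖ = 1 := by
        intro j
        refine le_antisymm (norm_of_PI hp hp1 (Φ N) (hg j).1) ?_
        have h1 := norm_of_PI hp hp1 (Φ N) (hg j).2
        rw [map_inv₀, norm_inv] at h1
        exact (inv_le_one₀ (norm_pos_iff.2 ((map_ne_zero (Φ N)).2 (hg0 j)))).1 h1
      have h1 := congrArg (fun a => ‖Φ N a‖) (hzL χ hχ)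
      simp only [map_prod, map_zpow₀, norm_prod, norm_zpow, hgn, one_zpow,
        Finset.prod_const_one] at h1
      have h2 : ∀ j, ‖Φ N (z j)‖ ^ χ j = (p : ℝ) ^ ((if j ∈ V then χ j * (N : ℤ) ^ (j.val + 1)
          else 0) - (if j ∈ Bᶜ then χ j * ((w : ℤ) * A l j) else 0)) := by
        intro j
        by_cases hjV : j ∈ V
        · rw [if_pos hjV, if_neg (by simpa using hVB hjV), sub_zero, hΦ4 N j hjV (by omega),
            ← zpow_mul, mul_comm]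
        · rw [if_neg hjV]
          by_cases hjB : j ∈ B
          · rw [if_neg (by simpa using hjB), hχ0 j hjB hjV, sub_zero]
            simp
          · rw [if_pos (by simpa using hjB), hgood N j (by rw [hNB]; exact hjB), ← zpow_mul]
            congr 1
            ring
      have h3 : (p : ℝ) ^ (∑ j, ((if j ∈ V then χ j * (N : ℤ) ^ (j.val + 1)
          else 0) - (if j ∈ Bᶜ then χ j * ((w : ℤ) * A l j) else 0))) = (p : ℝ) ^ (0 : ℤ) := by
        rw [zpow_zero, ← h1, ← prod_zp hpR0.ne']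
        exact Finset.prod_congr rfl fun j _ => (h2 j).symm
      have h4 := zpow_right_injective₀ hpR0 hpR.ne' h3
      rw [Finset.sum_sub_distrib, Finset.sum_ite_mem, Finset.sum_ite_mem, Finset.univ_inter,
        Finset.univ_inter] at h4
      linarith
    obtain ⟨h1, h2⟩ := exps_zero V B χ (fun j => (w : ℤ) * A l j) _ hinf hid
    have h3 : (w : ℤ) * ∑ j, χ j * A l j = ∑ j ∈ Bᶜ, χ j * ((w : ℤ) * A l j) := by
      rw [Finset.mul_sum, ← Finset.sum_add_sum_compl B]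
      have h4 : ∑ j ∈ B, (w : ℤ) * (χ j * A l j) = 0 := by
        refine Finset.sum_eq_zero fun j hj => ?_
        by_cases hjV : j ∈ V
        · rw [h1 j hjV]
          ring
        · rw [hχ0 j hj hjV]
          ring
      rw [h4, zero_add]
      exact Finset.sum_congr rfl fun j _ => by ring
    rw [h2] at h3
    rcases mul_eq_zero.1 h3 with h4 | h4
    · exact absurd (by exact_mod_cast h4) hw0
    · exact h4

end Pool.Agent.H882
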