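import Pool.Agent.H882.FzFam
import Pool.Agent.H882.CenIso

/-!
Points with many coordinates in given isogeny classes.
-/

set_option autoImplicit false

namespace Pool.Agent.H882

open UpperHalfPlane H294ZP Function Pool.Agent.N135.ZO

theorem isCM_I : IsCM UpperHalfPlane.I := by
  refine ⟨1, 0, 1, one_ne_zero, ?_⟩
  show ((1 : ℤ) : ℂ) * (UpperHalfPlane.I : ℂ) ^ 2 + ((0 : ℤ) : ℂ) * (UpperHalfPlane.I : ℂ) +
    ((1 : ℤ) : ℂ) = 0
  have h : (UpperHalfPlane.I : ℂ) = Complex.I := rfl
  rw [h, Complex.I_sq]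
  push_cast
  ring

/-- The point `(x, u)` is contained in a special subvariety of dimension `k + n - |I|` if the
coordinates `x_i`, `i ∈ I`, are singular moduli or isogenous to one of the `u_l`. -/
theorem exists_datum {n k : ℕ} (x : Fin n → ℂ) (u : Fin k → ℂ) (I : Finset (Fin n))
    (hI : ∀ i ∈ I, (∃ τ : ℍ, IsCM τ ∧ jj τ = x i) ∨ ∃ l, Isog (u l) (x i)) :
    ∃ Z : SpecialDatum (n + k) (k + Iᶜ.card), Fin.append x u ∈ Z.locus := by
  classical
  choose zu hzu using fun l => Pool.Agent.Q223.UV.jj_surj (u l)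
  choose zx hzx using fun i => Pool.Agent.Q223.UV.jj_surj (x i)
  obtain ⟨e⟩ : Nonempty ({i // i ∈ Iᶜ} ≃ Fin Iᶜ.card) := ⟨Finset.equivFin _⟩
  have hI' : ∀ i : Fin n, ∃ (c : Option (Fin (k + Iᶜ.card))) (g : Matrix (Fin 2) (Fin 2) ℤ)
      (τ : ℍ), 0 < g.det ∧ IsCM τ ∧ (c = none → x i = jj τ) ∧
      (∀ j, c = some j → ∃ w : ℍ, Rel g (Fin.append zu (fun j => zx (e.symm j).1) j) w ∧
        x i = jj w) ∧ ∀ hi : i ∈ Iᶜ, c = some (Fin.natAdd k (e ⟨i, hi⟩)) := by
    intro i
    by_cases hi : i ∈ I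
    · rcases hI i hi with ⟨τ, hτ, hτx⟩ | ⟨l, g, τ, w, hg, hrel, hτ, hw⟩
      · refine ⟨none, 1, τ, by simp, hτ, fun _ => hτx.symm, fun j hj => (by cases hj),
          fun h => absurd hi (Finset.mem_compl.1 h)⟩
      · obtain ⟨γ, hγ, hγrel⟩ := Pool.Agent.N101.ZP.jj_inj ((hzu l).trans hτ.symm)
        refine ⟨some (Fin.castAdd _ l), g * γ, UpperHalfPlane.I, ?_, isCM_I,
          fun h => (by cases h), fun j hj => ⟨w, ?_, hw.symm⟩,
          fun h => absurd hi (Finset.mem_compl.1 h)⟩
        · rw [Matrix.det_mul, hγ, mul_one]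
          exact hg
        · obtain rfl := Option.some_injective _ hj
          rw [Fin.append_left]
          exact hγrel.mul hrel
    · refine ⟨some (Fin.natAdd k (e ⟨i, Finset.mem_compl.2 hi⟩)), 1, UpperHalfPlane.I, by simp,
        isCM_I, fun h => (by cases h), fun j hj => ⟨zx i, ?_, (hzx i).symm⟩, fun h => rfl⟩
      obtain rfl := Option.some_injective _ hj
      rw [Fin.append_right, Equiv.symm_apply_apply]
      exact rel_one _
  choose c g τ h1 h2 h3 h4 h5 using hI'
  refine ⟨⟨Fin.append c (fun l => some (Fin.castAdd _ l)), ?_, Fin.append g (fun _ => 1), ?_,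
    Fin.append τ (fun _ => UpperHalfPlane.I), ?_⟩, Fin.append zu (fun j => zx (e.symm j).1),
    fun i => ?_⟩
  · intro j
    refine Fin.addCases (fun l => ⟨Fin.natAdd n l, ?_⟩) (fun j => ⟨Fin.castAdd k (e.symm j).1, ?_⟩)
      j
    · rw [Fin.append_right]
    · rw [Fin.append_left, h5 _ (e.symm j).2]
      congr 2
      exact e.apply_symm_apply j
  · intro i
    refine Fin.addCases (fun i => ?_) (fun l => ?_) i
    · rw [Fin.append_left]
      exact h1 i
    · rw [Fin.append_right]
      simp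
  · intro i
    refine Fin.addCases (fun i => ?_) (fun l => ?_) i
    · rw [Fin.append_left]
      exact h2 i
    · rw [Fin.append_right]
      exact isCM_I
  · refine Fin.addCases (fun i => ?_) (fun l => ?_) i
    · simp only [Fin.append_left]
      exact ⟨h3 i, fun j hj => h4 i j hj⟩
    · simp only [Fin.append_right]
      refine ⟨fun h => (by cases h), fun j hj => ⟨zu l, ?_, (hzu l).symm⟩⟩
      obtain rfl := Option.some_injective _ hj
      simp only [Fin.append_left]
      exact rel_one _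

end Pool.Agent.H882
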