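import Pool.Agent.H882.Crit

/-!
The residues of a point at a place, for varieties given by multihomogeneous forms.
-/

set_option autoImplicit false

namespace Pool.Agent.H882

open UpperHalfPlane H294ZP Function Pool.Agent.N135.ZO NumberField IsDedekindDomain

/-- The residues of the coordinates of a point in a product of projective lines. -/
theorem residues {R : Type} [CommRing R] (𝔭 : Ideal R) (σ : R →+* ℂ) {n : ℕ}
    (V : ValuationSubring ℂ) (hA1 : ∀ a : R, V.valuation (σ a) ≤ 1)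
    (hA2 : ∀ a : R, a ∈ 𝔭 → V.valuation (σ a) < 1)
    (y : Fin n → ℂ) (W : Finset (Fin n)) (hyW : ∀ i ∈ W, y i ∈ V)
    (hV2 : ∀ Q : MvPolynomial W R, V.valuation (MvPolynomial.eval₂ σ (fun i : W => y i) Q) < 1 ↔
        MvPolynomial.map (Ideal.Quotient.mk 𝔭) Q = 0)
    {T : Type} (F : T → MForm R n) (hy : ∀ t, (F t).eval σ y (fun _ => 1) = 0) :
    ∃ (κ : Type) (_ : Field κ) (_ : Algebra (R ⧸ 𝔭) κ) (ξ ζ : Fin n → κ),
      (∀ i, ξ i ≠ 0 ∨ ζ i ≠ 0) ∧
      (∀ t, (F t).eval ((algebraMap (R ⧸ 𝔭) κ).comp (Ideal.Quotient.mk 𝔭)) ξ ζ = 0) ∧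
      AlgebraicIndependent (R ⧸ 𝔭) (fun i : W => ξ i / ζ i) ∧
      (∀ i, V.valuation (y i) < 1 → ξ i = 0) ∧ ∀ i, 1 < V.valuation (y i) → ζ i = 0 := by
  classical
  let π : R →+* V :=
    { toFun := fun a => ⟨σ a, (V.valuation_le_one_iff _).1 (hA1 a)⟩
      map_one' := Subtype.ext (by simp)
      map_mul' := fun a b => Subtype.ext (by simp)
      map_zero' := Subtype.ext (by simp)
      map_add' := fun a b => Subtype.ext (by simp) }
  let κ := IsLocalRing.ResidueField V
  let res : V →+* κ := IsLocalRing.residue V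
  have hker : ∀ a ∈ 𝔭, (res.comp π) a = 0 := by
    intro a ha
    show IsLocalRing.residue V (π a) = 0
    rw [IsLocalRing.residue_eq_zero_iff, V.valuation_lt_one_iff]
    exact hA2 a ha
  let _ : Algebra (R ⧸ 𝔭) κ := (Ideal.Quotient.lift 𝔭 (res.comp π) hker).toAlgebra
  have hres : (algebraMap (R ⧸ 𝔭) κ).comp (Ideal.Quotient.mk 𝔭) = res.comp π := by
    ext a
    rfl
  -- the coordinates
  have hco : ∀ i, ∃ ξ ζ : V, (ξ : ℂ) = y i * ζ ∧ (res ξ ≠ 0 ∨ res ζ ≠ 0) ∧
      (V.valuation (y i) < 1 → res ξ = 0) ∧ (1 < V.valuation (y i) → res ζ = 0) ∧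
      (y i ∈ V → ζ = 1) := by
    intro i
    by_cases hi : y i ∈ V
    · refine ⟨⟨y i, hi⟩, 1, by simp, Or.inr (by simp), fun h => ?_, fun h => ?_, fun _ => rfl⟩
      · show IsLocalRing.residue V _ = 0
        rw [IsLocalRing.residue_eq_zero_iff, V.valuation_lt_one_iff]
        exact h
      · exact absurd h (not_lt.2 ((V.valuation_le_one_iff _).2 hi))
    · have hgt : 1 < V.valuation (y i) := by
        rw [← not_le, V.valuation_le_one_iff]
        exact hi
      have hne : y i ≠ 0 := by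
        rintro h
        rw [h, map_zero] at hgt
        exact absurd hgt (not_lt.2 zero_le)
      have hinv : (y i)⁻¹ ∈ V := (V.mem_or_inv_mem (y i)).resolve_left hi
      have hlt : V.valuation (y i)⁻¹ < 1 := by
        rw [map_inv₀]
        exact inv_lt_one_of_one_lt₀ hgt
      refine ⟨1, ⟨(y i)⁻¹, hinv⟩, ?_, Or.inl (by simp), fun h => ?_, fun _ => ?_,
        fun h => absurd h hi⟩
      · show (1 : ℂ) = y i * (y i)⁻¹
        rw [mul_inv_cancel₀ hne]
      · exact absurd hgt (not_lt.2 h.le)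
      · show IsLocalRing.residue V _ = 0
        rw [IsLocalRing.residue_eq_zero_iff, V.valuation_lt_one_iff]
        exact hlt
  choose ξ ζ hξ hne hzero hinf hone using hco
  refine ⟨κ, inferInstance, inferInstance, fun i => res (ξ i), fun i => res (ζ i), hne, ?_, ?_,
    hzero, hinf⟩
  · intro t
    rw [hres, ← MForm.map_eval]
    have h2 : (F t).eval π ξ ζ = 0 := by
      apply Subtype.ext
      have h3 := MForm.map_eval (F t) π V.subtype ξ ζ
      have h4 : V.subtype.comp π = σ := by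
        ext a
        rfl
      rw [h4] at h3
      have h5 : (fun i => V.subtype (ξ i)) = fun i => y i * V.subtype (ζ i) := funext hξ
      rw [h5, MForm.eval_mul, hy t, zero_mul] at h3
      exact h3
    rw [h2, map_zero]
  · have e : (fun i : W => res (ξ i) / res (ζ i)) = fun i : W => res (ξ i) := by
      funext i
      rw [hone i (hyW i i.2), map_one, div_one]
    rw [e, algebraicIndependent_iff]
    intro Q hQ
    obtain ⟨Q, rfl⟩ := MvPolynomial.map_surjective (Ideal.Quotient.mk 𝔭)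
      Ideal.Quotient.mk_surjective Q
    rw [← hV2 Q]
    have h2 : MvPolynomial.eval₂ σ (fun i : W => y i) Q =
        ((MvPolynomial.eval₂ π (fun i : W => ξ i) Q : V) : ℂ) := by
      have h3 := MvPolynomial.eval₂_comp_left V.subtype π (fun i : W => ξ i) Q
      have h4 : (fun i : W => y i) = V.subtype ∘ fun i : W => ξ i := by
        funext i
        simp only [Function.comp]
        have := hξ i
        rw [hone i (hyW i i.2)] at this
        simpa using this.symm
      rw [h4]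
      exact h3.symm
    rw [h2, ← V.valuation_lt_one_iff, ← IsLocalRing.residue_eq_zero_iff]
    have h5 := MvPolynomial.eval₂_comp_left res π (fun i : W => ξ i) Q
    have h6 : MvPolynomial.aeval (fun i : W => res (ξ i))
        (MvPolynomial.map (Ideal.Quotient.mk 𝔭) Q) =
        MvPolynomial.eval₂ (res.comp π) (res ∘ fun i : W => ξ i) Q := by
      rw [MvPolynomial.aeval_def, MvPolynomial.eval₂_map, hres]
      rfl
    rw [h6, ← h5] at hQ
    exact hQ

/-- General position with respect to `0` and `∞`. -/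
theorem genpos_card {R : Type} [CommRing R] (𝔭 : Ideal R) (σ : R →+* ℂ) {n m : ℕ}
    (V : ValuationSubring ℂ) (hA1 : ∀ a : R, V.valuation (σ a) ≤ 1)
    (hA2 : ∀ a : R, a ∈ 𝔭 → V.valuation (σ a) < 1)
    (y : Fin n → ℂ) (W : Finset (Fin n)) (hyW : ∀ i ∈ W, y i ∈ V)
    (hV2 : ∀ Q : MvPolynomial W R, V.valuation (MvPolynomial.eval₂ σ (fun i : W => y i) Q) < 1 ↔
        MvPolynomial.map (Ideal.Quotient.mk 𝔭) Q = 0)
    {T : Type} (F : T → MForm R n) (hy : ∀ t, (F t).eval σ y (fun _ => 1) = 0)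
    (hgen : GenPos 𝔭 F m) : {i | V.valuation (y i) ≠ 1}.ncard + W.card ≤ m := by
  obtain ⟨κ, _, _, ξ, ζ, h1, h2, h3, h4, h5⟩ := residues 𝔭 σ V hA1 hA2 y W hyW hV2 F hy
  have hg := hgen κ ξ ζ h1 h2 W h3
  have hc : {i | V.valuation (y i) ≠ 1}.ncard ≤ {i | ξ i = 0 ∨ ζ i = 0}.ncard := by
    refine Set.ncard_le_ncard (fun i hi => ?_) (Set.toFinite _)
    rcases lt_or_gt_of_ne (show V.valuation (y i) ≠ 1 from hi) with h | h
    · exact Or.inl (h4 i h)
    · exact Or.inr (h5 i h)
  omega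

/-- The reduction modulo `𝔭` of the variety defined by the forms is in general position at
infinity: for every point over an extension of the residue field, the number of the coordinates `∞`
plus the number of algebraically independent coordinates is at most `m`. -/
def GenInf {R : Type} [CommRing R] (𝔭 : Ideal R) {n : ℕ} {T : Type} (F : T → MForm R n) (m : ℕ) :
    Prop :=
  ∀ (k : Type) [Field k] [Algebra (R ⧸ 𝔭) k] (ξ ζ : Fin n → k), (∀ i, ξ i ≠ 0 ∨ ζ i ≠ 0) →
    (∀ t, (F t).eval ((algebraMap (R ⧸ 𝔭) k).comp (Ideal.Quotient.mk 𝔭)) ξ ζ = 0) →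
    ∀ W : Finset (Fin n), AlgebraicIndependent (R ⧸ 𝔭) (fun i : W => ξ i / ζ i) →
      {i | ζ i = 0}.ncard + W.card ≤ m

/-- General position at `∞`. -/
theorem geninf_card {R : Type} [CommRing R] (𝔭 : Ideal R) (σ : R →+* ℂ) {n m : ℕ}
    (V : ValuationSubring ℂ) (hA1 : ∀ a : R, V.valuation (σ a) ≤ 1)
    (hA2 : ∀ a : R, a ∈ 𝔭 → V.valuation (σ a) < 1)
    (y : Fin n → ℂ) (W : Finset (Fin n)) (hyW : ∀ i ∈ W, y i ∈ V)
    (hV2 : ∀ Q : MvPolynomial W R, V.valuation (MvPolynomial.eval₂ σ (fun i : W => y i) Q) < 1 ↔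
        MvPolynomial.map (Ideal.Quotient.mk 𝔭) Q = 0)
    {T : Type} (F : T → MForm R n) (hy : ∀ t, (F t).eval σ y (fun _ => 1) = 0)
    (hgen : GenInf 𝔭 F m) : {i | 1 < V.valuation (y i)}.ncard + W.card ≤ m := by
  obtain ⟨κ, _, _, ξ, ζ, h1, h2, h3, h4, h5⟩ := residues 𝔭 σ V hA1 hA2 y W hyW hV2 F hy
  have hg := hgen κ ξ ζ h1 h2 W h3
  have hc : {i | 1 < V.valuation (y i)}.ncard ≤ {i | ζ i = 0}.ncard :=
    Set.ncard_le_ncard (fun i hi => h5 i hi) (Set.toFinite _)
  omega

end Pool.Agent.H882
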