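import Pool.Agent.H882.KfLoc

/-!
Families in general position at infinity: at most `m` coordinates are large.
-/

set_option autoImplicit false

namespace Pool.Agent.H882

open UpperHalfPlane H294ZP Function Cardinal
open Pool.Agent.Y226

theorem inf_bad {F : Subfield ℂ} {d q m : ℕ} (expo : Finset (Fin d) → Fin d → ℕ)
    (lead : Finset (Fin d) → F) (rest : Finset (Fin d) → MvPolynomial (Fin q ⊕ Fin d) F)
    (expo_eq_zero : ∀ J i, i ∉ J → expo J i = 0) (lead_ne_zero : ∀ J, lead J ≠ 0)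
    (lower : ∀ J, ∀ e ∈ (rest J).support, (∀ i, e (Sum.inr i) ≤ expo J i) ∧
      ∃ i, e (Sum.inr i) < expo J i) :
    ∃ S : Finset ℂ, (∀ b ∈ S, b ≠ 0) ∧ (∀ b ∈ S, b ∈ F) ∧
      ∀ (C : Type) [NormedField C] [IsUltrametricDist C] (Φ : ℂ →+* C),
        (∀ b ∈ S, ‖Φ b‖ = 1) → ∀ lam : Fin q → ℂ,
          (∀ i, IsIntegral ℤ (lam i)) → ∀ x : Fin d → ℂ, (∀ J : Finset (Fin d), J.card = m + 1 →
            (lead J : ℂ) * ∏ i, x i ^ expo J i +
              MvPolynomial.aeval (Sum.elim lam x) (rest J) = 0) →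
            (Finset.univ.filter fun j => 1 < ‖Φ (x j)‖).card ≤ m := by
  classical
  let S : Finset ℂ := (Finset.univ.image fun J : Finset (Fin d) => ((lead J : F) : ℂ)) ∪
    Finset.univ.biUnion fun J : Finset (Fin d) =>
      (rest J).support.image fun v => (((rest J).coeff v : F) : ℂ)
  have hne : ∀ c : F, c ≠ 0 → (c : ℂ) ≠ 0 := fun c hc h => hc (Subtype.ext h)
  have hS0 : ∀ b ∈ S, b ≠ 0 := by
    intro b hb
    rcases Finset.mem_union.1 hb with hb | hb
    · obtain ⟨J, -, rfl⟩ := Finset.mem_image.1 hb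
      exact hne _ (lead_ne_zero J)
    · obtain ⟨J, -, hJ⟩ := Finset.mem_biUnion.1 hb
      obtain ⟨v, hv, rfl⟩ := Finset.mem_image.1 hJ
      exact hne _ (MvPolynomial.mem_support_iff.1 hv)
  have hSF : ∀ b ∈ S, b ∈ F := by
    intro b hb
    rcases Finset.mem_union.1 hb with hb | hb
    · obtain ⟨J, -, rfl⟩ := Finset.mem_image.1 hb
      exact Subtype.property _
    · obtain ⟨J, -, hJ⟩ := Finset.mem_biUnion.1 hb
      obtain ⟨v, hv, rfl⟩ := Finset.mem_image.1 hJ
      exact Subtype.property _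
  refine ⟨S, hS0, hSF, fun C' _ _ Φ g3 lam hlam x hxm => ?_⟩
  by_contra hcard
  rw [not_le] at hcard
  obtain ⟨J, hJ1, hJ2⟩ := Finset.exists_subset_card_eq (Nat.succ_le_of_lt hcard)
  have hmem := hxm J hJ2
  have hsupp : ∀ v ∈ (MvPolynomial.rename (Sum.inr : Fin q ⊕ Fin d → (Fin 0 ⊕ Fin 0) ⊕
      (Fin q ⊕ Fin d)) (MvPolynomial.map (algebraMap F ℂ) (rest J))).support,
      ∃ v' ∈ (rest J).support, v = v'.mapDomain Sum.inr := by
    intro v hv
    obtain ⟨v', hvv, hv'⟩ := MvPolynomial.coeff_rename_ne_zero _ _ _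
      (MvPolynomial.mem_support_iff.1 hv)
    refine ⟨v', ?_, hvv.symm⟩
    rw [MvPolynomial.coeff_map] at hv'
    rw [MvPolynomial.mem_support_iff]
    intro h
    rw [h, map_zero] at hv'
    exact hv' rfl
  have key : ∃ i ∈ J, ‖Φ (x i)‖ ≤ 1 := by
    refine one_inf (N := 0) (M := 0) Φ J (expo J) (expo_eq_zero J) (lead J : ℂ) ?_
      (MvPolynomial.rename Sum.inr (MvPolynomial.map (algebraMap F ℂ) (rest J))) ?_ ?_
      (fun i => i.elim0) (fun i => i.elim0) lam
      (fun i => norm_le_one_of_isIntegral Φ (hlam i)) x ?_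
    · exact g3 _ (Finset.mem_union_left _ (Finset.mem_image_of_mem _ (Finset.mem_univ J)))
    · intro v hv
      obtain ⟨v', hv', rfl⟩ := hsupp v hv
      rw [MvPolynomial.coeff_rename_mapDomain _ Sum.inr_injective, MvPolynomial.coeff_map]
      exact (g3 _ (Finset.mem_union_right _ (Finset.mem_biUnion.2 ⟨J, Finset.mem_univ J,
        Finset.mem_image.2 ⟨v', hv', rfl⟩⟩))).le
    · intro v hv
      obtain ⟨v', hv', rfl⟩ := hsupp v hv
      obtain ⟨h1, i, h2⟩ := lower J v' hv'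
      refine ⟨fun i => ?_, i, ?_⟩
      · rw [Finsupp.mapDomain_apply Sum.inr_injective]
        exact h1 i
      · rw [Finsupp.mapDomain_apply Sum.inr_injective]
        exact h2
    · rw [MvPolynomial.eval_rename, MvPolynomial.eval_map, ← MvPolynomial.aeval_def]
      exact hmem
  obtain ⟨i, hi, hi'⟩ := key
  exact absurd hi' (not_le.2 (Finset.mem_filter.1 (hJ1 hi)).2)

end Pool.Agent.H882
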