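import Pool.Agent.H882.FmFam

/-!
Sets in general position at infinity: at most `m` coordinates are large.
-/

set_option autoImplicit false

namespace Pool.Agent.H882

theorem one_inf {C : Type} [NormedField C] [IsUltrametricDist C] {d N M q : ℕ} (Φ : ℂ →+* C)
    (J : Finset (Fin d)) (e : Fin d → ℕ) (he : ∀ i, i ∉ J → e i = 0) (c : ℂ) (hc : ‖Φ c‖ = 1)
    (G : MvPolynomial ((Fin N ⊕ Fin M) ⊕ (Fin q ⊕ Fin d)) ℂ)
    (hG : ∀ u ∈ G.support, ‖Φ (G.coeff u)‖ ≤ 1)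
    (hdeg : ∀ u ∈ G.support, (∀ i, u (Sum.inr (Sum.inr i)) ≤ e i) ∧
      ∃ i, u (Sum.inr (Sum.inr i)) < e i) (δ : Fin N → ℤ) (t : Fin M → ℕ)
    (lam : Fin q → ℂ) (hlam : ∀ i, ‖Φ (lam i)‖ ≤ 1) (x : Fin d → ℂ)
    (heq : c * ∏ i, x i ^ e i + MvPolynomial.eval (Sum.elim (Sum.elim (fun i => (δ i : ℂ))
      (fun l => (t l : ℂ))) (Sum.elim lam x)) G = 0) :
    ∃ i ∈ J, ‖Φ (x i)‖ ≤ 1 := by
  classical
  by_contra hcon
  push Not at hcon
  let b : Fin d → ℝ := fun i => max 1 ‖Φ (x i)‖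
  have hb1 : ∀ i, 1 ≤ b i := fun i => le_max_left _ _
  have hb0 : ∀ i, 0 < b i := fun i => lt_of_lt_of_le one_pos (hb1 i)
  have hB0 : 0 < ∏ i, b i ^ e i := Finset.prod_pos fun i _ => pow_pos (hb0 i) _
  have hterm : ∀ u ∈ G.support, ‖Φ (G.coeff u * ∏ i, (Sum.elim (Sum.elim (fun i => (δ i : ℂ))
      (fun l => (t l : ℂ))) (Sum.elim lam x)) i ^ u i)‖ < ∏ i, b i ^ e i := by
    intro u hu
    rw [map_mul, norm_mul]
    refine (mul_le_of_le_one_left (norm_nonneg _) (hG u hu)).trans_lt ?_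
    rw [map_prod, norm_prod, Fintype.prod_sum_type, Fintype.prod_sum_type, Fintype.prod_sum_type]
    simp only [Sum.elim_inl, Sum.elim_inr, map_pow, norm_pow, map_intCast, map_natCast]
    have h1 : ∏ i : Fin N, ‖(δ i : C)‖ ^ u (Sum.inl (Sum.inl i)) ≤ 1 :=
      Finset.prod_le_one (fun i _ => pow_nonneg (norm_nonneg _) _) fun i _ =>
        pow_le_one₀ (norm_nonneg _) (IsUltrametricDist.norm_intCast_le_one C _)
    have h2 : ∏ i : Fin M, ‖(t i : C)‖ ^ u (Sum.inl (Sum.inr i)) ≤ 1 :=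
      Finset.prod_le_one (fun i _ => pow_nonneg (norm_nonneg _) _) fun i _ =>
        pow_le_one₀ (norm_nonneg _) (by
          simpa using IsUltrametricDist.norm_intCast_le_one C (t i : ℤ))
    have h3 : ∏ i : Fin q, ‖Φ (lam i)‖ ^ u (Sum.inr (Sum.inl i)) ≤ 1 :=
      Finset.prod_le_one (fun i _ => pow_nonneg (norm_nonneg _) _) fun i _ =>
        pow_le_one₀ (norm_nonneg _) (hlam i)
    obtain ⟨hle, i₀, hi₀⟩ := hdeg u hu
    have hi₀J : i₀ ∈ J := by
      by_contra h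
      rw [he i₀ h] at hi₀
      omega
    have h4 : ∏ i : Fin d, ‖Φ (x i)‖ ^ u (Sum.inr (Sum.inr i)) < ∏ i, b i ^ e i := by
      have h5 : ∏ i : Fin d, ‖Φ (x i)‖ ^ u (Sum.inr (Sum.inr i)) ≤
          ∏ i : Fin d, b i ^ u (Sum.inr (Sum.inr i)) :=
        Finset.prod_le_prod (fun i _ => pow_nonneg (norm_nonneg _) _) fun i _ =>
          pow_le_pow_left₀ (norm_nonneg _) (le_max_right _ _) _
      refine h5.trans_lt ?_
      refine Finset.prod_lt_prod (fun i _ => pow_pos (hb0 i) _)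
        (fun i _ => pow_le_pow_right₀ (hb1 i) (hle i)) ⟨i₀, Finset.mem_univ _, ?_⟩
      exact pow_lt_pow_right₀ (lt_of_lt_of_le (hcon i₀ hi₀J) (le_max_right _ _)) hi₀
    have n1 : 0 ≤ ∏ i : Fin N, ‖(δ i : C)‖ ^ u (Sum.inl (Sum.inl i)) :=
      Finset.prod_nonneg fun i _ => pow_nonneg (norm_nonneg _) _
    have n2 : 0 ≤ ∏ i : Fin M, ‖(t i : C)‖ ^ u (Sum.inl (Sum.inr i)) :=
      Finset.prod_nonneg fun i _ => pow_nonneg (norm_nonneg _) _
    have n3 : 0 ≤ ∏ i : Fin q, ‖Φ (lam i)‖ ^ u (Sum.inr (Sum.inl i)) :=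
      Finset.prod_nonneg fun i _ => pow_nonneg (norm_nonneg _) _
    have n4 : 0 ≤ ∏ i : Fin d, ‖Φ (x i)‖ ^ u (Sum.inr (Sum.inr i)) :=
      Finset.prod_nonneg fun i _ => pow_nonneg (norm_nonneg _) _
    refine lt_of_le_of_lt ?_ h4
    calc _ ≤ 1 * (∏ i : Fin d, ‖Φ (x i)‖ ^ u (Sum.inr (Sum.inr i))) := by
          refine mul_le_mul (mul_le_one₀ h1 n2 h2) ?_ (mul_nonneg n3 n4) zero_le_one
          exact mul_le_of_le_one_left n4 h3
      _ = _ := one_mul _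
  have hG1 : ‖Φ (MvPolynomial.eval (Sum.elim (Sum.elim (fun i => (δ i : ℂ))
      (fun l => (t l : ℂ))) (Sum.elim lam x)) G)‖ < ∏ i, b i ^ e i := by
    rw [MvPolynomial.eval_eq', map_sum]
    rcases G.support.eq_empty_or_nonempty with h | h
    · rw [h, Finset.sum_empty, norm_zero]
      exact hB0
    · obtain ⟨u, hu, hmax⟩ := Finset.exists_max_image G.support (fun u => ‖Φ (G.coeff u *
        ∏ i, (Sum.elim (Sum.elim (fun i => (δ i : ℂ))
          (fun l => (t l : ℂ))) (Sum.elim lam x)) i ^ u i)‖) h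
      exact (IsUltrametricDist.norm_sum_le_of_forall_le_of_nonneg (norm_nonneg _)
        fun v hv => hmax v hv).trans_lt (hterm u hu)
  have e1 : ‖Φ (c * ∏ i, x i ^ e i)‖ = ∏ i, b i ^ e i := by
    rw [map_mul, norm_mul, hc, one_mul, map_prod, norm_prod]
    refine Finset.prod_congr rfl fun i _ => ?_
    rw [map_pow, norm_pow]
    by_cases hi : i ∈ J
    · have h : b i = ‖Φ (x i)‖ := max_eq_right (hcon i hi).le
      rw [h]
    · rw [he i hi, pow_zero, pow_zero]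
  rw [eq_neg_of_add_eq_zero_left heq, map_neg, norm_neg] at e1
  exact absurd e1 hG1.ne

end Pool.Agent.H882
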