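import Pool.Agent.H882.AdCls

/-!
Counting with a power saving: the parameters which are exceptional for all large prime divisors of `t`.
-/

set_option autoImplicit false

namespace Pool.Agent.H882

open Classical in
/-- all reductions are in exceptional sets -/
theorem card_group' {N H : ℕ} {ι : Type} [Fintype ι] (q : ι → ℕ) [∀ i, NeZero (q i)]
    (hcop : Pairwise fun i j => (q i).Coprime (q j)) (hH : ∏ i, q i ≤ H)
    (E : ∀ p : ℕ, Set (Fin N → ZMod p)) (κ : ι → ℝ)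
    (hE : ∀ i, ((E (q i)).ncard : ℝ) ≤ κ i * (q i : ℝ) ^ N) :
    (((bx N H).filter fun u => ∀ i, red (q i) u ∈ E (q i)).card : ℝ) ≤
      (∏ i, κ i) * (3 * H) ^ N := by
  have hEf : ∀ i, (E (q i)).Finite := fun i => Set.toFinite _
  obtain ⟨S, hS⟩ : ∃ S : Finset (∀ i, Fin N → ZMod (q i)),
      S = Fintype.piFinset fun i => (hEf i).toFinset := ⟨_, rfl⟩
  have h0 := card_cls (H := H) q hcop hH (S : Set (∀ i, Fin N → ZMod (q i)))
  rw [Set.ncard_coe_finset] at h0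
  have hle : ((bx N H).filter fun u => ∀ i, red (q i) u ∈ E (q i)).card ≤
      ((bx N H).filter fun u => (fun i => red (q i) u) ∈
        (S : Set (∀ i, Fin N → ZMod (q i)))).card := by
    apply Finset.card_le_card
    intro u hu
    obtain ⟨hu1, hu2⟩ := Finset.mem_filter.1 hu
    refine Finset.mem_filter.2 ⟨hu1, ?_⟩
    rw [Finset.mem_coe, hS, Fintype.mem_piFinset]
    exact fun i => (Set.Finite.mem_toFinset _).2 (hu2 i)
  have h1 : (((bx N H).filter fun u => ∀ i, red (q i) u ∈ E (q i)).card : ℝ) ≤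
      S.card * (3 * H / ((∏ i, q i : ℕ) : ℝ)) ^ N := le_trans (by exact_mod_cast hle) h0
  rw [hS, Fintype.card_piFinset] at h1
  have hq0 : ∀ i, (0 : ℝ) < q i := fun i => by
    exact_mod_cast Nat.pos_of_ne_zero (NeZero.ne (q i))
  refine h1.trans ?_
  have e2 : ∀ i, (((hEf i).toFinset).card : ℝ) ≤ κ i * (q i : ℝ) ^ N := by
    intro i
    rw [← Set.ncard_eq_toFinset_card _ (hEf i)]
    exact hE i
  have h2 : ((∏ i, ((hEf i).toFinset).card : ℕ) : ℝ) ≤ ∏ i, (κ i * (q i : ℝ) ^ N) := by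
    push_cast
    exact Finset.prod_le_prod (fun i _ => Nat.cast_nonneg _) fun i _ => e2 i
  have hQ : (0 : ℝ) < ∏ i, (q i : ℝ) := Finset.prod_pos fun i _ => hq0 i
  calc _ ≤ (∏ i, (κ i * (q i : ℝ) ^ N)) * (3 * H / ((∏ i, q i : ℕ) : ℝ)) ^ N :=
        mul_le_mul_of_nonneg_right h2 (by positivity)
    _ = (∏ i, κ i) * (3 * H) ^ N := by
        rw [Finset.prod_mul_distrib, Finset.prod_pow]
        push_cast
        rw [div_pow]
        have : (∏ i, (q i : ℝ)) ^ N ≠ 0 := (pow_pos hQ N).ne'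
        field_simp

open Classical in
/-- the parameters which are exceptional for all large prime divisors of a squarefree number -/
theorem card_sqf {N H u B₁ : ℕ} (hu : Squarefree u) (huH : u ≤ H)
    (E : ∀ p : ℕ, Set (Fin N → ZMod p)) {σ : ℝ} (hσ : 0 ≤ σ)
    (hE : ∀ p, p.Prime → B₁ < p → ((E p).ncard : ℝ) ≤ (p : ℝ) ^ (-σ) * (p : ℝ) ^ N) :
    (((bx N H).filter fun v => ∀ p, p.Prime → B₁ < p → p ∣ u → red p v ∈ E p).card : ℝ) ≤
      (primorial B₁ : ℝ) ^ σ * (u : ℝ) ^ (-σ) * (3 * H) ^ N := by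
  have hu0 : u ≠ 0 := hu.ne_zero
  obtain ⟨T, hT⟩ : ∃ T : Finset ℕ, T = u.primeFactors.filter (B₁ < ·) := ⟨_, rfl⟩
  have hTp : ∀ p ∈ T, p.Prime ∧ B₁ < p ∧ p ∣ u := by
    intro p hp
    rw [hT, Finset.mem_filter] at hp
    exact ⟨Nat.prime_of_mem_primeFactors hp.1, hp.2, Nat.dvd_of_mem_primeFactors hp.1⟩
  let q : T → ℕ := fun i => i
  have : ∀ i, NeZero (q i) := fun i => ⟨(hTp i i.2).1.ne_zero⟩
  have hprodT : ∏ i, q i = ∏ p ∈ T, p := Finset.prod_coe_sort T fun p => p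
  have hdecomp : (∏ p ∈ T, p) * (∏ p ∈ u.primeFactors.filter fun p => ¬ B₁ < p, p) = u := by
    rw [hT, Finset.prod_filter_mul_prod_filter_not]
    exact Nat.prod_primeFactors_of_squarefree hu
  have hprim : (∏ p ∈ u.primeFactors.filter fun p => ¬ B₁ < p, p) ≤ primorial B₁ := by
    unfold primorial
    refine Finset.prod_le_prod_of_subset_of_one_le' ?_ ?_
    · intro p hp
      rw [Finset.mem_filter] at hp
      rw [Finset.mem_filter, Finset.mem_range]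
      exact ⟨by omega, Nat.prime_of_mem_primeFactors hp.1⟩
    · intro p hp _
      rw [Finset.mem_filter] at hp
      exact hp.2.one_lt.le
  have hTpos : 0 < ∏ p ∈ T, p := Finset.prod_pos fun p hp => (hTp p hp).1.pos
  have hTle : ∏ p ∈ T, p ≤ u := by
    conv_rhs => rw [← hdecomp]
    refine Nat.le_mul_of_pos_right _ (Finset.prod_pos fun p hp => ?_)
    exact (Nat.prime_of_mem_primeFactors (Finset.mem_filter.1 hp).1).pos
  have h1 := card_group' (N := N) (H := H) q (fun i j hij => ?_) (by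
    rw [hprodT]
    exact hTle.trans huH) E (fun i => ((q i : ℕ) : ℝ) ^ (-σ)) fun i =>
      hE _ (hTp i i.2).1 (hTp i i.2).2.1
  · have h2 : ((bx N H).filter fun v => ∀ p, p.Prime → B₁ < p → p ∣ u → red p v ∈ E p).card ≤
        ((bx N H).filter fun v => ∀ i, red (q i) v ∈ E (q i)).card := by
      refine Finset.card_le_card fun v hv => ?_
      rw [Finset.mem_filter] at hv ⊢
      exact ⟨hv.1, fun i => hv.2 _ (hTp i i.2).1 (hTp i i.2).2.1 (hTp i i.2).2.2⟩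
    have h3 : (((bx N H).filter fun v => ∀ p, p.Prime → B₁ < p → p ∣ u →
        red p v ∈ E p).card : ℝ) ≤ (((bx N H).filter fun v => ∀ i, red (q i) v ∈ E (q i)).card : ℝ) := by
      exact_mod_cast h2
    refine h3.trans (h1.trans ?_)
    refine mul_le_mul_of_nonneg_right ?_ (by positivity)
    have h4 : ∏ i, ((q i : ℕ) : ℝ) ^ (-σ) = ((∏ p ∈ T, p : ℕ) : ℝ) ^ (-σ) := by
      rw [Real.finsetProd_rpow _ _ fun i _ => Nat.cast_nonneg _, ← hprodT]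
      push_cast
      rfl
    rw [h4]
    have hP0 : (0 : ℝ) < primorial B₁ := by exact_mod_cast primorial_pos B₁
    have hu0' : (0 : ℝ) < u := by exact_mod_cast Nat.pos_of_ne_zero hu0
    have hT0' : (0 : ℝ) < ((∏ p ∈ T, p : ℕ) : ℝ) := by exact_mod_cast hTpos
    have h5 : (u : ℝ) ≤ ((∏ p ∈ T, p : ℕ) : ℝ) * primorial B₁ := by
      have : u ≤ (∏ p ∈ T, p) * primorial B₁ := by
        conv_lhs => rw [← hdecomp]
        exact Nat.mul_le_mul_left _ hprim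
      exact_mod_cast this
    have h6 : (u : ℝ) ^ σ ≤ ((∏ p ∈ T, p : ℕ) : ℝ) ^ σ * (primorial B₁ : ℝ) ^ σ := by
      rw [← Real.mul_rpow hT0'.le hP0.le]
      exact Real.rpow_le_rpow hu0'.le h5 hσ
    rw [Real.rpow_neg hT0'.le, Real.rpow_neg hu0'.le]
    have h7 : 0 < (u : ℝ) ^ σ := Real.rpow_pos_of_pos hu0' _
    have h8 : 0 < ((∏ p ∈ T, p : ℕ) : ℝ) ^ σ := Real.rpow_pos_of_pos hT0' _
    rw [inv_le_iff_one_le_mul₀ h8]
    have e : (primorial B₁ : ℝ) ^ σ * ((u : ℝ) ^ σ)⁻¹ * ((∏ p ∈ T, p : ℕ) : ℝ) ^ σ =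
        (((∏ p ∈ T, p : ℕ) : ℝ) ^ σ * (primorial B₁ : ℝ) ^ σ) / (u : ℝ) ^ σ := by
      field_simp
    rw [e]
    rw [one_le_div h7]
    exact h6
  · exact (Nat.coprime_primes (hTp i i.2).1 (hTp j j.2).1).2 fun h => hij (Subtype.ext h)

/-- the number of the parameters which are exceptional for all large prime divisors of `t` -/
theorem count_ps (N B : ℕ) (E : ∀ p : ℕ, Set (Fin N → ZMod p))
    (hE : ∀ ε : ℝ, 0 < ε → ∃ C : ℝ, ∀ p : ℕ, p.Prime → B < p →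
      ((E p).ncard : ℝ) ≤ C * (p : ℝ) ^ ((N : ℝ) - 1 / 2 + ε)) (ε : ℝ) (hε : 0 < ε) :
    ∃ C : ℝ, ∀ H : ℕ, 0 < H →
      {x : (Fin N → ℤ) × ℕ | (∀ i, |x.1 i| ≤ (H : ℤ)) ∧ 0 < x.2 ∧ x.2 ≤ H ∧
        ∀ p, p.Prime → B < p → p ∣ x.2 → red p x.1 ∈ E p}.Finite ∧
      ({x : (Fin N → ℤ) × ℕ | (∀ i, |x.1 i| ≤ (H : ℤ)) ∧ 0 < x.2 ∧ x.2 ≤ H ∧
        ∀ p, p.Prime → B < p → p ∣ x.2 → red p x.1 ∈ E p}.ncard : ℝ) ≤
        C * (H : ℝ) ^ ((N : ℝ) + 1 / 2 + ε) := by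
  classical
  obtain ⟨η, hη⟩ : ∃ η : ℝ, η = min (ε / 8) (1 / 8) := ⟨_, rfl⟩
  have hη0 : 0 < η := by
    rw [hη]
    exact lt_min (by positivity) (by norm_num)
  have hη1 : η ≤ ε / 8 := by
    rw [hη]
    exact min_le_left _ _
  have hη2 : η ≤ 1 / 8 := by
    rw [hη]
    exact min_le_right _ _
  obtain ⟨C₁, hC₁⟩ := hE η hη0
  obtain ⟨B₂, hB₂⟩ := exists_nat_ge ((max C₁ 0) ^ (1 / η))
  obtain ⟨B₁, hB₁⟩ : ∃ B₁ : ℕ, B₁ = B + B₂ := ⟨_, rfl⟩
  obtain ⟨σ, hσ⟩ : ∃ σ : ℝ, σ = 1 / 2 - 2 * η := ⟨_, rfl⟩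
  have hσ0 : 0 ≤ σ := by
    rw [hσ]
    linarith
  have hE' : ∀ p, p.Prime → B₁ < p → ((E p).ncard : ℝ) ≤ (p : ℝ) ^ (-σ) * (p : ℝ) ^ N := by
    intro p hp hlt
    have hp0 : (0 : ℝ) < p := by exact_mod_cast hp.pos
    have h1 := hC₁ p hp (by omega)
    have h2 : C₁ ≤ (p : ℝ) ^ η := by
      have h3 : (max C₁ 0) ^ (1 / η) ≤ p := hB₂.trans (by
        have : B₂ ≤ p := by omega
        exact_mod_cast this)
      have h4 : ((max C₁ 0) ^ (1 / η)) ^ η ≤ (p : ℝ) ^ η :=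
        Real.rpow_le_rpow (Real.rpow_nonneg (le_max_right _ _) _) h3 hη0.le
      rw [← Real.rpow_mul (le_max_right _ _), one_div, inv_mul_cancel₀ hη0.ne', Real.rpow_one] at h4
      exact (le_max_left _ _).trans h4
    refine h1.trans ?_
    refine (mul_le_mul_of_nonneg_right h2 (Real.rpow_nonneg hp0.le _)).trans ?_
    rw [← Real.rpow_add hp0, ← Real.rpow_natCast, ← Real.rpow_add hp0]
    refine le_of_eq ?_
    congr 1
    rw [hσ]
    ring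
  refine ⟨(primorial B₁ : ℝ) ^ σ * 3 ^ N * (1 + 1 / η) ^ 2, fun H hH => ?_⟩
  have hH0 : (0 : ℝ) < H := by exact_mod_cast hH
  have hH1 : (1 : ℝ) ≤ H := by exact_mod_cast hH
  let I : Finset ℕ := Finset.Icc 1 H
  let PR : Finset (ℕ × ℕ) := (I ×ˢ I).filter fun bu => bu.1 ^ 2 * bu.2 ≤ H ∧ Squarefree bu.2
  let G : ℕ × ℕ → Finset ((Fin N → ℤ) × ℕ) := fun bu =>
    ((bx N H).filter fun v => ∀ p, p.Prime → B₁ < p → p ∣ bu.2 → red p v ∈ E p).map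
      ⟨fun v => (v, bu.1 ^ 2 * bu.2), fun v v' h => (Prod.mk.inj h).1⟩
  have hsub : {x : (Fin N → ℤ) × ℕ | (∀ i, |x.1 i| ≤ (H : ℤ)) ∧ 0 < x.2 ∧ x.2 ≤ H ∧
      ∀ p, p.Prime → B < p → p ∣ x.2 → red p x.1 ∈ E p} ⊆ (PR.biUnion G : Finset _) := by
    rintro ⟨v, t⟩ ⟨h1, h2, h3, h4⟩
    have h1' : ∀ i, |v i| ≤ (H : ℤ) := h1
    have h2' : 0 < t := h2
    have h3' : t ≤ H := h3
    obtain ⟨u, b, hub, hsq⟩ := Nat.sq_mul_squarefree t
    have hb : 0 < b := by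
      rcases Nat.eq_zero_or_pos b with h | h
      · rw [h] at hub
        simp at hub
        omega
      · exact h
    have hu : 0 < u := Nat.pos_of_ne_zero hsq.ne_zero
    rw [Finset.mem_coe, Finset.mem_biUnion]
    refine ⟨(b, u), ?_, ?_⟩
    · refine Finset.mem_filter.2 ⟨Finset.mem_product.2 ⟨Finset.mem_Icc.2 ⟨hb, ?_⟩,
        Finset.mem_Icc.2 ⟨hu, ?_⟩⟩, ?_, hsq⟩
      · show b ≤ H
        nlinarith [Nat.mul_le_mul (Nat.one_le_iff_ne_zero.2 hb.ne') (Nat.one_le_iff_ne_zero.2 hu.ne')]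
      · show u ≤ H
        have : 1 * u ≤ b ^ 2 * u := Nat.mul_le_mul_right _ (Nat.one_le_pow _ _ hb)
        omega
      · show b ^ 2 * u ≤ H
        omega
    · refine Finset.mem_map.2 ⟨v, Finset.mem_filter.2 ⟨mem_bx.2 h1', ?_⟩, ?_⟩
      · intro p hp hlt hdvd
        refine h4 p hp (by omega) ?_
        show p ∣ t
        rw [← hub]
        exact dvd_mul_of_dvd_right hdvd _
      · show (v, b ^ 2 * u) = (v, t)
        rw [hub]
  refine ⟨(Finset.finite_toSet _).subset hsub, ?_⟩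
  have h1 := Set.ncard_le_ncard hsub (Finset.finite_toSet _)
  rw [Set.ncard_coe_finset] at h1
  have h2 : (PR.biUnion G).card ≤ ∑ bu ∈ PR, (G bu).card := Finset.card_biUnion_le
  have h3 : ∀ bu ∈ PR, ((G bu).card : ℝ) ≤
      ((primorial B₁ : ℝ) ^ σ * 3 ^ N * (H : ℝ) ^ ((N : ℝ) + 1 / 2 + 2 * η)) *
        ((bu.1 : ℝ)⁻¹ * (bu.2 : ℝ)⁻¹) := by
    rintro ⟨b, u⟩ hbu
    obtain ⟨hbu1, hbu2, hsq⟩ := Finset.mem_filter.1 hbu
    obtain ⟨hb, hu⟩ := Finset.mem_product.1 hbu1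
    have hb1 : 1 ≤ b := (Finset.mem_Icc.1 hb).1
    have hu1 : 1 ≤ u := (Finset.mem_Icc.1 hu).1
    have hu2 : u ≤ H := (Finset.mem_Icc.1 hu).2
    have hbu2' : b ^ 2 * u ≤ H := hbu2
    have hb0 : (0 : ℝ) < b := by exact_mod_cast hb1
    have hu0 : (0 : ℝ) < u := by exact_mod_cast hu1
    have h4 : ((G (b, u)).card : ℝ) ≤ (primorial B₁ : ℝ) ^ σ * (u : ℝ) ^ (-σ) * (3 * H) ^ N := by
      have h5 := card_sqf (N := N) (H := H) (u := u) (B₁ := B₁) hsq hu2 E hσ0 hE'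
      rw [Finset.card_map]
      exact h5
    refine h4.trans ?_
    have h5 : (u : ℝ) ^ (-σ) ≤ (H : ℝ) ^ (1 / 2 + 2 * η) * ((b : ℝ)⁻¹ * (u : ℝ)⁻¹) := by
      have e1 : (u : ℝ) ^ (-σ) = (u : ℝ) ^ (2 * η) * (u : ℝ) ^ (1 / 2 : ℝ) * (u : ℝ)⁻¹ := by
        rw [← Real.rpow_neg_one, ← Real.rpow_add hu0, ← Real.rpow_add hu0]
        congr 1
        rw [hσ]
        ring
      have e2 : (u : ℝ) ^ (2 * η) ≤ (H : ℝ) ^ (2 * η) :=
        Real.rpow_le_rpow hu0.le (by exact_mod_cast hu2) (by positivity)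
      have e3 : (u : ℝ) ^ (1 / 2 : ℝ) ≤ (H : ℝ) ^ (1 / 2 : ℝ) * (b : ℝ)⁻¹ := by
        have e4 : ((b : ℝ) ^ 2 * u) ^ (1 / 2 : ℝ) ≤ (H : ℝ) ^ (1 / 2 : ℝ) :=
          Real.rpow_le_rpow (by positivity) (by exact_mod_cast hbu2') (by norm_num)
        rw [Real.mul_rpow (by positivity) hu0.le, ← Real.rpow_natCast, ← Real.rpow_mul hb0.le] at e4
        norm_num at e4
        rw [le_mul_inv_iff₀ hb0]
        norm_num
        linarith
      rw [e1, Real.rpow_add hH0]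
      calc (u : ℝ) ^ (2 * η) * (u : ℝ) ^ (1 / 2 : ℝ) * (u : ℝ)⁻¹ ≤
          (H : ℝ) ^ (2 * η) * ((H : ℝ) ^ (1 / 2 : ℝ) * (b : ℝ)⁻¹) * (u : ℝ)⁻¹ := by
            refine mul_le_mul_of_nonneg_right (mul_le_mul e2 e3 ?_ ?_) (by positivity)
            · exact Real.rpow_nonneg hu0.le _
            · exact Real.rpow_nonneg hH0.le _
        _ = _ := by ring
    calc (primorial B₁ : ℝ) ^ σ * (u : ℝ) ^ (-σ) * (3 * H) ^ N ≤
        (primorial B₁ : ℝ) ^ σ * ((H : ℝ) ^ (1 / 2 + 2 * η) * ((b : ℝ)⁻¹ * (u : ℝ)⁻¹)) *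
          (3 * H) ^ N := by
          refine mul_le_mul_of_nonneg_right (mul_le_mul_of_nonneg_left h5 ?_) (by positivity)
          exact Real.rpow_nonneg (Nat.cast_nonneg _) _
      _ = _ := by
          rw [mul_pow, add_assoc (N : ℝ), Real.rpow_add hH0 (N : ℝ), Real.rpow_natCast]
          ring
  have h4 : ∑ bu ∈ PR, ((bu.1 : ℝ)⁻¹ * (bu.2 : ℝ)⁻¹) ≤ ((1 + 1 / η) * (H : ℝ) ^ η) ^ 2 := by
    calc ∑ bu ∈ PR, ((bu.1 : ℝ)⁻¹ * (bu.2 : ℝ)⁻¹) ≤ ∑ bu ∈ I ×ˢ I, ((bu.1 : ℝ)⁻¹ * (bu.2 : ℝ)⁻¹) :=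
          Finset.sum_le_sum_of_subset_of_nonneg (Finset.filter_subset _ _)
            fun _ _ _ => by positivity
      _ = (∑ b ∈ I, (b : ℝ)⁻¹) * ∑ u ∈ I, (u : ℝ)⁻¹ := by
          rw [Finset.sum_product, Finset.sum_mul_sum]
      _ ≤ ((1 + 1 / η) * (H : ℝ) ^ η) ^ 2 := by
          have h5 : ∑ b ∈ I, (b : ℝ)⁻¹ ≤ (1 + 1 / η) * (H : ℝ) ^ η := by
            have h6 : ∑ b ∈ I, (b : ℝ)⁻¹ = ((harmonic H : ℚ) : ℝ) := by
              rw [harmonic_eq_sum_Icc]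
              push_cast
              rfl
            rw [h6]
            refine (harmonic_le_one_add_log H).trans ?_
            have h7 : Real.log H ≤ (H : ℝ) ^ η / η := Real.log_le_rpow_div hH0.le hη0
            have h8 : (1 : ℝ) ≤ (H : ℝ) ^ η := Real.one_le_rpow hH1 hη0.le
            have e : (1 + 1 / η) * (H : ℝ) ^ η = (H : ℝ) ^ η + (H : ℝ) ^ η / η := by ring
            rw [e]
            exact add_le_add h8 h7
          rw [sq]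
          exact mul_le_mul h5 h5 (Finset.sum_nonneg fun _ _ => by positivity) (by positivity)
  have h5 : (((PR.biUnion G).card : ℕ) : ℝ) ≤ ∑ bu ∈ PR, ((G bu).card : ℝ) := by exact_mod_cast h2
  have h6 : ({x : (Fin N → ℤ) × ℕ | (∀ i, |x.1 i| ≤ (H : ℤ)) ∧ 0 < x.2 ∧ x.2 ≤ H ∧
      ∀ p, p.Prime → B < p → p ∣ x.2 → red p x.1 ∈ E p}.ncard : ℝ) ≤
      (((PR.biUnion G).card : ℕ) : ℝ) := by exact_mod_cast h1
  have hc0 : 0 ≤ (primorial B₁ : ℝ) ^ σ * 3 ^ N * (H : ℝ) ^ ((N : ℝ) + 1 / 2 + 2 * η) := by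
    have := Real.rpow_nonneg (Nat.cast_nonneg (α := ℝ) (primorial B₁)) σ
    have := Real.rpow_nonneg hH0.le ((N : ℝ) + 1 / 2 + 2 * η)
    positivity
  calc _ ≤ ∑ bu ∈ PR, ((G bu).card : ℝ) := h6.trans h5
    _ ≤ ∑ bu ∈ PR, ((primorial B₁ : ℝ) ^ σ * 3 ^ N * (H : ℝ) ^ ((N : ℝ) + 1 / 2 + 2 * η)) *
        ((bu.1 : ℝ)⁻¹ * (bu.2 : ℝ)⁻¹) := Finset.sum_le_sum h3
    _ = ((primorial B₁ : ℝ) ^ σ * 3 ^ N * (H : ℝ) ^ ((N : ℝ) + 1 / 2 + 2 * η)) *
        ∑ bu ∈ PR, ((bu.1 : ℝ)⁻¹ * (bu.2 : ℝ)⁻¹) := by rw [← Finset.mul_sum]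
    _ ≤ ((primorial B₁ : ℝ) ^ σ * 3 ^ N * (H : ℝ) ^ ((N : ℝ) + 1 / 2 + 2 * η)) *
        ((1 + 1 / η) * (H : ℝ) ^ η) ^ 2 := mul_le_mul_of_nonneg_left h4 hc0
    _ = (primorial B₁ : ℝ) ^ σ * 3 ^ N * (1 + 1 / η) ^ 2 *
        (H : ℝ) ^ ((N : ℝ) + 1 / 2 + 4 * η) := by
        have e : (H : ℝ) ^ ((N : ℝ) + 1 / 2 + 4 * η) =
            (H : ℝ) ^ ((N : ℝ) + 1 / 2 + 2 * η) * ((H : ℝ) ^ η) ^ 2 := by
          rw [sq, ← Real.rpow_add hH0, ← Real.rpow_add hH0]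
          congr 1
          ring
        rw [e]
        ring
    _ ≤ _ := by
        refine mul_le_mul_of_nonneg_left ?_ ?_
        · exact Real.rpow_le_rpow_of_exponent_le hH1 (by linarith)
        · have := Real.rpow_nonneg (Nat.cast_nonneg (α := ℝ) (primorial B₁)) σ
          positivity

end Pool.Agent.H882
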