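import Pool.Agent.H882.FmRes
import Pool.Agent.H882.PsCount

/-!
The number of the exceptional classes, with a power saving.
-/

set_option autoImplicit false

namespace Pool.Agent.H882

open Polynomial

theorem ps_EF {n N c K B₀ : ℕ} {σ : Fin n → Fin N} (hσ : Function.Injective σ)
    {a b : Fin n → ℤ[X]} (E : ∀ p : ℕ, Set (Fin n → ZMod p)) (Bd : ∀ p : ℕ, Set (Fin N → ZMod p))
    (hE : ∀ ε : ℝ, 0 < ε → ∃ C : ℝ, ∀ p : ℕ, p.Prime →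
      ((E p).ncard : ℝ) ≤ C * (p : ℝ) ^ ((n : ℝ) - 1 / 2 + ε))
    (h1 : ∀ p, p.Prime → B₀ < p → ∀ i (β : ZMod p), {x | rr p (a i) (b i) x = β}.ncard ≤ c)
    (h2 : ∀ p, p.Prime → B₀ < p → ∀ i,
      {x : ZMod p | ((b i).map (Int.castRingHom (ZMod p))).eval x = 0}.ncard ≤ c)
    (h3 : ∀ p, p.Prime → B₀ < p → (Bd p).ncard ≤ K * p ^ (N - 1) ∧ (N = 0 → Bd p = ∅))
    (ε : ℝ) (hε : 0 < ε) :
    ∃ C : ℝ, ∀ p : ℕ, p.Prime → B₀ < p →
      ((EF p σ a b (E p) (Bd p)).ncard : ℝ) ≤ C * (p : ℝ) ^ ((N : ℝ) - 1 / 2 + ε) := by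
  have hnN : n ≤ N := by
    have := Fintype.card_le_of_injective σ hσ
    rwa [Fintype.card_fin, Fintype.card_fin] at this
  obtain ⟨C, hC⟩ := hE ε hε
  refine ⟨K + (c ^ n * C + n * c), fun p hp hlt => ?_⟩
  have : NeZero p := ⟨hp.ne_zero⟩
  have hp0 : (0 : ℝ) < p := by exact_mod_cast hp.pos
  have hp1 : (1 : ℝ) ≤ p := by exact_mod_cast hp.one_lt.le
  obtain ⟨h4, h5⟩ := h3 p hp hlt
  have h6 : ((EF p σ a b (E p) (Bd p)).ncard : ℝ) ≤ ((Bd p).ncard : ℝ) +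
      ((c : ℝ) ^ n * (E p).ncard * (p : ℝ) ^ (N - n) + n * (c * (p : ℝ) ^ (N - 1))) := by
    exact_mod_cast card_EF hσ (h1 p hp hlt) (h2 p hp hlt) (E p) (Bd p)
  have h7 : (c : ℝ) ^ n * (E p).ncard * (p : ℝ) ^ (N - n) ≤
      c ^ n * C * (p : ℝ) ^ ((N : ℝ) - 1 / 2 + ε) := by
    have h8 := hC p hp
    have e : (p : ℝ) ^ ((N : ℝ) - 1 / 2 + ε) =
        (p : ℝ) ^ ((n : ℝ) - 1 / 2 + ε) * (p : ℝ) ^ (N - n) := by
      rw [← Real.rpow_natCast (p : ℝ) (N - n), ← Real.rpow_add hp0, Nat.cast_sub hnN]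
      congr 1
      ring
    calc (c : ℝ) ^ n * (E p).ncard * (p : ℝ) ^ (N - n) ≤
        (c : ℝ) ^ n * (C * (p : ℝ) ^ ((n : ℝ) - 1 / 2 + ε)) * (p : ℝ) ^ (N - n) := by
          refine mul_le_mul_of_nonneg_right ?_ (by positivity)
          exact mul_le_mul_of_nonneg_left h8 (by positivity)
      _ = _ := by
          rw [e]
          ring
  rcases Nat.eq_zero_or_pos N with hN | hN
  · have hn : n = 0 := by omega
    have hB0 : ((Bd p).ncard : ℝ) = 0 := by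
      rw [h5 hN, Set.ncard_empty, Nat.cast_zero]
    have h8 : (n : ℝ) = 0 := by exact_mod_cast hn
    rw [h8, hB0] at h6
    have h9 : (0 : ℝ) ≤ (p : ℝ) ^ ((N : ℝ) - 1 / 2 + ε) := Real.rpow_nonneg hp0.le _
    have h10 : (0 : ℝ) ≤ (K : ℝ) * (p : ℝ) ^ ((N : ℝ) - 1 / 2 + ε) := by positivity
    rw [h8]
    nlinarith
  · have h8 : ((Bd p).ncard : ℝ) ≤ K * (p : ℝ) ^ (N - 1) := by exact_mod_cast h4
    have h9 : (p : ℝ) ^ (N - 1) ≤ (p : ℝ) ^ ((N : ℝ) - 1 / 2 + ε) := by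
      rw [← Real.rpow_natCast]
      refine Real.rpow_le_rpow_of_exponent_le hp1 ?_
      rw [Nat.cast_sub hN]
      push_cast
      linarith
    have h10 : (K : ℝ) * (p : ℝ) ^ (N - 1) ≤ K * (p : ℝ) ^ ((N : ℝ) - 1 / 2 + ε) :=
      mul_le_mul_of_nonneg_left h9 (Nat.cast_nonneg _)
    have h11 : (n : ℝ) * (c * (p : ℝ) ^ (N - 1)) ≤ n * c * (p : ℝ) ^ ((N : ℝ) - 1 / 2 + ε) := by
      rw [← mul_assoc]
      exact mul_le_mul_of_nonneg_left h9 (by positivity)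
    calc _ ≤ _ := h6
      _ ≤ K * (p : ℝ) ^ ((N : ℝ) - 1 / 2 + ε) + (c ^ n * C * (p : ℝ) ^ ((N : ℝ) - 1 / 2 + ε) +
          n * c * (p : ℝ) ^ ((N : ℝ) - 1 / 2 + ε)) := by linarith
      _ = _ := by ring

end Pool.Agent.H882
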