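import Pool.Agent.H882.CoI
import Pool.Agent.H882.PsRes
import Pool.Graph.R_seed8.W466.EG

/-!
Points near to the origin on elliptic curves near to integral points in general position: the local
theorem for algebraic subgroups of products of elliptic curves.
-/

set_option autoImplicit false

namespace Pool.Agent.H882

open UpperHalfPlane H294ZP Function Pool.Agent.Y226 Polynomial
open Pool.Agent.W466.EP Pool.Agent.N135.ZO

/-- Points near to the origin are not torsion points. -/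
theorem nontors {C : Type} [NormedField C] [IsUltrametricDist C] [CharZero C] {p : ℕ}
    (hp : p.Prime) (hp1 : ‖(p : C)‖ < 1) (hp0 : 0 < ‖(p : C)‖) (Φ : ℂ →+* C) {a b : ℂ}
    (ha : ‖Φ a‖ ≤ 1) (hb : ‖Φ b‖ ≤ 1) (P : (crv a b).Point) (ξ : ℂ) (hξ : ξ * xx P = 1)
    (hξ2 : ‖Φ ξ‖ ^ 2 < ‖(p : C)‖) : ¬ IsOfFinAddOrder P := by
  let v : Valuation ℂ NNReal := (NormedField.valuation (K := C)).comap Φ
  have hv : ∀ z : ℂ, ((v z : NNReal) : ℝ) = ‖Φ z‖ := fun z => rfl
  have hvle : ∀ z : ℂ, ‖Φ z‖ ≤ 1 → v z ≤ 1 := fun z hz => by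
    rw [← NNReal.coe_le_coe, hv]
    exact hz
  have hξ0 : ξ ≠ 0 := by
    rintro rfl
    rw [zero_mul] at hξ
    exact zero_ne_one hξ
  have hξpos : 0 < ‖Φ ξ‖ := norm_pos_iff.2 ((map_ne_zero Φ).2 hξ0)
  have hξ1 : ‖Φ ξ‖ < 1 := by
    by_contra h
    push Not at h
    have : (1 : ℝ) ≤ ‖Φ ξ‖ ^ 2 := one_le_pow₀ h
    linarith
  rcases P with _ | ⟨x, y, hn⟩
  · exfalso
    change ξ * 0 = 1 at hξ
    rw [mul_zero] at hξ
    exact zero_ne_one hξ
  · change ξ * x = 1 at hξ
    have hvx : v ξ * v x = 1 := by rw [← map_mul, hξ, map_one]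
    have hx : 1 < v x := by
      by_contra hcon
      push Not at hcon
      have h1 : v ξ < 1 := by
        rw [← NNReal.coe_lt_coe, hv]
        exact hξ1
      have h2 : v ξ * v x < 1 := (mul_le_of_le_one_right' hcon).trans_lt h1
      rw [hvx] at h2
      exact lt_irrefl _ h2
    have hloc := (loc (hvle a ha) (hvle b hb) (eqn hn) hx).2.2.2.1
    have h0 : WeierstrassCurve.Affine.Point.some x y hn ≠ 0 :=
      WeierstrassCurve.Affine.Point.some_ne_zero hn
    have hF : Fm v (WeierstrassCurve.Affine.Point.some x y hn : (crv a b).Point) := hx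
    have hvx0 : v x ≠ 0 := (zero_lt_one.trans hx).ne'
    have htt : v (tt (WeierstrassCurve.Affine.Point.some x y hn : (crv a b).Point)) ^ 2 = v ξ := by
      change v (x / y) ^ 2 = _
      exact mul_right_cancel₀ hvx0 (hloc.trans hvx.symm)
    have h4 : v (tt (WeierstrassCurve.Affine.Point.some x y hn : (crv a b).Point)) ^ 4 <
        v (p : ℂ) := by
      have e : v (tt (WeierstrassCurve.Affine.Point.some x y hn : (crv a b).Point)) ^ 4 =
          (v (tt (WeierstrassCurve.Affine.Point.some x y hn : (crv a b).Point)) ^ 2) ^ 2 := by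
        rw [← pow_mul]
      rw [e, htt, ← NNReal.coe_lt_coe]
      push_cast
      rw [hv, hv, map_natCast]
      exact hξ2
    have hpv1 : v (p : ℂ) < 1 := by
      rw [← NNReal.coe_lt_coe, hv, map_natCast]
      exact hp1
    have hpv0 : 0 < v (p : ℂ) := by
      rw [← NNReal.coe_lt_coe, hv, map_natCast]
      exact hp0
    intro hfin
    obtain ⟨n, hn0, hn1⟩ := isOfFinAddOrder_iff_nsmul_eq_zero.1 hfin
    have h5 := (nsmul_val (hvle a ha) (hvle b hb) (two_ne_zero) hp hpv0 hpv1 hF h0 h4 hn0.ne').2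
    rw [hn1] at h5
    change v (0 : ℂ) = _ at h5
    rw [map_zero] at h5
    have h6 : v (n : ℂ) ≠ 0 := (map_ne_zero v).2 (by exact_mod_cast hn0.ne')
    have h7 : v (tt (WeierstrassCurve.Affine.Point.some x y hn : (crv a b).Point)) ≠ 0 :=
      (map_ne_zero v).2 (tt_ne (hvle a ha) (hvle b hb) hF h0)
    exact (mul_ne_zero h6 h7) h5.symm

/-- The numerator of the `j`-invariant of `y² = x³ + A x + B`. -/
noncomputable def jnum (A : ℤ[X]) : ℤ[X] := Polynomial.C 6912 * A ^ 3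

/-- The denominator of the `j`-invariant of `y² = x³ + A x + B`. -/
noncomputable def jden (A B : ℤ[X]) : ℤ[X] := Polynomial.C 4 * A ^ 3 + Polynomial.C 27 * B ^ 2

/-- the shift of a vector by one at the elements of `W` -/
def shf {n : ℕ} (s : Fin n → ℤ) (W : Finset (Fin n)) (i : Fin n) : ℤ := s i + if i ∈ W then 1 else 0

theorem aeval_int_norm {C : Type} [NormedField C] [IsUltrametricDist C] (Φ : ℂ →+* C) (g : ℤ[X])
    {x : ℂ} (hx : ‖Φ x‖ ≤ 1) : ‖Φ (aeval x g)‖ ≤ 1 := by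
  rw [Polynomial.aeval_eq_sum_range, map_sum]
  refine IsUltrametricDist.norm_sum_le_of_forall_le_of_nonneg zero_le_one fun i _ => ?_
  rw [zsmul_eq_mul, map_mul, map_intCast, map_pow, norm_mul, norm_pow]
  exact mul_le_one₀ (IsUltrametricDist.norm_intCast_le_one C _) (by positivity)
    (pow_le_one₀ (norm_nonneg _) hx)

open Classical in
/-- The local theorem. -/
theorem ku_local {n p : ℕ} (hp : p.Prime) (hp3 : 3 < p) {E : Set (Fin n → ZMod p)}
    {C : Type} [NormedField C] [IsUltrametricDist C] [CompleteSpace C] [CharZero C]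
    [IsAlgClosed C] (φ₀ : QA →+* C) (hpC : ‖(p : C)‖ = (p : ℝ)⁻¹) (hCI : CoreCI n p E φ₀)
    {F : Subfield ℂ} {m : ℕ} (A B : Fin n → ℤ[X]) (s : Fin n → ℤ) (t : ℕ) (ht : t ≠ 0)
    (hpt : p ∣ t)
    (hs : ∀ W : Finset (Fin n), (fun i => ((shf s W i : ℤ) : ZMod p)) ∉
      EF p (id : Fin n → Fin n) (fun i => jnum (A i)) (fun i => jden (A i) (B i)) E ∅)
    (u : Fin (n + n) → ℂ)
    (hemb : ∀ {ι : Type} [Finite ι] (y : ι → ℂ), AlgebraicIndependent F y → ∀ (a : ι → QA),
      ∃ Φ : ℂ →+* C, (∀ a : QA, Φ (a : ℂ) = φ₀ a) ∧ (∀ i, ‖Φ (y i) - φ₀ (a i)‖ < 1) ∧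
        (Finset.univ.filter fun j => 1 < ‖Φ (u j)‖).card ≤ m)
    (P : ∀ i, (crv (aeval ((s i : ℂ) + t * u (Fin.castAdd n i)) (A i))
      (aeval ((s i : ℂ) + t * u (Fin.castAdd n i)) (B i))).Point)
    (hP : ∀ i, (t * u (Fin.natAdd n i)) * xx (P i) = 1)
    {r : ℕ} (cls : Fin n → Option (Fin r)) (h1 : ∀ i, cls i = none → IsOfFinAddOrder (P i))
    (h2 : ∀ i k, i ≠ k → cls i = cls k → cls i ≠ none → ∃ (w w' : ℍ) (M : M2), 0 < M.det ∧
      Rel M w w' ∧
      jj w * aeval ((s i : ℂ) + t * u (Fin.castAdd n i)) (jden (A i) (B i)) =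
        aeval ((s i : ℂ) + t * u (Fin.castAdd n i)) (jnum (A i)) ∧
      jj w' * aeval ((s k : ℂ) + t * u (Fin.castAdd n k)) (jden (A k) (B k)) =
        aeval ((s k : ℂ) + t * u (Fin.castAdd n k)) (jnum (A k)))
    (W : Finset (Fin (n + n))) (hind : AlgebraicIndependent F (fun j : W => u j)) :
    n + W.card ≤ m + r := by
  have : Fact p.Prime := ⟨hp⟩
  have hp1 : ‖(p : C)‖ < 1 := by
    rw [hpC]
    exact inv_lt_one_of_one_lt₀ (by exact_mod_cast hp.one_lt)
  have hp0 : 0 < ‖(p : C)‖ := by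
    rw [hpC]
    exact inv_pos.2 (by exact_mod_cast hp.pos)
  have htC : (t : C) ≠ 0 := by exact_mod_cast ht
  have htn : ‖(t : C)‖ ≤ ‖(p : C)‖ := by
    obtain ⟨c, rfl⟩ := hpt
    push_cast
    rw [norm_mul]
    refine mul_le_of_le_one_right (norm_nonneg _) ?_
    simpa using IsUltrametricDist.norm_intCast_le_one C (c : ℤ)
  have htpos : 0 < ‖(t : C)‖ := norm_pos_iff.2 htC
  have ht1 : ‖(t : C)‖ < 1 := htn.trans_lt hp1
  -- the values at the elements of `W`
  obtain ⟨a₄, ha₄⟩ : ∃ a : QA, a ^ 4 = (p : QA)⁻¹ := IsAlgClosed.exists_pow_nat_eq _ (by norm_num)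
  have ha₄n : ‖φ₀ a₄‖ ^ 4 = ‖(p : C)‖⁻¹ := by
    rw [← norm_pow, ← map_pow, ha₄, map_inv₀, map_natCast, norm_inv]
  have ha₄1 : 1 < ‖φ₀ a₄‖ := by
    by_contra hcon
    push Not at hcon
    have h3 : ‖φ₀ a₄‖ ^ 4 ≤ 1 := pow_le_one₀ (norm_nonneg _) hcon
    rw [ha₄n] at h3
    exact absurd ((one_lt_inv₀ hp0).2 hp1) (not_lt.2 h3)
  let a : W → QA := fun j => Fin.addCases (motive := fun _ => QA) (fun _ => (t : QA)⁻¹)
    (fun _ => a₄) (j : Fin (n + n))
  obtain ⟨Φ, g1, g2, g3⟩ := hemb _ hind a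
  have hWb : ∀ i, Fin.castAdd n i ∈ W → ‖Φ (u (Fin.castAdd n i)) - (t : C)⁻¹‖ < 1 := by
    intro i hi
    have h3 := g2 ⟨_, hi⟩
    have e : a ⟨_, hi⟩ = (t : QA)⁻¹ := Fin.addCases_left (motive := fun _ => QA) i
    rw [e, map_inv₀, map_natCast] at h3
    exact h3
  have hWp : ∀ i, Fin.natAdd n i ∈ W → ‖Φ (u (Fin.natAdd n i)) - φ₀ a₄‖ < 1 := by
    intro i hi
    have h3 := g2 ⟨_, hi⟩
    have e : a ⟨_, hi⟩ = a₄ := Fin.addCases_right (motive := fun _ => QA) i
    rw [e] at h3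
    exact h3
  have hbig : ∀ {x y : C}, 1 < ‖y‖ → ‖x - y‖ < 1 → ‖x‖ = ‖y‖ := by
    intro x y hy hxy
    have e : x = y + (x - y) := by ring
    have h3 : ‖y + (x - y)‖ = max ‖y‖ ‖x - y‖ :=
      IsUltrametricDist.norm_add_eq_max_of_norm_ne_norm (hxy.trans hy).ne'
    rw [← e, max_eq_left (hxy.trans hy).le] at h3
    exact h3
  have htinv : 1 < ‖(t : C)⁻¹‖ := by
    rw [norm_inv]
    exact (one_lt_inv₀ htpos).2 ht1
  set Bad : Finset (Fin (n + n)) := Finset.univ.filter fun j => 1 < ‖Φ (u j)‖ with hBad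
  have hWBad : W ⊆ Bad := by
    intro j hj
    rw [hBad, Finset.mem_filter]
    refine ⟨Finset.mem_univ _, ?_⟩
    revert hj
    refine Fin.addCases (fun i hi => ?_) (fun i hi => ?_) j
    · rw [hbig htinv (hWb i hi)]
      exact htinv
    · rw [hbig ha₄1 (hWp i hi)]
      exact ha₄1
  let Wb : Finset (Fin n) := Finset.univ.filter fun i => Fin.castAdd n i ∈ W
  let G : Finset (Fin n) := Finset.univ.filter fun i =>
    Fin.castAdd n i ∉ Bad \ W ∧ Fin.natAdd n i ∉ Bad \ W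
  -- the number of the good indices
  have hGc : n ≤ G.card + (Bad \ W).card := by
    have h3 : (Finset.univ : Finset (Fin n)) ⊆ G ∪ (Finset.univ.filter fun i =>
        Fin.castAdd n i ∈ Bad \ W) ∪ (Finset.univ.filter fun i => Fin.natAdd n i ∈ Bad \ W) := by
      intro i _
      rw [Finset.mem_union, Finset.mem_union, Finset.mem_filter, Finset.mem_filter,
        Finset.mem_filter]
      have := Finset.mem_univ i
      tauto
    have h4 : (Finset.univ.filter fun i : Fin n => Fin.castAdd n i ∈ Bad \ W).card +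
        (Finset.univ.filter fun i : Fin n => Fin.natAdd n i ∈ Bad \ W).card ≤
          (Bad \ W).card := by
      rw [← Finset.card_image_of_injective (Finset.univ.filter fun i : Fin n =>
        Fin.castAdd n i ∈ Bad \ W) (Fin.castAdd_injective n n),
        ← Finset.card_image_of_injective (Finset.univ.filter fun i : Fin n =>
        Fin.natAdd n i ∈ Bad \ W) (Fin.natAdd_injective n n), ← Finset.card_union_of_disjoint]
      · refine Finset.card_le_card fun j hj => ?_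
        rcases Finset.mem_union.1 hj with hj | hj
        · obtain ⟨i, hi, rfl⟩ := Finset.mem_image.1 hj
          exact (Finset.mem_filter.1 hi).2
        · obtain ⟨i, hi, rfl⟩ := Finset.mem_image.1 hj
          exact (Finset.mem_filter.1 hi).2
      · rw [Finset.disjoint_left]
        intro j hj hj'
        obtain ⟨i, -, rfl⟩ := Finset.mem_image.1 hj
        obtain ⟨i', -, h5⟩ := Finset.mem_image.1 hj'
        have h6 := congrArg Fin.val h5
        rw [Fin.val_natAdd, Fin.val_castAdd] at h6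
        have := i.2
        omega
    have h5 := (Finset.card_le_card h3).trans ((Finset.card_union_le _ _).trans
      (Nat.add_le_add_right (Finset.card_union_le _ _) _))
    rw [Finset.card_univ, Fintype.card_fin] at h5
    omega
  have hBW : (Bad \ W).card + W.card = Bad.card := Finset.card_sdiff_add_card_eq_card hWBad
  have hBm : Bad.card ≤ m := g3
  -- the base coordinates of the good indices
  have hτ : ∀ i ∈ G, ‖Φ ((s i : ℂ) + t * u (Fin.castAdd n i) - (shf s Wb i : ℂ))‖ ≤ ‖(p : C)‖ := by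
    intro i hi
    obtain ⟨h3, -⟩ := (Finset.mem_filter.1 hi).2
    by_cases hiW : Fin.castAdd n i ∈ W
    · have h4 : i ∈ Wb := Finset.mem_filter.2 ⟨Finset.mem_univ _, hiW⟩
      have e : Φ ((s i : ℂ) + t * u (Fin.castAdd n i) - (shf s Wb i : ℂ)) =
          t * (Φ (u (Fin.castAdd n i)) - (t : C)⁻¹) := by
        have e1 : ((shf s Wb i : ℤ) : ℂ) = s i + 1 := by
          unfold shf
          rw [if_pos h4]
          push_cast
          rfl
        rw [e1]
        simp only [map_sub, map_add, map_mul, map_intCast, map_natCast, map_one]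
        rw [mul_sub, mul_inv_cancel₀ htC]
        ring
      rw [e, norm_mul]
      exact (mul_le_of_le_one_right (norm_nonneg _) (hWb i hiW).le).trans htn
    · have h4 : i ∉ Wb := fun h => hiW (Finset.mem_filter.1 h).2
      have h5 : ‖Φ (u (Fin.castAdd n i))‖ ≤ 1 := by
        by_contra hcon
        push Not at hcon
        exact h3 (Finset.mem_sdiff.2 ⟨Finset.mem_filter.2 ⟨Finset.mem_univ _, hcon⟩, hiW⟩)
      have e : Φ ((s i : ℂ) + t * u (Fin.castAdd n i) - (shf s Wb i : ℂ)) =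
          t * Φ (u (Fin.castAdd n i)) := by
        have e1 : ((shf s Wb i : ℤ) : ℂ) = s i := by
          unfold shf
          rw [if_neg h4, add_zero]
        rw [e1]
        simp only [map_sub, map_add, map_mul, map_intCast, map_natCast]
        ring
      rw [e, norm_mul]
      exact (mul_le_of_le_one_right (norm_nonneg _) h5).trans htn
  have hτ1 : ∀ i ∈ G, ‖Φ ((s i : ℂ) + t * u (Fin.castAdd n i))‖ ≤ 1 := by
    intro i hi
    have h3 := (hτ i hi).trans hp1.le
    have e : Φ ((s i : ℂ) + t * u (Fin.castAdd n i)) =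
        Φ ((s i : ℂ) + t * u (Fin.castAdd n i) - (shf s Wb i : ℂ)) + (shf s Wb i : C) := by
      rw [map_sub, map_intCast]
      ring
    rw [e]
    exact (IsUltrametricDist.norm_add_le_max _ _).trans
      (max_le h3 (IsUltrametricDist.norm_intCast_le_one C _))
  -- the points of the good indices
  have hnt : ∀ i ∈ G, ¬ IsOfFinAddOrder (P i) := by
    intro i hi
    obtain ⟨-, h3⟩ := (Finset.mem_filter.1 hi).2
    refine nontors hp hp1 hp0 Φ (aeval_int_norm Φ _ (hτ1 i hi)) (aeval_int_norm Φ _ (hτ1 i hi))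
      (P i) _ (hP i) ?_
    rw [map_mul, map_natCast, norm_mul]
    by_cases hiW : Fin.natAdd n i ∈ W
    · have h4 : ‖Φ (u (Fin.natAdd n i))‖ = ‖φ₀ a₄‖ := hbig ha₄1 (hWp i hiW)
      rw [h4]
      have h5 : (‖(t : C)‖ * ‖φ₀ a₄‖) ^ 2 ≤ (‖(p : C)‖ * ‖φ₀ a₄‖) ^ 2 :=
        pow_le_pow_left₀ (by positivity) (mul_le_mul_of_nonneg_right htn (norm_nonneg _)) 2
      refine h5.trans_lt ?_
      rw [mul_pow]
      have h6 : (‖φ₀ a₄‖ ^ 2) ^ 2 = ‖(p : C)‖⁻¹ := by rw [← pow_mul]; exact ha₄n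
      have h7 : ‖φ₀ a₄‖ ^ 2 < ‖(p : C)‖⁻¹ := by
        rw [← h6]
        have h8 : (1 : ℝ) < ‖φ₀ a₄‖ ^ 2 := one_lt_pow₀ ha₄1 (by norm_num)
        nlinarith
      calc ‖(p : C)‖ ^ 2 * ‖φ₀ a₄‖ ^ 2 < ‖(p : C)‖ ^ 2 * ‖(p : C)‖⁻¹ :=
            mul_lt_mul_of_pos_left h7 (by positivity)
        _ = ‖(p : C)‖ := by
            field_simp
    · have h5 : ‖Φ (u (Fin.natAdd n i))‖ ≤ 1 := by
        by_contra hcon
        push Not at hcon
        exact h3 (Finset.mem_sdiff.2 ⟨Finset.mem_filter.2 ⟨Finset.mem_univ _, hcon⟩, hiW⟩)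
      have h6 : ‖(t : C)‖ * ‖Φ (u (Fin.natAdd n i))‖ ≤ ‖(p : C)‖ :=
        (mul_le_of_le_one_right (norm_nonneg _) h5).trans htn
      calc (‖(t : C)‖ * ‖Φ (u (Fin.natAdd n i))‖) ^ 2 ≤ ‖(p : C)‖ ^ 2 :=
            pow_le_pow_left₀ (by positivity) h6 2
        _ < ‖(p : C)‖ ^ 1 := pow_lt_pow_right_of_lt_one₀ hp0 hp1 (by norm_num)
        _ = _ := pow_one _
  have hnn : ∀ i ∈ G, cls i ≠ none := fun i hi h => hnt i hi (h1 i h)
  -- the `j`-invariants of the good indices
  have hsW := hs Wb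
  have hsW' : ¬ ((fun i => ((shf s Wb i : ℤ) : ZMod p)) ∈ (∅ : Set (Fin n → ZMod p)) ∨
      (fun i => rr p (jnum (A i)) (jden (A i) (B i)) ((shf s Wb i : ℤ) : ZMod p)) ∈ E ∨
      ∃ i, ((jden (A i) (B i)).map (Int.castRingHom (ZMod p))).eval
        ((shf s Wb i : ℤ) : ZMod p) = 0) := hsW
  rw [not_or, not_or] at hsW'
  obtain ⟨-, q1, q2⟩ := hsW'
  push Not at q2
  obtain ⟨s', hs'⟩ : ∃ s' : Fin n → ℤ, ∀ i, (s' i : ZMod p) =
      rr p (jnum (A i)) (jden (A i) (B i)) ((shf s Wb i : ℤ) : ZMod p) :=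
    ⟨fun i => ((rr p (jnum (A i)) (jden (A i) (B i)) ((shf s Wb i : ℤ) : ZMod p)).val : ℤ),
      fun i => by
        push_cast
        rw [ZMod.natCast_zmod_val]⟩
  have hevZ : ∀ (g : ℤ[X]) (i : Fin n), (g.map (Int.castRingHom (ZMod p))).eval
      ((shf s Wb i : ℤ) : ZMod p) = ((g.eval (shf s Wb i) : ℤ) : ZMod p) := by
    intro g i
    rw [Polynomial.eval_intCast_map]
    rfl
  have hden : ∀ i : Fin n, ¬ (p : ℤ) ∣ (jden (A i) (B i)).eval (shf s Wb i) := by
    intro i hd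
    apply q2 i
    rw [hevZ]
    exact (ZMod.intCast_zmod_eq_zero_iff_dvd _ _).2 hd
  have hnum : ∀ i : Fin n, (p : ℤ) ∣ (jnum (A i)).eval (shf s Wb i) -
      s' i * (jden (A i) (B i)).eval (shf s Wb i) := by
    intro i
    rw [← ZMod.intCast_zmod_eq_zero_iff_dvd]
    push_cast
    rw [hs', ← hevZ, ← hevZ]
    unfold rr
    rw [mul_assoc, inv_mul_cancel₀ (q2 i), mul_one, sub_self]
  have hj : ∀ i ∈ G, ∀ z : ℂ,
      z * aeval ((s i : ℂ) + t * u (Fin.castAdd n i)) (jden (A i) (B i)) =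
        aeval ((s i : ℂ) + t * u (Fin.castAdd n i)) (jnum (A i)) → ‖Φ z - (s' i : C)‖ < 1 := by
    intro i hi z hz
    have h3 : ‖Φ ((s i : ℂ) + t * u (Fin.castAdd n i) - (shf s Wb i : ℂ))‖ ^ (p - 1) <
        ‖(p : C)‖ := by
      calc _ ≤ ‖(p : C)‖ ^ (p - 1) := pow_le_pow_left₀ (norm_nonneg _) (hτ i hi) _
        _ < ‖(p : C)‖ ^ 1 := pow_lt_pow_right_of_lt_one₀ hp0 hp1 (by omega)
        _ = _ := pow_one _
    have h4 := R_near (C := C) hp hp3 hp1 hp0 (jnum (A i)) (jden (A i) (B i)) (shf s Wb i) (s' i)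
      (hden i) (hnum i) Φ h3 (j := z) (by
        have e : ((shf s Wb i : ℤ) : ℂ) + ((s i : ℂ) + t * u (Fin.castAdd n i) -
            (shf s Wb i : ℂ)) = (s i : ℂ) + t * u (Fin.castAdd n i) := by ring
        rw [e]
        rw [← Polynomial.eval_map_algebraMap, ← Polynomial.eval_map_algebraMap] at hz
        exact hz)
    by_contra hcon
    push Not at hcon
    have h5 : (1 : ℝ) ≤ ‖Φ z - (s' i : C)‖ ^ (p - 1) := one_le_pow₀ hcon
    linarith
  have hs'E : (fun i => (s' i : ZMod p)) ∉ E := by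
    have e : (fun i => (s' i : ZMod p)) =
        fun i => rr p (jnum (A i)) (jden (A i) (B i)) ((shf s Wb i : ℤ) : ZMod p) := funext hs'
    rw [e]
    exact q1
  have hinj : ∀ i ∈ G, ∀ k ∈ G, cls i = cls k → i = k := by
    intro i hi k hk hik
    by_contra hne
    obtain ⟨w, w', M, hM, hrel, hw, hw'⟩ := h2 i k hne hik (hnn i hi)
    exact hCI Φ g1 s' hs'E i k hne M w w' hM hrel (hj i hi _ hw) (hj k hk _ hw')
  have hGr : G.card ≤ r := by
    have h3 : G.card = (G.image cls).card :=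
      (Finset.card_image_of_injOn fun i hi k hk h => hinj i hi k hk h).symm
    rw [h3]
    have hsub : G.image cls ⊆ (Finset.univ : Finset (Fin r)).image some := by
      intro c hc
      obtain ⟨i, hi, rfl⟩ := Finset.mem_image.1 hc
      obtain ⟨k, hk⟩ := Option.ne_none_iff_exists'.1 (hnn i hi)
      rw [hk]
      exact Finset.mem_image_of_mem _ (Finset.mem_univ k)
    refine (Finset.card_le_card hsub).trans (Finset.card_image_le.trans ?_)
    rw [Finset.card_univ, Fintype.card_fin]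
  omega

end Pool.Agent.H882
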