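import Pool.Agent.H882.FzMaster
import Pool.Agent.H882.FzImg
import Pool.Agent.H882.KuLoc
import Pool.Agent.H882.KuInf

/-!
Algebraic subgroups of products of elliptic curves near to a given fibre: the local theorem.
-/

set_option autoImplicit false

namespace Pool.Agent.H882

open UpperHalfPlane H294ZP Function Pool.Agent.Y226 Polynomial Cardinal
open Pool.Agent.W466.EP Pool.Agent.N135.ZO

/-- The local statement for the centre `s`: values of `j` near to different coordinates of `s` are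
not isogenous. -/
def CoreOI (n : ℕ) {C : Type} [NormedField C] (φ₀ : QA →+* C) (s : Fin n → QA) : Prop :=
  ∀ Φ : ℂ →+* C, (∀ a : QA, Φ (a : ℂ) = φ₀ a) → ∀ (i k : Fin n), i ≠ k → ∀ (M : M2) (w w' : ℍ),
    0 < M.det → Rel M w w' → ‖Φ (jj w) - φ₀ (s i)‖ < 1 → ¬ ‖Φ (jj w') - φ₀ (s k)‖ < 1

theorem kf_core {n p : ℕ} (hp : p.Prime) (hp3 : 3 < p) {C : Type} [NormedField C]
    [IsUltrametricDist C] [CompleteSpace C] [CharZero C] [IsAlgClosed C] (φ₀ : QA →+* C)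
    (hp1 : ‖(p : C)‖ < 1) (s : Fin n → QA) (hs0 : ∀ i, ‖φ₀ (s i)‖ = 1)
    (hs1 : ∀ i, ‖φ₀ (s i - 1728)‖ = 1) (t : Fin n → ℍ) (M : Fin n → M2)
    (hM : ∀ i, (M i).det = p) (hrel : ∀ i, Rel (M i) (t i) (t i))
    (htr : ∀ i, (M i).trace ≠ 0) (Ψ : ℂ →+* C) (hΨ : ∀ a : QA, Ψ (a : ℂ) = φ₀ a)
    (hnear : ∀ i, ‖Ψ (jj (t i)) - Ψ (s i : ℂ)‖ < 1)
    (hiso : ∀ i k, i ≠ k → ¬ Isog (jj (t i)) (jj (t k))) : CoreOI n φ₀ s := by
  classical
  have hp2 : p ≠ 2 := by omega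
  obtain ⟨P⟩ := exists_pkg hp hp2
  intro Φ hΦ i k hik A w w' hdet hrel' hi hk
  have hcm : ∀ i, IsCM (t i) := fun i => isCM_of_fix hp (hM _) (hrel _)
  have hΦQ : ∀ z : ℂ, z ∈ QA → Φ z = Ψ z := fun z hz => (hΦ ⟨z, hz⟩).trans (hΨ ⟨z, hz⟩).symm
  have hΦj : ∀ i, Φ (jj (t i)) = Ψ (jj (t i)) := fun i => hΦQ _ (cm_mem_QA (hcm i))
  have hpV : (VF Φ).valuation (p : ℂ) < 1 := by
    rw [VF_lt_one, map_natCast]
    exact hp1
  have hunit : ∀ {a b : C}, ‖a‖ = 1 → ‖b - a‖ < 1 → ‖b‖ = 1 := by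
    intro a b ha hab
    have e : b = a + (b - a) := by ring
    rw [e, IsUltrametricDist.norm_add_eq_max_of_norm_ne_norm, ha, max_eq_left hab.le]
    rw [ha]
    exact hab.ne'
  have hG0 : ∀ i, G0 P (VF Φ) (jj (t i)) := by
    intro i
    have h1 : ‖Φ (jj (t i)) - φ₀ (s i)‖ < 1 := by
      rw [hΦj, ← hΨ]
      exact hnear i
    refine G0_of hp hp1 P Φ (ordAt_of_trace hp hp3 (hM _) (hrel _) (htr i)) ?_ ?_
    · exact hunit (hs0 i) h1
    · refine hunit (hs1 i) ?_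
      have e : Φ (jj (t i) - 1728) - φ₀ (s i - 1728) = Φ (jj (t i)) - φ₀ (s i) := by
        rw [map_sub, map_sub]
        have e1 : Φ 1728 = 1728 := map_ofNat Φ 1728
        have e2 : φ₀ 1728 = 1728 := map_ofNat φ₀ 1728
        rw [e1, e2]
        ring
      rw [e]
      exact h1
  have hxO : ∀ (i : Fin n) (z : ℂ), ‖Φ z - φ₀ (s i)‖ < 1 →
      (VF Φ).valuation (z - jj (t i)) < 1 := by
    intro i z hz
    rw [VF_lt_one, map_sub, hΦj]
    have e : Φ z - Ψ (jj (t i)) = (Φ z - φ₀ (s i)) + -(Ψ (jj (t i)) - Ψ (s i : ℂ)) := by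
      rw [hΨ]
      ring
    rw [e]
    refine nadd_lt hz ?_
    rw [norm_neg]
    exact hnear i
  exact hiso i k hik (near_isog hp hp2 hpV P (hcm i) (hcm k) (hG0 i) (hG0 k) hdet hrel'
    (hxO i _ hi) (hxO k _ hk))

/-- the local data at the primes of the first type -/
theorem kf_primes {n : ℕ} {s : Fin n → QA} (hs : ∀ i, s i ≠ 0 ∧ s i ≠ 1728)
    {ℓ : Fin (n + 1) → Fin n → ℕ} {σ : Fin (n + 1) → ℂ ≃+* ℂ}
    (h : Sep (fun i => (s i : ℂ)) ℓ σ) :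
    ∃ P : Set ℕ, (∀ p ∈ P, p.Prime ∧ 3 < p) ∧ Dvg P ∧
      ∀ p ∈ P, ∃ (C : Type) (_ : NormedField C) (_ : IsUltrametricDist C)
        (_ : CompleteSpace C) (_ : CharZero C) (_ : IsAlgClosed C) (φ₀ : QA →+* C),
          ‖(p : C)‖ = (p : ℝ)⁻¹ ∧ CoreOI n φ₀ s := by
  classical
  obtain ⟨P, hP1, hP2, hP3⟩ := type_primes hs h 0
  obtain ⟨-, hS1, -, -, -⟩ := h
  refine ⟨P, hP1, hP2, fun p hpP => ?_⟩
  obtain ⟨hp, hp3⟩ := hP1 p hpP
  have : Fact p.Prime := ⟨hp⟩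
  obtain ⟨C, i1, i2, i3, i4, i5, φ, hpC⟩ := Y226.exists_padic p
  have hp1 : ‖(p : C)‖ < 1 := by
    rw [hpC]
    exact inv_lt_one_of_one_lt₀ (by exact_mod_cast hp.one_lt)
  have hp0 : 0 < ‖(p : C)‖ := by
    rw [hpC]
    exact inv_pos.2 (by exact_mod_cast hp.pos)
  obtain ⟨γ, hγ⟩ := hP3 p hpP C φ hp1
  obtain ⟨φ₀, hφ₀⟩ : ∃ φ₀ : QA →+* C, ∀ y, φ₀ y = φ (γ y) := ⟨φ.comp γ.toRingHom, fun _ => rfl⟩
  have hpQ : 1 < ‖φ₀ ((p : QA)⁻¹)‖ := by
    rw [map_inv₀, map_natCast, norm_inv]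
    exact (one_lt_inv₀ hp0).2 hp1
  obtain ⟨Ψ, hΨ, -⟩ := exists_ext φ₀ ((p : QA)⁻¹) hpQ (fun i : Empty => (0 : ℂ))
    (by
      rw [algebraicIndependent_empty_type_iff]
      exact (algebraMap QA ℂ).injective) 0
  obtain ⟨c1, c2, c3⟩ := hγ Ψ fun y => by rw [hΨ, hφ₀]
  obtain ⟨t, M, hM, hrel, hnear⟩ := exists_lifts hp hp3 hp1 Ψ s c1
  have hty := fun i => c3 i (t i) (M i) (hM i) (hrel i) (hnear i)
  refine ⟨C, i1, i2, i3, i4, i5, φ₀, hpC, ?_⟩
  refine kf_core hp hp3 φ₀ hp1 s (fun i => ?_) (fun i => ?_) t M hM hrel (fun i => (hty i).1) Ψ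
    hΨ hnear fun i k hik hiso => ?_
  · rw [← hΨ]
    exact (c2 i).1
  · rw [← hΨ]
    exact (c2 i).2
  · obtain ⟨Z, hZ⟩ := sq_isog2 hp (z := jj (t i)) (z' := jj (t k))
      ⟨_, _, hM _, rfl, hrel _, rfl⟩ ⟨_, _, hM _, rfl, hrel _, rfl⟩ hiso
    refine sq_contra (hS1 0 i).1 hZ (((hty i).2 0 i).1 rfl) (((hty k).2 0 i).2 ?_)
    intro h2
    rw [Prod.mk.injEq] at h2
    exact hik h2.2.symm

theorem near_of_nr {C : Type} [NormedField C] [IsUltrametricDist C] (Φ : ℂ →+* C)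
    {a a' b b' y c : ℂ} (hA : Nr (Φ a') (Φ a)) (hB : Nr (Φ b') (Φ b)) (hc : ‖Φ c‖ ≤ 1)
    (h1 : a = c * b) (h2 : ‖Φ b‖ = 1) (hy : y * b' = a') : ‖Φ y - Φ c‖ < 1 := by
  have hB1 : ‖Φ b'‖ = 1 := hB.norm_eq h2
  have e : (Φ y - Φ c) * Φ b' = (Φ a' - Φ a) + Φ c * (Φ b - Φ b') := by
    rw [h1, ← hy, map_mul, map_mul]
    ring
  have h3 : ‖(Φ y - Φ c) * Φ b'‖ < 1 := by
    rw [e]
    refine (IsUltrametricDist.norm_add_le_max _ _).trans_lt (max_lt hA.2.2 ?_)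
    rw [norm_mul, norm_sub_rev]
    exact (mul_le_of_le_one_left (norm_nonneg _) hc).trans_lt hB.2.2
  rwa [norm_mul, hB1, mul_one] at h3

open Classical in
/-- The local theorem. -/
theorem kf_local {n p : ℕ} (hp : p.Prime)
    {C : Type} [NormedField C] [IsUltrametricDist C] [CompleteSpace C] [CharZero C]
    [IsAlgClosed C] (φ₀ : QA →+* C) (hpC : ‖(p : C)‖ = (p : ℝ)⁻¹) {c : Fin n → QA}
    (hCI : CoreOI n φ₀ c)
    {F : Subfield ℂ} {m : ℕ} (A B : Fin n → ℂ[X]) (s : Fin n → ℂ) (t : ℕ)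
    (hpt : p ∣ t)
    (hint : ∀ Φ : ℂ →+* C, (∀ a : QA, Φ (a : ℂ) = φ₀ a) → ∀ i, ‖Φ (s i)‖ ≤ 1 ∧
      ‖Φ (c i : ℂ)‖ ≤ 1 ∧
      (∀ k, ‖Φ ((A i).coeff k)‖ ≤ 1) ∧ (∀ k, ‖Φ ((B i).coeff k)‖ ≤ 1) ∧
      ‖Φ (4 * (A i).eval (s i) ^ 3 + 27 * (B i).eval (s i) ^ 2)‖ = 1)
    (hc : ∀ i, 6912 * (A i).eval (s i) ^ 3 =
      c i * (4 * (A i).eval (s i) ^ 3 + 27 * (B i).eval (s i) ^ 2))
    (u : Fin (n + n) → ℂ)
    (hemb : ∀ {ι : Type} [Finite ι] (y : ι → ℂ), AlgebraicIndependent F y → ∀ (a : ι → QA),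
      ∃ Φ : ℂ →+* C, (∀ a : QA, Φ (a : ℂ) = φ₀ a) ∧ (∀ i, ‖Φ (y i) - φ₀ (a i)‖ < 1) ∧
        (Finset.univ.filter fun j => 1 < ‖Φ (u j)‖).card ≤ m)
    (P : ∀ i, (crv ((A i).eval (s i + t * u (Fin.castAdd n i)))
      ((B i).eval (s i + t * u (Fin.castAdd n i)))).Point)
    (hP : ∀ i, (t * u (Fin.natAdd n i)) * xx (P i) = 1)
    {r : ℕ} (cls : Fin n → Option (Fin r)) (h1 : ∀ i, cls i = none → IsOfFinAddOrder (P i))
    (h2 : ∀ i k, i ≠ k → cls i = cls k → cls i ≠ none → ∃ (w w' : ℍ) (M : M2), 0 < M.det ∧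
      Rel M w w' ∧
      jj w * (4 * (A i).eval (s i + t * u (Fin.castAdd n i)) ^ 3 +
        27 * (B i).eval (s i + t * u (Fin.castAdd n i)) ^ 2) =
        6912 * (A i).eval (s i + t * u (Fin.castAdd n i)) ^ 3 ∧
      jj w' * (4 * (A k).eval (s k + t * u (Fin.castAdd n k)) ^ 3 +
        27 * (B k).eval (s k + t * u (Fin.castAdd n k)) ^ 2) =
        6912 * (A k).eval (s k + t * u (Fin.castAdd n k)) ^ 3)
    (W : Finset (Fin (n + n))) (hind : AlgebraicIndependent F (fun j : W => u j)) :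
    n + W.card ≤ m + r := by
  have : Fact p.Prime := ⟨hp⟩
  have hp1 : ‖(p : C)‖ < 1 := by
    rw [hpC]
    exact inv_lt_one_of_one_lt₀ (by exact_mod_cast hp.one_lt)
  have hp0 : 0 < ‖(p : C)‖ := by
    rw [hpC]
    exact inv_pos.2 (by exact_mod_cast hp.pos)
  have htn : ‖(t : C)‖ ≤ ‖(p : C)‖ := by
    obtain ⟨c, rfl⟩ := hpt
    push_cast
    rw [norm_mul]
    refine mul_le_of_le_one_right (norm_nonneg _) ?_
    simpa using IsUltrametricDist.norm_intCast_le_one C (c : ℤ)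
  -- the values at the elements of `W`
  obtain ⟨a₄, ha₄⟩ : ∃ a : QA, a ^ 4 = (p : QA)⁻¹ := IsAlgClosed.exists_pow_nat_eq _ (by norm_num)
  have ha₄n : ‖φ₀ a₄‖ ^ 4 = ‖(p : C)‖⁻¹ := by
    rw [← norm_pow, ← map_pow, ha₄, map_inv₀, map_natCast, norm_inv]
  have ha₄1 : 1 < ‖φ₀ a₄‖ := by
    by_contra hcon
    push Not at hcon
    have h3 : ‖φ₀ a₄‖ ^ 4 ≤ 1 := pow_le_one₀ (norm_nonneg _) hcon
    rw [ha₄n] at h3
    exact absurd ((one_lt_inv₀ hp0).2 hp1) (not_lt.2 h3)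
  obtain ⟨Φ, g1, g2, g3⟩ := hemb _ hind (fun _ => a₄)
  have hWp : ∀ j ∈ W, ‖Φ (u j) - φ₀ a₄‖ < 1 := fun j hj => g2 ⟨j, hj⟩
  have hbig : ∀ {x y : C}, 1 < ‖y‖ → ‖x - y‖ < 1 → ‖x‖ = ‖y‖ := by
    intro x y hy hxy
    have e : x = y + (x - y) := by ring
    have h3 : ‖y + (x - y)‖ = max ‖y‖ ‖x - y‖ :=
      IsUltrametricDist.norm_add_eq_max_of_norm_ne_norm (hxy.trans hy).ne'
    rw [← e, max_eq_left (hxy.trans hy).le] at h3
    exact h3
  set Bad : Finset (Fin (n + n)) := Finset.univ.filter fun j => 1 < ‖Φ (u j)‖ with hBad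
  have hWBad : W ⊆ Bad := by
    intro j hj
    rw [hBad, Finset.mem_filter]
    refine ⟨Finset.mem_univ _, ?_⟩
    rw [hbig ha₄1 (hWp j hj)]
    exact ha₄1
  let G : Finset (Fin n) := Finset.univ.filter fun i =>
    Fin.castAdd n i ∉ Bad \ W ∧ Fin.natAdd n i ∉ Bad \ W
  -- the number of the good indices
  have hGc : n ≤ G.card + (Bad \ W).card := by
    have h3 : (Finset.univ : Finset (Fin n)) ⊆ G ∪ (Finset.univ.filter fun i =>
        Fin.castAdd n i ∈ Bad \ W) ∪ (Finset.univ.filter fun i => Fin.natAdd n i ∈ Bad \ W) := by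
      intro i _
      rw [Finset.mem_union, Finset.mem_union, Finset.mem_filter, Finset.mem_filter,
        Finset.mem_filter]
      have := Finset.mem_univ i
      tauto
    have h4 : (Finset.univ.filter fun i : Fin n => Fin.castAdd n i ∈ Bad \ W).card +
        (Finset.univ.filter fun i : Fin n => Fin.natAdd n i ∈ Bad \ W).card ≤
          (Bad \ W).card := by
      rw [← Finset.card_image_of_injective (Finset.univ.filter fun i : Fin n =>
        Fin.castAdd n i ∈ Bad \ W) (Fin.castAdd_injective n n),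
        ← Finset.card_image_of_injective (Finset.univ.filter fun i : Fin n =>
        Fin.natAdd n i ∈ Bad \ W) (Fin.natAdd_injective n n), ← Finset.card_union_of_disjoint]
      · refine Finset.card_le_card fun j hj => ?_
        rcases Finset.mem_union.1 hj with hj | hj
        · obtain ⟨i, hi, rfl⟩ := Finset.mem_image.1 hj
          exact (Finset.mem_filter.1 hi).2
        · obtain ⟨i, hi, rfl⟩ := Finset.mem_image.1 hj
          exact (Finset.mem_filter.1 hi).2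
      · rw [Finset.disjoint_left]
        intro j hj hj'
        obtain ⟨i, -, rfl⟩ := Finset.mem_image.1 hj
        obtain ⟨i', -, h5⟩ := Finset.mem_image.1 hj'
        have h6 := congrArg Fin.val h5
        rw [Fin.val_natAdd, Fin.val_castAdd] at h6
        have := i.2
        omega
    have h5 := (Finset.card_le_card h3).trans ((Finset.card_union_le _ _).trans
      (Nat.add_le_add_right (Finset.card_union_le _ _) _))
    rw [Finset.card_univ, Fintype.card_fin] at h5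
    omega
  have hBW : (Bad \ W).card + W.card = Bad.card := Finset.card_sdiff_add_card_eq_card hWBad
  have hBm : Bad.card ≤ m := g3
  -- the good coordinates
  have hgood : ∀ j, j ∉ Bad \ W → ‖Φ (t * u j)‖ ^ 2 < ‖(p : C)‖ := by
    intro j h3
    rw [map_mul, map_natCast, norm_mul]
    by_cases hiW : j ∈ W
    · have h4 : ‖Φ (u j)‖ = ‖φ₀ a₄‖ := hbig ha₄1 (hWp j hiW)
      rw [h4]
      have h5 : (‖(t : C)‖ * ‖φ₀ a₄‖) ^ 2 ≤ (‖(p : C)‖ * ‖φ₀ a₄‖) ^ 2 :=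
        pow_le_pow_left₀ (by positivity) (mul_le_mul_of_nonneg_right htn (norm_nonneg _)) 2
      refine h5.trans_lt ?_
      rw [mul_pow]
      have h6 : (‖φ₀ a₄‖ ^ 2) ^ 2 = ‖(p : C)‖⁻¹ := by rw [← pow_mul]; exact ha₄n
      have h7 : ‖φ₀ a₄‖ ^ 2 < ‖(p : C)‖⁻¹ := by
        rw [← h6]
        have h8 : (1 : ℝ) < ‖φ₀ a₄‖ ^ 2 := one_lt_pow₀ ha₄1 (by norm_num)
        nlinarith
      calc ‖(p : C)‖ ^ 2 * ‖φ₀ a₄‖ ^ 2 < ‖(p : C)‖ ^ 2 * ‖(p : C)‖⁻¹ :=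
            mul_lt_mul_of_pos_left h7 (by positivity)
        _ = ‖(p : C)‖ := by
            field_simp
    · have h5 : ‖Φ (u j)‖ ≤ 1 := by
        by_contra hcon
        push Not at hcon
        exact h3 (Finset.mem_sdiff.2 ⟨Finset.mem_filter.2 ⟨Finset.mem_univ _, hcon⟩, hiW⟩)
      have h6 : ‖(t : C)‖ * ‖Φ (u j)‖ ≤ ‖(p : C)‖ :=
        (mul_le_of_le_one_right (norm_nonneg _) h5).trans htn
      calc (‖(t : C)‖ * ‖Φ (u j)‖) ^ 2 ≤ ‖(p : C)‖ ^ 2 :=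
            pow_le_pow_left₀ (by positivity) h6 2
        _ < ‖(p : C)‖ ^ 1 := pow_lt_pow_right_of_lt_one₀ hp0 hp1 (by norm_num)
        _ = _ := pow_one _
  have hlt1 : ∀ j, j ∉ Bad \ W → ‖Φ (t * u j)‖ < 1 := by
    intro j hj
    by_contra hcon
    push Not at hcon
    have h3 : (1 : ℝ) ≤ ‖Φ (t * u j)‖ ^ 2 := one_le_pow₀ hcon
    exact absurd ((hgood j hj).trans hp1) (not_lt.2 h3)
  have hnr : ∀ i ∈ G, Nr (Φ ((A i).eval (s i + t * u (Fin.castAdd n i)))) (Φ ((A i).eval (s i))) ∧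
      Nr (Φ ((B i).eval (s i + t * u (Fin.castAdd n i)))) (Φ ((B i).eval (s i))) := by
    intro i hi
    obtain ⟨h3, -⟩ := (Finset.mem_filter.1 hi).2
    obtain ⟨k1, -, k2, k3, -⟩ := hint Φ g1 i
    exact ⟨poly_nr Φ _ (fun k _ => k2 k) k1 (hlt1 _ h3), poly_nr Φ _ (fun k _ => k3 k) k1
      (hlt1 _ h3)⟩
  -- the points of the good indices
  have hnt : ∀ i ∈ G, ¬ IsOfFinAddOrder (P i) := by
    intro i hi
    obtain ⟨-, h3⟩ := (Finset.mem_filter.1 hi).2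
    exact nontors hp hp1 hp0 Φ (hnr i hi).1.1 (hnr i hi).2.1 (P i) _ (hP i) (hgood _ h3)
  have hnn : ∀ i ∈ G, cls i ≠ none := fun i hi h => hnt i hi (h1 i h)
  have hnat : ∀ a : ℕ, Nr (Φ (a : ℂ)) (Φ (a : ℂ)) := by
    intro a
    refine Nr.rfl' ?_
    rw [map_natCast]
    simpa using IsUltrametricDist.norm_intCast_le_one C (a : ℤ)
  have hj : ∀ i ∈ G, ∀ z : ℂ, z * (4 * (A i).eval (s i + t * u (Fin.castAdd n i)) ^ 3 +
        27 * (B i).eval (s i + t * u (Fin.castAdd n i)) ^ 2) =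
        6912 * (A i).eval (s i + t * u (Fin.castAdd n i)) ^ 3 → ‖Φ z - φ₀ (c i)‖ < 1 := by
    intro i hi z hz
    obtain ⟨hA, hB⟩ := hnr i hi
    obtain ⟨-, k1, -, -, k2⟩ := hint Φ g1 i
    rw [← g1]
    have n1 : Nr (Φ (6912 * (A i).eval (s i + t * u (Fin.castAdd n i)) ^ 3))
        (Φ (6912 * (A i).eval (s i) ^ 3)) := by
      rw [map_mul, map_mul, map_pow, map_pow]
      have := hnat 6912
      push_cast at this
      exact this.mul (hA.pow 3)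
    have n2 : Nr (Φ (4 * (A i).eval (s i + t * u (Fin.castAdd n i)) ^ 3 +
        27 * (B i).eval (s i + t * u (Fin.castAdd n i)) ^ 2))
        (Φ (4 * (A i).eval (s i) ^ 3 + 27 * (B i).eval (s i) ^ 2)) := by
      rw [map_add, map_add, map_mul, map_mul, map_mul, map_mul, map_pow, map_pow, map_pow, map_pow]
      have h4 := hnat 4
      have h27 := hnat 27
      push_cast at h4 h27
      exact (h4.mul (hA.pow 3)).add (h27.mul (hB.pow 2))
    exact near_of_nr Φ n1 n2 k1 (hc i) k2 hz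
  have hinj : ∀ i ∈ G, ∀ k ∈ G, cls i = cls k → i = k := by
    intro i hi k hk hik
    by_contra hne
    obtain ⟨w, w', M, hM, hrel, hw, hw'⟩ := h2 i k hne hik (hnn i hi)
    exact hCI Φ g1 i k hne M w w' hM hrel (hj i hi _ hw) (hj k hk _ hw')
  have hGr : G.card ≤ r := by
    have h3 : G.card = (G.image cls).card :=
      (Finset.card_image_of_injOn fun i hi k hk h => hinj i hi k hk h).symm
    rw [h3]
    have hsub : G.image cls ⊆ (Finset.univ : Finset (Fin r)).image some := by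
      intro c hc
      obtain ⟨i, hi, rfl⟩ := Finset.mem_image.1 hc
      obtain ⟨k, hk⟩ := Option.ne_none_iff_exists'.1 (hnn i hi)
      rw [hk]
      exact Finset.mem_image_of_mem _ (Finset.mem_univ k)
    refine (Finset.card_le_card hsub).trans (Finset.card_image_le.trans ?_)
    rw [Finset.card_univ, Fintype.card_fin]
  omega

end Pool.Agent.H882
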