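import Pool.Agent.H882.KuLoc

/-!
The exceptional classes for products of elliptic curves, with a power saving.
-/

set_option autoImplicit false

namespace Pool.Agent.H882

open Polynomial

theorem card_shift {n p : ℕ} [NeZero p] (E : Set (Fin n → ZMod p)) :
    {s : Fin n → ZMod p | ∃ W : Finset (Fin n), (fun i => s i + if i ∈ W then 1 else 0) ∈ E}.ncard ≤
      2 ^ n * E.ncard := by
  classical
  let T : Finset (Fin n) → Set (Fin n → ZMod p) := fun W =>
    {s | (fun i => s i + if i ∈ W then 1 else 0) ∈ E}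
  have hT : ∀ W, (T W).ncard ≤ E.ncard := by
    intro W
    refine Set.ncard_le_ncard_of_injOn (fun s i => s i + if i ∈ W then 1 else 0)
      (fun s hs => hs) ?_ (Set.toFinite _)
    intro s _ s' _ h
    funext i
    exact add_right_cancel (congrFun h i)
  have hsub : {s : Fin n → ZMod p | ∃ W : Finset (Fin n),
      (fun i => s i + if i ∈ W then 1 else 0) ∈ E} ⊆ ⋃ W ∈ (Finset.univ : Finset (Finset (Fin n))),
        T W := by
    rintro s ⟨W, hW⟩
    exact Set.mem_iUnion₂.2 ⟨W, Finset.mem_univ _, hW⟩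
  refine (Set.ncard_le_ncard hsub (Set.toFinite _)).trans
    ((Finset.set_ncard_biUnion_le _ _).trans ?_)
  calc ∑ W : Finset (Fin n), (T W).ncard ≤ ∑ _W : Finset (Fin n), E.ncard :=
        Finset.sum_le_sum fun W _ => hT W
    _ = _ := by
        rw [Finset.sum_const, Finset.card_univ, Fintype.card_finset, Fintype.card_fin, smul_eq_mul]

/-- the exceptional classes -/
def EK (n N p : ℕ) (a b : Fin n → ℤ[X]) (E : Set (Fin n → ZMod p))
    (Bd : Set (Fin (n + N) → ZMod p)) : Set (Fin (n + N) → ZMod p) :=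
  {v | v ∈ Bd ∨ (fun i => v (Fin.castAdd N i)) ∈
    {s : Fin n → ZMod p | ∃ W : Finset (Fin n), (fun i => s i + if i ∈ W then 1 else 0) ∈
      EF p (id : Fin n → Fin n) a b E ∅}}

theorem card_EK {n N c K B₀ : ℕ} {a b : Fin n → ℤ[X]} (E : ∀ p : ℕ, Set (Fin n → ZMod p))
    (Bd : ∀ p : ℕ, Set (Fin (n + N) → ZMod p))
    (hE : ∀ ε : ℝ, 0 < ε → ∃ C : ℝ, ∀ p : ℕ, p.Prime →
      ((E p).ncard : ℝ) ≤ C * (p : ℝ) ^ ((n : ℝ) - 1 / 2 + ε))
    (h1 : ∀ p, p.Prime → B₀ < p → ∀ i (β : ZMod p), {x | rr p (a i) (b i) x = β}.ncard ≤ c)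
    (h2 : ∀ p, p.Prime → B₀ < p → ∀ i,
      {x : ZMod p | ((b i).map (Int.castRingHom (ZMod p))).eval x = 0}.ncard ≤ c)
    (h3 : ∀ p, p.Prime → B₀ < p → (Bd p).ncard ≤ K * p ^ (n + N - 1) ∧ (n + N = 0 → Bd p = ∅))
    (ε : ℝ) (hε : 0 < ε) :
    ∃ C : ℝ, ∀ p : ℕ, p.Prime → B₀ < p →
      ((EK n N p a b (E p) (Bd p)).ncard : ℝ) ≤ C * (p : ℝ) ^ ((n : ℝ) + N - 1 / 2 + ε) := by
  obtain ⟨C, hC⟩ := ps_EF (K := 0) (B₀ := B₀) (σ := (id : Fin n → Fin n)) Function.injective_id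
    (a := a) (b := b) E (fun _ => ∅) hE h1 h2
    (fun p _ _ => ⟨by rw [Set.ncard_empty]; exact Nat.zero_le _, fun _ => rfl⟩) ε hε
  refine ⟨K + 2 ^ n * C, fun p hp hlt => ?_⟩
  have : NeZero p := ⟨hp.ne_zero⟩
  have hp0 : (0 : ℝ) < p := by exact_mod_cast hp.pos
  have hp1 : (1 : ℝ) ≤ p := by exact_mod_cast hp.one_lt.le
  have h4 : (EK n N p a b (E p) (Bd p)).ncard ≤ (Bd p).ncard +
      (2 ^ n * (EF p (id : Fin n → Fin n) a b (E p) ∅).ncard) * p ^ (n + N - n) := by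
    refine (Set.ncard_le_ncard (t := Bd p ∪ {v | (fun i => v (Fin.castAdd N i)) ∈
      {s : Fin n → ZMod p | ∃ W : Finset (Fin n), (fun i => s i + if i ∈ W then 1 else 0) ∈
        EF p (id : Fin n → Fin n) a b (E p) ∅}}) (fun v hv => hv) (Set.toFinite _)).trans
      ((Set.ncard_union_le _ _).trans (Nat.add_le_add le_rfl ?_))
    exact (card_pull (Fin.castAdd N) (Fin.castAdd_injective n N) _).trans
      (Nat.mul_le_mul_right _ (card_shift _))
  rw [Nat.add_sub_cancel_left] at h4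
  have h5 : ((EK n N p a b (E p) (Bd p)).ncard : ℝ) ≤ (Bd p).ncard +
      (2 ^ n * ((EF p (id : Fin n → Fin n) a b (E p) ∅).ncard : ℝ)) * (p : ℝ) ^ N := by
    exact_mod_cast h4
  have h6 := hC p hp hlt
  have h7 : (2 ^ n * ((EF p (id : Fin n → Fin n) a b (E p) ∅).ncard : ℝ)) * (p : ℝ) ^ N ≤
      2 ^ n * C * (p : ℝ) ^ ((n : ℝ) + N - 1 / 2 + ε) := by
    have e : (p : ℝ) ^ ((n : ℝ) + N - 1 / 2 + ε) =
        (p : ℝ) ^ ((n : ℝ) - 1 / 2 + ε) * (p : ℝ) ^ N := by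
      rw [← Real.rpow_natCast (p : ℝ) N, ← Real.rpow_add hp0]
      congr 1
      ring
    calc _ ≤ (2 ^ n * (C * (p : ℝ) ^ ((n : ℝ) - 1 / 2 + ε))) * (p : ℝ) ^ N :=
          mul_le_mul_of_nonneg_right (mul_le_mul_of_nonneg_left h6 (by positivity)) (by positivity)
      _ = _ := by
          rw [e]
          ring
  obtain ⟨h8, h9⟩ := h3 p hp hlt
  have h10 : ((Bd p).ncard : ℝ) ≤ K * (p : ℝ) ^ ((n : ℝ) + N - 1 / 2 + ε) := by
    rcases Nat.eq_zero_or_pos (n + N) with hN | hN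
    · rw [h9 hN, Set.ncard_empty, Nat.cast_zero]
      have := Real.rpow_nonneg hp0.le ((n : ℝ) + N - 1 / 2 + ε)
      positivity
    · have h11 : ((Bd p).ncard : ℝ) ≤ K * (p : ℝ) ^ (n + N - 1) := by exact_mod_cast h8
      refine h11.trans (mul_le_mul_of_nonneg_left ?_ (Nat.cast_nonneg _))
      rw [← Real.rpow_natCast]
      refine Real.rpow_le_rpow_of_exponent_le hp1 ?_
      rw [Nat.cast_sub hN]
      push_cast
      linarith
  rw [add_mul]
  exact h5.trans (add_le_add h10 h7)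

end Pool.Agent.H882
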