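import Pool.Agent.H882.MixLoc

/-!
The global theorem for centres with ordinary and multiplicative coordinates.
-/

set_option autoImplicit false

namespace Pool.Agent.H882

open UpperHalfPlane H294ZP Function Pool.Agent.N135.ZO NumberField IsDedekindDomain
open Pool.Agent.Y226 Pool.Agent.Y226.ZG WithZero

theorem mix_glob {K : Type} [Field K] [NumberField K] (σ : K →+* ℂ)
    (v : HeightOneSpectrum (𝓞 K)) {p : ℕ} (hp : p.Prime) (hpv : (p : 𝓞 K) ∈ v.asIdeal)
    {n : ℕ} (O : Finset (Fin n)) (hp2 : O.Nonempty → p ≠ 2) (s c : Fin n → K) (t : Fin n → ℍ)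
    (hs : ∀ i, i ∉ O → 1 < v.valuation K (s i))
    (hj : ∀ i ∈ O, jj (t i) = σ (c i)) (hcm : ∀ i ∈ O, IsCM (t i)) (hord : ∀ i ∈ O, OrdAt p (t i))
    (hc0 : ∀ i ∈ O, v.valuation K (c i) = 1) (hc1 : ∀ i ∈ O, v.valuation K (c i - 1728) = 1)
    (hsc : ∀ i ∈ O, v.valuation K (s i - c i) < 1)
    (hiso : ∀ i ∈ O, ∀ k ∈ O, i ≠ k → ¬ Isog (jj (t i)) (jj (t k))) :
    ∃ (G b : ℕ) (Γ Γ' : Fin n → Set ℂ), (∀ i, (Γ i).Finite ∧ (∀ z ∈ Γ i, i ∈ O ∧ ∃ τ : ℍ,
        IsCM τ ∧ jj τ = z) ∧ (Γ' i).Subsingleton ∧ Γ' i ⊆ Γ i ∧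
        (i ∈ O → (∃ τ : ℍ, IsCM τ ∧ jj τ = σ (s i)) → σ (s i) ∈ Γ' i)) ∧
      ∀ (m : ℕ) (y : Fin n → ℂ),
      (∀ J : Finset (Fin n), J.card = m + 1 → ∃ (F : MvPolynomial (Fin n) K) (d : Fin n →₀ ℕ),
        (∀ u ∈ F.support, u ≤ d) ∧ d.support ⊆ J ∧ F.coeff d ≠ 0 ∧
        (∀ u, v.valuation K (F.coeff u) ≤ v.valuation K (F.coeff d)) ∧
        MvPolynomial.eval₂ σ y F = 0) →
      ∀ (lam : Fin n → K), (∀ i, i ∉ O → v.valuation K (lam i) < v.valuation K (s i)) →
      (∀ i ∈ O, v.valuation K (lam i) < 1) →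
      ∀ (r : ℕ) (Z : SpecialDatum n r) (x : Fin n → ℂ), x ∈ Z.locus →
        (∀ i, x i = σ (s i) + σ (lam i) * y i) → ∀ (I W : Finset (Fin n)),
        AlgebraicIndependent ℚ (fun i : W => x i) →
        (∀ i ∈ I, i ∈ O → x i ∈ Γ i →
          (v.valuation K (lam i) ^ (p - 1) < v.valuation K (p : K) → x i ∈ Γ' i) →
          (∀ j, v.valuation K (lam j) * exp (b : ℤ) ≤ 1) ∧ x i ≠ σ (s i)) →
        (∀ i ∈ I, ∀ k ∈ I, i ∉ O → k ∉ O → i ≠ k → ∀ N, 0 < N → N ≤ G → IsogN N (x i) (x k) →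
          (∀ j, v.valuation K (lam j) * exp (b : ℤ) ≤ 1) ∧
          ¬ IsogN N (σ (s i)) (σ (s k))) → I.card + W.card ≤ m + r := by
  classical
  have : Fact p.Prime := ⟨hp⟩
  obtain ⟨C, _, _, _, _, _, -, hpC⟩ := exists_padic p
  have hp1 : ‖(p : C)‖ < 1 := by
    rw [hpC]
    exact inv_lt_one_of_one_lt₀ (by exact_mod_cast hp.one_lt)
  have hp0 : 0 < ‖(p : C)‖ := by
    rw [hpC]
    exact inv_pos.2 (by exact_mod_cast hp.pos)
  obtain ⟨ι, hι⟩ := exists_embedding (C := C) hp1 v hpv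
  have halg : ∀ a : K, σ a ∈ QA := by
    intro a
    rw [mem_QA]
    exact (Algebra.IsAlgebraic.isAlgebraic (R := ℚ) a).algHom σ.toRatAlgHom
  let σ' : K →+* QA := RingHom.codRestrict σ QA halg
  have hσ' : ∀ a, ((σ' a : QA) : ℂ) = σ a := fun _ => rfl
  obtain ⟨φ₀, hφ₀⟩ := exists_phi σ' ι
  set ψ : ZZ →+* C := φ₀.comp iA with hψdef
  have hψ : ∀ z, ‖ψ z‖ ≤ 1 := psi_norm φ₀
  have hψi : Function.Injective ψ := by
    refine φ₀.injective.comp ?_
    have : Function.Injective (rA.comp iA) := by rw [rA_comp]; exact Subtype.val_injective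
    exact Function.Injective.of_comp (f := rA) this
  have hs1 : ∀ i, i ∉ O → 1 < ‖ι (s i)‖ := fun i hi => one_lt_norm_of_val hι (hs i hi)
  obtain ⟨ϖ, hϖ⟩ := v.valuation_exists_uniformizer K
  set θ : ℝ := ‖ι ϖ‖ with hθdef
  have hθ1 : θ < 1 := norm_lt_one_of_val hι (by
    rw [hϖ, ← exp_zero, exp_lt_exp]
    norm_num)
  have hθ0 : 0 ≤ θ := norm_nonneg _
  have hpQ : 1 < ‖φ₀ ((p : QA)⁻¹)‖ := by
    rw [map_inv₀, map_natCast, norm_inv]
    exact (one_lt_inv₀ hp0).2 hp1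
  -- strict inequalities
  have val_lt : ∀ {a b' : K}, v.valuation K a < v.valuation K b' → ‖ι a‖ < ‖ι b'‖ := by
    intro a b' h
    have h1 := norm_of_val_mul_exp hι hϖ (val_mul_exp_one h)
    rw [pow_one] at h1
    have hb' : b' ≠ 0 := by
      rintro rfl
      rw [map_zero] at h
      exact absurd h (not_lt.2 zero_le)
    have h2 : 0 < ‖ι b'‖ := norm_pos_iff.2 ((map_ne_zero ι).2 hb')
    refine h1.trans_lt ?_
    calc θ * ‖ι b'‖ < 1 * ‖ι b'‖ := mul_lt_mul_of_pos_right hθ1 h2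
      _ = ‖ι b'‖ := one_mul _
  -- the local theory for any extension of the embedding
  have hG0 : ∀ (Φ : ℂ →+* C), (∀ a : QA, Φ (a : ℂ) = φ₀ a) → ∀ (hO : O.Nonempty)
      (P : Pkg p hp.pos), ∀ i ∈ O, G0 P (VF Φ) (jj (t i)) := by
    intro Φ hΦ hO P i hi
    have hΦK : ∀ a : K, Φ (σ a) = ι a := by
      intro a
      rw [← hσ' a, hΦ, hφ₀]
    have hpV : (VF Φ).valuation (p : ℂ) < 1 := by
      rw [VF_lt_one, map_natCast]
      exact hp1
    have hn0 : (VF Φ).valuation (jj (t i)) = 1 := by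
      rw [VF_eq_one, hj i hi, hΦK]
      exact norm_of_val_one hι (hc0 i hi)
    have hn1 : (VF Φ).valuation (jj (t i) - 1728) = 1 := by
      have e : jj (t i) - 1728 = σ (c i - 1728) := by
        rw [map_sub, hj i hi]
        congr 1
        exact (map_ofNat σ 1728).symm
      rw [VF_eq_one, e, hΦK]
      exact norm_of_val_one hι (hc1 i hi)
    have hmem : jj (t i) ∈ VF Φ := by
      rw [VF_mem]
      exact (VF_eq_one.1 hn0).le
    obtain ⟨e, M, he, hdet, htr, hfix⟩ := hord i hi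
    exact ⟨hmem, ord_of_fix hp hpV P hmem he hdet htr hfix, hn0, hn1⟩
  have hscι : ∀ i ∈ O, ‖ι (s i) - ι (c i)‖ < 1 := by
    intro i hi
    rw [← map_sub]
    exact norm_lt_one_of_val hι (hsc i hi)
  -- the singular moduli close to the centre
  set Γ : Fin n → Set ℂ := fun i => {z | i ∈ O ∧ (∃ τ : ℍ, IsCM τ ∧ jj τ = z) ∧
    ∃ h : z ∈ QA, ‖φ₀ ⟨z, h⟩ - ι (s i)‖ ≤ θ} with hΓ
  set Γ' : Fin n → Set ℂ := fun i => {z | z ∈ Γ i ∧
    ∃ h : z ∈ QA, ‖φ₀ ⟨z, h⟩ - ι (s i)‖ ^ (p - 1) < ‖(p : C)‖} with hΓ'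
  obtain ⟨Φ₀, hΦ₀, -⟩ := exists_ext φ₀ ((p : QA)⁻¹) hpQ (fun i : Empty => (0 : ℂ))
    (by
      rw [algebraicIndependent_empty_type_iff]
      exact (algebraMap QA ℂ).injective) 0
  have hΓfin : ∀ i, (Γ i).Finite := by
    intro i
    by_cases hi : i ∈ O
    · have hO : O.Nonempty := ⟨i, hi⟩
      obtain ⟨P⟩ := exists_pkg hp (hp2 hO)
      refine (cm_finite hp (hp2 hO) hp1 hp0 P (hG0 Φ₀ hΦ₀ hO P i hi) (s := ι (s i)) (θ := θ) ?_
        hθ1).subset ?_
      · have e : Φ₀ (jj (t i)) = ι (c i) := by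
          rw [hj i hi, ← hσ', hΦ₀, hφ₀]
        rw [e]
        exact hscι i hi
      · rintro z ⟨-, h1, h2, h3⟩
        refine ⟨h1, ?_⟩
        rw [← hΦ₀] at h3
        exact h3
    · refine Set.finite_empty.subset ?_
      rintro z ⟨h1, -⟩
      exact hi h1
  have hΓsub : ∀ i, (Γ' i).Subsingleton := by
    rintro i z ⟨⟨hi, ⟨τ, hτ, rfl⟩, -⟩, h1, h2⟩ z' ⟨⟨-, ⟨τ', hτ', rfl⟩, -⟩, h1', h2'⟩
    have hO : O.Nonempty := ⟨i, hi⟩
    obtain ⟨P⟩ := exists_pkg hp (hp2 hO)
    refine cm_unique hp (hp2 hO) hp1 P hτ hτ' (hG0 Φ₀ hΦ₀ hO P i hi) (s := ι (s i)) ?_ ?_ ?_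
    · have e : Φ₀ (jj (t i)) = ι (c i) := by
        rw [hj i hi, ← hσ', hΦ₀, hφ₀]
      rw [e]
      exact hscι i hi
    · rw [← hΦ₀] at h2
      exact h2
    · rw [← hΦ₀] at h2'
      exact h2'
  -- bounds
  have hGex : ∀ i k : Fin n, ∃ G : ℕ, i ∉ O → k ∉ O → ∀ (A B g : ℕ) (ζ x y : C), 0 < A → 0 < B →
      A.Coprime B → 0 < g → IsPrimitiveRoot ζ g → ‖x - ι (s i)‖ ≤ θ * ‖ι (s i)‖ →
      ‖y - ι (s k)‖ ≤ θ * ‖ι (s k)‖ → qT ψ y ^ B = ζ * qT ψ x ^ A → A * B * g ^ 2 ≤ G := by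
    intro i k
    by_cases hi : i ∈ O
    · exact ⟨0, fun h => absurd hi h⟩
    by_cases hk : k ∈ O
    · exact ⟨0, fun _ h => absurd hk h⟩
    obtain ⟨G, hG⟩ := bad_bound (p := p) hψ hp1 hp0 (hs1 i hi) (hs1 k hk) hθ1
    exact ⟨G, fun _ _ => hG⟩
  choose Gf hGf using hGex
  have hεex : ∀ i k : Fin n, ∃ ε : ℝ, 0 < ε ∧ (i ∉ O → k ∉ O → ∀ (A B g : ℕ) (ζ x y : C), 0 < A →
      0 < B → A.Coprime B → 0 < g → IsPrimitiveRoot ζ g → ‖x - ι (s i)‖ ≤ ε * ‖ι (s i)‖ →
      ‖y - ι (s k)‖ ≤ ε * ‖ι (s k)‖ → qT ψ y ^ B = ζ * qT ψ x ^ A →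
      qT ψ (ι (s k)) ^ B = ζ * qT ψ (ι (s i)) ^ A) := by
    intro i k
    by_cases hi : i ∈ O
    · exact ⟨1, one_pos, fun h => absurd hi h⟩
    by_cases hk : k ∈ O
    · exact ⟨1, one_pos, fun _ h => absurd hk h⟩
    obtain ⟨ε, h1, h2⟩ := bad_small (p := p) hψ hp1 hp0 (hs1 i hi) (hs1 k hk)
    exact ⟨ε, h1, fun _ _ => h2⟩
  choose ε hε0 hε using hεex
  have hηex : ∀ i : Fin n, ∃ η : ℝ, 0 < η ∧ ∀ z ∈ Γ i, z ≠ σ (s i) → ∀ h : z ∈ QA,
      η ≤ ‖φ₀ ⟨z, h⟩ - ι (s i)‖ := by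
    intro i
    set f : ℂ → ℝ := fun z => if h : z ∈ QA then ‖φ₀ ⟨z, h⟩ - ι (s i)‖ else 1 with hf
    have hfin : (Γ i \ {σ (s i)}).Finite := (hΓfin i).subset Set.sdiff_subset
    have hfz : ∀ z, ∀ h : z ∈ QA, f z = ‖φ₀ ⟨z, h⟩ - ι (s i)‖ := fun z h => dif_pos h
    have hfpos : ∀ z ∈ Γ i \ {σ (s i)}, 0 < f z := by
      rintro z ⟨⟨-, -, hzQ, -⟩, hne⟩
      rw [hfz z hzQ, norm_pos_iff]
      intro h0
      apply hne
      have h1 : φ₀ ⟨z, hzQ⟩ = φ₀ (σ' (s i)) := by rw [hφ₀]; exact sub_eq_zero.1 h0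
      exact congrArg (fun w : QA => (w : ℂ)) (φ₀.injective h1)
    by_cases hne : (Γ i \ {σ (s i)}).Nonempty
    · obtain ⟨z₀, hz₀, hmin⟩ := Set.exists_min_image _ f hfin hne
      refine ⟨f z₀, hfpos z₀ hz₀, fun z hz hzne h => ?_⟩
      rw [← hfz z h]
      exact hmin z ⟨hz, hzne⟩
    · refine ⟨1, one_pos, fun z hz hzne => absurd ⟨z, hz, hzne⟩ hne⟩
  choose η hη0 hη using hηex
  have hbex : ∀ i k : Fin n, ∃ b : ℕ, θ ^ b < ε i k := fun i k =>
    exists_pow_lt_of_lt_one (hε0 i k) hθ1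
  choose bf hbf using hbex
  have hbex2 : ∀ i : Fin n, ∃ b : ℕ, θ ^ b < η i := fun i =>
    exists_pow_lt_of_lt_one (hη0 i) hθ1
  choose bg hbg using hbex2
  refine ⟨∑ i, ∑ k, Gf i k, (∑ i, ∑ k, bf i k) + ∑ i, bg i, Γ, Γ', fun i => ⟨hΓfin i, ?_,
    hΓsub i, fun z hz => hz.1, ?_⟩, fun m y hG lam hlam hlamO r Z x hxZ hxy I W hW hIO hI => ?_⟩
  · rintro z ⟨hi, h, -⟩
    exact ⟨hi, h⟩
  · rintro hi ⟨τ, hτ, hz⟩
    have e : (⟨σ (s i), halg (s i)⟩ : QA) = σ' (s i) := rfl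
    refine ⟨⟨hi, ⟨τ, hτ, hz⟩, halg (s i), ?_⟩, halg (s i), ?_⟩
    · rw [e, hφ₀, sub_self, norm_zero]
      exact hθ0
    · rw [e, hφ₀, sub_self, norm_zero, zero_pow (by have := hp.one_lt; omega)]
      exact hp0
  have hGle : ∀ i k, Gf i k ≤ ∑ i, ∑ k, Gf i k := fun i k =>
    (Finset.single_le_sum (f := fun k => Gf i k) (fun _ _ => Nat.zero_le _)
      (Finset.mem_univ k)).trans (Finset.single_le_sum (f := fun i => ∑ k, Gf i k)
      (fun _ _ => Nat.zero_le _) (Finset.mem_univ i))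
  have hble : ∀ i k, bf i k ≤ (∑ i, ∑ k, bf i k) + ∑ i, bg i := fun i k =>
    ((Finset.single_le_sum (f := fun k => bf i k) (fun _ _ => Nat.zero_le _)
      (Finset.mem_univ k)).trans (Finset.single_le_sum (f := fun i => ∑ k, bf i k)
      (fun _ _ => Nat.zero_le _) (Finset.mem_univ i))).trans (Nat.le_add_right _ _)
  have hble2 : ∀ i, bg i ≤ (∑ i, ∑ k, bf i k) + ∑ i, bg i := fun i =>
    (Finset.single_le_sum (f := bg) (fun _ _ => Nat.zero_le _)
      (Finset.mem_univ i)).trans (Nat.le_add_left _ _)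
  set b := (∑ i, ∑ k, bf i k) + ∑ i, bg i with hbdef
  have hsmall : (∀ j, v.valuation K (lam j) * exp (b : ℤ) ≤ 1) → ∀ j, ‖ι (lam j)‖ ≤ θ ^ b := by
    intro h j
    have h1 := norm_of_val_mul_exp hι hϖ (x := lam j) (y := 1) (b := b) (by
      rw [map_one]; exact h j)
    rwa [map_one, norm_one, mul_one] at h1
  -- the coordinates in `W`
  have hlamW : ∀ i ∈ W, lam i ≠ 0 := by
    intro i hi h0
    have h1 := hW.transcendental ⟨i, hi⟩
    apply h1
    show IsAlgebraic ℚ (x i)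
    rw [hxy i, h0, map_zero, zero_mul, add_zero]
    exact mem_QA.1 (halg _)
  have hWQ : AlgebraicIndependent QA (fun i : W => x i) := hW.extendScalars QA
  have hyQ : AlgebraicIndependent QA (fun i : W => y i) :=
    indep_affine (fun i : W => σ' (s i)) (fun i : W => σ' (lam i))
      (fun i => (map_ne_zero σ').2 (hlamW i i.2)) (fun i => hxy i) hWQ
  -- the embedding
  set D : ℕ := 1 + ∑ i, ∑ j, (Z.mat j * (Z.mat i).adjugate).det.toNat with hD
  have hDle : ∀ i j, (Z.mat j * (Z.mat i).adjugate).det.toNat ≤ D := fun i j =>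
    ((Finset.single_le_sum (f := fun j => (Z.mat j * (Z.mat i).adjugate).det.toNat)
      (fun _ _ => Nat.zero_le _) (Finset.mem_univ j)).trans (Finset.single_le_sum
      (f := fun i => ∑ j, (Z.mat j * (Z.mat i).adjugate).det.toNat)
      (fun _ _ => Nat.zero_le _) (Finset.mem_univ i))).trans (Nat.le_add_left _ _)
  set M : ℝ := 1 + ∑ k, ‖ι (s k)‖ ^ D + ∑ k, ‖ι (s k)‖ with hM
  have hMle : ∀ k, ‖ι (s k)‖ ^ D ≤ M := fun k => by
    have h1 := Finset.single_le_sum (f := fun k => ‖ι (s k)‖ ^ D) (fun _ _ => by positivity)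
      (Finset.mem_univ k)
    have h2 : 0 ≤ ∑ k, ‖ι (s k)‖ := Finset.sum_nonneg fun _ _ => by positivity
    linarith
  have hMle1 : ∀ k, ‖ι (s k)‖ ≤ M := fun k => by
    have h1 := Finset.single_le_sum (f := fun k => ‖ι (s k)‖) (fun _ _ => by positivity)
      (Finset.mem_univ k)
    have h2 : 0 ≤ ∑ k, ‖ι (s k)‖ ^ D := Finset.sum_nonneg fun _ _ => by positivity
    linarith
  have hM1 : 1 ≤ M := by
    have h1 : 0 ≤ ∑ k, ‖ι (s k)‖ := Finset.sum_nonneg fun _ _ => by positivity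
    have h2 : 0 ≤ ∑ k, ‖ι (s k)‖ ^ D := Finset.sum_nonneg fun _ _ => by positivity
    linarith
  have hM0 : 0 ≤ M := zero_le_one.trans hM1
  set R : ℝ := 1 + ∑ i, M / ‖ι (lam i)‖ with hR
  have hR1 : 1 ≤ R := le_add_of_nonneg_right (Finset.sum_nonneg fun _ _ => by positivity)
  have hRle : ∀ i, M / ‖ι (lam i)‖ ≤ R := fun i =>
    (Finset.single_le_sum (f := fun i => M / ‖ι (lam i)‖) (fun _ _ => by positivity)
      (Finset.mem_univ i)).trans (le_add_of_nonneg_left zero_le_one)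
  obtain ⟨Φ, hΦ, hΦy⟩ := exists_ext φ₀ ((p : QA)⁻¹) hpQ (fun i : W => y i) hyQ R
  have hΦK : ∀ a : K, Φ (σ a) = ι a := by
    intro a
    rw [← hσ' a, hΦ, hφ₀]
  have hΦZ : Φ.comp ιZ = ψ := by
    ext z
    exact hΦ (iA z)
  have hΦx : ∀ i, Φ (x i) = ι (s i) + ι (lam i) * Φ (y i) := by
    intro i
    rw [hxy i, map_add, map_mul, hΦK, hΦK]
  have hpV : (VF Φ).valuation (p : ℂ) < 1 := by
    rw [VF_lt_one, map_natCast]
    exact hp1
  -- the coordinates of large norm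
  set U : Finset (Fin n) := Finset.univ.filter fun i => 1 < ‖Φ (y i)‖ with hU
  have hUm : U.card ≤ m := by
    refine big_card σ Φ y fun J hJ => ?_
    obtain ⟨F, d, h1, h2, h3, h4, h5⟩ := hG J hJ
    refine ⟨F, d, h1, h2, h3, fun u => ?_, h5⟩
    rw [hΦK, hΦK]
    exact norm_le_of_val_le hι (h4 u)
  have hWU : W ⊆ U := by
    intro i hi
    rw [hU, Finset.mem_filter]
    exact ⟨Finset.mem_univ _, hR1.trans_lt (hΦy ⟨i, hi⟩)⟩
  have hxW : ∀ i ∈ W, M < ‖Φ (x i)‖ := by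
    intro i hi
    have hl0 : 0 < ‖ι (lam i)‖ := norm_pos_iff.2 ((map_ne_zero ι).2 (hlamW i hi))
    have h1 : M < ‖ι (lam i) * Φ (y i)‖ := by
      rw [norm_mul, mul_comm]
      rw [← div_lt_iff₀ hl0]
      exact (hRle i).trans_lt (hΦy ⟨i, hi⟩)
    have h2 : ‖ι (s i)‖ < ‖ι (lam i) * Φ (y i)‖ := lt_of_le_of_lt (hMle1 i) h1
    rw [hΦx i, add_comm, neq_of_add_lt h2]
    exact h1
  have hxJ : ∀ i, i ∉ U → ‖Φ (x i) - ι (s i)‖ ≤ ‖ι (lam i)‖ := by
    intro i hi
    have h1 : ‖Φ (y i)‖ ≤ 1 := by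
      by_contra hcon
      push Not at hcon
      exact hi (Finset.mem_filter.2 ⟨Finset.mem_univ _, hcon⟩)
    rw [hΦx i, add_sub_cancel_left]
    exact nmul_le' le_rfl h1
  have hlamθ : ∀ i, i ∉ O → ‖ι (lam i)‖ ≤ θ * ‖ι (s i)‖ := by
    intro i hi
    have := norm_of_val_mul_exp hι hϖ (val_mul_exp_one (hlam i hi))
    rwa [pow_one] at this
  have hxJn : ∀ i, i ∉ O → i ∉ U → ‖Φ (x i)‖ = ‖ι (s i)‖ := fun i hiO hi =>
    (qT_near hψ (hs1 i hiO) hθ1 ((hxJ i hi).trans (hlamθ i hiO))).1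
  -- ordinary coordinates
  have hlamO1 : ∀ i ∈ O, ‖ι (lam i)‖ < 1 := fun i hi => norm_lt_one_of_val hι (hlamO i hi)
  have hlamO3 : ∀ i ∈ O, ‖ι (lam i)‖ ≤ θ := by
    intro i hi
    have h1 := norm_of_val_mul_exp hι hϖ (val_mul_exp_one (x := lam i) (y := 1) (by
      rw [map_one]; exact hlamO i hi))
    rwa [pow_one, map_one, norm_one, mul_one] at h1
  have hlamO2 : ∀ i, v.valuation K (lam i) ^ (p - 1) < v.valuation K (p : K) →
      ‖ι (lam i)‖ ^ (p - 1) < ‖(p : C)‖ := by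
    intro i hi
    have h1 : v.valuation K (lam i ^ (p - 1)) < v.valuation K (p : K) := by
      rw [map_pow]; exact hi
    have h2 := val_lt h1
    rwa [map_pow, norm_pow, map_natCast] at h2
  have hxO : ∀ i ∈ O, i ∉ U → (VF Φ).valuation (x i - jj (t i)) < 1 := by
    intro i hi hiU
    rw [VF_lt_one, map_sub, hj i hi, hΦK]
    have e : Φ (x i) - ι (c i) = (Φ (x i) - ι (s i)) + (ι (s i) - ι (c i)) := by ring
    rw [e]
    exact nadd_lt ((hxJ i hiU).trans_lt (hlamO1 i hi)) (hscι i hi)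
  have hxOV : ∀ i ∈ O, i ∉ U → x i ∈ VF Φ := by
    intro i hi hiU
    have h1 := hxO i hi hiU
    have hO : O.Nonempty := ⟨i, hi⟩
    obtain ⟨P⟩ := exists_pkg hp (hp2 hO)
    exact ((hG0 Φ hΦ hO P i hi).congr h1).mem
  -- the set
  set T : Finset (Fin n) := (I \ U) ∪ W with hT
  have hdisj : Disjoint (I \ U) W := by
    rw [Finset.disjoint_left]
    intro i hi hiW
    exact (Finset.mem_sdiff.1 hi).2 (hWU hiW)
  have hTcard : T.card = (I \ U).card + W.card := Finset.card_union_of_disjoint hdisj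
  have hbig : ∀ i ∈ T, i ∈ O → i ∉ U ∨ 1 < ‖Φ (x i)‖ := by
    intro i hi hiO
    rcases Finset.mem_union.1 hi with h | h
    · exact Or.inl (Finset.mem_sdiff.1 h).2
    · exact Or.inr (lt_of_le_of_lt hM1 (hxW i h))
  have hbigW : ∀ i ∈ W, 1 < ‖Φ (x i)‖ := fun i hi => lt_of_le_of_lt hM1 (hxW i hi)
  have hbigJ : ∀ i, i ∉ O → i ∉ U → 1 < ‖Φ (x i)‖ := fun i hiO hiU => by
    rw [hxJn i hiO hiU]
    exact hs1 i hiO
  have hdetpos : ∀ i j, 0 < (Z.mat j * (Z.mat i).adjugate).det := by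
    intro i j
    rw [det_mul', det_adj]
    have h1 := Z.det_pos i
    have h2 := Z.det_pos j
    positivity
  -- an integral coordinate is not isogenous to a large one
  have hint : ∀ {A : M2} {w w' : ℍ}, 0 < A.det → Rel A w w' → jj w ∈ VF Φ → ¬ 1 < ‖Φ (jj w')‖ := by
    intro A w w' hA hrel hmem
    exact not_lt.2 (rel_mem hA hrel hmem)
  have hTr : T.card ≤ r := by
    refine crit_card' Z hxZ T ?_ ?_
    · intro i hi τ hτ hxi
      have hcmint : ‖Φ (jj τ)‖ ≤ 1 := norm_le_one_of_isIntegral Φ (singular_modulus_integral τ hτ)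
      rcases Finset.mem_union.1 hi with hi' | hi'
      · obtain ⟨hiI, hiU⟩ := Finset.mem_sdiff.1 hi'
        by_cases hiO : i ∈ O
        · -- ordinary
          have hQ : x i ∈ QA := by
            rw [hxi, mem_QA]
            exact ((singular_modulus_integral τ hτ).tower_top (A := ℚ)).isAlgebraic
          have hΦxi : φ₀ ⟨x i, hQ⟩ = Φ (x i) := (hΦ ⟨x i, hQ⟩).symm
          have hmemΓ : x i ∈ Γ i := by
            refine ⟨hiO, ⟨τ, hτ, hxi.symm⟩, hQ, ?_⟩
            rw [hΦxi]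
            exact (hxJ i hiU).trans (hlamO3 i hiO)
          obtain ⟨hsm, hne⟩ := hIO i hiI hiO hmemΓ (fun hrad => ⟨hmemΓ, hQ, by
            rw [hΦxi]
            exact (pow_le_pow_left₀ (norm_nonneg _) (hxJ i hiU) _).trans_lt (hlamO2 i hrad)⟩)
          have h1 := hη i (x i) hmemΓ hne hQ
          rw [hΦxi] at h1
          have h2 := (hxJ i hiU).trans (hsmall hsm i)
          have h3 : θ ^ b ≤ θ ^ bg i := pow_le_pow_of_le_one hθ0 hθ1.le (hble2 i)
          exact absurd (h3.trans_lt (hbg i)) (not_lt.2 (h1.trans h2))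
        · have h1 := hbigJ i hiO hiU
          rw [hxi] at h1
          exact absurd h1 (not_lt.2 hcmint)
      · have h1 := hbigW i hi'
        rw [hxi] at h1
        exact absurd h1 (not_lt.2 hcmint)
    · intro i hi k hk hik w w' hrel hxi hxk
      have hdet := hdetpos i k
      have hdet' : 0 < (Z.mat k * (Z.mat i).adjugate).adjugate.det := by
        rw [det_adj]; exact hdet
      rcases Finset.mem_union.1 hi with hi' | hi'
      · obtain ⟨hiI, hiU⟩ := Finset.mem_sdiff.1 hi'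
        rcases Finset.mem_union.1 hk with hk' | hk'
        · obtain ⟨hkI, hkU⟩ := Finset.mem_sdiff.1 hk'
          by_cases hiO : i ∈ O
          · by_cases hkO : k ∈ O
            · -- both ordinary
              have hO : O.Nonempty := ⟨i, hiO⟩
              obtain ⟨P⟩ := exists_pkg hp (hp2 hO)
              refine hiso i hiO k hkO hik (near_isog hp (hp2 hO) hpV P (hcm i hiO) (hcm k hkO)
                (hG0 Φ hΦ hO P i hiO) (hG0 Φ hΦ hO P k hkO) hdet hrel ?_ ?_)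
              · rw [← hxi]
                exact hxO i hiO hiU
              · rw [← hxk]
                exact hxO k hkO hkU
            · refine hint hdet hrel ?_ ?_
              · rw [← hxi]
                exact hxOV i hiO hiU
              · rw [← hxk]
                exact hbigJ k hkO hkU
          · by_cases hkO : k ∈ O
            · refine hint hdet' (rel_adj hrel) ?_ ?_
              · rw [← hxk]
                exact hxOV k hkO hkU
              · rw [← hxi]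
                exact hbigJ i hiO hiU
            · -- both coordinates are near the centre
              obtain ⟨A, B, g, ζ, hA, hB, hAB, hg, hζ, hrel', -, hpsi⟩ := tate_rel (C := C) hψ
                (K₀ := ℂ) (i₀ := ιZ) (ρ := RingHom.id ℂ) (φ := Φ) (RingHom.id_comp _) hΦZ
                (τ := w) (w := w') (a := (Z.mat k * (Z.mat i).adjugate) 0 0)
                (b := (Z.mat k * (Z.mat i).adjugate) 0 1)
                (c := (Z.mat k * (Z.mat i).adjugate) 1 0)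
                (d := (Z.mat k * (Z.mat i).adjugate) 1 1)
                (by rw [← det_eq]; exact hdet) hrel (X := x i) (Y := x k) hxi hxk
                (hbigJ i hiO hiU)
              have hdi := (hxJ i hiU).trans (hlamθ i hiO)
              have hdk := (hxJ k hkU).trans (hlamθ k hkO)
              have hle := hGf i k hiO hkO A B g ζ (Φ (x i)) (Φ (x k)) hA hB hAB hg hζ hdi hdk
                hrel'
              have hN0 : 0 < A * B * g ^ 2 := Nat.mul_pos (Nat.mul_pos hA hB) (pow_pos hg 2)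
              have hiso' : IsogN (A * B * g ^ 2) (x i) (x k) := by
                rw [hxi, hxk]
                exact isogN_of_psi hN0 hpsi
              obtain ⟨hsm, hno⟩ := hI i hiI k hkI hiO hkO hik _ hN0 (hle.trans (hGle i k)) hiso'
              apply hno
              have hsm' : ∀ j, j ∉ O → ∀ l l', ‖ι (lam j)‖ ≤ ε l l' * ‖ι (s j)‖ := by
                intro j hjO l l'
                refine (hsmall hsm j).trans ?_
                have h1 : θ ^ b ≤ ε l l' :=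
                  (pow_le_pow_of_le_one hθ0 hθ1.le (hble l l')).trans (hbf l l').le
                calc θ ^ b ≤ ε l l' * 1 := by rw [mul_one]; exact h1
                  _ ≤ ε l l' * ‖ι (s j)‖ :=
                    mul_le_mul_of_nonneg_left (hs1 j hjO).le (hε0 l l').le
              have h1 := hε i k hiO hkO A B g ζ (Φ (x i)) (Φ (x k)) hA hB hAB hg hζ
                ((hxJ i hiU).trans (hsm' i hiO i k)) ((hxJ k hkU).trans (hsm' k hkO i k)) hrel'
              have h2 := psi_of_tate hψ hψi (hs1 i hiO) (hs1 k hkO) hA hB hg hζ h1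
              refine isogN_of_psi hN0 ?_
              apply Φ.injective
              rw [map_PsiE, hΦZ, map_zero, hΦK, hΦK]
              exact h2
        · -- `k` is large
          by_cases hiO : i ∈ O
          · refine hint hdet hrel ?_ ?_
            · rw [← hxi]
              exact hxOV i hiO hiU
            · rw [← hxk]
              exact hbigW k hk'
          · have h1 := norm_le_of_rel hψ Φ hΦZ hdet hrel (by rw [← hxi]; exact hbigJ i hiO hiU)
            rw [← hxi, ← hxk, hxJn i hiO hiU] at h1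
            have h2 := hxW k hk'
            have h3 : ‖ι (s i)‖ ^ (Z.mat k * (Z.mat i).adjugate).det.toNat ≤ M :=
              (pow_le_pow_right₀ (hs1 i hiO).le (hDle i k)).trans (hMle i)
            exact absurd h2 (not_lt.2 (h1.trans h3))
      · rcases Finset.mem_union.1 hk with hk' | hk'
        · obtain ⟨hkI, hkU⟩ := Finset.mem_sdiff.1 hk'
          by_cases hkO : k ∈ O
          · refine hint hdet' (rel_adj hrel) ?_ ?_
            · rw [← hxk]
              exact hxOV k hkO hkU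
            · rw [← hxi]
              exact hbigW i hi'
          · have h1 := norm_le_of_rel hψ Φ hΦZ hdet' (rel_adj hrel)
              (by rw [← hxk]; exact hbigJ k hkO hkU)
            rw [← hxi, ← hxk, hxJn k hkO hkU, det_adj] at h1
            have h2 := hxW i hi'
            have h3 : ‖ι (s k)‖ ^ (Z.mat k * (Z.mat i).adjugate).det.toNat ≤ M :=
              (pow_le_pow_right₀ (hs1 k hkO).le (hDle i k)).trans (hMle k)
            exact absurd h2 (not_lt.2 (h1.trans h3))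
        · refine not_indep_of_integral hW hi' hk' hik ?_
          rw [hxi, hxk]
          refine isogenous_integral w w' _ _ _ _ ?_ hrel
          rw [← det_eq]
          exact hdet
  have hIU : I.card ≤ (I \ U).card + U.card := by
    have h1 := Finset.card_le_card (show I ⊆ (I \ U) ∪ U by
      intro i hi
      by_cases h : i ∈ U
      · exact Finset.mem_union_right _ h
      · exact Finset.mem_union_left _ (Finset.mem_sdiff.2 ⟨hi, h⟩))
    exact h1.trans (Finset.card_union_le _ _)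
  omega

end Pool.Agent.H882
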