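import Pool.Agent.H882.BadGlob

/-!
The valuation ring of an embedding of `ℂ` into a complete field, and the singular moduli near a point
of an ordinary residue class.
-/

set_option autoImplicit false

namespace Pool.Agent.H882

open UpperHalfPlane H294ZP Function Pool.Agent.N135.ZO
open Pool.Agent.Y226

variable {C : Type} [NormedField C] [IsUltrametricDist C]

/-- the valuation ring of an embedding -/
def VF (Φ : ℂ →+* C) : ValuationSubring ℂ where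
  carrier := {z | ‖Φ z‖ ≤ 1}
  mul_mem' := fun {a b} ha hb => by
    show ‖Φ (a * b)‖ ≤ 1
    rw [map_mul]
    exact nmul_le ha hb
  one_mem' := by
    show ‖Φ 1‖ ≤ 1
    rw [map_one, norm_one]
  add_mem' := fun {a b} ha hb => by
    show ‖Φ (a + b)‖ ≤ 1
    rw [map_add]
    exact nadd_le ha hb
  zero_mem' := by
    show ‖Φ 0‖ ≤ 1
    rw [map_zero, norm_zero]
    exact zero_le_one
  neg_mem' := fun {a} ha => by
    show ‖Φ (-a)‖ ≤ 1
    rw [map_neg, norm_neg]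
    exact ha
  mem_or_inv_mem' := fun z => by
    show ‖Φ z‖ ≤ 1 ∨ ‖Φ z⁻¹‖ ≤ 1
    rw [map_inv₀, norm_inv]
    rcases le_total ‖Φ z‖ 1 with h | h
    · exact Or.inl h
    · exact Or.inr (inv_le_one_of_one_le₀ h)

variable {Φ : ℂ →+* C}

theorem VF_mem {z : ℂ} : z ∈ VF Φ ↔ ‖Φ z‖ ≤ 1 := Iff.rfl

theorem VF_le {a b : ℂ} : (VF Φ).valuation a ≤ (VF Φ).valuation b ↔ ‖Φ a‖ ≤ ‖Φ b‖ := by
  by_cases hb : b = 0
  · rw [hb, map_zero, map_zero, norm_zero]
    constructor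
    · intro h
      have h1 := le_antisymm h zero_le
      rw [(Valuation.zero_iff _).1 h1, map_zero, norm_zero]
    · intro h
      have h1 : ‖Φ a‖ = 0 := le_antisymm h (norm_nonneg _)
      rw [norm_eq_zero] at h1
      rw [(map_eq_zero Φ).1 h1, map_zero]
  · have hb1 : 0 < ‖Φ b‖ := norm_pos_iff.2 ((map_ne_zero Φ).2 hb)
    have hb2 : (VF Φ).valuation b ≠ 0 := (Valuation.ne_zero_iff _).2 hb
    have h1 : (VF Φ).valuation (a / b) ≤ 1 ↔ ‖Φ (a / b)‖ ≤ 1 := by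
      rw [ValuationSubring.valuation_le_one_iff, VF_mem]
    rw [map_div₀, map_div₀, norm_div, div_le_one₀ hb1, div_le_one₀ (zero_lt_iff.2 hb2)] at h1
    exact h1

theorem VF_lt {a b : ℂ} : (VF Φ).valuation a < (VF Φ).valuation b ↔ ‖Φ a‖ < ‖Φ b‖ := by
  rw [← not_le, VF_le, not_le]

theorem VF_lt_one {a : ℂ} : (VF Φ).valuation a < 1 ↔ ‖Φ a‖ < 1 := by
  have h := VF_lt (Φ := Φ) (a := a) (b := 1)
  rwa [map_one, map_one, norm_one] at h

theorem VF_eq {a b : ℂ} : (VF Φ).valuation a = (VF Φ).valuation b ↔ ‖Φ a‖ = ‖Φ b‖ := by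
  rw [le_antisymm_iff, le_antisymm_iff, VF_le, VF_le]

theorem VF_eq_one {a : ℂ} : (VF Φ).valuation a = 1 ↔ ‖Φ a‖ = 1 := by
  have h := VF_eq (Φ := Φ) (a := a) (b := 1)
  rwa [map_one, map_one, norm_one] at h

/-- At most one singular modulus is close to a point of an ordinary residue class. -/
theorem cm_unique {p : ℕ} (hp : p.Prime) (hp2 : p ≠ 2) (hp1 : ‖(p : C)‖ < 1) (P : Pkg p hp.pos)
    {τ₀ τ τ' : ℍ} (hτ : IsCM τ) (hτ' : IsCM τ') (h0 : G0 P (VF Φ) (jj τ₀)) {s : C}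
    (hs : ‖s - Φ (jj τ₀)‖ < 1) (h : ‖Φ (jj τ) - s‖ ^ (p - 1) < ‖(p : C)‖)
    (h' : ‖Φ (jj τ') - s‖ ^ (p - 1) < ‖(p : C)‖) : jj τ = jj τ' := by
  have hq0 : p - 1 ≠ 0 := by
    have := hp.one_lt
    omega
  have lt1 : ∀ {z : C}, ‖z‖ ^ (p - 1) < ‖(p : C)‖ → ‖z‖ < 1 := by
    intro z hz
    by_contra hcon
    push Not at hcon
    exact absurd (hz.trans hp1) (not_lt.2 (one_le_pow₀ hcon))
  have hpV : (VF Φ).valuation (p : ℂ) < 1 := by
    rw [VF_lt_one, map_natCast]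
    exact hp1
  have near : ∀ {t : ℍ}, ‖Φ (jj t) - s‖ ^ (p - 1) < ‖(p : C)‖ →
      (VF Φ).valuation (jj t - jj τ₀) < 1 := by
    intro t ht
    rw [VF_lt_one, map_sub]
    have e : Φ (jj t) - Φ (jj τ₀) = (Φ (jj t) - s) + (s - Φ (jj τ₀)) := by ring
    rw [e]
    exact nadd_lt (lt1 ht) hs
  have hG : G0 P (VF Φ) (jj τ) := h0.congr (near h)
  have hpow : ‖Φ (jj τ' - jj τ)‖ ^ (p - 1) < ‖(p : C)‖ := by
    have e : Φ (jj τ' - jj τ) = (Φ (jj τ') - s) - (Φ (jj τ) - s) := by rw [map_sub]; ring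
    have h1 : ‖Φ (jj τ' - jj τ)‖ ≤ max ‖Φ (jj τ') - s‖ ‖Φ (jj τ) - s‖ := by
      rw [e]
      exact nsub_le (le_max_left _ _) (le_max_right _ _)
    rcases le_total ‖Φ (jj τ') - s‖ ‖Φ (jj τ) - s‖ with h2 | h2
    · rw [max_eq_right h2] at h1
      exact (pow_le_pow_left₀ (norm_nonneg _) h1 _).trans_lt h
    · rw [max_eq_left h2] at h1
      exact (pow_le_pow_left₀ (norm_nonneg _) h1 _).trans_lt h'
  by_contra hne
  have hlt : (VF Φ).valuation (jj τ' - jj τ) < 1 := by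
    rw [VF_lt_one]
    exact lt1 hpow
  obtain ⟨k, hk⟩ := cm_radius hp hp2 hpV P hτ hτ' hG hlt (Ne.symm hne)
  rw [← map_pow, VF_eq, map_pow, map_natCast, norm_pow, pow_mul] at hk
  have hx0 : 0 ≤ ‖Φ (jj τ' - jj τ)‖ ^ (p - 1) := by positivity
  have hx1 : ‖Φ (jj τ' - jj τ)‖ ^ (p - 1) ≤ 1 := (hpow.trans hp1).le
  have h3 : (‖Φ (jj τ' - jj τ)‖ ^ (p - 1)) ^ p ^ k ≤ ‖Φ (jj τ' - jj τ)‖ ^ (p - 1) :=
    pow_le_of_le_one hx0 hx1 (pow_pos hp.pos k).ne'
  rw [hk] at h3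
  exact absurd hpow (not_lt.2 h3)

theorem isogN_finite {N : ℕ} (hN : 0 < N) (y : ℂ) : {z : ℂ | IsogN N z y}.Finite := by
  obtain ⟨ι, _, α, δ, β, g, h1, h2, -, h4, -⟩ := modular_spec N hN
  obtain ⟨τy, hτy⟩ := Pool.Agent.Q223.UV.jj_surj y
  refine (Set.finite_range fun k => jj (g k τy)).subset ?_
  rintro z ⟨M, τ, w, hdet, hrel, rfl, hw⟩
  have hN' : (0 : ℤ) < N := by exact_mod_cast hN
  have h5 := psi_of_rel (A := M.adjugate) (by rw [det_adj, hdet]; exact hN') (rel_adj hrel)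
  have h6 : M.adjugate.det.toNat = N := by rw [det_adj, hdet]; simp
  rw [h6, hw, ← hτy, ← h4] at h5
  obtain ⟨k, -, hk⟩ := Finset.prod_eq_zero_iff.1 h5
  exact ⟨k, (sub_eq_zero.1 hk).symm⟩

section conv

variable {V : ValuationSubring ℂ} {p : ℕ} {hl : p.Prime} {P : Pkg p hl.pos} {N N' : ℕ}

theorem eq_iter (hl2 : p ≠ 2) (hpV : V.valuation (p : ℂ) < 1) (S : Stp hl P V N)
    (S' : Stp hl P V N') (i : ℕ) :
    ∀ (s : {τ : ℍ // Good hl.pos P V N τ}) (s' : {τ : ℍ // Good hl.pos P V N' τ}),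
    xx s' = xx s → xx (S'.nx^[i] s') = xx (S.nx^[i] s) := by
  induction i with
  | zero => intro s s' h; exact h
  | succ i ih =>
    intro s s' h
    rw [iterate_succ_apply, iterate_succ_apply]
    refine ih _ _ ?_
    have h0 : Cl p (xx s' - xx s) := by
      rw [h, sub_self]
      refine ⟨0, not_isUnit_zero, ?_⟩
      rw [zero_pow (by have := hl.one_lt; omega), mul_zero]
    obtain ⟨b, hb⟩ := phi_p hl hl2 P hpV (xx_h s) (xx_h s') (S.phi s) (S'.phi s') h0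
    rw [h, sub_self, mul_zero, zero_mul] at hb
    exact sub_eq_zero.1 hb

/-- close CM points have the same image under a power of the canonical isogeny -/
theorem conv (hl2 : p ≠ 2) (hpV : V.valuation (p : ℂ) < 1) (S : Stp hl P V N)
    (S' : Stp hl P V N') (hN : 0 < N) (hns : ∀ s : ℕ, s ^ 2 ≠ N) (hN' : 0 < N')
    (hns' : ∀ s : ℕ, s ^ 2 ≠ N') (i : ℕ) :
    ∀ (s : {τ : ℍ // Good hl.pos P V N τ}) (s' : {τ : ℍ // Good hl.pos P V N' τ}),
    V.valuation ((xx s' - xx s : V) : ℂ) < 1 →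
    V.valuation ((xx s' - xx s : V) : ℂ) ^ ((p - 1) * p ^ i) < V.valuation (p : ℂ) →
    xx (S'.nx^[i] s') = xx (S.nx^[i] s) := by
  have hp0 : (p : ℂ) ≠ 0 := by exact_mod_cast hl.ne_zero
  have hpne : V.valuation (p : ℂ) ≠ 0 := by rwa [Valuation.ne_zero_iff]
  have hppos : 0 < V.valuation (p : ℂ) := zero_lt_iff.2 hpne
  have hp3 : 1 < p - 1 := by
    have := hl.two_le
    omega
  induction i with
  | zero =>
    intro s s' _ h
    rw [pow_zero, mul_one] at h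
    exact fact_b hl2 hpV S S' hN hns hN' hns' s s' (cl_of_val hp0 h)
  | succ i ih =>
    intro s s' hlt h
    rcases lt_trichotomy (V.valuation ((xx s' - xx s : V) : ℂ) ^ (p - 1)) (V.valuation (p : ℂ)) with
      h1 | h1 | h1
    · exact eq_iter hl2 hpV S S' (i + 1) s s'
        (fact_b hl2 hpV S S' hN hns hN' hns' s s' (cl_of_val hp0 h1))
    · rw [iterate_succ_apply, iterate_succ_apply]
      refine eq_iter hl2 hpV S S' i _ _ ?_
      refine fact_b hl2 hpV S S' hN hns hN' hns' _ _ (cl_of_val hp0 ?_)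
      obtain ⟨a, b, hab⟩ := phi_sq hl hl2 P hpV (xx_h s) (xx_h s') (S.phi s) (S'.phi s')
      rw [hab]
      have hle : V.valuation (((xx s' - xx s) ^ 2 * a + p * b : V) : ℂ) ≤
          max (V.valuation ((xx s' - xx s : V) : ℂ) ^ 2) (V.valuation (p : ℂ)) := by
        push_cast
        refine (Valuation.map_add _ _ _).trans (max_le_max ?_ ?_)
        · rw [map_mul, map_pow]
          calc _ ≤ V.valuation ((xx s' : ℂ) - xx s) ^ 2 * 1 :=
                mul_le_mul' le_rfl (val_le a.2)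
            _ = _ := mul_one _
        · rw [map_mul]
          calc _ ≤ V.valuation (p : ℂ) * 1 := mul_le_mul' le_rfl (val_le b.2)
            _ = _ := mul_one _
      rcases le_max_iff.1 hle with h2 | h2
      · calc _ ≤ (V.valuation ((xx s' - xx s : V) : ℂ) ^ 2) ^ (p - 1) :=
              pow_le_pow_left₀ zero_le h2 _
          _ = V.valuation (p : ℂ) ^ 2 := by rw [← pow_mul, mul_comm, pow_mul, h1]
          _ < V.valuation (p : ℂ) ^ 1 := pow_lt_pow_right_of_lt_one₀ hppos hpV (by norm_num)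
          _ = _ := pow_one _
      · calc _ ≤ V.valuation (p : ℂ) ^ (p - 1) := pow_le_pow_left₀ zero_le h2 _
          _ < V.valuation (p : ℂ) ^ 1 := pow_lt_pow_right_of_lt_one₀ hppos hpV hp3
          _ = _ := pow_one _
    · have h2 := phi_far hl hl2 P hpV (xx_h s) (xx_h s') (S.phi s) (S'.phi s') h1
      rw [iterate_succ_apply, iterate_succ_apply]
      refine ih _ _ ?_ ?_
      · rw [h2]
        exact pow_lt_one₀ zero_le hlt hl.ne_zero
      · rw [h2, ← pow_mul]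
        have e : p * ((p - 1) * p ^ i) = (p - 1) * p ^ (i + 1) := by ring
        rw [e]
        exact h

theorem stp_isogN (S : Stp hl P V N) (s : {τ : ℍ // Good hl.pos P V N τ}) (i : ℕ) :
    ∃ M : M2, M.det = (p : ℤ) ^ i ∧ Rel M s.1 (S.nx^[i] s).1 := by
  induction i with
  | zero => exact ⟨1, by simp, rel_one _⟩
  | succ i ih =>
    obtain ⟨M, hM, hrel⟩ := ih
    obtain ⟨k, -, hs⟩ := S.spec (S.nx^[i] s)
    refine ⟨gk p k * M, ?_, ?_⟩
    · rw [det_mul', det_gk, hM, pow_succ']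
    · rw [iterate_succ_apply']
      refine hrel.mul ?_
      rw [hs]
      exact rel_hh hl.pos k _

end conv

/-- The singular moduli in a closed disc of radius less than one in an ordinary residue class are
finite in number. -/
theorem cm_finite {p : ℕ} (hp : p.Prime) (hp2 : p ≠ 2) (hp1 : ‖(p : C)‖ < 1)
    (hp0 : 0 < ‖(p : C)‖) (P : Pkg p hp.pos)
    {τ₀ : ℍ} (h0 : G0 P (VF Φ) (jj τ₀)) {s : C} (hs : ‖s - Φ (jj τ₀)‖ < 1) {θ : ℝ} (hθ : θ < 1) :
    {z : ℂ | (∃ τ : ℍ, IsCM τ ∧ jj τ = z) ∧ ‖Φ z - s‖ ≤ θ}.Finite := by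
  have hpV : (VF Φ).valuation (p : ℂ) < 1 := by
    rw [VF_lt_one, map_natCast]
    exact hp1
  have near : ∀ {t : ℍ}, ‖Φ (jj t) - s‖ ≤ θ → (VF Φ).valuation (jj t - jj τ₀) < 1 := by
    intro t ht
    rw [VF_lt_one, map_sub]
    have e : Φ (jj t) - Φ (jj τ₀) = (Φ (jj t) - s) + (s - Φ (jj τ₀)) := by ring
    rw [e]
    exact nadd_lt (ht.trans_lt hθ) hs
  by_cases hex : ∃ τ₁ : ℍ, IsCM τ₁ ∧ ‖Φ (jj τ₁) - s‖ ≤ θ
  · obtain ⟨τ₁, hcm₁, hτ₁⟩ := hex
    have hθ0 : 0 ≤ θ := (norm_nonneg _).trans hτ₁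
    have hG₁ : G0 P (VF Φ) (jj τ₁) := h0.congr (near hτ₁)
    obtain ⟨N, hN, hns, hNV, hg⟩ := exists_good hpV hcm₁ hG₁
    obtain ⟨S⟩ := exists_stp hp hp2 hpV P hN hNV
    obtain ⟨i, hi⟩ := exists_pow_lt_of_lt_one hp0 hθ
    have hpi : p ^ i ≠ 0 := (pow_pos hp.pos i).ne'
    have hip : i ≤ (p - 1) * p ^ i := by
      have h1 : i < p ^ i := Nat.lt_pow_self hp.one_lt
      have h2 : 0 < p - 1 := by
        have := hp.two_le
        omega
      nlinarith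
    refine (isogN_finite (pow_pos hp.pos i) (xx (S.nx^[i] ⟨τ₁, hg⟩) : ℂ)).subset ?_
    rintro z ⟨⟨τ', hcm', rfl⟩, hz⟩
    have hG' : G0 P (VF Φ) (jj τ') := h0.congr (near hz)
    obtain ⟨N', hN', hns', hNV', hg'⟩ := exists_good hpV hcm' hG'
    obtain ⟨S'⟩ := exists_stp hp hp2 hpV P hN' hNV'
    have hdist : ‖Φ (jj τ' - jj τ₁)‖ ≤ θ := by
      have e : Φ (jj τ' - jj τ₁) = (Φ (jj τ') - s) - (Φ (jj τ₁) - s) := by rw [map_sub]; ring
      rw [e]
      exact nsub_le hz hτ₁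
    have e1 : ((xx (⟨τ', hg'⟩ : {τ : ℍ // Good hp.pos P (VF Φ) N' τ}) -
        xx (⟨τ₁, hg⟩ : {τ : ℍ // Good hp.pos P (VF Φ) N τ}) : VF Φ) : ℂ) = jj τ' - jj τ₁ := by
      push_cast
      rfl
    have h1 := conv hp2 hpV S S' hN hns hN' hns' i ⟨τ₁, hg⟩ ⟨τ', hg'⟩ (by
        rw [e1, VF_lt_one]
        exact hdist.trans_lt hθ) (by
        rw [e1, ← map_pow, VF_lt, map_pow, norm_pow, map_natCast]
        calc _ ≤ θ ^ ((p - 1) * p ^ i) := pow_le_pow_left₀ (norm_nonneg _) hdist _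
          _ ≤ θ ^ i := pow_le_pow_of_le_one hθ0 hθ.le hip
          _ < _ := hi)
    obtain ⟨M, hM, hrel⟩ := stp_isogN S' ⟨τ', hg'⟩ i
    refine ⟨M, τ', _, ?_, hrel, rfl, ?_⟩
    · rw [hM]
      push_cast
      rfl
    · rw [← h1]
      rfl
  · refine Set.Finite.subset Set.finite_empty ?_
    rintro z ⟨⟨τ', hcm', rfl⟩, hz⟩
    exact absurd ⟨τ', hcm', hz⟩ hex

end Pool.Agent.H882
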