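import Pool.Agent.H882.CoreAll

/-!
Embeddings for which finitely many elements of a field `F` are units, with given approximations at
elements which are algebraically independent over `F`.
-/

set_option autoImplicit false

namespace Pool.Agent.H882

open Pool.Agent.Y226

/-- elements of `F` and elements which are independent over `F` -/
theorem indep_sum (F : Subfield ℂ) (U : Finset ℂ) (hUF : ∀ u ∈ U, u ∈ F)
    (hU : AlgebraicIndependent QA (fun u : U => (u : ℂ))) {ι : Type} (y : ι → ℂ)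
    (hy : AlgebraicIndependent F y) :
    AlgebraicIndependent QA (Sum.elim y (fun u : U => (u : ℂ))) := by
  have h1 : AlgebraicIndependent (algebraicClosure F ℂ) y := hy.extendScalars _
  have h2 : ∀ w : Algebra.adjoin QA (Set.range fun u : U => (u : ℂ)),
      (w : ℂ) ∈ algebraicClosure F ℂ := by
    intro w
    have h3 : Algebra.adjoin QA (Set.range fun u : U => (u : ℂ)) ≤
        ({ carrier := {z | z ∈ algebraicClosure F ℂ}
           mul_mem' := fun ha hb => (algebraicClosure F ℂ).mul_mem ha hb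
           add_mem' := fun ha hb => (algebraicClosure F ℂ).add_mem ha hb
           algebraMap_mem' := fun a => by
             show (algebraMap QA ℂ a) ∈ algebraicClosure F ℂ
             rw [mem_algebraicClosure_iff]
             have h4 : IsAlgebraic ℚ (algebraMap QA ℂ a) :=
               (Algebra.IsAlgebraic.isAlgebraic a : IsAlgebraic ℚ a).algebraMap
             exact h4.tower_top F } : Subalgebra QA ℂ) := by
      refine Algebra.adjoin_le ?_
      rintro _ ⟨u, rfl⟩
      show (u : ℂ) ∈ algebraicClosure F ℂ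
      exact (algebraicClosure F ℂ).algebraMap_mem ⟨(u : ℂ), hUF u u.2⟩
    exact h3 w.2
  let j : Algebra.adjoin QA (Set.range fun u : U => (u : ℂ)) →+* algebraicClosure F ℂ :=
    { toFun := fun w => ⟨(w : ℂ), h2 w⟩
      map_one' := rfl
      map_mul' := fun _ _ => rfl
      map_zero' := rfl
      map_add' := fun _ _ => rfl }
  have h5 : AlgebraicIndependent (Algebra.adjoin QA (Set.range fun u : U => (u : ℂ))) y := by
    let _ : Algebra (Algebra.adjoin QA (Set.range fun u : U => (u : ℂ))) (algebraicClosure F ℂ) :=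
      j.toAlgebra
    have _ : IsScalarTower (Algebra.adjoin QA (Set.range fun u : U => (u : ℂ)))
      (algebraicClosure F ℂ) ℂ := IsScalarTower.of_algebraMap_eq fun _ => rfl
    refine h1.restrictScalars ?_
    intro a b hab
    apply Subtype.ext
    exact congrArg (fun z : algebraicClosure F ℂ => (z : ℂ)) hab
  exact hU.sumElim h5

theorem good_embed_W (F : Subfield ℂ) (S : Finset ℂ) (hS : ∀ b ∈ S, b ≠ 0) (hSF : ∀ b ∈ S, b ∈ F) :
    ∃ B : ℕ, ∀ p : ℕ, p.Prime → B < p →
    ∀ (C : Type) [NormedField C] [IsUltrametricDist C] [CompleteSpace C] [IsAlgClosed C]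
      (φ₀ : QA →+* C), ‖(p : C)‖ = (p : ℝ)⁻¹ → ∀ {ι : Type} [Finite ι] (y : ι → ℂ),
      AlgebraicIndependent F y → ∀ (a : ι → QA) (ρ : ι → ℝ), (∀ i, 0 < ρ i) →
      ∃ Φ : ℂ →+* C, (∀ a : QA, Φ (a : ℂ) = φ₀ a) ∧ (∀ b ∈ S, ‖Φ b‖ = 1) ∧
        ∀ i, ‖Φ (y i) - φ₀ (a i)‖ < ρ i := by
  classical
  obtain ⟨U, a, T, hUS, hU, -, hmain⟩ := good_embed S hS
  choose B hB using fun w : QA => PI_alg (w : QA) (Algebra.IsAlgebraic.isAlgebraic w)
  refine ⟨∑ w ∈ T, B w, fun p hp hlt C _ _ _ _ φ₀ hpC ι _ y hy a' ρ hρ => ?_⟩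
  have hp1 : ‖(p : C)‖ < 1 := by
    rw [hpC]
    exact inv_lt_one_of_one_lt₀ (by exact_mod_cast hp.one_lt)
  have hp0 : 0 < ‖(p : C)‖ := by
    rw [hpC]
    exact inv_pos.2 (by exact_mod_cast hp.pos)
  have hpQ : 1 < ‖φ₀ ((p : QA)⁻¹)‖ := by
    rw [map_inv₀, map_natCast, norm_inv]
    exact (one_lt_inv₀ hp0).2 hp1
  have hT : ∀ w ∈ T, ‖φ₀ w‖ ≤ 1 := by
    intro w hw
    have h1 : B w ≤ ∑ w ∈ T, B w := Finset.single_le_sum (f := B) (fun _ _ => Nat.zero_le _) hw
    exact norm_of_PI hp hp1 φ₀ (hB w p hp (by omega))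
  obtain ⟨Φ, hΦ, hΦu⟩ := exists_near φ₀ ((p : QA)⁻¹) hpQ (Sum.elim y (fun u : U => (u : ℂ)))
    (indep_sum F U (fun u hu => hSF u (hUS hu)) hU y hy) (Sum.elim a' a) (Sum.elim ρ (fun _ => 1))
    (by
      rintro (i | u)
      · exact hρ i
      · exact one_pos)
  exact ⟨Φ, hΦ, hmain C φ₀ hT Φ hΦ fun u => hΦu (Sum.inr u), fun i => hΦu (Sum.inl i)⟩

end Pool.Agent.H882
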