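import Mathlib

/-!
Generic matrices of exponents.
-/

set_option autoImplicit false

namespace Pool.Agent.H882

/-- For each group `L` of characters there is a row `A l` such that for all sets `B` of fewer than
`rank L` coordinates a character in `L` is zero on `B` and not orthogonal to `A l`. -/
def Gen {M k : ℕ} (A : Fin M → Fin k → ℤ) : Prop :=
  ∀ L : AddSubgroup (Fin k → ℤ), ∃ l, ∀ B : Finset (Fin k), B.card < Module.finrank ℤ L →
    ∃ χ ∈ L, (∀ j ∈ B, χ j = 0) ∧ ∑ j, χ j * A l j ≠ 0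

theorem exists_char {k : ℕ} (L : AddSubgroup (Fin k → ℤ)) (B : Finset (Fin k))
    (hB : B.card < Module.finrank ℤ L) : ∃ χ ∈ L, χ ≠ 0 ∧ ∀ j ∈ B, χ j = 0 := by
  classical
  by_contra hcon
  push Not at hcon
  let f : L →+ (B → ℤ) :=
    { toFun := fun χ j => (χ : Fin k → ℤ) j
      map_zero' := rfl
      map_add' := fun _ _ => rfl }
  have hf : Function.Injective f.toIntLinearMap := by
    rw [← LinearMap.ker_eq_bot, LinearMap.ker_eq_bot']
    intro χ hχ
    by_contra hne
    obtain ⟨j, hj, hj0⟩ := hcon χ χ.2 (fun h => hne (Subtype.ext h))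
    exact hj0 (congrFun hχ ⟨j, hj⟩)
  have h1 := LinearMap.finrank_le_finrank_of_injective hf
  rw [Module.finrank_pi, Fintype.card_coe] at h1
  omega

theorem gen_of_det {M k : ℕ} (A : Fin M → Fin k → ℤ) (hM : (k - 1) * 2 ^ k < M)
    (hA : ∀ f : Fin k → Fin M, Function.Injective f → (Matrix.of fun i j => A (f i) j).det ≠ 0) :
    Gen A := by
  classical
  intro L
  by_contra hcon
  push Not at hcon
  choose B hB1 hB2 using hcon
  obtain ⟨B₀, hB₀⟩ := Fintype.exists_lt_card_fiber_of_mul_lt_card (f := B) (n := k - 1)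
    (by rw [Fintype.card_finset, Fintype.card_fin, Fintype.card_fin, mul_comm]; exact hM)
  obtain ⟨T, hT, hTc⟩ := Finset.exists_subset_card_eq (s := Finset.univ.filter fun l => B l = B₀)
    (n := k) (by omega)
  let f : Fin k → Fin M := T.orderEmbOfFin hTc
  have hf : Function.Injective f := (T.orderEmbOfFin hTc).injective
  have hfT : ∀ i, B (f i) = B₀ := fun i =>
    (Finset.mem_filter.1 (hT (T.orderEmbOfFin_mem hTc i))).2
  obtain ⟨l₀, hl₀⟩ : ∃ l, B l = B₀ := by
    have : 0 < (Finset.univ.filter fun l => B l = B₀).card := by omega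
    obtain ⟨l, hl⟩ := Finset.card_pos.1 this
    exact ⟨l, (Finset.mem_filter.1 hl).2⟩
  obtain ⟨χ, hχ, hχ0, hχB⟩ := exists_char L B₀ (by rw [← hl₀]; exact hB1 l₀)
  apply hχ0
  refine Matrix.eq_zero_of_mulVec_eq_zero (hA f hf) ?_
  funext i
  have h1 := hB2 (f i) χ hχ (by rw [hfT i]; exact hχB)
  rw [Matrix.mulVec, dotProduct]
  show ∑ j, A (f i) j * χ j = 0
  rw [← h1]
  exact Finset.sum_congr rfl fun j _ => mul_comm _ _

end Pool.Agent.H882
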