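import Pool.Agent.H882.MxLoc
import Pool.Agent.H882.MxGen
import Pool.Agent.H882.MxCount

/-!
The exceptional classes in the mixed case, and the global inequality.
-/

set_option autoImplicit false

namespace Pool.Agent.H882

open UpperHalfPlane H294ZP Function Pool.Agent.Y226

/-- the exceptional classes for the mixed case -/
def EM (n k p : ℕ) (E : Set (Fin n → ZMod p)) : Set (Fin (n + k) → ZMod p) :=
  {a | (fun i : Fin n => a (Fin.castAdd k i)) ∈ E ∨ ∃ j : Fin k, a (Fin.natAdd n j) = 0}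

theorem card_EM {n k p : ℕ} [NeZero p] (E : Set (Fin n → ZMod p)) :
    (EM n k p E).ncard ≤ E.ncard * p ^ k + k * p ^ (n + k - 1) := by
  classical
  have hsub : EM n k p E ⊆ {a : Fin (n + k) → ZMod p | (fun i : Fin n => a (Fin.castAdd k i)) ∈ E} ∪
      ((((Finset.univ : Finset (Fin k)).biUnion fun j =>
        Finset.univ.filter fun a : Fin (n + k) → ZMod p => a (Fin.natAdd n j) ∈
          (fun _ => ({0} : Finset (ZMod p))) a) : Finset (Fin (n + k) → ZMod p)) : Set _) := by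
    rintro a (h | ⟨j, hj⟩)
    · exact Or.inl h
    · refine Or.inr ?_
      rw [Finset.mem_coe, Finset.mem_biUnion]
      exact ⟨j, Finset.mem_univ j, Finset.mem_filter.2 ⟨Finset.mem_univ a,
        Finset.mem_singleton.2 hj⟩⟩
  refine (Set.ncard_le_ncard hsub (Set.toFinite _)).trans ((Set.ncard_union_le _ _).trans
    (Nat.add_le_add ?_ ?_))
  · have h1 : {a : Fin (n + k) → ZMod p | (fun i : Fin n => a (Fin.castAdd k i)) ∈ E}.ncard ≤
        (E ×ˢ (Set.univ : Set (Fin k → ZMod p))).ncard := by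
      refine Set.ncard_le_ncard_of_injOn (fun a => ((fun i => a (Fin.castAdd k i)),
        fun j => a (Fin.natAdd n j))) ?_ ?_ (Set.toFinite _)
      · intro a ha
        exact ⟨ha, Set.mem_univ _⟩
      · intro a _ b _ hab
        rw [Prod.mk.injEq] at hab
        funext i
        refine Fin.addCases (fun i => ?_) (fun j => ?_) i
        · exact congrFun hab.1 i
        · exact congrFun hab.2 j
    refine h1.trans (le_of_eq ?_)
    rw [Set.ncard_prod, Set.ncard_univ, Nat.card_eq_fintype_card, Fintype.card_fun, ZMod.card,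
      Fintype.card_fin]
  · rw [Set.ncard_coe_finset]
    refine Finset.card_biUnion_le.trans ?_
    calc _ ≤ ∑ j : Fin k, 1 * p ^ (n + k - 1) := Finset.sum_le_sum fun j _ =>
          count_coord (Fin.natAdd n j) (fun _ => ({0} : Finset (ZMod p))) (fun _ _ => rfl) 1
            fun _ => (Finset.card_singleton _).le
      _ = _ := by
        rw [Finset.sum_const, Finset.card_univ, Fintype.card_fin, smul_eq_mul, one_mul]

theorem small_EM {n k : ℕ} (E : ∀ p : ℕ, Set (Fin n → ZMod p))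
    (hE : ∀ η : ℝ, 0 < η → ∃ B : ℕ, ∀ p, p.Prime → B < p → ((E p).ncard : ℝ) ≤ η * (p : ℝ) ^ n)
    (η : ℝ) (hη : 0 < η) :
    ∃ B : ℕ, ∀ p, p.Prime → B < p → ((EM n k p (E p)).ncard : ℝ) ≤ η * (p : ℝ) ^ (n + k) := by
  obtain ⟨B₁, hB₁⟩ := hE (η / 2) (by positivity)
  obtain ⟨B₂, hB₂⟩ := exists_nat_ge ((k : ℝ) / (η / 2))
  refine ⟨B₁ + B₂, fun p hp hlt => ?_⟩
  have : NeZero p := ⟨hp.ne_zero⟩
  have hp0 : (0 : ℝ) < p := by exact_mod_cast hp.pos
  have h1 := hB₁ p hp (by omega)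
  have h2 : (k : ℝ) ≤ η / 2 * p := by
    rw [div_le_iff₀ (by positivity)] at hB₂
    have h3 : (B₂ : ℝ) ≤ p := by
      have : B₂ ≤ p := by omega
      exact_mod_cast this
    nlinarith
  have h3 : ((EM n k p (E p)).ncard : ℝ) ≤ (E p).ncard * (p : ℝ) ^ k +
      k * (p : ℝ) ^ (n + k - 1) := by
    exact_mod_cast card_EM (k := k) (E p)
  have h4 : ((E p).ncard : ℝ) * (p : ℝ) ^ k ≤ η / 2 * (p : ℝ) ^ (n + k) := by
    calc ((E p).ncard : ℝ) * (p : ℝ) ^ k ≤ (η / 2 * (p : ℝ) ^ n) * (p : ℝ) ^ k :=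
          mul_le_mul_of_nonneg_right h1 (by positivity)
      _ = _ := by
          rw [pow_add]
          ring
  have h5 : (k : ℝ) * (p : ℝ) ^ (n + k - 1) ≤ η / 2 * (p : ℝ) ^ (n + k) := by
    rcases Nat.eq_zero_or_pos k with rfl | hk
    · rw [Nat.cast_zero, zero_mul]
      positivity
    · have e : (p : ℝ) ^ (n + k) = p * (p : ℝ) ^ (n + k - 1) := by
        rw [← pow_succ']
        congr 1
        omega
      rw [e, ← mul_assoc]
      exact mul_le_mul_of_nonneg_right h2 (by positivity)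
  linarith

/-- The inequality for generic matrices. -/
theorem gen_ineq {M k n m r w : ℕ} {A : Fin M → Fin k → ℤ} (hA : Gen A)
    (L : AddSubgroup (Fin k → ℤ)) (V : Finset (Fin k))
    (h : ∀ l : Fin M, ∃ B : Finset (Fin k), V ⊆ B ∧ n + w + B.card ≤ m + r ∧
      ∀ χ ∈ L, (∀ j ∈ B, j ∉ V → χ j = 0) → ∑ j, χ j * A l j = 0) :
    n + w + V.card + Module.finrank ℤ L ≤ m + r := by
  classical
  obtain ⟨l, hl⟩ := hA L
  obtain ⟨B, hVB, hcard, hB⟩ := h l
  have h1 : Module.finrank ℤ L ≤ (B \ V).card := by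
    by_contra hcon
    push Not at hcon
    obtain ⟨χ, hχ, hχ0, hχ1⟩ := hl (B \ V) hcon
    exact hχ1 (hB χ hχ fun j hj hjV => hχ0 j (Finset.mem_sdiff.2 ⟨hj, hjV⟩))
  rw [Finset.card_sdiff_of_subset hVB] at h1
  have h2 := Finset.card_le_card hVB
  omega

end Pool.Agent.H882
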