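import Pool.Agent.H882.NfNear

/-!
Counting residue classes: rational functions over the integers of a number field, and coordinates with
respect to an integral basis.
-/

set_option autoImplicit false

namespace Pool.Agent.H882

open Polynomial NumberField

/-- the rational function at a residue -/
noncomputable def rk {R : Type} [CommRing R] {p : ℕ} (ρ : R →+* ZMod p) (a b : R[X])
    (x : ZMod p) : ZMod p :=
  (a.map ρ).eval x * ((b.map ρ).eval x)⁻¹

/-- linear independence of numerator and denominator -/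
def NonK {R : Type} [CommRing R] (a b : R[X]) : Prop :=
  ∀ c d : R, Polynomial.C c * a = Polynomial.C d * b → c = 0 ∧ d = 0

theorem rk_fib {K : Type} [Field K] [NumberField K] {a b : (𝓞 K)[X]} (hab : NonK a b) :
    ∃ B : ℕ, ∀ p : ℕ, p.Prime → B < p → ∀ ρ : 𝓞 K →+* ZMod p,
    (∀ β : ZMod p, {x | rk ρ a b x = β}.ncard ≤ 2 * (max a.natDegree b.natDegree)) ∧
      {x : ZMod p | (b.map ρ).eval x = 0}.ncard ≤ 2 * (max a.natDegree b.natDegree) := by
  classical
  -- a minor
  obtain ⟨k, l, hμ⟩ : ∃ k l, a.coeff k * b.coeff l - a.coeff l * b.coeff k ≠ 0 := by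
    by_contra hcon
    push Not at hcon
    have hb0 : b ≠ 0 := by
      rintro rfl
      have := hab 0 1 (by simp)
      exact one_ne_zero this.2
    obtain ⟨l, hl⟩ : ∃ l, b.coeff l ≠ 0 := by
      by_contra h
      push Not at h
      exact hb0 (Polynomial.ext fun i => by rw [h i, Polynomial.coeff_zero])
    refine hl (hab (b.coeff l) (a.coeff l) ?_).1
    ext k : 1
    rw [Polynomial.coeff_C_mul, Polynomial.coeff_C_mul]
    have := hcon k l
    linear_combination this
  obtain ⟨r, hr0, hr⟩ := (Algebra.IsAlgebraic.isAlgebraic (R := ℤ)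
    (a.coeff k * b.coeff l - a.coeff l * b.coeff k)).exists_nonzero_dvd
      (mem_nonZeroDivisors_of_ne_zero hμ)
  refine ⟨r.natAbs, fun p hp hlt ρ => ?_⟩
  have : Fact p.Prime := ⟨hp⟩
  have hμp : ρ (a.coeff k * b.coeff l - a.coeff l * b.coeff k) ≠ 0 := by
    intro h
    obtain ⟨ν, hν⟩ := hr
    have h1 : ((r : ℤ) : ZMod p) = 0 := by
      have h2 := congrArg ρ hν
      rw [map_mul, h, zero_mul] at h2
      rw [← h2]
      simp
    rw [ZMod.intCast_zmod_eq_zero_iff_dvd] at h1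
    have h2 := Int.natAbs_dvd_natAbs.2 h1
    rw [Int.natAbs_natCast] at h2
    have h3 := Nat.le_of_dvd (Int.natAbs_pos.2 hr0) h2
    omega
  rw [map_sub, map_mul, map_mul] at hμp
  have hbne : b.map ρ ≠ 0 := by
    intro h
    apply hμp
    have h1 : ρ (b.coeff l) = 0 := by
      have := congrArg (fun g : (ZMod p)[X] => g.coeff l) h
      simpa using this
    have h2 : ρ (b.coeff k) = 0 := by
      have := congrArg (fun g : (ZMod p)[X] => g.coeff k) h
      simpa using this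
    rw [h1, h2]
    ring
  have hroots : ∀ g : (ZMod p)[X], g ≠ 0 → g.natDegree ≤ max a.natDegree b.natDegree →
      {x | g.eval x = 0}.ncard ≤ max a.natDegree b.natDegree := by
    intro g hg hdeg
    have h1 : {x | g.eval x = 0} = (g.roots.toFinset : Set (ZMod p)) := by
      ext x
      simp [Polynomial.mem_roots hg, Polynomial.IsRoot]
    rw [h1, Set.ncard_coe_finset]
    exact (Multiset.toFinset_card_le _).trans ((Polynomial.card_roots' g).trans hdeg)
  have hb2 := hroots _ hbne ((Polynomial.natDegree_map_le).trans (le_max_right _ _))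
  refine ⟨fun β => ?_, by omega⟩
  have hg : a.map ρ - Polynomial.C β * b.map ρ ≠ 0 := by
    intro h
    apply hμp
    have h1 : ρ (a.coeff k) = β * ρ (b.coeff k) := by
      have := congrArg (fun g : (ZMod p)[X] => g.coeff k) h
      simp only [Polynomial.coeff_sub, Polynomial.coeff_map, Polynomial.coeff_C_mul,
        Polynomial.coeff_zero] at this
      exact sub_eq_zero.1 this
    have h2 : ρ (a.coeff l) = β * ρ (b.coeff l) := by
      have := congrArg (fun g : (ZMod p)[X] => g.coeff l) h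
      simp only [Polynomial.coeff_sub, Polynomial.coeff_map, Polynomial.coeff_C_mul,
        Polynomial.coeff_zero] at this
      exact sub_eq_zero.1 this
    rw [h1, h2]
    ring
  have hg2 : (a.map ρ - Polynomial.C β * b.map ρ).natDegree ≤ max a.natDegree b.natDegree := by
    refine (Polynomial.natDegree_sub_le _ _).trans (max_le_max Polynomial.natDegree_map_le ?_)
    exact (Polynomial.natDegree_C_mul_le _ _).trans Polynomial.natDegree_map_le
  have hsub : {x | rk ρ a b x = β} ⊆ {x : ZMod p | (b.map ρ).eval x = 0} ∪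
      {x | (a.map ρ - Polynomial.C β * b.map ρ).eval x = 0} := by
    intro x hx
    by_cases h0 : (b.map ρ).eval x = 0
    · exact Or.inl h0
    · right
      show Polynomial.eval x _ = 0
      have h1 : (a.map ρ).eval x * ((b.map ρ).eval x)⁻¹ = β := hx
      rw [Polynomial.eval_sub, Polynomial.eval_mul, Polynomial.eval_C, ← h1, mul_assoc,
        inv_mul_cancel₀ h0, mul_one, sub_self]
  refine (Set.ncard_le_ncard hsub (Set.toFinite _)).trans ((Set.ncard_union_le _ _).trans ?_)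
  have h3 := hroots _ hg hg2
  omega

/-- the element with given coordinates -/
def LL {n d p : ℕ} (w : Fin d → ZMod p) (u : Fin (n * d) → ZMod p) (i : Fin n) : ZMod p :=
  ∑ k, u (finProdFinEquiv (i, k)) * w k

theorem card_LL {n d p : ℕ} (hp : p.Prime) (w : Fin d → ZMod p) {k₀ : Fin d} (hw : w k₀ ≠ 0)
    (S : Set (Fin n → ZMod p)) :
    {u : Fin (n * d) → ZMod p | LL w u ∈ S}.ncard ≤ S.ncard * p ^ (n * (d - 1)) := by
  classical
  have : Fact p.Prime := ⟨hp⟩
  have hcu : (Set.univ : Set (Fin n × {k : Fin d // k ≠ k₀} → ZMod p)).ncard =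
      p ^ (n * (d - 1)) := by
    rw [Set.ncard_univ, Nat.card_eq_fintype_card, Fintype.card_fun, ZMod.card, Fintype.card_prod,
      Fintype.card_fin, Fintype.card_subtype_compl, Fintype.card_fin, Fintype.card_subtype_eq]
  have h1 : {u : Fin (n * d) → ZMod p | LL w u ∈ S}.ncard ≤
      (S ×ˢ (Set.univ : Set (Fin n × {k : Fin d // k ≠ k₀} → ZMod p))).ncard := by
    refine Set.ncard_le_ncard_of_injOn (fun u => (LL w u,
      fun x : Fin n × {k : Fin d // k ≠ k₀} => u (finProdFinEquiv (x.1, x.2.1)))) ?_ ?_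
      (Set.toFinite _)
    · intro u hu
      exact ⟨hu, Set.mem_univ _⟩
    · intro u _ v _ huv
      rw [Prod.mk.injEq] at huv
      have hoff : ∀ i k, k ≠ k₀ → u (finProdFinEquiv (i, k)) = v (finProdFinEquiv (i, k)) :=
        fun i k hk => congrFun huv.2 (i, ⟨k, hk⟩)
      have hat : ∀ i, u (finProdFinEquiv (i, k₀)) = v (finProdFinEquiv (i, k₀)) := by
        intro i
        have h2 : LL w u i = LL w v i := congrFun huv.1 i
        unfold LL at h2
        rw [← Finset.add_sum_erase _ _ (Finset.mem_univ k₀),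
          ← Finset.add_sum_erase _ _ (Finset.mem_univ k₀),
          Finset.sum_congr rfl (fun k hk => by rw [hoff i k (Finset.ne_of_mem_erase hk)])] at h2
        exact mul_right_cancel₀ hw (add_right_cancel h2)
      funext j
      obtain ⟨⟨i, k⟩, rfl⟩ := finProdFinEquiv.surjective j
      by_cases hk : k = k₀
      · rw [hk]
        exact hat i
      · exact hoff i k hk
  rwa [Set.ncard_prod, hcu] at h1

/-- the exceptional vectors -/
def EQ {n p : ℕ} (r : Fin n → ZMod p → ZMod p) (T : Fin n → Set (ZMod p))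
    (E : Set (Fin n → ZMod p)) : Set (Fin n → ZMod p) :=
  {x | (fun i => r i (x i)) ∈ E ∨ ∃ i, x i ∈ T i}

theorem card_EQ {n p c : ℕ} [NeZero p] (r : Fin n → ZMod p → ZMod p) (T : Fin n → Set (ZMod p))
    (h1 : ∀ i (β : ZMod p), {x | r i x = β}.ncard ≤ c) (h2 : ∀ i, (T i).ncard ≤ c)
    (E : Set (Fin n → ZMod p)) :
    (EQ r T E).ncard ≤ c ^ n * E.ncard + n * (c * p ^ (n - 1)) := by
  classical
  have hTf : ∀ i, (T i).Finite := fun i => Set.toFinite _
  have hT : ∀ i, ((hTf i).toFinset).card ≤ c := by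
    intro i
    rw [← Set.ncard_eq_toFinset_card]
    exact h2 i
  have hsub : EQ r T E ⊆ {s : Fin n → ZMod p | (fun i => r i (s i)) ∈ E} ∪
      (((Finset.univ : Finset (Fin n)).biUnion fun i =>
        Finset.univ.filter fun u : Fin n → ZMod p => u i ∈ (fun _ => (hTf i).toFinset) u :
          Finset (Fin n → ZMod p)) : Set (Fin n → ZMod p)) := by
    rintro u (h | ⟨i, hi⟩)
    · exact Or.inl h
    · refine Or.inr ?_
      rw [Finset.mem_coe, Finset.mem_biUnion]
      exact ⟨i, Finset.mem_univ i, Finset.mem_filter.2 ⟨Finset.mem_univ u,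
        (Set.Finite.mem_toFinset _).2 hi⟩⟩
  refine (Set.ncard_le_ncard hsub (Set.toFinite _)).trans ((Set.ncard_union_le _ _).trans
    (Nat.add_le_add (card_fib r h1 E) ?_))
  rw [Set.ncard_coe_finset]
  refine Finset.card_biUnion_le.trans ?_
  calc _ ≤ ∑ i : Fin n, c * p ^ (n - 1) := Finset.sum_le_sum fun i _ =>
        count_coord i (fun _ => (hTf i).toFinset) (fun _ _ => rfl) c fun _ => hT i
    _ = _ := by rw [Finset.sum_const, Finset.card_univ, Fintype.card_fin, smul_eq_mul]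

/-- the exceptional classes are few -/
theorem small_EK {n d c : ℕ} (hd : 0 < d) (E : ∀ p : ℕ, Set (Fin n → ZMod p))
    (hE : ∀ η : ℝ, 0 < η → ∃ B : ℕ, ∀ p, p.Prime → B < p → ((E p).ncard : ℝ) ≤ η * (p : ℝ) ^ n) :
    ∃ B : ℕ, ∀ p, p.Prime → B < p → ∀ (w : Fin d → ZMod p) (k₀ : Fin d), w k₀ ≠ 0 →
      ∀ (r : Fin n → ZMod p → ZMod p) (T : Fin n → Set (ZMod p)),
      (∀ i (β : ZMod p), {x | r i x = β}.ncard ≤ c) → (∀ i, (T i).ncard ≤ c) →
      ({u : Fin (n * d) → ZMod p | LL w u ∈ EQ r T (E p)}.ncard : ℝ) ≤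
        1 / 2 * (p : ℝ) ^ (n * d) := by
  obtain ⟨B₁, hB₁⟩ := hE (1 / (4 * (c ^ n + 1))) (by positivity)
  refine ⟨B₁ + 4 * (n * c), fun p hp hlt w k₀ hw r T h1 h2 => ?_⟩
  have : NeZero p := ⟨hp.ne_zero⟩
  have hp0 : (0 : ℝ) < p := by exact_mod_cast hp.pos
  have h3 : (({u : Fin (n * d) → ZMod p | LL w u ∈ EQ r T (E p)}.ncard : ℕ) : ℝ) ≤
      ((EQ r T (E p)).ncard : ℝ) * (p : ℝ) ^ (n * (d - 1)) := by
    exact_mod_cast card_LL hp w hw (EQ r T (E p))
  have h4 : ((EQ r T (E p)).ncard : ℝ) ≤ (c : ℝ) ^ n * ((E p).ncard : ℝ) +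
      n * (c * (p : ℝ) ^ (n - 1)) := by
    exact_mod_cast card_EQ r T h1 h2 (E p)
  have h5 : (c : ℝ) ^ n * ((E p).ncard : ℝ) ≤ 1 / 4 * (p : ℝ) ^ n := by
    have h8 := hB₁ p hp (by omega)
    have h9 : (c : ℝ) ^ n * (1 / (4 * (c ^ n + 1))) ≤ 1 / 4 := by
      rw [mul_one_div, div_le_div_iff₀ (by positivity) (by norm_num)]
      have : (0 : ℝ) ≤ (c : ℝ) ^ n := by positivity
      nlinarith
    calc (c : ℝ) ^ n * ((E p).ncard : ℝ) ≤ (c : ℝ) ^ n * (1 / (4 * (c ^ n + 1)) * (p : ℝ) ^ n) :=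
          mul_le_mul_of_nonneg_left h8 (by positivity)
      _ = ((c : ℝ) ^ n * (1 / (4 * (c ^ n + 1)))) * (p : ℝ) ^ n := by ring
      _ ≤ _ := mul_le_mul_of_nonneg_right h9 (by positivity)
  have h6 : (n : ℝ) * (c * (p : ℝ) ^ (n - 1)) ≤ 1 / 4 * (p : ℝ) ^ n := by
    rcases Nat.eq_zero_or_pos n with hn | hn
    · subst hn
      simp
    · have e : (p : ℝ) ^ n = p * (p : ℝ) ^ (n - 1) := by
        rw [← pow_succ']
        congr 1
        omega
      have h9 : ((n * c : ℕ) : ℝ) * 4 ≤ p := by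
        have : (n * c) * 4 ≤ p := by omega
        exact_mod_cast this
      push_cast at h9
      have h10 : (0 : ℝ) ≤ (p : ℝ) ^ (n - 1) := by positivity
      rw [e, ← mul_assoc, ← mul_assoc]
      exact mul_le_mul_of_nonneg_right (by linarith) h10
  have h7 : ((EQ r T (E p)).ncard : ℝ) ≤ 1 / 2 * (p : ℝ) ^ n := by linarith
  have e : (p : ℝ) ^ (n * d) = (p : ℝ) ^ n * (p : ℝ) ^ (n * (d - 1)) := by
    rw [← pow_add]
    congr 1
    obtain ⟨d', rfl⟩ : ∃ d', d = d' + 1 := ⟨d - 1, by omega⟩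
    rw [Nat.add_sub_cancel]
    ring
  calc _ ≤ ((EQ r T (E p)).ncard : ℝ) * (p : ℝ) ^ (n * (d - 1)) := h3
    _ ≤ (1 / 2 * (p : ℝ) ^ n) * (p : ℝ) ^ (n * (d - 1)) :=
      mul_le_mul_of_nonneg_right h7 (by positivity)
    _ = _ := by
      rw [e]
      ring

theorem pair_LL {n d p q c : ℕ} [NeZero p] (hq : q.Prime) (hd : 0 < d) (w : Fin d → ZMod p)
    (w' : Fin d → ZMod q) {k₀ : Fin d} (hw' : w' k₀ ≠ 0)
    (r : Fin n → ZMod p → ZMod p) (r' : Fin n → ZMod q → ZMod q) (Γ : ZMod p → Set ℂ)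
    (Γ' : ZMod q → Set ℂ) (h1 : ∀ a, (Γ a).Subsingleton)
    (h2 : ∀ z a b, z ∈ Γ' a → z ∈ Γ' b → a = b) (hf : ∀ i β, {x | r' i x = β}.ncard ≤ c) :
    {uv : (Fin (n * d) → ZMod p) × (Fin (n * d) → ZMod q) | ∃ i z, z ∈ Γ (r i (LL w uv.1 i)) ∧
      z ∈ Γ' (r' i (LL w' uv.2 i))}.ncard ≤ n * (p ^ (n * d) * (c * q ^ (n * d - 1))) := by
  classical
  have : NeZero q := ⟨hq.ne_zero⟩
  let S : Fin n → (Fin (n * d) → ZMod p) → Set (ZMod q) := fun i u =>
    {x | ∃ z, z ∈ Γ (r i (LL w u i)) ∧ z ∈ Γ' (r' i x)}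
  have hS : ∀ i u, (S i u).ncard ≤ c := by
    intro i u
    rcases (S i u).eq_empty_or_nonempty with h | ⟨x₀, z₀, hz₀, hz₀'⟩
    · rw [h, Set.ncard_empty]
      exact Nat.zero_le _
    · refine le_trans (Set.ncard_le_ncard ?_ (Set.toFinite _)) (hf i (r' i x₀))
      rintro x ⟨z, hz, hz'⟩
      have := h1 _ hz hz₀
      rw [this] at hz'
      exact h2 _ _ _ hz' hz₀'
  have hSu : ∀ i u, {v : Fin (n * d) → ZMod q | LL w' v i ∈ S i u}.ncard ≤
      c * q ^ (n * d - 1) := by
    intro i u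
    have hn : 0 < n := i.pos
    have hfin : (S i u).Finite := Set.toFinite _
    have h3 := count_coord (n := n) (q := q) i (fun _ => hfin.toFinset) (fun _ _ => rfl) c
      (fun _ => by
        rw [← Set.ncard_eq_toFinset_card _ hfin]
        exact hS i u)
    have h4 := card_LL (n := n) hq w' hw' {x : Fin n → ZMod q | x i ∈ S i u}
    have h5 : {x : Fin n → ZMod q | x i ∈ S i u}.ncard ≤ c * q ^ (n - 1) := by
      refine le_trans (le_of_eq ?_) h3
      rw [← Set.ncard_coe_finset]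
      congr 1
      ext v
      rw [Set.mem_setOf_eq, Finset.mem_coe, Finset.mem_filter, Set.Finite.mem_toFinset]
      exact ⟨fun h => ⟨Finset.mem_univ _, h⟩, fun h => h.2⟩
    refine h4.trans ((Nat.mul_le_mul_right _ h5).trans (le_of_eq ?_))
    rw [mul_assoc, ← pow_add]
    congr 2
    obtain ⟨d', rfl⟩ : ∃ d', d = d' + 1 := ⟨d - 1, by omega⟩
    rw [Nat.add_sub_cancel, Nat.mul_add, Nat.mul_one]
    omega
  have hsub : {uv : (Fin (n * d) → ZMod p) × (Fin (n * d) → ZMod q) | ∃ i z,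
      z ∈ Γ (r i (LL w uv.1 i)) ∧ z ∈ Γ' (r' i (LL w' uv.2 i))} ⊆
      ⋃ iu : Fin n × (Fin (n * d) → ZMod p),
        ({iu.2} : Set (Fin (n * d) → ZMod p)) ×ˢ
          {v : Fin (n * d) → ZMod q | LL w' v iu.1 ∈ S iu.1 iu.2} := by
    rintro ⟨u, v⟩ ⟨i, z, hz, hz'⟩
    rw [Set.mem_iUnion]
    exact ⟨(i, u), Set.mem_singleton _, z, hz, hz'⟩
  refine (Set.ncard_le_ncard hsub (Set.toFinite _)).trans ?_
  refine (Set.ncard_iUnion_le_of_fintype _).trans ?_
  calc ∑ iu : Fin n × (Fin (n * d) → ZMod p), (({iu.2} : Set (Fin (n * d) → ZMod p)) ×ˢ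
        {v : Fin (n * d) → ZMod q | LL w' v iu.1 ∈ S iu.1 iu.2}).ncard
      ≤ ∑ iu : Fin n × (Fin (n * d) → ZMod p), c * q ^ (n * d - 1) := by
        refine Finset.sum_le_sum fun iu _ => ?_
        rw [Set.ncard_prod, Set.ncard_singleton, one_mul]
        exact hSu _ _
    _ = _ := by
        rw [Finset.sum_const, Finset.card_univ, Fintype.card_prod, Fintype.card_fin,
          Fintype.card_fun, ZMod.card, Fintype.card_fin, smul_eq_mul]
        ring

end Pool.Agent.H882
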