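import Pool.Agent.H882.NfSplit

/-!
Embeddings of number fields at primes modulo which a generating polynomial splits: the integers of
the field are near to rational integers.
-/

set_option autoImplicit false

namespace Pool.Agent.H882

open Polynomial NumberField

section

variable {C : Type} [NormedField C] [IsUltrametricDist C]

omit [IsUltrametricDist C] in
theorem wk_of_le_max {p : ℕ} (hp3 : 3 < p) (hp1 : ‖(p : C)‖ < 1)
    (hp0 : 0 < ‖(p : C)‖) {r s : ℝ} (hr0 : 0 ≤ r) (hs : s ^ (p - 1) < ‖(p : C)‖)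
    (h : r ≤ max s ‖(p : C)‖) : r ^ (p - 1) < ‖(p : C)‖ := by
  rcases le_total s ‖(p : C)‖ with h1 | h1
  · rw [max_eq_right h1] at h
    calc r ^ (p - 1) ≤ ‖(p : C)‖ ^ (p - 1) := pow_le_pow_left₀ hr0 h _
      _ < ‖(p : C)‖ ^ 1 := pow_lt_pow_right_of_lt_one₀ hp0 hp1 (by omega)
      _ = _ := pow_one _
  · rw [max_eq_left h1] at h
    exact (pow_le_pow_left₀ hr0 h _).trans_lt hs

omit [IsUltrametricDist C] in
theorem wk_lt_one {p : ℕ} (hp1 : ‖(p : C)‖ < 1) {r : ℝ} (h : r ^ (p - 1) < ‖(p : C)‖) : r < 1 := by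
  by_contra h1
  push Not at h1
  have h2 : (1 : ℝ) ≤ r ^ (p - 1) := one_le_pow₀ h1
  linarith

/-- the integers of the field are near to their residues modulo `p` -/
def NearK {K : Type} [Field K] [NumberField K] {p : ℕ} (φ : K →+* C) (ρ : 𝓞 K →+* ZMod p) : Prop :=
  ∀ (c : 𝓞 K) (k : ℤ), (k : ZMod p) = ρ c → ‖φ (c : K) - (k : C)‖ ^ (p - 1) < ‖(p : C)‖

end

theorem exists_theta (K : Type) [Field K] [NumberField K] :
    ∃ θ : 𝓞 K, Algebra.adjoin ℚ {(θ : K)} = ⊤ := by
  obtain ⟨a, ha⟩ := Field.exists_primitive_element ℚ K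
  have halg : IsAlgebraic ℤ a := (IsFractionRing.isAlgebraic_iff ℤ ℚ K).2 (Algebra.IsAlgebraic.isAlgebraic a)
  obtain ⟨y, hy0, hy⟩ := halg.exists_integral_multiple
  refine ⟨⟨y • a, hy⟩, ?_⟩
  rw [eq_top_iff]
  have h1 : Algebra.adjoin ℚ {a} = ⊤ := by
    rw [← IntermediateField.adjoin_simple_toSubalgebra_of_isAlgebraic
      (Algebra.IsAlgebraic.isAlgebraic (R := ℚ) a), ha]
    rfl
  rw [← h1]
  refine Algebra.adjoin_le ?_
  rw [Set.singleton_subset_iff]
  have h2 : a = (y : ℚ)⁻¹ • (y • a) := by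
    rw [← Int.cast_smul_eq_zsmul ℚ y a, smul_smul, inv_mul_cancel₀ (by exact_mod_cast hy0), one_smul]
  have h3 : (y : ℚ)⁻¹ • (y • a) ∈ Algebra.adjoin ℚ {((⟨y • a, hy⟩ : 𝓞 K) : K)} :=
    Subalgebra.smul_mem _ (Algebra.subset_adjoin (Set.mem_singleton _)) _
  rwa [← h2] at h3

theorem near_all (K : Type) [Field K] [NumberField K] : ∃ (f : ℤ[X]) (D : ℤ), f.Monic ∧
    0 < f.natDegree ∧ (f.map (Int.castRingHom ℚ)).Separable ∧ D ≠ 0 ∧
    ∀ p : ℕ, p.Prime → 3 < p → ¬ (p : ℤ) ∣ D → SplP f p → ∀ (C : Type) [NormedField C]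
      [IsUltrametricDist C] [CharZero C], ‖(p : C)‖ < 1 → 0 < ‖(p : C)‖ → ∀ φ : K →+* C,
        ∃ ρ : 𝓞 K →+* ZMod p, NearK φ ρ := by
  obtain ⟨θ, hθ⟩ := exists_theta K
  obtain ⟨D, hD0, hD⟩ := H921R2.TatePole.exists_index hθ
  have hint : IsIntegral ℤ θ := RingOfIntegers.isIntegral θ
  have e : minpoly ℚ (θ : K) = (minpoly ℤ θ).map (algebraMap ℤ ℚ) :=
    minpoly.isIntegrallyClosed_eq_field_fractions ℚ K hint
  have hmon := minpoly.monic hint
  refine ⟨minpoly ℤ θ, D, hmon, minpoly.natDegree_pos hint, ?_, hD0, ?_⟩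
  · have h1 := (minpoly.irreducible (IsIntegral.of_finite ℚ (θ : K))).separable
    rw [e] at h1
    exact h1
  intro p hp hp3 hpD hspl C _ _ _ hp1 hp0 φ
  obtain ⟨A, hA1, hA2⟩ := hspl
  have : NeZero p := ⟨hp.ne_zero⟩
  have : Fact p.Prime := ⟨hp⟩
  obtain ⟨d, hd⟩ : ∃ d, d = (minpoly ℤ θ).natDegree := ⟨_, rfl⟩
  have hmp : mp (fun j : Fin d => (minpoly ℤ θ).coeff j) = minpoly ℤ θ := mp_of_monic hmon hd.symm
  have hd0 : 0 < d := hd ▸ minpoly.natDegree_pos hint
  have hYval : ((mp (fun j : Fin d => (minpoly ℤ θ).coeff j)).map (Int.castRingHom C)).eval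
      (φ (θ : K)) = 0 := by
    rw [hmp]
    have h1 : (minpoly ℤ θ).map (Int.castRingHom C) =
        ((minpoly ℤ θ).map (algebraMap ℤ K)).map φ := by
      rw [Polynomial.map_map]
      congr 1
      exact RingHom.ext_int _ _
    rw [h1, Polynomial.eval_map, Polynomial.eval₂_at_apply, Polynomial.eval_map_algebraMap]
    have h2 : aeval (θ : K) (minpoly ℤ θ) = 0 := by
      have h3 := minpoly.aeval ℤ θ
      have h4 := Polynomial.aeval_algebraMap_apply K θ (minpoly ℤ θ)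
      rw [h3, map_zero] at h4
      exact h4
    rw [h2, map_zero]
  obtain ⟨a, ha, hnear⟩ := near_root (C := C) hp hp3 hp1 hp0 hd0
    (fun j : Fin d => (minpoly ℤ θ).coeff j) A (by
      have h1 := congrArg (Polynomial.map (Int.castRingHom (ZMod p))) hmp
      rw [mp_map, hA2] at h1
      exact h1) (φ (θ : K)) (by
      rw [hYval, norm_zero, zero_pow (by omega)]
      exact hp0)
  -- the integers near to the elements
  have hDu : ‖(D : C)‖ = 1 := norm_unit hp hp1 hpD
  have hDz : (D : ZMod p) ≠ 0 := by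
    rwa [Ne, ZMod.intCast_zmod_eq_zero_iff_dvd]
  have hex : ∀ c : 𝓞 K, ∃ k : ℤ, ‖φ (c : K) - (k : C)‖ ^ (p - 1) < ‖(p : C)‖ := by
    intro c
    obtain ⟨g, hg⟩ := hD c
    obtain ⟨k, hk⟩ : ∃ k : ℤ, (k : ZMod p) = (D : ZMod p)⁻¹ * ((g.eval (a.val : ℤ) : ℤ) : ZMod p) :=
      ⟨(((D : ZMod p)⁻¹ * ((g.eval (a.val : ℤ) : ℤ) : ZMod p)).val : ℤ), by
        push_cast
        rw [ZMod.natCast_zmod_val]⟩
    refine ⟨k, ?_⟩
    have h1 : (D : K) * (c : K) = aeval (θ : K) g := by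
      have h2 := congrArg (algebraMap (𝓞 K) K) hg
      rw [map_mul, map_intCast] at h2
      rw [h2]
      exact (Polynomial.aeval_algebraMap_apply K θ g).symm
    have h3 : (D : C) * φ (c : K) = (g.map (Int.castRingHom C)).eval (φ (θ : K)) := by
      have h4 := congrArg φ h1
      rw [map_mul, map_intCast] at h4
      rw [h4]
      have h5 : g.map (Int.castRingHom C) = (g.map (algebraMap ℤ K)).map φ := by
        rw [Polynomial.map_map]
        congr 1
        exact RingHom.ext_int _ _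
      rw [h5, Polynomial.eval_map, Polynomial.eval₂_at_apply, Polynomial.eval_map_algebraMap]
    have hθ1 : ‖φ (θ : K)‖ ≤ 1 := by
      have h4 : φ (θ : K) = (φ (θ : K) - ((a.val : ℤ) : C)) + ((a.val : ℤ) : C) := by ring
      rw [h4]
      exact (IsUltrametricDist.norm_add_le_max _ _).trans (max_le (wk_lt_one hp1 hnear).le
        (IsUltrametricDist.norm_intCast_le_one C _))
    have h6 : ‖(g.map (Int.castRingHom C)).eval (φ (θ : K)) -
        (g.map (Int.castRingHom C)).eval ((a.val : ℤ) : C)‖ ≤ ‖φ (θ : K) - ((a.val : ℤ) : C)‖ := by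
      refine eval_sub_le _ (fun n => ?_) hθ1 (IsUltrametricDist.norm_intCast_le_one C _)
      rw [Polynomial.coeff_map]
      exact IsUltrametricDist.norm_intCast_le_one C _
    have h7 : ‖((g.eval (a.val : ℤ) - D * k : ℤ) : C)‖ ≤ ‖(p : C)‖ := by
      refine norm_le_p ?_
      rw [← ZMod.intCast_zmod_eq_zero_iff_dvd]
      push_cast
      rw [hk, ← mul_assoc, mul_inv_cancel₀ hDz, one_mul, sub_self]
    have h8 : (g.map (Int.castRingHom C)).eval ((a.val : ℤ) : C) =
        ((g.eval (a.val : ℤ) : ℤ) : C) := by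
      rw [Polynomial.eval_intCast_map]
      rfl
    refine wk_of_le_max hp3 hp1 hp0 (norm_nonneg _) hnear ?_
    have h9 : ‖φ (c : K) - (k : C)‖ = ‖(D : C) * (φ (c : K) - (k : C))‖ := by
      rw [norm_mul, hDu, one_mul]
    rw [h9, mul_sub, h3]
    have h10 : (g.map (Int.castRingHom C)).eval (φ (θ : K)) - (D : C) * (k : C) =
        ((g.map (Int.castRingHom C)).eval (φ (θ : K)) -
          (g.map (Int.castRingHom C)).eval ((a.val : ℤ) : C)) +
        ((g.eval (a.val : ℤ) - D * k : ℤ) : C) := by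
      rw [h8]
      push_cast
      ring
    rw [h10]
    exact (IsUltrametricDist.norm_add_le_max _ _).trans (max_le_max h6 h7)
  choose k hk using hex
  have huniq : ∀ (x : C) (i j : ℤ), ‖x - (i : C)‖ < 1 → ‖x - (j : C)‖ < 1 →
      (i : ZMod p) = (j : ZMod p) := by
    intro x i j hi hj
    have h1 : ‖((i - j : ℤ) : C)‖ < 1 := by
      have e : ((i - j : ℤ) : C) = (x - (j : C)) - (x - (i : C)) := by
        push_cast
        ring
      rw [e]
      exact (nsubmax _ _).trans_lt (max_lt hj hi)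
    have h2 := dvd_of_norm hp hp1 h1
    rw [← ZMod.intCast_zmod_eq_zero_iff_dvd] at h2
    push_cast at h2
    exact sub_eq_zero.1 h2
  have hk1 : ∀ c : 𝓞 K, ‖φ (c : K) - (k c : C)‖ < 1 := fun c => wk_lt_one hp1 (hk c)
  have hc1 : ∀ c : 𝓞 K, ‖φ (c : K)‖ ≤ 1 := by
    intro c
    have h4 : φ (c : K) = (φ (c : K) - (k c : C)) + (k c : C) := by ring
    rw [h4]
    exact (IsUltrametricDist.norm_add_le_max _ _).trans (max_le (hk1 c).le
      (IsUltrametricDist.norm_intCast_le_one C _))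
  have hone : ((k 1 : ℤ) : ZMod p) = 1 := by
    have h1 := huniq (φ ((1 : 𝓞 K) : K)) (k 1) 1 (hk1 1) (by simp)
    rw [h1]
    simp
  have hzero : ((k 0 : ℤ) : ZMod p) = 0 := by
    have h1 := huniq (φ ((0 : 𝓞 K) : K)) (k 0) 0 (hk1 0) (by simp)
    rw [h1]
    simp
  have hadd : ∀ x y, ((k (x + y) : ℤ) : ZMod p) = (k x : ZMod p) + (k y : ZMod p) := by
    intro x y
    have h1 := huniq (φ ((x + y : 𝓞 K) : K)) (k (x + y)) (k x + k y) (hk1 _) (by
      have e : φ ((x + y : 𝓞 K) : K) - ((k x + k y : ℤ) : C) =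
          (φ (x : K) - (k x : C)) + (φ (y : K) - (k y : C)) := by
        push_cast
        rw [map_add]
        ring
      rw [e]
      exact (IsUltrametricDist.norm_add_le_max _ _).trans_lt (max_lt (hk1 x) (hk1 y)))
    rw [h1]
    push_cast
    rfl
  have hmul : ∀ x y, ((k (x * y) : ℤ) : ZMod p) = (k x : ZMod p) * (k y : ZMod p) := by
    intro x y
    have h1 := huniq (φ ((x * y : 𝓞 K) : K)) (k (x * y)) (k x * k y) (hk1 _) (by
      have e : φ ((x * y : 𝓞 K) : K) - ((k x * k y : ℤ) : C) =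
          φ (x : K) * (φ (y : K) - (k y : C)) + (φ (x : K) - (k x : C)) * (k y : C) := by
        push_cast
        rw [map_mul]
        ring
      rw [e]
      refine (IsUltrametricDist.norm_add_le_max _ _).trans_lt (max_lt ?_ ?_)
      · rw [norm_mul]
        exact (mul_le_of_le_one_left (norm_nonneg _) (hc1 x)).trans_lt (hk1 y)
      · rw [norm_mul]
        exact (mul_le_of_le_one_right (norm_nonneg _)
          (IsUltrametricDist.norm_intCast_le_one C _)).trans_lt (hk1 x))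
    rw [h1]
    push_cast
    rfl
  refine ⟨⟨⟨⟨fun c => (k c : ZMod p), hone⟩, hmul⟩, hzero, hadd⟩, fun c l hl => ?_⟩
  have hl' : (l : ZMod p) = (k c : ZMod p) := hl
  refine wk_of_le_max hp3 hp1 hp0 (norm_nonneg _) (hk c) ?_
  have e2 : φ (c : K) - (l : C) = (φ (c : K) - (k c : C)) + ((k c - l : ℤ) : C) := by
    push_cast
    ring
  rw [e2]
  refine (IsUltrametricDist.norm_add_le_max _ _).trans (max_le_max le_rfl (norm_le_p ?_))
  rw [← ZMod.intCast_zmod_eq_zero_iff_dvd]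
  push_cast
  rw [hl', sub_self]

end Pool.Agent.H882
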