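import Pool.Agent.H882.FyCore

/-!
The differences of the neighbours as a polynomial in `j`, and its roots.
-/

set_option autoImplicit false

namespace Pool.Agent.H882

open UpperHalfPlane H294ZP Function Pool.Agent.N135.ZO Polynomial
open Pool.Agent.Y226 (ZZ ιZ ιZ_apply QA mem_QA nadd_lt nsub_le norm_le_one_of_isIntegral)

/-- the product of the differences of the neighbours -/
noncomputable def nd {l : ℕ} (hl : 0 < l) (τ : ℍ) : ℂ := ∏ k : Option (Fin l), ∏ k' : Option (Fin l),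
  if k = k' then 1 else jj (hh hl k τ) - jj (hh hl k' τ)

theorem nd_inv {l : ℕ} (hl : l.Prime) : H294ZP.Inv (nd hl.pos) := by
  refine inv_of_rel fun γ hγ τ w hw => ?_
  obtain ⟨σ, hσ⟩ := perm hl hγ hw
  unfold nd
  rw [← Equiv.prod_comp σ (fun k => ∏ k' : Option (Fin l),
    if k = k' then (1 : ℂ) else jj (hh hl.pos k τ) - jj (hh hl.pos k' τ))]
  refine Finset.prod_congr rfl fun k _ => ?_
  rw [← Equiv.prod_comp σ (fun k' => if σ k = k' then (1 : ℂ) else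
    jj (hh hl.pos (σ k) τ) - jj (hh hl.pos k' τ))]
  refine Finset.prod_congr rfl fun k' _ => ?_
  rw [show jj (hh hl.pos k w) = jj (hh hl.pos (σ k) τ) from (hσ k).1,
    show jj (hh hl.pos k' w) = jj (hh hl.pos (σ k') τ) from (hσ k').1]
  by_cases h : k = k'
  · rw [if_pos h, if_pos (congrArg σ h)]
  · rw [if_neg h, if_neg (fun h' => h (σ.injective h'))]

theorem nd_LX {l : ℕ} (hl : l.Prime) : LX ⊤ l (nd hl.pos) := by
  refine LX.prod Finset.univ (fun k τ => ∏ k' : Option (Fin l),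
    if k = k' then (1 : ℂ) else jj (hh hl.pos k τ) - jj (hh hl.pos k' τ)) fun k _ => ?_
  refine LX.prod Finset.univ (fun k' τ =>
    if k = k' then (1 : ℂ) else jj (hh hl.pos k τ) - jj (hh hl.pos k' τ)) fun k' _ => ?_
  by_cases h : k = k'
  · simp only [if_pos h]
    exact LX.one
  · simp only [if_neg h]
    exact (LX.jj_hh hl.pos k).sub (LX.jj_hh hl.pos k')

/-- The endomorphism of degree `l ^ 2` of a point with two equal neighbours. -/
theorem fix_of_nd {l : ℕ} (hl : l.Prime) {τ : ℍ} (h : nd hl.pos τ = 0) :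
    ∃ T : M2, T.det = (l ^ 2 : ℕ) ∧ Rel T τ τ ∧ T 1 0 ≠ 0 := by
  have hlZ : (0 : ℤ) < l := by exact_mod_cast hl.pos
  unfold nd at h
  obtain ⟨k, -, hk⟩ := Finset.prod_eq_zero_iff.1 h
  obtain ⟨k', -, hk'⟩ := Finset.prod_eq_zero_iff.1 hk
  have hne : k ≠ k' := by
    intro hkk
    rw [if_pos hkk] at hk'
    exact one_ne_zero hk'
  rw [if_neg hne] at hk'
  obtain ⟨γ, hγ, hrel⟩ := Pool.Agent.N101.ZP.jj_inj (sub_eq_zero.1 hk')
  obtain ⟨T, hT⟩ : ∃ T : M2, T = (gk l k').adjugate * (γ * gk l k) := ⟨_, rfl⟩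
  have hTrel : Rel T τ τ := by
    rw [hT]
    exact ((rel_hh hl.pos k τ).mul hrel).mul (rel_adj (rel_hh hl.pos k' τ))
  have hTdet : T.det = (l ^ 2 : ℕ) := by
    rw [hT, det_mul', det_mul', det_adj, hγ, det_gk, det_gk]
    push_cast
    ring
  refine ⟨T, hTdet, hTrel, fun h10 => ?_⟩
  -- the scalar case
  have hq := rel_quad hTrel
  rw [h10, Int.cast_zero, zero_mul, zero_add] at hq
  have him := congrArg Complex.im hq
  have hτ : (τ : ℂ).im ≠ 0 := τ.im_ne_zero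
  have h1 : T 1 1 - T 0 0 = 0 := by
    simp only [Complex.add_im, Complex.mul_im, Complex.intCast_re, Complex.intCast_im, zero_mul,
      add_zero, Complex.zero_im] at him
    rcases mul_eq_zero.1 him with h | h
    · exact_mod_cast h
    · exact absurd h hτ
  rw [h1, Int.cast_zero, zero_mul, zero_add] at hq
  have h01 : T 0 1 = 0 := by
    have h2 : -T 0 1 = 0 := by exact_mod_cast hq
    linarith
  have h11 : T 1 1 = T 0 0 := by linarith
  have hdet2 : T 0 0 * T 0 0 = (l : ℤ) * l := by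
    have h3 := hTdet
    rw [det_eq, h01, h11] at h3
    push_cast at h3
    linarith
  have hc : T 0 0 = l ∨ T 0 0 = -l := mul_self_eq_mul_self_iff.1 hdet2
  have hTs : T = (T 0 0) • (1 : M2) := by
    ext i j
    fin_cases i <;> fin_cases j
    · simp
    · simp [h01]
    · simp [h10]
    · simp [h11]
  have hmul : gk l k' * T = (l : ℤ) • (γ * gk l k) := by
    rw [hT, ← mul_assoc, Matrix.mul_adjugate, det_gk, smul_mul_assoc, one_mul]
  rw [hTs, Matrix.mul_smul, mul_one] at hmul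
  have hsc : ∀ {A B : M2}, (l : ℤ) • A = (l : ℤ) • B → A = B := by
    intro A B hAB
    ext i j
    have h4 := congrFun (congrFun hAB i) j
    simp only [Matrix.smul_apply, smul_eq_mul] at h4
    exact mul_left_cancel₀ hlZ.ne' h4
  rcases hc with hc | hc
  · rw [hc] at hmul
    exact hne (gk_unique hl.one_lt (hsc hmul))
  · rw [hc] at hmul
    refine hne (gk_unique hl.one_lt (E := -γ) (hsc ?_))
    rw [Matrix.neg_mul, smul_neg, ← hmul]
    ext i j
    simp only [Matrix.smul_apply, Matrix.neg_apply, smul_eq_mul]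
    ring

theorem isCM_of_T {T : M2} {τ : ℍ} (h : Rel T τ τ) (h0 : T 1 0 ≠ 0) : IsCM τ :=
  ⟨T 1 0, T 1 1 - T 0 0, -T 0 1, h0, rel_quad h⟩

theorem exists_not_QA : ∃ x : ℂ, x ∉ QA := by
  by_contra hcon
  push Not at hcon
  have h1 : {x : ℂ | IsAlgebraic ℚ x} = Set.univ := by
    ext x
    exact ⟨fun _ => trivial, fun _ => mem_QA.1 (hcon x)⟩
  have h2 := Algebraic.countable ℚ ℂ
  rw [h1] at h2
  exact not_countable_complex h2

/-- the polynomial -/
theorem nd_poly {l : ℕ} (hl : l.Prime) : ∃ P : ℂ[X], P ≠ 0 ∧ P.leadingCoeff ∈ QA ∧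
    ∀ τ, nd hl.pos τ = P.eval (jj τ) := by
  obtain ⟨P, -, hP⟩ := tbX ⊤ l hl.pos (nd hl.pos) (nd_inv hl) (nd_LX hl)
  have hP' : ∀ τ, nd hl.pos τ = (P.map ιZ).eval (jj τ) := by
    intro τ
    rw [Polynomial.eval_map]
    exact hP τ
  refine ⟨P.map ιZ, fun h0 => ?_, ?_, hP'⟩
  · obtain ⟨x, hx⟩ := exists_not_QA
    obtain ⟨τ, hτ⟩ := Pool.Agent.Q223.UV.jj_surj x
    have h1 := hP' τ
    rw [h0, Polynomial.eval_zero] at h1
    obtain ⟨T, -, hT, hT0⟩ := fix_of_nd hl h1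
    apply hx
    rw [← hτ]
    exact cm_mem_QA (isCM_of_T hT hT0)
  · have hinj : Function.Injective ιZ := fun a b h => Subtype.ext h
    rw [Polynomial.leadingCoeff_map_of_injective hinj]
    rw [mem_QA]
    exact ((P.leadingCoeff.2 : IsIntegral ℤ _).tower_top (A := ℚ)).isAlgebraic

section

variable {C : Type} [NormedField C] [IsUltrametricDist C]

/-- a nonzero algebraic number is a unit at the places above large primes -/
theorem unit_large {c : ℂ} (hc : c ∈ QA) (hc0 : c ≠ 0) : ∃ B : ℕ, ∀ p : ℕ, p.Prime → B < p →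
    ∀ (C : Type) [NormedField C] [IsUltrametricDist C] (Ψ : ℂ →+* C), ‖(p : C)‖ < 1 →
      ‖Ψ c‖ = 1 := by
  obtain ⟨B₁, h₁⟩ := PI_alg c (mem_QA.1 hc)
  obtain ⟨B₂, h₂⟩ := PI_alg c⁻¹ (mem_QA.1 (QA.inv_mem hc))
  refine ⟨B₁ + B₂, fun p hp hB C _ _ Ψ hp1 => ?_⟩
  have e1 : ‖Ψ c‖ ≤ 1 := norm_of_PI hp hp1 Ψ (h₁ p hp (by omega))
  have e2 : ‖Ψ c⁻¹‖ ≤ 1 := norm_of_PI hp hp1 Ψ (h₂ p hp (by omega))
  refine le_antisymm e1 ?_
  have e3 : ‖Ψ c‖ * ‖Ψ c⁻¹‖ = 1 := by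
    rw [← norm_mul, ← map_mul, mul_inv_cancel₀ hc0, map_one, norm_one]
  calc (1 : ℝ) = ‖Ψ c‖ * ‖Ψ c⁻¹‖ := e3.symm
    _ ≤ ‖Ψ c‖ * 1 := mul_le_mul_of_nonneg_left e2 (norm_nonneg _)
    _ = _ := mul_one _

/-- If two neighbours of `j (τ)` are congruent, then `j (τ)` is congruent to a singular modulus with an
endomorphism of degree `l ^ 2`. -/
theorem nd_root {l : ℕ} (hl : l.Prime) : ∃ B : ℕ, ∀ p : ℕ, p.Prime → B < p →
    ∀ (C : Type) [NormedField C] [IsUltrametricDist C] (Ψ : ℂ →+* C), ‖(p : C)‖ < 1 →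
      ∀ τ : ℍ, ‖Ψ (nd hl.pos τ)‖ < 1 → ∃ (τ' : ℍ) (T : M2), T.det = (l ^ 2 : ℕ) ∧ Rel T τ' τ' ∧
        T 1 0 ≠ 0 ∧ ‖Ψ (jj τ' - jj τ)‖ < 1 := by
  obtain ⟨Q, hQ0, hQ1, hQ2⟩ := nd_poly hl
  obtain ⟨B, hB⟩ := unit_large hQ1 (leadingCoeff_ne_zero.2 hQ0)
  refine ⟨B, fun p hp hpB C _ _ Ψ hp1 τ h2 => ?_⟩
  rw [hQ2 τ, (IsAlgClosed.splits Q).eval_eq_prod_roots, map_mul, norm_mul,
    hB p hp hpB C Ψ hp1, one_mul, map_multiset_prod, Multiset.map_map] at h2
  have h3 : ∃ r ∈ Q.roots, ‖Ψ (jj τ - r)‖ < 1 := by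
    by_contra hcon
    push Not at hcon
    have h4 : ∀ s : Multiset ℂ, (∀ r ∈ s, 1 ≤ ‖Ψ (jj τ - r)‖) →
        1 ≤ ‖(s.map (Ψ ∘ fun r => jj τ - r)).prod‖ := by
      intro s
      induction s using Multiset.induction_on with
      | empty => intro _; simp
      | cons a s ih =>
        intro hs
        rw [Multiset.map_cons, Multiset.prod_cons, norm_mul]
        have e1 := hs a (Multiset.mem_cons_self a s)
        have e2 := ih fun r hr => hs r (Multiset.mem_cons_of_mem hr)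
        exact one_le_mul_of_one_le_of_one_le e1 e2
    exact absurd h2 (not_lt.2 (h4 _ hcon))
  obtain ⟨r, hr, hlt⟩ := h3
  obtain ⟨τ', hτ'⟩ := Pool.Agent.Q223.UV.jj_surj r
  have hroot : nd hl.pos τ' = 0 := by
    rw [hQ2 τ', hτ']
    exact isRoot_of_mem_roots hr
  obtain ⟨T, hT1, hT2, hT3⟩ := fix_of_nd hl hroot
  refine ⟨τ', T, hT1, hT2, hT3, ?_⟩
  rw [hτ', ← norm_neg, ← map_neg, neg_sub]
  exact hlt

/-- two congruent neighbours -/
theorem nd_lt {l : ℕ} (hl : l.Prime) (Ψ : ℂ →+* C) {τ : ℍ} (hτ : ‖Ψ (jj τ)‖ ≤ 1)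
    {k k' : Option (Fin l)} (hne : k ≠ k') (h : ‖Ψ (jj (hh hl.pos k τ) - jj (hh hl.pos k' τ))‖ < 1) :
    ‖Ψ (nd hl.pos τ)‖ < 1 := by
  classical
  have hlZ : (0 : ℤ) < l := by exact_mod_cast hl.pos
  have hy : ∀ k : Option (Fin l), ‖Ψ (jj (hh hl.pos k τ))‖ ≤ 1 := fun k =>
    VF_mem.1 (rel_mem (V := VF Ψ) (M := gk l k) (by rw [det_gk]; exact hlZ) (rel_hh hl.pos k τ)
      (VF_mem.2 hτ))
  have hle : ∀ k k' : Option (Fin l), ‖Ψ (if k = k' then (1 : ℂ) else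
      jj (hh hl.pos k τ) - jj (hh hl.pos k' τ))‖ ≤ 1 := by
    intro k k'
    by_cases hkk : k = k'
    · rw [if_pos hkk, map_one, norm_one]
    · rw [if_neg hkk, map_sub]
      exact nsub_le (hy k) (hy k')
  have hprod : ∀ (s : Finset (Option (Fin l))) (f : Option (Fin l) → ℂ),
      (∀ i ∈ s, ‖Ψ (f i)‖ ≤ 1) → ‖Ψ (∏ i ∈ s, f i)‖ ≤ 1 := by
    intro s f hf
    rw [map_prod, norm_prod]
    exact Finset.prod_le_one (fun _ _ => norm_nonneg _) hf
  have hlt : ∀ (f : Option (Fin l) → ℂ) (i : Option (Fin l)), (∀ i, ‖Ψ (f i)‖ ≤ 1) →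
      ‖Ψ (f i)‖ < 1 → ‖Ψ (∏ i, f i)‖ < 1 := by
    intro f i hf hi
    rw [← Finset.mul_prod_erase Finset.univ f (Finset.mem_univ i), map_mul, norm_mul]
    exact (mul_le_of_le_one_right (norm_nonneg _) (hprod _ _ fun i _ => hf i)).trans_lt hi
  unfold nd
  refine hlt _ k (fun i => hprod _ _ fun i' _ => hle i i') ?_
  refine hlt _ k' (fun i => hle k i) ?_
  rw [if_neg hne]
  exact h

end

end Pool.Agent.H882
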