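import Mathlib

/-!
Automorphisms of a subfield of `ℂ` extend to automorphisms of `ℂ`.
-/

set_option autoImplicit false

namespace Pool.Agent.H882

theorem exists_aut_ext (A : Type) [Field A] [Algebra A ℂ] (σ : A ≃+* A) :
    ∃ σ' : ℂ ≃+* ℂ, ∀ y : A, σ' (algebraMap A ℂ y) = algebraMap A ℂ (σ y) := by
  obtain ⟨ι, v, hv⟩ := exists_isTranscendenceBasis' A ℂ
  let := IsAlgClosed.isAlgClosure_of_transcendence_basis v hv
  let e : Algebra.adjoin A (Set.range v) ≃+* Algebra.adjoin A (Set.range v) :=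
    (hv.1.aevalEquiv.symm.toRingEquiv.trans (MvPolynomial.mapEquiv ι σ)).trans hv.1.aevalEquiv.toRingEquiv
  have he : ∀ y : A, e (algebraMap A (Algebra.adjoin A (Set.range v)) y) =
      algebraMap A (Algebra.adjoin A (Set.range v)) (σ y) := by
    intro y
    change hv.1.aevalEquiv (MvPolynomial.map (σ : A →+* A)
      (hv.1.aevalEquiv.symm (algebraMap A (Algebra.adjoin A (Set.range v)) y))) = _
    rw [AlgEquiv.commutes, MvPolynomial.algebraMap_eq, MvPolynomial.map_C, ← MvPolynomial.algebraMap_eq,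
      AlgEquiv.commutes]
    rfl
  refine ⟨IsAlgClosure.equivOfEquiv ℂ ℂ e, fun y => ?_⟩
  rw [IsScalarTower.algebraMap_apply A (Algebra.adjoin A (Set.range v)) ℂ y,
    IsAlgClosure.equivOfEquiv_algebraMap, he, ← IsScalarTower.algebraMap_apply]

end Pool.Agent.H882
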