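import Mathlib

/-!
Frobenius automorphisms at a place of the algebraic numbers.

Let `F = ∏ y ∈ S, minpoly ℚ y`, `L = F.SplittingField` (a number field, Galois over `ℚ`), and `ι : L →+* A`.
The elements `x` of `𝓞 L` with `‖φ (ι x)‖ < 1` form a prime ideal above `p`. We take an arithmetic
Frobenius at this ideal and lift it to `A`.
-/

set_option autoImplicit false

namespace Pool.Agent.H882

open NumberField Polynomial

theorem norm_le_one_of_int_aux (C : Type) [NormedField C] [IsUltrametricDist C] (z : C)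
    (hz : IsIntegral ℤ z) : ‖z‖ ≤ 1 := by
  have h := (Valuation.integer.integers (NormedField.valuation (K := C))).mem_of_integral
    (x := z) (hz.tower_top)
  exact h

theorem norm_int_le_one_aux (C : Type) [NormedField C] [IsUltrametricDist C] (L : Type) [Field L]
    [NumberField L] (ψ : L →+* C) (x : 𝓞 L) : ‖ψ (x : L)‖ ≤ 1 := by
  apply norm_le_one_of_int_aux
  obtain ⟨Q, hQ, hQx⟩ := x.2
  refine ⟨Q, hQ, ?_⟩
  have e : ((algebraMap ℤ C)) = ψ.comp (algebraMap ℤ L) := RingHom.ext_int _ _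
  rw [e, ← Polynomial.hom_eval₂]
  exact (congrArg ψ hQx).trans (map_zero ψ)

theorem exists_frob_aut (A : Type) [Field A] [CharZero A] [IsAlgClosed A]
    [Algebra.IsAlgebraic ℚ A] (C : Type) [NormedField C] [IsUltrametricDist C] (φ : A →+* C)
    {p : ℕ} (hp : p.Prime) (hp1 : ‖(p : C)‖ < 1) (S : Finset A)
    (hS : ∀ y ∈ S, IsIntegral ℤ y) : ∃ σ : A ≃+* A, ∀ y ∈ S, ‖φ (σ y) - φ y ^ p‖ < 1 := by
  have hcl : IsAlgClosure ℚ A := ⟨inferInstance, inferInstance⟩
  have hnA : Normal ℚ A := IsAlgClosure.normal ℚ A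
  obtain ⟨F, hF⟩ : ∃ F : ℚ[X], F = ∏ y ∈ S, minpoly ℚ y := ⟨_, rfl⟩
  have hF0 : F ≠ 0 := by
    rw [hF, Finset.prod_ne_zero_iff]
    intro y _
    exact minpoly.ne_zero (Algebra.IsIntegral.isIntegral y)
  have hSp : IsSplittingField ℚ F.SplittingField F := IsSplittingField.splittingField F
  have h1 : FiniteDimensional ℚ F.SplittingField := IsSplittingField.finiteDimensional _ F
  have h2 : CharZero F.SplittingField :=
    charZero_of_injective_algebraMap (algebraMap ℚ F.SplittingField).injective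
  have hnf : NumberField F.SplittingField := ⟨⟩
  have hN : Normal ℚ F.SplittingField := Normal.of_isSplittingField F
  have hG : IsGalois ℚ F.SplittingField := ⟨⟩
  have hspl := SplittingField.splits F
  obtain ⟨L, hL, hLn, hLG, ι, hι⟩ : ∃ (L : Type) (_ : Field L) (_ : NumberField L)
      (_ : IsGalois ℚ L) (ι : L →+* A), ∀ y ∈ S, ∃ x : L, ι x = y := by
    refine ⟨F.SplittingField, inferInstance, hnf, hG,
      (IsAlgClosed.lift (R := ℚ) (S := F.SplittingField) (M := A)).toRingHom, fun y hy => ?_⟩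
    have h3 : (Polynomial.map (IsAlgClosed.lift (R := ℚ) (S := F.SplittingField)
      (M := A)).toRingHom (F.map (algebraMap ℚ F.SplittingField))).IsRoot y := by
      rw [Polynomial.IsRoot, Polynomial.map_map]
      have e : (IsAlgClosed.lift (R := ℚ) (S := F.SplittingField) (M := A)).toRingHom.comp
        (algebraMap ℚ F.SplittingField) = algebraMap ℚ A := RingHom.ext_rat _ _
      rw [e, Polynomial.eval_map_algebraMap, hF, map_prod]
      exact Finset.prod_eq_zero hy (minpoly.aeval ℚ y)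
    obtain ⟨x, hx⟩ := hspl.mem_range_of_isRoot ((Polynomial.map_ne_zero_iff
      (algebraMap ℚ F.SplittingField).injective).2 hF0) h3
    exact ⟨x, hx⟩
  let algLA : Algebra L A := ι.toAlgebra
  have hst : IsScalarTower ℚ L A := IsScalarTower.of_algebraMap_eq' (RingHom.ext_rat _ _)
  -- the place
  let ψ : L →+* C := φ.comp ι
  have hψ : ∀ x : 𝓞 L, ‖ψ (x : L)‖ ≤ 1 := norm_int_le_one_aux C L ψ
  let Q : Ideal (𝓞 L) :=
    { carrier := {x | ‖ψ (x : L)‖ < 1}
      add_mem' := by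
        intro a b ha hb
        simp only [Set.mem_ofPred_eq, map_add] at ha hb ⊢
        exact lt_of_le_of_lt (IsUltrametricDist.norm_add_le_max _ _) (max_lt ha hb)
      zero_mem' := by simp
      smul_mem' := by
        intro c x hx
        simp only [Set.mem_ofPred_eq, smul_eq_mul, map_mul, norm_mul] at hx ⊢
        calc ‖ψ (c : L)‖ * ‖ψ (x : L)‖ ≤ 1 * ‖ψ (x : L)‖ :=
              mul_le_mul_of_nonneg_right (hψ c) (norm_nonneg _)
          _ < 1 := by rw [one_mul]; exact hx }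
  have hmem : ∀ x : 𝓞 L, x ∈ Q ↔ ‖ψ (x : L)‖ < 1 := fun x => Iff.rfl
  have hQtop : Q ≠ ⊤ := by
    intro h
    have h1 : (1 : 𝓞 L) ∈ Q := by rw [h]; trivial
    rw [hmem] at h1
    simp at h1
  have hQprime : Q.IsPrime := by
    refine ⟨hQtop, ?_⟩
    intro x y hxy
    by_contra hcon
    rw [not_or, hmem, hmem, not_lt, not_lt] at hcon
    rw [hmem] at hxy
    simp only [map_mul, norm_mul] at hxy
    nlinarith [hcon.1, hcon.2]
  have hpQ : (p : 𝓞 L) ∈ Q := by
    rw [hmem]
    simpa using hp1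
  have hQbot : Q ≠ ⊥ := by
    intro h
    rw [h, Ideal.mem_bot] at hpQ
    exact hp.ne_zero (by exact_mod_cast hpQ)
  have hfin : Finite (𝓞 L ⧸ Q) := Ideal.finiteQuotientOfFreeOfNeBot Q hQbot
  have hunder : Q.under ℤ = Ideal.span {(p : ℤ)} := by
    have hmax : (Ideal.span {(p : ℤ)}).IsMaximal :=
      PrincipalIdealRing.isMaximal_of_irreducible (Nat.prime_iff_prime_int.1 hp).irreducible
    have hQp : (Q.under ℤ).IsPrime := inferInstance
    refine (hmax.eq_of_le hQp.ne_top ?_).symm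
    rw [Ideal.span_singleton_le_iff_mem, Ideal.mem_comap]
    simpa using hpQ
  have hcard : Nat.card (ℤ ⧸ Q.under ℤ) = p := by
    rw [hunder, Nat.card_congr (Int.quotientSpanNatEquivZMod p).toEquiv, Nat.card_zmod]
  obtain ⟨g, hg⟩ := IsArithFrobAt.exists_of_isInvariant (R := ℤ) (G := Gal(L/ℚ)) (Q := Q)
  have hlift : ∀ x : L, (AlgEquiv.liftNormal g A).toRingEquiv (ι x) = ι (g x) := fun x =>
    AlgEquiv.liftNormal_commutes g A x
  refine ⟨(AlgEquiv.liftNormal g A).toRingEquiv, fun y hy => ?_⟩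
  obtain ⟨x, rfl⟩ := hι y hy
  have hxint : IsIntegral ℤ x := by
    obtain ⟨P, hP, hPx⟩ := hS _ hy
    refine ⟨P, hP, ι.injective ?_⟩
    rw [hom_eval₂, map_zero, ← hPx]
    congr 1
    exact RingHom.ext_int _ _
  obtain ⟨z, rfl⟩ : ∃ z : 𝓞 L, (z : L) = x := ⟨⟨x, hxint⟩, rfl⟩
  rw [hlift]
  have h3 := hg z
  rw [hcard] at h3
  have h4 : ‖ψ ((g • z - z ^ p : 𝓞 L) : L)‖ < 1 := h3
  have h5 : ψ ((g • z - z ^ p : 𝓞 L) : L) = φ (ι (g (z : L))) - φ (ι (z : L)) ^ p := by
    have h6 : ((g • z - z ^ p : 𝓞 L) : L) = g (z : L) - (z : L) ^ p := rfl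
    rw [h6, map_sub, map_pow]
    rfl
  rw [← h5]
  exact h4

end Pool.Agent.H882
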