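import Pool.Agent.H882.NvLoc
import Pool.Agent.H882.NvExt
import Pool.Agent.H882.NvGal

/-!
Frobenius automorphisms of `ℂ` for finite sets of algebraic integers.
-/

set_option autoImplicit false

namespace Pool.Agent.H882

open UpperHalfPlane H294ZP Function Pool.Agent.N135.ZO
open Pool.Agent.Y226 (ZZ ιZ ιZ_apply QA mem_QA nadd_lt nsub_le norm_le_one_of_isIntegral)

/-- the neighbours of an algebraic integer are algebraic integers -/
theorem nbr_int {l : ℕ} (hl : 0 < l) {s : ℂ} (hs : IsIntegral ℤ s) {y : ℂ} (h : y ∈ Nbr l s) :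
    IsIntegral ℤ y := by
  obtain ⟨A, τ, w, hA, hrel, hj, rfl⟩ := h
  have h1 := isogenous_integral τ w (A 0 0) (A 0 1) (A 1 0) (A 1 1)
    (by rw [← det_eq, hA]; exact_mod_cast hl) hrel
  have h2 : Algebra.IsIntegral ℤ (Algebra.adjoin ℤ {jj τ}) := by
    refine Algebra.IsIntegral.adjoin fun x hx => ?_
    rw [Set.mem_singleton_iff] at hx
    rw [hx, hj]
    exact hs
  exact isIntegral_trans (R := ℤ) (A := Algebra.adjoin ℤ {jj τ}) (jj w) h1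

section

variable {C : Type} [NormedField C] [IsUltrametricDist C]

theorem exists_sigma {p : ℕ} (hp : p.Prime) (hp1 : ‖(p : C)‖ < 1) (Ψ : ℂ →+* C) (S : Finset ℂ)
    (hS : ∀ y ∈ S, IsIntegral ℤ y) :
    ∃ σ : ℂ ≃+* ℂ, ∀ y ∈ S, ‖Ψ (σ y - y ^ p)‖ < 1 := by
  classical
  have hQ : ∀ {y : ℂ}, IsIntegral ℤ y → y ∈ QA := fun h =>
    mem_QA.2 (h.tower_top (A := ℚ)).isAlgebraic
  obtain ⟨S', hS'⟩ : ∃ S' : Finset QA, ∀ y, y ∈ S' ↔ (y : ℂ) ∈ S := by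
    have hfin : ({y : QA | (y : ℂ) ∈ S}).Finite :=
      (Finset.finite_toSet S).preimage (f := fun y : QA => (y : ℂ)) Subtype.val_injective.injOn
    exact ⟨hfin.toFinset, fun y => hfin.mem_toFinset⟩
  obtain ⟨σ₀, hσ₀⟩ := exists_frob_aut QA C (Ψ.comp (algebraMap QA ℂ)) hp hp1 S' fun y hy =>
    QA_of_int (hS _ ((hS' y).1 hy))
  obtain ⟨σ, hσ⟩ := exists_aut_ext QA σ₀
  refine ⟨σ, fun y hy => ?_⟩
  have h1 := hσ₀ ⟨y, hQ (hS y hy)⟩ ((hS' _).2 hy)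
  have h2 := hσ ⟨y, hQ (hS y hy)⟩
  have h3 : algebraMap QA ℂ ⟨y, hQ (hS y hy)⟩ = y := rfl
  rw [h3] at h2
  rw [h2, map_sub, map_pow]
  exact h1

/-- roots of unity which are congruent to `1` -/
theorem root_one {l p : ℕ} (hl : l.Prime) (hp : p.Prime) (hlp : l < p) (hp1 : ‖(p : C)‖ < 1)
    (Ψ : ℂ →+* C) {ω : ℂ} (hω : ω ^ l = 1) (h : ‖Ψ (1 - ω)‖ < 1) : ω = 1 := by
  by_contra hne
  have : Fact l.Prime := ⟨hl⟩
  have hprim : IsPrimitiveRoot ω l := by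
    rw [IsPrimitiveRoot.iff_orderOf]
    exact orderOf_eq_prime hω hne
  have hprim' := hprim.map_of_injective Ψ.injective
  have hn : ‖Ψ ω‖ = 1 := by
    have h1 : ‖Ψ ω‖ ^ l = 1 := by rw [← norm_pow, ← map_pow, hω, map_one, norm_one]
    exact (pow_eq_one_iff_of_nonneg (norm_nonneg _) hl.ne_zero).1 h1
  have h3 := hprim'.geom_sum_eq_zero hl.one_lt
  have h4 : (l : C) = ∑ j ∈ Finset.range l, (1 - (Ψ ω) ^ j) := by
    rw [Finset.sum_sub_distrib, h3, sub_zero, Finset.sum_const, Finset.card_range, nsmul_eq_mul,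
      mul_one]
  have h5 : ‖((l : ℤ) : C)‖ < 1 := by
    push_cast
    rw [h4]
    have h2 : ‖1 - Ψ ω‖ < 1 := by
      rw [map_sub, map_one] at h
      exact h
    have h6 : ∀ j ∈ Finset.range l, ‖1 - (Ψ ω) ^ j‖ < 1 := fun j _ => geo_lt hn h2 j
    refine Finset.sum_induction _ (fun z : C => ‖z‖ < 1) (fun a b ha hb => nadd_lt ha hb) ?_ h6
    rw [norm_zero]
    exact one_pos
  have h6 := dvd_of_norm hp hp1 h5
  have h7 := Nat.le_of_dvd hl.pos (Int.natCast_dvd_natCast.1 h6)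
  omega

theorem sigma_root {l p : ℕ} (hl : l.Prime) (hp : p.Prime) (hlp : l < p) (hp1 : ‖(p : C)‖ < 1)
    (Ψ : ℂ →+* C) (hd : l ∣ p - 1) {ζ : ℂ} (hζ : ζ ^ l = 1) (σ : ℂ ≃+* ℂ)
    (h : ‖Ψ (σ ζ - ζ ^ p)‖ < 1) : σ ζ = ζ := by
  have hζ0 : ζ ≠ 0 := by
    rintro rfl
    rw [zero_pow hl.ne_zero] at hζ
    exact zero_ne_one hζ
  have hpow : ζ ^ p = ζ := by
    obtain ⟨c, hc⟩ := hd
    have e : p = l * c + 1 := by
      have := hp.pos
      omega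
    rw [e, pow_add, pow_mul, hζ, one_pow, one_mul, pow_one]
  rw [hpow] at h
  have h1 : (σ ζ / ζ) ^ l = 1 := by
    rw [div_pow, ← map_pow, hζ, map_one, div_one]
  have hn : ‖Ψ ζ‖ = 1 := by
    have h1 : ‖Ψ ζ‖ ^ l = 1 := by rw [← norm_pow, ← map_pow, hζ, map_one, norm_one]
    exact (pow_eq_one_iff_of_nonneg (norm_nonneg _) hl.ne_zero).1 h1
  have h2 : ‖Ψ (1 - σ ζ / ζ)‖ < 1 := by
    have e : 1 - σ ζ / ζ = -(σ ζ - ζ) / ζ := by
      field_simp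
      ring
    rw [e, map_div₀, norm_div, hn, div_one, map_neg, norm_neg]
    exact h
  have h3 := root_one hl hp hlp hp1 Ψ h1 h2
  rw [div_eq_one_iff_eq hζ0] at h3
  exact h3

/-- the fixed neighbours -/
theorem sigma_nbr {l p : ℕ} (hl : l.Prime) (Ψ : ℂ →+* C) {s : QA} (σ : ℂ ≃+* ℂ)
    (hσs : σ (s : ℂ) = s) (hinc : ∀ y ∈ Nbr l (s : ℂ), ∀ y' ∈ Nbr l (s : ℂ), ‖Ψ (y - y')‖ < 1 → y = y')
    {y : ℂ} (hy : y ∈ Nbr l (s : ℂ)) (hyp : ‖Ψ (σ y - y ^ p)‖ < 1) :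
    σ y = y ↔ ‖Ψ (y ^ p - y)‖ < 1 := by
  constructor
  · intro h
    rw [h] at hyp
    rw [← norm_neg, ← map_neg, neg_sub]
    exact hyp
  · intro h
    have hfix : (sQ σ).toRingHom s = s := Subtype.ext hσs
    obtain ⟨u, hu⟩ : ∃ u : QA, (u : ℂ) = y := ⟨⟨y, nbr_alg hl.pos s.2 hy⟩, rfl⟩
    have hmem : ((sQ σ u : QA) : ℂ) ∈ Nbr l (s : ℂ) :=
      gal_mem hl (sQ σ).toRingHom hfix (by rw [hu]; exact hy)
    rw [sQ_apply, hu] at hmem
    refine hinc _ hmem _ hy ?_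
    have e : σ y - y = (σ y - y ^ p) + (y ^ p - y) := by ring
    rw [e, map_add]
    exact nadd_lt hyp h

end

end Pool.Agent.H882
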