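import Pool.Agent.H882.FxLine

/-!
Primes `p` and traces `a` with prescribed quadratic characters of `a ^ 2 - 4 p`.

Put `Q = 11 * r ^ 2 * ∏ i, ℓ i` (pairwise coprime factors: `ℓ i % 4 = 1`, `11 % 4 = 3`, `ℓ i < r`, `11 < r`).
By Dirichlet there is a prime `p > max B (Q ^ 2)` with `p ≡ 1 mod ℓ i` for all `i`, `p ≡ 1 mod 11` and
`p ≡ 1 + r mod r ^ 2`. Given `T`, choose `a` with `a < Q` (Chinese remainder) such that `a ≡ 2 mod 11`,
`a ≡ 2 mod r ^ 2`, `a ≡ u_i mod ℓ i` if `T i` and `a ≡ v_i mod ℓ i` otherwise, where `u ^ 2 - 4` is not a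
square and `v ^ 2 - 4` is a nonzero square modulo `ℓ i`.
-/

set_option autoImplicit false

namespace Pool.Agent.H882

namespace ExistsTraces

/-- the trace for a nonsquare -/
theorem ex_u (l : ℕ) (hl : l.Prime) (h4 : l % 4 = 1) :
    ∃ u : ℕ, ∀ z : ℤ, (l : ℤ) ∣ z - ((u : ℤ) ^ 2 - 4) → ¬ SqMod l z := by
  have : Fact l.Prime := ⟨hl⟩
  have hchar : ringChar (ZMod l) ≠ 2 := by
    rw [ZMod.ringChar_zmod_n]
    omega
  obtain ⟨c, hc⟩ := FiniteField.exists_nonsquare hchar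
  have h40 : (4 : ZMod l) ≠ 0 := by
    intro h
    have h1 : ((4 : ℕ) : ZMod l) = 0 := by exact_mod_cast h
    rw [ZMod.natCast_eq_zero_iff] at h1
    have h2 := Nat.le_of_dvd (by norm_num) h1
    have h3 := hl.two_le
    interval_cases l <;> omega
  have hex : ∃ x : ZMod l, ¬ IsSquare (x ^ 2 - 4) := by
    by_contra hcon
    push Not at hcon
    have hk : ∀ k : ℕ, IsSquare (-(4 * (k : ZMod l))) := by
      intro k
      induction k with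
      | zero => exact ⟨0, by simp⟩
      | succ k ih =>
        obtain ⟨y, hy⟩ := ih
        have h1 := hcon y
        have h2 : y ^ 2 - 4 = -(4 * ((k + 1 : ℕ) : ZMod l)) := by
          push_cast
          linear_combination -hy
        rwa [h2] at h1
    apply hc
    have h1 := hk (ZMod.val (-c / 4))
    rw [ZMod.natCast_zmod_val] at h1
    have h2 : -(4 * (-c / 4)) = c := by
      field_simp
    rwa [h2] at h1
  obtain ⟨x, hx⟩ := hex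
  refine ⟨x.val, ?_⟩
  rintro z hz ⟨r, hr⟩
  apply hx
  refine ⟨(r : ZMod l), ?_⟩
  have h1 : ((z - (((x.val : ℕ) : ℤ) ^ 2 - 4) : ℤ) : ZMod l) = 0 := (ZMod.intCast_zmod_eq_zero_iff_dvd _ _).2 hz
  have h2 : ((z - r ^ 2 : ℤ) : ZMod l) = 0 := (ZMod.intCast_zmod_eq_zero_iff_dvd _ _).2 hr
  push_cast at h1 h2
  rw [ZMod.natCast_zmod_val] at h1
  linear_combination h2 - h1

/-- the trace for a square -/
theorem ex_v (l : ℕ) (hl : l.Prime) (h4 : l % 4 = 1) :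
    ∃ v : ℕ, ∀ z : ℤ, (l : ℤ) ∣ z - ((v : ℤ) ^ 2 - 4) → SqModU l z := by
  have h5 : 5 ≤ l := by
    have h3 := hl.two_le
    omega
  obtain ⟨m, hm⟩ : ∃ m, l = 2 * m + 1 := ⟨l / 2, by omega⟩
  refine ⟨m + 3, ?_⟩
  intro z hz
  refine ⟨((m + 2 : ℕ) : ℤ), ?_, ?_⟩
  · intro h
    rw [Int.natCast_dvd_natCast] at h
    have h1 := Nat.le_of_dvd (by omega) h
    omega
  · have e : z - ((m + 2 : ℕ) : ℤ) ^ 2 = (z - (((m + 3 : ℕ) : ℤ) ^ 2 - 4)) + (l : ℤ) := by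
      rw [hm]
      push_cast
      ring
    rw [e]
    exact dvd_add hz (dvd_refl _)

/-- Chinese remainders -/
theorem crt {ι : Type} [Fintype ι] [DecidableEq ι] (ℓ : ι → ℕ)
    (hℓ : ∀ i, (ℓ i).Prime ∧ ℓ i % 4 = 1) (hinj : Function.Injective ℓ) {r : ℕ} (hr : r.Prime)
    (hr1 : ∀ i, ℓ i < r) (hr2 : 11 < r) (x : ι → ℕ) (y z : ℕ) :
    ∃ k : ℕ, k < (∏ i, ℓ i) * (11 * r ^ 2) ∧ (∀ i, k ≡ x i [MOD ℓ i]) ∧ k ≡ y [MOD 11] ∧
      k ≡ z [MOD r ^ 2] := by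
  have hpair : Set.Pairwise (↑(Finset.univ : Finset ι)) (Function.onFun Nat.Coprime ℓ) := by
    intro i _ j _ hij
    exact (Nat.coprime_primes (hℓ i).1 (hℓ j).1).2 (fun h => hij (hinj h))
  obtain ⟨k1, hk1⟩ := Nat.chineseRemainderOfFinset x ℓ Finset.univ
    (fun i _ => (hℓ i).1.ne_zero) hpair
  have h11 : Nat.Prime 11 := by norm_num
  have hc1 : Nat.Coprime 11 (r ^ 2) :=
    Nat.Coprime.pow_right 2 ((Nat.coprime_primes h11 hr).2 (by omega))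
  obtain ⟨k2, hk2, hk2'⟩ := Nat.chineseRemainder hc1 y z
  have hc2 : Nat.Coprime (∏ i, ℓ i) (11 * r ^ 2) := by
    refine Nat.Coprime.prod_left fun i _ => ?_
    refine Nat.Coprime.mul_right ?_ (Nat.Coprime.pow_right 2 ?_)
    · refine (Nat.coprime_primes (hℓ i).1 h11).2 (fun h => ?_)
      have := (hℓ i).2
      omega
    · refine (Nat.coprime_primes (hℓ i).1 hr).2 (fun h => ?_)
      have := hr1 i
      omega
  obtain ⟨k3, hk3, hk3'⟩ := Nat.chineseRemainder hc2 k1 k2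
  have hQ : 0 < (∏ i, ℓ i) * (11 * r ^ 2) :=
    Nat.mul_pos (Finset.prod_pos fun i _ => (hℓ i).1.pos) (by have := hr.pos; positivity)
  have hmod : k3 % ((∏ i, ℓ i) * (11 * r ^ 2)) ≡ k3 [MOD (∏ i, ℓ i) * (11 * r ^ 2)] := Nat.mod_modEq _ _
  refine ⟨k3 % ((∏ i, ℓ i) * (11 * r ^ 2)), Nat.mod_lt _ hQ, ?_, ?_, ?_⟩
  · intro i
    have h1 : ℓ i ∣ (∏ i, ℓ i) := Finset.dvd_prod_of_mem ℓ (Finset.mem_univ i)
    exact ((hmod.of_dvd (h1.mul_right _)).trans (hk3.of_dvd h1)).trans (hk1 i (Finset.mem_univ i))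
  · have h1 : 11 ∣ 11 * r ^ 2 := dvd_mul_right _ _
    exact ((hmod.of_dvd (h1.mul_left _)).trans (hk3'.of_dvd h1)).trans hk2
  · have h1 : r ^ 2 ∣ 11 * r ^ 2 := dvd_mul_left _ _
    exact ((hmod.of_dvd (h1.mul_left _)).trans (hk3'.of_dvd h1)).trans hk2'

end ExistsTraces

theorem exists_traces {ι : Type} [Fintype ι] [DecidableEq ι] (ℓ : ι → ℕ)
    (hℓ : ∀ i, (ℓ i).Prime ∧ ℓ i % 4 = 1) (hinj : Function.Injective ℓ) {r : ℕ} (hr : r.Prime)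
    (hr1 : ∀ i, ℓ i < r) (hr2 : 11 < r) (B : ℕ) :
    ∃ p : ℕ, p.Prime ∧ B < p ∧ (∀ i, ℓ i ∣ p - 1) ∧ ∀ T : ι → Prop, ∃ a : ℤ, a ≠ 0 ∧
      a ^ 2 < 4 * p ∧ (r : ℤ) ∣ a ^ 2 - 4 * p ∧ ¬ (r : ℤ) ^ 2 ∣ a ^ 2 - 4 * p ∧
      SqMod 11 (a ^ 2 - 4 * p) ∧ ∀ i, (T i → ¬ SqMod (ℓ i) (a ^ 2 - 4 * p)) ∧
        (¬ T i → SqModU (ℓ i) (a ^ 2 - 4 * p)) := by
  obtain ⟨Q, hQ⟩ : ∃ Q, Q = (∏ i, ℓ i) * (11 * r ^ 2) := ⟨_, rfl⟩
  have hQ0 : 0 < Q := by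
    rw [hQ]
    exact Nat.mul_pos (Finset.prod_pos fun i _ => (hℓ i).1.pos) (by have := hr.pos; positivity)
  obtain ⟨c, -, hc1, hc2, hc3⟩ := ExistsTraces.crt ℓ hℓ hinj hr hr1 hr2 (fun _ => 1) 1 (1 + r)
  have hcop : Nat.Coprime c Q := by
    rw [hQ]
    refine Nat.Coprime.mul_right (Nat.Coprime.prod_right fun i _ => ?_)
      (Nat.Coprime.mul_right ?_ (Nat.Coprime.pow_right 2 ?_))
    · exact (hc1 i).gcd_eq.trans (Nat.gcd_one_left _)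
    · exact hc2.gcd_eq.trans (Nat.gcd_one_left _)
    · have h1 : c ≡ 1 + r [MOD r] := hc3.of_dvd (dvd_pow_self r two_ne_zero)
      have h2 : Nat.gcd c r = Nat.gcd (1 + r) r := h1.gcd_eq
      rw [Nat.Coprime, h2]
      simp
  have : NeZero Q := ⟨hQ0.ne'⟩
  obtain ⟨p, hpB, hp, hpc⟩ := Nat.forall_exists_prime_gt_and_eq_mod (q := Q) (a := (c : ZMod Q))
    ((ZMod.isUnit_iff_coprime c Q).2 hcop) (max B (Q ^ 2))
  rw [ZMod.natCast_eq_natCast_iff] at hpc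
  have hd1 : ∀ i, ℓ i ∣ Q := by
    intro i
    rw [hQ]
    exact (Finset.dvd_prod_of_mem ℓ (Finset.mem_univ i)).mul_right _
  have hd2 : 11 ∣ Q := by
    rw [hQ]
    exact (dvd_mul_right 11 (r ^ 2)).mul_left _
  have hd3 : r ^ 2 ∣ Q := by
    rw [hQ]
    exact (dvd_mul_left (r ^ 2) 11).mul_left _
  have hp1 : ∀ i, p ≡ 1 [MOD ℓ i] := fun i => (hpc.of_dvd (hd1 i)).trans (hc1 i)
  have hp2 : p ≡ 1 [MOD 11] := (hpc.of_dvd hd2).trans hc2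
  have hp3 : p ≡ 1 + r [MOD r ^ 2] := (hpc.of_dvd hd3).trans hc3
  refine ⟨p, hp, lt_of_le_of_lt (le_max_left _ _) hpB, ?_, ?_⟩
  · intro i
    exact (Nat.modEq_iff_dvd' hp.one_le).1 (hp1 i).symm
  intro T
  choose u hu using fun i => ExistsTraces.ex_u (ℓ i) (hℓ i).1 (hℓ i).2
  choose v hv using fun i => ExistsTraces.ex_v (ℓ i) (hℓ i).1 (hℓ i).2
  classical
  obtain ⟨a, haQ, ha1, ha2, ha3⟩ := ExistsTraces.crt ℓ hℓ hinj hr hr1 hr2
    (fun i => if T i then u i else v i) 2 2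
  rw [← hQ] at haQ
  have hp1' : ∀ i, (ℓ i : ℤ) ∣ (p : ℤ) - 1 := by
    intro i
    have h1 := (Nat.modEq_iff_dvd.1 (hp1 i).symm)
    exact_mod_cast h1
  have hp2' : (11 : ℤ) ∣ (p : ℤ) - 1 := by
    have h1 := (Nat.modEq_iff_dvd.1 hp2.symm)
    exact_mod_cast h1
  have hp3' : ((r : ℤ) ^ 2) ∣ (p : ℤ) - (1 + r) := by
    have h1 := (Nat.modEq_iff_dvd.1 hp3.symm)
    exact_mod_cast h1
  have ha2' : (11 : ℤ) ∣ (a : ℤ) - 2 := by
    have h1 := (Nat.modEq_iff_dvd.1 ha2.symm)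
    exact_mod_cast h1
  have ha3' : ((r : ℤ) ^ 2) ∣ (a : ℤ) - 2 := by
    have h1 := (Nat.modEq_iff_dvd.1 ha3.symm)
    exact_mod_cast h1
  refine ⟨(a : ℤ), ?_, ?_, ?_, ?_, ?_, ?_⟩
  · intro h0
    rw [h0] at ha2'
    norm_num at ha2'
  · have h1 : a ^ 2 < Q ^ 2 := Nat.pow_lt_pow_left haQ two_ne_zero
    have h2 : Q ^ 2 < p := lt_of_le_of_lt (le_max_right _ _) hpB
    have h3 : a ^ 2 < 4 * p := by omega
    exact_mod_cast h3
  · obtain ⟨s, hs⟩ := hp3'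
    obtain ⟨t, ht⟩ := ha3'
    refine ⟨r * t * (a + 2) - 4 * (1 + r * s), ?_⟩
    have e1 : (a : ℤ) = r ^ 2 * t + 2 := by linarith
    have e2 : (p : ℤ) = 1 + r + r ^ 2 * s := by linarith
    rw [e2]
    linear_combination ((a : ℤ) + 2) * ht
  · intro h
    obtain ⟨s, hs⟩ := hp3'
    obtain ⟨t, ht⟩ := ha3'
    obtain ⟨w, hw⟩ := h
    have e2 : (p : ℤ) = 1 + r + r ^ 2 * s := by linarith
    have h1 : (r : ℤ) * (4 : ℤ) = r * (r * (t * (a + 2) - 4 * s - w)) := by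
      rw [e2] at hw
      linear_combination ((a : ℤ) + 2) * ht - hw
    have hr0 : (r : ℤ) ≠ 0 := by exact_mod_cast hr.ne_zero
    have h2 : (r : ℤ) ∣ 4 := ⟨_, mul_left_cancel₀ hr0 h1⟩
    have h3 : (r : ℤ) ≤ 4 := Int.le_of_dvd (by norm_num) h2
    have h4 : (11 : ℤ) < r := by exact_mod_cast hr2
    linarith
  · refine ⟨0, ?_⟩
    obtain ⟨s, hs⟩ := hp2'
    obtain ⟨t, ht⟩ := ha2'
    refine ⟨t * (a + 2) - 4 * s, ?_⟩
    push_cast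
    linear_combination ((a : ℤ) + 2) * ht - 4 * hs
  · intro i
    have hai : (ℓ i : ℤ) ∣ (a : ℤ) - ((if T i then u i else v i : ℕ) : ℤ) :=
      Nat.modEq_iff_dvd.1 (ha1 i).symm
    obtain ⟨s, hs⟩ := hp1' i
    obtain ⟨t, ht⟩ := hai
    constructor
    · intro hT
      rw [if_pos hT] at ht
      refine hu i _ ⟨t * (a + u i) - 4 * s, ?_⟩
      linear_combination ((a : ℤ) + u i) * ht - 4 * hs
    · intro hT
      rw [if_neg hT] at ht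
      refine hv i _ ⟨t * (a + v i) - 4 * s, ?_⟩
      linear_combination ((a : ℤ) + v i) * ht - 4 * hs

end Pool.Agent.H882
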