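import Pool.Agent.H882.NvSpec
import Pool.Agent.H882.NvPrime

/-!
The neighbours of an integer which is congruent to a singular modulus with an endomorphism of degree `p`.
-/

set_option autoImplicit false

namespace Pool.Agent.H882

open UpperHalfPlane H294ZP Function Pool.Agent.N135.ZO
open Pool.Agent.Y226 (ZZ ιZ ιZ_apply QA mem_QA nadd_lt nsub_le norm_le_one_of_isIntegral)

/-- the matrix with the characteristic polynomial `X ^ 2 - a X + p` -/
def Mt (a p : ℤ) : M2 := !![a, -p; 1, 0]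

theorem Mt_det (a p : ℤ) : (Mt a p).det = p := by
  simp [Mt, Matrix.det_fin_two_of]

theorem Mt_trace (a p : ℤ) : (Mt a p).trace = a := by
  simp [Mt, Matrix.trace_fin_two]

/-- the fixed point -/
theorem exists_Mt {a : ℤ} {p : ℕ} (h : a ^ 2 < 4 * p) : ∃ t : ℍ, Rel (Mt a p) t t := by
  have hpos : (0 : ℝ) < 4 * p - a ^ 2 := by
    have : ((a ^ 2 : ℤ) : ℝ) < ((4 * p : ℤ) : ℝ) := by exact_mod_cast h
    push_cast at this
    linarith
  obtain ⟨s, hs⟩ : ∃ s : ℝ, s = Real.sqrt (4 * p - a ^ 2) := ⟨_, rfl⟩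
  have hs0 : 0 < s := by
    rw [hs]
    exact Real.sqrt_pos.2 hpos
  have hs2 : s ^ 2 = 4 * p - a ^ 2 := by
    rw [hs]
    exact Real.sq_sqrt hpos.le
  have him : 0 < (((a : ℂ) + s * Complex.I) / 2).im := by
    have : (((a : ℂ) + s * Complex.I) / 2).im = s / 2 := by simp
    rw [this]
    positivity
  refine ⟨⟨((a : ℂ) + s * Complex.I) / 2, him⟩, ?_⟩
  simp only [Mt, N135.ZO.Rel, N135.ZO.den, N135.ZO.num, Matrix.of_apply, Matrix.cons_val',
    Matrix.cons_val_zero, Matrix.cons_val_one, Matrix.cons_val_fin_one]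
  have hs2' : (s : ℂ) ^ 2 = 4 * p - (a : ℂ) ^ 2 := by
    have := congrArg (fun z : ℝ => (z : ℂ)) hs2
    push_cast at this
    exact this
  push_cast
  linear_combination ((1 : ℂ) / 4) * (s : ℂ) ^ 2 * Complex.I_sq - ((1 : ℂ) / 4) * hs2'

/-- a fixed line gives a square -/
theorem sqmod_of_fixd {l : ℕ} (hl : l.Prime) {M : M2} {k : Option (Fin l)} (h : Fixd l M k) :
    SqMod l (M.trace ^ 2 - 4 * M.det) := by
  have : Fact l.Prime := ⟨hl⟩
  cases k with
  | none =>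
    rw [fixd_none] at h
    refine ⟨M 0 0 - M 1 1, ?_⟩
    rw [disc_eq]
    obtain ⟨c, hc⟩ := h
    exact ⟨4 * M 0 1 * c, by rw [hc]; ring⟩
  | some b =>
    rw [fixd_some hl.pos] at h
    refine ⟨2 * M 1 0 * (b : ℕ) + (M 0 0 - M 1 1), ?_⟩
    rw [disc_eq]
    obtain ⟨c, hc⟩ := h
    refine ⟨-4 * M 1 0 * c, ?_⟩
    linear_combination (-4 * M 1 0) * hc

/-- the number of fixed lines -/
theorem two_fixd {l : ℕ} (hl : l.Prime) (hl2 : l ≠ 2) {a p : ℤ} (h : SqModU l (a ^ 2 - 4 * p)) :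
    {k : Option (Fin l) | Fixd l (Mt a p) k}.ncard = 2 := by
  have : Fact l.Prime := ⟨hl⟩
  have : NeZero l := ⟨hl.ne_zero⟩
  obtain ⟨r, hr1, hr2⟩ := h
  rw [← ZMod.intCast_zmod_eq_zero_iff_dvd] at hr1 hr2
  push_cast at hr2
  have h2 : (2 : ZMod l) ≠ 0 := by
    intro h
    have h1 : ((2 : ℕ) : ZMod l) = 0 := by exact_mod_cast h
    rw [ZMod.natCast_eq_zero_iff] at h1
    exact hl2 ((Nat.prime_dvd_prime_iff_eq hl Nat.prime_two).1 h1)
  have hex : ∀ z : ZMod l, ∃ b : Fin l, (((b : ℕ) : ZMod l)) = z := fun z =>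
    ⟨⟨z.val, ZMod.val_lt z⟩, ZMod.natCast_zmod_val z⟩
  have hin : ∀ b b' : Fin l, (((b : ℕ) : ZMod l)) = ((b' : ℕ) : ZMod l) → b = b' := by
    intro b b' h
    rw [ZMod.natCast_eq_natCast_iff] at h
    exact Fin.ext (Nat.ModEq.eq_of_lt_of_lt h b.2 b'.2)
  obtain ⟨b₁, hb₁⟩ := hex (((r : ZMod l) - (a : ZMod l)) / 2)
  obtain ⟨b₂, hb₂⟩ := hex ((-(r : ZMod l) - (a : ZMod l)) / 2)
  have e1 : 2 * ((b₁ : ℕ) : ZMod l) = (r : ZMod l) - (a : ZMod l) := by
    rw [hb₁]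
    field_simp
  have e2 : 2 * ((b₂ : ℕ) : ZMod l) = -(r : ZMod l) - (a : ZMod l) := by
    rw [hb₂]
    field_simp
  have hne : b₁ ≠ b₂ := by
    intro h
    rw [h, e2] at e1
    have h3 : (2 : ZMod l) * (r : ZMod l) = 0 := by linear_combination -e1
    rcases mul_eq_zero.1 h3 with h4 | h4
    · exact h2 h4
    · exact hr1 h4
  have hfix : ∀ b : Fin l, Fixd l (Mt a p) (some b) ↔
      ((b : ℕ) : ZMod l) ^ 2 + (a : ZMod l) * ((b : ℕ) : ZMod l) + (p : ZMod l) = 0 := by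
    intro b
    rw [fixd_some hl.pos, ← ZMod.intCast_zmod_eq_zero_iff_dvd]
    simp only [Mt, Matrix.of_apply, Matrix.cons_val', Matrix.cons_val_zero, Matrix.cons_val_one,
      Matrix.cons_val_fin_one]
    push_cast
    rw [one_mul, sub_zero, sub_neg_eq_add]
  have h4 : (4 : ZMod l) ≠ 0 := by
    have : (4 : ZMod l) = 2 * 2 := by norm_num
    rw [this]
    exact mul_ne_zero h2 h2
  have hset : {k : Option (Fin l) | Fixd l (Mt a p) k} = {some b₁, some b₂} := by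
    ext k
    rw [Set.mem_ofPred_eq, Set.mem_insert_iff, Set.mem_singleton_iff]
    cases k with
    | none =>
      constructor
      · intro h
        rw [fixd_none] at h
        exfalso
        simp only [Mt, Matrix.of_apply, Matrix.cons_val', Matrix.cons_val_zero,
          Matrix.cons_val_one, Matrix.cons_val_fin_one] at h
        have h5 := Int.le_of_dvd one_pos h
        have h6 := hl.one_lt
        omega
      · rintro (h | h)
        · exact absurd h (Option.some_ne_none _).symm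
        · exact absurd h (Option.some_ne_none _).symm
    | some b =>
      rw [hfix]
      constructor
      · intro h
        have h5 : (2 * ((b : ℕ) : ZMod l) + (a : ZMod l) - (r : ZMod l)) *
            (2 * ((b : ℕ) : ZMod l) + (a : ZMod l) + (r : ZMod l)) = 0 := by
          linear_combination 4 * h + hr2
        rcases mul_eq_zero.1 h5 with h6 | h6
        · left
          congr 1
          refine hin _ _ (mul_left_cancel₀ h2 ?_)
          rw [e1]
          linear_combination h6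
        · right
          congr 1
          refine hin _ _ (mul_left_cancel₀ h2 ?_)
          rw [e2]
          linear_combination h6
      · rintro (h | h)
        · rw [Option.some.inj h]
          refine (mul_eq_zero.1 ?_).resolve_left h4
          linear_combination (2 * ((b₁ : ℕ) : ZMod l) + (r : ZMod l) + (a : ZMod l)) * e1 - hr2
        · rw [Option.some.inj h]
          refine (mul_eq_zero.1 ?_).resolve_left h4
          linear_combination (2 * ((b₂ : ℕ) : ZMod l) - (r : ZMod l) + (a : ZMod l)) * e2 - hr2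
  rw [hset]
  exact Set.ncard_pair (fun h => hne (Option.some.inj h))

section

variable {C : Type} [NormedField C] [IsUltrametricDist C] [CompleteSpace C] [CharZero C]
  [IsAlgClosed C]

/-- the neighbours are not congruent -/
theorem nbr_incong {p l : ℕ} (hp : p.Prime) (hp3 : 3 < p) (hp1 : ‖(p : C)‖ < 1) (Ψ : ℂ →+* C)
    (hl : l.Prime) (hroot : ∀ τ : ℍ, ‖Ψ (nd hl.pos τ)‖ < 1 → ∃ (τ' : ℍ) (T : M2),
      T.det = (l ^ 2 : ℕ) ∧ Rel T τ' τ' ∧ T 1 0 ≠ 0 ∧ ‖Ψ (jj τ' - jj τ)‖ < 1)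
    {t : ℍ} {M : M2} (hM : M.det = p) (hrel : Rel M t t) (htr : M.trace ≠ 0)
    (h0 : ‖Ψ (jj t)‖ = 1) (h1 : ‖Ψ (jj t - 1728)‖ = 1) {r : ℕ} (hr : r.Prime)
    (hrl : 4 * l ^ 2 < r)
    (hr1 : (r : ℤ) ∣ M.trace ^ 2 - 4 * p) (hr2 : ¬ (r : ℤ) ^ 2 ∣ M.trace ^ 2 - 4 * p)
    {k k' : Option (Fin l)} (hkk : ‖Ψ (jj (hh hl.pos k t) - jj (hh hl.pos k' t))‖ < 1) :
    k = k' := by
  by_contra hne
  have hp2 : p ≠ 2 := by omega
  obtain ⟨P⟩ := exists_pkg hp hp2
  have hpV : (VF Ψ).valuation (p : ℂ) < 1 := by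
    rw [VF_lt_one, map_natCast]
    exact hp1
  have hcmt : IsCM t := isCM_of_fix hp hM hrel
  have hG : G0 P (VF Ψ) (jj t) := G0_of hp hp1 P Ψ (ordAt_of_trace hp hp3 hM hrel htr) h0 h1
  obtain ⟨τ', T, hT, hTrel, hT0, hlt⟩ := hroot t (nd_lt hl Ψ h0.le hne hkk)
  have hiso := cm_isog hp hp2 hpV P hcmt (isCM_of_T hTrel hT0) hG (VF_lt_one.2 hlt)
  obtain ⟨Z, hZ⟩ := sq_isog2 hp (z := jj t) (z' := jj τ') ⟨t, M, hM, rfl, hrel, rfl⟩
    ⟨τ', T, hT, rfl, hTrel, rfl⟩ hiso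
  refine odd_val hr hr1 hr2 (fun h => ?_) hZ
  have hd := H610.disc_pos τ' (T 1 0) (T 1 1 - T 0 0) (-T 0 1) hT0 (rel_quad hTrel)
  have e : T.trace ^ 2 - 4 * ((l ^ 2 : ℕ) : ℤ) = -(4 * (T 1 0) * (-T 0 1) - (T 1 1 - T 0 0) ^ 2) := by
    rw [← hT, det_eq, Matrix.trace_fin_two]
    ring
  have hd' : (0 : ℤ) < 4 * (T 1 0) * (-T 0 1) - (T 1 1 - T 0 0) ^ 2 := by exact_mod_cast hd
  have h5 : (r : ℤ) ∣ 4 * ((l ^ 2 : ℕ) : ℤ) - T.trace ^ 2 := by
    rw [← neg_sub]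
    exact (dvd_neg).2 h
  have h6 := Int.le_of_dvd (by linarith) h5
  have h7 : ((4 * l ^ 2 : ℕ) : ℤ) < r := by exact_mod_cast hrl
  push_cast at h6 h7
  have h8 := sq_nonneg T.trace
  linarith

/-- Everything about the neighbours of `s`. -/
theorem nbr_of_near {p l : ℕ} (hp : p.Prime) (hp2 : p ≠ 2) (hp1 : ‖(p : C)‖ < 1) (Ψ : ℂ →+* C)
    (hl : l.Prime) {t : ℍ} {M : M2} (hM : M.det = p) (hrel : Rel M t t)
    (hinc : ∀ k k' : Option (Fin l), ‖Ψ (jj (hh hl.pos k t) - jj (hh hl.pos k' t))‖ < 1 → k = k')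
    {s : ℂ} (hs : ‖Ψ s‖ ≤ 1) (hnear : ‖Ψ (jj t - s)‖ < 1) :
    (Nbr l s).ncard = l + 1 ∧
    (∀ y ∈ Nbr l s, ∀ y' ∈ Nbr l s, ‖Ψ (y - y')‖ < 1 → y = y') ∧
    ((∀ k, ¬ Fixd l M k) → ∀ y ∈ Nbr l s, ¬ ‖Ψ (y ^ p - y)‖ < 1) ∧
    ({k | Fixd l M k}.ncard = 2 → {y | y ∈ Nbr l s ∧ ‖Ψ (y ^ p - y)‖ < 1}.ncard = 2) := by
  classical
  have hlZ : (0 : ℤ) < l := by exact_mod_cast hl.pos
  have hpV : (VF Ψ).valuation (p : ℂ) < 1 := by
    rw [VF_lt_one, map_natCast]
    exact hp1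
  obtain ⟨τ, hτ⟩ := Pool.Agent.Q223.UV.jj_surj s
  have hcmt : IsCM t := isCM_of_fix hp hM hrel
  have htV : jj t ∈ VF Ψ :=
    VF_mem.2 (norm_le_one_of_isIntegral Ψ (singular_modulus_integral _ hcmt))
  have hτV : jj τ ∈ VF Ψ := by
    rw [hτ]
    exact VF_mem.2 hs
  have hy : ∀ k : Option (Fin l), jj (hh hl.pos k t) ∈ VF Ψ := fun k =>
    rel_mem (M := gk l k) (by rw [det_gk]; exact hlZ) (rel_hh hl.pos k t) htV
  have hyτ : ∀ k : Option (Fin l), jj (hh hl.pos k τ) ∈ VF Ψ := fun k =>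
    rel_mem (M := gk l k) (by rw [det_gk]; exact hlZ) (rel_hh hl.pos k τ) hτV
  have hlt : (VF Ψ).valuation (jj t - jj τ) < 1 := by
    rw [hτ]
    exact VF_lt_one.2 hnear
  have hex : ∀ k : Option (Fin l), ∃ k' : Option (Fin l),
      (VF Ψ).valuation (jj (hh hl.pos k t) - jj (hh hl.pos k' τ)) < 1 := fun k =>
    near_nbr hl htV hτV hlt (det_gk l k) (rel_hh hl.pos k t)
  choose κ hκ using hex
  have hinc' : ∀ k k' : Option (Fin l),
      (VF Ψ).valuation (jj (hh hl.pos k t) - jj (hh hl.pos k' t)) < 1 → k = k' :=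
    fun k k' h => hinc k k' (VF_lt_one.1 h)
  have hinj : Function.Injective κ := by
    intro k k' h
    have h1 := hκ k
    rw [h] at h1
    exact hinc' k k' (cg_trans h1 (cg_symm (hκ k')))
  have hsurj : Function.Surjective κ := Finite.surjective_of_injective hinj
  have hτinc : ∀ k k' : Option (Fin l),
      (VF Ψ).valuation (jj (hh hl.pos k τ) - jj (hh hl.pos k' τ)) < 1 → k = k' := by
    intro k k' h
    obtain ⟨m, rfl⟩ := hsurj k
    obtain ⟨m', rfl⟩ := hsurj k'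
    rw [hinc' m m' (cg_trans (cg_trans (hκ m) h) (cg_symm (hκ m')))]
  have hf : ∀ k : Option (Fin l), Fixd l M k ↔
      (VF Ψ).valuation (jj (hh hl.pos (κ k) τ) ^ p - jj (hh hl.pos (κ k) τ)) < 1 := by
    intro k
    constructor
    · intro h
      have h2 := fix_cong hp hp2 hpV hl htV hM hrel h
      exact cg_trans (cg_trans (cg_pow (hyτ _) (hy _) (cg_symm (hκ k)) p) h2) (hκ k)
    · intro h
      have h2 : (VF Ψ).valuation (jj (hh hl.pos k t) ^ p - jj (hh hl.pos k t)) < 1 :=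
        cg_trans (cg_trans (cg_pow (hy _) (hyτ _) (hκ k) p) h) (cg_symm (hκ k))
      obtain ⟨k', hk1, hk2⟩ := cong_fix hp hp2 hpV hl htV hM hrel h2
      exact hk2 (hinc' _ _ hk1).symm
  have hinjf : Function.Injective fun k => jj (hh hl.pos k τ) := by
    intro k k' h
    refine hτinc k k' ?_
    simp only at h
    rw [h, sub_self, map_zero]
    exact zero_lt_one
  refine ⟨?_, ?_, ?_, ?_⟩
  · rw [nbr_range hl hτ, ← Set.image_univ, Set.ncard_image_of_injective _ hinjf, Set.ncard_univ,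
      Nat.card_eq_fintype_card, Fintype.card_option, Fintype.card_fin]
  · intro y hy1 y' hy1' h
    obtain ⟨k, rfl⟩ := (mem_nbr hl hτ).1 hy1
    obtain ⟨k', rfl⟩ := (mem_nbr hl hτ).1 hy1'
    rw [hτinc k k' (VF_lt_one.2 h)]
  · intro hno y hy1 h
    obtain ⟨k, rfl⟩ := (mem_nbr hl hτ).1 hy1
    obtain ⟨m, rfl⟩ := hsurj k
    exact hno m ((hf m).2 (VF_lt_one.2 h))
  · intro h2
    have hset : {y | y ∈ Nbr l s ∧ ‖Ψ (y ^ p - y)‖ < 1} =
        (fun k => jj (hh hl.pos (κ k) τ)) '' {k | Fixd l M k} := by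
      ext y
      constructor
      · rintro ⟨hy1, h⟩
        obtain ⟨k, rfl⟩ := (mem_nbr hl hτ).1 hy1
        obtain ⟨m, rfl⟩ := hsurj k
        exact ⟨m, (hf m).2 (VF_lt_one.2 h), rfl⟩
      · rintro ⟨m, hm, rfl⟩
        exact ⟨(mem_nbr hl hτ).2 ⟨κ m, rfl⟩, VF_lt_one.1 ((hf m).1 hm)⟩
    rw [hset, ← h2]
    exact Set.ncard_image_of_injective {k | Fixd l M k} (hinjf.comp hinj)

end

end Pool.Agent.H882
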