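import Pool.Agent.H882.Crit

/-!
The polynomial with the roots `2^12 Δ(2τ)/Δ(τ)`, `Δ(τ/2)/Δ(τ)`, `Δ((τ+1)/2)/Δ(τ)`:
`u ^ 3 + 48 u ^ 2 + (768 - j) u + 4096`.
-/

set_option autoImplicit false

namespace Pool.Agent.H882

open UpperHalfPlane H294ZP Function Pool.Agent.N135.ZO ModularForm

/-- factorization of an isogeny -/
theorem fac {l : ℕ} (hl : 0 < l) {M C : M2} {k : Option (Fin l)} (hM : M = C * gk l k)
    (hC : 0 < C.det) {τ w : ℍ} (h : N135.ZO.Rel M τ w) : N135.ZO.Rel C (hh hl k τ) w ∧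
      GG M τ w = GG C (hh hl k τ) w * uu hl k τ := by
  have hlZ : (0 : ℤ) < l := by exact_mod_cast hl
  have hMpos : 0 < M.det := by
    rw [hM, det_mul', det_gk]
    exact mul_pos hC hlZ
  obtain ⟨z, hz⟩ := exists_rel hC (hh hl k τ)
  have r := (rel_hh hl k τ).mul hz
  rw [← hM] at r
  have hzw : w = z := Rel.unique hMpos h r
  subst hzw
  refine ⟨hz, ?_⟩
  have := GG_mul hC (by rw [det_gk]; exact hlZ) (z := w) (rel_hh hl k τ)
  rw [← hM] at this
  exact this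

/-- an endomorphism `M` of `τ` with `g_k M = C g_k'` -/
theorem endo_uu {l : ℕ} (hl : 0 < l) {M C : M2} {k k' : Option (Fin l)}
    (h : gk l k * M = C * gk l k') (hC : 0 < C.det) (hM : 0 < M.det) {τ : ℍ}
    (hτ : N135.ZO.Rel M τ τ) : N135.ZO.Rel C (hh hl k' τ) (hh hl k τ) ∧
      uu hl k τ * GG M τ τ = GG C (hh hl k' τ) (hh hl k τ) * uu hl k' τ := by
  have hlZ : (0 : ℤ) < l := by exact_mod_cast hl
  have r := hτ.mul (rel_hh hl k τ)
  have h1 := fac hl (M := gk l k * M) h hC r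
  refine ⟨h1.1, ?_⟩
  rw [← h1.2]
  have := GG_mul (A := gk l k) (B := M) (by rw [det_gk]; exact hlZ) hM (z := hh hl k τ) hτ
  rw [this]
  rfl

/-- the transformation of `E₄` and `E₆` -/
theorem E4_rel {M : M2} (hM : M.det = 1) {τ w : ℍ} (h : N135.ZO.Rel M τ w) :
    E₄ w = N135.ZO.den M τ ^ 4 * E₄ τ ∧ E₆ w = N135.ZO.den M τ ^ 6 * E₆ τ := by
  have hdet : M 0 0 * M 1 1 - M 0 1 * M 1 0 = 1 := by rw [← det_eq, hM]
  have hM' : !![M 0 0, M 0 1; M 1 0, M 1 1] = M := (Matrix.eta_fin_two M).symm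
  let γ : Matrix.SpecialLinearGroup (Fin 2) ℤ := ⟨!![M 0 0, M 0 1; M 1 0, M 1 1], by
    rw [Matrix.det_fin_two_of]; exact hdet⟩
  have hden : UpperHalfPlane.denom γ τ = N135.ZO.den M τ := by
    rw [ModularGroup.denom_apply]
    simp [γ, N135.ZO.den]
  have hw : w = γ • τ := by
    apply UpperHalfPlane.ext
    rw [coe_specialLinearGroup_apply]
    have hne : N135.ZO.den M τ ≠ 0 := den_ne (by rw [hM]; norm_num) τ
    have h2 : (w : ℂ) = N135.ZO.num M τ / N135.ZO.den M τ := by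
      rw [eq_div_iff hne]; exact h
    rw [h2]
    simp [γ, N135.ZO.num, N135.ZO.den]
  have h4 : E₄ (γ • τ) = (UpperHalfPlane.denom γ τ) ^ (4 : ℤ) * E₄ τ :=
    SlashInvariantForm.slash_action_eqn' E₄ (MonoidHom.mem_range.mpr ⟨γ, rfl⟩) τ
  have h6 : E₆ (γ • τ) = (UpperHalfPlane.denom γ τ) ^ (6 : ℤ) * E₆ τ :=
    SlashInvariantForm.slash_action_eqn' E₆ (MonoidHom.mem_range.mpr ⟨γ, rfl⟩) τ
  rw [hw, h4, h6, hden]
  exact ⟨by norm_cast, by norm_cast⟩

/-- the primitive sixth root of unity -/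
noncomputable def ρ6 : ℍ := ⟨(1 + Real.sqrt 3 * Complex.I) / 2, by
  have : ((1 + (Real.sqrt 3 : ℂ) * Complex.I) / 2).im = Real.sqrt 3 / 2 := by
    simp
  rw [this]
  positivity⟩

theorem ρ6_eq : (ρ6 : ℂ) ^ 2 - ρ6 + 1 = 0 := by
  have h : (ρ6 : ℂ) = (1 + Real.sqrt 3 * Complex.I) / 2 := rfl
  have h3 : ((Real.sqrt 3 : ℝ) : ℂ) ^ 2 = 3 := by
    have : (Real.sqrt 3) ^ 2 = (3 : ℝ) := Real.sq_sqrt (by norm_num)
    exact_mod_cast congrArg (fun z : ℝ => (z : ℂ)) this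
  rw [h]
  linear_combination (-(1 : ℂ) / 4) * h3 + (1 / 4) * (Real.sqrt 3 : ℂ) ^ 2 * Complex.I_sq

theorem jj_rho : jj ρ6 = 0 := by
  have hrel : N135.ZO.Rel !![1, -1; 1, 0] ρ6 ρ6 := by
    simp only [N135.ZO.Rel, N135.ZO.den, N135.ZO.num, Matrix.of_apply, Matrix.cons_val',
      Matrix.cons_val_zero, Matrix.cons_val_one, Matrix.cons_val_fin_one]
    push_cast
    linear_combination ρ6_eq
  have h := (E4_rel (M := !![1, -1; 1, 0]) (by simp [Matrix.det_fin_two_of]) hrel).1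
  have hd : N135.ZO.den !![1, -1; 1, 0] ρ6 = ρ6 := by
    simp [N135.ZO.den]
  rw [hd] at h
  have h4 : (ρ6 : ℂ) ^ 4 = -ρ6 := by
    linear_combination ((ρ6 : ℂ) ^ 2 + ρ6) * ρ6_eq
  rw [h4] at h
  have h5 : (1 + (ρ6 : ℂ)) * E₄ ρ6 = 0 := by linear_combination h
  have h6 : E₄ ρ6 = 0 := by
    rcases mul_eq_zero.1 h5 with h7 | h7
    · exfalso
      have h8 := ρ6_eq
      have h9 : (ρ6 : ℂ) = -1 := by linear_combination h7
      rw [h9] at h8
      norm_num at h8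
    · exact h7
  unfold jj
  rw [h6]
  simp

theorem jj_I : jj UpperHalfPlane.I = 1728 := by
  have hI : ((UpperHalfPlane.I : ℍ) : ℂ) = Complex.I := rfl
  have hrel : N135.ZO.Rel !![0, -1; 1, 0] UpperHalfPlane.I UpperHalfPlane.I := by
    simp only [N135.ZO.Rel, N135.ZO.den, N135.ZO.num, Matrix.of_apply, Matrix.cons_val',
      Matrix.cons_val_zero, Matrix.cons_val_one, Matrix.cons_val_fin_one]
    rw [hI]
    push_cast
    linear_combination Complex.I_sq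
  have h := (E4_rel (M := !![0, -1; 1, 0]) (by simp [Matrix.det_fin_two_of]) hrel).2
  have hd : N135.ZO.den !![0, -1; 1, 0] UpperHalfPlane.I = Complex.I := by
    simp [N135.ZO.den]
  rw [hd] at h
  have h4 : Complex.I ^ 6 = -1 := by
    have : Complex.I ^ 6 = (Complex.I ^ 2) ^ 3 := by ring
    rw [this, Complex.I_sq]
    norm_num
  rw [h4] at h
  have h6 : E₆ UpperHalfPlane.I = 0 := by
    have : 2 * E₆ UpperHalfPlane.I = 0 := by linear_combination h
    simpa using this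
  have h7 := E6_sq UpperHalfPlane.I
  rw [h6] at h7
  have h8 := discriminant_ne_zero UpperHalfPlane.I
  have h9 : jj UpperHalfPlane.I - 1728 = 0 := by
    have : (jj UpperHalfPlane.I - 1728) * discriminant UpperHalfPlane.I = 0 := by
      rw [← h7]
      norm_num
    exact (mul_eq_zero.1 this).resolve_right h8
  linear_combination h9

/-- abbreviation -/
noncomputable abbrev u2 (k : Option (Fin 2)) (τ : ℍ) : ℂ := uu (l := 2) (by norm_num) k τ

theorem qq_sq (τ : ℍ) : qq 1 τ = qq 2 τ ^ 2 := by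
  unfold qq
  rw [← Complex.exp_nat_mul]
  congr 1
  push_cast
  ring

theorem qq_h2 (b : Fin 2) (τ : ℍ) :
    qq 1 (hh (l := 2) (by norm_num) (some b) τ) = (-1) ^ (b : ℕ) * qq 2 τ := by
  have h1 := hh_mul (l := 2) (by norm_num) (some b) τ
  simp only [kd, ka, kb] at h1
  have h2 : (hh (l := 2) (by norm_num) (some b) τ : ℂ) = (τ + (b : ℕ)) / 2 := by
    rw [eq_div_iff (by norm_num : (2 : ℂ) ≠ 0)]
    push_cast at h1 ⊢
    rw [h1]
    ring
  unfold qq
  rw [h2]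
  have h3 : 2 * (Real.pi : ℂ) * Complex.I * (((τ : ℂ) + (b : ℕ)) / 2) / (1 : ℕ) =
      (b : ℕ) * (Real.pi * Complex.I) + 2 * Real.pi * Complex.I * τ / (2 : ℕ) := by
    push_cast
    ring
  rw [h3, Complex.exp_add, Complex.exp_nat_mul, Complex.exp_pi_mul_I]

theorem qq_h0 (τ : ℍ) : qq 1 (hh (l := 2) (by norm_num) none τ) = qq 2 τ ^ 4 := by
  have h1 := hh_mul (l := 2) (by norm_num) none τ
  simp only [kd, ka, kb] at h1
  have h2 : (hh (l := 2) (by norm_num) none τ : ℂ) = 2 * τ := by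
    push_cast at h1
    linear_combination h1
  unfold qq
  rw [h2, ← Complex.exp_nat_mul]
  congr 1
  push_cast
  ring

theorem lau_u2_some (b : Fin 2) : Lau 2 1 ((-1) ^ (b : ℕ)) (u2 (some b)) := by
  have h1 := lau_U_hh (l := 2) (by norm_num) (some b)
  have h2 := H610.lau_reindex (N := 2) (by norm_num) lau_V
  have h3 := tc.2.2.2.1 2 0 (2 * 0) 1 1 _ _ (by norm_num) h1 h2
  obtain ⟨c, hc0, hci, hs⟩ := h3
  refine ⟨fun n => (-1) ^ (b : ℕ) * c n, ?_, fun n => ?_, fun τ => ?_⟩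
  · show (-1) ^ (b : ℕ) * c 0 = _
    rw [hc0, mul_one, mul_one]
  · refine IsIntegral.mul ?_ (hci n)
    exact (isIntegral_one.neg).pow _
  · have h4 := (hs τ).mul_left ((-1) ^ (b : ℕ))
    refine TCx.hs_congr h4 (fun n => by ring) ?_
    have hq := TBproof.qq_ne_zero 2 τ
    have hΔ := discriminant_ne_zero τ
    simp only [u2]
    rw [uu_eq, qq_h2 b τ, qq_sq τ]
    simp only [ka, Nat.cast_one, one_pow, one_mul, mul_zero, add_zero, pow_zero, pow_one]
    have hb : ((-1 : ℂ) ^ (b : ℕ)) * ((-1 : ℂ) ^ (b : ℕ)) = 1 := by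
      rw [← mul_pow]
      norm_num
    have hb0 : ((-1 : ℂ) ^ (b : ℕ)) ≠ 0 := pow_ne_zero _ (by norm_num)
    field_simp

theorem lau_u2_none : Lau 2 0 0 (u2 none) := by
  have h1 := lau_U_hh (l := 2) (by norm_num) none
  have h2 := H610.lau_reindex (N := 2) (by norm_num) lau_V
  have h3 := tc.2.2.2.1 2 0 (2 * 0) 1 1 _ _ (by norm_num) h1 h2
  have h4 := tc.1 2 (4096 : ℂ) (by norm_num) (by
    have : IsIntegral ℤ (((4096 : ℤ)) : ℂ) := isIntegral_algebraMap (R := ℤ) (x := (4096 : ℤ))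
    simpa using this)
  have h5 := tc.2.2.2.1 2 0 (0 + 2 * 0) 4096 (1 * 1) _ _ (by norm_num) h4 h3
  have h6 := tc.2.1 2 _ 2 _ _ (by norm_num) (by norm_num) h5
  obtain ⟨c, hc0, hci, hs⟩ := h6
  refine ⟨c, hc0, hci, fun τ => ?_⟩
  refine TCx.hs_congr (hs τ) (fun n => rfl) ?_
  have hq := TBproof.qq_ne_zero 2 τ
  have hΔ := discriminant_ne_zero τ
  simp only [u2]
  rw [uu_eq, qq_h0 τ, qq_sq τ]
  simp only [ka, mul_zero, add_zero, zero_add, pow_zero, one_mul]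
  push_cast
  field_simp
  norm_num
  ring

end Pool.Agent.H882
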