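import Pool.Agent.H882.NvDisc
import Pool.Agent.H882.S2Poly

/-!
The residue classes of `0` and `1728`.
-/

set_option autoImplicit false

namespace Pool.Agent.H882

open UpperHalfPlane H294ZP Function Pool.Agent.N135.ZO
open Pool.Agent.Y226 (ZZ ιZ ιZ_apply QA mem_QA nadd_lt nsub_le norm_le_one_of_isIntegral)

/-- odd valuations -/
theorem odd_val {r : ℕ} (hr : r.Prime) {D D' Z : ℤ} (h1 : (r : ℤ) ∣ D) (h2 : ¬ (r : ℤ) ^ 2 ∣ D)
    (h3 : ¬ (r : ℤ) ∣ D') (hZ : Z ^ 2 = D * D') : False := by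
  have hrZ : Prime (r : ℤ) := Nat.prime_iff_prime_int.1 hr
  have h4 : (r : ℤ) ∣ Z := hrZ.dvd_of_dvd_pow (hZ ▸ dvd_mul_of_dvd_left h1 D')
  have h5 : (r : ℤ) ^ 2 ∣ D * D' := hZ ▸ pow_dvd_pow_of_dvd h4 2
  have h6 : IsCoprime ((r : ℤ) ^ 2) D' := (hrZ.coprime_iff_not_dvd.2 h3).pow_left
  exact h2 (h6.dvd_of_dvd_mul_right h5)

theorem rho_quad : ((1 : ℤ) : ℂ) * (ρ6 : ℂ) ^ 2 + ((-1 : ℤ) : ℂ) * ρ6 + ((1 : ℤ) : ℂ) = 0 := by
  push_cast
  linear_combination ρ6_eq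

theorem I_quad : ((1 : ℤ) : ℂ) * ((UpperHalfPlane.I : ℍ) : ℂ) ^ 2 + ((0 : ℤ) : ℂ) *
    ((UpperHalfPlane.I : ℍ) : ℂ) + ((1 : ℤ) : ℂ) = 0 := by
  have hI : ((UpperHalfPlane.I : ℍ) : ℂ) = Complex.I := rfl
  rw [hI]
  push_cast
  linear_combination Complex.I_sq

theorem rho_cm : IsCM ρ6 := ⟨1, -1, 1, one_ne_zero, rho_quad⟩

theorem I_cm : IsCM UpperHalfPlane.I := ⟨1, 0, 1, one_ne_zero, I_quad⟩

theorem rho_rel : Rel !![1, -1; 1, 0] ρ6 ρ6 := by
  simp only [N135.ZO.Rel, N135.ZO.den, N135.ZO.num, Matrix.of_apply, Matrix.cons_val',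
    Matrix.cons_val_zero, Matrix.cons_val_one, Matrix.cons_val_fin_one]
  push_cast
  linear_combination ρ6_eq

theorem I_rel : Rel !![0, -1; 1, 0] UpperHalfPlane.I UpperHalfPlane.I := by
  have hI : ((UpperHalfPlane.I : ℍ) : ℂ) = Complex.I := rfl
  simp only [N135.ZO.Rel, N135.ZO.den, N135.ZO.num, Matrix.of_apply, Matrix.cons_val',
    Matrix.cons_val_zero, Matrix.cons_val_one, Matrix.cons_val_fin_one]
  rw [hI]
  push_cast
  linear_combination Complex.I_sq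

theorem I_rel2 : Rel !![1, -1; 1, 1] UpperHalfPlane.I UpperHalfPlane.I := by
  have hI : ((UpperHalfPlane.I : ℍ) : ℂ) = Complex.I := rfl
  simp only [N135.ZO.Rel, N135.ZO.den, N135.ZO.num, Matrix.of_apply, Matrix.cons_val',
    Matrix.cons_val_zero, Matrix.cons_val_one, Matrix.cons_val_fin_one]
  rw [hI]
  push_cast
  linear_combination Complex.I_sq

theorem rho_SM : jj ρ6 ∈ SM 1 1 :=
  ⟨ρ6, !![1, -1; 1, 0], by simp [Matrix.det_fin_two_of], by simp [Matrix.trace_fin_two],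
    rho_rel, rfl⟩

theorem I_SM : jj UpperHalfPlane.I ∈ SM 1 0 :=
  ⟨UpperHalfPlane.I, !![0, -1; 1, 0], by simp [Matrix.det_fin_two_of],
    by simp [Matrix.trace_fin_two], I_rel, rfl⟩

theorem I_SM2 : jj UpperHalfPlane.I ∈ SM 2 2 :=
  ⟨UpperHalfPlane.I, !![1, -1; 1, 1], by norm_num [Matrix.det_fin_two_of],
    by norm_num [Matrix.trace_fin_two], I_rel2, rfl⟩

theorem not_isog : ¬ Isog (jj UpperHalfPlane.I) (jj ρ6) := by
  intro h
  obtain ⟨Z, hZ⟩ := sq_isog2 Nat.prime_two I_SM2 rho_SM h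
  have h1 : Z ^ 2 = 12 := by
    rw [hZ]
    norm_num
  have h2 : Z ≤ 3 := by nlinarith
  have h3 : -3 ≤ Z := by nlinarith
  interval_cases Z <;> omega

theorem rho_no11 {M : M2} (hM : M.det = 11) (h : Rel M ρ6 ρ6) : False := by
  obtain ⟨e1, e2⟩ := quad_prop rho_quad (rel_quad h)
  rw [det_eq] at hM
  have h1 : M 1 1 = M 0 0 - M 1 0 := by linarith
  have h2 : M 0 1 = - M 1 0 := by linarith
  rw [h1, h2] at hM
  have h3 : (M 0 0 + M 1 0) ^ 2 = 3 * (M 0 0 * M 1 0 + 3) + 2 := by linarith [hM, sq_nonneg (M 0 0)]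
  generalize M 0 0 + M 1 0 = x at h3
  generalize M 0 0 * M 1 0 + 3 = y at h3
  have h4 : x ^ 2 % 3 = 2 := by omega
  have h5 : x % 3 = 0 ∨ x % 3 = 1 ∨ x % 3 = 2 := by omega
  rcases h5 with h5 | h5 | h5 <;> simp [pow_two, Int.mul_emod, h5] at h4

theorem I_no11 {M : M2} (hM : M.det = 11) (h : Rel M UpperHalfPlane.I UpperHalfPlane.I) :
    False := by
  obtain ⟨e1, e2⟩ := quad_prop I_quad (rel_quad h)
  rw [det_eq] at hM
  have h1 : M 1 1 = M 0 0 := by linarith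
  have h2 : M 0 1 = - M 1 0 := by linarith
  rw [h1, h2] at hM
  have h3 : M 0 0 ^ 2 + M 1 0 ^ 2 = 11 := by linarith
  generalize M 0 0 = x at h3
  generalize M 1 0 = y at h3
  have h4 : (x ^ 2 + y ^ 2) % 4 = 3 := by omega
  have h5 : x % 4 = 0 ∨ x % 4 = 1 ∨ x % 4 = 2 ∨ x % 4 = 3 := by omega
  have h6 : y % 4 = 0 ∨ y % 4 = 1 ∨ y % 4 = 2 ∨ y % 4 = 3 := by omega
  rcases h5 with h5 | h5 | h5 | h5 <;> rcases h6 with h6 | h6 | h6 | h6 <;>
    simp [pow_two, Int.add_emod, Int.mul_emod, h5, h6] at h4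

theorem p11 : Nat.Prime 11 := by norm_num

/-- the two special points -/
def Sp (e : ℍ) : Prop := e = ρ6 ∨ e = UpperHalfPlane.I

theorem nbr11_ne {e e' : ℍ} (he : Sp e) (he' : Sp e') (k : Option (Fin 11)) :
    jj (hh p11.pos k e) ≠ jj e' := by
  intro h
  have hiso : Isog (jj e) (jj e') := by
    rw [← h]
    exact ⟨gk 11 k, e, _, by rw [det_gk]; norm_num, rel_hh p11.pos k e, rfl, rfl⟩
  obtain ⟨γ, hγ, hrel⟩ := Pool.Agent.N101.ZP.jj_inj h
  have hdet : (γ * gk 11 k).det = 11 := by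
    rw [det_mul', hγ, det_gk]
    norm_num
  have hr := (rel_hh p11.pos k e).mul hrel
  rcases he with rfl | rfl <;> rcases he' with rfl | rfl
  · exact rho_no11 hdet hr
  · exact not_isog hiso.symm
  · exact not_isog hiso
  · exact I_no11 hdet hr

theorem Sp_cm {e : ℍ} (he : Sp e) : IsCM e := by
  rcases he with rfl | rfl
  · exact rho_cm
  · exact I_cm

/-- for large primes the neighbours of `0` and `1728` are not congruent to `0` or `1728` -/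
theorem nbr11_unit : ∃ B : ℕ, ∀ p : ℕ, p.Prime → B < p →
    ∀ (C : Type) [NormedField C] [IsUltrametricDist C] (Ψ : ℂ →+* C), ‖(p : C)‖ < 1 →
      ∀ (e : ℍ), Sp e → ∀ k : Option (Fin 11), ‖Ψ (jj (hh p11.pos k e))‖ = 1 ∧
        ‖Ψ (jj (hh p11.pos k e) - 1728)‖ = 1 := by
  have hcm : ∀ (e : ℍ), Sp e → ∀ k : Option (Fin 11), IsCM (hh p11.pos k e) := fun e he k =>
    isCM_of_rel (M := gk 11 k) (by rw [det_gk]; norm_num) (rel_hh p11.pos k e) (Sp_cm he)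
  have h0 : ∀ (e : ℍ), Sp e → ∀ k : Option (Fin 11), jj (hh p11.pos k e) ≠ 0 := by
    intro e he k
    have h1 := nbr11_ne he (Or.inl rfl) k
    rwa [jj_rho] at h1
  have h1 : ∀ (e : ℍ), Sp e → ∀ k : Option (Fin 11), jj (hh p11.pos k e) - 1728 ≠ 0 := by
    intro e he k
    have h1 := nbr11_ne he (Or.inr rfl) k
    rw [jj_I] at h1
    exact sub_ne_zero.2 h1
  have hQ : ∀ (e : ℍ), Sp e → ∀ k : Option (Fin 11), jj (hh p11.pos k e) - 1728 ∈ QA :=
    fun e he k => QA.sub_mem (cm_mem_QA (hcm e he k)) (ofNat_mem QA 1728)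
  choose B₁ hB₁ using fun (e : {e : ℍ // Sp e}) (k : Option (Fin 11)) =>
    unit_large (cm_mem_QA (hcm e.1 e.2 k)) (h0 e.1 e.2 k)
  choose B₂ hB₂ using fun (e : {e : ℍ // Sp e}) (k : Option (Fin 11)) =>
    unit_large (hQ e.1 e.2 k) (h1 e.1 e.2 k)
  have key : ∀ e : {e : ℍ // Sp e}, ∃ B : ℕ, ∀ k, B₁ e k + B₂ e k ≤ B := fun e =>
    ⟨∑ k, (B₁ e k + B₂ e k), fun k =>
      Finset.single_le_sum (f := fun k => B₁ e k + B₂ e k) (fun _ _ => Nat.zero_le _)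
        (Finset.mem_univ k)⟩
  choose B hB using key
  refine ⟨B ⟨ρ6, Or.inl rfl⟩ + B ⟨UpperHalfPlane.I, Or.inr rfl⟩,
    fun p hp hpB C _ _ Ψ hp1 e he k => ?_⟩
  have hle : B ⟨e, he⟩ < p := by
    rcases he with rfl | rfl
    · omega
    · omega
  have h2 := hB ⟨e, he⟩ k
  exact ⟨hB₁ ⟨e, he⟩ k p hp (by omega) C Ψ hp1, hB₂ ⟨e, he⟩ k p hp (by omega) C Ψ hp1⟩

theorem trace_conj {l : ℕ} (hl : 0 < l) {k : Option (Fin l)} {M M' : M2}
    (h : gk l k * M = M' * gk l k) : M'.trace = M.trace := by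
  have hlZ : (l : ℤ) ≠ 0 := by exact_mod_cast hl.ne'
  have h1 : (gk l k * M * (gk l k).adjugate).trace = (M' * gk l k * (gk l k).adjugate).trace := by
    rw [h]
  rw [mul_assoc M', Matrix.mul_adjugate, det_gk, Matrix.mul_smul, mul_one, Matrix.trace_smul,
    Matrix.trace_mul_comm, ← mul_assoc, Matrix.adjugate_mul, det_gk, Matrix.smul_mul, one_mul,
    Matrix.trace_smul] at h1
  simp only [smul_eq_mul] at h1
  exact (mul_left_cancel₀ hlZ h1).symm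

theorem fixd_rel {p l : ℕ} (hp : p.Prime) (hl : l.Prime) {t : ℍ} {M : M2} (hM : M.det = p)
    (hrel : Rel M t t) {k : Option (Fin l)} (hk : Fixd l M k) :
    ∃ M' : M2, M'.det = p ∧ M'.trace = M.trace ∧ Rel M' (hh hl.pos k t) (hh hl.pos k t) := by
  have hlZ : (0 : ℤ) < l := by exact_mod_cast hl.pos
  have hpZ : (0 : ℤ) < p := by exact_mod_cast hp.pos
  obtain ⟨M', hM'⟩ := hk
  have hdet : M'.det = p := by
    have h1 := congrArg Matrix.det hM'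
    rw [det_mul', det_mul', det_gk, hM] at h1
    have h2 : M'.det * l = p * l := by rw [← h1]; ring
    exact mul_right_cancel₀ hlZ.ne' h2
  obtain ⟨z, hz⟩ := exists_rel (M := M') (by rw [hdet]; exact hpZ) (hh hl.pos k t)
  have h1 := (rel_hh hl.pos k t).mul hz
  have h2 := hrel.mul (rel_hh hl.pos k t)
  rw [hM'] at h2
  have h3 : z = hh hl.pos k t := Rel.unique (M := M' * gk l k)
    (by rw [det_mul', hdet, det_gk]; positivity) h1 h2
  rw [h3] at hz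
  exact ⟨M', hdet, trace_conj hl.pos hM', hz⟩

section

variable {C : Type} [NormedField C] [IsUltrametricDist C] [CompleteSpace C] [CharZero C]
  [IsAlgClosed C]

/-- A singular modulus with an ordinary endomorphism of degree `p` is not congruent to `0` and `1728`. -/
theorem not_near {p : ℕ} (hp : p.Prime) (hp3 : 3 < p) (hp1 : ‖(p : C)‖ < 1) (Ψ : ℂ →+* C)
    (hu : ∀ (e : ℍ), Sp e → ∀ k : Option (Fin 11), ‖Ψ (jj (hh p11.pos k e))‖ = 1 ∧
        ‖Ψ (jj (hh p11.pos k e) - 1728)‖ = 1)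
    {t : ℍ} {M : M2} (hM : M.det = p) (hrel : Rel M t t) (htr : M.trace ≠ 0)
    (h11 : SqMod 11 (M.trace ^ 2 - 4 * p)) {r : ℕ} (hr : r.Prime) (hr11 : 11 < r)
    (hr1 : (r : ℤ) ∣ M.trace ^ 2 - 4 * p) (hr2 : ¬ (r : ℤ) ^ 2 ∣ M.trace ^ 2 - 4 * p)
    {e : ℍ} (he : Sp e) : ¬ ‖Ψ (jj t - jj e)‖ < 1 := by
  intro hnear
  have hp2 : p ≠ 2 := by omega
  obtain ⟨P⟩ := exists_pkg hp hp2
  have hpV : (VF Ψ).valuation (p : ℂ) < 1 := by
    rw [VF_lt_one, map_natCast]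
    exact hp1
  have hcmt : IsCM t := isCM_of_fix hp hM hrel
  have hmem : ∀ {τ : ℍ}, IsCM τ → jj τ ∈ VF Ψ := fun h =>
    VF_mem.2 (norm_le_one_of_isIntegral Ψ (singular_modulus_integral _ h))
  rw [← hM] at h11
  obtain ⟨k, hk⟩ := exists_fixd p11 (by norm_num) h11
  obtain ⟨M', hM', htr', hrel'⟩ := fixd_rel hp p11 hM hrel hk
  obtain ⟨w, hw⟩ : ∃ w, w = hh p11.pos k t := ⟨_, rfl⟩
  rw [← hw] at hrel'
  obtain ⟨k', hk'⟩ := near_nbr p11 (hmem hcmt) (hmem (Sp_cm he)) (VF_lt_one.2 hnear)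
    (det_gk 11 k) (rel_hh p11.pos k t)
  rw [← hw] at hk'
  obtain ⟨u0, u1⟩ := hu e he k'
  have hcmw : IsCM w := isCM_of_fix hp hM' hrel'
  have hcme : IsCM (hh p11.pos k' e) :=
    isCM_of_rel (M := gk 11 k') (by rw [det_gk]; norm_num) (rel_hh p11.pos k' e) (Sp_cm he)
  have hlt : ‖Ψ (jj w - jj (hh p11.pos k' e))‖ < 1 := VF_lt_one.1 hk'
  have hunit : ∀ {a b : C}, ‖a‖ = 1 → ‖b - a‖ < 1 → ‖b‖ = 1 := by
    intro a b ha hab
    have e : b = a + (b - a) := by ring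
    rw [e, IsUltrametricDist.norm_add_eq_max_of_norm_ne_norm, ha, max_eq_left hab.le]
    rw [ha]
    exact hab.ne'
  have hG : G0 P (VF Ψ) (jj w) := by
    refine G0_of hp hp1 P Ψ (ordAt_of_trace hp hp3 hM' hrel' (by rw [htr']; exact htr)) ?_ ?_
    · refine hunit u0 ?_
      rw [← map_sub]
      exact hlt
    · refine hunit u1 ?_
      rw [← map_sub]
      have e : jj w - 1728 - (jj (hh p11.pos k' e) - 1728) = jj w - jj (hh p11.pos k' e) := by ring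
      rw [e]
      exact hlt
  have h1 := cm_isog hp hp2 hpV P hcmw hcme hG (by
    rw [VF_lt_one, ← norm_neg, ← map_neg, neg_sub]
    exact hlt)
  have h2 : Isog (jj e) (jj (hh p11.pos k' e)) :=
    ⟨gk 11 k', e, _, by rw [det_gk]; norm_num, rel_hh p11.pos k' e, rfl, rfl⟩
  have h3 := h1.trans h2.symm
  have hz : jj w ∈ SM p M.trace := ⟨w, M', hM', htr', hrel', rfl⟩
  rcases he with rfl | rfl
  · obtain ⟨Z, hZ⟩ := sq_isog2 hp hz rho_SM h3
    refine odd_val hr hr1 hr2 (fun h => ?_) hZ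
    have h4 := Int.natAbs_dvd_natAbs.2 h
    have h5 := Nat.le_of_dvd (by norm_num) h4
    norm_num at h5
    omega
  · obtain ⟨Z, hZ⟩ := sq_isog2 hp hz I_SM h3
    refine odd_val hr hr1 hr2 (fun h => ?_) hZ
    have h4 := Int.natAbs_dvd_natAbs.2 h
    have h5 := Nat.le_of_dvd (by norm_num) h4
    norm_num at h5
    omega

end

end Pool.Agent.H882
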