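import Pool.Agent.H882.Crit

/-!
The local theorem at an ordinary CM point with possibly one cuspidal coordinate.
-/

set_option autoImplicit false

namespace Pool.Agent.H882

open UpperHalfPlane H294ZP Function Pool.Agent.N135.ZO NumberField IsDedekindDomain

variable {V : ValuationSubring ℂ} {p : ℕ}

theorem loc_main (hl : p.Prime) (hl2 : p ≠ 2) (hpV : V.valuation (p : ℂ) < 1) {n r : ℕ}
    (cusp : Option (Fin n)) (τ : Fin n → ℍ) (hcm : ∀ i, cusp ≠ some i → IsCM (τ i))
    (hord : ∀ i, cusp ≠ some i → OrdAt p (τ i))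
    (h0 : ∀ i, cusp ≠ some i → V.valuation (jj (τ i)) = 1)
    (h1 : ∀ i, cusp ≠ some i → V.valuation (jj (τ i) - 1728) = 1)
    (hiso : ∀ i j, cusp ≠ some i → cusp ≠ some j → i ≠ j → ¬ Isog (jj (τ i)) (jj (τ j)))
    (Z : SpecialDatum n r) {x : Fin n → ℂ} (hx : x ∈ Z.locus) :
    n ≤ r + {i | ¬ ((cusp ≠ some i ∧ V.valuation (x i - jj (τ i)) < 1 ∧ ∀ k : ℕ,
        V.valuation (x i - jj (τ i)) ^ ((p - 1) * p ^ k) ≠ V.valuation (p : ℂ)) ∨
        (cusp = some i ∧ 1 < V.valuation (x i)))}.ncard +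
      {i | cusp ≠ some i ∧ x i = jj (τ i)}.ncard := by
  classical
  set Q : Fin n → Prop := fun i => (cusp ≠ some i ∧ V.valuation (x i - jj (τ i)) < 1 ∧ ∀ k : ℕ,
        V.valuation (x i - jj (τ i)) ^ ((p - 1) * p ^ k) ≠ V.valuation (p : ℂ)) ∨
        (cusp = some i ∧ 1 < V.valuation (x i)) with hQ
  change n ≤ r + {i | ¬ Q i}.ncard + {i | cusp ≠ some i ∧ x i = jj (τ i)}.ncard
  obtain ⟨P⟩ := exists_pkg hl hl2
  have hmem : ∀ i, cusp ≠ some i → jj (τ i) ∈ V := fun i hi =>
    (V.valuation_le_one_iff _).1 (h0 i hi).le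
  have hG : ∀ i, cusp ≠ some i → G0 P V (jj (τ i)) := by
    intro i hi
    obtain ⟨e, M, he, hdet, htr, hfix⟩ := hord i hi
    exact ⟨hmem i hi, ord_of_fix hl hpV P (hmem i hi) he hdet htr hfix, h0 i hi, h1 i hi⟩
  set J : Finset (Fin n) := Finset.univ.filter fun i => Q i ∧ ¬ (cusp ≠ some i ∧ x i = jj (τ i))
    with hJ
  have hxmem : ∀ i, cusp ≠ some i → V.valuation (x i - jj (τ i)) < 1 → x i ∈ V := by
    intro i hi hlt
    have : x i = jj (τ i) + (x i - jj (τ i)) := by ring
    rw [this]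
    exact V.add_mem _ _ (hmem i hi) ((V.valuation_le_one_iff _).1 hlt.le)
  have hcard : J.card ≤ r := by
    refine crit_card Z hx J ?_ ?_
    · intro i hi τ' hτ' hxi
      rw [hJ, Finset.mem_filter] at hi
      obtain ⟨-, hi1, hi2⟩ := hi
      rcases hi1 with ⟨hc, hq1, hq2⟩ | ⟨hc, hq⟩
      · have hne : x i ≠ jj (τ i) := fun h => hi2 ⟨hc, h⟩
        rw [hxi] at hq1 hq2 hne
        obtain ⟨k, hk⟩ := cm_radius hl hl2 hpV P (hcm i hc) hτ' (hG i hc) hq1 hne
        exact hq2 k hk
      · rw [hxi] at hq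
        have := mem_of_integral_int V (singular_modulus_integral τ' hτ')
        rw [← V.valuation_le_one_iff] at this
        exact absurd hq (not_lt.2 this)
    · intro i hi j hj hij A w w' hA hrel hxi hxj
      rw [hJ, Finset.mem_filter] at hi hj
      obtain ⟨-, hi1, -⟩ := hi
      obtain ⟨-, hj1, -⟩ := hj
      rcases hi1 with ⟨hc, hq1, -⟩ | ⟨hc, hq⟩
      · rcases hj1 with ⟨hc', hq1', -⟩ | ⟨hc', hq'⟩
        · rw [hxi] at hq1
          rw [hxj] at hq1'
          exact hiso i j hc hc' hij (near_isog hl hl2 hpV P (hcm i hc) (hcm j hc') (hG i hc)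
            (hG j hc') hA hrel hq1 hq1')
        · have h2 := rel_mem hA hrel (hxi ▸ hxmem i hc hq1)
          rw [← hxj, ← V.valuation_le_one_iff] at h2
          exact absurd hq' (not_lt.2 h2)
      · rcases hj1 with ⟨hc', hq1', -⟩ | ⟨hc', hq'⟩
        · have h2 := rel_mem (M := A.adjugate) (by rw [det_adj]; exact hA) (rel_adj hrel)
            (hxj ▸ hxmem j hc' hq1')
          rw [← hxi, ← V.valuation_le_one_iff] at h2
          exact absurd hq (not_lt.2 h2)
        · rw [hc] at hc'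
          exact hij (Option.some.inj hc')
  have e1 : {i | ¬ Q i}.ncard = (Finset.univ.filter fun i => ¬ Q i).card := by
    rw [← Set.ncard_coe_finset]
    congr 1
    ext i
    simp
  have e2 : {i | cusp ≠ some i ∧ x i = jj (τ i)}.ncard =
      (Finset.univ.filter fun i => cusp ≠ some i ∧ x i = jj (τ i)).card := by
    rw [← Set.ncard_coe_finset]
    congr 1
    ext i
    simp
  rw [e1, e2]
  have hcover : (Finset.univ : Finset (Fin n)) ⊆ (J ∪
      (Finset.univ.filter fun i => ¬ Q i)) ∪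
      (Finset.univ.filter fun i => cusp ≠ some i ∧ x i = jj (τ i)) := by
    intro i _
    simp only [Finset.mem_union, Finset.mem_filter, hJ, Finset.mem_univ, true_and]
    by_cases hb : cusp ≠ some i ∧ x i = jj (τ i)
    · exact Or.inr hb
    · left
      by_cases ha : Q i
      · exact Or.inl ⟨ha, hb⟩
      · exact Or.inr ha
  calc n = (Finset.univ : Finset (Fin n)).card := by simp
    _ ≤ _ := Finset.card_le_card hcover
    _ ≤ _ := Finset.card_union_le _ _
    _ ≤ _ := Nat.add_le_add_right (Finset.card_union_le _ _) _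
    _ ≤ _ := Nat.add_le_add_right (Nat.add_le_add_right hcard _) _

/-- The global theorem at an ordinary CM point with possibly one cuspidal coordinate. -/
theorem glob_ord {K : Type} [Field K] [NumberField K] (σ : K →+* ℂ)
    (v : HeightOneSpectrum (𝓞 K)) (hl : p.Prime) (hl2 : p ≠ 2) (hpv : (p : 𝓞 K) ∈ v.asIdeal)
    {n : ℕ} (cusp : Option (Fin n)) (c : Fin n → K) (τ : Fin n → ℍ)
    (hτ : ∀ i, cusp ≠ some i → jj (τ i) = σ (c i)) (hcm : ∀ i, cusp ≠ some i → IsCM (τ i))
    (hord : ∀ i, cusp ≠ some i → OrdAt p (τ i))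
    (h0 : ∀ i, cusp ≠ some i → v.valuation K (c i) = 1)
    (h1 : ∀ i, cusp ≠ some i → v.valuation K (c i - 1728) = 1)
    (hiso : ∀ i j, cusp ≠ some i → cusp ≠ some j → i ≠ j → ¬ Isog (jj (τ i)) (jj (τ j)))
    (l : Fin n → K) (hllt : ∀ i, v.valuation K (l i) < 1)
    (hlr : ∀ i, v.valuation K (l i) ^ (p - 1) < v.valuation K p)
    {r m : ℕ} (Z : SpecialDatum n r) {x : Fin n → ℂ} (hxZ : x ∈ Z.locus) (y : Fin n → ℂ)
    (hxy : ∀ i, (cusp ≠ some i → x i = jj (τ i) + σ (l i) * y i) ∧
      (cusp = some i → x i * (σ (l i) * y i) = 1))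
    (hG : ∀ J : Finset (Fin n), J.card = m + 1 →
      ∃ (G : MvPolynomial (Fin n) (𝓞 K)) (d : Fin n →₀ ℕ), (∀ u ∈ G.support, u ≤ d) ∧
      d.support ⊆ J ∧ G.coeff d ∉ v.asIdeal ∧
      MvPolynomial.eval₂ (σ.comp (algebraMap (𝓞 K) K)) y G = 0)
    (W : Finset (Fin n)) (hW : AlgebraicIndependent ℚ (fun i : W => x i)) :
    n + W.card ≤ m + r + {i | cusp ≠ some i ∧ x i = jj (τ i)}.ncard := by
  classical
  let _ : Algebra K ℂ := σ.toAlgebra
  let _ : Algebra (𝓞 K) ℂ := (σ.comp (algebraMap (𝓞 K) K)).toAlgebra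
  have _ : IsScalarTower (𝓞 K) K ℂ := IsScalarTower.of_algebraMap_eq (fun _ => rfl)
  have hmap : ∀ a : 𝓞 K, algebraMap (𝓞 K) ℂ a = σ a := fun _ => rfl
  have hKx : AlgebraicIndependent K (fun i : W => x i) := hW.extendScalars K
  have hKy : AlgebraicIndependent K (fun i : W => y i) := by
    refine indep_of_alg hKx fun i => ?_
    have hmemK : ∀ a : K, (σ a : ℂ) ∈ Algebra.adjoin K (Set.range fun i : W => y i) := fun a =>
      Subalgebra.algebraMap_mem _ a
    have hmemy : y i ∈ Algebra.adjoin K (Set.range fun i : W => y i) :=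
      Algebra.subset_adjoin ⟨i, rfl⟩
    by_cases hc : cusp = some (i : Fin n)
    · have h2 := (hxy i).2 hc
      have hmem : σ (l i) * y i ∈ Algebra.adjoin K (Set.range fun i : W => y i) :=
        Subalgebra.mul_mem _ (hmemK _) hmemy
      have h3 : IsAlgebraic (Algebra.adjoin K (Set.range fun i : W => y i)) (σ (l i) * y i) :=
        isAlgebraic_algebraMap (⟨_, hmem⟩ : Algebra.adjoin K (Set.range fun i : W => y i))
      have h4 : x i = (σ (l i) * y i)⁻¹ := eq_inv_of_mul_eq_one_left h2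
      rw [h4]
      exact h3.inv
    · have h2 := (hxy i).1 hc
      have hmem : x i ∈ Algebra.adjoin K (Set.range fun i : W => y i) := by
        rw [h2, hτ i hc]
        exact Subalgebra.add_mem _ (hmemK _) (Subalgebra.mul_mem _ (hmemK _) hmemy)
      exact isAlgebraic_algebraMap (⟨_, hmem⟩ : Algebra.adjoin K (Set.range fun i : W => y i))
  have hOy : AlgebraicIndependent (𝓞 K) (fun i : W => y i) :=
    hKy.restrictScalars (RingOfIntegers.coe_injective)
  have hprime : v.asIdeal.IsPrime := v.isPrime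
  obtain ⟨V, hV1, hV2⟩ := exists_place_gauss v.asIdeal (fun i : W => y i) hOy
  have hA1 : ∀ a : 𝓞 K, V.valuation (σ a) ≤ 1 := by
    intro a
    have := hV1 (MvPolynomial.C a)
    rwa [MvPolynomial.aeval_C] at this
  have hA2 : ∀ a : 𝓞 K, V.valuation (σ a) < 1 ↔ a ∈ v.asIdeal := by
    intro a
    have := hV2 (MvPolynomial.C a)
    rw [MvPolynomial.aeval_C, hmap, MvPolynomial.map_C, MvPolynomial.C_eq_zero,
      Ideal.Quotient.eq_zero_iff_mem] at this
    exact this
  have hpV : V.valuation (p : ℂ) < 1 := by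
    have := (hA2 (p : 𝓞 K)).2 hpv
    simpa using this
  have hpK : (p : K) ≠ 0 := by exact_mod_cast hl.ne_zero
  have hloc := loc_main (x := x) hl hl2 hpV cusp τ hcm hord
    (fun i hi => by rw [hτ i hi]; exact val_one_of hA1 hA2 (h0 i hi))
    (fun i hi => by
      have := val_one_of hA1 hA2 (h1 i hi)
      have e : σ (c i - 1728) = σ (c i) - 1728 := by
        rw [map_sub]
        congr 1
        exact map_ofNat σ 1728
      rw [hτ i hi, ← e]
      exact this) hiso Z hxZ
  have hyW : ∀ i ∈ W, y i ∈ V := by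
    intro i hi
    have := hV1 (MvPolynomial.X ⟨i, hi⟩)
    rw [MvPolynomial.aeval_X] at this
    exact (V.valuation_le_one_iff _).1 this
  have hpole := pole_card v.asIdeal (σ.comp (algebraMap (𝓞 K) K)) V hA1 y W hyW
    (fun Q => hV2 Q) hG
  have hp0 : V.valuation (p : ℂ) ≠ 0 := by
    rw [Valuation.ne_zero_iff]
    exact_mod_cast hl.ne_zero
  have hsub : {i | ¬ ((cusp ≠ some i ∧ V.valuation (x i - jj (τ i)) < 1 ∧ ∀ k : ℕ,
        V.valuation (x i - jj (τ i)) ^ ((p - 1) * p ^ k) ≠ V.valuation (p : ℂ)) ∨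
        (cusp = some i ∧ 1 < V.valuation (x i)))} ⊆ {i | y i ∉ V} := by
    intro i hi hyi
    apply hi
    have hyi1 : V.valuation (y i) ≤ 1 := (V.valuation_le_one_iff _).2 hyi
    have hl1 : V.valuation (σ (l i)) < 1 := val_lt_of hA1 hA2 (hllt i)
    have hle : V.valuation (σ (l i) * y i) ≤ V.valuation (σ (l i)) := by
      rw [map_mul]
      calc _ ≤ V.valuation (σ (l i)) * 1 := mul_le_mul_right hyi1 _
        _ = _ := mul_one _
    by_cases hc : cusp = some i
    · right
      refine ⟨hc, ?_⟩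
      have h2 := (hxy i).2 hc
      have h3 := congrArg V.valuation h2
      rw [map_mul, map_one] at h3
      by_contra hcon
      rw [not_lt] at hcon
      have h4 : V.valuation (x i) * V.valuation (σ (l i) * y i) < 1 := by
        calc _ ≤ 1 * V.valuation (σ (l i) * y i) := mul_le_mul_left hcon _
          _ = V.valuation (σ (l i) * y i) := one_mul _
          _ < 1 := hle.trans_lt hl1
      exact absurd h3 h4.ne
    · left
      have h2 := (hxy i).1 hc
      have h3 : x i - jj (τ i) = σ (l i) * y i := by rw [h2]; ring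
      rw [h3]
      refine ⟨hc, hle.trans_lt hl1, fun k => ?_⟩
      apply ne_of_lt
      have h4 : V.valuation (σ (l i)) ^ (p - 1) < V.valuation (p : ℂ) := by
        have := val_pow_lt hA1 hA2 (x := l i ^ (p - 1)) hpK (by rw [map_pow]; exact hlr i)
        rwa [map_pow, map_pow, map_natCast] at this
      have h5 : V.valuation (σ (l i) * y i) ≤ 1 := (hle.trans hl1.le)
      calc V.valuation (σ (l i) * y i) ^ ((p - 1) * p ^ k)
          = (V.valuation (σ (l i) * y i) ^ (p - 1)) ^ (p ^ k) := pow_mul _ _ _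
        _ ≤ V.valuation (σ (l i) * y i) ^ (p - 1) :=
            pow_le_of_le_one zero_le (pow_le_one₀ zero_le h5) (pow_pos hl.pos k).ne'
        _ ≤ V.valuation (σ (l i)) ^ (p - 1) := pow_le_pow_left₀ zero_le hle _
        _ < _ := h4
  have hle := Set.ncard_le_ncard hsub (Set.toFinite _)
  omega

end Pool.Agent.H882
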