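import Pool.Agent.H882.OrdLoc

/-!
CM points are ordinary at the primes `p ≡ 1` modulo four times the discriminant.
-/

set_option autoImplicit false

namespace Pool.Agent.H882

open UpperHalfPlane H294ZP Function Pool.Agent.N135.ZO

/-- Thue's lemma -/
theorem thue (N : ℕ) (hN : 0 < N) (ρ : ℤ) : ∃ x y : ℤ, ¬ (x = 0 ∧ y = 0) ∧ x ^ 2 ≤ N ∧ y ^ 2 ≤ N ∧
    (N : ℤ) ∣ x - ρ * y := by
  classical
  have : NeZero N := ⟨hN.ne'⟩
  set B := Nat.sqrt N with hB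
  have hB1 : N < (B + 1) * (B + 1) := Nat.lt_succ_sqrt N
  have hB2 : B * B ≤ N := Nat.sqrt_le N
  let f : Fin (B + 1) × Fin (B + 1) → ZMod N := fun ab => ((ab.1 : ℕ) : ZMod N) - (ρ : ZMod N) *
    ((ab.2 : ℕ) : ZMod N)
  have hcard : Fintype.card (ZMod N) < Fintype.card (Fin (B + 1) × Fin (B + 1)) := by
    rw [ZMod.card, Fintype.card_prod, Fintype.card_fin]
    exact hB1
  obtain ⟨⟨a, b⟩, ⟨a', b'⟩, hne, hf⟩ := Fintype.exists_ne_map_eq_of_card_lt f hcard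
  refine ⟨(a : ℕ) - (a' : ℕ), (b : ℕ) - (b' : ℕ), ?_, ?_, ?_, ?_⟩
  · rintro ⟨h1, h2⟩
    apply hne
    have h3 : (a : ℕ) = a' := by omega
    have h4 : (b : ℕ) = b' := by omega
    exact Prod.ext (Fin.ext h3) (Fin.ext h4)
  · have h1 : |((a : ℕ) : ℤ) - (a' : ℕ)| ≤ B := by
      have := a.2
      have := a'.2
      rw [abs_le]
      omega
    calc _ = |((a : ℕ) : ℤ) - (a' : ℕ)| ^ 2 := (sq_abs _).symm
      _ ≤ (B : ℤ) ^ 2 := pow_le_pow_left₀ (abs_nonneg _) h1 2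
      _ ≤ N := by
        rw [sq]
        exact_mod_cast hB2
  · have h1 : |((b : ℕ) : ℤ) - (b' : ℕ)| ≤ B := by
      have := b.2
      have := b'.2
      rw [abs_le]
      omega
    calc _ = |((b : ℕ) : ℤ) - (b' : ℕ)| ^ 2 := (sq_abs _).symm
      _ ≤ (B : ℤ) ^ 2 := pow_le_pow_left₀ (abs_nonneg _) h1 2
      _ ≤ N := by
        rw [sq]
        exact_mod_cast hB2
  · rw [← ZMod.intCast_zmod_eq_zero_iff_dvd]
    push_cast
    have h2 : ((a : ℕ) : ZMod N) - (ρ : ZMod N) * ((b : ℕ) : ZMod N) =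
        ((a' : ℕ) : ZMod N) - (ρ : ZMod N) * ((b' : ℕ) : ZMod N) := hf
    linear_combination h2

/-- Hensel's lemma for square roots -/
theorem hensel_sq {p : ℕ} (hp : p.Prime) (hp2 : p ≠ 2) {D : ℤ} (hD : ¬ (p : ℤ) ∣ D) {r : ℤ}
    (hr : (p : ℤ) ∣ r ^ 2 + D) (M : ℕ) : ∃ ρ : ℤ, (p : ℤ) ^ (M + 1) ∣ ρ ^ 2 + D := by
  have hpZ : Prime (p : ℤ) := Nat.prime_iff_prime_int.1 hp
  induction M with
  | zero => exact ⟨r, by simpa using hr⟩
  | succ M ih =>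
    obtain ⟨ρ, s, hs⟩ := ih
    have hρ : ¬ (p : ℤ) ∣ 2 * ρ := by
      intro h
      rcases hpZ.dvd_or_dvd h with h | h
      · have h1 : (p : ℤ) ∣ ((2 : ℕ) : ℤ) := by exact_mod_cast h
        have h2 : p ∣ 2 := by exact_mod_cast h1
        exact hp2 ((Nat.prime_dvd_prime_iff_eq hp Nat.prime_two).1 h2)
      · apply hD
        have h1 : (p : ℤ) ∣ ρ ^ 2 + D := (dvd_pow_self _ (Nat.succ_ne_zero M)).trans ⟨s, hs⟩
        have h2 : (p : ℤ) ∣ ρ ^ 2 := dvd_pow h (by norm_num)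
        exact (dvd_add_right h2).1 h1
    -- solve s + 2 ρ t = 0 mod p
    have hcop : IsCoprime (2 * ρ) (p : ℤ) := (hpZ.coprime_iff_not_dvd.2 hρ).symm
    obtain ⟨a, b, hab⟩ := hcop
    refine ⟨ρ - a * s * (p : ℤ) ^ (M + 1), ?_⟩
    have e : (ρ - a * s * (p : ℤ) ^ (M + 1)) ^ 2 + D =
        (p : ℤ) ^ (M + 1) * (s * (1 - 2 * ρ * a)) + (p : ℤ) ^ (M + 1) * (p : ℤ) ^ (M + 1) *
          (a * s) ^ 2 := by
      linear_combination hs
    rw [e]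
    refine dvd_add ?_ ?_
    · have h1 : 1 - 2 * ρ * a = b * p := by linear_combination -hab
      rw [h1]
      exact ⟨s * b, by ring⟩
    · have h1 : (p : ℤ) ^ (M + 1 + 1) ∣ (p : ℤ) ^ (M + 1) * (p : ℤ) ^ (M + 1) := by
        rw [← pow_add]
        exact pow_dvd_pow _ (by omega)
      exact h1.mul_right _

/-- powers of `p` are represented by `X ^ 2 + D Y ^ 2` with `X` prime to `p` -/
theorem exists_norm {p : ℕ} (hp : p.Prime) (hp2 : p ≠ 2) {D : ℕ} (hD0 : 0 < D) (hDp : D + 1 < p)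
    {r : ℤ} (hr : (p : ℤ) ∣ r ^ 2 + D) :
    ∃ (E : ℕ) (X Y : ℤ), 0 < E ∧ X ^ 2 + D * Y ^ 2 = (p : ℤ) ^ E ∧ ¬ (p : ℤ) ∣ X := by
  classical
  have hpZ : Prime (p : ℤ) := Nat.prime_iff_prime_int.1 hp
  have hpD : ¬ (p : ℤ) ∣ (D : ℤ) := by
    intro h
    have h1 : p ∣ D := by exact_mod_cast h
    have := Nat.le_of_dvd hD0 h1
    omega
  set L : ℕ := (D + 1).factorial with hL
  have hLpos : 0 < L := Nat.factorial_pos _
  have : NeZero L := ⟨hLpos.ne'⟩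
  set M : ℕ := (D + 2) * (L * L) + 1 with hM
  obtain ⟨ρ, hρ⟩ := hensel_sq hp hp2 hpD hr M
  -- the elements
  have key : ∀ e : Fin M, ∃ x y k : ℤ, (p : ℤ) ^ ((e : ℕ) + 1) ∣ x - ρ * y ∧
      x ^ 2 + D * y ^ 2 = k * (p : ℤ) ^ ((e : ℕ) + 1) ∧ 0 < k ∧ k ≤ D + 1 := by
    intro e
    obtain ⟨x, y, hne, hx, hy, hdvd⟩ := thue (p ^ ((e : ℕ) + 1)) (pow_pos hp.pos _) ρ
    have hdvd' : (p : ℤ) ^ ((e : ℕ) + 1) ∣ x - ρ * y := by exact_mod_cast hdvd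
    have h1 : (p : ℤ) ^ ((e : ℕ) + 1) ∣ x ^ 2 + D * y ^ 2 := by
      have e1 : x ^ 2 + D * y ^ 2 = (x - ρ * y) * (x + ρ * y) + (ρ ^ 2 + D) * y ^ 2 := by ring
      rw [e1]
      refine dvd_add (hdvd'.mul_right _) (Dvd.dvd.mul_right ?_ _)
      refine (pow_dvd_pow _ ?_).trans hρ
      have := e.2
      omega
    obtain ⟨k, hk⟩ := h1
    have hpp : (0 : ℤ) < (p : ℤ) ^ ((e : ℕ) + 1) := by
      have := hp.pos
      positivity
    have hpos : 0 < x ^ 2 + D * y ^ 2 := by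
      have hD1 : (0 : ℤ) < D := by exact_mod_cast hD0
      by_cases hx0 : x = 0
      · have hy0 : y ≠ 0 := fun h => hne ⟨hx0, h⟩
        positivity
      · positivity
    refine ⟨x, y, k, hdvd', by rw [hk]; ring, ?_, ?_⟩
    · rw [hk] at hpos
      exact (mul_pos_iff_of_pos_left hpp).1 hpos
    · push_cast at hx hy
      have hD1 : (0 : ℤ) ≤ D := by exact_mod_cast hD0.le
      have h2 : x ^ 2 + D * y ^ 2 ≤ (p : ℤ) ^ ((e : ℕ) + 1) * (D + 1) := by nlinarith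
      rw [hk] at h2
      exact le_of_mul_le_mul_left h2 hpp
  choose x y k hxy hnorm hk0 hkD using key
  -- pigeonhole
  let f : Fin M → Fin (D + 2) × (ZMod L × ZMod L) := fun e =>
    (⟨(k e).toNat, by have := hk0 e; have := hkD e; omega⟩, ((x e : ZMod L), (y e : ZMod L)))
  have hcard : Fintype.card (Fin (D + 2) × (ZMod L × ZMod L)) < Fintype.card (Fin M) := by
    rw [Fintype.card_prod, Fintype.card_prod, ZMod.card, Fintype.card_fin, Fintype.card_fin]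
    omega
  obtain ⟨e₁, e₂, hlt, hf⟩ : ∃ e₁ e₂ : Fin M, e₁ < e₂ ∧ f e₁ = f e₂ := by
    obtain ⟨a, b, hne, hab⟩ := Fintype.exists_ne_map_eq_of_card_lt f hcard
    rcases lt_or_gt_of_ne hne with h | h
    · exact ⟨a, b, h, hab⟩
    · exact ⟨b, a, h, hab.symm⟩
  have hkk : k e₂ = k e₁ := by
    have h1 := congrArg (fun z => (z.1 : ℕ)) hf
    simp only [f] at h1
    have := hk0 e₁
    have := hk0 e₂
    omega
  have hLx : (L : ℤ) ∣ x e₂ - x e₁ := by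
    have h1 := congrArg (fun z => z.2.1) hf
    simp only [f] at h1
    rw [← ZMod.intCast_zmod_eq_zero_iff_dvd]
    push_cast
    rw [h1, sub_self]
  have hLy : (L : ℤ) ∣ y e₂ - y e₁ := by
    have h1 := congrArg (fun z => z.2.2) hf
    simp only [f] at h1
    rw [← ZMod.intCast_zmod_eq_zero_iff_dvd]
    push_cast
    rw [h1, sub_self]
  set K := k e₁ with hK
  have hK0 : 0 < K := hk0 e₁
  have hKL : K ∣ (L : ℤ) := by
    obtain ⟨κ, hκ⟩ : ∃ κ : ℕ, K = κ := ⟨K.toNat, by omega⟩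
    rw [hκ]
    have : κ ∣ L := by
      rw [hL]
      apply Nat.dvd_factorial
      · omega
      · have := hkD e₁
        omega
    exact_mod_cast this
  have hpK : ¬ (p : ℤ) ∣ K := by
    intro h
    have := Int.le_of_dvd hK0 h
    have := hkD e₁
    omega
  set q₁ : ℤ := (p : ℤ) ^ ((e₁ : ℕ) + 1) with hq₁
  have hq₁0 : q₁ ≠ 0 := pow_ne_zero _ hpZ.ne_zero
  have hcop : IsCoprime K q₁ := by
    rw [hq₁]
    exact (hpZ.coprime_iff_not_dvd.2 hpK).symm.pow_right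
  have hle : (e₁ : ℕ) + 1 ≤ (e₂ : ℕ) + 1 := by
    have : (e₁ : ℕ) < e₂ := hlt
    omega
  have h2' : q₁ ∣ x e₂ - ρ * y e₂ := (pow_dvd_pow _ hle).trans (hxy e₂)
  have hρ1 : q₁ ∣ ρ ^ 2 + D := by
    refine (pow_dvd_pow _ ?_).trans hρ
    have := e₁.2
    omega
  obtain ⟨X, hX⟩ : K * q₁ ∣ x e₁ * x e₂ + D * (y e₁ * y e₂) := by
    refine hcop.mul_dvd ?_ ?_
    · have e1 : x e₁ * x e₂ + D * (y e₁ * y e₂) = x e₁ * (x e₂ - x e₁) + D * y e₁ * (y e₂ - y e₁) +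
          (x e₁ ^ 2 + D * y e₁ ^ 2) := by ring
      rw [e1, hnorm e₁]
      exact dvd_add (dvd_add ((hKL.trans hLx).mul_left _) ((hKL.trans hLy).mul_left _))
        (dvd_mul_right _ _)
    · have e1 : x e₁ * x e₂ + D * (y e₁ * y e₂) = (x e₁ - ρ * y e₁) * x e₂ +
          ρ * y e₁ * (x e₂ - ρ * y e₂) + (ρ ^ 2 + D) * (y e₁ * y e₂) := by ring
      rw [e1]
      exact dvd_add (dvd_add ((hxy e₁).mul_right _) (h2'.mul_left _)) (hρ1.mul_right _)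
  obtain ⟨Y, hY⟩ : K * q₁ ∣ x e₁ * y e₂ - x e₂ * y e₁ := by
    refine hcop.mul_dvd ?_ ?_
    · have e1 : x e₁ * y e₂ - x e₂ * y e₁ = x e₁ * (y e₂ - y e₁) - y e₁ * (x e₂ - x e₁) := by ring
      rw [e1]
      exact dvd_sub ((hKL.trans hLy).mul_left _) ((hKL.trans hLx).mul_left _)
    · have e1 : x e₁ * y e₂ - x e₂ * y e₁ = (x e₁ - ρ * y e₁) * y e₂ - (x e₂ - ρ * y e₂) * y e₁ := by
        ring
      rw [e1]
      exact dvd_sub ((hxy e₁).mul_right _) (h2'.mul_right _)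
  obtain ⟨E, hE⟩ : ∃ E : ℕ, (e₂ : ℕ) + 1 = (e₁ : ℕ) + 1 + E := ⟨(e₂ : ℕ) - e₁, by omega⟩
  have hE0 : 0 < E := by
    have : (e₁ : ℕ) < e₂ := hlt
    omega
  have hXY : X ^ 2 + D * Y ^ 2 = (p : ℤ) ^ E := by
    have h1 : (K * q₁) ^ 2 * (X ^ 2 + D * Y ^ 2) = (K * q₁) ^ 2 * (p : ℤ) ^ E := by
      calc (K * q₁) ^ 2 * (X ^ 2 + D * Y ^ 2) = (K * q₁ * X) ^ 2 + D * (K * q₁ * Y) ^ 2 := by ring
        _ = (x e₁ ^ 2 + D * y e₁ ^ 2) * (x e₂ ^ 2 + D * y e₂ ^ 2) := by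
            rw [← hX, ← hY]
            ring
        _ = (K * q₁) * (K * (q₁ * (p : ℤ) ^ E)) := by
            rw [hnorm e₁, hnorm e₂, hkk, hE, pow_add _ ((e₁ : ℕ) + 1) E]
        _ = (K * q₁) ^ 2 * (p : ℤ) ^ E := by ring
    exact mul_left_cancel₀ (pow_ne_zero _ (mul_ne_zero hK0.ne' hq₁0)) h1
  refine ⟨E, X, Y, hE0, hXY, fun hpX => ?_⟩
  have hpY : (p : ℤ) ∣ Y := by
    have h1 : (p : ℤ) ∣ D * Y ^ 2 := by
      have h2 : (p : ℤ) ∣ X ^ 2 + D * Y ^ 2 := by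
        rw [hXY]
        exact dvd_pow_self _ hE0.ne'
      exact (dvd_add_right (dvd_pow hpX (by norm_num))).1 h2
    rcases hpZ.dvd_or_dvd h1 with h | h
    · exact absurd h hpD
    · exact hpZ.dvd_of_dvd_pow h
  have hpy2 : ¬ (p : ℤ) ∣ y e₂ := by
    rintro ⟨y1, hy1⟩
    have hx2 : (p : ℤ) ∣ x e₂ := by
      have h1 : (p : ℤ) ∣ x e₂ - ρ * y e₂ := (dvd_pow_self _ (Nat.succ_ne_zero _)).trans (hxy e₂)
      have h2 : (p : ℤ) ∣ ρ * y e₂ := ⟨ρ * y1, by rw [hy1]; ring⟩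
      exact (dvd_sub_comm.1 h1 |> fun h => (dvd_sub_right h2).1 h)
    obtain ⟨x1, hx1⟩ := hx2
    have h3 : (p : ℤ) ^ (e₂ : ℕ) ∣ x1 - ρ * y1 := by
      have h4 := hxy e₂
      have e1 : x e₂ - ρ * y e₂ = p * (x1 - ρ * y1) := by rw [hx1, hy1]; ring
      rw [e1, pow_succ'] at h4
      exact (mul_dvd_mul_iff_left hpZ.ne_zero).1 h4
    have h5 : (p : ℤ) ^ (e₂ : ℕ) ∣ x1 ^ 2 + D * y1 ^ 2 := by
      have e1 : x1 ^ 2 + D * y1 ^ 2 = (x1 - ρ * y1) * (x1 + ρ * y1) + (ρ ^ 2 + D) * y1 ^ 2 := by ring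
      rw [e1]
      refine dvd_add (h3.mul_right _) (Dvd.dvd.mul_right ?_ _)
      refine (pow_dvd_pow _ ?_).trans hρ
      have := e₂.2
      omega
    obtain ⟨s, hs⟩ := h5
    have h6 : k e₂ * (p : ℤ) ^ ((e₂ : ℕ) + 1) = p ^ 2 * ((p : ℤ) ^ (e₂ : ℕ) * s) := by
      rw [← hs, ← hnorm e₂, hx1, hy1]
      ring
    have h7 : k e₂ = p * s := by
      have h8 : (p : ℤ) ^ ((e₂ : ℕ) + 1) ≠ 0 := pow_ne_zero _ hpZ.ne_zero
      apply mul_right_cancel₀ h8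
      rw [h6, pow_succ]
      ring
    apply hpK
    rw [← hkk, h7]
    exact dvd_mul_right _ _
  -- the contradiction
  obtain ⟨Y1, hY1⟩ := hpY
  have hstep : (p : ℤ) ^ ((e₁ : ℕ) + 1 + 1) ∣ x e₁ - ρ * y e₁ := by
    have h1 : (p : ℤ) ^ ((e₁ : ℕ) + 1 + 1) ∣ x e₁ * y e₂ - x e₂ * y e₁ := by
      rw [hY, hY1, pow_succ]
      exact ⟨K * Y1, by rw [← hq₁]; ring⟩
    have h2 : (p : ℤ) ^ ((e₁ : ℕ) + 1 + 1) ∣ x e₂ - ρ * y e₂ :=
      (pow_dvd_pow _ (by omega)).trans (hxy e₂)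
    have h3 : (p : ℤ) ^ ((e₁ : ℕ) + 1 + 1) ∣ (x e₁ - ρ * y e₁) * y e₂ := by
      have e1 : (x e₁ - ρ * y e₁) * y e₂ = (x e₁ * y e₂ - x e₂ * y e₁) +
          (x e₂ - ρ * y e₂) * y e₁ := by ring
      rw [e1]
      exact dvd_add h1 (h2.mul_right _)
    exact (((hpZ.coprime_iff_not_dvd.2 hpy2).pow_left).dvd_of_dvd_mul_right h3)
  have hfin : (p : ℤ) ^ ((e₁ : ℕ) + 1 + 1) ∣ x e₁ ^ 2 + D * y e₁ ^ 2 := by
    have e1 : x e₁ ^ 2 + D * y e₁ ^ 2 = (x e₁ - ρ * y e₁) * (x e₁ + ρ * y e₁) +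
        (ρ ^ 2 + D) * y e₁ ^ 2 := by ring
    rw [e1]
    refine dvd_add (hstep.mul_right _) (Dvd.dvd.mul_right ?_ _)
    refine (pow_dvd_pow _ ?_).trans hρ
    have := e₁.2
    omega
  rw [hnorm e₁, pow_succ] at hfin
  obtain ⟨s, hs⟩ := hfin
  apply hpK
  refine ⟨s, ?_⟩
  have h8 : (p : ℤ) ^ ((e₁ : ℕ) + 1) ≠ 0 := pow_ne_zero _ hpZ.ne_zero
  apply mul_right_cancel₀ h8
  rw [hs]
  ring

theorem isSquare_of_modEq {p : ℕ} (hp : p.Prime) {D : ℕ} (h : p % (4 * D) = 1) :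
    ∃ r : ℤ, (p : ℤ) ∣ r ^ 2 + D := by
  have : Fact p.Prime := ⟨hp⟩
  have hodd : Odd p := by
    rw [Nat.odd_iff]
    have h1 : p % 4 = 1 := by
      have := Nat.mod_mul_right_mod p 4 D
      rw [h] at this
      omega
    omega
  have h1 : jacobiSym (-(D : ℤ)) p = 1 := by
    rw [jacobiSym.mod_right _ hodd]
    have h2 : (-(D : ℤ)).natAbs = D := by simp
    rw [h2, h, jacobiSym.one_right]
  rw [← jacobiSym.legendreSym.to_jacobiSym] at h1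
  have h3 : ((-(D : ℤ) : ℤ) : ZMod p) ≠ 0 := by
    intro h0
    rw [(legendreSym.eq_zero_iff p _).2 h0] at h1
    norm_num at h1
  obtain ⟨r, hr⟩ := (legendreSym.eq_one_iff p h3).1 h1
  refine ⟨(r.val : ℤ), ?_⟩
  rw [← ZMod.intCast_zmod_eq_zero_iff_dvd]
  push_cast
  rw [ZMod.natCast_zmod_val]
  push_cast at hr
  rw [sq, ← hr]
  ring

/-- CM points are ordinary at almost all primes congruent to one. -/
theorem ordAt_of_modEq {τ : ℍ} (hcm : IsCM τ) : ∃ D : ℕ, 0 < D ∧ ∀ p : ℕ, p.Prime → D + 1 < p →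
    p % (4 * D) = 1 → OrdAt p τ := by
  obtain ⟨a, b, c, ha, habc⟩ := hcm
  have hK := H610.disc_pos τ a b c ha habc
  refine ⟨(4 * a * c - b ^ 2).toNat, by omega, fun p hp hlt hmod => ?_⟩
  set D := (4 * a * c - b ^ 2).toNat with hD
  have hDZ : (D : ℤ) = 4 * a * c - b ^ 2 := by omega
  have hD0 : 0 < D := by omega
  have hp2 : p ≠ 2 := by
    rintro rfl
    omega
  obtain ⟨r, hr⟩ := isSquare_of_modEq hp hmod
  obtain ⟨E, X, Y, hE, hXY, hX⟩ := exists_norm hp hp2 hD0 hlt hr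
  refine ⟨E, !![X - b * Y, -(2 * c * Y); 2 * a * Y, X + b * Y], hE, ?_, ?_, ?_⟩
  · rw [Matrix.det_fin_two_of, ← hXY, hDZ]
    ring
  · rw [Matrix.trace_fin_two_of]
    intro h
    have h1 : (p : ℤ) ∣ 2 * X := by
      have : X - b * Y + (X + b * Y) = 2 * X := by ring
      rwa [this] at h
    rcases (Nat.prime_iff_prime_int.1 hp).dvd_or_dvd h1 with h2 | h2
    · have h3 : (p : ℤ) ∣ ((2 : ℕ) : ℤ) := by exact_mod_cast h2
      have h4 : p ∣ 2 := by exact_mod_cast h3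
      exact hp2 ((Nat.prime_dvd_prime_iff_eq hp Nat.prime_two).1 h4)
    · exact hX h2
  · simp only [N135.ZO.Rel, N135.ZO.den, N135.ZO.num, Matrix.of_apply, Matrix.cons_val', Matrix.cons_val_zero,
      Matrix.cons_val_one, Matrix.cons_val_fin_one]
    push_cast
    linear_combination (2 * (Y : ℂ)) * habc

end Pool.Agent.H882
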