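import Pool.Agent.H882.PmPoly

/-!
Counting the exceptional classes of tuples of monic polynomials.
-/

set_option autoImplicit false

namespace Pool.Agent.H882

open Polynomial

theorem card_pull' {α β : Type} [Fintype α] [Fintype β] {p : ℕ} [NeZero p] (σ : α → β)
    (hσ : Function.Injective σ) (S : Set (α → ZMod p)) :
    {u : β → ZMod p | (fun i => u (σ i)) ∈ S}.ncard ≤
      S.ncard * p ^ (Fintype.card β - Fintype.card α) := by
  classical
  let K : Set β := (Set.range σ)ᶜ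
  have hK : Fintype.card K = Fintype.card β - Fintype.card α := by
    rw [Fintype.card_compl_set, Set.card_range_of_injective hσ]
  have hcu : (Set.univ : Set (K → ZMod p)).ncard = p ^ (Fintype.card β - Fintype.card α) := by
    rw [Set.ncard_univ, Nat.card_eq_fintype_card, Fintype.card_fun, ZMod.card, hK]
  have h1 : {u : β → ZMod p | (fun i => u (σ i)) ∈ S}.ncard ≤
      (S ×ˢ (Set.univ : Set (K → ZMod p))).ncard := by
    refine Set.ncard_le_ncard_of_injOn (fun u => ((fun i => u (σ i)), fun k : K => u k)) ?_ ?_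
      (Set.toFinite _)
    · intro u hu
      exact ⟨hu, Set.mem_univ _⟩
    · intro u _ v _ huv
      rw [Prod.mk.injEq] at huv
      funext j
      by_cases hj : j ∈ Set.range σ
      · obtain ⟨i, rfl⟩ := hj
        exact congrFun huv.1 i
      · exact congrFun huv.2 ⟨j, hj⟩
  rwa [Set.ncard_prod, hcu] at h1

/-- the proportion -/
noncomputable def kap {n : ℕ} (d : Fin n → ℕ) : ℝ := ∏ i, (1 : ℝ) / (2 ^ d i * (d i).factorial)

theorem kap_pos {n : ℕ} (d : Fin n → ℕ) : 0 < kap d :=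
  Finset.prod_pos fun i _ => by
    have hf : (0 : ℝ) < (d i).factorial := by exact_mod_cast (d i).factorial_pos
    positivity

theorem kap_le {n : ℕ} (d : Fin n → ℕ) : kap d ≤ 1 :=
  Finset.prod_le_one (fun i _ => by
    have hf : (0 : ℝ) < (d i).factorial := by exact_mod_cast (d i).factorial_pos
    positivity) fun i _ => by
    rw [div_le_one (by
      have hf : (0 : ℝ) < (d i).factorial := by exact_mod_cast (d i).factorial_pos
      positivity)]
    have h1 : (1 : ℝ) ≤ 2 ^ d i := one_le_pow₀ (by norm_num)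
    have h2 : (1 : ℝ) ≤ (d i).factorial := by exact_mod_cast (d i).factorial_pos
    nlinarith

theorem card_NS {n p : ℕ} (d : Fin n → ℕ) (hp : p.Prime) (hpd : ∀ i, 2 * d i ≤ p) :
    (({v : (Σ i, Fin (d i)) → ZMod p | ¬ ∀ i, Spl fun j => v ⟨i, j⟩}.ncard : ℕ) : ℝ) ≤
      (1 - kap d) * (p : ℝ) ^ (Fintype.card (Σ i, Fin (d i))) := by
  classical
  have : NeZero p := ⟨hp.ne_zero⟩
  have h0 : {v : (Σ i, Fin (d i)) → ZMod p | ¬ ∀ i, Spl fun j => v ⟨i, j⟩} =
      {v : (Σ i, Fin (d i)) → ZMod p | ∀ i, Spl fun j => v ⟨i, j⟩}ᶜ := rfl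
  have h1 := Set.ncard_add_ncard_compl
    {v : (Σ i, Fin (d i)) → ZMod p | ∀ i, Spl fun j => v ⟨i, j⟩}
  rw [← h0, Nat.card_eq_fintype_card, Fintype.card_fun, ZMod.card] at h1
  have h2 : ∏ i, p.choose (d i) ≤
      {v : (Σ i, Fin (d i)) → ZMod p | ∀ i, Spl fun j => v ⟨i, j⟩}.ncard := by
    have hfin : ∀ i, {v : Fin (d i) → ZMod p | Spl v}.Finite := fun i => Set.toFinite _
    have h3 : ((Fintype.piFinset fun i => (hfin i).toFinset :
        Finset (∀ i, Fin (d i) → ZMod p)) : Set (∀ i, Fin (d i) → ZMod p)).ncard ≤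
        {v : (Σ i, Fin (d i)) → ZMod p | ∀ i, Spl fun j => v ⟨i, j⟩}.ncard := by
      refine Set.ncard_le_ncard_of_injOn (fun w => fun x => w x.1 x.2) ?_ ?_ (Set.toFinite _)
      · intro w hw i
        rw [Finset.mem_coe, Fintype.mem_piFinset] at hw
        have := hw i
        rw [Set.Finite.mem_toFinset] at this
        exact this
      · intro w _ w' _ h
        funext i j
        exact congrFun h ⟨i, j⟩
    rw [Set.ncard_coe_finset, Fintype.card_piFinset] at h3
    refine le_trans ?_ h3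
    refine Finset.prod_le_prod' fun i _ => ?_
    rw [← Set.ncard_eq_toFinset_card _ (hfin i)]
    exact card_Spl hp
  have h3 : kap d * (p : ℝ) ^ (Fintype.card (Σ i, Fin (d i))) ≤
      (({v : (Σ i, Fin (d i)) → ZMod p | ∀ i, Spl fun j => v ⟨i, j⟩}.ncard : ℕ) : ℝ) := by
    have h4 : ((∏ i, p.choose (d i) : ℕ) : ℝ) ≤
        (({v : (Σ i, Fin (d i)) → ZMod p | ∀ i, Spl fun j => v ⟨i, j⟩}.ncard : ℕ) : ℝ) := by
      exact_mod_cast h2
    refine le_trans ?_ h4
    have e : kap d * (p : ℝ) ^ (Fintype.card (Σ i, Fin (d i))) =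
        ∏ i, ((p : ℝ) ^ d i / (2 ^ d i * (d i).factorial)) := by
      unfold kap
      rw [Fintype.card_sigma]
      simp only [Fintype.card_fin]
      rw [← Finset.prod_pow_eq_pow_sum, ← Finset.prod_mul_distrib]
      refine Finset.prod_congr rfl fun i _ => ?_
      ring
    rw [e]
    push_cast
    exact Finset.prod_le_prod (fun i _ => by positivity) fun i _ => choose_ge (hpd i)
  have h4 : (({v : (Σ i, Fin (d i)) → ZMod p | ∀ i, Spl fun j => v ⟨i, j⟩}.ncard : ℕ) : ℝ) +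
      (({v : (Σ i, Fin (d i)) → ZMod p | ¬ ∀ i, Spl fun j => v ⟨i, j⟩}.ncard : ℕ) : ℝ) =
      (p : ℝ) ^ (Fintype.card (Σ i, Fin (d i))) := by exact_mod_cast h1
  linarith

theorem card_RT {n p : ℕ} [NeZero p] (d : Fin n → ℕ) (hd : ∀ i, 0 < d i)
    (E : Set (Fin n → ZMod p)) :
    {v : (Σ i, Fin (d i)) → ZMod p | ∃ a ∈ E, ∀ i, (mp fun j => v ⟨i, j⟩).eval (a i) = 0}.ncard ≤
      E.ncard * p ^ (Fintype.card (Σ i, Fin (d i)) - n) := by
  classical
  have hEf : E.Finite := Set.toFinite E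
  let τ : Fin n → (Σ i, Fin (d i)) := fun i => ⟨i, ⟨0, hd i⟩⟩
  have hτ : Function.Injective τ := fun i j h => congrArg Sigma.fst h
  let K : Set (Σ i, Fin (d i)) := (Set.range τ)ᶜ
  have hK : Fintype.card K = Fintype.card (Σ i, Fin (d i)) - n := by
    rw [Fintype.card_compl_set, Set.card_range_of_injective hτ, Fintype.card_fin]
  have hcu : (Set.univ : Set (K → ZMod p)).ncard =
      p ^ (Fintype.card (Σ i, Fin (d i)) - n) := by
    rw [Set.ncard_univ, Nat.card_eq_fintype_card, Fintype.card_fun, ZMod.card, hK]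
  have hT : ∀ a : Fin n → ZMod p, {v : (Σ i, Fin (d i)) → ZMod p |
      ∀ i, (mp fun j => v ⟨i, j⟩).eval (a i) = 0}.ncard ≤
        p ^ (Fintype.card (Σ i, Fin (d i)) - n) := by
    intro a
    rw [← hcu]
    refine Set.ncard_le_ncard_of_injOn (fun u => fun k : K => u k) (fun u _ => Set.mem_univ _) ?_
      (Set.toFinite _)
    intro u hu v hv huv
    have hoff : ∀ x : (Σ i, Fin (d i)), x ∉ Set.range τ → u x = v x := fun x hx =>
      congrFun huv ⟨x, hx⟩
    funext x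
    by_cases hx : x ∈ Set.range τ
    · obtain ⟨i, rfl⟩ := hx
      have h1 := hu i
      have h2 := hv i
      rw [mp_eval] at h1 h2
      have h3 : ∑ j : Fin (d i), (u ⟨i, j⟩ - v ⟨i, j⟩) * a i ^ (j : ℕ) = 0 := by
        have h4 : ∑ j : Fin (d i), u ⟨i, j⟩ * a i ^ (j : ℕ) =
            ∑ j : Fin (d i), v ⟨i, j⟩ * a i ^ (j : ℕ) :=
          (eq_neg_of_add_eq_zero_right h1).trans (eq_neg_of_add_eq_zero_right h2).symm
        simp only [sub_mul]
        rw [Finset.sum_sub_distrib, h4, sub_self]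
      rw [Finset.sum_eq_single (⟨0, hd i⟩ : Fin (d i))] at h3
      · simpa using sub_eq_zero.1 (by simpa using h3)
      · intro j _ hj
        rw [hoff ⟨i, j⟩, sub_self, zero_mul]
        rintro ⟨i', hi'⟩
        have h5 : i' = i := congrArg Sigma.fst hi'
        subst h5
        have h6 := eq_of_heq (Sigma.mk.inj hi').2
        exact hj h6.symm
      · intro h
        exact absurd (Finset.mem_univ _) h
    · exact hoff x hx
  have hsub : {v : (Σ i, Fin (d i)) → ZMod p | ∃ a ∈ E, ∀ i,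
      (mp fun j => v ⟨i, j⟩).eval (a i) = 0} ⊆
      ⋃ a ∈ hEf.toFinset, {v : (Σ i, Fin (d i)) → ZMod p |
        ∀ i, (mp fun j => v ⟨i, j⟩).eval (a i) = 0} := by
    rintro v ⟨a, ha, h⟩
    exact Set.mem_iUnion₂.2 ⟨a, (Set.Finite.mem_toFinset _).2 ha, h⟩
  refine (Set.ncard_le_ncard hsub (Set.toFinite _)).trans ?_
  refine (Finset.set_ncard_biUnion_le _ _).trans ?_
  refine (Finset.sum_le_sum fun a _ => hT a).trans ?_
  rw [Finset.sum_const, smul_eq_mul, ← Set.ncard_eq_toFinset_card E hEf]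

theorem pair_mp {n N p q D : ℕ} (hp : p.Prime) (hq : q.Prime) (d : Fin n → ℕ)
    (hd : ∀ i, 0 < d i) (hD : ∀ i, d i ≤ D) (σ : (Σ i, Fin (d i)) → Fin N)
    (hσ : Function.Injective σ) (Γ : ZMod p → Set ℂ) (Γ' : ZMod q → Set ℂ)
    (h1 : ∀ a, (Γ a).Subsingleton) (h2 : ∀ z a b, z ∈ Γ' a → z ∈ Γ' b → a = b) :
    {uv : (Fin N → ZMod p) × (Fin N → ZMod q) | ∃ i a b z,
      (mp fun j => uv.1 (σ ⟨i, j⟩)).eval a = 0 ∧ (mp fun j => uv.2 (σ ⟨i, j⟩)).eval b = 0 ∧
        z ∈ Γ a ∧ z ∈ Γ' b}.ncard ≤ n * (p ^ N * (D * q ^ (N - 1))) := by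
  classical
  have : Fact p.Prime := ⟨hp⟩
  have : Fact q.Prime := ⟨hq⟩
  -- one root
  have hT : ∀ (i : Fin n) (a : ZMod p), {v : Fin N → ZMod q | ∃ b z, z ∈ Γ a ∧ z ∈ Γ' b ∧
      (mp fun j => v (σ ⟨i, j⟩)).eval b = 0}.ncard ≤ q ^ (N - 1) := by
    intro i a
    rcases {v : Fin N → ZMod q | ∃ b z, z ∈ Γ a ∧ z ∈ Γ' b ∧
      (mp fun j => v (σ ⟨i, j⟩)).eval b = 0}.eq_empty_or_nonempty with h | ⟨v₀, b₀, z₀, hz, hz', -⟩
    · rw [h, Set.ncard_empty]
      exact Nat.zero_le _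
    · let g : (Fin N → ZMod q) → Finset (ZMod q) := fun v =>
        {-(b₀ ^ d i + ∑ j : Fin (d i), if (j : ℕ) = 0 then 0 else v (σ ⟨i, j⟩) * b₀ ^ (j : ℕ))}
      have h3 := count_coord (n := N) (q := q) (σ ⟨i, ⟨0, hd i⟩⟩) g (fun s b => ?_) 1 fun s => ?_
      · rw [one_mul] at h3
        refine le_trans ?_ h3
        rw [← Set.ncard_coe_finset]
        refine Set.ncard_le_ncard ?_ (Finset.finite_toSet _)
        rintro v ⟨b, z, hzb, hzb', hev⟩
        have hz2 : z = z₀ := h1 a hzb hz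
        rw [hz2] at hzb'
        have hb : b = b₀ := h2 z₀ _ _ hzb' hz'
        rw [hb, mp_eval] at hev
        rw [Finset.mem_coe, Finset.mem_filter]
        refine ⟨Finset.mem_univ _, ?_⟩
        show v (σ ⟨i, ⟨0, hd i⟩⟩) ∈ ({_} : Finset (ZMod q))
        rw [Finset.mem_singleton]
        have h4 : ∑ j : Fin (d i), v (σ ⟨i, j⟩) * b₀ ^ (j : ℕ) = v (σ ⟨i, ⟨0, hd i⟩⟩) +
            ∑ j : Fin (d i), if (j : ℕ) = 0 then 0 else v (σ ⟨i, j⟩) * b₀ ^ (j : ℕ) := by
          rw [← Finset.add_sum_erase Finset.univ _ (Finset.mem_univ (⟨0, hd i⟩ : Fin (d i))),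
            ← Finset.add_sum_erase Finset.univ (fun j : Fin (d i) =>
              if (j : ℕ) = 0 then 0 else v (σ ⟨i, j⟩) * b₀ ^ (j : ℕ))
              (Finset.mem_univ (⟨0, hd i⟩ : Fin (d i)))]
          have e1 : ∑ j ∈ Finset.univ.erase (⟨0, hd i⟩ : Fin (d i)), v (σ ⟨i, j⟩) * b₀ ^ (j : ℕ) =
              ∑ j ∈ Finset.univ.erase (⟨0, hd i⟩ : Fin (d i)),
                if (j : ℕ) = 0 then 0 else v (σ ⟨i, j⟩) * b₀ ^ (j : ℕ) := by
            refine Finset.sum_congr rfl fun j hj => ?_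
            rw [if_neg]
            intro h0
            exact Finset.ne_of_mem_erase hj (Fin.ext h0)
          rw [e1]
          simp
        rw [h4] at hev
        linear_combination hev
      · show ({_} : Finset (ZMod q)) = {_}
        congr 3
        refine Finset.sum_congr rfl fun j _ => ?_
        by_cases hj : (j : ℕ) = 0
        · rw [if_pos hj, if_pos hj]
        · rw [if_neg hj, if_neg hj, Function.update_of_ne]
          intro h
          have h5 := hσ h
          have h6 := eq_of_heq (Sigma.mk.inj h5).2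
          exact hj (congrArg Fin.val h6)
      · exact (Finset.card_singleton _).le
  let R : Fin n → (Fin N → ZMod p) → Finset (ZMod p) := fun i u =>
    (mp fun j => u (σ ⟨i, j⟩)).roots.toFinset
  have hR : ∀ i u, (R i u).card ≤ D := by
    intro i u
    refine (Multiset.toFinset_card_le _).trans ((Polynomial.card_roots' _).trans ?_)
    rw [mp_natDegree]
    exact hD i
  have hsub : {uv : (Fin N → ZMod p) × (Fin N → ZMod q) | ∃ i a b z,
      (mp fun j => uv.1 (σ ⟨i, j⟩)).eval a = 0 ∧ (mp fun j => uv.2 (σ ⟨i, j⟩)).eval b = 0 ∧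
        z ∈ Γ a ∧ z ∈ Γ' b} ⊆ ⋃ iu : Fin n × (Fin N → ZMod p),
        ({iu.2} : Set (Fin N → ZMod p)) ×ˢ (⋃ a ∈ R iu.1 iu.2, {v : Fin N → ZMod q | ∃ b z,
          z ∈ Γ a ∧ z ∈ Γ' b ∧ (mp fun j => v (σ ⟨iu.1, j⟩)).eval b = 0}) := by
    rintro ⟨u, v⟩ ⟨i, a, b, z, ha, hb, hz, hz'⟩
    rw [Set.mem_iUnion]
    refine ⟨(i, u), Set.mem_singleton _, Set.mem_iUnion₂.2 ⟨a, ?_, b, z, hz, hz', hb⟩⟩
    rw [Multiset.mem_toFinset, Polynomial.mem_roots (mp_monic _).ne_zero]
    exact ha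
  refine (Set.ncard_le_ncard hsub (Set.toFinite _)).trans ?_
  refine (Set.ncard_iUnion_le_of_fintype _).trans ?_
  calc ∑ iu : Fin n × (Fin N → ZMod p), (({iu.2} : Set (Fin N → ZMod p)) ×ˢ
        (⋃ a ∈ R iu.1 iu.2, {v : Fin N → ZMod q | ∃ b z,
          z ∈ Γ a ∧ z ∈ Γ' b ∧ (mp fun j => v (σ ⟨iu.1, j⟩)).eval b = 0})).ncard
      ≤ ∑ iu : Fin n × (Fin N → ZMod p), D * q ^ (N - 1) := by
        refine Finset.sum_le_sum fun iu _ => ?_
        rw [Set.ncard_prod, Set.ncard_singleton, one_mul]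
        refine (Finset.set_ncard_biUnion_le _ _).trans ?_
        refine (Finset.sum_le_sum fun a _ => hT iu.1 a).trans ?_
        rw [Finset.sum_const, smul_eq_mul]
        exact Nat.mul_le_mul_right _ (hR _ _)
    _ = _ := by
        rw [Finset.sum_const, Finset.card_univ, Fintype.card_prod, Fintype.card_fin,
          Fintype.card_fun, ZMod.card, Fintype.card_fin, smul_eq_mul]
        ring

end Pool.Agent.H882
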