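import Pool.Agent.H882.PmCount

/-!
The local theorem in the pure case, where the centre may depend on the embedding.
-/

set_option autoImplicit false

namespace Pool.Agent.H882

open UpperHalfPlane H294ZP Function Pool.Agent.Y226

theorem pure_local {n p : ℕ} (hp : p.Prime) {E : Set (Fin n → ZMod p)} {Γ : ZMod p → Set ℂ}
    {C : Type} [NormedField C] [IsUltrametricDist C] [CompleteSpace C] [CharZero C]
    [IsAlgClosed C] (φ₀ : QA →+* C) (hpC : ‖(p : C)‖ = (p : ℝ)⁻¹) (hmain : CoreCW n p E Γ φ₀)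
    {F : Subfield ℂ} {m : ℕ} (x : Fin n → ℂ)
    (hemb : ∀ {ι : Type} [Finite ι] (u : ι → ℂ), AlgebraicIndependent F u → ∀ (a : ι → QA),
      ∃ Φ : ℂ →+* C, (∀ a : QA, Φ (a : ℂ) = φ₀ a) ∧ (∀ i, ‖Φ (u i) - φ₀ (a i)‖ < 1) ∧
        ∃ (Bad : Finset (Fin n)) (s : Fin n → ℤ), Bad.card ≤ m ∧
          (fun i : Fin n => (s i : ZMod p)) ∉ E ∧ (∀ i, x i ∉ Γ (s i)) ∧
          ∀ i, i ∉ Bad → ‖Φ (x i) - (s i : C)‖ ^ (p - 1) < ‖(p : C)‖)
    {r : ℕ} (Z : SpecialDatum n r) (hxZ : x ∈ Z.locus) (W : Finset (Fin n))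
    (hind : AlgebraicIndependent F (fun i : W => x i)) : n + W.card ≤ m + r := by
  classical
  have hp1 : ‖(p : C)‖ < 1 := by
    rw [hpC]
    exact inv_lt_one_of_one_lt₀ (by exact_mod_cast hp.one_lt)
  have hpR : (1 : ℝ) < p := by exact_mod_cast hp.one_lt
  obtain ⟨Φ, h1, h3, Bad, s, hBad, hs, hxΓ, hgood⟩ := hemb _ hind (fun _ => (p : QA)⁻¹)
  have hq : ‖φ₀ ((p : QA)⁻¹)‖ = p := by
    rw [map_inv₀, map_natCast, norm_inv, hpC, inv_inv]
  have hW : ∀ i ∈ W, 1 < ‖Φ (x i)‖ := by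
    intro i hi
    have h4 : ‖Φ (x i) - φ₀ ((p : QA)⁻¹)‖ < 1 := h3 ⟨i, hi⟩
    have e : Φ (x i) = φ₀ ((p : QA)⁻¹) + (Φ (x i) - φ₀ ((p : QA)⁻¹)) := by ring
    have h5 : ‖Φ (x i)‖ = p := by
      rw [e, IsUltrametricDist.norm_add_eq_max_of_norm_ne_norm]
      · rw [hq]
        exact max_eq_left (h4.trans hpR).le
      · rw [hq]
        exact (h4.trans hpR).ne'
    rw [h5]
    exact hpR
  have h6 := hmain Φ h1 s hs r Z x hxZ (Finset.univ.filter fun i : Fin n => i ∉ Bad) W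
    (fun i hi => hgood i (Finset.mem_filter.1 hi).2) (fun i _ => hxΓ i) hW
    (hind.restrictScalars (algebraMap ℚ F).injective)
  have h7 : (Finset.univ.filter fun i : Fin n => i ∉ Bad) = Badᶜ := by
    ext i
    simp
  rw [h7, Finset.card_compl, Fintype.card_fin] at h6
  omega

end Pool.Agent.H882
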