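import Pool.Agent.H882.FmRes

/-!
Monic polynomials with given coefficients: counting those which split, and zeros near to the roots.
-/

set_option autoImplicit false

namespace Pool.Agent.H882

open Polynomial

/-- the monic polynomial of degree `d` with the coefficients `v` -/
noncomputable def mp {R : Type} [CommRing R] {d : ℕ} (v : Fin d → R) : R[X] :=
  X ^ d + ∑ j : Fin d, Polynomial.C (v j) * X ^ (j : ℕ)

theorem mp_map {R S : Type} [CommRing R] [CommRing S] (φ : R →+* S) {d : ℕ} (v : Fin d → R) :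
    (mp v).map φ = mp (fun j => φ (v j)) := by
  unfold mp
  simp [Polynomial.map_sum]

theorem mp_eval {R : Type} [CommRing R] {d : ℕ} (v : Fin d → R) (x : R) :
    (mp v).eval x = x ^ d + ∑ j : Fin d, v j * x ^ (j : ℕ) := by
  unfold mp
  simp [Polynomial.eval_finsetSum]

theorem mp_coeff {R : Type} [CommRing R] {d : ℕ} (v : Fin d → R) (j : Fin d) :
    (mp v).coeff j = v j := by
  unfold mp
  rw [Polynomial.coeff_add, Polynomial.coeff_X_pow, if_neg j.isLt.ne, zero_add,
    Polynomial.finsetSum_coeff]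
  simp only [Polynomial.coeff_C_mul_X_pow]
  rw [Finset.sum_eq_single j]
  · rw [if_pos rfl]
  · intro i _ hij
    rw [if_neg fun h => hij (Fin.ext h.symm)]
  · intro h
    exact absurd (Finset.mem_univ j) h

theorem mp_inj {R : Type} [CommRing R] {d : ℕ} {v w : Fin d → R} (h : mp v = mp w) : v = w := by
  funext j
  rw [← mp_coeff v j, ← mp_coeff w j, h]

theorem mp_lt {R : Type} [CommRing R] {d : ℕ} (v : Fin d → R) :
    (∑ j : Fin d, Polynomial.C (v j) * X ^ (j : ℕ)).degree < (d : WithBot ℕ) := by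
  refine (Polynomial.degree_sum_fin_lt v)

theorem mp_monic {R : Type} [CommRing R] {d : ℕ} (v : Fin d → R) : (mp v).Monic :=
  Polynomial.monic_X_pow_add (mp_lt v)

theorem mp_of_monic {R : Type} [CommRing R] {d : ℕ} {g : R[X]} (hg : g.Monic)
    (hd : g.natDegree = d) : mp (fun j : Fin d => g.coeff j) = g := by
  conv_rhs => rw [hg.as_sum, hd]
  unfold mp
  rw [Fin.sum_univ_eq_sum_range (fun j => Polynomial.C (g.coeff j) * X ^ j) d]

theorem mp_natDegree {R : Type} [CommRing R] [Nontrivial R] {d : ℕ} (v : Fin d → R) :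
    (mp v).natDegree = d := by
  unfold mp
  have h := Polynomial.natDegree_add_eq_left_of_degree_lt (p := (X ^ d : R[X]))
    (q := ∑ j : Fin d, Polynomial.C (v j) * X ^ (j : ℕ)) (by
      rw [Polynomial.degree_X_pow]
      exact mp_lt v)
  rw [h, Polynomial.natDegree_X_pow]

/-- the polynomial splits with distinct roots -/
def Spl {p d : ℕ} (v : Fin d → ZMod p) : Prop :=
  ∃ A : Finset (ZMod p), A.card = d ∧ mp v = ∏ a ∈ A, (X - Polynomial.C a)

theorem card_Spl {p d : ℕ} (hp : p.Prime) :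
    p.choose d ≤ {v : Fin d → ZMod p | Spl v}.ncard := by
  classical
  have : Fact p.Prime := ⟨hp⟩
  have hmon : ∀ A : Finset (ZMod p), (∏ a ∈ A, (X - Polynomial.C a)).Monic := fun A =>
    Polynomial.monic_prod_of_monic _ _ fun a _ => Polynomial.monic_X_sub_C a
  have hdeg : ∀ A : Finset (ZMod p), (∏ a ∈ A, (X - Polynomial.C a)).natDegree = A.card := by
    intro A
    rw [Polynomial.natDegree_prod_of_monic _ _ fun a _ => Polynomial.monic_X_sub_C a]
    simp
  have h1 : (((Finset.univ : Finset (ZMod p)).powersetCard d : Finset (Finset (ZMod p))) :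
      Set (Finset (ZMod p))).ncard ≤ {v : Fin d → ZMod p | Spl v}.ncard := by
    refine Set.ncard_le_ncard_of_injOn
      (fun A => fun j : Fin d => (∏ a ∈ A, (X - Polynomial.C a)).coeff j) ?_ ?_ (Set.toFinite _)
    · intro A hA
      rw [Finset.mem_coe, Finset.mem_powersetCard] at hA
      exact ⟨A, hA.2, mp_of_monic (hmon A) ((hdeg A).trans hA.2)⟩
    · intro A hA A' hA' h
      rw [Finset.mem_coe, Finset.mem_powersetCard] at hA hA'
      have h2 : (∏ a ∈ A, (X - Polynomial.C a)) = ∏ a ∈ A', (X - Polynomial.C a) := by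
        rw [← mp_of_monic (hmon A) ((hdeg A).trans hA.2),
          ← mp_of_monic (hmon A') ((hdeg A').trans hA'.2)]
        exact congrArg mp h
      have h3 := congrArg Polynomial.roots h2
      rw [Polynomial.roots_prod_X_sub_C, Polynomial.roots_prod_X_sub_C] at h3
      exact Finset.val_injective h3
  rw [Set.ncard_coe_finset, Finset.card_powersetCard, Finset.card_univ, ZMod.card] at h1
  exact h1

theorem choose_ge {p d : ℕ} (h : 2 * d ≤ p) :
    (p : ℝ) ^ d / (2 ^ d * d.factorial) ≤ (p.choose d : ℝ) := by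
  have h1 : ((p + 1 - d : ℕ) ^ d : ℝ) ≤ d.factorial * p.choose d := by
    exact_mod_cast Nat.pow_sub_le_descFactorial p d |>.trans
      (le_of_eq (Nat.descFactorial_eq_factorial_mul_choose p d))
  have h2 : (p : ℝ) / 2 ≤ ((p + 1 - d : ℕ) : ℝ) := by
    rw [Nat.cast_sub (by omega)]
    have : (2 * d : ℝ) ≤ p := by exact_mod_cast h
    push_cast
    linarith
  have h3 : ((p : ℝ) / 2) ^ d ≤ d.factorial * p.choose d :=
    (pow_le_pow_left₀ (by positivity) h2 d).trans h1
  have hf : (0 : ℝ) < d.factorial := by exact_mod_cast d.factorial_pos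
  rw [div_le_iff₀ (by positivity)]
  rw [div_pow, div_le_iff₀ (by positivity)] at h3
  linarith

section

variable {C : Type} [NormedField C] [IsUltrametricDist C] [CharZero C]

omit [CharZero C] in
theorem nsubmax (x y : C) : ‖x - y‖ ≤ max ‖x‖ ‖y‖ := by
  rw [sub_eq_add_neg, ← norm_neg y]
  exact IsUltrametricDist.norm_add_le_max _ _

/-- A point at which the polynomial is small is near to one of the roots. -/
theorem near_root {p d : ℕ} (hp : p.Prime) (hp3 : 3 < p) (hp1 : ‖(p : C)‖ < 1)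
    (hp0 : 0 < ‖(p : C)‖) (hd : 0 < d) (v : Fin d → ℤ) (A : Finset (ZMod p))
    (hA : mp (fun j => (v j : ZMod p)) = ∏ a ∈ A, (X - Polynomial.C a)) (Y : C)
    (hY : ‖((mp v).map (Int.castRingHom C)).eval Y‖ ^ (p - 1) < ‖(p : C)‖) :
    ∃ a ∈ A, ‖Y - ((a.val : ℤ) : C)‖ ^ (p - 1) < ‖(p : C)‖ := by
  classical
  have : NeZero p := ⟨hp.ne_zero⟩
  have hpow1 : ∀ {u : C}, ‖u‖ ^ (p - 1) < ‖(p : C)‖ → ‖u‖ < 1 := by
    intro u hu
    by_contra h
    push Not at h
    have h2 : (1 : ℝ) ≤ ‖u‖ ^ (p - 1) := one_le_pow₀ h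
    linarith
  have hfY := hpow1 hY
  -- the point is integral
  have hY1 : ‖Y‖ ≤ 1 := by
    by_contra hcon
    push Not at hcon
    have h1 : Y ^ d = ((mp v).map (Int.castRingHom C)).eval Y +
        -(∑ j : Fin d, (v j : C) * Y ^ (j : ℕ)) := by
      rw [mp_map, mp_eval]
      simp
    have h2 : ‖Y ^ d‖ ≤ ‖Y‖ ^ (d - 1) := by
      rw [h1]
      refine (IsUltrametricDist.norm_add_le_max _ _).trans (max_le ?_ ?_)
      · exact hfY.le.trans (one_le_pow₀ hcon.le)
      · rw [norm_neg]
        refine IsUltrametricDist.norm_sum_le_of_forall_le_of_nonneg (by positivity) fun j _ => ?_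
        rw [norm_mul, norm_pow]
        refine (mul_le_of_le_one_left (by positivity)
          (IsUltrametricDist.norm_intCast_le_one C _)).trans ?_
        exact pow_le_pow_right₀ hcon.le (by have := j.isLt; omega)
    rw [norm_pow] at h2
    exact absurd h2 (not_le.2 (pow_lt_pow_right₀ hcon (by omega)))
  -- the product
  have hdiff : ‖((mp v).map (Int.castRingHom C)).eval Y -
      ∏ a ∈ A, (Y - ((a.val : ℤ) : C))‖ ≤ ‖(p : C)‖ := by
    obtain ⟨g, hg⟩ : ∃ g : ℤ[X], g = mp v - ∏ a ∈ A, (X - Polynomial.C (a.val : ℤ)) := ⟨_, rfl⟩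
    have hg0 : g.map (Int.castRingHom (ZMod p)) = 0 := by
      rw [hg, Polynomial.map_sub, mp_map, Polynomial.map_prod]
      have e : (fun j => (Int.castRingHom (ZMod p)) (v j)) = fun j => (v j : ZMod p) := rfl
      rw [e, hA, sub_eq_zero]
      refine Finset.prod_congr rfl fun a _ => ?_
      rw [Polynomial.map_sub, Polynomial.map_X, Polynomial.map_C]
      congr 2
      show a = ((a.val : ℤ) : ZMod p)
      push_cast
      rw [ZMod.natCast_zmod_val]
    have hgc : ∀ i, (p : ℤ) ∣ g.coeff i := by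
      intro i
      have h1 := congrArg (fun h : (ZMod p)[X] => h.coeff i) hg0
      simp only [Polynomial.coeff_map, Polynomial.coeff_zero] at h1
      exact (ZMod.intCast_zmod_eq_zero_iff_dvd _ _).1 h1
    have e : ((mp v).map (Int.castRingHom C)).eval Y - ∏ a ∈ A, (Y - ((a.val : ℤ) : C)) =
        (g.map (Int.castRingHom C)).eval Y := by
      rw [hg, Polynomial.map_sub, Polynomial.eval_sub, Polynomial.map_prod,
        Polynomial.eval_prod]
      congr 1
      refine Finset.prod_congr rfl fun a _ => ?_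
      rw [Polynomial.map_sub, Polynomial.map_X, Polynomial.map_C, Polynomial.eval_sub,
        Polynomial.eval_X, Polynomial.eval_C]
      rfl
    rw [e, Polynomial.eval_eq_sum_range]
    refine IsUltrametricDist.norm_sum_le_of_forall_le_of_nonneg (norm_nonneg _) fun i _ => ?_
    rw [Polynomial.coeff_map, norm_mul, norm_pow]
    exact (mul_le_of_le_one_right (norm_nonneg _) (pow_le_one₀ (norm_nonneg _) hY1)).trans
      (norm_le_p (hgc i))
  have hrad : ∀ {r : ℝ}, 0 ≤ r → r ≤ max ‖((mp v).map (Int.castRingHom C)).eval Y‖ ‖(p : C)‖ →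
      r ^ (p - 1) < ‖(p : C)‖ := by
    intro r hr0 hr
    rcases le_total ‖((mp v).map (Int.castRingHom C)).eval Y‖ ‖(p : C)‖ with h | h
    · rw [max_eq_right h] at hr
      calc r ^ (p - 1) ≤ ‖(p : C)‖ ^ (p - 1) := pow_le_pow_left₀ hr0 hr _
        _ < ‖(p : C)‖ ^ 1 := pow_lt_pow_right_of_lt_one₀ hp0 hp1 (by omega)
        _ = _ := pow_one _
    · rw [max_eq_left h] at hr
      exact (pow_le_pow_left₀ hr0 hr _).trans_lt hY
  have hprod : ‖∏ a ∈ A, (Y - ((a.val : ℤ) : C))‖ ^ (p - 1) < ‖(p : C)‖ := by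
    refine hrad (norm_nonneg _) ?_
    have e : ∏ a ∈ A, (Y - ((a.val : ℤ) : C)) = ((mp v).map (Int.castRingHom C)).eval Y -
        (((mp v).map (Int.castRingHom C)).eval Y - ∏ a ∈ A, (Y - ((a.val : ℤ) : C))) := by ring
    rw [e]
    refine (nsubmax _ _).trans (max_le_max le_rfl hdiff)
  have hle : ∀ a : ZMod p, ‖Y - ((a.val : ℤ) : C)‖ ≤ 1 := fun a =>
    (nsubmax _ _).trans
      (max_le hY1 (IsUltrametricDist.norm_intCast_le_one C _))
  obtain ⟨a, ha, ha1⟩ : ∃ a ∈ A, ‖Y - ((a.val : ℤ) : C)‖ < 1 := by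
    by_contra hcon
    push Not at hcon
    have h1 : ‖∏ a ∈ A, (Y - ((a.val : ℤ) : C))‖ = 1 := by
      rw [norm_prod]
      exact Finset.prod_eq_one fun a ha => le_antisymm (hle a) (hcon a ha)
    have h2 := hpow1 hprod
    rw [h1] at h2
    exact lt_irrefl _ h2
  refine ⟨a, ha, ?_⟩
  have h1 : ‖∏ a ∈ A, (Y - ((a.val : ℤ) : C))‖ = ‖Y - ((a.val : ℤ) : C)‖ := by
    rw [norm_prod, ← Finset.mul_prod_erase A _ ha, Finset.prod_eq_one, mul_one]
    intro b hb
    refine le_antisymm (hle b) ?_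
    by_contra hcon
    push Not at hcon
    have h2 : ‖(((a.val : ℤ) - (b.val : ℤ) : ℤ) : C)‖ < 1 := by
      have e : (((a.val : ℤ) - (b.val : ℤ) : ℤ) : C) = (Y - ((b.val : ℤ) : C)) -
          (Y - ((a.val : ℤ) : C)) := by
        push_cast
        ring
      rw [e]
      exact (nsubmax _ _).trans_lt (max_lt hcon ha1)
    have h3 := dvd_of_norm hp hp1 h2
    rw [← ZMod.intCast_zmod_eq_zero_iff_dvd] at h3
    push_cast at h3
    rw [ZMod.natCast_zmod_val, ZMod.natCast_zmod_val] at h3
    exact Finset.ne_of_mem_erase hb (sub_eq_zero.1 h3).symm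
  rw [h1] at hprod
  exact hprod

end

end Pool.Agent.H882
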