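import Pool.Agent.H882.CenNull

/-!
A set of density zero of rational points, for countably many conditions.
-/

set_option autoImplicit false

namespace Pool.Agent.H882

/-- the height of a rational point -/
def htq {n : ℕ} (s : Fin n → ℚ) : ℕ := Finset.univ.sup fun i => max (s i).num.natAbs (s i).den

theorem abs_le_nat (z : ℤ) (H : ℕ) : |z| ≤ (H : ℤ) ↔ z.natAbs ≤ H := by
  rw [← Int.natCast_natAbs]
  exact Nat.cast_le

theorem nat_le_abs (z : ℤ) (T : ℕ) : (T : ℤ) ≤ |z| ↔ T ≤ z.natAbs := by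
  rw [← Int.natCast_natAbs]
  exact Nat.cast_le

theorem htq_le_iff {n : ℕ} (s : Fin n → ℚ) (H : ℕ) :
    htq s ≤ H ↔ ∀ i, (s i).num.natAbs ≤ H ∧ (s i).den ≤ H := by
  unfold htq
  rw [Finset.sup_le_iff]
  constructor
  · intro h i
    exact max_le_iff.mp (h i (Finset.mem_univ i))
  · intro h i _
    exact max_le_iff.mpr (h i)

/-- the code of a rational point -/
def codeq {n : ℕ} (s : Fin n → ℚ) : (Fin n → ℤ) × (Fin n → ℕ) :=
  (fun i => (s i).num, fun i => (s i).den - 1)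

theorem codeq_inj {n : ℕ} : Function.Injective (codeq (n := n)) := by
  intro s t hst
  funext i
  have h1 : (s i).num = (t i).num := congrFun (congrArg Prod.fst hst) i
  have h2 : (s i).den - 1 = (t i).den - 1 := congrFun (congrArg Prod.snd hst) i
  have h3 := (s i).den_pos
  have h4 := (t i).den_pos
  exact Rat.ext h1 (by omega)

theorem codeq_val {n : ℕ} (s : Fin n → ℚ) :
    (fun i => ((codeq s).1 i : ℚ) / (((codeq s).2 i + 1 : ℕ) : ℚ)) = s := by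
  funext i
  show ((s i).num : ℚ) / (((s i).den - 1 + 1 : ℕ) : ℚ) = s i
  rw [Nat.sub_add_cancel (s i).den_pos]
  exact Rat.num_div_den (s i)

/-- the box -/
noncomputable def boxq (n H : ℕ) : Finset ((Fin n → ℤ) × (Fin n → ℕ)) :=
  (Fintype.piFinset fun _ => Finset.Icc (-(H : ℤ)) (H : ℤ)) ×ˢ
    (Fintype.piFinset fun _ => Finset.range H)

theorem mem_boxq {n H : ℕ} (q : (Fin n → ℤ) × (Fin n → ℕ)) :
    q ∈ boxq n H ↔ (∀ i, |q.1 i| ≤ (H : ℤ)) ∧ ∀ l, q.2 l + 1 ≤ H := by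
  unfold boxq
  rw [Finset.mem_product, Fintype.mem_piFinset, Fintype.mem_piFinset]
  constructor
  · rintro ⟨h1, h2⟩
    exact ⟨fun i => abs_le.mpr (Finset.mem_Icc.mp (h1 i)),
      fun l => Nat.succ_le_of_lt (Finset.mem_range.mp (h2 l))⟩
  · rintro ⟨h1, h2⟩
    exact ⟨fun i => Finset.mem_Icc.mpr (abs_le.mp (h1 i)),
      fun l => Finset.mem_range.mpr (Nat.lt_of_succ_le (h2 l))⟩

theorem card_boxq (n H : ℕ) : (boxq n H).card = (2 * H + 1) ^ n * H ^ n := by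
  unfold boxq
  rw [Finset.card_product, Fintype.card_piFinset, Fintype.card_piFinset]
  simp only [Int.card_Icc, Finset.card_range, Finset.prod_const, Finset.card_univ,
    Fintype.card_fin]
  have : ((H : ℤ) + 1 - -(H : ℤ)).toNat = 2 * H + 1 := by omega
  rw [this]

theorem codeq_mem {n : ℕ} (s : Fin n → ℚ) (H : ℕ) (hs : htq s ≤ H) : codeq s ∈ boxq n H := by
  rw [mem_boxq]
  rw [htq_le_iff] at hs
  constructor
  · intro i
    exact (abs_le_nat _ _).mpr (hs i).1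
  · intro i
    have h1 := (hs i).2
    have h2 := (s i).den_pos
    show (s i).den - 1 + 1 ≤ H
    omega

/-- Hints: `exists_null2` (`CenNull.lean`) with `ht = htq`, `d = n + n`, `c = 3 ^ n` (or larger) and
`P B s := ∀ k ≤ B, Q k s`. (`s ↦ (num, den)` is injective; the number of `(a, b)` with `|a i| ≤ H`,
`1 ≤ b i ≤ H` is `((2 H + 1) H) ^ n ≤ 3^n H^(2n)` for `H ≥ 1`.) For the density hypothesis of
`exists_null2` use the union bound over `k ≤ B` and `s ↦ (num, den - 1)`. -/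
theorem rt_null {n : ℕ} (hn : n ≠ 0) {ι : Type} [Countable ι]
    (Q : ι → (Fin n → ℚ) → Prop)
    (hQ : ∀ k, ∀ ε : ℝ, 0 < ε → ∃ H₀ : ℕ, ∀ H : ℕ, H₀ ≤ H →
      ({q : (Fin n → ℤ) × (Fin n → ℕ) | (∀ i, |q.1 i| ≤ (H : ℤ)) ∧ (∀ l, q.2 l + 1 ≤ H) ∧
        ¬ Q k (fun i => (q.1 i : ℚ) / ((q.2 i + 1 : ℕ) : ℚ))}.ncard : ℝ) ≤
        ε * (H : ℝ) ^ (n + n)) :
    ∃ N : Set (Fin n → ℚ), (∀ ε : ℝ, 0 < ε → ∃ H₀ : ℕ, ∀ H : ℕ, H₀ ≤ H →
      ({s | s ∈ N ∧ ∀ i, |(s i).num| ≤ (H : ℤ) ∧ (s i).den ≤ H}.ncard : ℝ) ≤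
        ε * (H : ℝ) ^ (2 * n)) ∧
      ∀ k, ∃ T : ℕ, ∀ s, s ∉ N → (∃ i, (T : ℤ) ≤ |(s i).num| ∨ T ≤ (s i).den) → Q k s := by
  classical
  obtain ⟨e, he⟩ : ∃ e : ι → ℕ, Function.Injective e := Countable.exists_injective_nat ι
  have hfin : ∀ H, {s : Fin n → ℚ | htq s ≤ H}.Finite := by
    intro H
    refine Set.Finite.of_finite_image (f := codeq) ?_ codeq_inj.injOn
    refine (boxq n H).finite_toSet.subset ?_
    rintro _ ⟨s, hs, rfl⟩
    exact codeq_mem s H hs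
  have hbox : ∀ H : ℕ, 1 ≤ H →
      ({s : Fin n → ℚ | htq s ≤ H}.ncard : ℝ) ≤ (3 : ℝ) ^ n * (H : ℝ) ^ (n + n) := by
    intro H hH
    have h1 : {s : Fin n → ℚ | htq s ≤ H}.ncard ≤ (boxq n H).card := by
      rw [← Set.ncard_coe_finset (boxq n H), ← Set.ncard_image_of_injective _ codeq_inj]
      refine Set.ncard_le_ncard ?_ (boxq n H).finite_toSet
      rintro _ ⟨s, hs, rfl⟩
      exact codeq_mem s H hs
    have h2 : (boxq n H).card ≤ 3 ^ n * H ^ (n + n) := by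
      have h3 : (2 * H + 1) ^ n ≤ (3 * H) ^ n := Nat.pow_le_pow_left (by omega) n
      rw [mul_pow] at h3
      rw [card_boxq, pow_add, ← mul_assoc]
      exact Nat.mul_le_mul_right _ h3
    exact_mod_cast h1.trans h2
  have hpos : ∀ s : Fin n → ℚ, 1 ≤ htq s := by
    intro s
    have h1 := (htq_le_iff s (htq s)).mp le_rfl ⟨0, Nat.pos_of_ne_zero hn⟩
    exact (s ⟨0, Nat.pos_of_ne_zero hn⟩).den_pos.trans_le h1.2
  obtain ⟨E, hE1, hE2⟩ := exists_null2 (Q := Fin n → ℚ) htq (d := n + n) (by omega)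
    (c := (3 : ℝ) ^ n) (by positivity) hfin hbox hpos
    (fun B s => ∀ k, e k ≤ B → Q k s)
    (fun B B' s hBB h k hk => h k (hk.trans hBB)) (by
      intro B ε hε
      -- the finite set of indices
      have hKfin : {k : ι | e k ≤ B}.Finite :=
        Set.Finite.of_finite_image (f := e) ((Set.finite_Iic B).subset (by
          rintro _ ⟨k, hk, rfl⟩
          exact hk)) he.injOn
      obtain ⟨K, hK⟩ : ∃ K : Finset ι, ∀ k, k ∈ K ↔ e k ≤ B :=
        ⟨hKfin.toFinset, fun k => by rw [Set.Finite.mem_toFinset]; rfl⟩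
      have hc0 : (0 : ℝ) < ε / ((K.card : ℝ) + 1) := by positivity
      choose H₀ hH₀ using fun k => hQ k (ε / ((K.card : ℝ) + 1)) hc0
      refine ⟨K.sup H₀, fun H hH => ?_⟩
      have hsub : codeq '' {s : Fin n → ℚ | htq s ≤ H ∧ ¬ ∀ k, e k ≤ B → Q k s} ⊆
          ⋃ k ∈ K, {q : (Fin n → ℤ) × (Fin n → ℕ) | (∀ i, |q.1 i| ≤ (H : ℤ)) ∧
            (∀ l, q.2 l + 1 ≤ H) ∧
            ¬ Q k (fun i => (q.1 i : ℚ) / ((q.2 i + 1 : ℕ) : ℚ))} := by
        rintro _ ⟨s, ⟨hs1, hs2⟩, rfl⟩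
        push Not at hs2
        obtain ⟨k, hk1, hk2⟩ := hs2
        have hb := (mem_boxq _).mp (codeq_mem s H hs1)
        refine Set.mem_biUnion ((hK k).mpr hk1) ⟨hb.1, hb.2, ?_⟩
        rw [codeq_val]
        exact hk2
      have hfinq : ∀ k : ι, {q : (Fin n → ℤ) × (Fin n → ℕ) | (∀ i, |q.1 i| ≤ (H : ℤ)) ∧
            (∀ l, q.2 l + 1 ≤ H) ∧
            ¬ Q k (fun i => (q.1 i : ℚ) / ((q.2 i + 1 : ℕ) : ℚ))}.Finite := fun k =>
        (boxq n H).finite_toSet.subset fun q hq => (mem_boxq q).mpr ⟨hq.1, hq.2.1⟩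
      have h1 : {s : Fin n → ℚ | htq s ≤ H ∧ ¬ ∀ k, e k ≤ B → Q k s}.ncard ≤
          ∑ k ∈ K, {q : (Fin n → ℤ) × (Fin n → ℕ) | (∀ i, |q.1 i| ≤ (H : ℤ)) ∧
            (∀ l, q.2 l + 1 ≤ H) ∧
            ¬ Q k (fun i => (q.1 i : ℚ) / ((q.2 i + 1 : ℕ) : ℚ))}.ncard := by
        rw [← Set.ncard_image_of_injective _ codeq_inj]
        refine (Set.ncard_le_ncard hsub ?_).trans ?_
        · exact K.finite_toSet.biUnion fun k _ => hfinq k
        · exact Finset.set_ncard_biUnion_le K _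
      have h2 : ({s : Fin n → ℚ | htq s ≤ H ∧ ¬ ∀ k, e k ≤ B → Q k s}.ncard : ℝ) ≤
          ∑ k ∈ K, ε / ((K.card : ℝ) + 1) * (H : ℝ) ^ (n + n) := by
        refine le_trans ?_ (Finset.sum_le_sum fun k hk =>
          hH₀ k H ((Finset.le_sup (f := H₀) hk).trans hH))
        exact_mod_cast h1
      refine h2.trans ?_
      rw [Finset.sum_const, nsmul_eq_mul, ← mul_assoc]
      refine mul_le_mul_of_nonneg_right ?_ (by positivity)
      rw [← mul_div_assoc, div_le_iff₀ (by positivity)]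
      nlinarith)
  refine ⟨E, ?_, ?_⟩
  · intro ε hε
    obtain ⟨H₀, h⟩ := hE1 ε hε
    refine ⟨H₀, fun H hH => ?_⟩
    have hset : {s : Fin n → ℚ | s ∈ E ∧ ∀ i, |(s i).num| ≤ (H : ℤ) ∧ (s i).den ≤ H} =
        {s | s ∈ E ∧ htq s ≤ H} := by
      ext s
      constructor
      · rintro ⟨h1, h2⟩
        exact ⟨h1, (htq_le_iff s H).mpr fun i => ⟨(abs_le_nat _ _).mp (h2 i).1, (h2 i).2⟩⟩
      · rintro ⟨h1, h2⟩
        have h3 := (htq_le_iff s H).mp h2
        exact ⟨h1, fun i => ⟨(abs_le_nat _ _).mpr (h3 i).1, (h3 i).2⟩⟩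
    rw [hset, two_mul]
    exact h H hH
  · intro k
    obtain ⟨T, hT⟩ := hE2 (e k)
    refine ⟨T, fun s hs hi => hT s ?_ hs k le_rfl⟩
    obtain ⟨i, hi⟩ := hi
    have h1 := (htq_le_iff s (htq s)).mp le_rfl i
    rcases hi with hi | hi
    · exact ((nat_le_abs _ _).mp hi).trans h1.1
    · exact hi.trans h1.2

end Pool.Agent.H882
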