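import Pool.Agent.H882.RtMain
import Pool.Agent.H882.RtNull

/-!
The relations of a curve with given points at infinity.
-/

set_option autoImplicit false

namespace Pool.Agent.H882

open UpperHalfPlane H294ZP Function Pool.Agent.N135.ZO
open Pool.Agent.Y226 Cardinal

instance countable_QA : Countable QA := by
  rw [← Cardinal.mk_le_aleph0_iff]
  have := Algebra.IsAlgebraic.cardinalMk_le_max ℚ QA
  exact this.trans (max_le Cardinal.mk_le_aleph0 le_rfl)

open Classical in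
/-- an algebraic number as an element of `QA` -/
noncomputable def toQ (z : ℂ) : QA := if h : z ∈ QA then ⟨z, h⟩ else 0

theorem toQ_coe {z : ℂ} (h : z ∈ QA) : ((toQ z : QA) : ℂ) = z := by
  rw [toQ, dif_pos h]

theorem toQ_zero : toQ 0 = 0 := by
  apply Subtype.ext
  rw [toQ_coe (QA.zero_mem)]
  rfl

/-- the relation with the given leading coefficients -/
noncomputable def mkD (a b : ℕ) (c : ℕ → ℂ) (e : ℕ → ℕ → ℂ) : (ℕ × ℕ) × (ℕ × ℕ →₀ QA) :=
  ((a, b), Finsupp.onFinset (Finset.range (a + 1) ×ˢ Finset.range (b + 1))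
    (fun w => if w.1 < a + 1 ∧ w.2 < b + 1 then toQ (if w.1 = a then c w.2 else e w.1 w.2) else 0)
    (fun w hw => by
      rw [Finset.mem_product, Finset.mem_range, Finset.mem_range]
      by_contra h
      exact hw (if_neg h)))

theorem mkD_apply (a b : ℕ) (c : ℕ → ℂ) (e : ℕ → ℕ → ℂ) (w : ℕ × ℕ) :
    (mkD a b c e).2 w = if w.1 < a + 1 ∧ w.2 < b + 1 then
      toQ (if w.1 = a then c w.2 else e w.1 w.2) else 0 := rfl

theorem mkD_lead (a b : ℕ) (c : ℕ → ℂ) (e : ℕ → ℕ → ℂ) {v : ℕ} (hv : v ≤ b) :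
    (mkD a b c e).2 (a, v) = toQ (c v) := by
  rw [mkD_apply, if_pos ⟨Nat.lt_succ_self a, Nat.lt_succ_of_le hv⟩, if_pos rfl]

theorem mkD_sum {a b : ℕ} {c : ℕ → ℂ} {e : ℕ → ℕ → ℂ} (hc : ∀ v, c v ∈ QA)
    (he : ∀ u v, e u v ∈ QA) (x y : ℂ) :
    ∑ u ∈ Finset.range ((mkD a b c e).1.1 + 1), ∑ v ∈ Finset.range ((mkD a b c e).1.2 + 1),
      ((mkD a b c e).2 (u, v) : ℂ) * x ^ u * y ^ v =
    ∑ v ∈ Finset.range (b + 1), c v * x ^ a * y ^ v +
      ∑ u ∈ Finset.range a, ∑ v ∈ Finset.range (b + 1), e u v * x ^ u * y ^ v := by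
  show ∑ u ∈ Finset.range (a + 1), ∑ v ∈ Finset.range (b + 1),
      ((mkD a b c e).2 (u, v) : ℂ) * x ^ u * y ^ v = _
  rw [Finset.sum_range_succ, add_comm]
  refine congrArg₂ (· + ·) (Finset.sum_congr rfl fun v hv => ?_) (Finset.sum_congr rfl fun u hu =>
    Finset.sum_congr rfl fun v hv => ?_)
  · rw [mkD_lead _ _ _ _ (Nat.lt_succ_iff.1 (Finset.mem_range.1 hv)), toQ_coe (hc v)]
  · have h1 := Finset.mem_range.1 hu
    have h2 := Finset.mem_range.1 hv
    rw [mkD_apply, if_pos ⟨by show u < a + 1; omega, h2⟩, if_neg (by show ¬ u = a; omega),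
      toQ_coe (he u v)]

theorem mkD_int {a b : ℕ} {c : ℕ → ℂ} {e : ℕ → ℕ → ℂ} (hc : ∀ v, c v ∈ QA)
    (he : ∀ u v, e u v ∈ QA) {N : ℕ} (hc' : ∀ v, v ≤ b → IsIntegral ℤ ((N : ℂ) * c v))
    (he' : ∀ u v, IsIntegral ℤ ((N : ℂ) * e u v)) (w : ℕ × ℕ) :
    IsIntegral ℤ ((N : QA) * (mkD a b c e).2 w) := by
  have hkey : ∀ z : ℂ, z ∈ QA → IsIntegral ℤ ((N : ℂ) * z) → IsIntegral ℤ ((N : QA) * toQ z) := by
    intro z hz h
    have h1 : IsIntegral ℤ (algebraMap QA ℂ ((N : QA) * toQ z)) := by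
      rw [map_mul, map_natCast]
      have e : algebraMap QA ℂ (toQ z) = z := toQ_coe hz
      rw [e]
      exact h
    exact (isIntegral_algebraMap_iff (algebraMap QA ℂ).injective).1 h1
  rw [mkD_apply]
  split_ifs with h1 h2
  · exact hkey _ (hc _) (hc' _ (Nat.lt_succ_iff.1 h1.2))
  · exact hkey _ (he _ _) (he' _ _)
  · rw [mul_zero]
    exact isIntegral_zero

theorem exists_den {b : ℕ} {c : ℕ → ℂ} (hc : ∀ v, IsAlgebraic ℚ (c v)) :
    ∃ N : ℕ, N ≠ 0 ∧ ∀ v, v ≤ b → IsIntegral ℤ ((N : ℂ) * c v) := by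
  have h1 : ∀ v, ∃ N : ℕ, N ≠ 0 ∧ IsIntegral ℤ ((N : ℂ) * c v) := by
    intro v
    have halg : IsAlgebraic ℤ (c v) := (IsFractionRing.isAlgebraic_iff ℤ ℚ ℂ).2 (hc v)
    obtain ⟨y, hy0, hy⟩ := halg.exists_integral_multiple
    refine ⟨y.natAbs, Int.natAbs_ne_zero.2 hy0, ?_⟩
    rw [zsmul_eq_mul] at hy
    rcases Int.natAbs_eq y with h | h
    · rw [h, Int.cast_natCast] at hy
      exact hy
    · rw [h, Int.cast_neg, Int.cast_natCast, neg_mul] at hy
      have h2 := hy.neg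
      rw [neg_neg] at h2
      exact h2
  choose N hN0 hN using h1
  refine ⟨∏ v ∈ Finset.range (b + 1), N v, Finset.prod_ne_zero_iff.2 fun v _ => hN0 v,
    fun v hv => ?_⟩
  obtain ⟨k, hk⟩ := Finset.dvd_prod_of_mem N (Finset.mem_range.2 (Nat.lt_succ_of_le hv))
  rw [hk]
  push_cast
  have e : (N v : ℂ) * (k : ℂ) * c v = ((k : ℤ) : ℂ) * ((N v : ℂ) * c v) := by
    push_cast
    ring
  rw [e]
  exact (isIntegral_algebraMap (R := ℤ) (A := ℂ) (x := (k : ℤ))).mul (hN v)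

/-- The theorem, for given points at infinity, denominators and degrees. -/
theorem rt_main (n : ℕ) : ∃ N : Set (Fin n → ℚ),
    (∀ ε : ℝ, 0 < ε → ∃ H₀ : ℕ, ∀ H : ℕ, H₀ ≤ H →
      ({s | s ∈ N ∧ ∀ i, |(s i).num| ≤ (H : ℤ) ∧ (s i).den ≤ H}.ncard : ℝ) ≤
        ε * (H : ℝ) ^ (2 * n)) ∧
    ∀ (a b : Fin n → Fin n → ℕ) (c : Fin n → Fin n → ℕ → ℂ) (den : ℕ),
      (∀ i j v, IsAlgebraic ℚ (c i j v)) → (∀ i j, i ≠ j → c i j (b i j) ≠ 0) → den ≠ 0 →
      ∃ T : ℕ, ∀ s : Fin n → ℚ, s ∉ N → (∃ i, (T : ℤ) ≤ |(s i).num| ∨ T ≤ (s i).den) →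
        ∀ C : Set (Fin n → ℂ), (∀ i j, i ≠ j → ∃ e : ℕ → ℕ → ℂ,
          (∀ u v, IsIntegral ℤ ((den : ℂ) * e u v)) ∧ ∀ y ∈ C,
            ∑ v ∈ Finset.range (b i j + 1), c i j v * y i ^ a i j * y j ^ v +
            ∑ u ∈ Finset.range (a i j), ∑ v ∈ Finset.range (b i j + 1),
              e u v * y i ^ u * y j ^ v = 0) →
        ∀ x : Fin n → ℂ, (fun i => x i - (s i : ℂ)) ∈ C → ∀ (r : ℕ) (Z : SpecialDatum n r),
          x ∈ Z.locus → ∀ W : Finset (Fin n), AlgebraicIndependent ℚ (fun i : W => x i) →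
            n + W.card ≤ 1 + r := by
  classical
  rcases Nat.eq_zero_or_pos n with rfl | hn
  · refine ⟨∅, fun ε hε => ⟨0, fun H _ => ?_⟩, fun a b c den _ _ _ => ⟨0, fun s _ _ C _ x _ r Z _ W _ => ?_⟩⟩
    · have : {s : Fin 0 → ℚ | s ∈ (∅ : Set (Fin 0 → ℚ)) ∧ ∀ i, |(s i).num| ≤ (H : ℤ) ∧
          (s i).den ≤ H} = ∅ := by
        ext s
        simp
      rw [this, Set.ncard_empty, Nat.cast_zero]
      positivity
    · have : W.card ≤ 0 := by
        refine (Finset.card_le_univ W).trans ?_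
        rw [Fintype.card_fin]
      omega
  · obtain ⟨N, hN1, hN2⟩ := rt_null (n := n) hn.ne'
      (ι := {D : Dt n // Good D} × {N : ℕ // N ≠ 0})
      (fun k s => ∀ D, Cls k.1.1 k.2.1 D → RtZP D s)
      (fun k ε hε => rt_density k.1.2 k.2.2 hε)
    refine ⟨N, hN1, fun a b c den hc hcb hden => ?_⟩
    have hcQ : ∀ i j v, c i j v ∈ QA := fun i j v => mem_QA.2 (hc i j v)
    choose Nc hNc0 hNc using fun i j => exists_den (b := b i j) (hc i j)
    let D₀ : Dt n := fun i j => mkD (a i j) (b i j) (c i j) 0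
    have hD₀ : Good D₀ := by
      intro i j hij h
      have h1 : (D₀ i j).2 (D₀ i j).1 = toQ (c i j (b i j)) := mkD_lead _ _ _ _ le_rfl
      rw [h1] at h
      have h2 := toQ_coe (hcQ i j (b i j))
      rw [h] at h2
      exact hcb i j hij h2.symm
    obtain ⟨M, hM⟩ : ∃ M : ℕ, M = den * ∏ i, ∏ j, Nc i j := ⟨_, rfl⟩
    have hM0 : M ≠ 0 := by
      rw [hM]
      exact mul_ne_zero hden (Finset.prod_ne_zero_iff.2 fun i _ => Finset.prod_ne_zero_iff.2
        fun j _ => hNc0 i j)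
    have hmul : ∀ {k : ℕ} {z : ℂ}, k ∣ M → IsIntegral ℤ ((k : ℂ) * z) →
        IsIntegral ℤ ((M : ℂ) * z) := by
      rintro k z ⟨q, hq⟩ h
      have e : (M : ℂ) * z = ((q : ℤ) : ℂ) * ((k : ℂ) * z) := by
        rw [hq]
        push_cast
        ring
      rw [e]
      exact (isIntegral_algebraMap (R := ℤ) (A := ℂ) (x := (q : ℤ))).mul h
    have hNcM : ∀ i j, Nc i j ∣ M := by
      intro i j
      rw [hM]
      exact ((Finset.dvd_prod_of_mem (fun j => Nc i j) (Finset.mem_univ j)).trans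
        (Finset.dvd_prod_of_mem (fun i => ∏ j, Nc i j) (Finset.mem_univ i))).trans
        (Dvd.intro_left _ rfl)
    have hdenM : den ∣ M := by
      rw [hM]
      exact Dvd.intro _ rfl
    obtain ⟨T, hT⟩ := hN2 (⟨D₀, hD₀⟩, ⟨M, hM0⟩)
    refine ⟨T, fun s hs hsT C hC x hx r Z hxZ W hW => ?_⟩
    choose! e he1 he2 using hC
    have heQ : ∀ i j, i ≠ j → ∀ u v, e i j u v ∈ QA := by
      intro i j hij u v
      rw [mem_QA]
      have h1 : IsAlgebraic ℚ ((den : ℂ) * e i j u v) :=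
        ((he1 i j hij u v).tower_top (A := ℚ)).isAlgebraic
      have hd : (den : ℂ) ≠ 0 := Nat.cast_ne_zero.2 hden
      have h2 : IsAlgebraic ℚ ((den : ℂ)⁻¹) := by
        have := isAlgebraic_algebraMap (R := ℚ) (A := ℂ) ((den : ℚ)⁻¹)
        rwa [map_inv₀, map_natCast] at this
      have h3 := h2.mul h1
      rwa [← mul_assoc, inv_mul_cancel₀ hd, one_mul] at h3
    let e' : Fin n → Fin n → ℕ → ℕ → ℂ := fun i j => if i = j then 0 else e i j
    have he'Q : ∀ i j u v, e' i j u v ∈ QA := by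
      intro i j u v
      by_cases hij : i = j
      · have : e' i j = 0 := if_pos hij
        rw [this]
        exact QA.zero_mem
      · have : e' i j = e i j := if_neg hij
        rw [this]
        exact heQ i j hij u v
    let D : Dt n := fun i j => mkD (a i j) (b i j) (c i j) (e' i j)
    have hCls : Cls D₀ M D := by
      intro i j hij
      refine ⟨rfl, fun v hv => ?_, fun w => ?_⟩
      · have h1 : (D i j).2 (a i j, v) = toQ (c i j v) := mkD_lead _ _ _ _ hv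
        have h2 : (D₀ i j).2 (a i j, v) = toQ (c i j v) := mkD_lead _ _ _ _ hv
        exact h1.trans h2.symm
      · have : e' i j = e i j := if_neg hij
        refine mkD_int (hcQ i j) (he'Q i j) (fun v hv => hmul (hNcM i j) (hNc i j v hv))
          (fun u v => hmul hdenM ?_) w
        rw [this]
        exact he1 i j hij u v
    refine hT s hs hsT D hCls x (fun i => x i - (s i : ℂ)) (fun i j hij => ?_)
      (fun i => (sub_add_cancel _ _).symm) r Z hxZ W hW
    have h1 : e' i j = e i j := if_neg hij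
    have h2 := mkD_sum (a := a i j) (b := b i j) (hcQ i j) (he'Q i j) (x i - (s i : ℂ))
      (x j - (s j : ℂ))
    have h3 := he2 i j hij _ hx
    rw [h1] at h2
    have h4 : D i j = mkD (a i j) (b i j) (c i j) (e i j) := by
      show mkD (a i j) (b i j) (c i j) (e' i j) = _
      rw [h1]
    rw [h4]
    exact h2.trans h3

end Pool.Agent.H882
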