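import Pool.Agent.H882.RtDef

/-!
Two coordinates of a point of the curve are algebraically dependent.
-/

set_option autoImplicit false

namespace Pool.Agent.H882

open Pool.Agent.Y226 Cardinal

/-- a polynomial in two of the variables with a nonzero coefficient is not zero -/
theorem two_var {k ι : Type} [Field k] {i j : ι} (hij : i ≠ j) (a b : ℕ) (c : ℕ × ℕ → k)
    (h : ∑ u ∈ Finset.range (a + 1), ∑ v ∈ Finset.range (b + 1),
      (MvPolynomial.C (c (u, v)) * MvPolynomial.X i ^ u * MvPolynomial.X j ^ v :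
        MvPolynomial ι k) = 0) : c (a, b) = 0 := by
  classical
  have hmon : ∀ u v : ℕ, (MvPolynomial.C (c (u, v)) * MvPolynomial.X i ^ u * MvPolynomial.X j ^ v :
      MvPolynomial ι k) =
      MvPolynomial.monomial (Finsupp.single i u + Finsupp.single j v) (c (u, v)) := by
    intro u v
    rw [MvPolynomial.X_pow_eq_monomial, MvPolynomial.X_pow_eq_monomial,
      MvPolynomial.C_mul_monomial, MvPolynomial.monomial_mul, mul_one, mul_one]
  have hinj : ∀ u v : ℕ, Finsupp.single i u + Finsupp.single j v =
      (Finsupp.single i a + Finsupp.single j b : ι →₀ ℕ) → u = a ∧ v = b := by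
    intro u v huv
    constructor
    · have h1 := DFunLike.congr_fun huv i
      simpa [Finsupp.single_apply, hij, hij.symm] using h1
    · have h1 := DFunLike.congr_fun huv j
      simpa [Finsupp.single_apply, hij, hij.symm] using h1
  have h1 := congrArg (MvPolynomial.coeff (Finsupp.single i a + Finsupp.single j b)) h
  rw [MvPolynomial.coeff_sum, MvPolynomial.coeff_zero] at h1
  rw [Finset.sum_eq_single a, MvPolynomial.coeff_sum, Finset.sum_eq_single b] at h1
  · rw [hmon, MvPolynomial.coeff_monomial, if_pos rfl] at h1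
    exact h1
  · intro v _ hv
    rw [hmon, MvPolynomial.coeff_monomial, if_neg]
    intro he
    exact hv (hinj a v he).2
  · intro hb
    exact absurd (Finset.self_mem_range_succ b) hb
  · intro u _ hu
    rw [MvPolynomial.coeff_sum]
    apply Finset.sum_eq_zero
    intro v _
    rw [hmon, MvPolynomial.coeff_monomial, if_neg]
    intro he
    exact hu (hinj u v he).1
  · intro ha
    exact absurd (Finset.self_mem_range_succ a) ha

/-- Two coordinates in `W` would satisfy a nontrivial relation over `QA`. -/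
theorem rt_card {n : ℕ} {D : Dt n} (hD : Good D) {y : Fin n → ℂ} (hy : y ∈ loc D) (s : Fin n → ℚ)
    {x : Fin n → ℂ} (hx : ∀ i, x i = y i + (s i : ℂ)) (W : Finset (Fin n))
    (hW : AlgebraicIndependent ℚ (fun i : W => x i)) : W.card ≤ 1 := by
  by_contra hcon
  obtain ⟨i, hi, j, hj, hij⟩ := Finset.one_lt_card.1 (not_le.1 hcon)
  have hW2 : AlgebraicIndependent QA (fun i : W => x i) := hW.extendScalars QA
  rw [algebraicIndependent_iff] at hW2
  have hii : (⟨i, hi⟩ : W) ≠ ⟨j, hj⟩ := fun h => hij (congrArg Subtype.val h)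
  obtain ⟨P, hP⟩ : ∃ P : MvPolynomial W QA,
      P = ∑ u ∈ Finset.range ((D i j).1.1 + 1), ∑ v ∈ Finset.range ((D i j).1.2 + 1),
        MvPolynomial.C ((D i j).2 (u, v)) *
          (MvPolynomial.X ⟨i, hi⟩ - MvPolynomial.C ((s i : ℚ) : QA)) ^ u *
          (MvPolynomial.X ⟨j, hj⟩ - MvPolynomial.C ((s j : ℚ) : QA)) ^ v := ⟨_, rfl⟩
  have h1 : MvPolynomial.aeval (fun i : W => x i) P = 0 := by
    rw [hP, map_sum, ← hy i j hij]
    refine Finset.sum_congr rfl fun u _ => ?_
    rw [map_sum]
    refine Finset.sum_congr rfl fun v _ => ?_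
    rw [map_mul, map_mul, map_pow, map_pow, map_sub, map_sub, MvPolynomial.aeval_X,
      MvPolynomial.aeval_X, MvPolynomial.aeval_C, MvPolynomial.aeval_C, MvPolynomial.aeval_C,
      map_ratCast, map_ratCast, hx i, hx j, add_sub_cancel_right, add_sub_cancel_right]
    rfl
  have h2 := hW2 P h1
  have h3 := congrArg (MvPolynomial.aeval (R := QA)
    (fun k : W => (MvPolynomial.X k + MvPolynomial.C ((s k : ℚ) : QA) : MvPolynomial W QA))) h2
  rw [map_zero, hP, map_sum] at h3
  apply hD i j hij
  refine two_var hii (D i j).1.1 (D i j).1.2 (fun w => (D i j).2 w) ?_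
  rw [← h3]
  refine Finset.sum_congr rfl fun u _ => ?_
  rw [map_sum]
  refine Finset.sum_congr rfl fun v _ => ?_
  rw [map_mul, map_mul, map_pow, map_pow, map_sub, map_sub, MvPolynomial.aeval_X,
    MvPolynomial.aeval_X, MvPolynomial.aeval_C, MvPolynomial.aeval_C, MvPolynomial.aeval_C,
    MvPolynomial.algebraMap_eq, add_sub_cancel_right, add_sub_cancel_right]

end Pool.Agent.H882
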