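import Pool.Agent.H882.RtDef
import Pool.Agent.H882.CoreW

/-!
The singular moduli in the residue classes of a prime.
-/

set_option autoImplicit false

namespace Pool.Agent.H882

open UpperHalfPlane H294ZP Function Pool.Agent.N135.ZO NumberField IsDedekindDomain
open Pool.Agent.Y226

theorem rt_classes {p : ℕ} (hp : p.Prime) (hp3 : 3 < p) {C : Type} [NormedField C]
    [IsUltrametricDist C] [CompleteSpace C] [CharZero C] [IsAlgClosed C] (hp1 : ‖(p : C)‖ < 1)
    (Ψ : ℂ →+* C) : ∃ (t : ZMod p → ℍ) (b1 : Set (ZMod p)),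
      (∀ H : ℕ, (∀ a, (SM p a).ncard ≤ H) → b1.ncard ≤ H + 2 ∧
        ∀ c, {c' | Isog (jj (t c)) (jj (t c'))}.ncard ≤ 18 * H) ∧
      (∀ c, IsCM (t c)) ∧ (∀ c, ‖Ψ (jj (t c)) - ((c.val : ℤ) : C)‖ < 1) ∧
      ∀ c, c ∉ b1 → ∀ P : Pkg p hp.pos, G0 P (VF Ψ) (jj (t c)) := by
  classical
  have hpf : Fact p.Prime := ⟨hp⟩
  have hp2 : p ≠ 2 := by omega
  choose t M hM hrel hnear using fun a : ZMod p => exists_root hp hp2 hp1 Ψ (a.val : ℤ)
  have heq : ∀ a b : ZMod p, ‖((a.val : ℤ) : C) - ((b.val : ℤ) : C)‖ < 1 → a = b := by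
    intro a b h
    rw [← Int.cast_sub] at h
    have h1 := dvd_of_norm hp hp1 h
    rw [← ZMod.intCast_zmod_eq_zero_iff_dvd] at h1
    push_cast at h1
    rw [ZMod.natCast_zmod_val, ZMod.natCast_zmod_val] at h1
    exact sub_eq_zero.1 h1
  have hinj : ∀ a b : ZMod p, jj (t a) = jj (t b) → a = b := by
    intro a b h
    apply heq
    have e : ((a.val : ℤ) : C) - ((b.val : ℤ) : C) = -(Ψ (jj (t a)) - ((a.val : ℤ) : C)) +
        (Ψ (jj (t b)) - ((b.val : ℤ) : C)) := by
      rw [h]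
      ring
    rw [e]
    refine nadd_lt ?_ (hnear b)
    rw [norm_neg]
    exact hnear a
  have hunit : ∀ (a : ZMod p) (k : ℤ), a ≠ (k : ZMod p) → ‖Ψ (jj (t a)) - (k : C)‖ = 1 := by
    intro a k hak
    refine le_antisymm ?_ ?_
    · refine nsub_le ?_ (IsUltrametricDist.norm_intCast_le_one C k)
      exact norm_le_one_of_isIntegral Ψ (singular_modulus_integral _ (isCM_of_fix hp (hM a) (hrel a)))
    · by_contra hcon
      push Not at hcon
      have h1 : ‖(((a.val : ℤ) - k : ℤ) : C)‖ < 1 := by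
        have e : (((a.val : ℤ) - k : ℤ) : C) = -(Ψ (jj (t a)) - ((a.val : ℤ) : C)) +
            (Ψ (jj (t a)) - (k : C)) := by
          push_cast
          ring
        rw [e]
        refine nadd_lt ?_ hcon
        rw [norm_neg]
        exact hnear a
      have h2 := dvd_of_norm hp hp1 h1
      rw [← ZMod.intCast_zmod_eq_zero_iff_dvd] at h2
      push_cast at h2
      rw [ZMod.natCast_zmod_val] at h2
      exact hak (sub_eq_zero.1 h2)
  have hn0 : ∀ a : ZMod p, a ≠ 0 → ‖Ψ (jj (t a))‖ = 1 := by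
    intro a ha
    have := hunit a 0 (by simpa using ha)
    simpa using this
  have hn1 : ∀ a : ZMod p, a ≠ 1728 → ‖Ψ (jj (t a) - 1728)‖ = 1 := by
    intro a ha
    have h1 := hunit a 1728 (by simpa using ha)
    have e : Ψ (jj (t a) - 1728) = Ψ (jj (t a)) - ((1728 : ℤ) : C) := by
      rw [map_sub]
      congr 1
      have := map_ofNat Ψ 1728
      simpa using this
    rw [e]
    exact h1
  refine ⟨t, {a | (M a).trace = 0 ∨ a = 0 ∨ a = 1728}, fun H hH => ⟨?_, fun c => ?_⟩,
    fun c => isCM_of_fix hp (hM c) (hrel c), hnear, fun c hc P => ?_⟩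
  · have h1 : {a | (M a).trace = 0 ∨ a = 0 ∨ a = 1728} ⊆
        {a | (M a).trace = 0} ∪ (({0, 1728} : Finset (ZMod p)) : Set (ZMod p)) := by
      intro a ha
      rcases ha with h | h | h
      · exact Or.inl h
      · right
        rw [Finset.mem_coe, Finset.mem_insert]
        exact Or.inl h
      · right
        rw [Finset.mem_coe, Finset.mem_insert, Finset.mem_singleton]
        exact Or.inr h
    refine (Set.ncard_le_ncard h1 (Set.toFinite _)).trans ((Set.ncard_union_le _ _).trans ?_)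
    refine Nat.add_le_add ?_ ?_
    · refine le_trans ?_ (hH 0)
      refine Set.ncard_le_ncard_of_injOn (fun a => jj (t a)) ?_ ?_ (SM_card hp 0).1
      · intro a ha
        exact ⟨t a, M a, hM a, ha, hrel a, rfl⟩
      · intro a _ b _ h
        exact hinj a b h
    · rw [Set.ncard_coe_finset]
      exact Finset.card_le_two
  · obtain ⟨F, hF1, hF2⟩ := few_traces hp (M c).trace
    have h1 : {c' | Isog (jj (t c)) (jj (t c'))}.ncard ≤ (⋃ a' ∈ F, SM p a').ncard := by
      refine Set.ncard_le_ncard_of_injOn (fun b => jj (t b)) ?_ ?_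
        (Set.Finite.biUnion (Finset.finite_toSet _) fun a' _ => (SM_card hp a').1)
      · intro b hb
        have hz : jj (t c) ∈ SM p (M c).trace := ⟨t c, M c, hM c, rfl, hrel c, rfl⟩
        have hz' : jj (t b) ∈ SM p (M b).trace := ⟨t b, M b, hM b, rfl, hrel b, rfl⟩
        refine Set.mem_iUnion₂.2 ⟨(M b).trace, ?_, hz'⟩
        exact hF2 _ (trace_sq_lt hp (hM c) (hrel c)) (trace_sq_lt hp (hM b) (hrel b))
          (sq_of_isog hp hz hz' hb)
      · intro b _ b' _ h
        exact hinj b b' h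
    refine h1.trans ((Finset.set_ncard_biUnion_le F _).trans ?_)
    calc ∑ a' ∈ F, (SM p a').ncard ≤ ∑ a' ∈ F, H := Finset.sum_le_sum fun a' _ => hH a'
      _ = F.card * H := by rw [Finset.sum_const, smul_eq_mul]
      _ ≤ 18 * H := Nat.mul_le_mul_right _ hF1
  · replace hc : ¬ ((M c).trace = 0 ∨ c = 0 ∨ c = 1728) := hc
    rw [not_or, not_or] at hc
    exact G0_of hp hp1 P Ψ (ordAt_of_trace hp hp3 (hM _) (hrel _) hc.1) (hn0 _ hc.2.1)
      (hn1 _ hc.2.2)

end Pool.Agent.H882
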