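import Pool.Agent.H882.FmCls

/-!
Counting the exceptional classes of the numerators.
-/

set_option autoImplicit false

namespace Pool.Agent.H882

open Classical in
theorem rt_countE_affine {p h : ℕ} [Fact p.Prime] {c : ZMod p} (hc : c ≠ 0) (r : ZMod p)
    (B : Set (ZMod p)) (hB : B.ncard ≤ h) :
    (Finset.univ.filter fun x : ZMod p => x * c + r ∈ B).card ≤ h := by
  rw [← Set.ncard_coe_finset]
  refine (Set.ncard_le_ncard_of_injOn (fun x => x * c + r) ?_ ?_ (Set.toFinite B)).trans hB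
  · intro x hx
    exact (Finset.mem_filter.1 (Finset.mem_coe.1 hx)).2
  · intro x _ y _ hxy
    exact mul_right_cancel₀ hc (add_right_cancel hxy)

/-- the exceptional classes at one prime -/
theorem rt_countE {n p h m : ℕ} [Fact p.Prime] (R : Finset (ZMod p)) (hm : R.card ≤ m)
    (b : Fin n → ZMod p) (l : Fin n) (hb : ∀ j, j ≠ l → b j ≠ 0) (b1 : Set (ZMod p))
    (b2 : ZMod p → Set (ZMod p)) (h1 : b1.ncard ≤ h) (h2 : ∀ c, (b2 c).ncard ≤ h) :
    {a : Fin n → ZMod p | a l = 0 ∨ (∃ j, j ≠ l ∧ ∃ r ∈ R, a j * (b j)⁻¹ + r ∈ b1) ∨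
      ∃ j k, j ≠ l ∧ k ≠ l ∧ j ≠ k ∧ ∃ r ∈ R, ∃ r' ∈ R,
        a k * (b k)⁻¹ + r' ∈ b2 (a j * (b j)⁻¹ + r)}.ncard ≤
      (1 + n * (m * h) + n * n * (m * m * h)) * p ^ (n - 1) := by
  classical
  have : NeZero p := ⟨(Fact.out : p.Prime).ne_zero⟩
  -- the sets of exceptional values
  let g1 : Fin n → Finset (ZMod p) := fun j => if j = l then ∅ else
    R.biUnion fun r => Finset.univ.filter fun x : ZMod p => x * (b j)⁻¹ + r ∈ b1
  let g2 : Fin n → Fin n → ZMod p → Finset (ZMod p) := fun j k y =>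
    if k = l ∨ j = k then ∅ else
    R.biUnion fun r => R.biUnion fun r' =>
      Finset.univ.filter fun x : ZMod p => x * (b k)⁻¹ + r' ∈ b2 (y * (b j)⁻¹ + r)
  have hg1 : ∀ j, (g1 j).card ≤ m * h := by
    intro j
    by_cases hj : j = l
    · have e : g1 j = ∅ := if_pos hj
      rw [e, Finset.card_empty]
      exact Nat.zero_le _
    · have e : g1 j = R.biUnion fun r => Finset.univ.filter fun x : ZMod p =>
          x * (b j)⁻¹ + r ∈ b1 := if_neg hj
      rw [e]
      refine (Finset.card_biUnion_le).trans ?_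
      calc _ ≤ ∑ r ∈ R, h := Finset.sum_le_sum fun r _ =>
              rt_countE_affine (inv_ne_zero (hb j hj)) r b1 h1
        _ = R.card * h := by rw [Finset.sum_const, smul_eq_mul]
        _ ≤ m * h := Nat.mul_le_mul_right _ hm
  have hg2 : ∀ j k y, (g2 j k y).card ≤ m * m * h := by
    intro j k y
    by_cases hk : k = l ∨ j = k
    · have e : g2 j k y = ∅ := if_pos hk
      rw [e, Finset.card_empty]
      exact Nat.zero_le _
    · have e : g2 j k y = R.biUnion fun r => R.biUnion fun r' =>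
          Finset.univ.filter fun x : ZMod p => x * (b k)⁻¹ + r' ∈ b2 (y * (b j)⁻¹ + r) :=
        if_neg hk
      have hkl : k ≠ l := fun h => hk (Or.inl h)
      rw [e]
      refine (Finset.card_biUnion_le).trans ?_
      calc _ ≤ ∑ r ∈ R, m * h := Finset.sum_le_sum fun r _ => by
              refine (Finset.card_biUnion_le).trans ?_
              calc _ ≤ ∑ r' ∈ R, h := Finset.sum_le_sum fun r' _ =>
                      rt_countE_affine (inv_ne_zero (hb k hkl)) r' _ (h2 _)
                _ = R.card * h := by rw [Finset.sum_const, smul_eq_mul]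
                _ ≤ m * h := Nat.mul_le_mul_right _ hm
        _ = R.card * (m * h) := by rw [Finset.sum_const, smul_eq_mul]
        _ ≤ m * (m * h) := Nat.mul_le_mul_right _ hm
        _ = m * m * h := by ring
  have hsub : {a : Fin n → ZMod p | a l = 0 ∨ (∃ j, j ≠ l ∧ ∃ r ∈ R, a j * (b j)⁻¹ + r ∈ b1) ∨
      ∃ j k, j ≠ l ∧ k ≠ l ∧ j ≠ k ∧ ∃ r ∈ R, ∃ r' ∈ R,
        a k * (b k)⁻¹ + r' ∈ b2 (a j * (b j)⁻¹ + r)} ⊆
      (((Finset.univ.filter fun s : Fin n → ZMod p => s l ∈ ({0} : Finset (ZMod p))) ∪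
        ((Finset.univ : Finset (Fin n)).biUnion fun j =>
          Finset.univ.filter fun s : Fin n → ZMod p => s j ∈ g1 j)) ∪
        ((Finset.univ : Finset (Fin n × Fin n)).biUnion fun jk =>
          Finset.univ.filter fun s : Fin n → ZMod p => s jk.2 ∈ g2 jk.1 jk.2 (s jk.1)) :
        Finset (Fin n → ZMod p)) := by
    intro a ha
    rw [Finset.mem_coe, Finset.mem_union, Finset.mem_union]
    rcases ha with ha | ⟨j, hj, r, hr, ha⟩ | ⟨j, k, hj, hk, hjk, r, hr, r', hr', ha⟩
    · exact Or.inl (Or.inl (Finset.mem_filter.2 ⟨Finset.mem_univ _, Finset.mem_singleton.2 ha⟩))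
    · refine Or.inl (Or.inr (Finset.mem_biUnion.2 ⟨j, Finset.mem_univ _,
        Finset.mem_filter.2 ⟨Finset.mem_univ _, ?_⟩⟩))
      have e : g1 j = R.biUnion fun r => Finset.univ.filter fun x : ZMod p =>
          x * (b j)⁻¹ + r ∈ b1 := if_neg hj
      rw [e]
      exact Finset.mem_biUnion.2 ⟨r, hr, Finset.mem_filter.2 ⟨Finset.mem_univ _, ha⟩⟩
    · refine Or.inr (Finset.mem_biUnion.2 ⟨(j, k), Finset.mem_univ _,
        Finset.mem_filter.2 ⟨Finset.mem_univ _, ?_⟩⟩)
      have hn : ¬ (k = l ∨ j = k) := by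
        rintro (h | h)
        · exact hk h
        · exact hjk h
      have e : g2 j k (a j) = R.biUnion fun r => R.biUnion fun r' =>
          Finset.univ.filter fun x : ZMod p => x * (b k)⁻¹ + r' ∈ b2 (a j * (b j)⁻¹ + r) :=
        if_neg hn
      show a k ∈ g2 j k (a j)
      rw [e]
      exact Finset.mem_biUnion.2 ⟨r, hr, Finset.mem_biUnion.2 ⟨r', hr',
        Finset.mem_filter.2 ⟨Finset.mem_univ _, ha⟩⟩⟩
  refine (Set.ncard_le_ncard hsub (Finset.finite_toSet _)).trans ?_
  rw [Set.ncard_coe_finset]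
  refine (Finset.card_union_le _ _).trans ?_
  have c0 : (Finset.univ.filter fun s : Fin n → ZMod p =>
      s l ∈ ({0} : Finset (ZMod p))).card ≤ 1 * p ^ (n - 1) :=
    count_coord l (fun _ => {0}) (fun _ _ => rfl) 1 fun _ => le_of_eq (Finset.card_singleton _)
  have c1 : ((Finset.univ : Finset (Fin n)).biUnion fun j =>
      Finset.univ.filter fun s : Fin n → ZMod p => s j ∈ g1 j).card ≤
      n * (m * h) * p ^ (n - 1) := by
    refine (Finset.card_biUnion_le).trans ?_
    calc _ ≤ ∑ j : Fin n, (m * h) * p ^ (n - 1) := Finset.sum_le_sum fun j _ =>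
          count_coord j (fun _ => g1 j) (fun _ _ => rfl) (m * h) fun _ => hg1 j
      _ = _ := by
        rw [Finset.sum_const, Finset.card_univ, Fintype.card_fin, smul_eq_mul]
        ring
  have c2 : ((Finset.univ : Finset (Fin n × Fin n)).biUnion fun jk =>
      Finset.univ.filter fun s : Fin n → ZMod p => s jk.2 ∈ g2 jk.1 jk.2 (s jk.1)).card ≤
      n * n * (m * m * h) * p ^ (n - 1) := by
    refine (Finset.card_biUnion_le).trans ?_
    calc _ ≤ ∑ jk : Fin n × Fin n, (m * m * h) * p ^ (n - 1) :=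
          Finset.sum_le_sum fun jk _ => by
            refine count_coord jk.2 (fun s => g2 jk.1 jk.2 (s jk.1)) (fun s c => ?_)
              (m * m * h) fun s => hg2 _ _ _
            show g2 jk.1 jk.2 (Function.update s jk.2 c jk.1) = g2 jk.1 jk.2 (s jk.1)
            by_cases hjk : jk.1 = jk.2
            · have e : ∀ y, g2 jk.1 jk.2 y = ∅ := fun y => if_pos (Or.inr hjk)
              rw [e, e]
            · rw [Function.update_of_ne hjk]
      _ = _ := by
        rw [Finset.sum_const, Finset.card_univ, Fintype.card_prod, Fintype.card_fin,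
          smul_eq_mul]
        ring
  calc _ ≤ (1 * p ^ (n - 1) + n * (m * h) * p ^ (n - 1)) + n * n * (m * m * h) * p ^ (n - 1) :=
        Nat.add_le_add ((Finset.card_union_le _ _).trans (Nat.add_le_add c0 c1)) c2
    _ = _ := by ring

/-- the exceptional pairs of classes -/
theorem rt_countB {n p q h m : ℕ} [Fact p.Prime] [Fact q.Prime] (R : Finset (ZMod p))
    (hm : R.card ≤ m) (R' : Finset (ZMod q)) (hm' : R'.card ≤ m) (l : Fin n)
    (b : Fin n → ZMod p) (b' : Fin n → ZMod q) (hb' : ∀ j, j ≠ l → b' j ≠ 0)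
    (b3 : ZMod p → Set (ZMod q)) (h3 : ∀ c, (b3 c).ncard ≤ h) :
    {uv : (Fin n → ZMod p) × (Fin n → ZMod q) | ∃ j, j ≠ l ∧ ∃ r ∈ R, ∃ r' ∈ R',
      uv.2 j * (b' j)⁻¹ + r' ∈ b3 (uv.1 j * (b j)⁻¹ + r)}.ncard ≤
      n * (m * m * h) * (p ^ n * q ^ (n - 1)) := by
  classical
  have : NeZero p := ⟨(Fact.out : p.Prime).ne_zero⟩
  have : NeZero q := ⟨(Fact.out : q.Prime).ne_zero⟩
  -- for fixed `j ≠ l`, `u`, the bad values of the `j`-th coordinate of `v`
  let S : Fin n → (Fin n → ZMod p) → Finset (ZMod q) := fun j u =>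
    if j = l then ∅ else (R ×ˢ R').biUnion fun rr =>
      (Set.toFinite (b3 (u j * (b j)⁻¹ + rr.1))).toFinset.image fun y => (y - rr.2) * b' j
  have hS : ∀ j u, (S j u).card ≤ m * m * h := by
    intro j u
    by_cases hj : j = l
    · have e1 : S j u = ∅ := if_pos hj
      rw [e1, Finset.card_empty]
      exact Nat.zero_le _
    · have e1 : S j u = (R ×ˢ R').biUnion fun rr =>
          (Set.toFinite (b3 (u j * (b j)⁻¹ + rr.1))).toFinset.image fun y => (y - rr.2) * b' j :=
        if_neg hj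
      rw [e1]
      refine (Finset.card_biUnion_le_card_mul _ _ h fun rr _ => ?_).trans ?_
      · refine Finset.card_image_le.trans ?_
        rw [← Set.ncard_eq_toFinset_card _ (Set.toFinite (b3 (u j * (b j)⁻¹ + rr.1)))]
        exact h3 _
      · rw [Finset.card_product]
        exact Nat.mul_le_mul_right _ (Nat.mul_le_mul hm hm')
  have hSu : ∀ j u, {v : Fin n → ZMod q | v j ∈ S j u}.ncard ≤ m * m * h * q ^ (n - 1) := by
    intro j u
    have h4 := count_coord (n := n) (q := q) j (fun _ => S j u) (fun _ _ => rfl) (m * m * h)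
      (fun _ => hS j u)
    refine le_trans (le_of_eq ?_) h4
    rw [← Set.ncard_coe_finset]
    congr 1
    ext v
    rw [Set.mem_ofPred_eq, Finset.mem_coe, Finset.mem_filter]
    exact ⟨fun h => ⟨Finset.mem_univ _, h⟩, fun h => h.2⟩
  have hsub : {uv : (Fin n → ZMod p) × (Fin n → ZMod q) | ∃ j, j ≠ l ∧ ∃ r ∈ R, ∃ r' ∈ R',
      uv.2 j * (b' j)⁻¹ + r' ∈ b3 (uv.1 j * (b j)⁻¹ + r)} ⊆ ⋃ ju : Fin n × (Fin n → ZMod p),
        ({ju.2} : Set (Fin n → ZMod p)) ×ˢ {v : Fin n → ZMod q | v ju.1 ∈ S ju.1 ju.2} := by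
    rintro ⟨u, v⟩ ⟨j, hj, r, hr, r', hr', hmem⟩
    rw [Set.mem_iUnion]
    refine ⟨(j, u), Set.mem_singleton _, ?_⟩
    have e1 : S j u = (R ×ˢ R').biUnion fun rr =>
        (Set.toFinite (b3 (u j * (b j)⁻¹ + rr.1))).toFinset.image fun y => (y - rr.2) * b' j :=
      if_neg hj
    change v j ∈ S j u
    rw [e1, Finset.mem_biUnion]
    refine ⟨(r, r'), Finset.mk_mem_product hr hr', ?_⟩
    rw [Finset.mem_image]
    refine ⟨v j * (b' j)⁻¹ + r', ?_, ?_⟩
    · rw [Set.Finite.mem_toFinset]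
      exact hmem
    · change (v j * (b' j)⁻¹ + r' - r') * b' j = v j
      rw [add_sub_cancel_right, mul_assoc, inv_mul_cancel₀ (hb' j hj), mul_one]
  refine (Set.ncard_le_ncard hsub (Set.toFinite _)).trans ?_
  refine (Set.ncard_iUnion_le_of_fintype _).trans ?_
  calc ∑ ju : Fin n × (Fin n → ZMod p), (({ju.2} : Set (Fin n → ZMod p)) ×ˢ
        {v : Fin n → ZMod q | v ju.1 ∈ S ju.1 ju.2}).ncard
      ≤ ∑ ju : Fin n × (Fin n → ZMod p), m * m * h * q ^ (n - 1) := by
        refine Finset.sum_le_sum fun ju _ => ?_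
        rw [Set.ncard_prod, Set.ncard_singleton, one_mul]
        exact hSu _ _
    _ = _ := by
        rw [Finset.sum_const, Finset.card_univ, Fintype.card_prod, Fintype.card_fin,
          Fintype.card_fun, ZMod.card, Fintype.card_fin, smul_eq_mul]
        ring

end Pool.Agent.H882
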