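import Pool.Agent.H882.FyCore
import Pool.Agent.H882.NvDisc

/-!
Curves in general position at infinity: the relations of the coordinates.
-/

set_option autoImplicit false

namespace Pool.Agent.H882

open UpperHalfPlane H294ZP Function Pool.Agent.N135.ZO Polynomial
open Pool.Agent.Y226

/-- the data of the relations -/
abbrev Dt (n : ℕ) := Fin n → Fin n → (ℕ × ℕ) × (ℕ × ℕ →₀ QA)

/-- the highest coefficients are nonzero -/
def Good {n : ℕ} (D : Dt n) : Prop := ∀ i j, i ≠ j → (D i j).2 (D i j).1 ≠ 0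

/-- the points which satisfy the relations -/
def loc {n : ℕ} (D : Dt n) : Set (Fin n → ℂ) :=
  {y | ∀ i j, i ≠ j → ∑ u ∈ Finset.range ((D i j).1.1 + 1), ∑ v ∈ Finset.range ((D i j).1.2 + 1),
    ((D i j).2 (u, v) : ℂ) * y i ^ u * y j ^ v = 0}

/-- the relations with the same points at infinity and integral coefficients -/
def Cls {n : ℕ} (D₀ : Dt n) (N : ℕ) (D : Dt n) : Prop :=
  ∀ i j, i ≠ j → (D i j).1 = (D₀ i j).1 ∧
    (∀ v, v ≤ (D₀ i j).1.2 → (D i j).2 ((D₀ i j).1.1, v) = (D₀ i j).2 ((D₀ i j).1.1, v)) ∧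
    ∀ u, IsIntegral ℤ ((N : QA) * (D i j).2 u)

/-- the values of the other coordinates at the poles -/
noncomputable def lp {n : ℕ} (D : Dt n) (i j : Fin n) : QA[X] :=
  ∑ v ∈ Finset.range ((D i j).1.2 + 1), Polynomial.monomial v ((D i j).2 ((D i j).1.1, v))

/-- not a singular modulus -/
def NC (z : ℂ) : Prop := ∀ τ : ℍ, IsCM τ → z ≠ jj τ

/-- The local statement at one prime. -/
def RtLoc (n p : ℕ) (D : Dt n) (R : Finset (ZMod p)) (cl : ZMod p → ℂ) (b1 : Set (ZMod p)) : Prop :=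
  ∀ (a : Fin n → ℤ) (b : Fin n → ℕ) (l : Fin n), b l ≠ 0 → p ∣ b l → (∀ j, j ≠ l → ¬ p ∣ b j) →
    (a l : ZMod p) ≠ 0 →
    (∀ j, j ≠ l → ∀ r ∈ R, (a j : ZMod p) * (b j : ZMod p)⁻¹ + r ∉ b1) →
    (∀ j k, j ≠ l → k ≠ l → j ≠ k → ∀ r ∈ R, ∀ r' ∈ R,
      ¬ Isog (cl ((a j : ZMod p) * (b j : ZMod p)⁻¹ + r))
        (cl ((a k : ZMod p) * (b k : ZMod p)⁻¹ + r'))) →
    ∀ y ∈ loc D, ∀ x : Fin n → ℂ, (∀ i, x i = y i + (a i : ℂ) / (b i : ℂ)) →
      (NC (x l) ∧ ∀ j, j ≠ l → ¬ Isog (x l) (x j)) ∨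
      ∃ k, (∀ i j, i ≠ k → j ≠ k → i ≠ j → ¬ Isog (x i) (x j)) ∧ (k ≠ l → NC (x l)) ∧
        (k = l → ∀ j, j ≠ l → ¬ NC (x j) →
          ∃ r ∈ R, Isog (cl ((a j : ZMod p) * (b j : ZMod p)⁻¹ + r)) (x j))

theorem lp_natDegree {n : ℕ} {D : Dt n} (hD : Good D) {i j : Fin n} (hij : i ≠ j) :
    (lp D i j).natDegree = (D i j).1.2 ∧ (lp D i j).leadingCoeff = (D i j).2 (D i j).1 := by
  have hc : (lp D i j).coeff (D i j).1.2 = (D i j).2 (D i j).1 := by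
    rw [lp, Polynomial.finsetSum_coeff]
    simp only [Polynomial.coeff_monomial]
    rw [Finset.sum_ite_eq' (Finset.range ((D i j).1.2 + 1)) (D i j).1.2]
    rw [if_pos (Finset.mem_range.2 (Nat.lt_succ_self _))]
  have h1 : (lp D i j).natDegree ≤ (D i j).1.2 := by
    refine Polynomial.natDegree_sum_le_of_forall_le _ _ fun v hv => ?_
    exact (Polynomial.natDegree_monomial_le _).trans (Nat.lt_succ_iff.1 (Finset.mem_range.1 hv))
  have h2 : (lp D i j).natDegree = (D i j).1.2 := by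
    refine le_antisymm h1 (Polynomial.le_natDegree_of_ne_zero ?_)
    rw [hc]
    exact hD i j hij
  exact ⟨h2, by rw [Polynomial.leadingCoeff, h2, hc]⟩

theorem lp_ne {n : ℕ} {D : Dt n} (hD : Good D) {i j : Fin n} (hij : i ≠ j) : lp D i j ≠ 0 := by
  intro h
  have h1 := (lp_natDegree hD hij).2
  rw [h, Polynomial.leadingCoeff_zero] at h1
  exact hD i j hij h1.symm

theorem Cls.good {n : ℕ} {D₀ : Dt n} {N : ℕ} {D : Dt n} (h : Cls D₀ N D) (h₀ : Good D₀) :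
    Good D := by
  intro i j hij
  obtain ⟨h1, h2, -⟩ := h i j hij
  have h3 := h2 _ le_rfl
  rw [Prod.mk.eta] at h3
  rw [h1, h3]
  exact h₀ i j hij

theorem Cls.lp_eq {n : ℕ} {D₀ : Dt n} {N : ℕ} {D : Dt n} (h : Cls D₀ N D) {i j : Fin n}
    (hij : i ≠ j) : lp D i j = lp D₀ i j := by
  obtain ⟨h1, h2, -⟩ := h i j hij
  rw [lp, lp, h1]
  refine Finset.sum_congr rfl fun v hv => ?_
  rw [h2 v (Nat.lt_succ_iff.1 (Finset.mem_range.1 hv))]

theorem Cls.norm_le {n : ℕ} {D₀ : Dt n} {N : ℕ} {D : Dt n} (h : Cls D₀ N D) {p : ℕ}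
    (hp : p.Prime) (hN : N ≠ 0) (hNp : N < p) {C : Type} [NormedField C] [IsUltrametricDist C]
    (hp1 : ‖(p : C)‖ < 1) (Ψ : ℂ →+* C) {i j : Fin n} (hij : i ≠ j) (u : ℕ × ℕ) :
    ‖Ψ ((D i j).2 u : ℂ)‖ ≤ 1 := by
  obtain ⟨-, -, h3⟩ := h i j hij
  have h4 : ‖Ψ (((N : QA) * (D i j).2 u : QA) : ℂ)‖ ≤ 1 :=
    norm_le_one_of_isIntegral (Ψ.comp (algebraMap QA ℂ)) (h3 u)
  have h5 : ‖((N : ℤ) : C)‖ = 1 := by
    refine le_antisymm (IsUltrametricDist.norm_intCast_le_one C _) ?_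
    by_contra hcon
    push Not at hcon
    have h6 := Nat.le_of_dvd (Nat.pos_of_ne_zero hN)
      (Int.natCast_dvd_natCast.1 (dvd_of_norm hp hp1 hcon))
    omega
  rw [Int.cast_natCast] at h5
  have e : (((N : QA) * (D i j).2 u : QA) : ℂ) = (N : ℂ) * ((D i j).2 u : ℂ) := by push_cast; rfl
  rw [e, map_mul, map_natCast, norm_mul, h5, one_mul] at h4
  exact h4

theorem lp_eval {n : ℕ} (D : Dt n) (i j : Fin n) {A : Type} [CommRing A] (φ : QA →+* A) (y : A) :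
    (lp D i j).eval₂ φ y = ∑ v ∈ Finset.range ((D i j).1.2 + 1),
      φ ((D i j).2 ((D i j).1.1, v)) * y ^ v := by
  rw [lp, Polynomial.eval₂_finsetSum]
  refine Finset.sum_congr rfl fun v _ => ?_
  rw [Polynomial.eval₂_monomial]

end Pool.Agent.H882
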