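import Pool.Agent.H882.AdCount

/-!
One hundred percent of the pairs of vectors have two good primes for each coordinate.
-/

set_option autoImplicit false

namespace Pool.Agent.H882

/-- two good primes for each coordinate -/
def GR {n N : ℕ} (P : Set ℕ) (E : (Fin n → ℕ) → Fin n → ∀ p : ℕ, Set (Fin N → ZMod p))
    (Bp : (Fin n → ℕ) → Fin n → ∀ p q : ℕ, Set ((Fin N → ZMod p) × (Fin N → ZMod q)))
    (B : ℕ) (a : Fin N → ℤ) (b : Fin n → ℕ) : Prop :=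
  ∀ l : Fin n, ∃ p ∈ P, ∃ q ∈ P, B < p ∧ B < q ∧ p ∣ b l ∧ q ∣ b l ∧
    (∀ j, j ≠ l → ¬ p ∣ b j) ∧ (∀ j, j ≠ l → ¬ q ∣ b j) ∧
    red p a ∉ E b l p ∧ red q a ∉ E b l q ∧ (red p a, red q a) ∉ Bp b l p q

open Classical in
/-- the vectors whose coordinate number `l` has no divisor in `S` -/
theorem rt_win {n H : ℕ} (S : Finset ℕ) {δ : ℝ} (l : Fin n)
    (h : ({t : ℕ | 0 < t ∧ t ≤ H ∧ ¬ ∃ p ∈ S, p ∣ t}.ncard : ℝ) ≤ δ * H) :
    (((bm n H).filter fun u => ¬ ∃ p ∈ S, p ∣ u l + 1).card : ℝ) ≤ δ * (H : ℝ) ^ n := by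
  have h2 : ((((Finset.range H).filter fun u => ¬ ∃ p ∈ S, p ∣ u + 1).card : ℕ) : ℝ) ≤
      δ * H := by
    refine le_trans ?_ h
    have hfin : {t : ℕ | 0 < t ∧ t ≤ H ∧ ¬ ∃ p ∈ S, p ∣ t}.Finite :=
      (Set.finite_Iic H).subset fun t ht => ht.2.1
    rw [← Set.ncard_coe_finset]
    refine Nat.cast_le.2 (Set.ncard_le_ncard_of_injOn (fun u => u + 1) ?_ ?_ hfin)
    · intro u hu
      rw [Finset.mem_coe, Finset.mem_filter, Finset.mem_range] at hu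
      exact ⟨Nat.succ_pos u, hu.1, hu.2⟩
    · intro a _ b _ h
      exact Nat.succ_injective h
  have e3 : (((bm n H).filter fun u => ¬ ∃ p ∈ S, p ∣ u l + 1).card : ℝ) =
      ∑ u ∈ bm n H, (fun v : ℕ => if ¬ ∃ p ∈ S, p ∣ v + 1 then (1 : ℝ) else 0) (u l) := by
    rw [Finset.card_filter]
    push_cast
    rfl
  have e4 : ∑ v ∈ Finset.range H, (if ¬ ∃ p ∈ S, p ∣ v + 1 then (1 : ℝ) else 0) =
      ((((Finset.range H).filter fun u => ¬ ∃ p ∈ S, p ∣ u + 1).card : ℕ) : ℝ) := by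
    rw [Finset.card_filter]
    push_cast
    rfl
  rw [e3, sum_bm (fun v : ℕ => if ¬ ∃ p ∈ S, p ∣ v + 1 then (1 : ℝ) else 0) l]
  have h5 : (H : ℝ) * (H : ℝ) ^ (n - 1) = (H : ℝ) ^ n := by
    rw [← pow_succ', Nat.sub_add_cancel l.pos]
  calc (∑ v ∈ Finset.range H, (if ¬ ∃ p ∈ S, p ∣ v + 1 then (1 : ℝ) else 0)) *
        (H : ℝ) ^ (n - 1) ≤ δ * H * (H : ℝ) ^ (n - 1) := by
        rw [e4]
        exact mul_le_mul_of_nonneg_right h2 (by positivity)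
    _ = δ * (H : ℝ) ^ n := by rw [mul_assoc, h5]

open Classical in
/-- counting fibre by fibre -/
theorem rt_fib {N n H : ℕ} (Q : (Fin n → ℕ) → (Fin N → ℤ) → Prop) {c : ℝ}
    (h : ∀ u ∈ bm n H, (((bx N H).filter fun s => Q u s).card : ℝ) ≤ c) :
    (((bx N H ×ˢ bm n H).filter fun q => Q q.2 q.1).card : ℝ) ≤ (H : ℝ) ^ n * c := by
  have e3 : (((bx N H ×ˢ bm n H).filter fun q => Q q.2 q.1).card : ℝ) =
      ∑ u ∈ bm n H, (((bx N H).filter fun s => Q u s).card : ℝ) := by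
    rw [Finset.card_filter, Finset.sum_product_right]
    push_cast
    refine Finset.sum_congr rfl fun v _ => ?_
    rw [Finset.card_filter]
    push_cast
    rfl
  rw [e3]
  refine (Finset.sum_le_sum h).trans (le_of_eq ?_)
  rw [Finset.sum_const, card_bm, nsmul_eq_mul]
  push_cast
  rfl

open Classical in
/-- a single vector `b` -/
theorem rt_one {n N : ℕ} {P : Set ℕ} (hP : ∀ p ∈ P, p.Prime)
    (E : (Fin n → ℕ) → Fin n → ∀ p : ℕ, Set (Fin N → ZMod p))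
    (Bp : (Fin n → ℕ) → Fin n → ∀ p q : ℕ, Set ((Fin N → ZMod p) × (Fin N → ZMod q)))
    {η : ℝ} (hη : 0 < η) {B H : ℕ} (hB : 0 < B) (b : Fin n → ℕ) (l : Fin n)
    (hE : ∀ p ∈ P, B < p → (∀ j, j ≠ l → ¬ p ∣ b j) →
      ((E b l p).ncard : ℝ) ≤ η * (p : ℝ) ^ N)
    (hBp : ∀ p ∈ P, ∀ q ∈ P, B < p → B < q → p ≠ q →
      (∀ j, j ≠ l → ¬ p ∣ b j) → (∀ j, j ≠ l → ¬ q ∣ b j) →
      ((Bp b l p q).ncard : ℝ) ≤ η * (p : ℝ) ^ N * (q : ℝ) ^ N)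
    (hb : 0 < b l) (hbH : b l ≤ H) {p₀ p₁ : ℕ} (h01 : p₀ < p₁)
    (hp₀ : (p₀ ∈ P ∧ ∀ j, j ≠ l → ¬ p₀ ∣ b j) ∧ B < p₀ ∧ p₀ ∣ b l)
    (hp₁ : (p₁ ∈ P ∧ ∀ j, j ≠ l → ¬ p₁ ∣ b j) ∧ B < p₁ ∧ p₁ ∣ b l) :
    (((bx N H).filter fun s => ¬ G1 {p | p ∈ P ∧ ∀ j, j ≠ l → ¬ p ∣ b j} (E b l) (Bp b l) 2 B
      s (b l)).card : ℝ) ≤ 6 * η * (3 * H) ^ N := by
  have hBR : (0 : ℝ) < B := by exact_mod_cast hB
  have h := card_good1 (K := 2) (R := 1) (H := H) (B := B) hB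
    (P := {p | p ∈ P ∧ ∀ j, j ≠ l → ¬ p ∣ b j}) (fun p hp => hP p hp.1) (E b l) (Bp b l)
    (κ := η) (C := η * B) (by positivity) (fun p hp hlt => hE p hp.1 hlt hp.2)
    (fun p hp q hq h1 h2 h3 => by
      refine (hBp p hp.1 q hq.1 h1 h2 h3 hp.2 hq.2).trans (le_of_eq ?_)
      field_simp) hb hbH (fun x => if x.1 = 0 then p₀ else p₁)
    (by
      rintro ⟨x, x'⟩ ⟨y, y'⟩ h
      have hx' : x' = y' := Subsingleton.elim _ _
      have hxy : x = y := by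
        by_contra hne
        simp only at h
        by_cases hx : x = 0
        · have hy : y ≠ 0 := fun hy => hne (hx.trans hy.symm)
          rw [if_pos hx, if_neg hy] at h
          omega
        · have hy : y = 0 := by omega
          rw [if_neg hx, if_pos hy] at h
          omega
      rw [hxy, hx'])
    (by
      intro x
      by_cases hx : x.1 = 0
      · simp only [if_pos hx]
        exact hp₀
      · simp only [if_neg hx]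
        exact hp₁)
  refine h.trans (le_of_eq ?_)
  have e1 : (((2 : ℕ) : ℝ) * η ^ 1 + (((2 : ℕ) : ℝ) * ((1 : ℕ) : ℝ)) *
      (((2 : ℕ) : ℝ) * ((1 : ℕ) : ℝ)) * (η * B / B)) = 6 * η := by
    rw [mul_div_assoc, div_self hBR.ne']
    push_cast
    ring
  rw [e1]

theorem rt_GR {n N : ℕ} {P : Set ℕ} {E : (Fin n → ℕ) → Fin n → ∀ p : ℕ, Set (Fin N → ZMod p)}
    {Bp : (Fin n → ℕ) → Fin n → ∀ p q : ℕ, Set ((Fin N → ZMod p) × (Fin N → ZMod q))}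
    {B B' : ℕ} (hB : B ≤ B') {a : Fin N → ℤ} {b : Fin n → ℕ}
    (h : ∀ l, G1 {p | p ∈ P ∧ ∀ j, j ≠ l → ¬ p ∣ b j} (E b l) (Bp b l) 2 B' a (b l)) :
    GR P E Bp B a b := by
  intro l
  obtain ⟨f, _, h2, h3⟩ := h l
  obtain ⟨⟨a1, a2⟩, a3, a4, a5⟩ := h2 0
  obtain ⟨⟨b1, b2⟩, b3, b4, b5⟩ := h2 1
  exact ⟨f 0, a1, f 1, b1, lt_of_le_of_lt hB a3, lt_of_le_of_lt hB b3, a4, b4, a2, b2, a5, b5,
    h3 0 1 (by decide)⟩

/-- Hints: this is a variant of `count_g1` and `count_gm` in `Pool/Agent/H882/AdCount.lean` (read their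
proofs and adapt them). For given `b` use `card_good1` (`AdOne.lean`) with `K = 2`, `R = 1`, `t = b l`, the set of
primes `{p ∈ P | ∀ j ≠ l, ¬ p ∣ b j}`, and `E b l`, `Bp b l` (with `κ = η` small, and `C = η B'`). The bad `b`: for some `l`
one of the two windows `S 0`, `S 1` (`windows`, for a large bound `B'`) contains no divisor of `b l`
(`coprime_count`), or two different `b l`, `b j` have a common divisor `> B'` (`card_common`). -/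
theorem count_rt {n N : ℕ} {P : Set ℕ} (hP : ∀ p ∈ P, p.Prime) (hdiv : Dvg P)
    (E : (Fin n → ℕ) → Fin n → ∀ p : ℕ, Set (Fin N → ZMod p))
    (Bp : (Fin n → ℕ) → Fin n → ∀ p q : ℕ, Set ((Fin N → ZMod p) × (Fin N → ZMod q)))
    (hE : ∀ η : ℝ, 0 < η → ∃ B₀ : ℕ, ∀ p ∈ P, B₀ < p → ∀ b l, (∀ j, j ≠ l → ¬ p ∣ b j) →
      ((E b l p).ncard : ℝ) ≤ η * (p : ℝ) ^ N)
    (hBp : ∀ η : ℝ, 0 < η → ∃ B₀ : ℕ, ∀ p ∈ P, ∀ q ∈ P, B₀ < p → B₀ < q → p ≠ q → ∀ b l,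
      (∀ j, j ≠ l → ¬ p ∣ b j) → (∀ j, j ≠ l → ¬ q ∣ b j) →
      ((Bp b l p q).ncard : ℝ) ≤ η * (p : ℝ) ^ N * (q : ℝ) ^ N) (B : ℕ) {ε : ℝ} (hε : 0 < ε) :
    ∃ H₀ : ℕ, ∀ H : ℕ, H₀ ≤ H → ({q : (Fin N → ℤ) × (Fin n → ℕ) | (∀ i, |q.1 i| ≤ (H : ℤ)) ∧
      (∀ l, q.2 l + 1 ≤ H) ∧ ¬ GR P E Bp B q.1 (fun l => q.2 l + 1)}.ncard : ℝ) ≤
        ε * (H : ℝ) ^ (N + n) := by
  classical
  obtain ⟨δ, hδ, hδε⟩ : ∃ δ : ℝ, 0 < δ ∧ n * 2 * δ * 3 ^ N ≤ ε / 3 := by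
    refine ⟨ε / (6 * (n + 1) * 3 ^ N), by positivity, ?_⟩
    have h3 : (0 : ℝ) < 3 ^ N := by positivity
    have e : (n : ℝ) * 2 * (ε / (6 * (n + 1) * 3 ^ N)) * 3 ^ N = (n / (n + 1)) * (ε / 3) := by
      field_simp
      ring
    rw [e]
    have h4 : (n : ℝ) / (n + 1) ≤ 1 := by
      rw [div_le_one (by positivity)]
      linarith
    calc (n : ℝ) / (n + 1) * (ε / 3) ≤ 1 * (ε / 3) :=
          mul_le_mul_of_nonneg_right h4 (by positivity)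
      _ = ε / 3 := one_mul _
  obtain ⟨η, hη, hηε⟩ : ∃ η : ℝ, 0 < η ∧ n * (6 * η) * 3 ^ N ≤ ε / 3 := by
    refine ⟨ε / (18 * (n + 1) * 3 ^ N), by positivity, ?_⟩
    have h3 : (0 : ℝ) < 3 ^ N := by positivity
    have e : (n : ℝ) * (6 * (ε / (18 * (n + 1) * 3 ^ N))) * 3 ^ N = (n / (n + 1)) * (ε / 3) := by
      field_simp
      ring
    rw [e]
    have h4 : (n : ℝ) / (n + 1) ≤ 1 := by
      rw [div_le_one (by positivity)]
      linarith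
    calc (n : ℝ) / (n + 1) * (ε / 3) ≤ 1 * (ε / 3) :=
          mul_le_mul_of_nonneg_right h4 (by positivity)
      _ = ε / 3 := one_mul _
  obtain ⟨B₁, hB₁⟩ := hE η hη
  obtain ⟨B₂, hB₂⟩ := hBp η hη
  obtain ⟨B₃, hB₃⟩ := exists_nat_ge ((n : ℝ) * n * 3 ^ N / (ε / 3))
  obtain ⟨B', hB'⟩ : ∃ B' : ℕ, B' = B + B₁ + B₂ + B₃ + 1 := ⟨_, rfl⟩
  have hB'0 : 0 < B' := by omega
  have hB'R : (0 : ℝ) < B' := by exact_mod_cast hB'0
  have hcoef : (n : ℝ) * n * 3 ^ N / B' ≤ ε / 3 := by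
    rw [div_le_iff₀ hB'R]
    rw [div_le_iff₀ (by positivity)] at hB₃
    have h2 : (B₃ : ℝ) ≤ B' := by
      have : B₃ ≤ B' := by omega
      exact_mod_cast this
    nlinarith
  obtain ⟨S, hS1, hS2, hS3⟩ := windows hdiv B' (show (0 : ℝ) < δ / 2 by positivity)
  have hcnt : ∀ i : ℕ, ∃ H₀ : ℕ, ∀ H : ℕ, H₀ ≤ H →
      ({t : ℕ | 0 < t ∧ t ≤ H ∧ ¬ ∃ p ∈ S i, p ∣ t}.ncard : ℝ) ≤ δ * H := fun i =>
    coprime_count (S i) (fun p hp => hP p (hS1 i p hp).1) hδ (hS2 i)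
  choose H₁ hH₁ using hcnt
  refine ⟨H₁ 0 + H₁ 1 + 1, fun H hH => ?_⟩
  have hH1 : 1 ≤ H := by omega
  -- the three kinds of exceptions
  let A1 : Fin n × Fin 2 → Finset ((Fin N → ℤ) × (Fin n → ℕ)) := fun x =>
    bx N H ×ˢ ((bm n H).filter fun u => ¬ ∃ p ∈ S x.2.val, p ∣ u x.1 + 1)
  let A2 : Fin n × Fin n → Finset ((Fin N → ℤ) × (Fin n → ℕ)) := fun x =>
    if x.1 = x.2 then ∅ else bx N H ×ˢ ((bm n H).filter fun u =>
      ∃ q, B' < q ∧ q ∣ u x.1 + 1 ∧ q ∣ u x.2 + 1)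
  obtain ⟨Q, hQ⟩ : ∃ Q : Fin n → (Fin n → ℕ) → (Fin N → ℤ) → Prop, ∀ l u s, Q l u s ↔
      (((∃ p ∈ S 0, p ∣ u l + 1) ∧ (∃ p ∈ S 1, p ∣ u l + 1) ∧
        ∀ j, l ≠ j → ¬ ∃ q, B' < q ∧ q ∣ u l + 1 ∧ q ∣ u j + 1) ∧
      ¬ G1 {p | p ∈ P ∧ ∀ j, j ≠ l → ¬ p ∣ u j + 1} (E (fun i => u i + 1) l)
        (Bp (fun i => u i + 1) l) 2 B' s (u l + 1)) := ⟨_, fun _ _ _ => Iff.rfl⟩
  let A3 : Fin n → Finset ((Fin N → ℤ) × (Fin n → ℕ)) := fun l =>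
    (bx N H ×ˢ bm n H).filter fun q => Q l q.2 q.1
  have hsub : {q : (Fin N → ℤ) × (Fin n → ℕ) | (∀ i, |q.1 i| ≤ (H : ℤ)) ∧
      (∀ l, q.2 l + 1 ≤ H) ∧ ¬ GR P E Bp B q.1 (fun l => q.2 l + 1)} ⊆
      (((Finset.univ.biUnion A1) ∪ ((Finset.univ.biUnion A2) ∪ (Finset.univ.biUnion A3)) :
        Finset ((Fin N → ℤ) × (Fin n → ℕ))) : Set _) := by
    rintro q ⟨h1, h2, h3⟩
    have hq : q ∈ bx N H ×ˢ bm n H := Finset.mem_product.2 ⟨mem_bx.2 h1, mem_bm.2 h2⟩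
    rw [Finset.mem_coe, Finset.mem_union, Finset.mem_union, Finset.mem_biUnion,
      Finset.mem_biUnion, Finset.mem_biUnion]
    by_contra hcon
    rw [not_or, not_or] at hcon
    obtain ⟨hc1, hc2, hc3⟩ := hcon
    push Not at hc1 hc2 hc3
    apply h3
    refine rt_GR (B' := B') (by omega) fun l => ?_
    by_contra h4
    refine hc3 l (Finset.mem_univ l) (Finset.mem_filter.2 ⟨hq, (hQ _ _ _).2
      ⟨⟨?_, ?_, ?_⟩, h4⟩⟩)
    · by_contra h5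
      exact hc1 (l, 0) (Finset.mem_univ _)
        (Finset.mem_product.2 ⟨mem_bx.2 h1, Finset.mem_filter.2 ⟨mem_bm.2 h2, h5⟩⟩)
    · by_contra h5
      exact hc1 (l, 1) (Finset.mem_univ _)
        (Finset.mem_product.2 ⟨mem_bx.2 h1, Finset.mem_filter.2 ⟨mem_bm.2 h2, h5⟩⟩)
    · intro j hlj hex
      refine hc2 (l, j) (Finset.mem_univ _) ?_
      show q ∈ if l = j then ∅ else _
      rw [if_neg hlj]
      exact Finset.mem_product.2 ⟨mem_bx.2 h1, Finset.mem_filter.2 ⟨mem_bm.2 h2, hex⟩⟩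
  have hA1 : ∀ x, ((A1 x).card : ℝ) ≤ δ * 3 ^ N * (H : ℝ) ^ (N + n) := by
    rintro ⟨l, i⟩
    have hi : H₁ i.val ≤ H := by
      have : i.val = 0 ∨ i.val = 1 := by omega
      rcases this with h | h <;> rw [h] <;> omega
    show (((bx N H ×ˢ _ : Finset ((Fin N → ℤ) × (Fin n → ℕ))).card : ℕ) : ℝ) ≤ _
    rw [Finset.card_product, Nat.cast_mul]
    calc _ ≤ (3 * (H : ℝ)) ^ N * (δ * (H : ℝ) ^ n) :=
          mul_le_mul (card_bx hH1) (rt_win (S i.val) l (hH₁ i.val H hi)) (Nat.cast_nonneg _)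
            (by positivity)
      _ = δ * 3 ^ N * (H : ℝ) ^ (N + n) := by
          rw [mul_pow, pow_add]
          ring
  have hA2 : ∀ x, ((A2 x).card : ℝ) ≤ 3 ^ N * (H : ℝ) ^ (N + n) / B' := by
    rintro ⟨l, l'⟩
    show (((if l = l' then ∅ else _ : Finset ((Fin N → ℤ) × (Fin n → ℕ))).card : ℕ) : ℝ) ≤ _
    split_ifs with hll
    · rw [Finset.card_empty, Nat.cast_zero]
      positivity
    · rw [Finset.card_product, Nat.cast_mul]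
      calc _ ≤ (3 * (H : ℝ)) ^ N * ((H : ℝ) ^ n / B') :=
            mul_le_mul (card_bx hH1) (card_common hB'0 hll) (Nat.cast_nonneg _) (by positivity)
        _ = 3 ^ N * (H : ℝ) ^ (N + n) / B' := by
            rw [mul_pow, pow_add]
            ring
  have hA3 : ∀ l, ((A3 l).card : ℝ) ≤ 6 * η * 3 ^ N * (H : ℝ) ^ (N + n) := by
    intro l
    have h := rt_fib (H := H) (Q l) (c := 6 * η * (3 * H) ^ N) (by
      intro u hu
      by_cases hA : (∃ p ∈ S 0, p ∣ u l + 1) ∧ (∃ p ∈ S 1, p ∣ u l + 1) ∧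
          ∀ j, l ≠ j → ¬ ∃ q, B' < q ∧ q ∣ u l + 1 ∧ q ∣ u j + 1
      · obtain ⟨⟨p₀, hp₀, hd₀⟩, ⟨p₁, hp₁, hd₁⟩, hA3⟩ := hA
        have h5 := rt_one hP E Bp hη (H := H) hB'0 (fun i => u i + 1) l
          (fun p hp hlt hnd => hB₁ p hp (by omega) _ _ hnd)
          (fun p hp q hq h1 h2 h3 h4 h5 => hB₂ p hp q hq (by omega) (by omega) h3 _ _ h4 h5)
          (Nat.succ_pos _) (mem_bm.1 hu l) (hS3 0 1 (by norm_num) p₀ hp₀ p₁ hp₁)
          ⟨⟨(hS1 0 p₀ hp₀).1, fun j hj hd => hA3 j (Ne.symm hj) ⟨p₀, (hS1 0 p₀ hp₀).2, hd₀, hd⟩⟩,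
            (hS1 0 p₀ hp₀).2, hd₀⟩
          ⟨⟨(hS1 1 p₁ hp₁).1, fun j hj hd => hA3 j (Ne.symm hj) ⟨p₁, (hS1 1 p₁ hp₁).2, hd₁, hd⟩⟩,
            (hS1 1 p₁ hp₁).2, hd₁⟩
        refine le_trans ?_ h5
        refine Nat.cast_le.2 (Finset.card_le_card ?_)
        intro s hs
        obtain ⟨hs1, hs2⟩ := Finset.mem_filter.1 hs
        exact Finset.mem_filter.2 ⟨hs1, ((hQ _ _ _).1 hs2).2⟩
      · have h5 : ((bx N H).filter fun s => Q l u s) = ∅ := by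
          rw [Finset.filter_eq_empty_iff]
          intro s _ hs
          exact hA ((hQ _ _ _).1 hs).1
        rw [h5, Finset.card_empty, Nat.cast_zero]
        positivity)
    refine h.trans (le_of_eq ?_)
    rw [mul_pow, pow_add]
    ring
  have h1 := Set.ncard_le_ncard hsub (Finset.finite_toSet _)
  rw [Set.ncard_coe_finset] at h1
  have h2 := h1.trans ((Finset.card_union_le _ _).trans
    (Nat.add_le_add Finset.card_biUnion_le ((Finset.card_union_le _ _).trans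
      (Nat.add_le_add Finset.card_biUnion_le Finset.card_biUnion_le))))
  have h3 : ({q : (Fin N → ℤ) × (Fin n → ℕ) | (∀ i, |q.1 i| ≤ (H : ℤ)) ∧
      (∀ l, q.2 l + 1 ≤ H) ∧ ¬ GR P E Bp B q.1 (fun l => q.2 l + 1)}.ncard : ℝ) ≤
      ((∑ x, (A1 x).card : ℕ) : ℝ) + (((∑ x, (A2 x).card : ℕ) : ℝ) +
        ((∑ x, (A3 x).card : ℕ) : ℝ)) := by
    exact_mod_cast h2
  have h4 : ((∑ x, (A1 x).card : ℕ) : ℝ) ≤ (n * 2) * (δ * 3 ^ N * (H : ℝ) ^ (N + n)) := by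
    rw [Nat.cast_sum]
    refine (Finset.sum_le_sum fun l _ => hA1 l).trans (le_of_eq ?_)
    rw [Finset.sum_const, Finset.card_univ, Fintype.card_prod, Fintype.card_fin,
      Fintype.card_fin, nsmul_eq_mul]
    push_cast
    ring
  have h5 : ((∑ x, (A2 x).card : ℕ) : ℝ) ≤ (n * n) * (3 ^ N * (H : ℝ) ^ (N + n) / B') := by
    rw [Nat.cast_sum]
    refine (Finset.sum_le_sum fun l _ => hA2 l).trans (le_of_eq ?_)
    rw [Finset.sum_const, Finset.card_univ, Fintype.card_prod, Fintype.card_fin, nsmul_eq_mul]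
    push_cast
    ring
  have h6 : ((∑ x, (A3 x).card : ℕ) : ℝ) ≤ n * (6 * η * 3 ^ N * (H : ℝ) ^ (N + n)) := by
    rw [Nat.cast_sum]
    refine (Finset.sum_le_sum fun l _ => hA3 l).trans (le_of_eq ?_)
    rw [Finset.sum_const, Finset.card_univ, Fintype.card_fin, nsmul_eq_mul]
  have hHp : (0 : ℝ) ≤ (H : ℝ) ^ (N + n) := by positivity
  calc _ ≤ _ := h3
    _ ≤ (n * 2) * (δ * 3 ^ N * (H : ℝ) ^ (N + n)) + ((n * n) *
        (3 ^ N * (H : ℝ) ^ (N + n) / B') + n * (6 * η * 3 ^ N * (H : ℝ) ^ (N + n))) :=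
        add_le_add h4 (add_le_add h5 h6)
    _ = (n * 2 * δ * 3 ^ N + ((n : ℝ) * n * 3 ^ N / B' + n * (6 * η) * 3 ^ N)) *
        (H : ℝ) ^ (N + n) := by ring
    _ ≤ (ε / 3 + (ε / 3 + ε / 3)) * (H : ℝ) ^ (N + n) :=
        mul_le_mul_of_nonneg_right (add_le_add hδε (add_le_add hcoef hηε)) hHp
    _ = ε * (H : ℝ) ^ (N + n) := by ring

end Pool.Agent.H882
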