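import Pool.Agent.H882.RtDef
import Pool.Agent.H882.MvEmb
import Pool.Agent.H882.EmbGood

/-!
Embeddings for which all the coordinates of a transcendental point are integral.
-/

set_option autoImplicit false

namespace Pool.Agent.H882

open Pool.Agent.Y226 Cardinal

set_option linter.unusedSectionVars false

section Aux

variable {C : Type} [NormedField C] [IsUltrametricDist C]

theorem emb_sum_le {ι : Type} (s : Finset ι) (f : ι → C) (h : ∀ i ∈ s, ‖f i‖ ≤ 1) :
    ‖∑ i ∈ s, f i‖ ≤ 1 := by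
  classical
  induction s using Finset.induction_on with
  | empty =>
    rw [Finset.sum_empty, norm_zero]
    exact zero_le_one
  | insert a s ha ih =>
    rw [Finset.sum_insert ha]
    exact (IsUltrametricDist.norm_add_le_max _ _).trans
      (max_le (h a (Finset.mem_insert_self a s)) (ih fun i hi => h i (Finset.mem_insert_of_mem hi)))

theorem emb_sum_lt {ι : Type} (s : Finset ι) (f : ι → C) {r : ℝ} (hr : 0 < r)
    (h : ∀ i ∈ s, ‖f i‖ < r) : ‖∑ i ∈ s, f i‖ < r := by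
  classical
  induction s using Finset.induction_on with
  | empty =>
    rw [Finset.sum_empty, norm_zero]
    exact hr
  | insert a s ha ih =>
    rw [Finset.sum_insert ha]
    exact (IsUltrametricDist.norm_add_le_max _ _).trans_lt
      (max_lt (h a (Finset.mem_insert_self a s)) (ih fun i hi => h i (Finset.mem_insert_of_mem hi)))

/-- a root of a polynomial with integral coefficients and a unit as leading coefficient -/
theorem emb_int (a b : ℕ) (c : ℕ × ℕ → C) (x y : C) (hx : ‖x‖ ≤ 1) (hc : ∀ u, ‖c u‖ ≤ 1)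
    (hlead : ‖∑ u ∈ Finset.range (a + 1), c (u, b) * x ^ u‖ = 1)
    (hrel : ∑ u ∈ Finset.range (a + 1), ∑ v ∈ Finset.range (b + 1), c (u, v) * x ^ u * y ^ v = 0) :
    ‖y‖ ≤ 1 := by
  by_contra hy
  rw [not_le] at hy
  rw [Finset.sum_comm] at hrel
  have hg : ∀ v, ∑ u ∈ Finset.range (a + 1), c (u, v) * x ^ u * y ^ v =
      (∑ u ∈ Finset.range (a + 1), c (u, v) * x ^ u) * y ^ v := fun v => by rw [Finset.sum_mul]
  rw [Finset.sum_congr rfl fun v _ => hg v, Finset.sum_range_succ] at hrel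
  have h1 : ‖∑ v ∈ Finset.range b, (∑ u ∈ Finset.range (a + 1), c (u, v) * x ^ u) * y ^ v‖ <
      ‖y‖ ^ b := by
    refine emb_sum_lt _ _ (by positivity) fun v hv => ?_
    rw [Finset.mem_range] at hv
    rw [norm_mul, norm_pow]
    have h2 : ‖∑ u ∈ Finset.range (a + 1), c (u, v) * x ^ u‖ ≤ 1 := by
      refine emb_sum_le _ _ fun u _ => ?_
      rw [norm_mul, norm_pow]
      exact mul_le_one₀ (hc _) (by positivity) (pow_le_one₀ (norm_nonneg _) hx)
    have h3 : ‖y‖ ^ v < ‖y‖ ^ b := pow_lt_pow_right₀ hy hv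
    calc _ ≤ 1 * ‖y‖ ^ v := mul_le_mul_of_nonneg_right h2 (by positivity)
      _ = ‖y‖ ^ v := one_mul _
      _ < _ := h3
  have h4 : ∑ v ∈ Finset.range b, (∑ u ∈ Finset.range (a + 1), c (u, v) * x ^ u) * y ^ v =
      -((∑ u ∈ Finset.range (a + 1), c (u, b) * x ^ u) * y ^ b) := eq_neg_of_add_eq_zero_left hrel
  rw [h4, norm_neg, norm_mul, norm_pow, hlead, one_mul] at h1
  exact lt_irrefl _ h1

theorem emb_prod_ge (s : Multiset C) (h : ∀ x ∈ s, 1 ≤ ‖x‖) : 1 ≤ ‖s.prod‖ := by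
  induction s using Multiset.induction_on with
  | empty => rw [Multiset.prod_zero, norm_one]
  | cons a s ih =>
    rw [Multiset.prod_cons, norm_mul]
    exact one_le_mul_of_one_le_of_one_le (h a (Multiset.mem_cons_self a s))
      (ih fun x hx => h x (Multiset.mem_cons_of_mem hx))

open Polynomial in
/-- the bad residues of one polynomial -/
theorem emb_bad {p : ℕ} (hp : p.Prime) (hp1 : ‖(p : C)‖ < 1) (Ψ : ℂ →+* C) (h : ℂ[X])
    (hl : ‖Ψ h.leadingCoeff‖ = 1) :
    ((Finset.range p).filter (fun m : ℕ => ‖Ψ (h.eval (m : ℂ))‖ < 1)).card ≤ h.natDegree := by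
  classical
  have hs : h.Splits := IsAlgClosed.splits h
  have hsub : (Finset.range p).filter (fun m : ℕ => ‖Ψ (h.eval (m : ℂ))‖ < 1) ⊆
      h.roots.toFinset.biUnion (fun ρ => (Finset.range p).filter
        (fun m : ℕ => ‖(m : C) - Ψ ρ‖ < 1)) := by
    intro m hm
    rw [Finset.mem_filter] at hm
    obtain ⟨hm1, hm2⟩ := hm
    rw [Finset.mem_biUnion]
    by_contra hcon
    push Not at hcon
    have h1 : ∀ ρ ∈ h.roots, 1 ≤ ‖(m : C) - Ψ ρ‖ := by
      intro ρ hρ
      by_contra h2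
      exact hcon ρ (Multiset.mem_toFinset.2 hρ) (Finset.mem_filter.2 ⟨hm1, not_le.1 h2⟩)
    rw [hs.eval_eq_prod_roots, map_mul, norm_mul, hl, one_mul, map_multiset_prod,
      Multiset.map_map] at hm2
    refine absurd hm2 (not_lt.2 (emb_prod_ge _ fun x hx => ?_))
    obtain ⟨ρ, hρ, rfl⟩ := Multiset.mem_map.1 hx
    rw [Function.comp_apply, map_sub, map_natCast]
    exact h1 ρ hρ
  refine (Finset.card_le_card hsub).trans ?_
  have hone : ∀ ρ ∈ h.roots.toFinset, ((Finset.range p).filter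
      (fun m : ℕ => ‖(m : C) - Ψ ρ‖ < 1)).card ≤ 1 := by
    intro ρ _
    rw [Finset.card_le_one]
    intro m hm m' hm'
    rw [Finset.mem_filter, Finset.mem_range] at hm hm'
    have h2 : ‖(((m : ℤ) - (m' : ℤ) : ℤ) : C)‖ < 1 := by
      push_cast
      have e : (m : C) - (m' : C) = ((m : C) - Ψ ρ) + -((m' : C) - Ψ ρ) := by ring
      rw [e]
      refine (IsUltrametricDist.norm_add_le_max _ _).trans_lt (max_lt hm.2 ?_)
      rw [norm_neg]
      exact hm'.2
    have h3 := dvd_of_norm hp hp1 h2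
    have h4 : (m : ℤ) - (m' : ℤ) = 0 := by
      apply Int.eq_zero_of_abs_lt_dvd h3
      rw [abs_lt]
      constructor <;> omega
    omega
  refine (Finset.card_biUnion_le_card_mul _ _ 1 hone).trans ?_
  rw [mul_one]
  exact (Multiset.toFinset_card_le _).trans (card_roots' h)

end Aux

open Polynomial in
/-- a polynomial given by coefficients -/
noncomputable def emb_pol (c : ℕ → ℂ) (a : ℕ) : ℂ[X] :=
  ∑ u ∈ Finset.range (a + 1), C (c u) * X ^ u

open Polynomial in
theorem emb_pol_deg (c : ℕ → ℂ) (a : ℕ) (h : c a ≠ 0) :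
    (emb_pol c a).natDegree = a ∧ (emb_pol c a).leadingCoeff = c a := by
  have h1 : (emb_pol c a).coeff a = c a := by
    unfold emb_pol
    rw [finsetSum_coeff, Finset.sum_eq_single a]
    · rw [coeff_C_mul, coeff_X_pow_self, mul_one]
    · intro b _ hb
      rw [coeff_C_mul, coeff_X_pow, if_neg hb.symm, mul_zero]
    · intro hb
      exact absurd (Finset.mem_range.2 (Nat.lt_succ_self a)) hb
  have h2 : (emb_pol c a).natDegree ≤ a := by
    unfold emb_pol
    refine natDegree_sum_le_of_forall_le _ _ fun u hu => ?_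
    rw [Finset.mem_range] at hu
    exact (natDegree_C_mul_X_pow_le _ _).trans (by omega)
  have h3 : (emb_pol c a).natDegree = a :=
    natDegree_eq_of_le_of_coeff_ne_zero h2 (by rw [h1]; exact h)
  refine ⟨h3, ?_⟩
  rw [leadingCoeff, h3, h1]

open Polynomial in
theorem emb_pol_eval (c : ℕ → ℂ) (a : ℕ) (x : ℂ) :
    (emb_pol c a).eval x = ∑ u ∈ Finset.range (a + 1), c u * x ^ u := by
  unfold emb_pol
  rw [eval_finsetSum]
  refine Finset.sum_congr rfl fun u _ => ?_
  rw [eval_mul, eval_C, eval_pow, eval_X]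

/-- embeddings for which all the coordinates of a transcendental point are integral -/
theorem rt_emb {n : ℕ} {D₀ : Dt n} (hD₀ : Good D₀) {N : ℕ} (hN : N ≠ 0) :
    ∃ B : ℕ, ∀ p : ℕ, p.Prime → B < p → ∀ D, Cls D₀ N D →
    ∀ w : Fin n, ∀ y ∈ loc D, Transcendental ℚ (y w) →
      ∃ (C : Type) (_ : NormedField C) (_ : IsUltrametricDist C) (_ : CharZero C) (Φ : ℂ →+* C),
        ‖(p : C)‖ < 1 ∧ ∀ i, ‖Φ (y i)‖ ≤ 1 := by
  classical
  have hb : ∀ c : QA, ∃ B : ℕ, c ≠ 0 → ∀ p : ℕ, p.Prime → B < p →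
      ∀ (C : Type) [NormedField C] [IsUltrametricDist C] (Ψ : ℂ →+* C), ‖(p : C)‖ < 1 →
        ‖Ψ (c : ℂ)‖ = 1 := by
    intro c
    by_cases hc : c = 0
    · exact ⟨0, fun h => absurd hc h⟩
    · obtain ⟨B, hB⟩ := unit_large c.2 (fun h => hc (Subtype.ext h))
      exact ⟨B, fun _ => hB⟩
  choose bd hbd using hb
  refine ⟨(∑ i, ∑ j, (bd ((D₀ i j).2 (D₀ i j).1) + (D₀ i j).1.1)) + N, ?_⟩
  intro p hp hpB' D hDC w y hy hyw
  have hpB : ∑ i, ∑ j, (bd ((D₀ i j).2 (D₀ i j).1) + (D₀ i j).1.1) < p := by omega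
  have hNp : N < p := by omega
  have hD : Good D := hDC.good hD₀
  have hpf : Fact p.Prime := ⟨hp⟩
  obtain ⟨C, _, _, _, _, _, φ₀, hpC⟩ := exists_padic p
  have hp1 : ‖(p : C)‖ < 1 := by
    rw [hpC]
    exact inv_lt_one_of_one_lt₀ (by exact_mod_cast hp.one_lt)
  have hp0 : 0 < ‖(p : C)‖ := by
    rw [hpC]
    exact inv_pos.2 (by exact_mod_cast hp.pos)
  have hpQ : 1 < ‖φ₀ ((p : QA)⁻¹)‖ := by
    rw [map_inv₀, map_natCast, norm_inv]
    exact (one_lt_inv₀ hp0).2 hp1
  obtain ⟨Ψ, hΨ, -⟩ := exists_ext φ₀ ((p : QA)⁻¹) hpQ (fun i : Empty => (0 : ℂ))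
    (by
      rw [algebraicIndependent_empty_type_iff]
      exact (algebraMap QA ℂ).injective) 0
  -- the bounds
  have hle : ∀ i j, bd ((D₀ i j).2 (D₀ i j).1) + (D₀ i j).1.1 < p := by
    intro i j
    refine lt_of_le_of_lt ?_ hpB
    refine le_trans ?_ (Finset.single_le_sum (f := fun i => ∑ j,
      (bd ((D₀ i j).2 (D₀ i j).1) + (D₀ i j).1.1))
      (fun _ _ => Nat.zero_le _) (Finset.mem_univ i))
    exact Finset.single_le_sum (f := fun j =>
      (bd ((D₀ i j).2 (D₀ i j).1) + (D₀ i j).1.1))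
      (fun _ _ => Nat.zero_le _) (Finset.mem_univ j)
  have hunit : ∀ i j, i ≠ j → ‖Ψ ((D i j).2 ((D i j).1.1, (D i j).1.2) : ℂ)‖ = 1 := by
    intro i j hij
    have e : (D i j).2 ((D i j).1.1, (D i j).1.2) = (D₀ i j).2 (D₀ i j).1 := by
      obtain ⟨e1, e2, -⟩ := hDC i j hij
      have e3 := e2 _ le_rfl
      rw [Prod.mk.eta] at e3
      rw [Prod.mk.eta, e1, e3]
    rw [e]
    exact hbd _ (hD₀ i j hij) p hp (lt_of_le_of_lt (Nat.le_add_right _ _) (hle i j)) C Ψ hp1
  have hint : ∀ i j, i ≠ j → ∀ u, ‖Ψ ((D i j).2 u : ℂ)‖ ≤ 1 := fun i j hij u =>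
    hDC.norm_le hp hN hNp hp1 Ψ hij u
  -- the integer
  obtain ⟨m, hm⟩ : ∃ m : ℕ, ∀ j, w ≠ j →
      1 ≤ ‖Ψ ((emb_pol (fun u => ((D w j).2 (u, (D w j).1.2) : ℂ)) (D w j).1.1).eval (m : ℂ))‖ := by
    have hcard : ((Finset.univ.filter (fun j => w ≠ j)).biUnion (fun j =>
        (Finset.range p).filter (fun m : ℕ =>
          ‖Ψ ((emb_pol (fun u => ((D w j).2 (u, (D w j).1.2) : ℂ)) (D w j).1.1).eval
            (m : ℂ))‖ < 1))).card < (Finset.range p).card := by
      rw [Finset.card_range]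
      refine lt_of_le_of_lt Finset.card_biUnion_le ?_
      refine lt_of_le_of_lt (Finset.sum_le_sum (g := fun j => (D w j).1.1) fun j hj => ?_) ?_
      · rw [Finset.mem_filter] at hj
        have h0 : ((D w j).2 ((D w j).1.1, (D w j).1.2) : ℂ) ≠ 0 := by
          intro h
          exact hD w j hj.2 (Subtype.ext h)
        obtain ⟨h1, h2⟩ := emb_pol_deg (fun u => ((D w j).2 (u, (D w j).1.2) : ℂ)) (D w j).1.1 h0
        have h3 := emb_bad hp hp1 Ψ
          (emb_pol (fun u => ((D w j).2 (u, (D w j).1.2) : ℂ)) (D w j).1.1) (by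
            rw [h2]
            exact hunit w j hj.2)
        rwa [h1] at h3
      · refine lt_of_le_of_lt ?_ hpB
        refine le_trans ?_ (Finset.single_le_sum (f := fun i => ∑ j,
          (bd ((D₀ i j).2 (D₀ i j).1) + (D₀ i j).1.1))
          (fun _ _ => Nat.zero_le _) (Finset.mem_univ w))
        refine le_trans (Finset.sum_le_sum (g := fun j =>
          (bd ((D₀ w j).2 (D₀ w j).1) + (D₀ w j).1.1)) fun j hj => ?_)
          (Finset.sum_le_sum_of_subset (Finset.filter_subset _ _))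
        have e1 := (hDC w j (Finset.mem_filter.1 hj).2).1
        rw [e1]
        exact Nat.le_add_left _ _
    obtain ⟨m, hm1, hm2⟩ := Finset.exists_mem_notMem_of_card_lt_card hcard
    refine ⟨m, fun j hj => ?_⟩
    by_contra h1
    refine hm2 (Finset.mem_biUnion.2 ⟨j, Finset.mem_filter.2 ⟨Finset.mem_univ j, hj⟩, ?_⟩)
    exact Finset.mem_filter.2 ⟨hm1, not_le.1 h1⟩
  -- the embedding
  have htr : Transcendental QA (y w) := by
    intro halg
    exact hyw (halg.restrictScalars ℚ)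
  have hKc : #QA ≤ ℵ₀ := by
    have := Algebra.IsAlgebraic.cardinalMk_le_max ℚ QA
    refine this.trans (max_le ?_ le_rfl)
    exact Cardinal.mk_le_aleph0
  obtain ⟨Φ, hΦ1, hΦ2⟩ := exists_near_gen hKc φ₀ ((p : QA)⁻¹) hpQ (fun _ : Unit => y w)
    (algebraicIndependent_unique_type_iff.2 htr) (fun _ => (m : QA)) (fun _ => 1)
    (fun _ => one_pos)
  have hΦΨ : ∀ c : QA, Φ (c : ℂ) = Ψ (c : ℂ) := fun c => (hΦ1 c).trans (hΨ c).symm
  have hmn : ‖(m : C)‖ ≤ 1 := IsUltrametricDist.norm_natCast_le_one C m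
  have hw0 : ‖Φ (y w) - (m : C)‖ < 1 := by
    have := hΦ2 ()
    rwa [map_natCast] at this
  have hw1 : ‖Φ (y w)‖ ≤ 1 := by
    have e : Φ (y w) = (Φ (y w) - (m : C)) + (m : C) := by ring
    rw [e]
    exact (IsUltrametricDist.norm_add_le_max _ _).trans (max_le hw0.le hmn)
  refine ⟨C, inferInstance, inferInstance, inferInstance, Φ, hp1, fun j => ?_⟩
  by_cases hj : w = j
  · rw [← hj]
    exact hw1
  have hrel := hy w j hj
  have hm' := hm j hj
  rw [emb_pol_eval, map_sum] at hm'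
  have hcongr : Nr (∑ u ∈ Finset.range ((D w j).1.1 + 1),
      Φ ((D w j).2 (u, (D w j).1.2) : ℂ) * Φ (y w) ^ u)
      (∑ u ∈ Finset.range ((D w j).1.1 + 1),
        Ψ (((D w j).2 (u, (D w j).1.2) : ℂ) * (m : ℂ) ^ u)) := by
    refine Nr.sum _ fun u _ => ?_
    rw [map_mul, map_pow, map_natCast, hΦΨ]
    exact (Nr.rfl' (hint w j hj _)).mul (Nr.pow ⟨hw1, hmn, hw0⟩ u)
  have hlead := hcongr.norm_eq (le_antisymm hcongr.2.1 hm')
  refine emb_int (D w j).1.1 (D w j).1.2 (fun u => Φ ((D w j).2 u : ℂ)) (Φ (y w)) (Φ (y j)) hw1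
    (fun u => ?_) hlead ?_
  · show ‖Φ ((D w j).2 u : ℂ)‖ ≤ 1
    rw [hΦΨ]
    exact hint w j hj u
  · have h5 := congrArg Φ hrel
    rw [map_zero, map_sum] at h5
    rw [← h5]
    refine Finset.sum_congr rfl fun u _ => ?_
    rw [map_sum]
    refine Finset.sum_congr rfl fun v _ => ?_
    rw [map_mul, map_mul, map_pow, map_pow]

end Pool.Agent.H882
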