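import Pool.Agent.H882.RtPrime
import Pool.Agent.H882.RtCount
import Pool.Agent.H882.RtDens

/-!
The combination of the local theorems.
-/

set_option autoImplicit false

namespace Pool.Agent.H882

open UpperHalfPlane H294ZP Function Pool.Agent.N135.ZO NumberField IsDedekindDomain
open Pool.Agent.Y226

/-- all coordinates of `y` are integral -/
theorem rt_int {n p : ℕ} (hp : p.Prime) {C : Type} [NormedField C] [IsUltrametricDist C]
    [CharZero C] (hp1 : ‖(p : C)‖ < 1) (Ψ : ℂ →+* C) {a : Fin n → ℤ} {b : Fin n → ℕ} {l : Fin n}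
    (hbl : b l ≠ 0) (hpl : p ∣ b l) (hpj : ∀ j, j ≠ l → ¬ p ∣ b j) (hal : (a l : ZMod p) ≠ 0)
    {x y : Fin n → ℂ} (hx : ∀ i, x i = y i + (a i : ℂ) / (b i : ℂ)) (hall : ∀ i, ‖Ψ (y i)‖ ≤ 1) :
    NC (x l) ∧ ∀ j, j ≠ l → ¬ Isog (x l) (x j) := by
  have hΨx : ∀ i, Ψ (x i) = Ψ (y i) + (a i : C) / (b i : C) := by
    intro i
    rw [hx, map_add, map_div₀, map_intCast, map_natCast]
  have hxl : 1 < ‖Ψ (x l)‖ := by
    rw [hΨx]
    exact nadd_gt (hall l) (large_frac hp hp1 hbl hpl hal)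
  have hxj : ∀ j, j ≠ l → ‖Ψ (x j)‖ ≤ 1 := by
    intro j hj
    rw [hΨx]
    exact nadd_le (hall j) (frac_le hp hp1 (hpj j hj))
  refine ⟨fun τ hτ h => ?_, fun j hj h => ?_⟩
  · rw [h] at hxl
    exact absurd hxl (not_lt.2 (norm_le_one_of_isIntegral Ψ (singular_modulus_integral τ hτ)))
  · obtain ⟨M, τ, τ', hM, hrel, hτ, hτ'⟩ := h.symm
    rw [← hτ'] at hxl
    have h1 := hxj j hj
    rw [← hτ] at h1
    exact absurd hxl (not_lt.2 (rel_mem (V := VF Ψ) hM hrel h1))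

theorem rt_crit {n r : ℕ} (Z : SpecialDatum n r) {x : Fin n → ℂ} (hx : x ∈ Z.locus)
    (J : Finset (Fin n)) (h1 : ∀ i ∈ J, NC (x i))
    (h2 : ∀ i ∈ J, ∀ j ∈ J, i ≠ j → ¬ Isog (x i) (x j)) : J.card ≤ r := by
  refine crit_card' Z hx J h1 fun i hi j hj hij w w' hrel hxi hxj => ?_
  refine h2 i hi j hj hij ⟨_, w, w', ?_, hrel, hxi.symm, hxj.symm⟩
  rw [det_mul', det_adj]
  have h1 := Z.det_pos i
  have h2 := Z.det_pos j
  positivity

theorem rt_comb {n r : ℕ} (Z : SpecialDatum n r) {x : Fin n → ℂ} (hx : x ∈ Z.locus)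
    (h : ∀ l, (NC (x l) ∧ ∀ j, j ≠ l → ¬ Isog (x l) (x j)) ∨
      ∃ k, ∀ i j, i ≠ k → j ≠ k → i ≠ j → ¬ Isog (x i) (x j))
    (h2 : ∀ l, ¬ NC (x l) → (∀ i j, i ≠ l → j ≠ l → i ≠ j → ¬ Isog (x i) (x j)) ∧
      ∀ j, j ≠ l → NC (x j)) : n ≤ 1 + r := by
  classical
  have hJ : ∀ k : Fin n, (∀ i, i ≠ k → NC (x i)) →
      (∀ i j, i ≠ k → j ≠ k → i ≠ j → ¬ Isog (x i) (x j)) → n ≤ 1 + r := by
    intro k hk1 hk2
    have h3 := rt_crit Z hx ({k}ᶜ : Finset (Fin n))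
      (fun i hi => hk1 i (by simpa using hi))
      (fun i hi j hj hij => hk2 i j (by simpa using hi) (by simpa using hj) hij)
    rw [Finset.card_compl, Fintype.card_fin, Finset.card_singleton] at h3
    omega
  by_cases hN : ∀ l, NC (x l)
  · by_cases hk : ∃ k, ∀ i j, i ≠ k → j ≠ k → i ≠ j → ¬ Isog (x i) (x j)
    · obtain ⟨k, hk⟩ := hk
      exact hJ k (fun i _ => hN i) hk
    · have h3 := rt_crit Z hx Finset.univ (fun i _ => hN i) (fun i _ j _ hij => by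
        rcases h i with h4 | h4
        · exact h4.2 j hij.symm
        · exact absurd h4 hk)
      rw [Finset.card_univ, Fintype.card_fin] at h3
      omega
  · push Not at hN
    obtain ⟨l, hl⟩ := hN
    obtain ⟨h3, h4⟩ := h2 l hl
    exact hJ l h4 h3

/-- the Zilber-Pink property of the translate by `s` -/
def RtZP {n : ℕ} (D : Dt n) (s : Fin n → ℚ) : Prop :=
  ∀ x y : Fin n → ℂ, y ∈ loc D → (∀ i, x i = y i + (s i : ℂ)) → ∀ (r : ℕ) (Z : SpecialDatum n r),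
    x ∈ Z.locus → ∀ W : Finset (Fin n), AlgebraicIndependent ℚ (fun i : W => x i) →
      n + W.card ≤ 1 + r

/-- the exceptional classes -/
def rtE {n : ℕ} (R : ∀ p, Finset (ZMod p)) (t : ∀ p, ZMod p → ℍ) (b1 : ∀ p, Set (ZMod p))
    (b : Fin n → ℕ) (l : Fin n) (p : ℕ) : Set (Fin n → ZMod p) :=
  {a | a l = 0 ∨ (∃ j, j ≠ l ∧ ∃ r ∈ R p, a j * (b j : ZMod p)⁻¹ + r ∈ b1 p) ∨
    ∃ j k, j ≠ l ∧ k ≠ l ∧ j ≠ k ∧ ∃ r ∈ R p, ∃ r' ∈ R p, a k * (b k : ZMod p)⁻¹ + r' ∈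
      {c' | Isog (jj (t p (a j * (b j : ZMod p)⁻¹ + r))) (jj (t p c'))}}

/-- the exceptional pairs of classes -/
def rtB {n : ℕ} (R : ∀ p, Finset (ZMod p)) (t : ∀ p, ZMod p → ℍ)
    (b : Fin n → ℕ) (l : Fin n) (p q : ℕ) : Set ((Fin n → ZMod p) × (Fin n → ZMod q)) :=
  {uv | ∃ j, j ≠ l ∧ ∃ r ∈ R p, ∃ r' ∈ R q, uv.2 j * (b j : ZMod q)⁻¹ + r' ∈
    {c' | Isog (jj (t p (uv.1 j * (b j : ZMod p)⁻¹ + r))) (jj (t q c'))}}

theorem rt_glob {n : ℕ} {D : Dt n} {R : ∀ p, Finset (ZMod p)} {t : ∀ p, ZMod p → ℍ}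
    {b1 : ∀ p, Set (ZMod p)} {P : Set ℕ} {B : ℕ} (hP : ∀ p ∈ P, p.Prime)
    (hloc : ∀ p ∈ P, B < p → RtLoc n p D (R p) (fun c => jj (t p c)) (b1 p))
    (hemb : ∀ p : ℕ, p.Prime → B < p → ∀ w : Fin n, ∀ y ∈ loc D, Transcendental ℚ (y w) →
      ∃ (C : Type) (_ : NormedField C) (_ : IsUltrametricDist C) (_ : CharZero C) (Φ : ℂ →+* C),
        ‖(p : C)‖ < 1 ∧ ∀ i, ‖Φ (y i)‖ ≤ 1)
    (hcard : ∀ y ∈ loc D, ∀ (s : Fin n → ℚ) (x : Fin n → ℂ), (∀ i, x i = y i + (s i : ℂ)) →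
      ∀ W : Finset (Fin n), AlgebraicIndependent ℚ (fun i : W => x i) → W.card ≤ 1)
    {a : Fin n → ℤ} {b : Fin n → ℕ} (hb : ∀ i, b i ≠ 0)
    (hG : GR P (rtE R t b1) (rtB R t) B a b) :
    RtZP D (fun i => (a i : ℚ) / ((b i : ℕ) : ℚ)) := by
  classical
  intro x y hy hxy r Z hxZ W hW
  have hx : ∀ i, x i = y i + (a i : ℂ) / (b i : ℂ) := by
    intro i
    rw [hxy i]
    push_cast
    rfl
  have hWc := hcard y hy _ x hxy W hW
  rcases W.eq_empty_or_nonempty with rfl | ⟨w, hw⟩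
  · rw [Finset.card_empty, add_zero]
    have key : ∀ l, ∀ p ∈ P, B < p → p ∣ b l → (∀ j, j ≠ l → ¬ p ∣ b j) →
        red p a ∉ rtE R t b1 b l p →
        (NC (x l) ∧ ∀ j, j ≠ l → ¬ Isog (x l) (x j)) ∨
        ∃ k, (∀ i j, i ≠ k → j ≠ k → i ≠ j → ¬ Isog (x i) (x j)) ∧ (k ≠ l → NC (x l)) ∧
          (k = l → ∀ j, j ≠ l → ¬ NC (x j) →
            ∃ r ∈ R p, Isog (jj (t p ((a j : ZMod p) * (b j : ZMod p)⁻¹ + r))) (x j)) := by
      intro l p hpP hBp hpl hpj hE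
      refine hloc p hpP hBp a b l (hb l) hpl hpj (fun h => hE (Or.inl h))
        (fun j hj r hr h => hE (Or.inr (Or.inl ⟨j, hj, r, hr, h⟩)))
        (fun j k hj hk hjk r hr r' hr' h => hE (Or.inr (Or.inr ⟨j, k, hj, hk, hjk, r, hr, r', hr', h⟩)))
        y hy x hx
    refine rt_comb Z hxZ (fun l => ?_) (fun l hl => ?_)
    · obtain ⟨p, hpP, q, hqP, hBp, hBq, hpl, hql, hpj, hqj, hEp, hEq, hB⟩ := hG l
      rcases key l p hpP hBp hpl hpj hEp with h | ⟨k, h, -⟩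
      · exact Or.inl h
      · exact Or.inr ⟨k, h⟩
    · obtain ⟨p, hpP, q, hqP, hBp, hBq, hpl, hql, hpj, hqj, hEp, hEq, hB⟩ := hG l
      rcases key l p hpP hBp hpl hpj hEp with h | ⟨k, h1, h2, h3⟩
      · exact absurd h.1 hl
      · have hkl : k = l := by
          by_contra hne
          exact hl (h2 hne)
        refine ⟨fun i j hi hj hij => h1 i j (by rw [hkl]; exact hi) (by rw [hkl]; exact hj) hij,
          fun j hj => ?_⟩
        by_contra hncj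
        obtain ⟨r₁, hr₁, hi₁⟩ := h3 hkl j hj hncj
        rcases key l q hqP hBq hql hqj hEq with h' | ⟨k', h1', h2', h3'⟩
        · exact hl h'.1
        · have hkl' : k' = l := by
            by_contra hne
            exact hl (h2' hne)
          obtain ⟨r₂, hr₂, hi₂⟩ := h3' hkl' j hj hncj
          exact hB ⟨j, hj, r₁, hr₁, r₂, hr₂, hi₁.trans hi₂.symm⟩
  · have hwt : Transcendental ℚ (y w) := by
      intro halg
      have h1 : AlgebraicIndependent ℚ (fun i : W => x i) := hW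
      have h2 : Transcendental ℚ (x w) := h1.transcendental ⟨w, hw⟩
      apply h2
      rw [hxy w]
      exact halg.add (isAlgebraic_algebraMap (R := ℚ) (A := ℂ) _)
    have hall : ∀ l, NC (x l) ∧ ∀ j, j ≠ l → ¬ Isog (x l) (x j) := by
      intro l
      obtain ⟨p, hpP, q, hqP, hBp, hBq, hpl, hql, hpj, hqj, hEp, hEq, hB⟩ := hG l
      obtain ⟨C, _, _, _, Φ, hp1, hΦ⟩ := hemb p (hP p hpP) hBp w y hy hwt
      exact rt_int (hP p hpP) hp1 Φ (hb l) hpl hpj (fun h => hEp (Or.inl h)) hx hΦ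
    have h3 := rt_crit Z hxZ Finset.univ (fun i _ => (hall i).1)
      (fun i _ j _ hij => (hall i).2 j hij.symm)
    rw [Finset.card_univ, Fintype.card_fin] at h3
    omega

end Pool.Agent.H882
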