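import Pool.Agent.H882.FyCore

/-!
A relation of two coordinates without common poles.
-/

set_option autoImplicit false

namespace Pool.Agent.H882

open Pool.Agent.Y226 (QA nadd_lt norm_le_one_of_isIntegral)
open Polynomial

variable {C : Type} [NormedField C] [IsUltrametricDist C]

/-- ultrametric inequality for finite sums -/
theorem rt_T2_sum_lt {ι : Type} (s : Finset ι) (f : ι → C) {B : ℝ} (hB : 0 < B)
    (h : ∀ i ∈ s, ‖f i‖ < B) : ‖∑ i ∈ s, f i‖ < B := by
  classical
  induction s using Finset.induction_on with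
  | empty => rwa [Finset.sum_empty, norm_zero]
  | insert a s ha ih =>
    rw [Finset.sum_insert ha]
    refine lt_of_le_of_lt (IsUltrametricDist.norm_add_le_max _ _) (max_lt ?_ ?_)
    · exact h a (Finset.mem_insert_self a s)
    · exact ih fun i hi => h i (Finset.mem_insert_of_mem hi)

/-- ultrametric inequality for finite sums -/
theorem rt_T2_sum_le {ι : Type} (s : Finset ι) (f : ι → C) {B : ℝ} (hB : 0 ≤ B)
    (h : ∀ i ∈ s, ‖f i‖ ≤ B) : ‖∑ i ∈ s, f i‖ ≤ B := by
  classical
  induction s using Finset.induction_on with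
  | empty => rwa [Finset.sum_empty, norm_zero]
  | insert a s ha ih =>
    rw [Finset.sum_insert ha]
    refine (IsUltrametricDist.norm_add_le_max _ _).trans (max_le ?_ ?_)
    · exact h a (Finset.mem_insert_self a s)
    · exact ih fun i hi => h i (Finset.mem_insert_of_mem hi)

/-- a relation of two coordinates without common poles -/
theorem rt_pole {a b : ℕ} {c : ℕ → ℕ → C} (hc : ∀ u v, ‖c u v‖ ≤ 1) (hab : ‖c a b‖ = 1) {x y : C}
    (hx : 1 < ‖x‖) (h : ∑ u ∈ Finset.range (a + 1), ∑ v ∈ Finset.range (b + 1),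
      c u v * x ^ u * y ^ v = 0) :
    ‖y‖ ≤ 1 ∧ ‖∑ v ∈ Finset.range (b + 1), c a v * y ^ v‖ < 1 := by
  have hx0 : 0 < ‖x‖ := by linarith
  have hy : ‖y‖ ≤ 1 := by
    by_contra hcon
    push Not at hcon
    have hy0 : 0 < ‖y‖ := by linarith
    have hB : 0 < ‖x‖ ^ a * ‖y‖ ^ b := by positivity
    rw [← Finset.sum_product',
      ← Finset.add_sum_erase (Finset.range (a + 1) ×ˢ Finset.range (b + 1))
        (fun z : ℕ × ℕ => c z.1 z.2 * x ^ z.1 * y ^ z.2) (a := (a, b)) (by simp)] at h
    have h1 : ‖∑ z ∈ (Finset.range (a + 1) ×ˢ Finset.range (b + 1)).erase (a, b),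
        c z.1 z.2 * x ^ z.1 * y ^ z.2‖ < ‖x‖ ^ a * ‖y‖ ^ b := by
      refine rt_T2_sum_lt _ _ hB ?_
      rintro ⟨u, v⟩ huv
      rw [Finset.mem_erase, Finset.mem_product, Finset.mem_range, Finset.mem_range] at huv
      obtain ⟨hne, hu, hv⟩ := huv
      simp only at hu hv ⊢
      rw [norm_mul, norm_mul, norm_pow, norm_pow]
      have hu' : u ≤ a := by omega
      have hv' : v ≤ b := by omega
      have e1 : ‖c u v‖ * ‖x‖ ^ u * ‖y‖ ^ v ≤ ‖x‖ ^ u * ‖y‖ ^ v := by
        refine mul_le_mul_of_nonneg_right ?_ (by positivity)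
        exact mul_le_of_le_one_left (by positivity) (hc u v)
      refine lt_of_le_of_lt e1 ?_
      rcases lt_or_eq_of_le hu' with hlt | heq
      · exact mul_lt_mul (pow_lt_pow_right₀ hx hlt) (pow_le_pow_right₀ hcon.le hv')
          (by positivity) (by positivity)
      · have hvlt : v < b := by
          rcases lt_or_eq_of_le hv' with h2 | h2
          · exact h2
          · exact absurd (by rw [heq, h2]) hne
        rw [heq]
        exact mul_lt_mul_of_pos_left (pow_lt_pow_right₀ hcon hvlt) (by positivity)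
    have h2 : ‖c a b * x ^ a * y ^ b‖ = ‖x‖ ^ a * ‖y‖ ^ b := by
      rw [norm_mul, norm_mul, norm_pow, norm_pow, hab, one_mul]
    have h3 : c a b * x ^ a * y ^ b = -∑ z ∈ (Finset.range (a + 1) ×ˢ
        Finset.range (b + 1)).erase (a, b), c z.1 z.2 * x ^ z.1 * y ^ z.2 :=
      eq_neg_of_add_eq_zero_left h
    rw [h3, norm_neg] at h2
    exact absurd h2 h1.ne
  refine ⟨hy, ?_⟩
  have hP : ∀ u, ‖∑ v ∈ Finset.range (b + 1), c u v * y ^ v‖ ≤ 1 := by
    intro u
    refine rt_T2_sum_le _ _ zero_le_one fun v _ => ?_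
    rw [norm_mul, norm_pow]
    exact mul_le_one₀ (hc u v) (by positivity) (pow_le_one₀ (norm_nonneg _) hy)
  have h1 : ∀ u, ∑ v ∈ Finset.range (b + 1), c u v * x ^ u * y ^ v =
      x ^ u * ∑ v ∈ Finset.range (b + 1), c u v * y ^ v := by
    intro u
    rw [Finset.mul_sum]
    exact Finset.sum_congr rfl fun v _ => by ring
  rw [Finset.sum_congr rfl fun u _ => h1 u, Finset.sum_range_succ] at h
  have h2 : ‖∑ u ∈ Finset.range a, x ^ u * ∑ v ∈ Finset.range (b + 1), c u v * y ^ v‖ <
      ‖x‖ ^ a := by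
    refine rt_T2_sum_lt _ _ (by positivity) fun u hu => ?_
    rw [norm_mul, norm_pow]
    refine lt_of_le_of_lt (mul_le_of_le_one_right (by positivity) (hP u)) ?_
    exact pow_lt_pow_right₀ hx (Finset.mem_range.1 hu)
  have h3 : x ^ a * ∑ v ∈ Finset.range (b + 1), c a v * y ^ v =
      -∑ u ∈ Finset.range a, x ^ u * ∑ v ∈ Finset.range (b + 1), c u v * y ^ v :=
    eq_neg_of_add_eq_zero_right h
  have h4 : ‖x‖ ^ a * ‖∑ v ∈ Finset.range (b + 1), c a v * y ^ v‖ < ‖x‖ ^ a * 1 := by
    rw [← norm_pow, ← norm_mul, h3, norm_neg, norm_pow, mul_one]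
    exact h2
  exact lt_of_mul_lt_mul_left h4 (by positivity)

/-- the value at `y` is small: `y` is near to a root -/
theorem rt_near {A : Type} [Field A] [IsAlgClosed A] (φ : A →+* C) {f : A[X]} (hf : f ≠ 0)
    (hl : ‖φ f.leadingCoeff‖ = 1) {y : C} (h : ‖f.eval₂ φ y‖ < 1) :
    ∃ β ∈ f.roots, ‖y - φ β‖ < 1 := by
  by_contra hcon
  push Not at hcon
  have h1 : f.eval₂ φ y = φ f.leadingCoeff * (f.roots.map fun β => y - φ β).prod := by
    conv_lhs => rw [(IsAlgClosed.splits f).eq_prod_roots]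
    rw [eval₂_mul, eval₂_C, eval₂_multiset_prod, Multiset.map_map]
    congr 2
    refine Multiset.map_congr rfl fun β _ => ?_
    simp
  have h2 : ∀ s : Multiset A, (∀ β ∈ s, 1 ≤ ‖y - φ β‖) →
      1 ≤ ‖(s.map fun β => y - φ β).prod‖ := by
    intro s
    induction s using Multiset.induction_on with
    | empty => intro _; simp
    | cons a s ih =>
      intro hs
      rw [Multiset.map_cons, Multiset.prod_cons, norm_mul]
      exact one_le_mul_of_one_le_of_one_le (hs a (Multiset.mem_cons_self a s))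
        (ih fun β hβ => hs β (Multiset.mem_cons_of_mem hβ))
  have h3 := h2 f.roots hcon
  rw [h1, norm_mul, hl, one_mul] at h
  linarith

end Pool.Agent.H882
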