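import Pool.Agent.H882.RtCls
import Pool.Agent.H882.RtPole

/-!
The local theorem for the rational translates.
-/

set_option autoImplicit false

namespace Pool.Agent.H882

open UpperHalfPlane H294ZP Function Pool.Agent.N135.ZO NumberField IsDedekindDomain
open Pool.Agent.Y226

section

variable {C : Type} [NormedField C] [IsUltrametricDist C]

theorem unit_nat {p : ℕ} (hp : p.Prime) (hp1 : ‖(p : C)‖ < 1) {b : ℤ} (hb : ¬ (p : ℤ) ∣ b) :
    ‖(b : C)‖ = 1 := by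
  refine le_antisymm (IsUltrametricDist.norm_intCast_le_one C b) ?_
  by_contra hcon
  push Not at hcon
  exact hb (dvd_of_norm hp hp1 hcon)

theorem near_frac {p : ℕ} (hp : p.Prime) (hp1 : ‖(p : C)‖ < 1) {a : ℤ} {b : ℕ} (hb : ¬ p ∣ b)
    {z : C} {m : ℤ} (hz : ‖z - (m : C)‖ < 1) :
    ‖z + (a : C) / (b : C) - ((((a : ZMod p) * (b : ZMod p)⁻¹ + (m : ZMod p)).val : ℤ) : C)‖ < 1 := by
  have : Fact p.Prime := ⟨hp⟩
  obtain ⟨k, hk⟩ : ∃ k : ℤ, k = (((a : ZMod p) * (b : ZMod p)⁻¹ + (m : ZMod p)).val : ℤ) := ⟨_, rfl⟩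
  have hkc : (k : ZMod p) = (a : ZMod p) * (b : ZMod p)⁻¹ + (m : ZMod p) := by
    rw [hk]
    push_cast
    rw [ZMod.natCast_zmod_val]
  have hb0 : (b : ZMod p) ≠ 0 := by
    intro h
    exact hb ((ZMod.natCast_eq_zero_iff b p).1 h)
  have hdvd : (p : ℤ) ∣ a - b * (k - m) := by
    rw [← ZMod.intCast_zmod_eq_zero_iff_dvd]
    push_cast
    rw [hkc]
    field_simp
    ring
  have hbn : ‖(b : C)‖ = 1 := by
    have := unit_nat (C := C) hp hp1 (b := (b : ℤ)) (fun h => hb (Int.natCast_dvd_natCast.1 h))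
    simpa using this
  have hbC : (b : C) ≠ 0 := by
    intro h
    rw [h, norm_zero] at hbn
    exact zero_ne_one hbn
  have h1 : ‖((a - b * (k - m) : ℤ) : C)‖ < 1 := (norm_le_p hdvd).trans_lt hp1
  rw [← hk]
  have e : z + (a : C) / (b : C) - (k : C) = (z - (m : C)) + ((a - b * (k - m) : ℤ) : C) / (b : C) := by
    push_cast
    field_simp
    ring
  rw [e]
  refine nadd_lt hz ?_
  rw [norm_div, hbn, div_one]
  exact h1

theorem large_frac {p : ℕ} (hp : p.Prime) (hp1 : ‖(p : C)‖ < 1) [CharZero C] {a : ℤ} {b : ℕ}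
    (hb0 : b ≠ 0) (hb : p ∣ b) (ha : (a : ZMod p) ≠ 0) : 1 < ‖(a : C) / (b : C)‖ := by
  have h1 : ‖(a : C)‖ = 1 := unit_nat hp hp1 fun h => ha ((ZMod.intCast_zmod_eq_zero_iff_dvd a p).2 h)
  have h2 : ‖((b : ℤ) : C)‖ < 1 := (norm_le_p (Int.natCast_dvd_natCast.2 hb)).trans_lt hp1
  rw [Int.cast_natCast] at h2
  have h3 : 0 < ‖(b : C)‖ := norm_pos_iff.2 (Nat.cast_ne_zero.2 hb0)
  rw [norm_div, h1, one_div]
  exact (one_lt_inv₀ h3).2 h2

theorem frac_le {p : ℕ} (hp : p.Prime) (hp1 : ‖(p : C)‖ < 1) {a : ℤ} {b : ℕ}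
    (hb : ¬ p ∣ b) : ‖(a : C) / (b : C)‖ ≤ 1 := by
  have hbn : ‖(b : C)‖ = 1 := by
    have := unit_nat (C := C) hp hp1 (b := (b : ℤ)) (fun h => hb (Int.natCast_dvd_natCast.1 h))
    simpa using this
  rw [norm_div, hbn, div_one]
  exact IsUltrametricDist.norm_intCast_le_one C a

theorem nadd_le {x y : C} (hx : ‖x‖ ≤ 1) (hy : ‖y‖ ≤ 1) : ‖x + y‖ ≤ 1 :=
  (IsUltrametricDist.norm_add_le_max x y).trans (max_le hx hy)

theorem nadd_gt {x y : C} (hx : ‖x‖ ≤ 1) (hy : 1 < ‖y‖) : 1 < ‖x + y‖ := by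
  rw [IsUltrametricDist.norm_add_eq_max_of_norm_ne_norm (hx.trans_lt hy).ne]
  exact lt_max_of_lt_right hy

end

theorem rt_loc {n p : ℕ} (hp : p.Prime) (hp3 : 3 < p) {D : Dt n} (hD : Good D) {C : Type}
    [NormedField C] [IsUltrametricDist C] [CompleteSpace C] [CharZero C] [IsAlgClosed C]
    (hp1 : ‖(p : C)‖ < 1) (Ψ : ℂ →+* C) {t : ZMod p → ℍ} {b1 : Set (ZMod p)}
    (hcm : ∀ c, IsCM (t c)) (hnear : ∀ c, ‖Ψ (jj (t c)) - ((c.val : ℤ) : C)‖ < 1)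
    (hG : ∀ c, c ∉ b1 → ∀ P : Pkg p hp.pos, G0 P (VF Ψ) (jj (t c)))
    (hcoef : ∀ i j, i ≠ j → ∀ u, ‖Ψ ((D i j).2 u : ℂ)‖ ≤ 1)
    (hlead : ∀ i j, i ≠ j → ‖Ψ ((D i j).2 (D i j).1 : ℂ)‖ = 1) (R : Finset (ZMod p))
    (hR : ∀ i j, i ≠ j → ∀ β ∈ (lp D i j).roots, ∃ m : ℤ, ‖Ψ (β : ℂ) - (m : C)‖ < 1 ∧
      (m : ZMod p) ∈ R) : RtLoc n p D R (fun c => jj (t c)) b1 := by
  classical
  have hp2 : p ≠ 2 := by omega
  obtain ⟨P⟩ := exists_pkg hp hp2
  have hpV : (VF Ψ).valuation (p : ℂ) < 1 := by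
    rw [VF_lt_one, map_natCast]
    exact hp1
  -- large coordinates
  have hNC : ∀ z : ℂ, 1 < ‖Ψ z‖ → NC z := by
    intro z hz τ hτ h
    rw [h] at hz
    exact absurd hz (not_lt.2 (norm_le_one_of_isIntegral Ψ (singular_modulus_integral τ hτ)))
  have hNI : ∀ z w : ℂ, 1 < ‖Ψ z‖ → ‖Ψ w‖ ≤ 1 → ¬ Isog w z := by
    rintro z w hz hw ⟨M, τ, τ', hM, hrel, rfl, rfl⟩
    exact absurd hz (not_lt.2 (rel_mem (V := VF Ψ) hM hrel hw))
  intro a b l hbl hpl hpj hal hb1 hiso y hy x hx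
  have hΨx : ∀ i, Ψ (x i) = Ψ (y i) + (a i : C) / (b i : C) := by
    intro i
    rw [hx, map_add, map_div₀, map_intCast, map_natCast]
  have hxl : ‖Ψ (y l)‖ ≤ 1 → 1 < ‖Ψ (x l)‖ := by
    intro h
    rw [hΨx]
    exact nadd_gt h (large_frac hp hp1 hbl hpl hal)
  have hxj : ∀ j, j ≠ l → ‖Ψ (y j)‖ ≤ 1 → ‖Ψ (x j)‖ ≤ 1 := by
    intro j hj h
    rw [hΨx]
    exact nadd_le h (frac_le hp hp1 (hpj j hj))
  by_cases hall : ∀ i, ‖Ψ (y i)‖ ≤ 1
  · left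
    exact ⟨hNC _ (hxl (hall l)), fun j hj h => hNI _ _ (hxl (hall l)) (hxj j hj (hall j)) h.symm⟩
  · push Not at hall
    obtain ⟨k, hk⟩ := hall
    right
    have hnb : ∀ j, j ≠ k → ‖Ψ (y j)‖ ≤ 1 ∧ ∃ m : ℤ, (m : ZMod p) ∈ R ∧ ‖Ψ (y j) - (m : C)‖ < 1 := by
      intro j hj
      have h1 := hy k j hj.symm
      have h2 : ∑ u ∈ Finset.range ((D k j).1.1 + 1), ∑ v ∈ Finset.range ((D k j).1.2 + 1),
          Ψ ((D k j).2 (u, v) : ℂ) * Ψ (y k) ^ u * Ψ (y j) ^ v = 0 := by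
        have h3 := congrArg Ψ h1
        rw [map_zero, map_sum] at h3
        rw [← h3]
        refine Finset.sum_congr rfl fun u _ => ?_
        rw [map_sum]
        refine Finset.sum_congr rfl fun v _ => ?_
        rw [map_mul, map_mul, map_pow, map_pow]
      obtain ⟨h3, h4⟩ := rt_pole (c := fun u v => Ψ ((D k j).2 (u, v) : ℂ))
        (fun u v => hcoef k j hj.symm (u, v)) (hlead k j hj.symm) hk h2
      refine ⟨h3, ?_⟩
      obtain ⟨β, hβ, hβn⟩ := rt_near (φ := Ψ.comp (algebraMap QA ℂ)) (f := lp D k j)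
        (lp_ne hD hj.symm) (by
          rw [(lp_natDegree hD hj.symm).2]
          exact hlead k j hj.symm) (y := Ψ (y j)) (by
          rw [lp_eval]
          exact h4)
      obtain ⟨m, hm1, hm2⟩ := hR k j hj.symm β hβ
      refine ⟨m, hm2, ?_⟩
      have e : Ψ (y j) - (m : C) = (Ψ (y j) - (Ψ.comp (algebraMap QA ℂ)) β) +
          (Ψ (β : ℂ) - (m : C)) := by
        show _ = (Ψ (y j) - Ψ (β : ℂ)) + _
        ring
      rw [e]
      exact nadd_lt hβn hm1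
    have hcls : ∀ j, j ≠ k → j ≠ l → ∃ r ∈ R, (VF Ψ).valuation
        (x j - jj (t ((a j : ZMod p) * (b j : ZMod p)⁻¹ + r))) < 1 := by
      intro j hj hjl
      obtain ⟨-, m, hm, hm2⟩ := hnb j hj
      refine ⟨_, hm, ?_⟩
      have h1 := near_frac (a := a j) hp hp1 (hpj j hjl) hm2
      have h2 := hnear ((a j : ZMod p) * (b j : ZMod p)⁻¹ + (m : ZMod p))
      rw [VF_lt_one, map_sub, hΨx]
      have e : ∀ u v w : C, u - v = (u - w) + -(v - w) := fun u v w => by ring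
      rw [e _ _ ((((a j : ZMod p) * (b j : ZMod p)⁻¹ + (m : ZMod p)).val : ℤ) : C)]
      refine nadd_lt h1 ?_
      rw [norm_neg]
      exact h2
    have hxlk : k ≠ l → 1 < ‖Ψ (x l)‖ := fun h => hxl (hnb l h.symm).1
    refine ⟨k, fun i j hi hj hij h => ?_, fun h => hNC _ (hxlk h), fun hkl j hj hncj => ?_⟩
    · by_cases hil : i = l
      · subst hil
        exact hNI _ _ (hxlk hi.symm) (hxj j hij.symm (hnb j hj).1) h.symm
      · by_cases hjl : j = l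
        · subst hjl
          exact hNI _ _ (hxlk hj.symm) (hxj i hij (hnb i hi).1) h
        · obtain ⟨r, hr, hr'⟩ := hcls i hi hil
          obtain ⟨s, hs, hs'⟩ := hcls j hj hjl
          obtain ⟨M, τ, τ', hM, hrel, hτ, hτ'⟩ := h
          rw [← hτ] at hr'
          rw [← hτ'] at hs'
          exact hiso i j hil hjl hij r hr s hs (near_isog hp hp2 hpV P (hcm _) (hcm _)
            (hG _ (hb1 i hil r hr) P) (hG _ (hb1 j hjl s hs) P) hM hrel hr' hs')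
    · subst hkl
      obtain ⟨r, hr, hr'⟩ := hcls j hj hj
      obtain ⟨τ, hτ, hxτ⟩ : ∃ τ : ℍ, IsCM τ ∧ x j = jj τ := by
        by_contra hcon
        apply hncj
        intro τ hτ h
        exact hcon ⟨τ, hτ, h⟩
      refine ⟨r, hr, ?_⟩
      rw [hxτ] at hr' ⊢
      exact cm_isog hp hp2 hpV P (hcm _) hτ (hG _ (hb1 j hj r hr) P) hr'

end Pool.Agent.H882
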