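import Pool.Agent.H882.RtGlob
import Pool.Agent.H882.RtEmb
import Pool.Agent.H882.RtCard

/-!
One hundred percent of the rational translates of a curve.
-/

set_option autoImplicit false

namespace Pool.Agent.H882

open UpperHalfPlane H294ZP Function Pool.Agent.N135.ZO NumberField IsDedekindDomain
open Pool.Agent.Y226

theorem rt_growth (A : ℝ) {η : ℝ} (hη : 0 < η) : ∃ B₀ : ℕ, ∀ p : ℕ, B₀ < p →
    A * (p : ℝ) ^ (1 / 2 + 1 / 4 : ℝ) ≤ η * p := by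
  obtain ⟨B₀, hB₀⟩ := exists_nat_ge ((|A| / η) ^ (4 : ℕ))
  refine ⟨B₀, fun p hp => ?_⟩
  have hp0 : (0 : ℝ) < p := by
    have : 0 < p := by omega
    exact_mod_cast this
  have h1 : (|A| / η) ^ (4 : ℕ) ≤ (p : ℝ) := hB₀.trans (by exact_mod_cast hp.le)
  have h2 : |A| / η ≤ (p : ℝ) ^ (1 / 4 : ℝ) := by
    have h3 : ((|A| / η) ^ (4 : ℕ)) ^ (1 / 4 : ℝ) ≤ (p : ℝ) ^ (1 / 4 : ℝ) :=
      Real.rpow_le_rpow (by positivity) h1 (by norm_num)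
    have h4 : ((|A| / η) ^ (4 : ℕ)) ^ (1 / 4 : ℝ) = |A| / η := by
      rw [← Real.rpow_natCast, ← Real.rpow_mul (by positivity)]
      norm_num
    rwa [h4] at h3
  rw [div_le_iff₀ hη] at h2
  have h5 : (p : ℝ) ^ (1 / 4 : ℝ) * (p : ℝ) ^ (1 / 2 + 1 / 4 : ℝ) = p := by
    rw [← Real.rpow_add hp0]
    norm_num
  have h6 : (0 : ℝ) ≤ (p : ℝ) ^ (1 / 2 + 1 / 4 : ℝ) := Real.rpow_nonneg hp0.le _
  calc A * (p : ℝ) ^ (1 / 2 + 1 / 4 : ℝ) ≤ |A| * (p : ℝ) ^ (1 / 2 + 1 / 4 : ℝ) :=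
        mul_le_mul_of_nonneg_right (le_abs_self A) h6
    _ ≤ ((p : ℝ) ^ (1 / 4 : ℝ) * η) * (p : ℝ) ^ (1 / 2 + 1 / 4 : ℝ) :=
        mul_le_mul_of_nonneg_right h2 h6
    _ = η * ((p : ℝ) ^ (1 / 4 : ℝ) * (p : ℝ) ^ (1 / 2 + 1 / 4 : ℝ)) := by ring
    _ = η * p := by rw [h5]

theorem rt_density {n : ℕ} {D₀ : Dt n} (hD₀ : Good D₀) {N : ℕ} (hN : N ≠ 0) {ε : ℝ} (hε : 0 < ε) :
    ∃ H₀ : ℕ, ∀ H : ℕ, H₀ ≤ H →
      ({q : (Fin n → ℤ) × (Fin n → ℕ) | (∀ i, |q.1 i| ≤ (H : ℤ)) ∧ (∀ l, q.2 l + 1 ≤ H) ∧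
        ¬ ∀ D, Cls D₀ N D → RtZP D (fun i => (q.1 i : ℚ) / ((q.2 i + 1 : ℕ) : ℚ))}.ncard : ℝ) ≤
        ε * (H : ℝ) ^ (n + n) := by
  classical
  obtain ⟨m, P, hP, hPd, B₁, h₁⟩ := rt_prime hD₀ hN
  obtain ⟨B₂, h₂⟩ := rt_emb hD₀ hN
  choose! R t b1 hR hcls hloc using h₁
  obtain ⟨A, hA1, hA⟩ := SM_bound (δ := 1 / 4) (by norm_num)
  obtain ⟨h, hh⟩ : ∃ h : ℕ → ℕ, ∀ p, h p = ⌊A * (p : ℝ) ^ (1 / 2 + 1 / 4 : ℝ)⌋₊ := ⟨_, fun _ => rfl⟩
  have hSM : ∀ p : ℕ, p.Prime → ∀ a, (SM p a).ncard ≤ h p := by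
    intro p hp a
    rw [hh]
    exact Nat.le_floor (hA p hp a)
  have hle : ∀ p : ℕ, p.Prime → (h p : ℝ) ≤ A * (p : ℝ) ^ (1 / 2 + 1 / 4 : ℝ) := by
    intro p hp
    rw [hh]
    exact Nat.floor_le (by positivity)
  have hge : ∀ p : ℕ, p.Prime → 1 ≤ A * (p : ℝ) ^ (1 / 2 + 1 / 4 : ℝ) := by
    intro p hp
    have h1 : (1 : ℝ) ≤ p := by exact_mod_cast hp.one_lt.le
    have h2 : (1 : ℝ) ≤ (p : ℝ) ^ (1 / 2 + 1 / 4 : ℝ) := Real.one_le_rpow h1 (by norm_num)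
    nlinarith
  obtain ⟨K, hK⟩ : ∃ K : ℕ, K = 1 + n * m + n * n * (m * m) := ⟨_, rfl⟩
  -- the estimate
  have hgrow : ∀ η : ℝ, 0 < η → ∃ B₀ : ℕ, ∀ p : ℕ, p.Prime → B₀ < p →
      ((K * (18 * h p + 3) : ℕ) : ℝ) ≤ η * p := by
    intro η hη
    obtain ⟨B₀, hB₀⟩ := rt_growth (K * (21 * A)) hη
    refine ⟨B₀, fun p hp hlt => le_trans ?_ (hB₀ p hlt)⟩
    have h1 := hle p hp
    have h2 := hge p hp
    push_cast
    rw [mul_assoc, mul_assoc]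
    refine mul_le_mul_of_nonneg_left ?_ (Nat.cast_nonneg K)
    linarith
  have hpow : ∀ (p : ℕ) (l : Fin n), (p : ℝ) * (p : ℝ) ^ (n - 1) = (p : ℝ) ^ n := by
    intro p l
    rw [← pow_succ']
    congr 1
    have := l.pos
    omega
  have hE : ∀ η : ℝ, 0 < η → ∃ B₀ : ℕ, ∀ p ∈ P, B₀ < p → ∀ (b : Fin n → ℕ) (l : Fin n), (∀ j, j ≠ l → ¬ p ∣ b j) →
      ((rtE R t b1 b l p).ncard : ℝ) ≤ η * (p : ℝ) ^ n := by
    intro η hη
    obtain ⟨B₀, hB₀⟩ := hgrow η hη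
    refine ⟨B₀ + B₁, fun p hp hlt b l hb => ?_⟩
    have hpp := hP p hp
    have : Fact p.Prime := ⟨hpp⟩
    obtain ⟨c1, c2⟩ := hcls p hp (by omega) (h p) (hSM p hpp)
    have h1 := rt_countE (h := 18 * h p + 2) (R p) (hR p hp (by omega))
      (fun j => (b j : ZMod p)) l (fun j hj h0 => hb j hj ((ZMod.natCast_eq_zero_iff (b j) p).1 h0))
      (b1 p) (fun c => {c' | Isog (jj (t p c)) (jj (t p c'))}) (by omega)
      (fun c => (c2 c).trans (by omega))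
    have h2 : (1 + n * (m * (18 * h p + 2)) + n * n * (m * m * (18 * h p + 2))) ≤
        K * (18 * h p + 3) := by
      rw [hK]
      nlinarith [Nat.zero_le (n * m), Nat.zero_le (n * n * (m * m))]
    have h3 : ((rtE R t b1 b l p).ncard : ℝ) ≤ ((K * (18 * h p + 3) : ℕ) : ℝ) * (p : ℝ) ^ (n - 1) := by
      have h4 := h1.trans (Nat.mul_le_mul_right _ h2)
      have h5 : (rtE R t b1 b l p).ncard ≤ (K * (18 * h p + 3)) * p ^ (n - 1) := h4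
      exact_mod_cast h5
    refine h3.trans ?_
    calc _ ≤ (η * p) * (p : ℝ) ^ (n - 1) := mul_le_mul_of_nonneg_right (hB₀ p hpp (by omega))
          (by positivity)
      _ = η * (p : ℝ) ^ n := by rw [mul_assoc, hpow p l]
  have hB : ∀ η : ℝ, 0 < η → ∃ B₀ : ℕ, ∀ p ∈ P, ∀ q ∈ P, B₀ < p → B₀ < q → p ≠ q →
      ∀ (b : Fin n → ℕ) (l : Fin n),
      (∀ j, j ≠ l → ¬ p ∣ b j) → (∀ j, j ≠ l → ¬ q ∣ b j) →
      ((rtB R t b l p q).ncard : ℝ) ≤ η * (p : ℝ) ^ n * (q : ℝ) ^ n := by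
    intro η hη
    obtain ⟨B₀, hB₀⟩ := hgrow η hη
    refine ⟨B₀ + B₁, fun p hp q hq hlt hlt' hpq b l hb hb' => ?_⟩
    have hpp := hP p hp
    have hqq := hP q hq
    have : Fact p.Prime := ⟨hpp⟩
    have : Fact q.Prime := ⟨hqq⟩
    obtain ⟨c1, c2⟩ := hcls q hq (by omega) (h q) (hSM q hqq)
    have h1 := rt_countB (h := 18 * h q) (m := m) (R p) (hR p hp (by omega)) (R q)
      (hR q hq (by omega)) l (fun j => (b j : ZMod p)) (fun j => (b j : ZMod q))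
      (fun j hj h0 => hb' j hj ((ZMod.natCast_eq_zero_iff (b j) q).1 h0))
      (fun c => {c' | Isog (jj (t p c)) (jj (t q c'))}) (fun c => by
        rcases Set.eq_empty_or_nonempty {c' | Isog (jj (t p c)) (jj (t q c'))} with h0 | ⟨c₀, h0⟩
        · rw [h0, Set.ncard_empty]
          exact Nat.zero_le _
        · refine le_trans (Set.ncard_le_ncard ?_ (Set.toFinite _)) (c2 c₀)
          intro c' hc'
          exact (Isog.symm h0).trans hc')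
    have h2 : n * (m * m * (18 * h q)) ≤ K * (18 * h q + 3) := by
      have e1 : n * (m * m * (18 * h q)) ≤ n * n * (m * m) * (18 * h q) := by
        have : n ≤ n * n := Nat.le_mul_self n
        calc n * (m * m * (18 * h q)) = n * (m * m) * (18 * h q) := by ring
          _ ≤ n * n * (m * m) * (18 * h q) :=
            Nat.mul_le_mul_right _ (Nat.mul_le_mul_right _ this)
      rw [hK]
      nlinarith [Nat.zero_le (n * m), Nat.zero_le (n * n * (m * m)), Nat.zero_le (n * m * (18 * h q))]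
    have h3 : ((rtB R t b l p q).ncard : ℝ) ≤ ((K * (18 * h q + 3) : ℕ) : ℝ) *
        ((p : ℝ) ^ n * (q : ℝ) ^ (n - 1)) := by
      have h4 := h1.trans (Nat.mul_le_mul_right _ h2)
      have h5 : (rtB R t b l p q).ncard ≤ (K * (18 * h q + 3)) * (p ^ n * q ^ (n - 1)) := h4
      exact_mod_cast h5
    refine h3.trans ?_
    calc _ ≤ (η * q) * ((p : ℝ) ^ n * (q : ℝ) ^ (n - 1)) :=
          mul_le_mul_of_nonneg_right (hB₀ q hqq (by omega)) (by positivity)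
      _ = η * (p : ℝ) ^ n * ((q : ℝ) * (q : ℝ) ^ (n - 1)) := by ring
      _ = η * (p : ℝ) ^ n * (q : ℝ) ^ n := by rw [hpow q l]
  obtain ⟨H₀, hH₀⟩ := count_rt hP hPd (rtE R t b1) (rtB R t) hE hB (B₁ + B₂) hε
  refine ⟨H₀, fun H hH => le_trans ?_ (hH₀ H hH)⟩
  have hfin : {q : (Fin n → ℤ) × (Fin n → ℕ) | (∀ i, |q.1 i| ≤ (H : ℤ)) ∧ (∀ l, q.2 l + 1 ≤ H) ∧
      ¬ GR P (rtE R t b1) (rtB R t) (B₁ + B₂) q.1 (fun l => q.2 l + 1)}.Finite := by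
    refine Set.Finite.subset (Set.Finite.prod (Set.Finite.pi' fun _ : Fin n =>
      Set.finite_Icc (-(H : ℤ)) H) (Set.Finite.pi' fun _ : Fin n => Set.finite_Iic H)) ?_
    rintro q ⟨h1, h2, -⟩
    refine ⟨fun i => abs_le.1 (h1 i), fun i => ?_⟩
    have := h2 i
    show q.2 i ≤ H
    omega
  refine Nat.cast_le.2 (Set.ncard_le_ncard ?_ hfin)
  rintro q ⟨h1, h2, h3⟩
  refine ⟨h1, h2, fun hG => h3 fun D hD => ?_⟩
  exact rt_glob (b := fun l => q.2 l + 1) hP (fun p hp hlt => hloc p hp (by omega) D hD)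
    (fun p hp hlt => h₂ p hp (by omega) D hD)
    (fun y hy s x hx W hW => rt_card (hD.good hD₀) hy s hx W hW) (fun i => Nat.succ_ne_zero _) hG

end Pool.Agent.H882
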