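import Pool.Agent.H882.S2Val

/-!
The classes of the values of the `j`-invariants in the supersingular disc at two.
-/

set_option autoImplicit false

namespace Pool.Agent.H882

open UpperHalfPlane H294ZP Function Pool.Agent.N135.ZO

section Group

variable {Γ : Type*} [LinearOrderedCommGroupWithZero Γ]

/-- the class of `g` -/
def InS (t g γ : Γ) : Prop := ∃ k : ℕ, γ ^ (2 ^ k) = g ∨ γ ^ (2 ^ k) * g = t ^ 12

variable {t g γ γ' : Γ}

theorem dual_range (ht0 : t ≠ 0) (h1 : t ^ 8 < g) (h2 : g < t ^ 4) {x : Γ} (h : x * g = t ^ 12) :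
    t ^ 8 < x ∧ x < t ^ 4 := by
  have hg : 0 < g := lt_of_le_of_lt zero_le h1
  constructor
  · by_contra hcon
    rw [not_lt] at hcon
    have h3 : x * g < t ^ 8 * t ^ 4 := by
      calc x * g ≤ t ^ 8 * g := mul_le_mul_left hcon g
        _ < t ^ 8 * t ^ 4 := mul_lt_mul_of_pos_left h2 (zero_lt_iff.2 (pow_ne_zero _ ht0))
    rw [h, ← pow_add] at h3
    exact lt_irrefl _ h3
  · by_contra hcon
    rw [not_lt] at hcon
    have h3 : t ^ 4 * t ^ 8 < x * g := by
      calc t ^ 4 * t ^ 8 < t ^ 4 * g := mul_lt_mul_of_pos_left h1 (zero_lt_iff.2 (pow_ne_zero _ ht0))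
        _ ≤ x * g := mul_le_mul_left hcon g
    rw [h, ← pow_add] at h3
    exact lt_irrefl _ h3

/-- the power in the annulus -/
theorem InS.pow_range (ht0 : t ≠ 0) (h1 : t ^ 8 < g) (h2 : g < t ^ 4) (h : InS t g γ) :
    ∃ k : ℕ, t ^ 8 < γ ^ (2 ^ k) ∧ γ ^ (2 ^ k) < t ^ 4 ∧
      (γ ^ (2 ^ k) = g ∨ γ ^ (2 ^ k) * g = t ^ 12) := by
  obtain ⟨k, hk | hk⟩ := h
  · exact ⟨k, by rw [hk]; exact h1, by rw [hk]; exact h2, Or.inl hk⟩
  · have := dual_range ht0 h1 h2 hk
    exact ⟨k, this.1, this.2, Or.inr hk⟩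

theorem InS.lt_one (ht0 : t ≠ 0) (ht : t < 1) (h1 : t ^ 8 < g) (h2 : g < t ^ 4)
    (h : InS t g γ) : γ < 1 ∧ t ^ 8 < γ := by
  obtain ⟨k, hk1, hk2, -⟩ := h.pow_range ht0 h1 h2
  have hlt : γ < 1 := by
    by_contra hcon
    rw [not_lt] at hcon
    have h3 : 1 ≤ γ ^ (2 ^ k) := one_le_pow₀ hcon
    have h4 : t ^ 4 < 1 := pow_lt_one₀ zero_le ht (by norm_num)
    exact absurd (h3.trans_lt hk2) (not_lt.2 h4.le)
  refine ⟨hlt, hk1.trans_le ?_⟩
  exact pow_le_of_le_one zero_le hlt.le (pow_pos (by norm_num) k).ne'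

theorem pow_two_small (_ht0 : t ≠ 0) (ht : t < 1) {x : Γ} (hx : x ≤ t ^ 4) {k : ℕ} (hk : k ≠ 0) :
    x ^ (2 ^ k) ≤ t ^ 8 := by
  obtain ⟨k, rfl⟩ := Nat.exists_eq_succ_of_ne_zero hk
  have h1 : x ^ (2 ^ (k + 1)) = (x ^ 2) ^ (2 ^ k) := by rw [← pow_mul]; congr 1; ring
  rw [Nat.succ_eq_add_one, h1]
  have h2 : x ^ 2 ≤ t ^ 8 := by
    calc x ^ 2 ≤ (t ^ 4) ^ 2 := pow_le_pow_left₀ zero_le hx 2
      _ = t ^ 8 := by rw [← pow_mul]
  have h3 : x ^ 2 ≤ 1 := h2.trans (pow_le_one₀ zero_le ht.le)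
  exact (pow_le_of_le_one zero_le h3 (pow_pos (by norm_num) k).ne').trans h2

/-- the class is closed under the changes of isogenies of degree two -/
theorem InS.step (ht0 : t ≠ 0) (ht : t < 1) (h1 : t ^ 8 < g) (h2 : g < t ^ 4) (h : InS t g γ)
    (hs : γ' ^ 2 = γ ∨ (γ' * γ = t ^ 12 ∧ t ^ 8 < γ') ∨ (γ' = γ ^ 2 ∧ t ^ 4 < γ) ∨
      (γ = t ^ 4 ∧ γ' ≤ t ^ 8)) : InS t g γ' := by
  obtain ⟨k, hk1, hk2, hk⟩ := h.pow_range ht0 h1 h2
  rcases hs with hs | ⟨hs, hs'⟩ | ⟨hs, hs'⟩ | ⟨hs, hs'⟩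
  · refine ⟨k + 1, ?_⟩
    have : γ' ^ (2 ^ (k + 1)) = γ ^ (2 ^ k) := by
      rw [← hs, ← pow_mul]; congr 1; ring
    rw [this]; exact hk
  · -- `γ < t ^ 4`, so `k = 0`
    have hlt : γ < t ^ 4 := by
      by_contra hcon
      rw [not_lt] at hcon
      have h3 : t ^ 8 * t ^ 4 < γ' * γ := by
        calc t ^ 8 * t ^ 4 < γ' * t ^ 4 := mul_lt_mul_of_pos_right hs' (zero_lt_iff.2 (pow_ne_zero _ ht0))
          _ ≤ γ' * γ := mul_le_mul_right hcon _
      rw [hs, ← pow_add] at h3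
      exact lt_irrefl _ h3
    have hk0 : k = 0 := by
      by_contra hne
      exact absurd (pow_two_small ht0 ht hlt.le hne) (not_le.2 hk1)
    subst hk0
    rw [pow_zero, pow_one] at hk hk1 hk2
    refine ⟨0, ?_⟩
    rw [pow_zero, pow_one]
    rcases hk with hk | hk
    · right
      rw [← hk]; exact hs
    · left
      have hγ0 : γ ≠ 0 := (lt_of_le_of_lt zero_le hk1).ne'
      have : γ' * γ = g * γ := by rw [hs, ← hk, mul_comm]
      exact mul_right_cancel₀ hγ0 this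
  · have hk0 : k ≠ 0 := by
      rintro rfl
      rw [pow_zero, pow_one] at hk2
      exact absurd hk2 (not_lt.2 hs'.le)
    obtain ⟨k, rfl⟩ := Nat.exists_eq_succ_of_ne_zero hk0
    refine ⟨k, ?_⟩
    have : γ' ^ (2 ^ k) = γ ^ (2 ^ (k + 1)) := by
      rw [hs, ← pow_mul]; congr 1; ring
    rw [this]; exact hk
  · exfalso
    rcases Nat.eq_zero_or_pos k with rfl | hk0
    · rw [pow_zero, pow_one, hs] at hk2
      exact lt_irrefl _ hk2
    · exact absurd (pow_two_small ht0 ht hs.le hk0.ne') (not_le.2 hk1)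

/-- different classes are disjoint -/
theorem InS.unique (ht0 : t ≠ 0) (ht : t < 1) {g' : Γ} (h1 : t ^ 8 < g) (h2 : g < t ^ 4)
    (h1' : t ^ 8 < g') (h2' : g' < t ^ 4) (h : InS t g γ) (h' : InS t g' γ) :
    g = g' ∨ g * g' = t ^ 12 := by
  obtain ⟨k, hk1, hk2, hk⟩ := h.pow_range ht0 h1 h2
  obtain ⟨l, hl1, hl2, hl⟩ := h'.pow_range ht0 h1' h2'
  have hkl : k = l := by
    have key : ∀ a b : ℕ, a < b → γ ^ (2 ^ a) < t ^ 4 → t ^ 8 < γ ^ (2 ^ b) → False := by
      intro a b hab ha hb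
      obtain ⟨d, rfl⟩ := Nat.exists_eq_add_of_lt hab
      have e : γ ^ (2 ^ (a + d + 1)) = (γ ^ (2 ^ a)) ^ (2 ^ (d + 1)) := by
        rw [← pow_mul]; congr 1; ring
      rw [e] at hb
      exact absurd (pow_two_small ht0 ht ha.le (Nat.succ_ne_zero d)) (not_le.2 hb)
    rcases lt_trichotomy k l with h | h | h
    · exact (key k l h hk2 hl1).elim
    · exact h
    · exact (key l k h hl2 hk1).elim
  subst hkl
  have hγ0 : γ ^ (2 ^ k) ≠ 0 := (lt_of_le_of_lt zero_le hk1).ne'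
  rcases hk with hk | hk
  · rcases hl with hl | hl
    · left; rw [← hk, ← hl]
    · right; rw [← hk]; exact hl
  · rcases hl with hl | hl
    · right; rw [← hl, mul_comm]; exact hk
    · left
      rw [← hl] at hk
      exact mul_left_cancel₀ hγ0 hk

end Group

section Rel

variable {V : ValuationSubring ℂ}


theorem val_odd (ht : (V.valuation (2 : ℂ)) < 1) {n : ℤ} (hn : ¬ (2 : ℤ) ∣ n) : V.valuation (n : ℂ) = 1 := by
  obtain ⟨m, rfl⟩ : Odd n := by rwa [← Int.not_even_iff_odd, even_iff_two_dvd]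
  have hm : V.valuation (m : ℂ) ≤ 1 := by
    rw [V.valuation_le_one_iff]
    exact intCast_mem V m
  have h1 : V.valuation (2 * (m : ℂ)) < 1 := by
    rw [map_mul]
    calc _ ≤ (V.valuation (2 : ℂ)) * 1 := mul_le_mul_right hm _
      _ < 1 := by rw [mul_one]; exact ht
  push_cast
  rw [V.valuation.map_add_eq_of_lt_right (by rw [map_one]; exact h1), map_one]

/-- the classes are closed under isogenies -/
theorem S_closed (ht : (V.valuation (2 : ℂ)) < 1) {g : V.ValueGroup} (h1 : (V.valuation (2 : ℂ)) ^ 8 < g) (h2 : g < (V.valuation (2 : ℂ)) ^ 4) {M : M2}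
    (hM : 0 < M.det) {τ w : ℍ} (h : N135.ZO.Rel M τ w) (hτ : InS (V.valuation (2 : ℂ)) g (V.valuation (jj τ))) :
    InS (V.valuation (2 : ℂ)) g (V.valuation (jj w)) := by
  obtain ⟨n, hn⟩ : ∃ n : ℕ, M.det.toNat = n := ⟨_, rfl⟩
  induction n using Nat.strong_induction_on generalizing M τ with
  | _ n ih =>
    have hMn : M.det = n := by omega
    have hr := hτ.lt_one (t_ne V) ht h1 h2
    by_cases h2d : (2 : ℤ) ∣ M.det
    · obtain ⟨k, C, -, hCpos, hdet, hrel, -⟩ := exists_fac hM Nat.prime_two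
        (by exact_mod_cast h2d) h
      refine ih C.det.toNat ?_ hCpos hrel ?_ rfl
      · push_cast at hdet
        omega
      · exact hτ.step (t_ne V) ht h1 h2 (step2 ht hr.2 k)
    · rw [step_odd hM (val_odd ht h2d) h ((V.valuation_le_one_iff _).1 hr.1.le) hr.2]
      exact hτ

/-- no `2 · odd` endomorphisms -/
theorem no_endo (ht : (V.valuation (2 : ℂ)) < 1) {g : V.ValueGroup} (h1 : (V.valuation (2 : ℂ)) ^ 8 < g) (h2 : g < (V.valuation (2 : ℂ)) ^ 4)
    (h6 : g ≠ (V.valuation (2 : ℂ)) ^ 6) {M : M2} (hM : 0 < M.det) (h2d : (2 : ℤ) ∣ M.det) (h4d : ¬ (4 : ℤ) ∣ M.det)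
    {w : ℍ} (h : N135.ZO.Rel M w w) (hw : InS (V.valuation (2 : ℂ)) g (V.valuation (jj w))) : False := by
  have ht0 := t_ne V
  have hr := hw.lt_one ht0 ht h1 h2
  have hwV : jj w ∈ V := (V.valuation_le_one_iff _).1 hr.1.le
  obtain ⟨k, C, -, hCpos, hdet, hrel, -⟩ := exists_fac hM Nat.prime_two
        (by exact_mod_cast h2d) h
  have hodd : ¬ (2 : ℤ) ∣ C.det := by
    rintro ⟨c, hc⟩
    apply h4d
    rw [hdet, hc]
    exact ⟨c, by push_cast; ring⟩
  set z := hh Nat.prime_two.pos k w with hz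
  have hs : InS (V.valuation (2 : ℂ)) g (V.valuation (jj z)) := hw.step ht0 ht h1 h2 (step2 ht hr.2 k)
  have hr' := hs.lt_one ht0 ht h1 h2
  have he := step_odd hCpos (val_odd ht hodd) hrel ((V.valuation_le_one_iff _).1 hr'.1.le) hr'.2
  have hst := step2 ht hr.2 k
  have e : V.valuation (jj (hh (l := 2) (by norm_num) k w)) = V.valuation (jj w) := he.symm
  rw [e] at hst
  generalize V.valuation (jj w) = γ at *
  have hγ0 : γ ≠ 0 := (lt_of_le_of_lt zero_le hr.2).ne'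
  have hγ1 : γ ≠ 1 := hr.1.ne
  have hsq : γ ^ 2 = γ → False := by
    intro h3
    apply hγ1
    have : γ * γ = 1 * γ := by rw [one_mul, ← pow_two]; exact h3
    exact mul_right_cancel₀ hγ0 this
  rcases hst with h3 | ⟨h3, -⟩ | ⟨h3, -⟩ | ⟨h3, h4⟩
  · exact hsq h3
  · have hγ : γ = (V.valuation (2 : ℂ)) ^ 6 := by
      have h5 : γ ^ 2 = ((V.valuation (2 : ℂ)) ^ 6) ^ 2 := by rw [← pow_mul, pow_two]; exact h3
      exact (pow_left_inj₀ zero_le zero_le (by norm_num)).1 h5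
    rw [hγ] at hw
    have h4 : (V.valuation (2 : ℂ)) ^ 6 ≤ (V.valuation (2 : ℂ)) ^ 4 := pow_le_pow_of_le_one zero_le ht.le (by norm_num)
    obtain ⟨l, hl1, hl2, hl⟩ := hw.pow_range ht0 h1 h2
    have hl0 : l = 0 := by
      by_contra hne
      exact absurd (pow_two_small ht0 ht h4 hne) (not_le.2 hl1)
    subst hl0
    rw [pow_zero, pow_one] at hl
    rcases hl with hl | hl
    · exact h6 hl.symm
    · apply h6
      have h5 : (V.valuation (2 : ℂ)) ^ 6 * g = (V.valuation (2 : ℂ)) ^ 6 * (V.valuation (2 : ℂ)) ^ 6 := by rw [hl, ← pow_add]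
      exact mul_left_cancel₀ (pow_ne_zero _ ht0) h5
  · exact hsq h3.symm
  · rw [h3] at h4
    have h5 : (V.valuation (2 : ℂ)) ^ 8 < (V.valuation (2 : ℂ)) ^ 4 := pow_lt_pow_right_of_lt_one₀ (zero_lt_iff.2 ht0) ht (by norm_num)
    exact absurd h4 (not_le.2 h5)

/-- no endomorphisms which permute the isogenies of degree two cyclically -/
theorem no_endo3 (ht : (V.valuation (2 : ℂ)) < 1) {g : V.ValueGroup} (h1 : (V.valuation (2 : ℂ)) ^ 8 < g) (h2 : g < (V.valuation (2 : ℂ)) ^ 4)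
    {c : ℤ} (hc0 : 0 < c) (hc : ¬ (2 : ℤ) ∣ c) {w : ℍ}
    (h : N135.ZO.Rel !![1, -c; 1, 0] w w) (hw : InS (V.valuation (2 : ℂ)) g (V.valuation (jj w))) : False := by
  have ht0 := t_ne V
  have hr := hw.lt_one ht0 ht h1 h2
  have hwV : jj w ∈ V := (V.valuation_le_one_iff _).1 hr.1.le
  obtain ⟨d, hd⟩ : ∃ d, c = 2 * d + 1 := by
    obtain ⟨d, hd⟩ : Odd c := by rwa [← Int.not_even_iff_odd, even_iff_two_dvd]
    exact ⟨d, hd⟩
  have hMd : (!![1, -c; 1, 0] : M2).det = c := by simp [Matrix.det_fin_two_of]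
  have hmem : ∀ k, jj (hh (l := 2) (by norm_num) k w) ∈ V := fun k =>
    rel_mem (M := gk 2 k) (by rw [det_gk]; norm_num) (rel_hh (l := 2) (by norm_num) k w) hwV
  have key : ∀ (k k' : Option (Fin 2)) (C : M2), gk 2 k * (!![1, -c; 1, 0] : M2) = C * gk 2 k' →
      C.det = c → V.valuation (u2 k w) = V.valuation (u2 k' w) := by
    intro k k' C hC hCd
    have h3 := endo_uu (l := 2) (by norm_num) hC (by rw [hCd]; exact hc0)
      (by rw [hMd]; exact hc0) h
    have h4 := congrArg V.valuation h3.2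
    rw [map_mul, map_mul, GG_unit (by rw [hMd]; exact hc0) (by rw [hMd]; exact val_odd ht hc) h hwV,
      GG_unit (by rw [hCd]; exact hc0) (by rw [hCd]; exact val_odd ht hc) h3.1 (hmem k'),
      one_mul, mul_one] at h4
    exact h4
  have k1 : V.valuation (u2 none w) = V.valuation (u2 (some 0) w) := by
    refine key none (some 0) !![2, -c; 1, 0] ?_ (by simp [Matrix.det_fin_two_of])
    ext i j
    fin_cases i <;> fin_cases j <;>
      simp [gk, ka, kb, kd, Matrix.mul_apply, Fin.sum_univ_two, mul_comm]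
  have k2 : V.valuation (u2 (some 0) w) = V.valuation (u2 (some 1) w) := by
    refine key (some 0) (some 1) !![1, -(d + 1); 2, -1] ?_ ?_
    · ext i j
      fin_cases i <;> fin_cases j <;>
        simp [gk, ka, kb, kd, Matrix.mul_apply, Fin.sum_univ_two]
      rw [hd]; ring
    · rw [Matrix.det_fin_two_of, hd]; ring
  have hprod := val_prod (V := V) w
  rw [k1, k2] at hprod
  have h3 : V.valuation (u2 (some 1) w) = (V.valuation (2 : ℂ)) ^ 4 := by
    have h5 : V.valuation (u2 (some 1) w) ^ 3 = ((V.valuation (2 : ℂ)) ^ 4) ^ 3 := by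
      rw [← pow_mul, ← hprod, pow_succ', pow_two]
    exact (pow_left_inj₀ zero_le zero_le (by norm_num)).1 h5
  exact absurd (solve1_eq (u2_eq (some 1) w) h3) (not_le.2 hr.2)

/-- CM points are not in the annuli -/
theorem cm_not_InS (ht : (V.valuation (2 : ℂ)) < 1) {g : V.ValueGroup} (h1 : (V.valuation (2 : ℂ)) ^ 8 < g) (h2 : g < (V.valuation (2 : ℂ)) ^ 4)
    (h6 : g ≠ (V.valuation (2 : ℂ)) ^ 6) {τ : ℍ} (hcm : IsCM τ) : ¬ InS (V.valuation (2 : ℂ)) g (V.valuation (jj τ)) := by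
  intro hS
  -- a positive leading coefficient
  obtain ⟨a, b, c, ha, habc⟩ : ∃ a b c : ℤ, 0 < a ∧ (a : ℂ) * (τ : ℂ) ^ 2 + b * τ + c = 0 := by
    obtain ⟨a, b, c, ha, habc⟩ := hcm
    rcases lt_or_gt_of_ne ha with h | h
    · refine ⟨-a, -b, -c, by omega, ?_⟩
      push_cast
      linear_combination -habc
    · exact ⟨a, b, c, h, habc⟩
  have hD := H610.disc_pos τ a b c ha.ne' habc
  obtain ⟨D, hDn⟩ : ∃ D : ℕ, 4 * a * c - b ^ 2 = D := ⟨(4 * a * c - b ^ 2).toNat, by omega⟩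
  have hD0 : D ≠ 0 := by omega
  obtain ⟨s, D₁, h4, hDs⟩ := Nat.exists_eq_pow_mul_and_not_dvd hD0 4 (by norm_num)
  have hD1 : 0 < D₁ := by
    rcases Nat.eq_zero_or_pos D₁ with h | h
    · rw [h, mul_zero] at hDs
      exact absurd hDs hD0
    · exact h
  have hsq : (2 * (a : ℂ) * τ + b) ^ 2 = -((4 : ℂ) ^ s * D₁) := by
    have e : ((4 * a * c - b ^ 2 : ℤ) : ℂ) = ((4 ^ s * D₁ : ℕ) : ℂ) := by
      rw [hDn, hDs]; push_cast; rfl
    push_cast at e
    rw [← e]
    linear_combination 4 * (a : ℂ) * habc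
  have h2s : (2 : ℂ) ^ s ≠ 0 := pow_ne_zero _ (by norm_num)
  have h4s : (4 : ℂ) ^ s = ((2 : ℂ) ^ s) ^ 2 := by
    rw [← pow_mul, mul_comm, pow_mul]; norm_num
  by_cases h3 : D₁ % 4 = 3
  · -- `w = (1 + √-D₁) / 2`
    have hM : 0 < (!![2 * a, b + 2 ^ s; 0, 2 ^ (s + 1)] : M2).det := by
      rw [Matrix.det_fin_two_of]
      have : (0 : ℤ) < 2 ^ (s + 1) := by positivity
      nlinarith
    obtain ⟨w, hw⟩ := exists_rel hM τ
    have hSw := S_closed ht h1 h2 hM hw hS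
    simp only [N135.ZO.Rel, N135.ZO.den, N135.ZO.num, Matrix.of_apply, Matrix.cons_val',
      Matrix.cons_val_zero, Matrix.cons_val_one, Matrix.cons_val_fin_one] at hw
    push_cast at hw
    obtain ⟨e, he⟩ : ∃ e : ℕ, D₁ + 1 = 4 * e := ⟨(D₁ + 1) / 4, by omega⟩
    have he0 : 0 < e := by omega
    have heC : (D₁ : ℂ) + 1 = 4 * e := by exact_mod_cast he
    have hwq : (w : ℂ) ^ 2 - w + e = 0 := by
      have h5 : (2 * (w : ℂ) - 1) * 2 ^ s = 2 * a * τ + b := by
        rw [pow_succ] at hw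
        linear_combination hw
      have h6 : (2 * (w : ℂ) - 1) ^ 2 * (2 ^ s) ^ 2 = -(D₁ : ℂ) * (2 ^ s) ^ 2 := by
        rw [← mul_pow, h5, hsq, h4s]; ring
      have h7 := mul_right_cancel₀ (pow_ne_zero 2 h2s) h6
      linear_combination h7 / 4 - heC / 4
    have hend : ∀ x y : ℤ, N135.ZO.Rel !![x + y, -(e * y); y, x] w w := by
      intro x y
      simp only [N135.ZO.Rel, N135.ZO.den, N135.ZO.num, Matrix.of_apply, Matrix.cons_val',
        Matrix.cons_val_zero, Matrix.cons_val_one, Matrix.cons_val_fin_one]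
      push_cast
      linear_combination (y : ℂ) * hwq
    have hdet : ∀ x y : ℤ, (!![x + y, -(e * y); y, x] : M2).det = x ^ 2 + x * y + e * y ^ 2 := by
      intro x y
      rw [Matrix.det_fin_two_of]; ring
    rcases Nat.even_or_odd e with hev | hod
    · by_cases he4 : e % 4 = 2
      · refine no_endo ht h1 h2 h6 (M := !![0 + 1, -(e * 1); 1, 0]) ?_ ?_ ?_ (hend 0 1) hSw
        · rw [hdet]; push_cast; omega
        · rw [hdet]; omega
        · rw [hdet]; omega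
      · have he4' : e % 4 = 0 := by
          obtain ⟨f, hf⟩ := hev
          omega
        refine no_endo ht h1 h2 h6 (M := !![1 + 1, -(e * 1); 1, 1]) ?_ ?_ ?_ (hend 1 1) hSw
        · rw [hdet]; push_cast; omega
        · rw [hdet]; omega
        · rw [hdet]; omega
    · refine no_endo3 ht h1 h2 (c := e) (by omega) ?_ (w := w) ?_ hSw
      · obtain ⟨f, hf⟩ := hod
        omega
      · have := hend 0 1
        simpa using this
  · -- `w = √-D₁`
    have hM : 0 < (!![2 * a, b; 0, 2 ^ s] : M2).det := by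
      rw [Matrix.det_fin_two_of]
      have : (0 : ℤ) < 2 ^ s := by positivity
      nlinarith
    obtain ⟨w, hw⟩ := exists_rel hM τ
    have hSw := S_closed ht h1 h2 hM hw hS
    simp only [N135.ZO.Rel, N135.ZO.den, N135.ZO.num, Matrix.of_apply, Matrix.cons_val',
      Matrix.cons_val_zero, Matrix.cons_val_one, Matrix.cons_val_fin_one] at hw
    push_cast at hw
    have hwq : (w : ℂ) ^ 2 + D₁ = 0 := by
      have h5 : (w : ℂ) * 2 ^ s = 2 * a * τ + b := by linear_combination hw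
      have h6 : (w : ℂ) ^ 2 * (2 ^ s) ^ 2 = -(D₁ : ℂ) * (2 ^ s) ^ 2 := by
        rw [← mul_pow, h5, hsq, h4s]; ring
      have h7 := mul_right_cancel₀ (pow_ne_zero 2 h2s) h6
      linear_combination h7
    have hend : ∀ x y : ℤ, N135.ZO.Rel !![x, -(D₁ * y); y, x] w w := by
      intro x y
      simp only [N135.ZO.Rel, N135.ZO.den, N135.ZO.num, Matrix.of_apply, Matrix.cons_val',
        Matrix.cons_val_zero, Matrix.cons_val_one, Matrix.cons_val_fin_one]
      push_cast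
      linear_combination (y : ℂ) * hwq
    have hdet : ∀ x y : ℤ, (!![x, -(D₁ * y); y, x] : M2).det = x ^ 2 + D₁ * y ^ 2 := by
      intro x y
      rw [Matrix.det_fin_two_of]; ring
    have hcase : D₁ % 4 = 1 ∨ D₁ % 4 = 2 := by omega
    rcases hcase with hc | hc
    · refine no_endo ht h1 h2 h6 (M := !![1, -(D₁ * 1); 1, 1]) ?_ ?_ ?_ (hend 1 1) hSw
      · rw [hdet]; push_cast; omega
      · rw [hdet]; omega
      · rw [hdet]; omega
    · refine no_endo ht h1 h2 h6 (M := !![0, -(D₁ * 1); 1, 0]) ?_ ?_ ?_ (hend 0 1) hSw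
      · rw [hdet]; push_cast; omega
      · rw [hdet]; omega
      · rw [hdet]; omega

end Rel

end Pool.Agent.H882
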