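import Pool.Agent.H882.S2Poly

/-!
The polynomial with the roots `2^12 Δ(2τ)/Δ(τ)`, `Δ(τ/2)/Δ(τ)`, `Δ((τ+1)/2)/Δ(τ)`:
`(u + 16) ^ 3 = j u`.
-/

set_option autoImplicit false

namespace Pool.Agent.H882

open UpperHalfPlane H294ZP Function Pool.Agent.N135.ZO ModularForm

theorem hol_u2 (k : Option (Fin 2)) : Hol (u2 k) := (LX.uu (l := 2) (by norm_num) k).2

theorem Hol.add' {f g : ℍ → ℂ} (hf : Hol f) (hg : Hol g) : Hol (fun τ => f τ + g τ) := by
  unfold Hol at *
  exact hf.add hg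

theorem Hol.mul' {f g : ℍ → ℂ} (hf : Hol f) (hg : Hol g) : Hol (fun τ => f τ * g τ) := by
  unfold Hol at *
  exact hf.mul hg

theorem u2_sym (F : (Option (Fin 2) → ℂ) → ℂ)
    (hF : ∀ (σ : Equiv.Perm (Option (Fin 2))) (x : Option (Fin 2) → ℂ), F (x ∘ σ) = F x) :
    Inv (fun τ => F (fun k => u2 k τ)) := by
  refine inv_of_rel fun γ hγ τ w hw => ?_
  obtain ⟨σ, hσ⟩ := perm Nat.prime_two hγ hw
  have h1 : (fun k => u2 k w) = (fun k => u2 k τ) ∘ σ := by
    funext k
    exact (hσ k).2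
  show F (fun k => u2 k w) = F (fun k => u2 k τ)
  rw [h1, hF]

theorem hB : TB := TBproof.tb hTA tc

theorem e1_const (τ w : ℍ) : u2 none τ + (u2 (some 0) τ + u2 (some 1) τ) =
    u2 none w + (u2 (some 0) w + u2 (some 1) w) := by
  have hinv : Inv (fun τ => u2 none τ + (u2 (some 0) τ + u2 (some 1) τ)) := by
    have := u2_sym (fun x => ∑ k, x k) (fun σ x => Equiv.sum_comp σ x)
    simpa [Fintype.sum_option, Fin.sum_univ_two] using this
  have hhol : Hol (fun τ => u2 none τ + (u2 (some 0) τ + u2 (some 1) τ)) :=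
    Hol.add' (hol_u2 _) (Hol.add' (hol_u2 _) (hol_u2 _))
  have h0 := tc.2.1 2 0 1 _ _ (by norm_num) (by norm_num) lau_u2_none
  have h1 := tc.2.2.1 2 1 _ _ _ _ (by norm_num) (lau_u2_some 0) (lau_u2_some 1)
  have h2 := tc.2.2.1 2 1 _ _ _ _ (by norm_num) h0 h1
  obtain ⟨P, -, hP, -, hdeg, -⟩ := hB 2 (by norm_num) 1 _ _ hinv hhol h2
  have hdeg0 : P.natDegree = 0 := by simpa using hdeg
  rw [Polynomial.eq_C_of_natDegree_eq_zero hdeg0] at hP
  simp only [Polynomial.eval_C] at hP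
  rw [hP τ, hP w]

theorem e3_const (τ w : ℍ) : u2 none τ * (u2 (some 0) τ * u2 (some 1) τ) =
    u2 none w * (u2 (some 0) w * u2 (some 1) w) := by
  have hinv : Inv (fun τ => u2 none τ * (u2 (some 0) τ * u2 (some 1) τ)) := by
    have := u2_sym (fun x => ∏ k, x k) (fun σ x => Equiv.prod_comp σ x)
    simpa [Fintype.prod_option, Fin.prod_univ_two] using this
  have hhol : Hol (fun τ => u2 none τ * (u2 (some 0) τ * u2 (some 1) τ)) :=
    Hol.mul' (hol_u2 _) (Hol.mul' (hol_u2 _) (hol_u2 _))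
  have h1 := tc.2.2.2.1 2 1 1 _ _ _ _ (by norm_num) (lau_u2_some 0) (lau_u2_some 1)
  have h2 := tc.2.2.2.1 2 0 (1 + 1) _ _ _ _ (by norm_num) lau_u2_none h1
  rw [zero_mul] at h2
  obtain ⟨P, -, hP, -, hdeg, hc⟩ := hB 2 (by norm_num) _ _ _ hinv hhol h2
  have hdeg0 : P.natDegree = 0 := by
    have h3 : P.coeff 1 = 0 := hc (by norm_num)
    have h4 : P.natDegree ≤ 1 := hdeg
    by_contra hne
    have h5 : P.natDegree = 1 := by omega
    have h6 : P.leadingCoeff = 0 := by
      rw [Polynomial.leadingCoeff, h5, h3]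
    rw [Polynomial.leadingCoeff_eq_zero] at h6
    rw [h6] at h5
    simp at h5
  rw [Polynomial.eq_C_of_natDegree_eq_zero hdeg0] at hP
  simp only [Polynomial.eval_C] at hP
  rw [hP τ, hP w]

theorem e2_const : ∃ c : ℂ, ∀ τ : ℍ, u2 none τ * u2 (some 0) τ + (u2 none τ * u2 (some 1) τ +
    u2 (some 0) τ * u2 (some 1) τ) = c - jj τ := by
  have hinv : Inv (fun τ => u2 none τ * u2 (some 0) τ + (u2 none τ * u2 (some 1) τ +
    u2 (some 0) τ * u2 (some 1) τ)) := by
    have := u2_sym (fun x => ((∑ k, x k) ^ 2 - ∑ k, x k ^ 2) / 2) (fun σ x => by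
      have h1 := Equiv.sum_comp σ x
      have h2 := Equiv.sum_comp σ (fun k => x k ^ 2)
      simp only [Function.comp_apply]
      rw [h1, h2])
    have e : (fun τ => ((∑ k, u2 k τ) ^ 2 - ∑ k, u2 k τ ^ 2) / 2) =
        (fun τ => u2 none τ * u2 (some 0) τ + (u2 none τ * u2 (some 1) τ +
    u2 (some 0) τ * u2 (some 1) τ)) := by
      funext τ
      simp only [Fintype.sum_option, Fin.sum_univ_two]
      ring
    rw [← e]
    exact this
  have hhol : Hol (fun τ => u2 none τ * u2 (some 0) τ + (u2 none τ * u2 (some 1) τ +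
    u2 (some 0) τ * u2 (some 1) τ)) :=
    Hol.add' (Hol.mul' (hol_u2 _) (hol_u2 _)) (Hol.add' (Hol.mul' (hol_u2 _) (hol_u2 _))
      (Hol.mul' (hol_u2 _) (hol_u2 _)))
  have h0 := tc.2.2.2.1 2 0 1 _ _ _ _ (by norm_num) lau_u2_none (lau_u2_some 0)
  have h0' := tc.2.1 2 _ 1 _ _ (by norm_num) (by norm_num) h0
  have h1 := tc.2.2.2.1 2 0 1 _ _ _ _ (by norm_num) lau_u2_none (lau_u2_some 1)
  have h1' := tc.2.1 2 _ 1 _ _ (by norm_num) (by norm_num) h1
  have h2 := tc.2.2.2.1 2 1 1 _ _ _ _ (by norm_num) (lau_u2_some 0) (lau_u2_some 1)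
  have h3 := tc.2.2.1 2 2 _ _ _ _ (by norm_num) h1' h2
  have h4 := tc.2.2.1 2 2 _ _ _ _ (by norm_num) h0' h3
  obtain ⟨P, -, hP, -, hdeg, hc⟩ := hB 2 (by norm_num) _ _ _ hinv hhol h4
  have h5 : P.coeff 1 = -1 := by
    have := hc (by norm_num)
    simpa using this
  have h6 : P.natDegree ≤ 1 := hdeg
  refine ⟨P.coeff 0, fun τ => ?_⟩
  rw [hP τ, Polynomial.eval_eq_sum_range' (n := 2) (by omega), Finset.sum_range_succ,
    Finset.sum_range_one, h5]
  ring

theorem rel_I1 : N135.ZO.Rel !![1, 1; -1, 1] UpperHalfPlane.I UpperHalfPlane.I := by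
  have hI : ((UpperHalfPlane.I : ℍ) : ℂ) = Complex.I := rfl
  simp only [N135.ZO.Rel, N135.ZO.den, N135.ZO.num, Matrix.of_apply, Matrix.cons_val',
      Matrix.cons_val_zero, Matrix.cons_val_one, Matrix.cons_val_fin_one]
  rw [hI]
  push_cast
  linear_combination -Complex.I_sq

theorem rel_IS : N135.ZO.Rel !![0, -1; 1, 0] UpperHalfPlane.I UpperHalfPlane.I := by
  have hI : ((UpperHalfPlane.I : ℍ) : ℂ) = Complex.I := rfl
  simp only [N135.ZO.Rel, N135.ZO.den, N135.ZO.num, Matrix.of_apply, Matrix.cons_val',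
      Matrix.cons_val_zero, Matrix.cons_val_one, Matrix.cons_val_fin_one]
  rw [hI]
  push_cast
  linear_combination Complex.I_sq

theorem rel_rho : N135.ZO.Rel !![1, -1; 1, 0] ρ6 ρ6 := by
  simp only [N135.ZO.Rel, N135.ZO.den, N135.ZO.num, Matrix.of_apply, Matrix.cons_val',
    Matrix.cons_val_zero, Matrix.cons_val_one, Matrix.cons_val_fin_one]
  push_cast
  linear_combination ρ6_eq

theorem u2_I1 : u2 (some 1) UpperHalfPlane.I = -64 := by
  have hM : (!![1, 1; -1, 1] : M2) = !![1, 0; -1, 1] * gk 2 (some 1) := by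
    ext i j
    fin_cases i <;> fin_cases j <;> simp [gk, ka, kb, kd, Matrix.mul_apply, Fin.sum_univ_two]
  have hC : (!![1, 0; -1, 1] : M2).det = 1 := by simp [Matrix.det_fin_two_of]
  have h := fac (l := 2) (by norm_num) hM (by rw [hC]; norm_num) rel_I1
  rw [GG_sl hC h.1, one_mul] at h
  have h2 := h.2
  unfold u2
  rw [← h2]
  unfold GG
  have hd : N135.ZO.den (!![1, 1; -1, 1] : M2) UpperHalfPlane.I = 1 - Complex.I := by
    have hI : ((UpperHalfPlane.I : ℍ) : ℂ) = Complex.I := rfl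
    simp only [N135.ZO.den, Matrix.of_apply, Matrix.cons_val',
      Matrix.cons_val_zero, Matrix.cons_val_one, Matrix.cons_val_fin_one]
    rw [hI]
    push_cast
    ring
  have hdet : ((!![1, 1; -1, 1] : M2).det : ℂ) = 2 := by
    rw [Matrix.det_fin_two_of]
    norm_num
  rw [hd, hdet, mul_div_assoc, div_self (discriminant_ne_zero _), mul_one]
  have h3 : (2 : ℂ) / (1 - Complex.I) = 1 + Complex.I := by
    have h4 : (1 - Complex.I : ℂ) ≠ 0 := by
      intro h0
      have h5 := congrArg Complex.re h0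
      simp at h5
    rw [div_eq_iff h4]
    linear_combination Complex.I_sq
  rw [h3]
  have h5 : (1 + Complex.I) ^ 2 = 2 * Complex.I := by linear_combination Complex.I_sq
  have h6 : (1 + Complex.I) ^ 12 = ((1 + Complex.I) ^ 2) ^ 6 := by ring
  rw [h6, h5]
  have h7 : (2 * Complex.I) ^ 6 = 64 * (Complex.I ^ 2) ^ 3 := by ring
  rw [h7, Complex.I_sq]
  norm_num

theorem u2_I0 : u2 none UpperHalfPlane.I = u2 (some 0) UpperHalfPlane.I := by
  have hM : gk 2 none * (!![0, -1; 1, 0] : M2) = !![0, -1; 1, 0] * gk 2 (some 0) := by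
    ext i j
    fin_cases i <;> fin_cases j <;> simp [gk, ka, kb, kd, Matrix.mul_apply, Fin.sum_univ_two]
  have hS : (!![0, -1; 1, 0] : M2).det = 1 := by simp [Matrix.det_fin_two_of]
  have h := endo_uu (l := 2) (by norm_num) hM (by rw [hS]; norm_num) (by rw [hS]; norm_num) rel_IS
  have h2 := h.2
  rw [GG_sl hS h.1, GG_sl hS rel_IS, one_mul, mul_one] at h2
  exact h2

theorem u2_rho0 : u2 none ρ6 = u2 (some 0) ρ6 := by
  have hM : gk 2 none * (!![1, -1; 1, 0] : M2) = !![2, -1; 1, 0] * gk 2 (some 0) := by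
    ext i j
    fin_cases i <;> fin_cases j <;> simp [gk, ka, kb, kd, Matrix.mul_apply, Fin.sum_univ_two]
  have hS : (!![1, -1; 1, 0] : M2).det = 1 := by simp [Matrix.det_fin_two_of]
  have hC : (!![2, -1; 1, 0] : M2).det = 1 := by simp [Matrix.det_fin_two_of]
  have h := endo_uu (l := 2) (by norm_num) hM (by rw [hC]; norm_num) (by rw [hS]; norm_num) rel_rho
  have h2 := h.2
  rw [GG_sl hC h.1, GG_sl hS rel_rho, one_mul, mul_one] at h2
  exact h2

theorem u2_rho1 : u2 (some 0) ρ6 = u2 (some 1) ρ6 := by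
  have hM : gk 2 (some 0) * (!![1, -1; 1, 0] : M2) = !![1, -1; 2, -1] * gk 2 (some 1) := by
    ext i j
    fin_cases i <;> fin_cases j <;> simp [gk, ka, kb, kd, Matrix.mul_apply, Fin.sum_univ_two]
  have hS : (!![1, -1; 1, 0] : M2).det = 1 := by simp [Matrix.det_fin_two_of]
  have hC : (!![1, -1; 2, -1] : M2).det = 1 := by simp [Matrix.det_fin_two_of]
  have h := endo_uu (l := 2) (by norm_num) hM (by rw [hC]; norm_num) (by rw [hS]; norm_num) rel_rho
  have h2 := h.2
  rw [GG_sl hC h.1, GG_sl hS rel_rho, one_mul, mul_one] at h2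
  exact h2

theorem syms (τ : ℍ) : u2 none τ + (u2 (some 0) τ + u2 (some 1) τ) = -48 ∧
    u2 none τ * u2 (some 0) τ + (u2 none τ * u2 (some 1) τ + u2 (some 0) τ * u2 (some 1) τ) =
      768 - jj τ ∧ u2 none τ * (u2 (some 0) τ * u2 (some 1) τ) = -4096 := by
  obtain ⟨c, hc⟩ := e2_const
  have a1 := e1_const ρ6 UpperHalfPlane.I
  have a3 := e3_const ρ6 UpperHalfPlane.I
  have b1 := hc ρ6
  have b2 := hc UpperHalfPlane.I
  have c1 := e1_const τ ρ6
  have c3 := e3_const τ ρ6
  have c2 := hc τ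
  rw [u2_rho0, u2_rho1, u2_I0, u2_I1] at a1 a3
  rw [u2_rho0, u2_rho1, jj_rho] at b1
  rw [u2_I0, u2_I1, jj_I] at b2
  rw [u2_rho0, u2_rho1] at c1 c3
  generalize u2 (some 1) ρ6 = w at *
  generalize u2 (some 0) UpperHalfPlane.I = u at *
  have h1 : (u - 8) * (u + 136) = 0 := by
    linear_combination (3 * b1 - 3 * b2 - (3 * w + 2 * u - 64) * a1)
  have h2 : u = 8 := by
    rcases mul_eq_zero.1 h1 with h | h
    · linear_combination h
    · exfalso
      have hu : u = -136 := by linear_combination h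
      have hw : w = -112 := by
        rw [hu] at a1
        linear_combination a1 / 3
      rw [hu, hw] at a3
      norm_num at a3
  have hw : w = -16 := by
    rw [h2] at a1
    linear_combination a1 / 3
  rw [hw] at b1 c1 c3
  refine ⟨?_, ?_, ?_⟩
  · rw [c1]; norm_num
  · rw [c2]
    have : c = 768 := by linear_combination -b1
    rw [this]
  · rw [c3]; norm_num

/-- The equation for the `u_k`. -/
theorem u2_eq (k : Option (Fin 2)) (τ : ℍ) : (u2 k τ + 16) ^ 3 = jj τ * u2 k τ := by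
  obtain ⟨h1, h2, h3⟩ := syms τ
  generalize ha : u2 none τ = a at *
  generalize hb : u2 (some 0) τ = b at *
  generalize hc : u2 (some 1) τ = c at *
  generalize jj τ = j at *
  have key : ∀ x : ℂ, (x - a) * (x - b) * (x - c) = (x + 16) ^ 3 - j * x := by
    intro x
    linear_combination (-x ^ 2) * h1 + x * h2 - h3
  cases k with
  | none =>
    rw [ha]
    have := key a
    linear_combination -this
  | some i =>
    fin_cases i
    · show (u2 (some 0) τ + 16) ^ 3 = j * u2 (some 0) τ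
      rw [hb]
      have := key b
      linear_combination -this
    · show (u2 (some 1) τ + 16) ^ 3 = j * u2 (some 1) τ
      rw [hc]
      have := key c
      linear_combination -this

end Pool.Agent.H882
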