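import Pool.Agent.H882.S2Cls
import Pool.Agent.H882.GenRes

/-!
The local and the global theorem for the supersingular annuli at two.
-/

set_option autoImplicit false

namespace Pool.Agent.H882

open UpperHalfPlane H294ZP Function Pool.Agent.N135.ZO NumberField IsDedekindDomain

/-- a place of `ℂ` above `v` with algebraically independent residues -/
theorem exists_V {K : Type} [Field K] [NumberField K] (σ : K →+* ℂ)
    (v : HeightOneSpectrum (𝓞 K)) {n : ℕ} (c l : Fin n → K) (hl : ∀ i, l i ≠ 0)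
    (x y : Fin n → ℂ) (hxy : ∀ i, x i = σ (c i) + σ (l i) * y i)
    (W : Finset (Fin n)) (hW : AlgebraicIndependent ℚ (fun i : W => x i)) :
    ∃ V : ValuationSubring ℂ, (∀ a : 𝓞 K, V.valuation (σ a) ≤ 1) ∧
      (∀ a : 𝓞 K, V.valuation (σ a) < 1 ↔ a ∈ v.asIdeal) ∧
      (∀ i ∈ W, y i ∈ V) ∧
      (∀ Q : MvPolynomial W (𝓞 K),
        V.valuation (MvPolynomial.eval₂ (σ.comp (algebraMap (𝓞 K) K)) (fun i : W => y i) Q) < 1 ↔
        MvPolynomial.map (Ideal.Quotient.mk v.asIdeal) Q = 0) := by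
  classical
  let _ : Algebra K ℂ := σ.toAlgebra
  let _ : Algebra (𝓞 K) ℂ := (σ.comp (algebraMap (𝓞 K) K)).toAlgebra
  have _ : IsScalarTower (𝓞 K) K ℂ := IsScalarTower.of_algebraMap_eq (fun _ => rfl)
  have hmap : ∀ a : 𝓞 K, algebraMap (𝓞 K) ℂ a = σ a := fun _ => rfl
  have hKx : AlgebraicIndependent K (fun i : W => x i) := hW.extendScalars K
  have hKy : AlgebraicIndependent K (fun i : W => y i) :=
    indep_affine (fun i : W => c i) (fun i : W => l i) (fun i => hl i)
      (fun i => by rw [hxy i]; rfl) hKx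
  have hOy : AlgebraicIndependent (𝓞 K) (fun i : W => y i) :=
    hKy.restrictScalars (RingOfIntegers.coe_injective)
  have hprime : v.asIdeal.IsPrime := v.isPrime
  obtain ⟨V, hV1, hV2⟩ := exists_place_gauss v.asIdeal (fun i : W => y i) hOy
  have hA1 : ∀ a : 𝓞 K, V.valuation (σ a) ≤ 1 := by
    intro a
    have := hV1 (MvPolynomial.C a)
    rwa [MvPolynomial.aeval_C] at this
  have hA2 : ∀ a : 𝓞 K, V.valuation (σ a) < 1 ↔ a ∈ v.asIdeal := by
    intro a
    have := hV2 (MvPolynomial.C a)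
    rw [MvPolynomial.aeval_C, hmap, MvPolynomial.map_C, MvPolynomial.C_eq_zero,
      Ideal.Quotient.eq_zero_iff_mem] at this
    exact this
  have hyW : ∀ i ∈ W, y i ∈ V := by
    intro i hi
    have := hV1 (MvPolynomial.X ⟨i, hi⟩)
    rw [MvPolynomial.aeval_X] at this
    exact (V.valuation_le_one_iff _).1 this
  exact ⟨V, hA1, hA2, hyW, fun Q => hV2 Q⟩

section Loc

variable {V : ValuationSubring ℂ}


/-- The local theorem. -/
theorem loc_two (ht : (V.valuation (2 : ℂ)) < 1) {n r : ℕ} (cusp : Option (Fin n)) (g : Fin n → V.ValueGroup)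
    (hg : ∀ i, cusp ≠ some i → (V.valuation (2 : ℂ)) ^ 8 < g i ∧ g i < (V.valuation (2 : ℂ)) ^ 4 ∧ g i ≠ (V.valuation (2 : ℂ)) ^ 6)
    (hne : ∀ i j, cusp ≠ some i → cusp ≠ some j → i ≠ j → g i ≠ g j ∧ g i * g j ≠ (V.valuation (2 : ℂ)) ^ 12)
    (Z : SpecialDatum n r) {x : Fin n → ℂ} (hx : x ∈ Z.locus) :
    n ≤ r + {i | ¬ ((cusp ≠ some i ∧ InS (V.valuation (2 : ℂ)) (g i) (V.valuation (x i))) ∨
        (cusp = some i ∧ 1 < V.valuation (x i)))}.ncard := by
  classical
  set Q : Fin n → Prop := fun i => (cusp ≠ some i ∧ InS (V.valuation (2 : ℂ)) (g i) (V.valuation (x i))) ∨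
        (cusp = some i ∧ 1 < V.valuation (x i)) with hQ
  change n ≤ r + {i | ¬ Q i}.ncard
  set J : Finset (Fin n) := Finset.univ.filter fun i => Q i with hJ
  have ht0 := t_ne V
  have hmem : ∀ i, cusp ≠ some i → InS (V.valuation (2 : ℂ)) (g i) (V.valuation (x i)) → x i ∈ V := by
    intro i hi hS
    exact (V.valuation_le_one_iff _).1 (hS.lt_one ht0 ht (hg i hi).1 (hg i hi).2.1).1.le
  have hcard : J.card ≤ r := by
    refine crit_card Z hx J ?_ ?_
    · intro i hi τ hτ hxi
      rw [hJ, Finset.mem_filter] at hi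
      rcases hi.2 with ⟨hc, hq⟩ | ⟨hc, hq⟩
      · rw [hxi] at hq
        exact cm_not_InS ht (hg i hc).1 (hg i hc).2.1 (hg i hc).2.2 hτ hq
      · rw [hxi] at hq
        have := mem_of_integral_int V (singular_modulus_integral τ hτ)
        rw [← V.valuation_le_one_iff] at this
        exact absurd hq (not_lt.2 this)
    · intro i hi j hj hij A w w' hA hrel hxi hxj
      rw [hJ, Finset.mem_filter] at hi hj
      rcases hi.2 with ⟨hc, hq⟩ | ⟨hc, hq⟩
      · rcases hj.2 with ⟨hc', hq'⟩ | ⟨hc', hq'⟩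
        · rw [hxi] at hq
          have h1 := S_closed ht (hg i hc).1 (hg i hc).2.1 hA hrel hq
          rw [← hxj] at h1
          have h2 := InS.unique ht0 ht (hg i hc).1 (hg i hc).2.1 (hg j hc').1 (hg j hc').2.1 h1 hq'
          rcases h2 with h2 | h2
          · exact (hne i j hc hc' hij).1 h2
          · exact (hne i j hc hc' hij).2 h2
        · have h2 := rel_mem hA hrel (hxi ▸ hmem i hc hq)
          rw [← hxj, ← V.valuation_le_one_iff] at h2
          exact absurd hq' (not_lt.2 h2)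
      · rcases hj.2 with ⟨hc', hq'⟩ | ⟨hc', hq'⟩
        · have h2 := rel_mem (M := A.adjugate) (by rw [det_adj]; exact hA) (rel_adj hrel)
            (hxj ▸ hmem j hc' hq')
          rw [← hxi, ← V.valuation_le_one_iff] at h2
          exact absurd hq (not_lt.2 h2)
        · rw [hc] at hc'
          exact hij (Option.some.inj hc')
  have e1 : {i | ¬ Q i}.ncard = (Finset.univ.filter fun i => ¬ Q i).card := by
    rw [← Set.ncard_coe_finset]
    congr 1
    ext i
    simp
  rw [e1]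
  have h := Finset.card_filter_add_card_filter_not (s := (Finset.univ : Finset (Fin n))) Q
  rw [Finset.card_univ, Fintype.card_fin] at h
  calc n = J.card + (Finset.univ.filter fun i => ¬ Q i).card := h.symm
    _ ≤ _ := Nat.add_le_add_right hcard _

end Loc

/-- The global theorem. -/
theorem glob_two {K : Type} [Field K] [NumberField K] (σ : K →+* ℂ)
    (v : HeightOneSpectrum (𝓞 K)) (h2v : (2 : 𝓞 K) ∈ v.asIdeal)
    {n : ℕ} (cusp : Option (Fin n)) (l : Fin n → K) (e : Fin n → ℕ)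
    (hcusp : ∀ i, cusp = some i → 1 < v.valuation K (l i))
    (hann : ∀ i, cusp ≠ some i → v.valuation K 2 ^ 8 < v.valuation K (l i) ^ (2 ^ e i) ∧
      v.valuation K (l i) ^ (2 ^ e i) < v.valuation K 2 ^ 4 ∧
      v.valuation K (l i) ^ (2 ^ e i) ≠ v.valuation K 2 ^ 6)
    (hpair : ∀ i j, cusp ≠ some i → cusp ≠ some j → i ≠ j →
      v.valuation K (l i) ^ (2 ^ e i) ≠ v.valuation K (l j) ^ (2 ^ e j) ∧
      v.valuation K (l i) ^ (2 ^ e i) * v.valuation K (l j) ^ (2 ^ e j) ≠ v.valuation K 2 ^ 12)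
    {T : Type} (F : T → MForm (𝓞 K) n) {m : ℕ} (hgen : GenPos v.asIdeal F m)
    {r : ℕ} (Z : SpecialDatum n r) {x : Fin n → ℂ} (hxZ : x ∈ Z.locus) (y : Fin n → ℂ)
    (hy : ∀ s, (F s).eval (σ.comp (algebraMap (𝓞 K) K)) y (fun _ => 1) = 0)
    (hxy : ∀ i, x i = σ (l i) * y i)
    (W : Finset (Fin n)) (hW : AlgebraicIndependent ℚ (fun i : W => x i)) :
    n + W.card ≤ m + r := by
  classical
  have hl0 : ∀ i, l i ≠ 0 := by
    intro i h0
    by_cases hc : cusp = some i
    · have := hcusp i hc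
      rw [h0, map_zero] at this
      exact absurd this (not_lt.2 zero_le)
    · have := (hann i hc).1
      rw [h0, map_zero, zero_pow (pow_pos (by norm_num) _).ne'] at this
      exact absurd this (not_lt.2 zero_le)
  obtain ⟨V, hA1, hA2, hyW, hV2⟩ := exists_V σ v (fun _ => 0) l hl0 x y
    (fun i => by rw [hxy i, map_zero, zero_add]) W hW
  have hcard := genpos_card v.asIdeal (σ.comp (algebraMap (𝓞 K) K)) V hA1
    (fun a ha => (hA2 a).2 ha) y W hyW hV2 F hy hgen
  have ht : V.valuation (2 : ℂ) < 1 := by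
    have := (hA2 (2 : 𝓞 K)).2 h2v
    have e : σ ((2 : 𝓞 K) : K) = 2 := by
      rw [show ((2 : 𝓞 K) : K) = 2 from rfl]
      exact map_ofNat σ 2
    rwa [e] at this
  have h2K : (2 : K) ≠ 0 := two_ne_zero
  have hσ2 : σ (2 : K) = 2 := map_ofNat σ 2
  have hlt : ∀ (a b : K), b ≠ 0 → v.valuation K a < v.valuation K b →
      V.valuation (σ a) < V.valuation (σ b) := fun a b hb h => val_pow_lt hA1 hA2 hb h
  have hneq : ∀ (a b : K), a ≠ 0 → b ≠ 0 → v.valuation K a ≠ v.valuation K b →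
      V.valuation (σ a) ≠ V.valuation (σ b) := fun a b ha hb h => val_ne hA1 hA2 ha hb h
  have hloc := loc_two ht cusp (fun i => V.valuation (σ (l i)) ^ (2 ^ e i)) (fun i hi => by
      obtain ⟨h1, h2, h3⟩ := hann i hi
      refine ⟨?_, ?_, ?_⟩
      · have := hlt (2 ^ 8) (l i ^ (2 ^ e i)) (pow_ne_zero _ (hl0 i)) (by
          rw [map_pow, map_pow]; exact h1)
        rwa [map_pow, map_pow, map_pow, map_pow, hσ2] at this
      · have := hlt (l i ^ (2 ^ e i)) (2 ^ 4) (pow_ne_zero _ h2K) (by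
          rw [map_pow, map_pow]; exact h2)
        rwa [map_pow, map_pow, map_pow, map_pow, hσ2] at this
      · have := hneq (l i ^ (2 ^ e i)) (2 ^ 6) (pow_ne_zero _ (hl0 i)) (pow_ne_zero _ h2K) (by
          rw [map_pow, map_pow]; exact h3)
        rwa [map_pow, map_pow, map_pow, map_pow, hσ2] at this) (fun i j hi hj hij => by
      obtain ⟨h1, h2⟩ := hpair i j hi hj hij
      refine ⟨?_, ?_⟩
      · have := hneq (l i ^ (2 ^ e i)) (l j ^ (2 ^ e j)) (pow_ne_zero _ (hl0 i))
          (pow_ne_zero _ (hl0 j)) (by rw [map_pow, map_pow]; exact h1)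
        rwa [map_pow, map_pow, map_pow, map_pow] at this
      · have := hneq (l i ^ (2 ^ e i) * l j ^ (2 ^ e j)) (2 ^ 12)
          (mul_ne_zero (pow_ne_zero _ (hl0 i)) (pow_ne_zero _ (hl0 j))) (pow_ne_zero _ h2K) (by
            rw [map_mul, map_pow, map_pow, map_pow]; exact h2)
        rwa [map_mul, map_mul, map_pow, map_pow, map_pow, map_pow, map_pow, map_pow, hσ2] at this)
      Z hxZ
  have hsub : {i | ¬ ((cusp ≠ some i ∧ InS (V.valuation (2 : ℂ))
        (V.valuation (σ (l i)) ^ (2 ^ e i)) (V.valuation (x i))) ∨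
        (cusp = some i ∧ 1 < V.valuation (x i)))} ⊆ {i | V.valuation (y i) ≠ 1} := by
    intro i hi hyi
    apply hi
    have hx1 : V.valuation (x i) = V.valuation (σ (l i)) := by
      rw [hxy i, map_mul, hyi, mul_one]
    by_cases hc : cusp = some i
    · right
      refine ⟨hc, ?_⟩
      rw [hx1]
      have := hlt 1 (l i) (hl0 i) (by rw [map_one]; exact hcusp i hc)
      rwa [map_one, map_one] at this
    · left
      refine ⟨hc, e i, Or.inl ?_⟩
      rw [hx1]
  have hle := Set.ncard_le_ncard hsub (Set.toFinite _)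
  omega

end Pool.Agent.H882
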