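import Pool.Agent.H882.S2Cubic

/-!
The valuations of the `j`-invariants in the supersingular disc at two, and isogenies.
-/

set_option autoImplicit false

namespace Pool.Agent.H882

open UpperHalfPlane H294ZP Function Pool.Agent.N135.ZO

section Solve

variable (V : ValuationSubring ℂ)


theorem val_16 : V.valuation (16 : ℂ) = (V.valuation (2 : ℂ)) ^ 4 := by
  rw [← map_pow]; norm_num

theorem val_256 : V.valuation (256 : ℂ) = (V.valuation (2 : ℂ)) ^ 8 := by
  rw [← map_pow]; norm_num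

theorem val_4096 : V.valuation (4096 : ℂ) = (V.valuation (2 : ℂ)) ^ 12 := by
  rw [← map_pow]; norm_num

theorem t_ne : (V.valuation (2 : ℂ)) ≠ 0 := by
  rw [Valuation.ne_zero_iff]; norm_num

variable {V}

theorem solve1_gt {u j : ℂ} (h : (u + 16) ^ 3 = j * u) (hu : (V.valuation (2 : ℂ)) ^ 4 < V.valuation u) :
    V.valuation u ^ 2 = V.valuation j := by
  have h1 : V.valuation (u + 16) = V.valuation u :=
    V.valuation.map_add_eq_of_lt_left (by rw [val_16]; exact hu)
  have h2 := congrArg V.valuation h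
  rw [map_pow, map_mul, h1] at h2
  have h0 : V.valuation u ≠ 0 := (lt_of_le_of_lt zero_le hu).ne'
  have h3 : V.valuation u ^ 2 * V.valuation u = V.valuation j * V.valuation u := by
    rw [← h2, ← pow_succ]
  exact mul_right_cancel₀ h0 h3

theorem solve1_lt {u j : ℂ} (h : (u + 16) ^ 3 = j * u) (hu : V.valuation u < (V.valuation (2 : ℂ)) ^ 4) :
    V.valuation j * V.valuation u = (V.valuation (2 : ℂ)) ^ 12 := by
  have h1 : V.valuation (u + 16) = (V.valuation (2 : ℂ)) ^ 4 := by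
    rw [← val_16]
    exact V.valuation.map_add_eq_of_lt_right (by rw [val_16]; exact hu)
  have h2 := congrArg V.valuation h
  rw [map_pow, map_mul, h1] at h2
  rw [← h2, ← pow_mul]

theorem solve1_eq {u j : ℂ} (h : (u + 16) ^ 3 = j * u) (hu : V.valuation u = (V.valuation (2 : ℂ)) ^ 4) :
    V.valuation j ≤ (V.valuation (2 : ℂ)) ^ 8 := by
  have h1 : V.valuation (u + 16) ≤ (V.valuation (2 : ℂ)) ^ 4 := by
    refine (Valuation.map_add _ _ _).trans (max_le hu.le ?_)
    rw [val_16]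
  have h2 := congrArg V.valuation h
  rw [map_pow, map_mul, hu] at h2
  have h0 : (V.valuation (2 : ℂ)) ^ 4 ≠ 0 := pow_ne_zero _ (t_ne V)
  have h3 : V.valuation j * (V.valuation (2 : ℂ)) ^ 4 ≤ (V.valuation (2 : ℂ)) ^ 8 * (V.valuation (2 : ℂ)) ^ 4 := by
    rw [← h2]
    calc _ ≤ ((V.valuation (2 : ℂ)) ^ 4) ^ 3 := pow_le_pow_left₀ zero_le h1 3
      _ = _ := by rw [← pow_mul, ← pow_add]
  exact (mul_le_mul_iff_left₀ (zero_lt_iff.2 h0)).1 h3

theorem solve2_gt {u j : ℂ} (h : (u + 256) ^ 3 = j * u ^ 2) (hu : (V.valuation (2 : ℂ)) ^ 8 < V.valuation u) :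
    V.valuation j = V.valuation u := by
  have h1 : V.valuation (u + 256) = V.valuation u :=
    V.valuation.map_add_eq_of_lt_left (by rw [val_256]; exact hu)
  have h2 := congrArg V.valuation h
  rw [map_pow, map_mul, map_pow, h1] at h2
  have h0 : V.valuation u ^ 2 ≠ 0 := pow_ne_zero _ (lt_of_le_of_lt zero_le hu).ne'
  have h3 : V.valuation j * V.valuation u ^ 2 = V.valuation u * V.valuation u ^ 2 := by
    rw [← h2, ← pow_succ']
  exact mul_right_cancel₀ h0 h3

theorem solve2_lt {u j : ℂ} (h : (u + 256) ^ 3 = j * u ^ 2) (hu : V.valuation u < (V.valuation (2 : ℂ)) ^ 8) :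
    V.valuation j * V.valuation u ^ 2 = (V.valuation (2 : ℂ)) ^ 24 := by
  have h1 : V.valuation (u + 256) = (V.valuation (2 : ℂ)) ^ 8 := by
    rw [← val_256]
    exact V.valuation.map_add_eq_of_lt_right (by rw [val_256]; exact hu)
  have h2 := congrArg V.valuation h
  rw [map_pow, map_mul, map_pow, h1] at h2
  rw [← h2, ← pow_mul]

theorem solve2_eq {u j : ℂ} (h : (u + 256) ^ 3 = j * u ^ 2) (hu : V.valuation u = (V.valuation (2 : ℂ)) ^ 8) :
    V.valuation j ≤ (V.valuation (2 : ℂ)) ^ 8 := by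
  have h1 : V.valuation (u + 256) ≤ (V.valuation (2 : ℂ)) ^ 8 := by
    refine (Valuation.map_add _ _ _).trans (max_le hu.le ?_)
    rw [val_256]
  have h2 := congrArg V.valuation h
  rw [map_pow, map_mul, map_pow, hu] at h2
  have h0 : ((V.valuation (2 : ℂ)) ^ 8) ^ 2 ≠ 0 := pow_ne_zero _ (pow_ne_zero _ (t_ne V))
  have h3 : V.valuation j * ((V.valuation (2 : ℂ)) ^ 8) ^ 2 ≤ (V.valuation (2 : ℂ)) ^ 8 * ((V.valuation (2 : ℂ)) ^ 8) ^ 2 := by
    rw [← h2]
    calc _ ≤ ((V.valuation (2 : ℂ)) ^ 8) ^ 3 := pow_le_pow_left₀ zero_le h1 3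
      _ = _ := by rw [← pow_mul, ← pow_mul, ← pow_add]
  exact (mul_le_mul_iff_left₀ (zero_lt_iff.2 h0)).1 h3

end Solve

/-- the equation for the `j`-invariant of the target -/
theorem u2_eq' (k : Option (Fin 2)) (τ : ℍ) :
    (u2 k τ + 256) ^ 3 = jj (hh (l := 2) (by norm_num) k τ) * u2 k τ ^ 2 := by
  set w := hh (l := 2) (by norm_num) k τ with hw
  have h1 := GG_adj (M := gk 2 k) (by rw [det_gk]; norm_num) (rel_hh (l := 2) (by norm_num) k τ)
  have hadj : 0 < (gk 2 k).adjugate.det := by rw [det_adj, det_gk]; norm_num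
  obtain ⟨k', C, -, hC0, hCd, hCr, hCG⟩ := exists_fac hadj Nat.prime_two
    (by rw [det_adj, det_gk]) (rel_adj (rel_hh (l := 2) (by norm_num) k τ))
  have hC1 : C.det = 1 := by
    rw [det_adj, det_gk] at hCd
    push_cast at hCd
    omega
  rw [GG_sl hC1 hCr, one_mul] at hCG
  rw [hCG, det_gk] at h1
  have h2 : u2 k' w * u2 k τ = 4096 := by
    have h3 : uu (l := 2) Nat.prime_two.pos k' (hh (l := 2) (by norm_num) k τ) *
      GG (gk 2 k) τ (hh (l := 2) (by norm_num) k τ) = (((2 : ℕ) : ℤ) : ℂ) ^ 12 := h1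
    have h4 : (((2 : ℕ) : ℤ) : ℂ) ^ 12 = 4096 := by norm_num
    rw [← h4, ← h3]
    rfl
  have h3 := u2_eq k' w
  have h4 : (4096 : ℂ) * ((u2 k τ + 256) ^ 3 - jj w * u2 k τ ^ 2) = 0 := by
    have h5 : (u2 k' w * u2 k τ + 16 * u2 k τ) ^ 3 = jj w * (u2 k' w * u2 k τ) * u2 k τ ^ 2 := by
      linear_combination (u2 k τ ^ 3) * h3
    rw [h2] at h5
    linear_combination h5
  have h5 := (mul_eq_zero.1 h4).resolve_left (by norm_num)
  linear_combination h5

section Step

variable {V : ValuationSubring ℂ}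


/-- the product of the values of the `u_k` -/
theorem val_prod (τ : ℍ) : V.valuation (u2 none τ) * (V.valuation (u2 (some 0) τ) *
    V.valuation (u2 (some 1) τ)) = (V.valuation (2 : ℂ)) ^ 12 := by
  have h := (syms τ).2.2
  rw [← map_mul, ← map_mul, h, Valuation.map_neg, val_4096]

/-- if `j` is not too supersingular, then one of the `u_k` is large -/
theorem exists_big {τ : ℍ} (hγ : (V.valuation (2 : ℂ)) ^ 8 < V.valuation (jj τ)) :
    ∃ k, (V.valuation (2 : ℂ)) ^ 4 < V.valuation (u2 k τ) := by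
  by_contra hcon
  push Not at hcon
  have hprod := val_prod (V := V) τ
  have hne : ∀ k, V.valuation (u2 k τ) ≠ (V.valuation (2 : ℂ)) ^ 4 := by
    intro k hk
    exact absurd (solve1_eq (u2_eq k τ) hk) (not_le.2 hγ)
  have hlt : ∀ k, V.valuation (u2 k τ) < (V.valuation (2 : ℂ)) ^ 4 := fun k => lt_of_le_of_ne (hcon k) (hne k)
  have h2 : V.valuation (u2 none τ) * (V.valuation (u2 (some 0) τ) *
    V.valuation (u2 (some 1) τ)) < (V.valuation (2 : ℂ)) ^ 4 * ((V.valuation (2 : ℂ)) ^ 4 * (V.valuation (2 : ℂ)) ^ 4) :=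
    mul_lt_mul'' (hlt _) (mul_lt_mul'' (hlt _) (hlt _) zero_le zero_le) zero_le zero_le
  rw [hprod] at h2
  have e : (V.valuation (2 : ℂ)) ^ 4 * ((V.valuation (2 : ℂ)) ^ 4 * (V.valuation (2 : ℂ)) ^ 4) = (V.valuation (2 : ℂ)) ^ 12 := by rw [← pow_add, ← pow_add]
  rw [e] at h2
  exact lt_irrefl _ h2

/-- isogenies of degree two -/
theorem step2 (ht : (V.valuation (2 : ℂ)) < 1) {τ : ℍ} (hγ : (V.valuation (2 : ℂ)) ^ 8 < V.valuation (jj τ)) (k : Option (Fin 2)) :
    V.valuation (jj (hh (l := 2) (by norm_num) k τ)) ^ 2 = V.valuation (jj τ) ∨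
    (V.valuation (jj (hh (l := 2) (by norm_num) k τ)) * V.valuation (jj τ) = (V.valuation (2 : ℂ)) ^ 12 ∧
      (V.valuation (2 : ℂ)) ^ 8 < V.valuation (jj (hh (l := 2) (by norm_num) k τ))) ∨
    (V.valuation (jj (hh (l := 2) (by norm_num) k τ)) = V.valuation (jj τ) ^ 2 ∧
      (V.valuation (2 : ℂ)) ^ 4 < V.valuation (jj τ)) ∨
    (V.valuation (jj τ) = (V.valuation (2 : ℂ)) ^ 4 ∧
      V.valuation (jj (hh (l := 2) (by norm_num) k τ)) ≤ (V.valuation (2 : ℂ)) ^ 8) := by
  have h1 := u2_eq k τ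
  have h2 := u2_eq' k τ
  have ht0 : 0 < (V.valuation (2 : ℂ)) := zero_lt_iff.2 (t_ne V)
  have s1 := fun h => solve2_gt (V := V) h2 h
  have s2 := fun h => solve2_lt (V := V) h2 h
  have s3 := fun h => solve2_eq (V := V) h2 h
  generalize V.valuation (jj (hh (l := 2) (by norm_num) k τ)) = γ' at *
  rcases lt_trichotomy (V.valuation (u2 k τ)) ((V.valuation (2 : ℂ)) ^ 4) with h | h | h
  · have h3 := solve1_lt h1 h
    have hγ0 : V.valuation (jj τ) ≠ 0 := (lt_of_le_of_lt zero_le hγ).ne'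
    have hu0 : V.valuation (u2 k τ) ≠ 0 := by
      intro h0
      rw [h0, mul_zero] at h3
      exact pow_ne_zero _ (t_ne V) h3.symm
    rcases lt_trichotomy (V.valuation (u2 k τ)) ((V.valuation (2 : ℂ)) ^ 8) with h' | h' | h'
    · right; right; left
      have h4 := s2 h'
      constructor
      · have h5 : γ' * V.valuation (u2 k τ) ^ 2 =
            V.valuation (jj τ) ^ 2 * V.valuation (u2 k τ) ^ 2 := by
          rw [h4, ← mul_pow, h3, ← pow_mul]
        exact mul_right_cancel₀ (pow_ne_zero _ hu0) h5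
      · by_contra hcon
        rw [not_lt] at hcon
        have h5 : V.valuation (jj τ) * V.valuation (u2 k τ) < (V.valuation (2 : ℂ)) ^ 4 * (V.valuation (2 : ℂ)) ^ 8 := by
          calc _ < V.valuation (jj τ) * (V.valuation (2 : ℂ)) ^ 8 := by
                exact mul_lt_mul_of_pos_left h' (zero_lt_iff.2 hγ0)
            _ ≤ _ := mul_le_mul_left hcon _
        rw [h3] at h5
        have e : (V.valuation (2 : ℂ)) ^ 4 * (V.valuation (2 : ℂ)) ^ 8 = (V.valuation (2 : ℂ)) ^ 12 := by rw [← pow_add]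
        rw [e] at h5
        exact lt_irrefl _ h5
    · right; right; right
      have h4 := s3 h'
      refine ⟨?_, h4⟩
      rw [h'] at h3
      have h5 : V.valuation (jj τ) * (V.valuation (2 : ℂ)) ^ 8 = (V.valuation (2 : ℂ)) ^ 4 * (V.valuation (2 : ℂ)) ^ 8 := by rw [h3, ← pow_add]
      exact mul_right_cancel₀ (pow_ne_zero _ (t_ne V)) h5
    · right; left
      have h4 := s1 h'
      refine ⟨?_, ?_⟩
      · rw [h4, mul_comm]; exact h3
      · rw [h4]; exact h'
  · exact absurd (solve1_eq h1 h) (not_le.2 hγ)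
  · left
    have h3 := solve1_gt h1 h
    have h5 : (V.valuation (2 : ℂ)) ^ 8 < V.valuation (u2 k τ) :=
      lt_trans (pow_lt_pow_right_of_lt_one₀ ht0 ht (by norm_num)) h
    have h4 := s1 h5
    rw [h4]; exact h3

/-- isogenies of odd degree -/
theorem step_odd {M : M2} (hM : 0 < M.det) (hv : V.valuation (M.det : ℂ) = 1) {τ w : ℍ}
    (h : N135.ZO.Rel M τ w) (hτ : jj τ ∈ V) (hγ : (V.valuation (2 : ℂ)) ^ 8 < V.valuation (jj τ)) :
    V.valuation (jj w) = V.valuation (jj τ) := by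
  obtain ⟨k, hk⟩ := exists_big hγ
  have h1 := solve1_gt (u2_eq k τ) hk
  -- the element `k'` with `g_{k'} M = C g_k`; we use the adjugate
  have hadj := rel_adj h
  have hdadj : 0 < M.adjugate.det := by rw [det_adj]; exact hM
  have r := hadj.mul (rel_hh (l := 2) (by norm_num) k τ)
  have hdet : (gk 2 k * M.adjugate).det = 2 * M.det := by
    rw [det_mul', det_gk, det_adj]; rfl
  obtain ⟨k', C, -, hC0, hCd, hCr, hCG⟩ := exists_fac (M := gk 2 k * M.adjugate)
    (by rw [hdet]; omega) Nat.prime_two (by rw [hdet]; exact dvd_mul_right _ _) r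
  have hCd' : C.det = M.det := by
    rw [hdet] at hCd
    push_cast at hCd
    omega
  have hw := rel_mem hM h hτ
  have h2 := GG_mul (A := gk 2 k) (B := M.adjugate) (by rw [det_gk]; norm_num) hdadj
    (z := hh (l := 2) (by norm_num) k τ) hadj
  rw [h2] at hCG
  have h3 : V.valuation (u2 k τ) = V.valuation (u2 k' w) := by
    have h4 := congrArg V.valuation hCG
    have hτ' := hτ
    rw [map_mul, map_mul, GG_unit hdadj (by rw [det_adj]; exact hv) hadj hw, mul_one] at h4
    have hmem : jj (hh Nat.prime_two.pos k' w) ∈ V :=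
      rel_mem (M := gk 2 k') (by rw [det_gk]; norm_num) (rel_hh Nat.prime_two.pos k' w) hw
    rw [GG_unit hC0 (by rw [hCd']; exact hv) hCr hmem, one_mul] at h4
    exact h4
  rw [h3] at hk
  rw [← solve1_gt (u2_eq k' w) hk, ← h3, h1]

end Step

end Pool.Agent.H882
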