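import Pool.Agent.H882.CenE

/-!
The residue classes which are reached by the isogeny class of a complex number.
-/

set_option autoImplicit false

namespace Pool.Agent.H882

open UpperHalfPlane H294ZP Function Pool.Agent.N135.ZO NumberField IsDedekindDomain
open Pool.Agent.Y226

/-- Everything about one prime, for isogeny classes. -/
theorem sigma_data {p : ℕ} (hp : p.Prime) (hp3 : 3 < p) :
    ∃ (e0 : Finset (ZMod p)) (Γ : ZMod p → Set ℂ) (bu : ℂ → Finset (ZMod p)),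
      (∀ a, (Γ a).Subsingleton ∧ ∀ z ∈ Γ a, ∃ τ : ℍ, IsCM τ ∧ jj τ = z) ∧
      (∀ z a b, z ∈ Γ a → z ∈ Γ b → a = b) ∧
      (∀ H : ℕ, (∀ a, (SM p a).ncard ≤ H) → e0.card ≤ H + 2 ∧ ∀ u, (bu u).card ≤ 18 * H) ∧
      ∀ (n : ℕ) (K : Type) [Field K] [NumberField K] (σ : K →+* ℂ) (m : ℕ) (y : Fin n → ℂ),
        (∀ J : Finset (Fin n), J.card = m + 1 → ∃ (F : MvPolynomial (Fin n) K) (d : Fin n →₀ ℕ),
          (∀ u ∈ F.support, u ≤ d) ∧ d.support ⊆ J ∧ F.coeff d ≠ 0 ∧
          (∀ u, PI p (F.coeff u)) ∧ PI p (F.coeff d)⁻¹ ∧ MvPolynomial.eval₂ σ y F = 0) →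
        ∀ (s : Fin n → ℤ) (lam : Fin n → 𝓞 K), (∀ i, (p : 𝓞 K) ∣ lam i) → ∀ (x : Fin n → ℂ),
        (∀ i, x i = (s i : ℂ) + σ (lam i) * y i) → ∀ (I : Finset (Fin n)),
        (∀ i ∈ I, (s i : ZMod p) ∉ e0 ∧ (((∃ τ : ℍ, IsCM τ ∧ jj τ = x i) ∧ x i ∉ Γ (s i)) ∨
          ∃ u, Isog u (x i) ∧ (s i : ZMod p) ∉ bu u)) → I.card ≤ m := by
  classical
  have hpf : Fact p.Prime := ⟨hp⟩
  have hp2 : p ≠ 2 := by omega
  obtain ⟨C, _, _, _, _, _, φ₀, hpC⟩ := exists_padic p
  have hp1 : ‖(p : C)‖ < 1 := by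
    rw [hpC]
    exact inv_lt_one_of_one_lt₀ (by exact_mod_cast hp.one_lt)
  have hp0 : 0 < ‖(p : C)‖ := by
    rw [hpC]
    exact inv_pos.2 (by exact_mod_cast hp.pos)
  have hpQ : 1 < ‖φ₀ ((p : QA)⁻¹)‖ := by
    rw [map_inv₀, map_natCast, norm_inv]
    exact (one_lt_inv₀ hp0).2 hp1
  obtain ⟨Ψ, -, -⟩ := exists_ext φ₀ ((p : QA)⁻¹) hpQ (fun i : Empty => (0 : ℂ))
    (by
      rw [algebraicIndependent_empty_type_iff]
      exact (algebraMap QA ℂ).injective) 0
  choose t M hM hrel hnear using fun a : ZMod p => exists_root hp hp2 hp1 Ψ (a.val : ℤ)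
  obtain ⟨P⟩ := exists_pkg hp hp2
  have hpV : (VF Ψ).valuation (p : ℂ) < 1 := by
    rw [VF_lt_one, map_natCast]
    exact hp1
  -- integers
  have hval : ∀ (s : ℤ), (p : ℤ) ∣ s - ((s : ZMod p).val : ℤ) := by
    intro s
    rw [← ZMod.intCast_zmod_eq_zero_iff_dvd]
    push_cast
    rw [ZMod.natCast_zmod_val, sub_self]
  have heq : ∀ a b : ZMod p, ‖((a.val : ℤ) : C) - ((b.val : ℤ) : C)‖ < 1 → a = b := by
    intro a b h
    rw [← Int.cast_sub] at h
    have h1 := dvd_of_norm hp hp1 h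
    rw [← ZMod.intCast_zmod_eq_zero_iff_dvd] at h1
    push_cast at h1
    rw [ZMod.natCast_zmod_val, ZMod.natCast_zmod_val] at h1
    exact sub_eq_zero.1 h1
  have hinj : ∀ a b : ZMod p, jj (t a) = jj (t b) → a = b := by
    intro a b h
    apply heq
    have e : ((a.val : ℤ) : C) - ((b.val : ℤ) : C) = -(Ψ (jj (t a)) - ((a.val : ℤ) : C)) +
        (Ψ (jj (t b)) - ((b.val : ℤ) : C)) := by
      rw [h]
      ring
    rw [e]
    refine nadd_lt ?_ (hnear b)
    rw [norm_neg]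
    exact hnear a
  have hunit : ∀ (a : ZMod p) (k : ℤ), a ≠ (k : ZMod p) → ‖Ψ (jj (t a)) - (k : C)‖ = 1 := by
    intro a k hak
    refine le_antisymm ?_ ?_
    · refine nsub_le ?_ (IsUltrametricDist.norm_intCast_le_one C k)
      exact norm_le_one_of_isIntegral Ψ (singular_modulus_integral _ (isCM_of_fix hp (hM a) (hrel a)))
    · by_contra hcon
      push Not at hcon
      have h1 : ‖(((a.val : ℤ) - k : ℤ) : C)‖ < 1 := by
        have e : (((a.val : ℤ) - k : ℤ) : C) = -(Ψ (jj (t a)) - ((a.val : ℤ) : C)) +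
            (Ψ (jj (t a)) - (k : C)) := by
          push_cast
          ring
        rw [e]
        refine nadd_lt ?_ hcon
        rw [norm_neg]
        exact hnear a
      have h2 := dvd_of_norm hp hp1 h1
      rw [← ZMod.intCast_zmod_eq_zero_iff_dvd] at h2
      push_cast at h2
      rw [ZMod.natCast_zmod_val] at h2
      exact hak (sub_eq_zero.1 h2)
  have hn0 : ∀ a : ZMod p, a ≠ 0 → ‖Ψ (jj (t a))‖ = 1 := by
    intro a ha
    have := hunit a 0 (by simpa using ha)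
    simpa using this
  have hn1 : ∀ a : ZMod p, a ≠ 1728 → ‖Ψ (jj (t a) - 1728)‖ = 1 := by
    intro a ha
    have h1 := hunit a 1728 (by simpa using ha)
    have e : Ψ (jj (t a) - 1728) = Ψ (jj (t a)) - ((1728 : ℤ) : C) := by
      rw [map_sub]
      congr 1
      have := map_ofNat Ψ 1728
      simpa using this
    rw [e]
    exact h1
  -- the exceptional classes
  set e0 : Finset (ZMod p) := Finset.univ.filter fun a => (M a).trace = 0 ∨ a = 0 ∨ a = 1728 with he0
  set Γ : ZMod p → Set ℂ := fun a => {z | a ∉ e0 ∧ (∃ τ : ℍ, IsCM τ ∧ jj τ = z) ∧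
    ‖Ψ z - ((a.val : ℤ) : C)‖ ≤ ‖(p : C)‖} with hΓ
  set bu : ℂ → Finset (ZMod p) := fun u => Finset.univ.filter fun a => a ∉ e0 ∧
    ∃ x, Isog u x ∧ ‖Ψ x - ((a.val : ℤ) : C)‖ < 1 with hbu
  have hgood : ∀ a, a ∉ e0 → (M a).trace ≠ 0 ∧ a ≠ 0 ∧ a ≠ 1728 := by
    intro a ha
    rw [he0, Finset.mem_filter] at ha
    push Not at ha
    exact ha (Finset.mem_univ a)
  have hG0 : ∀ a, a ∉ e0 → G0 P (VF Ψ) (jj (t a)) := by
    intro a ha
    obtain ⟨h1, h2, h3⟩ := hgood a ha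
    exact G0_of hp hp1 P Ψ (ordAt_of_trace hp hp3 (hM a) (hrel a) h1) (hn0 a h2) (hn1 a h3)
  refine ⟨e0, Γ, bu, fun a => ⟨?_, ?_⟩, ?_, ?_, ?_⟩
  · rintro z ⟨ha, ⟨τ, hτ, rfl⟩, hz⟩ z' ⟨-, ⟨τ', hτ', rfl⟩, hz'⟩
    have hrad : ∀ {u : C}, ‖u‖ ≤ ‖(p : C)‖ → ‖u‖ ^ (p - 1) < ‖(p : C)‖ := by
      intro u hu
      calc ‖u‖ ^ (p - 1) ≤ ‖(p : C)‖ ^ (p - 1) := pow_le_pow_left₀ (norm_nonneg _) hu _
        _ < ‖(p : C)‖ ^ 1 := pow_lt_pow_right_of_lt_one₀ hp0 hp1 (by omega)
        _ = _ := pow_one _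
    refine cm_unique hp hp2 hp1 P hτ hτ' (hG0 a ha) (s := ((a.val : ℤ) : C)) ?_ (hrad hz)
      (hrad hz')
    rw [← norm_neg, neg_sub]
    exact hnear a
  · rintro z ⟨-, h, -⟩
    exact h
  · rintro z a b ⟨-, -, h1⟩ ⟨-, -, h2⟩
    apply heq
    have e : ((a.val : ℤ) : C) - ((b.val : ℤ) : C) = -(Ψ z - ((a.val : ℤ) : C)) +
        (Ψ z - ((b.val : ℤ) : C)) := by ring
    rw [e]
    refine nadd_lt ?_ (h2.trans_lt hp1)
    rw [norm_neg]
    exact h1.trans_lt hp1
  · intro H hH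
    refine ⟨?_, fun u => ?_⟩
    · have h1 : e0 ⊆ (Finset.univ.filter fun a => (M a).trace = 0) ∪ {0, 1728} := by
        intro a ha
        rw [he0, Finset.mem_filter] at ha
        rw [Finset.mem_union, Finset.mem_filter, Finset.mem_insert, Finset.mem_singleton]
        rcases ha.2 with h | h | h
        · exact Or.inl ⟨Finset.mem_univ a, h⟩
        · exact Or.inr (Or.inl h)
        · exact Or.inr (Or.inr h)
      refine (Finset.card_le_card h1).trans ((Finset.card_union_le _ _).trans ?_)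
      refine Nat.add_le_add ?_ Finset.card_le_two
      refine le_trans ?_ (hH 0)
      rw [← Set.ncard_coe_finset]
      refine Set.ncard_le_ncard_of_injOn (fun a => jj (t a)) ?_ ?_ (SM_card hp 0).1
      · intro a ha
        rw [Finset.mem_coe, Finset.mem_filter] at ha
        exact ⟨t a, M a, hM a, ha.2, hrel a, rfl⟩
      · intro a _ b _ h
        exact hinj a b h
    · rcases (bu u).eq_empty_or_nonempty with he | ⟨a, ha⟩
      · rw [he, Finset.card_empty]
        exact Nat.zero_le _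
      · obtain ⟨F, hF1, hF2⟩ := few_traces hp (M a).trace
        have hiso : ∀ b ∈ bu u, Isog (jj (t a)) (jj (t b)) := by
          intro b hb
          obtain ⟨-, ha0, x, hux, hx⟩ := Finset.mem_filter.1 ha
          obtain ⟨-, hb0, x', hux', hx'⟩ := Finset.mem_filter.1 hb
          obtain ⟨A, w, w', hA, hAw, hw, hw'⟩ := hux.symm.trans hux'
          have hnr : ∀ (c : ZMod p) (v : ℍ), ‖Ψ (jj v) - ((c.val : ℤ) : C)‖ < 1 →
              (VF Ψ).valuation (jj v - jj (t c)) < 1 := by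
            intro c v hv
            rw [VF_lt_one, map_sub]
            have e : Ψ (jj v) - Ψ (jj (t c)) = (Ψ (jj v) - ((c.val : ℤ) : C)) +
                -(Ψ (jj (t c)) - ((c.val : ℤ) : C)) := by ring
            rw [e]
            refine nadd_lt hv ?_
            rw [norm_neg]
            exact hnear c
          refine near_isog hp hp2 hpV P (isCM_of_fix hp (hM a) (hrel a))
            (isCM_of_fix hp (hM b) (hrel b)) (hG0 a ha0) (hG0 b hb0) hA hAw ?_ ?_
          · refine hnr a w ?_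
            rw [hw]
            exact hx
          · refine hnr b w' ?_
            rw [hw']
            exact hx'
        have h1 : (bu u).card ≤ (⋃ a' ∈ F, SM p a').ncard := by
          rw [← Set.ncard_coe_finset]
          refine Set.ncard_le_ncard_of_injOn (fun b => jj (t b)) ?_ ?_
            (Set.Finite.biUnion (Finset.finite_toSet _) fun a' _ => (SM_card hp a').1)
          · intro b hb
            rw [Finset.mem_coe] at hb
            have hz : jj (t a) ∈ SM p (M a).trace := ⟨t a, M a, hM a, rfl, hrel a, rfl⟩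
            have hz' : jj (t b) ∈ SM p (M b).trace := ⟨t b, M b, hM b, rfl, hrel b, rfl⟩
            refine Set.mem_iUnion₂.2 ⟨(M b).trace, ?_, hz'⟩
            exact hF2 _ (trace_sq_lt hp (hM a) (hrel a)) (trace_sq_lt hp (hM b) (hrel b))
              (sq_of_isog hp hz hz' (hiso b hb))
          · intro b _ b' _ h
            exact hinj b b' h
        refine h1.trans ((Finset.set_ncard_biUnion_le F _).trans ?_)
        calc ∑ a' ∈ F, (SM p a').ncard ≤ ∑ a' ∈ F, H := Finset.sum_le_sum fun a' _ => hH a'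
          _ = F.card * H := by rw [Finset.sum_const, smul_eq_mul]
          _ ≤ 18 * H := Nat.mul_le_mul_right _ hF1
  · intro n K _ _ σ m y hG s lam hlam x hxy I hI
    have hUm : (Finset.univ.filter fun i => 1 < ‖Ψ (y i)‖).card ≤ m := by
      refine big_card σ Ψ y fun J hJ => ?_
      obtain ⟨F, d, h1, h2, h3, h4, h5, h6⟩ := hG J hJ
      refine ⟨F, d, h1, h2, h3, fun u => ?_, h6⟩
      have e1 : ‖Ψ (σ (F.coeff u))‖ ≤ 1 := norm_of_PI hp hp1 (Ψ.comp σ) (h4 u)
      have e2 : ‖Ψ (σ (F.coeff d)⁻¹)‖ ≤ 1 := norm_of_PI hp hp1 (Ψ.comp σ) h5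
      rw [map_inv₀, map_inv₀, norm_inv] at e2
      have e3 : 0 < ‖Ψ (σ (F.coeff d))‖ :=
        norm_pos_iff.2 ((map_ne_zero Ψ).2 ((map_ne_zero σ).2 h3))
      exact e1.trans ((inv_le_one₀ e3).1 e2)
    refine (Finset.card_le_card fun i hi => ?_).trans hUm
    rw [Finset.mem_filter]
    refine ⟨Finset.mem_univ i, ?_⟩
    by_contra hcon
    push Not at hcon
    obtain ⟨hi0, hi1⟩ := hI i hi
    have hle : ‖Ψ (x i) - (s i : C)‖ ≤ ‖(p : C)‖ := by
      rw [hxy i, map_add, map_mul, map_intCast, add_sub_cancel_left]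
      refine nmul_le' ?_ hcon
      obtain ⟨μ, hμ⟩ := hlam i
      rw [hμ]
      push_cast
      rw [map_mul, map_mul, norm_mul, map_natCast, map_natCast]
      have e1 : ‖Ψ (σ (μ : K))‖ ≤ 1 := norm_le_one_of_isIntegral Ψ
        ((RingOfIntegers.isIntegral_coe μ).map σ.toIntAlgHom)
      calc _ ≤ ‖(p : C)‖ * 1 := mul_le_mul_of_nonneg_left e1 (norm_nonneg _)
        _ = _ := mul_one _
    have hle' : ‖Ψ (x i) - (((s i : ZMod p).val : ℤ) : C)‖ ≤ ‖(p : C)‖ := by
      have e : Ψ (x i) - (((s i : ZMod p).val : ℤ) : C) = (Ψ (x i) - (s i : C)) -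
          -((s i - ((s i : ZMod p).val : ℤ) : ℤ) : C) := by
        push_cast
        ring
      rw [e]
      refine nsub_le hle ?_
      rw [norm_neg]
      exact norm_le_p (hval (s i))
    rcases hi1 with ⟨h1, h2⟩ | ⟨u, h1, h2⟩
    · exact h2 ⟨hi0, h1, hle'⟩
    · exact h2 (Finset.mem_filter.2 ⟨Finset.mem_univ _, hi0, x i, h1, hle'.trans_lt hp1⟩)

end Pool.Agent.H882
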