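import Pool.Agent.H882.CenCount

/-!
One set of density zero for increasing families of exceptional classes.
-/

set_option autoImplicit false

namespace Pool.Agent.H882

theorem PP_mono {n : ℕ} {Z : Type} {E E' : ∀ p : ℕ, Set (Fin n → ZMod p)}
    {Γ : ∀ p : ℕ, ZMod p → Set Z} {B : ℕ} (hE : ∀ p, E p ⊆ E' p) {s : Fin n → ℤ} {t : ℕ}
    (h : PP E' Γ B s t) : PP E Γ B s t := by
  obtain ⟨f, h1, h2, h3⟩ := h
  refine ⟨f, h1, fun l => ?_, h3⟩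
  obtain ⟨a1, a2, a3, a4, a5⟩ := h2 l
  exact ⟨a1, a2, a3, a4, fun h => a5 (hE _ h)⟩

/-- One set of density zero outside which there are common good primes. -/
theorem null_fam {n : ℕ} {Z : Type} (E : ℕ → ∀ p : ℕ, Set (Fin n → ZMod p))
    (hmono : ∀ B B' p, B ≤ B' → E B p ⊆ E B' p)
    (Γ : ∀ p : ℕ, ZMod p → Set Z)
    (hE : ∀ k, ∀ η : ℝ, 0 < η → ∃ B : ℕ, ∀ p, p.Prime → B < p →
      ((E k p).ncard : ℝ) ≤ η * (p : ℝ) ^ n)
    (hΓ1 : ∀ p, p.Prime → 3 < p → ∀ a, (Γ p a).Subsingleton)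
    (hΓ2 : ∀ p, p.Prime → 3 < p → ∀ a b z, z ∈ Γ p a → z ∈ Γ p b → a = b) :
    ∃ N : Set ((Fin n → ℤ) × ℕ), (∀ ε : ℝ, 0 < ε → ∃ H₀ : ℕ, ∀ H : ℕ, H₀ ≤ H →
      ({q : (Fin n → ℤ) × ℕ | q ∈ N ∧ (∀ i, |q.1 i| ≤ (H : ℤ)) ∧ q.2 ≤ H}.ncard : ℝ) ≤
        ε * (H : ℝ) ^ (n + 1)) ∧
      ∀ B : ℕ, ∃ T : ℕ, ∀ (s : Fin n → ℤ) (t : ℕ), 0 < t → (T ≤ t ∨ ∃ i, (T : ℤ) ≤ |s i|) →
        (s, t) ∉ N → PP (E B) Γ B s t := by
  classical
  let ht : (Fin n → ℤ) × ℕ → ℕ := fun q => max (q.2 + 1) (Finset.univ.sup fun i => (q.1 i).natAbs)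
  have hle : ∀ (q : (Fin n → ℤ) × ℕ) (H : ℕ), ht q ≤ H ↔
      (∀ i, |q.1 i| ≤ (H : ℤ)) ∧ q.2 + 1 ≤ H := by
    intro q H
    show max _ _ ≤ H ↔ _
    rw [max_le_iff, Finset.sup_le_iff, and_comm]
    refine and_congr ⟨fun h i => ?_, fun h i _ => ?_⟩ Iff.rfl
    · have := h i (Finset.mem_univ i)
      rw [Int.abs_eq_natAbs]
      exact_mod_cast this
    · have := h i
      rw [Int.abs_eq_natAbs] at this
      exact_mod_cast this
  have hsub : ∀ H : ℕ, {q | ht q ≤ H} ⊆ ((bx n H ×ˢ Finset.range H :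
      Finset ((Fin n → ℤ) × ℕ)) : Set ((Fin n → ℤ) × ℕ)) := by
    intro H q hq
    obtain ⟨h1, h2⟩ := (hle q H).1 hq
    rw [Finset.mem_coe, Finset.mem_product]
    exact ⟨mem_bx.2 h1, Finset.mem_range.2 h2⟩
  obtain ⟨N, hN1, hN2⟩ := exists_null2 ht (d := n + 1) (Nat.succ_ne_zero n) (c := 3 ^ n)
    (by positivity) (fun H => (Finset.finite_toSet _).subset (hsub H))
    (fun H hH => by
      have h1 := Set.ncard_le_ncard (hsub H) (Finset.finite_toSet _)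
      rw [Set.ncard_coe_finset, Finset.card_product, Finset.card_range] at h1
      have h2 : ({q | ht q ≤ H}.ncard : ℝ) ≤ (bx n H).card * H := by exact_mod_cast h1
      refine h2.trans ?_
      calc ((bx n H).card : ℝ) * H ≤ (3 * H) ^ n * H :=
            mul_le_mul_of_nonneg_right (card_bx hH) (Nat.cast_nonneg _)
        _ = 3 ^ n * (H : ℝ) ^ (n + 1) := by
            rw [mul_pow, pow_succ]
            ring)
    (fun q => (Nat.succ_le_succ (Nat.zero_le _)).trans (le_max_left _ _))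
    (fun B q => PP (E B) Γ B q.1 (q.2 + 1)) (fun B B' q hB h =>
      PP_mono (fun p => hmono B B' p hB) (PP_anti hB h))
    (fun B ε hε => by
      obtain ⟨H₀, hH₀⟩ := count_cen (E B) Γ (hE B) hΓ1 hΓ2 B hε
      refine ⟨H₀, fun H hH => ?_⟩
      have h1 := hH₀ H hH
      have e : {q | ht q ≤ H ∧ ¬ PP (E B) Γ B q.1 (q.2 + 1)} =
          {q : (Fin n → ℤ) × ℕ | (∀ i, |q.1 i| ≤ (H : ℤ)) ∧ q.2 + 1 ≤ H ∧
            ¬ PP (E B) Γ B q.1 (q.2 + 1)} := by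
        ext q
        show ht q ≤ H ∧ _ ↔ _ ∧ _ ∧ _
        rw [hle, and_assoc]
      rw [e]
      exact h1)
  refine ⟨{q | 0 < q.2 ∧ (q.1, q.2 - 1) ∈ N}, fun ε hε => ?_, fun B => ?_⟩
  · obtain ⟨H₀, hH₀⟩ := hN1 ε hε
    refine ⟨H₀, fun H hH => ?_⟩
    refine le_trans ?_ (hH₀ H hH)
    have h1 : {q : (Fin n → ℤ) × ℕ | q ∈ {q : (Fin n → ℤ) × ℕ | 0 < q.2 ∧ (q.1, q.2 - 1) ∈ N} ∧
        (∀ i, |q.1 i| ≤ (H : ℤ)) ∧ q.2 ≤ H} ⊆
        (fun q : (Fin n → ℤ) × ℕ => (q.1, q.2 + 1)) '' {q | q ∈ N ∧ ht q ≤ H} := by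
      rintro ⟨s, t⟩ ⟨⟨h1, h2⟩, h3, h4⟩
      have h1' : 0 < t := h1
      have h4' : t ≤ H := h4
      have e : t - 1 + 1 = t := Nat.sub_add_cancel h1'
      refine ⟨(s, t - 1), ⟨h2, (hle _ _).2 ⟨h3, ?_⟩⟩, ?_⟩
      · show t - 1 + 1 ≤ H
        omega
      · show (s, t - 1 + 1) = (s, t)
        rw [e]
    have hfin : {q | q ∈ N ∧ ht q ≤ H}.Finite :=
      ((Finset.finite_toSet _).subset (hsub H)).subset fun q hq => hq.2
    exact_mod_cast (Set.ncard_le_ncard h1 (hfin.image _)).trans (Set.ncard_image_le hfin)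
  · obtain ⟨T, hT⟩ := hN2 B
    refine ⟨T, fun s t ht0 hTt hst => ?_⟩
    have e : t - 1 + 1 = t := Nat.sub_add_cancel ht0
    have h1 := hT (s, t - 1) ?_ ?_
    · have h2 : PP (E B) Γ B s (t - 1 + 1) := h1
      rw [e] at h2
      exact h2
    · show T ≤ max (t - 1 + 1) _
      rw [e]
      rcases hTt with h | ⟨i, hi⟩
      · exact h.trans (le_max_left _ _)
      · refine le_trans ?_ (le_max_right _ _)
        have h3 : T ≤ (s i).natAbs := by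
          rw [Int.abs_eq_natAbs] at hi
          exact_mod_cast hi
        exact h3.trans (Finset.le_sup (f := fun i => (s i).natAbs) (Finset.mem_univ i))
    · intro h
      exact hst ⟨ht0, h⟩

end Pool.Agent.H882
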