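import Pool.Agent.H882.SigLoc
import Pool.Agent.H882.SigNull
import Pool.Agent.H882.CenRes

/-!
The exceptional residue classes for all primes, for isogeny classes.
-/

set_option autoImplicit false

namespace Pool.Agent.H882

open UpperHalfPlane H294ZP Function Pool.Agent.N135.ZO NumberField IsDedekindDomain
open Pool.Agent.Y226

theorem card_coord {n p : ℕ} [NeZero p] (e : Finset (ZMod p)) :
    {s : Fin n → ZMod p | ∃ i, s i ∈ e}.ncard ≤ n * e.card * p ^ (n - 1) := by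
  classical
  have h1 : {s : Fin n → ZMod p | ∃ i, s i ∈ e} ⊆ (((Finset.univ : Finset (Fin n)).biUnion fun i =>
        Finset.univ.filter fun s : Fin n → ZMod p => s i ∈ e : Finset (Fin n → ZMod p)) :
          Set (Fin n → ZMod p)) := by
    rintro s ⟨i, hi⟩
    rw [Finset.mem_coe, Finset.mem_biUnion]
    exact ⟨i, Finset.mem_univ i, Finset.mem_filter.2 ⟨Finset.mem_univ s, hi⟩⟩
  refine (Set.ncard_le_ncard h1 (Finset.finite_toSet _)).trans ?_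
  rw [Set.ncard_coe_finset]
  refine (Finset.card_biUnion_le).trans ?_
  calc _ ≤ ∑ i : Fin n, e.card * p ^ (n - 1) := Finset.sum_le_sum fun i _ =>
        count_coord i (fun _ => e) (fun _ _ => rfl) e.card fun _ => le_rfl
    _ = _ := by
      rw [Finset.sum_const, Finset.card_univ, Fintype.card_fin, smul_eq_mul, mul_assoc]

/-- The classes for all primes. -/
theorem sigma_all : ∃ (e : ∀ p : ℕ, Finset ℂ → Finset (ZMod p)) (Γ : ∀ p : ℕ, ZMod p → Set ℂ),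
      (∀ ε : ℝ, 0 < ε → ∃ C : ℝ, ∀ p : ℕ, p.Prime → ∀ F : Finset ℂ,
        ((e p F).card : ℝ) ≤ C * (F.card + 1) * (p : ℝ) ^ (1 / 2 + ε)) ∧
      (∀ p F F', F ⊆ F' → e p F ⊆ e p F') ∧
      (∀ p a, (Γ p a).Subsingleton ∧ ∀ z ∈ Γ p a, ∃ τ : ℍ, IsCM τ ∧ jj τ = z) ∧
      (∀ p z a b, z ∈ Γ p a → z ∈ Γ p b → a = b) ∧
      ∀ p : ℕ, p.Prime → 3 < p →
      ∀ (n : ℕ) (K : Type) [Field K] [NumberField K] (σ : K →+* ℂ) (m : ℕ) (y : Fin n → ℂ),
        (∀ J : Finset (Fin n), J.card = m + 1 → ∃ (F : MvPolynomial (Fin n) K) (d : Fin n →₀ ℕ),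
          (∀ u ∈ F.support, u ≤ d) ∧ d.support ⊆ J ∧ F.coeff d ≠ 0 ∧
          (∀ u, PI p (F.coeff u)) ∧ PI p (F.coeff d)⁻¹ ∧ MvPolynomial.eval₂ σ y F = 0) →
        ∀ (s : Fin n → ℤ) (lam : Fin n → 𝓞 K), (∀ i, (p : 𝓞 K) ∣ lam i) → ∀ (x : Fin n → ℂ),
        (∀ i, x i = (s i : ℂ) + σ (lam i) * y i) → ∀ (F : Finset ℂ) (I : Finset (Fin n)),
        (∀ i ∈ I, (s i : ZMod p) ∉ e p F ∧ x i ∉ Γ p (s i) ∧ ((∃ τ : ℍ, IsCM τ ∧ jj τ = x i) ∨
          ∃ u ∈ F, Isog u (x i))) → I.card ≤ m := by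
  classical
  have hdata : ∀ p : ℕ, ∃ (e0 : Finset (ZMod p)) (Γ : ZMod p → Set ℂ) (bu : ℂ → Finset (ZMod p)),
      (∀ a, (Γ a).Subsingleton ∧ ∀ z ∈ Γ a, ∃ τ : ℍ, IsCM τ ∧ jj τ = z) ∧
      (∀ z a b, z ∈ Γ a → z ∈ Γ b → a = b) ∧
      (∀ H : ℕ, (∀ a, (SM p a).ncard ≤ H) → e0.card ≤ H + 2 ∧ ∀ u, (bu u).card ≤ 18 * H) ∧
      (p.Prime → 3 < p → ∀ (n : ℕ) (K : Type) [Field K] [NumberField K] (σ : K →+* ℂ) (m : ℕ)
        (y : Fin n → ℂ),
        (∀ J : Finset (Fin n), J.card = m + 1 → ∃ (F : MvPolynomial (Fin n) K) (d : Fin n →₀ ℕ),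
          (∀ u ∈ F.support, u ≤ d) ∧ d.support ⊆ J ∧ F.coeff d ≠ 0 ∧
          (∀ u, PI p (F.coeff u)) ∧ PI p (F.coeff d)⁻¹ ∧ MvPolynomial.eval₂ σ y F = 0) →
        ∀ (s : Fin n → ℤ) (lam : Fin n → 𝓞 K), (∀ i, (p : 𝓞 K) ∣ lam i) → ∀ (x : Fin n → ℂ),
        (∀ i, x i = (s i : ℂ) + σ (lam i) * y i) → ∀ (I : Finset (Fin n)),
        (∀ i ∈ I, (s i : ZMod p) ∉ e0 ∧ (((∃ τ : ℍ, IsCM τ ∧ jj τ = x i) ∧ x i ∉ Γ (s i)) ∨
          ∃ u, Isog u (x i) ∧ (s i : ZMod p) ∉ bu u)) → I.card ≤ m) := by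
    intro p
    by_cases h : p.Prime ∧ 3 < p
    · obtain ⟨e0, Γ, bu, h1, h2, h3, h4⟩ := sigma_data h.1 h.2
      exact ⟨e0, Γ, bu, h1, h2, h3, fun _ _ => h4⟩
    · refine ⟨∅, fun _ => ∅, fun _ => ∅, fun a => ⟨Set.subsingleton_empty, fun z hz => hz.elim⟩,
        fun z a b hz => hz.elim, fun H _ => ⟨?_, fun u => ?_⟩, fun h1 h2 => absurd ⟨h1, h2⟩ h⟩
      · rw [Finset.card_empty]
        exact Nat.zero_le _
      · rw [Finset.card_empty]
        exact Nat.zero_le _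
  choose e0 Γ bu hΓ hΓ2 hcard hglob using hdata
  refine ⟨fun p F => e0 p ∪ F.biUnion (bu p), Γ, fun ε hε => ?_, fun p F F' hFF => ?_, hΓ, hΓ2, ?_⟩
  · obtain ⟨C, hC1, hC⟩ := SM_bound hε
    refine ⟨18 * C, fun p hp F => ?_⟩
    have hp0 : (0 : ℝ) < p := by exact_mod_cast hp.pos
    have hp1 : (1 : ℝ) ≤ p := by exact_mod_cast hp.one_lt.le
    have hX1 : (1 : ℝ) ≤ C * (p : ℝ) ^ (1 / 2 + ε) := by
      have : (1 : ℝ) ≤ (p : ℝ) ^ (1 / 2 + ε) := Real.one_le_rpow hp1 (by positivity)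
      nlinarith
    set X := C * (p : ℝ) ^ (1 / 2 + ε) with hX
    set H := Nat.floor X with hH
    obtain ⟨h1, h2⟩ := hcard p H fun a => Nat.le_floor (hC p hp a)
    have hHX : (H : ℝ) ≤ X := Nat.floor_le (by linarith)
    have h3 : (e0 p ∪ F.biUnion (bu p)).card ≤ (H + 2) + F.card * (18 * H) := by
      refine (Finset.card_union_le _ _).trans (Nat.add_le_add h1 ?_)
      refine Finset.card_biUnion_le.trans ?_
      calc _ ≤ ∑ u ∈ F, 18 * H := Finset.sum_le_sum fun u _ => h2 u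
        _ = _ := by rw [Finset.sum_const, smul_eq_mul]
    have h4 : ((e0 p ∪ F.biUnion (bu p)).card : ℝ) ≤ (H + 2) + F.card * (18 * H) := by
      exact_mod_cast h3
    have hF : (0 : ℝ) ≤ F.card := Nat.cast_nonneg _
    have h5 : (F.card : ℝ) * (18 * H) ≤ F.card * (18 * X) :=
      mul_le_mul_of_nonneg_left (by linarith) hF
    calc ((e0 p ∪ F.biUnion (bu p)).card : ℝ) ≤ (H + 2) + F.card * (18 * H) := h4
      _ ≤ 18 * X + F.card * (18 * X) := by linarith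
      _ = 18 * C * (F.card + 1) * (p : ℝ) ^ (1 / 2 + ε) := by
          rw [hX]
          ring
  · exact Finset.union_subset_union_right (Finset.biUnion_subset_biUnion_of_subset_left _ hFF)
  · intro p hp hp3 n K _ _ σ m y hG s lam hlam x hxy F I hI
    refine hglob p hp hp3 n K σ m y hG s lam hlam x hxy I fun i hi => ?_
    obtain ⟨h1, h2, h3⟩ := hI i hi
    have h1' : (s i : ZMod p) ∉ e0 p ∪ F.biUnion (bu p) := h1
    rw [Finset.mem_union, not_or, Finset.mem_biUnion] at h1'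
    obtain ⟨h4, h5⟩ := h1'
    push Not at h5
    refine ⟨h4, ?_⟩
    rcases h3 with h3 | ⟨u, hu, h3⟩
    · exact Or.inl ⟨h3, h2⟩
    · exact Or.inr ⟨u, h3, h5 u hu⟩

end Pool.Agent.H882
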